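import Pool.Agent.Work.MP_910138_ag.C0.ChainD

/-! Multiplicative bases. -/

open CategoryTheory TrivSqZeroExt MulOpposite Polynomial

namespace Pool.Agent.Work.MP_910138_ag.C0

variable (k : Type) [Field k]

/-- a polynomial times a word -/
noncomputable def basLA (u : Wd) : k[X] →ₗ[k] AF k where
  toFun p := p • wd k u
  map_add' p q := add_smul p q _
  map_smul' c p := smul_assoc c p _

open Classical in
/-- the form supported by one word -/
noncomputable def basLD (u : Wd) : k[X] →ₗ[k] AD k where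
  toFun p := formOf k fun v => if v = u then p else 0
  map_add' p q := AD.ext_wd fun v => by
    rw [AD.toL_add, LinearMap.add_apply, formOf_wd, formOf_wd, formOf_wd]
    split_ifs <;> simp
  map_smul' c p := AD.ext_wd fun v => by
    rw [RingHom.id_apply, AD.toL_smul, LinearMap.smul_apply, formOf_wd, formOf_wd]
    split_ifs <;> simp

/-- the inclusion of the free part -/
noncomputable def basInl : AF k →ₗ[k] RR k where
  toFun := inl
  map_add' a b := TrivSqZeroExt.ext rfl (add_zero _).symm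
  map_smul' c a := TrivSqZeroExt.ext rfl (smul_zero _).symm

/-- the inclusion of the dual part -/
noncomputable def basInr : AD k →ₗ[k] RR k where
  toFun := inr
  map_add' a b := TrivSqZeroExt.ext (add_zero _).symm rfl
  map_smul' c a := TrivSqZeroExt.ext (smul_zero _).symm rfl

/-- the basis elements -/
noncomputable def basE : (Wd × ℕ) ⊕ (Wd × ℕ) → RR k
  | Sum.inl p => inl (basLA k p.1 (X ^ p.2))
  | Sum.inr p => inr (basLD k p.1 (X ^ p.2))

/-- the dual family -/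
noncomputable def basF : (Wd × ℕ) ⊕ (Wd × ℕ) → Module.Dual k (RR k)
  | Sum.inl p =>
    { toFun := fun r => (r.fst.coeff p.1).coeff p.2
      map_add' := fun a b => by
        rw [fst_add, MonoidAlgebra.coeff_add, Finsupp.add_apply, coeff_add]
      map_smul' := fun c a => by
        rw [fst_smul, MonoidAlgebra.coeff_smul_apply, coeff_smul, RingHom.id_apply] }
  | Sum.inr p =>
    { toFun := fun r => (r.snd.toL (wd k p.1)).coeff p.2
      map_add' := fun a b => by
        rw [snd_add, AD.toL_add, LinearMap.add_apply, coeff_add]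
      map_smul' := fun c a => by
        rw [snd_smul, AD.toL_smul, LinearMap.smul_apply, coeff_smul, RingHom.id_apply] }

/-- the index sets -/
def basJ (c1 c2 : Prop) (n m n' m' : ℤ) : Set ((Wd × ℕ) ⊕ (Wd × ℕ))
  | Sum.inl p => c1 ∧ (p.1.length : ℤ) = n ∧ (p.2 : ℤ) ≤ m
  | Sum.inr p => c2 ∧ (p.1.length : ℤ) = n' ∧ (p.2 : ℤ) ≤ m'

variable {k}

theorem bas_LA (u : Wd) (p : k[X]) : basLA k u p = p • wd k u := rfl

open Classical in
theorem bas_LD (u v : Wd) (p : k[X]) : (basLD k u p).toL (wd k v) = if v = u then p else 0 :=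
  formOf_wd k _ v

theorem bas_indep : LinearIndependent k (basE k) := by
  classical
  refine LinearIndependent.of_pairwise_dual_eq_zero_one _ (basF k) ?_ ?_
  · rintro (⟨u, j⟩ | ⟨u, j⟩) (⟨v, l⟩ | ⟨v, l⟩) h
    · change ((basLA k v (X ^ l)).coeff u).coeff j = 0
      rw [bas_LA, aal_coeff_smul_wd]
      split_ifs with e
      · rw [coeff_X_pow, if_neg]
        rintro rfl
        exact h (by rw [e])
      · rfl
    · rfl
    · rfl
    · change ((basLD k v (X ^ l)).toL (wd k u)).coeff j = 0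
      rw [bas_LD]
      split_ifs with e
      · rw [coeff_X_pow, if_neg]
        rintro rfl
        exact h (by rw [e])
      · rfl
  · rintro (⟨u, j⟩ | ⟨u, j⟩)
    · change ((basLA k u (X ^ j)).coeff u).coeff j = 1
      rw [bas_LA, aal_coeff_smul_wd, if_pos rfl, coeff_X_pow, if_pos rfl]
    · change ((basLD k u (X ^ j)).toL (wd k u)).coeff j = 1
      rw [bas_LD, if_pos rfl, coeff_X_pow, if_pos rfl]

theorem bas_words (n : ℤ) : {u : Wd | (u.length : ℤ) = n}.Finite := aal_finite_words n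

theorem bas_pairs (n m : ℤ) : {p : Wd × ℕ | (p.1.length : ℤ) = n ∧ (p.2 : ℤ) ≤ m}.Finite :=
  ((bas_words n).prod (Set.finite_le_nat m.toNat)).subset fun p hp =>
    ⟨hp.1, by have := hp.2; change p.2 ≤ m.toNat; omega⟩

theorem bas_fin (c1 c2 : Prop) (n m n' m' : ℤ) : (basJ c1 c2 n m n' m').Finite := by
  refine (((bas_pairs n m).image Sum.inl).union ((bas_pairs n' m').image Sum.inr)).subset ?_
  rintro (p | p) hp
  · exact Or.inl ⟨p, hp.2, rfl⟩
  · exact Or.inr ⟨p, hp.2, rfl⟩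

theorem bas_pow_mem {m : ℤ} {j : ℕ} (h : (j : ℤ) ≤ m) : (X ^ j : k[X]) ∈ degLE k m := fun i hi => by
  rw [coeff_X_pow, if_neg (by omega)]

theorem bas_poly {V : Type} [AddCommGroup V] [Module k V] (L : k[X] →ₗ[k] V) {W : Submodule k V}
    {m : ℤ} {p : k[X]} (hp : p ∈ degLE k m) (h : ∀ j : ℕ, (j : ℤ) ≤ m → L (X ^ j) ∈ W) :
    L p ∈ W := by
  rw [p.as_sum_support_C_mul_X_pow, map_sum]
  refine sum_mem fun j hj => ?_
  rw [← smul_eq_C_mul, map_smul]
  refine W.smul_mem _ (h j (not_lt.1 fun hlt => ?_))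
  exact mem_support_iff.1 hj (hp j hlt)

theorem bas_LA_mem {n m : ℤ} {u : Wd} {j : ℕ} (hu : (u.length : ℤ) = n) (hj : (j : ℤ) ≤ m) :
    basLA k u (X ^ j) ∈ Asub k n m := hu ▸ smul_wd_mem_Asub (bas_pow_mem hj) u

theorem bas_LD_mem {n m : ℤ} {u : Wd} {j : ℕ} (hu : (u.length : ℤ) = n) (hj : (j : ℤ) ≤ m) :
    basLD k u (X ^ j) ∈ Dsub k n m := fun v => by
  rw [bas_LD]
  split_ifs with e
  · exact ⟨bas_pow_mem hj, fun h => absurd (e ▸ hu) h⟩
  · exact ⟨zero_mem _, fun _ => rfl⟩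

theorem bas_D_sum {n m : ℤ} {ψ : AD k} (h : ψ ∈ Dsub k n m) :
    ψ = ∑ u ∈ (bas_words n).toFinset, basLD k u (ψ.toL (wd k u)) := by
  classical
  refine AD.ext_wd fun v => ?_
  rw [AD.toL_sum, LinearMap.sum_apply]
  by_cases hv : (v.length : ℤ) = n
  · rw [Finset.sum_eq_single v]
    · rw [bas_LD, if_pos rfl]
    · intro u _ hu
      rw [bas_LD, if_neg hu.symm]
    · intro hn
      exact absurd ((bas_words n).mem_toFinset.2 hv) hn
  · rw [(h v).2 hv]
    refine (Finset.sum_eq_zero fun u hu => ?_).symm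
    rw [bas_LD, if_neg]
    rintro rfl
    exact hv ((bas_words n).mem_toFinset.1 hu)

theorem bas_span {c1 c2 : Prop} {n m n' m' : ℤ} {P : Submodule k (AF k)} {N : Submodule k (AD k)}
    (hP : ∀ a, a ∈ P ↔ a ∈ Asub k n m ∧ (a ≠ 0 → c1))
    (hN : ∀ a, a ∈ N ↔ a ∈ Dsub k n' m' ∧ (a ≠ 0 → c2)) :
    Submodule.span k (basE k '' basJ c1 c2 n m n' m') = pairSub P N := by
  refine le_antisymm (Submodule.span_le.2 ?_) fun r hr => ?_
  · rintro _ ⟨p | p, hp, rfl⟩
    · exact ⟨(hP _).2 ⟨bas_LA_mem hp.2.1 hp.2.2, fun _ => hp.1⟩, zero_mem _⟩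
    · exact ⟨zero_mem _, (hN _).2 ⟨bas_LD_mem hp.2.1 hp.2.2, fun _ => hp.1⟩⟩
  · rw [← inl_fst_add_inr_snd_eq r]
    obtain ⟨h1, h2⟩ := (hP _).1 hr.1
    obtain ⟨h3, h4⟩ := (hN _).1 hr.2
    refine add_mem ?_ ?_
    · by_cases h0 : r.fst = 0
      · rw [h0, inl_zero]; exact zero_mem _
      · change basInl k r.fst ∈ _
        rw [aal_eq_sum r.fst, map_sum]
        refine sum_mem fun u hu => ?_
        exact bas_poly (basInl k ∘ₗ basLA k u) (h1 u).1 fun j hj =>
          Submodule.subset_span ⟨Sum.inl (u, j), ⟨h2 h0, aal_len h1 hu, hj⟩, rfl⟩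
    · by_cases h0 : r.snd = 0
      · rw [h0, inr_zero]; exact zero_mem _
      · change basInr k r.snd ∈ _
        rw [bas_D_sum h3, map_sum]
        refine sum_mem fun u hu => ?_
        exact bas_poly (basInr k ∘ₗ basLD k u) (h3 u).1 fun j hj =>
          Submodule.subset_span
            ⟨Sum.inr (u, j), ⟨h4 h0, (bas_words n').mem_toFinset.1 hu, hj⟩, rfl⟩

theorem bas_one : basE k (Sum.inl (1, 0)) = 1 := by
  change inl (basLA k 1 (X ^ 0)) = 1
  rw [bas_LA, pow_zero, one_smul, wd_one, inl_one]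

theorem bas_mul_AA (u v : Wd) (j l : ℕ) :
    basE k (Sum.inl (u, j)) * basE k (Sum.inl (v, l)) = basE k (Sum.inl (u * v, j + l)) := by
  change inl (basLA k u (X ^ j)) * inl (basLA k v (X ^ l)) = inl (basLA k (u * v) (X ^ (j + l)))
  rw [← inl_mul, bas_LA, bas_LA, bas_LA, smul_mul_smul_comm, wd_mul, pow_add]

theorem bas_mul_AD (u v : Wd) (j l : ℕ) :
    (∃ x, x * u = v ∧
      basE k (Sum.inl (u, j)) * basE k (Sum.inr (v, l)) = basE k (Sum.inr (x, j + l))) ∨
    basE k (Sum.inl (u, j)) * basE k (Sum.inr (v, l)) = 0 := by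
  classical
  have e : basE k (Sum.inl (u, j)) * basE k (Sum.inr (v, l)) =
      inr (basLA k u (X ^ j) • basLD k v (X ^ l)) := inl_mul_inr _ _
  have e2 : ∀ y, (basLA k u (X ^ j) • basLD k v (X ^ l)).toL (wd k y) =
      if y * u = v then X ^ (j + l) else 0 := fun y => by
    rw [AD.smul_apply, bas_LA, mul_smul_comm, map_smul, ← wd_mul, bas_LD]
    split_ifs
    · rw [smul_eq_mul, pow_add]
    · rw [smul_zero]
  rw [e]
  by_cases h : ∃ x, x * u = v
  · obtain ⟨x, rfl⟩ := h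
    refine Or.inl ⟨x, rfl, congrArg inr (AD.ext_wd fun y => ?_)⟩
    rw [e2, bas_LD]
    exact if_congr (mul_left_inj u) rfl rfl
  · refine Or.inr ((congrArg inr (AD.ext_wd fun y => ?_)).trans (inr_zero _))
    rw [e2, if_neg fun h' => h ⟨y, h'⟩]
    rfl

theorem bas_mul_DA (u v : Wd) (j l : ℕ) :
    (∃ x, u * x = v ∧
      basE k (Sum.inr (v, l)) * basE k (Sum.inl (u, j)) = basE k (Sum.inr (x, l + j))) ∨
    basE k (Sum.inr (v, l)) * basE k (Sum.inl (u, j)) = 0 := by
  classical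
  have e : basE k (Sum.inr (v, l)) * basE k (Sum.inl (u, j)) =
      inr (op (basLA k u (X ^ j)) • basLD k v (X ^ l)) := inr_mul_inl _ _
  have e2 : ∀ y, (op (basLA k u (X ^ j)) • basLD k v (X ^ l)).toL (wd k y) =
      if u * y = v then X ^ (l + j) else 0 := fun y => by
    rw [AD.op_smul_apply, unop_op, bas_LA, smul_mul_assoc, map_smul, ← wd_mul, bas_LD]
    split_ifs
    · rw [smul_eq_mul, add_comm, pow_add]
    · rw [smul_zero]
  rw [e]
  by_cases h : ∃ x, u * x = v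
  · obtain ⟨x, rfl⟩ := h
    refine Or.inl ⟨x, rfl, congrArg inr (AD.ext_wd fun y => ?_)⟩
    rw [e2, bas_LD]
    exact if_congr (mul_right_inj u) rfl rfl
  · refine Or.inr ((congrArg inr (AD.ext_wd fun y => ?_)).trans (inr_zero _))
    rw [e2, if_neg fun h' => h ⟨y, h'⟩]
    rfl

theorem bas_mul_DD (p q : Wd × ℕ) : basE k (Sum.inr p) * basE k (Sum.inr q) = 0 :=
  inr_mul_inr _ _ _

theorem bas_eq_one {u : Wd} {j : ℕ} (hu : u.length = 0) (hj : j = 0) :
    basE k (Sum.inl (u, j)) = 1 := by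
  rw [FreeMonoid.length_eq_zero.1 hu, hj, bas_one]

theorem bas_lab (s : Lb) : li s = (s.1 : ℕ) ∧ lk s = (s.2 : ℕ) ∧ (s.1 : ℕ) < 2 ∧ (s.2 : ℕ) < 2 :=
  ⟨rfl, rfl, s.1.2, s.2.2⟩

theorem bas_bool {a b : Bool} : a ≤ b ↔ a.toNat ≤ b.toNat := by
  cases a <;> cases b <;> simp

theorem bas_bool_eq {a b : Bool} (h : a.toNat = b.toNat) : a = b := by
  cases a <;> cases b <;> simp_all

variable (k)

theorem exists_basis_catA0 : ∃ β : MBasis (catA0 k), β.Closed := by
  have hmul : ∀ (s t u : Bool × Lb) (a b : RR k),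
      a ∈ basE k '' basJ (s.1 ≤ t.1) False (li t.2 - li s.2) (lk t.2 - lk s.2) 0 0 →
      b ∈ basE k '' basJ (t.1 ≤ u.1) False (li u.2 - li t.2) (lk u.2 - lk t.2) 0 0 →
      a * b ∈ basE k '' basJ (s.1 ≤ u.1) False (li u.2 - li s.2) (lk u.2 - lk s.2) 0 0 := by
    rintro s t u _ _ ⟨⟨x, j⟩ | p, hp, rfl⟩ ⟨⟨y, l⟩ | q, hq, rfl⟩
    · obtain ⟨h1, h2, h3⟩ := hp
      obtain ⟨h4, h5, h6⟩ := hq
      refine ⟨Sum.inl (x * y, j + l), ⟨h1.trans h4, ?_, ?_⟩, (bas_mul_AA _ _ _ _).symm⟩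
      · dsimp only at *
        rw [FreeMonoid.length_mul]; omega
      · dsimp only at *
        omega
    · exact hq.1.elim
    · exact hp.1.elim
    · exact hp.1.elim
  refine ⟨
    { B := fun s t => basE k '' basJ (s.1 ≤ t.1) False (li t.2 - li s.2) (lk t.2 - lk s.2) 0 0
      fin := fun s t => (bas_fin _ _ _ _ _ _).image _
      indep := fun s t => (bas_indep.linearIndepOn _).id_image
      span := fun s t => bas_span
        (fun a => mem_aFst.trans (and_congr_right' (imp_congr_right fun _ => and_iff_right rfl)))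
        fun a => ⟨fun h => ⟨h ▸ zero_mem _, fun h' => h' h⟩, fun h => by_contra h.2⟩
      deg0 := fun s t n hn => by
        change pairSub (aFst k s t n) ⊥ = ⊥
        rw [aFst, if_neg fun h => hn h.1, pairSub_bot]
      one_mem := fun s => ⟨Sum.inl (1, 0), ⟨le_rfl, by simp, by simp⟩, bas_one⟩
      mul_mem := fun ha hb => Or.inl (hmul _ _ _ _ _ ha hb)
      rk := fun s => 4 * s.1.toNat + 2 * s.2.1 + s.2.2
      rk_inj := fun s t h => ?_
      lt := ?_ }, hmul⟩
  · have h1 := bas_lab s.2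
    have h2 := bas_lab t.2
    dsimp only at h
    exact Prod.ext (bas_bool_eq (by omega)) (Prod.ext (Fin.ext (by omega)) (Fin.ext (by omega)))
  · rintro s t _ ⟨⟨x, j⟩ | p, hp, rfl⟩
    · obtain ⟨h1, h2, h3⟩ := hp
      have h4 := bas_lab s.2
      have h5 := bas_lab t.2
      rw [bas_bool] at h1
      dsimp only at h2 h3
      by_cases h : 4 * s.1.toNat + 2 * s.2.1 + s.2.2 < 4 * t.1.toNat + 2 * t.2.1 + t.2.2
      · exact Or.inl h
      · exact Or.inr ⟨Prod.ext (bas_bool_eq (by omega))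
          (Prod.ext (Fin.ext (by omega)) (Fin.ext (by omega))), bas_eq_one (by omega) (by omega)⟩
    · exact hp.1.elim

theorem nonempty_basis_catL : Nonempty (MBasis (catL k)) := by
  refine ⟨
    { B := fun s t => basE k '' basJ (s.1 = t.1 ∨ (s.1 = 0 ∧ t.1 = 2))
        ((s.1 = 0 ∧ t.1 = 1) ∨ (s.1 = 1 ∧ t.1 = 2)) (li t.2 - li s.2) (lk t.2 - lk s.2)
        (li s.2 - li t.2) (lk t.2 - lk s.2)
      fin := fun s t => (bas_fin _ _ _ _ _ _).image _
      indep := fun s t => (bas_indep.linearIndepOn _).id_image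
      span := fun s t => bas_span
        (fun a => mem_lFst.trans (and_congr_right' (imp_congr_right fun _ => and_iff_right rfl)))
        fun a => mem_lSnd.trans (and_congr_right' (imp_congr_right fun _ => and_iff_right rfl))
      deg0 := fun s t n hn => by
        change pairSub (lFst k s t n) (lSnd k s t n) = ⊥
        rw [lFst, lSnd, if_neg fun h => hn h.1, if_neg fun h => hn h.1, pairSub_bot]
      one_mem := fun s => ⟨Sum.inl (1, 0), ⟨Or.inl rfl, by simp, by simp⟩, bas_one⟩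
      mul_mem := ?_
      rk := fun s => 4 * s.1 + 2 * s.2.1 + s.2.2
      rk_inj := fun s t h => ?_
      lt := ?_ }⟩
  · rintro s t u _ _ ⟨⟨x, j⟩ | ⟨x, j⟩, ⟨h1, h2, h3⟩, rfl⟩ ⟨⟨y, l⟩ | ⟨y, l⟩, ⟨h4, h5, h6⟩, rfl⟩ <;>
      dsimp only at h2 h3 h5 h6
    · refine Or.inl ⟨Sum.inl (x * y, j + l), ⟨by omega, ?_, ?_⟩, (bas_mul_AA _ _ _ _).symm⟩
      · dsimp only
        rw [FreeMonoid.length_mul]; omega
      · dsimp only
        omega
    · rcases bas_mul_AD (k := k) x y j l with ⟨z, rfl, hz⟩ | hz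
      · rw [FreeMonoid.length_mul] at h5
        refine Or.inl ⟨Sum.inr (z, j + l), ⟨by omega, ?_, ?_⟩, hz.symm⟩ <;> dsimp only <;> omega
      · exact Or.inr hz
    · rcases bas_mul_DA (k := k) y x l j with ⟨z, rfl, hz⟩ | hz
      · rw [FreeMonoid.length_mul] at h2
        refine Or.inl ⟨Sum.inr (z, j + l), ⟨by omega, ?_, ?_⟩, hz.symm⟩ <;> dsimp only <;> omega
      · exact Or.inr hz
    · exact Or.inr (bas_mul_DD _ _)
  · have h1 := bas_lab s.2
    have h2 := bas_lab t.2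
    dsimp only at h
    exact Prod.ext (Fin.ext (by omega)) (Prod.ext (Fin.ext (by omega)) (Fin.ext (by omega)))
  · rintro s t _ ⟨⟨x, j⟩ | ⟨x, j⟩, ⟨h1, h2, h3⟩, rfl⟩
    · have h4 := bas_lab s.2
      have h5 := bas_lab t.2
      dsimp only at h2 h3
      by_cases h : 4 * (s.1 : ℕ) + 2 * s.2.1 + s.2.2 < 4 * t.1 + 2 * t.2.1 + t.2.2
      · exact Or.inl h
      · exact Or.inr ⟨Prod.ext (Fin.ext (by omega))
          (Prod.ext (Fin.ext (by omega)) (Fin.ext (by omega))), bas_eq_one (by omega) (by omega)⟩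
    · have h4 := bas_lab s.2
      have h5 := bas_lab t.2
      left
      omega

theorem catA_self0 (s : Bool × Lb) : ∀ a ∈ (catA k).sub s s 0, ∃ c : k, a = c • (1 : RR k) := by
  intro a ha
  obtain ⟨h1, h2⟩ := mem_catA.1 ha
  have h3 := (mem_aFst.1 h1).1
  rw [AS, sub_self, sub_self] at h3
  obtain ⟨c, hc⟩ := mem_degLE_zero.1 (h3 1).1
  refine ⟨c, TrivSqZeroExt.ext ?_ ?_⟩
  · rw [fst_smul, fst_one, Asub_zero h3, hc, ← algebraMap_smul k[X] c, algebraMap_eq]
  · rw [snd_smul, snd_one, smul_zero]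
    by_contra h
    have := ((mem_aSnd.1 h2).2 h).1
    omega

theorem catA_selfn (s : Bool × Lb) (n : ℤ) (hn : n ≠ 0) : (catA k).sub s s n = ⊥ := by
  change pairSub (aFst k s s n) (aSnd k s s n) = ⊥
  rw [aFst, aSnd, if_neg fun h => hn h.1, if_neg, pairSub_bot]
  rintro ⟨_, h1, h2⟩
  rw [h1] at h2
  exact Bool.false_ne_true h2

/-- the rank of an object of `𝒜` -/
def rkA (s : Bool × Lb) : ℕ := 4 * s.1.toNat + 2 * s.2.1 + s.2.2

theorem catA_orth (s t : Bool × Lb) (n : ℤ) (h : s ≠ t) (h' : rkA s ≤ rkA t) :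
    (catA k).sub t s n = ⊥ := by
  have h4 := bas_lab s.2
  have h5 := bas_lab t.2
  unfold rkA at h'
  refine eq_bot_iff.2 fun a ha => ?_
  obtain ⟨h1, h2⟩ := mem_catA.1 ha
  rw [mem_aFst] at h1
  rw [mem_aSnd] at h2
  refine TrivSqZeroExt.ext (by_contra fun h0 => h ?_) (by_contra fun h0 => ?_)
  · have e1 := bas_bool.1 (h1.2 h0).2
    have e2 : ¬ li s.2 - li t.2 < 0 := fun hl => h0 (Asub_neg_left hl h1.1)
    have e3 : ¬ lk s.2 - lk t.2 < 0 := fun hl => h0 (Asub_neg_right hl h1.1)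
    exact Prod.ext (bas_bool_eq (by omega)) (Prod.ext (Fin.ext (by omega)) (Fin.ext (by omega)))
  · obtain ⟨_, e1, e2⟩ := h2.2 h0
    rw [e1, e2, Bool.toNat_true, Bool.toNat_false] at h'
    omega

end Pool.Agent.Work.MP_910138_ag.C0
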