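import Mathlib
import Pool.Agent.Work.MP_910138_ag.GBase2
import Pool.Agent.Work.MP_910138_ag.TWt
import Pool.Agent.Work.MP_910138_ag.GSupp
import Pool.Agent.Work.MP_910138_ag.GQC
import Pool.Agent.Work.MP_910138_ag.GRes
import Pool.Agent.Work.MP_910138_ag.GAV

-- merged part: Pool.Agent.Work.MP_910138_ag.C0.KLatDef
section
/-! Combinatorial data of a smooth projective toric variety whose fan has the combinatorial type of
a product of projective lines. The rays are indexed by `κ × Bool`. -/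

namespace Pool.Agent.Work.MP_910138_ag.C0

variable {K κ : Type}

/-- characters, recorded by their values on the rays -/
abbrev Wt (κ : Type) : Type := κ × Bool → ℤ

/-- Laurent polynomials -/
abbrev Lam (K κ : Type) [Field K] : Type := AddMonoidAlgebra K (Wt κ)

/-- cones: for each `k` at most one of the rays `(k, false)`, `(k, true)` -/
abbrev Cone (κ : Type) : Type := κ → Option Bool

/-- the maximal cone attached to `v` -/
def vtx (v : κ → Bool) : Cone κ := fun k => some (v k)

/-- the zero cone -/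
def tor (κ : Type) : Cone κ := fun _ => none

/-- the monomial -/
noncomputable def mon [Field K] (e : Wt κ) : Lam K κ := AddMonoidAlgebra.single e 1

/-- the weight `e` is allowed on the cone `τ` for the divisor `n` -/
def Allowed (n : Wt κ) (τ : Cone κ) (e : Wt κ) : Prop :=
  ∀ a : κ × Bool, τ a.1 = some a.2 → 0 ≤ e a + n a

/-- sections of `O(n)` on the chart `τ` -/
def InSpan [Field K] (Lat : AddSubgroup (Wt κ)) (n : Wt κ) (τ : Cone κ) (l : Lam K κ) : Prop :=
  ∀ e ∈ l.coeff.support, e ∈ Lat ∧ Allowed n τ e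

/-- the weights that can contribute to the cohomology of `O(n)` -/
def GoodW (Lat : AddSubgroup (Wt κ)) (n : Wt κ) : Set (Wt κ) :=
  {e | e ∈ Lat ∧ ∀ k, (0 ≤ e (k, false) + n (k, false) ↔ 0 ≤ e (k, true) + n (k, true))}

/-- the lattice of characters and an ample divisor (the field is recorded for later use) -/
structure LatData (K κ : Type) where
  Lat : AddSubgroup (Wt κ)
  vert : ∀ (v : κ → Bool) (c : κ → ℤ), ∃! e : Wt κ, e ∈ Lat ∧ ∀ k, e (k, v k) = c k
  amp : Wt κ
  strict : ∀ (v : κ → Bool) (e : Wt κ), e ∈ Lat → (∀ k, e (k, v k) + amp (k, v k) = 0) →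
    ∀ k, 0 < e (k, !v k) + amp (k, !v k)
  fin_good : ∀ n, (GoodW Lat n).Finite
  idp : ∀ (d : ℕ) (e : Wt κ), e ∈ Lat → (∀ a, 0 ≤ e a + (d + 1) * amp a) →
    ∃ p ∈ Lat, (∀ a, 0 ≤ p a + amp a) ∧ ∀ a, 0 ≤ e a - p a + d * amp a
  deg0 : ∀ e ∈ Lat, (∀ a, 0 ≤ e a) → e = 0
  nb : ∀ (d : ℕ) (e : Wt κ), 0 < d → e ∈ Lat → (∀ a, 0 ≤ e a + d * amp a) → ∀ k,
    0 < e (k, false) + d * amp (k, false) ∨ 0 < e (k, true) + d * amp (k, true)

/-- the vertex of the divisor `n` at the maximal cone `v` -/
noncomputable def LatData.u (D : LatData K κ) (n : Wt κ) (v : κ → Bool) : Wt κ :=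
  (D.vert v fun k => -n (k, v k)).exists.choose

theorem LatData.u_mem (D : LatData K κ) (n : Wt κ) (v : κ → Bool) : D.u n v ∈ D.Lat :=
  (D.vert v fun k => -n (k, v k)).exists.choose_spec.1

theorem LatData.u_apply (D : LatData K κ) (n : Wt κ) (v : κ → Bool) (k : κ) :
    D.u n v (k, v k) = -n (k, v k) :=
  (D.vert v fun k => -n (k, v k)).exists.choose_spec.2 k

theorem LatData.eq_of_vert (D : LatData K κ) (v : κ → Bool) {e e' : Wt κ} (he : e ∈ D.Lat)
    (he' : e' ∈ D.Lat) (h : ∀ k, e (k, v k) = e' (k, v k)) : e = e' :=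
  (D.vert v fun k => e' (k, v k)).unique ⟨he, h⟩ ⟨he', fun _ => rfl⟩

section
variable [Field K]

theorem mon_add (e e' : Wt κ) : (mon (e + e') : Lam K κ) = mon e * mon e' := by
  rw [mon, mon, mon, AddMonoidAlgebra.single_mul_single, one_mul]

theorem mon_zero : (mon (0 : Wt κ) : Lam K κ) = 1 := rfl

theorem mon_ne_zero (e : Wt κ) : (mon e : Lam K κ) ≠ 0 := by
  rw [mon, Ne, AddMonoidAlgebra.single_eq_zero]
  exact one_ne_zero

theorem support_mon (e : Wt κ) : (mon e : Lam K κ).coeff.support = {e} := by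
  rw [mon, AddMonoidAlgebra.coeff_single, Finsupp.support_single _ one_ne_zero]

theorem inSpan_mon {Lat : AddSubgroup (Wt κ)} {n e : Wt κ} {τ : Cone κ} :
    InSpan Lat n τ (mon e : Lam K κ) ↔ e ∈ Lat ∧ Allowed n τ e := by
  rw [InSpan, support_mon]
  simp

theorem mem_support_mon_mul {u e : Wt κ} {l : Lam K κ} :
    e ∈ (mon u * l).coeff.support ↔ e - u ∈ l.coeff.support := by
  rw [Finsupp.mem_support_iff, Finsupp.mem_support_iff, mon,
    AddMonoidAlgebra.coeff_single_mul_apply, one_mul, neg_add_eq_sub]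

end

variable [Fintype κ] [DecidableEq κ]

/-- the number of missing rays -/
def nB (τ : Cone κ) : ℕ := (Finset.univ.filter fun k => τ k = none).card

/-- an auxiliary numbering of the coordinates -/
noncomputable def crk (k : κ) : ℕ := Fintype.equivFin κ k

/-- the sign of the face of `τ` in the direction `(k, b)` -/
noncomputable def csg (τ : Cone κ) (k : κ) (b : Bool) : ℤ :=
  (-1) ^ (Finset.univ.filter fun l => crk l < crk k ∧ τ l = none).card * if b then 1 else -1

/-- the Čech differential on cochains -/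
noncomputable def cob {A : Type} [AddCommGroup A] (c : Cone κ → A) (τ : Cone κ) : A :=
  ∑ a : κ × Bool, if τ a.1 = none then csg τ a.1 a.2 • c (Function.update τ a.1 (some a.2)) else 0

/-- the Čech differential on chains -/
noncomputable def bnd {A : Type} [AddCommGroup A] (c : Cone κ → A) (τ : Cone κ) : A :=
  ∑ a : κ × Bool, if τ a.1 = some a.2 then csg τ a.1 a.2 • c (Function.update τ a.1 none) else 0

/-- `c` is concentrated in degree `i` -/
def Deg {A : Type} [AddCommGroup A] (i : ℕ) (c : Cone κ → A) : Prop := ∀ τ, nB τ ≠ i → c τ = 0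

end Pool.Agent.Work.MP_910138_ag.C0
end

-- merged part: Pool.Agent.Work.MP_910138_ag.C0.KData
section
/-! Toric charts on a scheme. -/

open CategoryTheory Limits AlgebraicGeometry TopologicalSpace Opposite

namespace Pool.Agent.Work.MP_910138_ag.C0

variable {X : Scheme.{0}} {κ : Type} [Fintype κ]

/-- the factor of a chart -/
def cell (V : κ → Bool → X.Opens) (k : κ) : Option Bool → X.Opens
  | some b => V k b
  | none => V k false ⊓ V k true

/-- the chart attached to a cone -/
def chart (V : κ → Bool → X.Opens) (τ : Cone κ) : X.Opens :=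
  Finset.univ.inf fun k => cell V k (τ k)

theorem le_cell {V : κ → Bool → X.Opens} {k : κ} {t : Option Bool} {W : X.Opens} :
    W ≤ cell V k t ↔ ∀ b, t = none ∨ t = some b → W ≤ V k b := by
  rcases t with _ | b
  · simp [cell]
  · simp [cell]

theorem le_chart {V : κ → Bool → X.Opens} {τ : Cone κ} {W : X.Opens} :
    W ≤ chart V τ ↔ ∀ k b, τ k = none ∨ τ k = some b → W ≤ V k b := by
  simp only [chart, Finset.le_inf_iff, Finset.mem_univ, forall_const, le_cell]

theorem mem_chart {V : κ → Bool → X.Opens} {τ : Cone κ} {x : X} :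
    x ∈ chart V τ ↔ ∀ k b, τ k = none ∨ τ k = some b → x ∈ V k b := by
  refine ⟨fun h k b hk => le_chart.1 le_rfl k b hk h, fun h => ?_⟩
  have : ∀ s : Finset κ, x ∈ s.inf fun k => cell V k (τ k) := by
    classical
    intro s
    induction s using Finset.induction_on with
    | empty => trivial
    | insert k s _ ih =>
      rw [Finset.inf_insert]
      refine ⟨?_, ih⟩
      rcases hk : τ k with _ | b
      · exact ⟨h k false (Or.inl hk), h k true (Or.inl hk)⟩
      · exact h k b (Or.inr hk)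
  exact this _

theorem chart_mono {V : κ → Bool → X.Opens} {τ τ' : Cone κ}
    (h : ∀ k, τ k = none ∨ τ k = τ' k) : chart V τ ≤ chart V τ' :=
  le_chart.2 fun k b hk => le_chart.1 le_rfl k b (by
    rcases h k with h | h
    · exact Or.inl h
    · rwa [h])

theorem tor_le (V : κ → Bool → X.Opens) (τ : Cone κ) : chart V (tor κ) ≤ chart V τ :=
  chart_mono fun _ => Or.inl rfl

theorem chart_le_update [DecidableEq κ] (V : κ → Bool → X.Opens) {τ : Cone κ} {k : κ}
    (h : τ k = none) (b : Bool) : chart V τ ≤ chart V (Function.update τ k (some b)) :=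
  chart_mono fun j => by
    by_cases hj : j = k
    · exact Or.inl (hj ▸ h)
    · exact Or.inr (Function.update_of_ne hj _ _).symm

open Classical in
/-- the intersection of two cones -/
noncomputable def meet (τ τ' : Cone κ) : Cone κ := fun k => if τ k = τ' k then τ k else none

theorem chart_inf (V : κ → Bool → X.Opens) (τ τ' : Cone κ) :
    chart V τ ⊓ chart V τ' = chart V (meet τ τ') := by
  refine le_antisymm (le_chart.2 fun k b hk => ?_) (le_inf (chart_mono fun k => ?_)
    (chart_mono fun k => ?_))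
  · by_cases h : τ k = τ' k
    · rw [meet, if_pos h] at hk
      exact inf_le_left.trans (le_chart.1 le_rfl k b hk)
    · by_cases h1 : τ k = none ∨ τ k = some b
      · exact inf_le_left.trans (le_chart.1 le_rfl k b h1)
      · refine inf_le_right.trans (le_chart.1 le_rfl k b ?_)
        revert h h1
        rcases τ k with _ | _ | _ <;> rcases τ' k with _ | _ | _ <;> cases b <;> simp
  · by_cases h : τ k = τ' k
    · exact Or.inr (if_pos h)
    · exact Or.inl (if_neg h)
  · by_cases h : τ k = τ' k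
    · exact Or.inr ((if_pos h).trans h)
    · exact Or.inl (if_neg h)

theorem exists_mem_chart_vtx {V : κ → Bool → X.Opens} (cover : ∀ k, V k false ⊔ V k true = ⊤)
    (x : X) : ∃ v, x ∈ chart V (vtx v) := by
  have : ∀ k, ∃ b, x ∈ V k b := fun k => by
    have hx : x ∈ V k false ⊔ V k true := by
      rw [cover k]
      trivial
    rcases hx with h | h
    · exact ⟨_, h⟩
    · exact ⟨_, h⟩
  choose v hv using this
  refine ⟨v, mem_chart.2 fun k b hk => ?_⟩
  rcases hk with hk | hk
  · exact absurd hk (Option.some_ne_none _)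
  · exact Option.some_injective _ hk ▸ hv k

theorem iSup_chart_vtx {V : κ → Bool → X.Opens} (cover : ∀ k, V k false ⊔ V k true = ⊤) :
    (iSup fun v : κ → Bool => chart V (vtx v)) = ⊤ :=
  top_le_iff.1 fun x _ => Opens.mem_iSup.2 (exists_mem_chart_vtx cover x)

variable {K : Type} [Field K]

/-- a toric structure on a scheme -/
structure ToricData (D : LatData K κ) (X : Scheme.{0}) where
  V : κ → Bool → X.Opens
  cover : ∀ k, V k false ⊔ V k true = ⊤
  affine : ∀ τ, IsAffineOpen (chart V τ)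
  ev : ∀ τ, Γ(X, chart V τ) →+* Lam K κ
  ev_res : ∀ τ τ' (h : chart V τ ≤ chart V τ') (s : Γ(X, chart V τ')),
    ev τ (resO X h s) = ev τ' s
  ev_inj : ∀ τ, Function.Injective (ev τ)
  ev_range : ∀ τ (l : Lam K κ), (∃ s, ev τ s = l) ↔ InSpan D.Lat 0 τ l
  basic : ∀ τ (f : Γ(X, chart V τ)) (e : Wt κ) (k : κ) (b : Bool), ev τ f = mon e →
    τ k = some b → 0 < e (k, b) → X.basicOpen f ≤ V k (!b)

variable {D : LatData K κ} (T : ToricData D X)

/-- the charts -/
abbrev ToricData.U (τ : Cone κ) : X.Opens := chart T.V τ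

/-- the open torus -/
abbrev ToricData.torus : X.Opens := chart T.V (tor κ)

open Classical in
/-- the function on a chart given by a character (zero if the character is not regular there) -/
noncomputable def ToricData.chi (τ : Cone κ) (e : Wt κ) : Γ(X, T.U τ) :=
  if h : ∃ s, T.ev τ s = mon e then h.choose else 0

theorem ToricData.ev_chi {τ : Cone κ} {e : Wt κ} (he : e ∈ D.Lat) (h : Allowed 0 τ e) :
    T.ev τ (T.chi τ e) = mon e := by
  have h' : ∃ s, T.ev τ s = mon e := (T.ev_range τ _).2 (inSpan_mon.2 ⟨he, h⟩)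
  rw [ToricData.chi, dif_pos h']
  exact h'.choose_spec

/-- the ring homomorphism attached to a structure morphism -/
noncomputable def strHom (f : X ⟶ Spec (CommRingCat.of K)) : K →+* Γ(X, ⊤) :=
  ((Scheme.ΓSpecIso (CommRingCat.of K)).inv ≫ f.appTop).hom

/-- the charts are compatible with the constants -/
def ToricData.IsAlg (φ : K →+* Γ(X, ⊤)) : Prop :=
  ∀ τ c, T.ev τ (resO X (le_top : T.U τ ≤ ⊤) (φ c)) = AddMonoidAlgebra.single 0 c

theorem allowed_tor (n e : Wt κ) : Allowed n (tor κ) e := fun _ h =>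
  absurd h.symm (Option.some_ne_none _)

end Pool.Agent.Work.MP_910138_ag.C0
end

-- merged part: Pool.Agent.Work.MP_910138_ag.C0.KRing
section
/-! The coordinate rings of the toric charts. -/

open CategoryTheory Limits AlgebraicGeometry TopologicalSpace Opposite Abelian

namespace Pool.Agent.Work.MP_910138_ag.C0

variable {X : Scheme.{0}} {K κ : Type} [Field K] [Fintype κ] {D : LatData K κ}
  (T : ToricData D X)

open Classical in
/-- the face of `τ` on which `e` vanishes -/
noncomputable def face (τ : Cone κ) (e : Wt κ) : Cone κ := fun k =>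
  if ∃ b, τ k = some b ∧ 0 < e (k, b) then none else τ k

omit [Fintype κ] in
theorem tring_face {τ : Cone κ} {e : Wt κ} {k : κ} {b : Bool} :
    face τ e k = some b ↔ τ k = some b ∧ e (k, b) ≤ 0 := by
  unfold face
  split_ifs with h
  · obtain ⟨b', h1, h2⟩ := h
    refine ⟨False.elim, fun h => ?_⟩
    obtain rfl : b' = b := Option.some_injective _ (h1.symm.trans h.1)
    exact absurd h.2 h2.not_ge
  · exact ⟨fun h1 => ⟨h1, not_lt.1 fun h2 => h ⟨b, h1, h2⟩⟩, fun h => h.1⟩

theorem ToricData.basicOpen_mon {τ : Cone κ} {e : Wt κ} (f : Γ(X, T.U τ)) (hf : T.ev τ f = mon e) :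
    X.basicOpen f = T.U (face τ e) := by
  obtain ⟨h1, -⟩ := inSpan_mon.1 ((T.ev_range τ _).1 ⟨f, hf⟩)
  have hle : T.U (face τ e) ≤ T.U τ := chart_mono fun k => by
    unfold face
    split_ifs
    exacts [Or.inl rfl, Or.inr rfl]
  refine le_antisymm (le_chart.2 fun k b hk => ?_) ?_
  · by_cases h : τ k = none ∨ τ k = some b
    · exact (X.basicOpen_le f).trans (le_chart.1 le_rfl k b h)
    · have h3 : τ k = some !b := by
        revert h
        rcases τ k with _ | _ | _ <;> cases b <;> simp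
      have h4 : 0 < e (k, !b) := not_le.1 fun h4 => by
        rw [tring_face.2 ⟨h3, h4⟩] at hk
        revert hk
        cases b <;> simp
      simpa using T.basic τ f e k (!b) hf h3 h4
  · have h3 : Allowed 0 (face τ e) (-e) := fun a ha => by simpa using (tring_face.1 ha).2
    have h4 : resO X hle f * T.chi (face τ e) (-e) = 1 := T.ev_inj _ (by
      rw [map_mul, T.ev_res, hf, T.ev_chi (neg_mem h1) h3, ← mon_add, add_neg_cancel, mon_zero,
        map_one])
    have h5 := X.basicOpen_of_isUnit (IsUnit.of_mul_eq_one _ h4)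
    exact h5.ge.trans ((X.basicOpen_res f (homOfLE hle).op).trans_le inf_le_right)

theorem ToricData.exists_basicOpen {τ τ' : Cone κ} (h : ∀ k, τ k = none ∨ τ k = τ' k) :
    ∃ f : Γ(X, T.U τ'), X.basicOpen f = T.U τ := by
  obtain ⟨e, ⟨h1, h2⟩, -⟩ := D.vert (fun k => (τ' k).getD false)
    fun k => if τ k = none then 1 else 0
  have h3 : ∀ k b, τ' k = some b → e (k, b) = if τ k = none then 1 else 0 := fun k b hk => by
    rw [← h2 k, hk, Option.getD_some]
  refine ⟨T.chi τ' e, (T.basicOpen_mon _ (T.ev_chi h1 fun a ha => ?_)).trans ?_⟩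
  · rw [h3 a.1 a.2 ha]
    split_ifs <;> simp
  · congr 1
    refine funext fun k => Option.ext fun b => tring_face.trans ⟨fun ⟨h4, h5⟩ => ?_, fun h4 => ?_⟩
    · rw [h3 k b h4] at h5
      exact ((h k).resolve_left fun h6 => by simp [h6] at h5).trans h4
    · have h5 : τ k ≠ none := by simp [h4]
      have h6 := ((h k).resolve_left h5).symm.trans h4
      exact ⟨h6, by rw [h3 k b h6, if_neg h5]⟩

theorem ToricData.exists_ringEquiv (v : κ → Bool) :
    ∃ e : Γ(X, T.U (vtx v)) ≃+* MvPolynomial κ K, ∀ s c,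
      T.ev (vtx v) s = AddMonoidAlgebra.single 0 c → e s = MvPolynomial.C c := by
  classical
  choose g hg1 hg2 using fun c : κ →₀ ℕ => (D.vert v fun k => (c k : ℤ)).exists
  let φ : (κ →₀ ℕ) →+ Wt κ :=
    { toFun := g
      map_zero' := D.eq_of_vert v (hg1 _) (zero_mem _) fun k => by simp [hg2]
      map_add' := fun c c' => D.eq_of_vert v (hg1 _) (add_mem (hg1 _) (hg1 _)) fun k => by
        simp [hg2] }
  have hφ : Function.Injective φ := fun c c' h => Finsupp.ext fun k => by
    have : g c (k, v k) = g c' (k, v k) := congrFun h _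
    rw [hg2, hg2] at this
    exact_mod_cast this
  have hr : ∀ e, e ∈ Set.range φ ↔ e ∈ D.Lat ∧ Allowed 0 (vtx v) e := fun e => by
    constructor
    · rintro ⟨c, rfl⟩
      refine ⟨hg1 c, fun ⟨k, b⟩ ha => ?_⟩
      obtain rfl : v k = b := Option.some_injective _ ha
      change 0 ≤ g c _ + 0
      rw [hg2, add_zero]
      exact Int.natCast_nonneg _
    · rintro ⟨h1, h2⟩
      refine ⟨Finsupp.equivFunOnFinite.symm fun k => (e (k, v k)).toNat,
        D.eq_of_vert v (hg1 _) h1 fun k => (hg2 _ k).trans ?_⟩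
      exact Int.toNat_of_nonneg (by simpa using h2 (k, v k) rfl)
  let Φ : MvPolynomial κ K →+* Lam K κ := AddMonoidAlgebra.mapDomainRingHom K φ
  have hΦ : Function.Injective Φ := AddMonoidAlgebra.mapDomain_injective hφ
  have hrange : (T.ev (vtx v)).range = Φ.range := by
    ext l
    refine (T.ev_range _ l).trans ⟨fun h => ⟨_, AddMonoidAlgebra.mapDomain_comapDomain
      (fun e he => (hr e).2 (h e he)) hφ⟩, ?_⟩
    rintro ⟨p, rfl⟩ e he
    obtain ⟨c, -, rfl⟩ := Finset.mem_image.1 (Finsupp.mapDomain_support he)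
    exact (hr _).1 ⟨c, rfl⟩
  let e₁ : Γ(X, T.U (vtx v)) ≃+* (T.ev (vtx v)).range :=
    RingEquiv.ofBijective (T.ev (vtx v)).rangeRestrict
      ⟨fun _ _ h => T.ev_inj _ (congrArg Subtype.val h), (T.ev (vtx v)).rangeRestrict_surjective⟩
  let e₂ : MvPolynomial κ K ≃+* Φ.range :=
    RingEquiv.ofBijective Φ.rangeRestrict ⟨fun _ _ h => hΦ (congrArg Subtype.val h),
      Φ.rangeRestrict_surjective⟩
  refine ⟨(e₁.trans (RingEquiv.subringCongr hrange)).trans e₂.symm, fun s c hs => ?_⟩
  rw [RingEquiv.trans_apply, RingEquiv.symm_apply_eq]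
  refine Subtype.ext ?_
  change T.ev (vtx v) s = Φ (AddMonoidAlgebra.single 0 c)
  rw [hs]
  exact ((AddMonoidAlgebra.mapDomain_single (f := φ) ..).trans (by rw [map_zero])).symm

theorem ToricData.nonempty_ringEquiv (v : κ → Bool) :
    Nonempty (Γ(X, T.U (vtx v)) ≃+* MvPolynomial κ K) :=
  ⟨(T.exists_ringEquiv v).choose⟩

end Pool.Agent.Work.MP_910138_ag.C0
end

-- merged part: Pool.Agent.Work.MP_910138_ag.C0.KRing2
section
/-! Geometric properties of a scheme with a toric structure. -/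

open CategoryTheory Limits AlgebraicGeometry TopologicalSpace Opposite Abelian

namespace Pool.Agent.Work.MP_910138_ag.C0

variable {X : Scheme.{0}} {K κ : Type} [Field K] [Fintype κ] {D : LatData K κ}
  (T : ToricData D X)

include T

theorem ToricData.tring2_domain (τ : Cone κ) : IsDomain Γ(X, T.U τ) :=
  Function.Injective.isDomain (T.ev τ) (T.ev_inj τ)

theorem ToricData.tring2_irr (τ : Cone κ) : IsIrreducible (T.U τ : Set X) := by
  have := T.tring2_domain τ
  have h := (IrreducibleSpace.isIrreducible_univ (Spec Γ(X, T.U τ))).image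
    (T.affine τ).fromSpec (T.affine τ).fromSpec.continuous.continuousOn
  rwa [Set.image_univ, (T.affine τ).range_fromSpec] at h

theorem ToricData.torus_nonempty : ∃ x : X, x ∈ T.torus := (T.tring2_irr (tor κ)).nonempty

theorem ToricData.tring2_meet {A : Set X} (hA : IsOpen A) (h : A.Nonempty) :
    ((T.torus : Set X) ∩ A).Nonempty := by
  obtain ⟨a, ha⟩ := h
  obtain ⟨v, hv⟩ := exists_mem_chart_vtx T.cover a
  obtain ⟨t, ht⟩ := T.torus_nonempty
  obtain ⟨x, -, hx⟩ := (T.tring2_irr (vtx v)).isPreirreducible _ _ T.torus.isOpen hA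
    ⟨t, tor_le _ _ ht, ht⟩ ⟨a, hv, ha⟩
  exact ⟨x, hx⟩

theorem ToricData.isIntegral : IsIntegral X := by
  have : IsReduced X := by
    have h : ∀ v, IsReduced ((X.openCoverOfIsOpenCover _ (iSup_chart_vtx T.cover)).X v) := by
      intro v
      have := T.tring2_domain (vtx v)
      exact isReduced_of_isOpenImmersion (T.affine (vtx v)).isoSpec.hom
    exact IsReduced.of_openCover X (X.openCoverOfIsOpenCover _ (iSup_chart_vtx T.cover))
  have : PreirreducibleSpace X := ⟨fun A B hA hB h₁ h₂ => by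
    rw [Set.univ_inter] at h₁ h₂ ⊢
    exact ((T.tring2_irr (tor κ)).isPreirreducible A B hA hB (T.tring2_meet hA h₁)
      (T.tring2_meet hB h₂)).mono Set.inter_subset_right⟩
  have : IrreducibleSpace X := ⟨⟨T.torus_nonempty.choose⟩⟩
  exact isIntegral_of_irreducibleSpace_of_isReduced X

theorem ToricData.res_torus_injective (W : X.Opens) :
    Function.Injective (resO X (inf_le_left : W ⊓ T.torus ≤ W)) := by
  rcases (W : Set X).eq_empty_or_nonempty with h | h
  · exact fun s t _ => sepO fun x hx => absurd (show x ∈ (W : Set X) from hx) (by simp [h])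
  · obtain ⟨x, h1, h2⟩ := T.tring2_meet W.isOpen h
    have := T.isIntegral
    have : Nonempty (W ⊓ T.torus : X.Opens) := ⟨⟨x, h2, h1⟩⟩
    exact map_injective_of_isIntegral X (homOfLE (inf_le_left : W ⊓ T.torus ≤ W))

theorem ToricData.isLocallyNoetherian : IsLocallyNoetherian X :=
  isLocallyNoetherian_of_affine_cover (S := fun v => ⟨T.U (vtx v), T.affine _⟩)
    (iSup_chart_vtx T.cover) fun v =>
      isNoetherianRing_of_ringEquiv _ (T.nonempty_ringEquiv v).some.symm

theorem ToricData.glDim (τ : Cone κ) : GlDimLE Γ(X, T.U τ) (Nat.card κ) := by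
  obtain ⟨f, hf⟩ := T.exists_basicOpen (τ := τ) (τ' := vtx fun k => (τ k).getD false) fun k => by
    rw [vtx]
    rcases τ k with _ | b
    · exact Or.inl rfl
    · exact Or.inr rfl
  have := (T.affine _).isLocalization_basicOpen f
  rw [← hf]
  exact ((glDimLE_mvPolynomial K κ).of_ringEquiv
    (T.nonempty_ringEquiv _).some.symm).localization (Submonoid.powers f)

omit T [Fintype κ] in
theorem kring_smooth [Finite κ] {A B : Type} [CommRing A] [CommRing B] (i : A ≃+* K)
    (e : B ≃+* MvPolynomial κ K) (φ : A →+* B) (h : ∀ c, e (φ (i.symm c)) = MvPolynomial.C c) :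
    φ.Smooth := by
  have h : φ = (e.symm.toRingHom.comp (algebraMap K (MvPolynomial κ K))).comp i.toRingHom := by
    refine RingHom.ext fun x => e.injective ?_
    have := h (i x)
    rw [RingEquiv.symm_apply_apply] at this
    rw [this]
    simp
  rw [h]
  exact (RingHom.Smooth.of_bijective i.bijective).comp
    ((RingHom.smooth_algebraMap.2 ⟨inferInstance, inferInstance⟩).comp
      (RingHom.Smooth.of_bijective e.symm.bijective))

theorem ToricData.smooth (f : X ⟶ Spec (CommRingCat.of K)) (hf : T.IsAlg (strHom f)) :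
    Smooth f :=
  HasRingHomProperty.of_iSup_eq_top (P := @Smooth) (fun v => ⟨T.U (vtx v), T.affine _⟩)
    (iSup_chart_vtx T.cover) fun v => kring_smooth
      (Scheme.ΓSpecIso (CommRingCat.of K)).commRingCatIsoToRingEquiv
      (T.exists_ringEquiv v).choose _ fun c =>
        (T.exists_ringEquiv v).choose_spec _ c (hf (vtx v) c)

end Pool.Agent.Work.MP_910138_ag.C0
end

-- merged part: Pool.Agent.Work.MP_910138_ag.C0.KLine
section
/-! The line bundles on a toric variety. -/

open CategoryTheory Limits AlgebraicGeometry TopologicalSpace Opposite Abelian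

namespace Pool.Agent.Work.MP_910138_ag.C0

variable {X : Scheme.{0}} {K κ : Type} [Field K] [Fintype κ] {D : LatData K κ}
  (T : ToricData D X)

/-- a section of `push (OX X) V` as a function -/
noncomputable def pushFun {V W : X.Opens} (s : Γ(push (OX X) V, W)) : Γ(X, W ⊓ V) :=
  pushSec (OX X) V W s

/-- a function as a section of `push (OX X) V` -/
noncomputable def ofFun {V W : X.Opens} (s : Γ(X, W ⊓ V)) : Γ(push (OX X) V, W) :=
  (pushSec (OX X) V W).symm s

theorem pushFun_ofFun {V W : X.Opens} (s : Γ(X, W ⊓ V)) : pushFun (ofFun s) = s := rfl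

theorem pushFun_injective {V W : X.Opens} :
    Function.Injective (pushFun : Γ(push (OX X) V, W) → Γ(X, W ⊓ V)) := fun _ _ h => h

theorem pushFun_add {V W : X.Opens} (s t : Γ(push (OX X) V, W)) :
    pushFun (s + t) = pushFun s + pushFun t := rfl

theorem pushFun_zero {V W : X.Opens} : pushFun (0 : Γ(push (OX X) V, W)) = 0 := rfl

theorem pushFun_smul {V W : X.Opens} (r : Γ(X, W)) (s : Γ(push (OX X) V, W)) :
    pushFun (r • s) = resO X (inf_le_left : W ⊓ V ≤ W) r * pushFun s := rfl

theorem pushFun_res {V W W' : X.Opens} (h : W' ≤ W) (s : Γ(push (OX X) V, W)) :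
    pushFun (res (push (OX X) V) h s) = resO X (inf_le_inf_right V h) (pushFun s) := rfl

/-- the rational functions that are locally multiples of the vertex characters of `n` -/
noncomputable def ToricData.lineData (n : Wt κ) : SubData (push (OX X) T.torus) where
  sub W :=
    { carrier := {s | ∀ x ∈ W, ∀ v, x ∈ T.U (vtx v) → ∃ (W' : X.Opens) (h : W' ≤ W), x ∈ W' ∧
        ∃ r : Γ(X, W'), resO X (inf_le_inf_right T.torus h) (pushFun s) =
          resO X inf_le_left r * resO X inf_le_right (T.chi (tor κ) (D.u n v))}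
      zero_mem' := fun x hx v _ => ⟨W, le_rfl, hx, 0, by
        rw [pushFun_zero, map_zero, map_zero, zero_mul]⟩
      add_mem' := fun {a b} ha hb x hx v hv => by
        obtain ⟨W₁, h₁, x₁, r₁, e₁⟩ := ha x hx v hv
        obtain ⟨W₂, h₂, x₂, r₂, e₂⟩ := hb x hx v hv
        refine ⟨W₁ ⊓ W₂, inf_le_left.trans h₁, ⟨x₁, x₂⟩,
          resO X inf_le_left r₁ + resO X inf_le_right r₂, ?_⟩
        have f₁ := congrArg (resO X (inf_le_inf_right T.torus (inf_le_left : W₁ ⊓ W₂ ≤ W₁))) e₁
        have f₂ := congrArg (resO X (inf_le_inf_right T.torus (inf_le_right : W₁ ⊓ W₂ ≤ W₂))) e₂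
        simp only [map_mul, resO_resO] at f₁ f₂
        rw [pushFun_add, map_add, map_add, add_mul, resO_resO, resO_resO, f₁, f₂]
      smul_mem' := fun c a ha x hx v hv => by
        obtain ⟨W₁, h₁, x₁, r₁, e₁⟩ := ha x hx v hv
        refine ⟨W₁, h₁, x₁, resO X h₁ c * r₁, ?_⟩
        rw [pushFun_smul, map_mul, e₁, map_mul, resO_resO, resO_resO, mul_assoc] }
  res_mem {U W} h s hs x hx v hv := by
    obtain ⟨W₁, h₁, x₁, r₁, e₁⟩ := hs x (h hx) v hv
    refine ⟨U ⊓ W₁, inf_le_left, ⟨hx, x₁⟩, resO X inf_le_right r₁, ?_⟩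
    have f₁ := congrArg (resO X (inf_le_inf_right T.torus (inf_le_right : U ⊓ W₁ ≤ W₁))) e₁
    simp only [map_mul, resO_resO] at f₁
    rw [pushFun_res, resO_resO, resO_resO, f₁]
  loc {U s} hs x hx v hv := by
    obtain ⟨W, hW, xW, hs'⟩ := hs x hx
    obtain ⟨W₁, h₁, x₁, r₁, e₁⟩ := hs' x xW v hv
    refine ⟨W₁, h₁.trans hW, x₁, r₁, ?_⟩
    rw [pushFun_res, resO_resO] at e₁
    exact e₁

/-- the line bundle `O(n)` -/
noncomputable def ToricData.L (n : Wt κ) : X.Modules := (T.lineData n).mod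

/-- a section of `O(n)` as a function on the torus -/
noncomputable def ToricData.fn {n : Wt κ} {W : X.Opens} (s : Γ(T.L n, W)) : Γ(X, W ⊓ T.torus) :=
  pushFun ((T.lineData n).ι.app W s)

theorem ToricData.fn_injective (n : Wt κ) (W : X.Opens) :
    Function.Injective (T.fn : Γ(T.L n, W) → Γ(X, W ⊓ T.torus)) :=
  pushFun_injective.comp ((T.lineData n).ι_injective W)

theorem ToricData.fn_add {n : Wt κ} {W : X.Opens} (s t : Γ(T.L n, W)) :
    T.fn (s + t) = T.fn s + T.fn t := rfl

theorem ToricData.fn_smul {n : Wt κ} {W : X.Opens} (r : Γ(X, W)) (s : Γ(T.L n, W)) :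
    T.fn (r • s) = resO X (inf_le_left : W ⊓ T.torus ≤ W) r * T.fn s := rfl

theorem ToricData.fn_res {n : Wt κ} {W W' : X.Opens} (h : W' ≤ W) (s : Γ(T.L n, W)) :
    T.fn (res (T.L n) h s) = resO X (inf_le_inf_right T.torus h) (T.fn s) := rfl

theorem tline_mul {τ : Cone κ} {e e' : Wt κ} (he : e ∈ D.Lat) (he' : e' ∈ D.Lat)
    (h : Allowed 0 τ (e - e')) :
    T.chi (tor κ) e = resO X (tor_le T.V τ) (T.chi τ (e - e')) * T.chi (tor κ) e' := by
  refine T.ev_inj (tor κ) ?_
  rw [map_mul, T.ev_res, T.ev_chi he (allowed_tor _ _), T.ev_chi he' (allowed_tor _ _),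
    T.ev_chi (sub_mem he he') h, ← mon_add, sub_add_cancel]

theorem tline_mul' {τ : Cone κ} {e e' : Wt κ} (he : e ∈ D.Lat) (he' : e' ∈ D.Lat)
    (h : Allowed 0 τ (e - e')) {W : X.Opens} (hW : W ≤ T.U τ) :
    resO X (inf_le_right : W ⊓ T.torus ≤ T.torus) (T.chi (tor κ) e) =
      resO X inf_le_left (resO X hW (T.chi τ (e - e'))) *
        resO X inf_le_right (T.chi (tor κ) e') := by
  rw [tline_mul T he he' h, map_mul, resO_resO, resO_resO]

theorem tline_zero : T.chi (tor κ) 0 = 1 :=
  T.ev_inj (tor κ) (by rw [T.ev_chi (zero_mem _) (allowed_tor _ _), mon_zero, map_one])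

theorem tline_unit {e : Wt κ} (he : e ∈ D.Lat) : IsUnit (T.chi (tor κ) e) := by
  have := tline_mul T (τ := tor κ) (zero_mem _) he (allowed_tor _ _)
  rw [tline_zero, mul_comm] at this
  exact IsUnit.of_mul_eq_one _ this.symm

theorem tline_cancel {W : X.Opens} {e : Wt κ} (he : e ∈ D.Lat) {r r' : Γ(X, W)}
    (h : resO X (inf_le_left : W ⊓ T.torus ≤ W) r * resO X inf_le_right (T.chi (tor κ) e) =
      resO X inf_le_left r' * resO X inf_le_right (T.chi (tor κ) e)) : r = r' :=
  T.res_torus_injective W (((tline_unit T he).map _).mul_right_cancel h)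

theorem ToricData.gen_mem (n : Wt κ) (v : κ → Bool) :
    ofFun (resO X (inf_le_right : T.U (vtx v) ⊓ T.torus ≤ T.torus) (T.chi (tor κ) (D.u n v))) ∈
      (T.lineData n).sub (T.U (vtx v)) := by
  intro x hx w hw
  have a : Allowed 0 (meet (vtx v) (vtx w)) (D.u n v - D.u n w) := by
    rintro ⟨k, b⟩ hk
    simp only [meet] at hk
    split_ifs at hk with e
    obtain rfl : v k = b := Option.some_injective _ hk
    have e' : v k = w k := Option.some_injective _ e
    have h1 := D.u_apply n v k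
    have h2 := D.u_apply n w k
    rw [← e'] at h2
    simp [h1, h2]
  refine ⟨T.U (vtx v) ⊓ T.U (vtx w), inf_le_left, ⟨hx, hw⟩,
    resO X (chart_inf T.V _ _).le (T.chi _ (D.u n v - D.u n w)), ?_⟩
  rw [pushFun_ofFun, resO_resO]
  exact tline_mul' T (D.u_mem n v) (D.u_mem n w) a _

theorem ToricData.one_mem (n : Wt κ) :
    ofFun (1 : Γ(X, T.torus ⊓ T.torus)) ∈ (T.lineData n).sub T.torus := by
  intro x hx w _
  refine ⟨T.torus, le_rfl, hx, resO X le_rfl (T.chi (tor κ) (0 - D.u n w)), ?_⟩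
  rw [pushFun_ofFun, map_one, ← tline_mul' T (zero_mem _) (D.u_mem n w) (allowed_tor _ _),
    tline_zero, map_one]

/-- the generator on a maximal chart -/
noncomputable def ToricData.gen (n : Wt κ) (v : κ → Bool) : Γ(T.L n, T.U (vtx v)) :=
  (T.lineData n).mkSec _ (T.gen_mem n v)

theorem ToricData.fn_gen (n : Wt κ) (v : κ → Bool) :
    T.fn (T.gen n v) = resO X inf_le_right (T.chi (tor κ) (D.u n v)) := rfl

/-- the generator on the torus -/
noncomputable def ToricData.one (n : Wt κ) : Γ(T.L n, T.torus) :=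
  (T.lineData n).mkSec _ (T.one_mem n)

theorem ToricData.fn_one (n : Wt κ) : T.fn (T.one n) = 1 := rfl

theorem ToricData.isGen_gen (n : Wt κ) (v : κ → Bool) : IsGen (T.L n) (T.U (vtx v)) (T.gen n v) := by
  intro W h
  have key : ∀ r : Γ(X, W), T.fn (r • res (T.L n) h (T.gen n v)) =
      resO X inf_le_left r * resO X inf_le_right (T.chi (tor κ) (D.u n v)) := fun r => by
    rw [T.fn_smul, T.fn_res, T.fn_gen, resO_resO]
  refine ⟨fun r r' e => tline_cancel T (D.u_mem n v) ?_, fun s => ?_⟩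
  · rw [← key, ← key]
    exact congrArg T.fn e
  have hs : ∀ x : W, ∃ (W' : X.Opens) (h : W' ≤ W), (x : X) ∈ W' ∧
      ∃ r : Γ(X, W'), resO X (inf_le_inf_right T.torus h) (T.fn s) =
        resO X inf_le_left r * resO X inf_le_right (T.chi (tor κ) (D.u n v)) := fun x =>
    (T.lineData n).ι_mem s x x.2 v (h x.2)
  choose V hV xV r hr using hs
  obtain ⟨t, ht⟩ := glueO V hV (fun x hx => Opens.mem_iSup.2 ⟨⟨x, hx⟩, xV ⟨x, hx⟩⟩) r (by
    intro i j
    refine tline_cancel T (D.u_mem n v) ?_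
    have f₁ := congrArg (resO X (inf_le_inf_right T.torus (inf_le_left : V i ⊓ V j ≤ V i))) (hr i)
    have f₂ := congrArg (resO X (inf_le_inf_right T.torus (inf_le_right : V i ⊓ V j ≤ V j))) (hr j)
    simp only [map_mul, resO_resO] at f₁ f₂ ⊢
    rw [← f₁, f₂])
  refine ⟨t, T.fn_injective n W ?_⟩
  rw [key]
  refine sepO fun x hx => ⟨V ⟨x, hx.1⟩ ⊓ T.torus, inf_le_inf_right _ (hV _), ⟨xV _, hx.2⟩, ?_⟩
  rw [hr, ← ht, map_mul, resO_resO, resO_resO, resO_resO]

theorem ToricData.qcOn_L (n : Wt κ) (τ : Cone κ) : QCOn (T.U τ) (T.L n) := by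
  refine IsGen.qcOn (T.affine τ) ((T.isGen_gen n fun k => (τ k).getD false).res
    (chart_mono fun k => ?_))
  rcases h : τ k with _ | b
  · exact Or.inl rfl
  · exact Or.inr (by simp [vtx, h])

theorem ToricData.lineData_mono {n n' : Wt κ} (h : n ≤ n') (W : X.Opens) :
    (T.lineData n).sub W ≤ (T.lineData n').sub W := by
  intro s hs x hx v hv
  obtain ⟨W₁, h₁, x₁, r₁, e₁⟩ := hs x hx v hv
  have a : Allowed 0 (vtx v) (D.u n v - D.u n' v) := by
    rintro ⟨k, b⟩ hk
    obtain rfl : v k = b := Option.some_injective _ hk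
    have : n (k, v k) ≤ n' (k, v k) := h (k, v k)
    simp only [Pi.sub_apply, D.u_apply, Pi.zero_apply]
    omega
  refine ⟨W₁ ⊓ T.U (vtx v), inf_le_left.trans h₁, ⟨x₁, hv⟩,
    resO X inf_le_left r₁ * resO X inf_le_right (T.chi (vtx v) (D.u n v - D.u n' v)), ?_⟩
  have f₁ := congrArg
    (resO X (inf_le_inf_right T.torus (inf_le_left : W₁ ⊓ T.U (vtx v) ≤ W₁))) e₁
  simp only [map_mul, resO_resO] at f₁
  rw [f₁, tline_mul' T (D.u_mem n v) (D.u_mem n' v) a inf_le_right, map_mul, mul_assoc,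
    resO_resO (s := r₁)]

/-- the inclusion -/
noncomputable def ToricData.incl {n n' : Wt κ} (h : n ≤ n') : T.L n ⟶ T.L n' :=
  (T.lineData n').lift (T.lineData n).ι fun W s => T.lineData_mono h W ((T.lineData n).ι_mem s)

theorem ToricData.fn_incl {n n' : Wt κ} (h : n ≤ n') {W : X.Opens} (s : Γ(T.L n, W)) :
    T.fn ((T.incl h).app W s) = T.fn s := rfl

theorem ToricData.incl_self (n : Wt κ) : T.incl (le_refl n) = 𝟙 _ :=
  hom_ext' fun _ _ => rfl

theorem ToricData.incl_comp {n n' n'' : Wt κ} (h : n ≤ n') (h' : n' ≤ n'') :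
    T.incl h ≫ T.incl h' = T.incl (h.trans h') :=
  hom_ext' fun _ _ => rfl

end Pool.Agent.Work.MP_910138_ag.C0
end

-- merged part: Pool.Agent.Work.MP_910138_ag.C0.KOp
section
/-! Exactness of the cubical Čech complexes. -/

namespace Pool.Agent.Work.MP_910138_ag.C0

theorem kop_ring {κ R : Type} [DecidableEq κ] [Ring R]
    (S : Subsemiring R) (d h p : κ → R) (hh : ∀ k, h k ∈ S) (hp : ∀ k, p k ∈ S)
    (e : ∀ k, d k * h k + h k * d k = 1 - p k) (cdh : ∀ k l, k ≠ l → d k * h l + h l * d k = 0)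
    (cdp : ∀ k l, Commute (d k) (p l)) (cpp : ∀ k l, Commute (p k) (p l)) (s : Finset κ) :
    ∃ H P : R, H ∈ S ∧ P ∈ S ∧ (∑ k ∈ s, d k) * H + H * (∑ k ∈ s, d k) = 1 - P ∧
      (∀ l, l ∉ s → d l * H + H * d l = 0) ∧ (∀ l, Commute (d l) P) ∧ (∀ l, Commute (p l) P) ∧
      ∀ k ∈ s, ∃ X, P = p k * X := by
  induction s using Finset.induction_on with
  | empty =>
    exact ⟨0, 1, S.zero_mem, S.one_mem, by simp, fun _ _ => by simp,
      fun _ => Commute.one_right _, fun _ => Commute.one_right _, by simp⟩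
  | insert k s hk ih =>
    obtain ⟨H, P, a1, a2, a3, a4, a5, a6, a7⟩ := ih
    have a8 : ∀ l, l ≠ k → d l * (P * h k) + P * h k * d l = 0 := fun l hl => by
      rw [← mul_assoc, (a5 l).eq, mul_assoc, mul_assoc, ← mul_add, cdh l k hl, mul_zero]
    refine ⟨H + P * h k, P * p k, S.add_mem a1 (S.mul_mem a2 (hh k)), S.mul_mem a2 (hp k), ?_,
      fun l hl => ?_, fun l => (a5 l).mul_right (cdp l k), fun l => (a6 l).mul_right (cpp l k),
      fun l hl => ?_⟩
    · rw [Finset.sum_insert hk]
      have b3 : (∑ l ∈ s, d l) * (P * h k) + P * h k * ∑ l ∈ s, d l = 0 := by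
        rw [Finset.sum_mul, Finset.mul_sum, ← Finset.sum_add_distrib]
        exact Finset.sum_eq_zero fun l hl => a8 l fun e => hk (e ▸ hl)
      have b4 : (d k + ∑ l ∈ s, d l) * (H + P * h k) + (H + P * h k) * (d k + ∑ l ∈ s, d l) =
          (d k * H + H * d k) + ((∑ l ∈ s, d l) * H + H * ∑ l ∈ s, d l) +
            (d k * P * h k + P * (h k * d k)) +
            ((∑ l ∈ s, d l) * (P * h k) + P * h k * ∑ l ∈ s, d l) := by
        noncomm_ring
      rw [b4, a4 k hk, (a5 k).eq, b3, a3, mul_assoc P, ← mul_add P, e, mul_sub, mul_one, zero_add,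
        add_zero, sub_add_sub_cancel]
    · rw [Finset.mem_insert, not_or] at hl
      rw [mul_add, add_mul, add_add_add_comm, a4 l hl.2, a8 l hl.1, add_zero]
    · rcases Finset.mem_insert.1 hl with rfl | hl
      · exact ⟨P, (a6 l).eq.symm⟩
      · obtain ⟨X, rfl⟩ := a7 l hl
        exact ⟨X * p k, mul_assoc _ _ _⟩

variable {κ : Type} [Fintype κ] [DecidableEq κ] {A : Type} [AddCommGroup A]

theorem nB_update_none {τ : Cone κ} {k : κ} (h : τ k ≠ none) :
    nB (Function.update τ k none) = nB τ + 1 := by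
  have e : (Finset.univ.filter fun l => Function.update τ k none l = none) =
      insert k (Finset.univ.filter fun l => τ l = none) := by
    ext l
    by_cases hl : l = k
    · simp [hl]
    · simp [hl]
  rw [nB, e, Finset.card_insert_of_notMem (by simpa using h), nB]

theorem nB_update_some {τ : Cone κ} {k : κ} (h : τ k = none) (b : Bool) :
    nB (Function.update τ k (some b)) + 1 = nB τ := by
  rw [← nB_update_none (k := k) (by simp), Function.update_idem, ← h, Function.update_eq_self]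

theorem nB_eq_zero_iff {τ : Cone κ} : nB τ = 0 ↔ ∃ v, τ = vtx v := by
  rw [nB, Finset.card_eq_zero, Finset.filter_eq_empty_iff]
  constructor
  · intro h
    refine ⟨fun k => (τ k).getD false, funext fun k => ?_⟩
    have := h (Finset.mem_univ k)
    rcases hk : τ k with _ | b
    · exact absurd hk this
    · simp [vtx, hk]
  · rintro ⟨v, rfl⟩ k _
    simp [vtx]

/-- the local factor of the sign -/
noncomputable def kop_w (k l : κ) (s : Option Bool) : ℤ :=
  if crk l < crk k ∧ s = none then -1 else 1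

omit [DecidableEq κ] in
theorem kop_csg (τ : Cone κ) (k : κ) (b : Bool) :
    csg τ k b = (∏ l, kop_w k l (τ l)) * if b then 1 else -1 := by
  simp only [csg, kop_w, Finset.prod_ite, Finset.prod_const, one_pow, mul_one]

omit [DecidableEq κ] in
theorem kop_w_sq (k l : κ) (s : Option Bool) : kop_w k l s * kop_w k l s = 1 := by
  unfold kop_w
  split_ifs <;> rfl

theorem kop_upd (τ : Cone κ) (k l : κ) (t : Option Bool) (b : Bool) :
    csg (Function.update τ l t) k b = kop_w k l (τ l) * kop_w k l t * csg τ k b := by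
  have e : ∏ m ∈ Finset.univ.erase l, kop_w k m (Function.update τ l t m) =
      ∏ m ∈ Finset.univ.erase l, kop_w k m (τ m) := Finset.prod_congr rfl fun m hm => by
    rw [Function.update_of_ne (Finset.ne_of_mem_erase hm)]
  rw [kop_csg, kop_csg, ← Finset.mul_prod_erase _ _ (Finset.mem_univ l),
    ← Finset.mul_prod_erase _ _ (Finset.mem_univ l), e, Function.update_self]
  linear_combination (-kop_w k l t * (∏ m ∈ Finset.univ.erase l, kop_w k m (τ m)) *
    if b then 1 else -1) * kop_w_sq k l (τ l)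

theorem csg_update (τ : Cone κ) (k : κ) (t : Option Bool) (b : Bool) :
    csg (Function.update τ k t) k b = csg τ k b := by
  simp [kop_upd, kop_w]

theorem csg_not (τ : Cone κ) (k : κ) (b : Bool) : csg τ k (!b) = -csg τ k b := by
  cases b <;> simp [csg]

theorem csg_mul_self (τ : Cone κ) (k : κ) (b : Bool) : csg τ k b * csg τ k b = 1 := by
  cases b <;> simp [csg, ← mul_pow]

omit [DecidableEq κ] in
theorem kop_anti {k l : κ} (h : k ≠ l) {s t s' t' : Option Bool} (hs : s.isSome = !t.isSome)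
    (hs' : s'.isSome = !t'.isSome) :
    kop_w l k s * kop_w l k t + kop_w k l s' * kop_w k l t' = 0 := by
  have h1 : crk k ≠ crk l := fun e => h ((Fintype.equivFin κ).injective (Fin.ext e))
  have h2 : ∀ (k l : κ) (s t : Option Bool), s.isSome = !t.isSome →
      kop_w l k s * kop_w l k t = if crk k < crk l then -1 else 1 := fun k l s t h => by
    cases s <;> cases t <;> simp [kop_w] at h ⊢
  rw [h2 k l s t hs, h2 l k s' t' hs']
  split_ifs <;> first | rfl | omega

/-- the matrix units in the coordinate `k` -/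
def kop_E (A : Type) [AddCommGroup A] (k : κ) (s t : Option Bool) : AddMonoid.End (Cone κ → A) :=
  AddMonoidHom.mk' (fun c τ => if τ k = s then c (Function.update τ k t) else 0) fun a b => by
    funext τ
    by_cases h : τ k = s <;> simp [h]

/-- the signed matrix units in the coordinate `k` -/
noncomputable def kop_O (A : Type) [AddCommGroup A] (k : κ) (β : Bool) (s t : Option Bool) :
    AddMonoid.End (Cone κ → A) :=
  AddMonoidHom.mk' (fun c τ => if τ k = s then csg τ k β • c (Function.update τ k t) else 0)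
    fun a b => by
      funext τ
      by_cases h : τ k = s <;> simp [h]

section

omit [Fintype κ]

theorem kop_E_apply (k : κ) (s t : Option Bool) (c : Cone κ → A) (τ : Cone κ) :
    kop_E A k s t c τ = if τ k = s then c (Function.update τ k t) else 0 := rfl

omit [DecidableEq κ] in
theorem kop_ext {X Y : AddMonoid.End (Cone κ → A)} (h : ∀ c τ, X c τ = Y c τ) : X = Y :=
  AddMonoidHom.ext fun c => funext (h c)

omit [DecidableEq κ] in
theorem kop_add_apply (X Y : AddMonoid.End (Cone κ → A)) (c : Cone κ → A) :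
    (X + Y) c = X c + Y c := rfl

omit [DecidableEq κ] in
theorem kop_sub_apply (X Y : AddMonoid.End (Cone κ → A)) (c : Cone κ → A) :
    (X - Y) c = X c - Y c := rfl

omit [DecidableEq κ] in
theorem kop_neg_apply (X : AddMonoid.End (Cone κ → A)) (c : Cone κ → A) : (-X) c = -X c := rfl

omit [DecidableEq κ] in
theorem kop_mul_apply (X Y : AddMonoid.End (Cone κ → A)) (c : Cone κ → A) :
    (X * Y) c = X (Y c) := rfl

theorem kop_sum_apply (s : Finset κ) (X : κ → AddMonoid.End (Cone κ → A)) (c : Cone κ → A)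
    (τ : Cone κ) : (∑ k ∈ s, X k) c τ = ∑ k ∈ s, X k c τ := by
  induction s using Finset.induction_on with
  | empty => rfl
  | insert k s hk ih => rw [Finset.sum_insert hk, Finset.sum_insert hk, ← ih]; rfl

theorem kop_E_comm {k l : κ} (h : k ≠ l) (s t s' t' : Option Bool) :
    Commute (kop_E A k s t) (kop_E A l s' t') := by
  refine kop_ext fun c τ => ?_
  simp only [kop_mul_apply, kop_E_apply, Function.update_of_ne h, Function.update_of_ne h.symm,
    Function.update_comm h]
  split_ifs <;> rfl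

theorem kop_E_self {k : κ} {s : Option Bool} {τ : Cone κ} (h : τ k = s) (c : Cone κ → A) :
    kop_E A k s s c τ = c τ := by
  rw [kop_E_apply, if_pos h, ← h, Function.update_eq_self]

theorem kop_E_ne {k : κ} {s : Option Bool} {τ : Cone κ} (h : τ k ≠ s) (t : Option Bool)
    (c : Cone κ → A) : kop_E A k s t c τ = 0 := if_neg h

theorem kop_E_one (k : κ) (b : Bool) : kop_E A k none none + kop_E A k (some b) (some b) +
    kop_E A k (some (!b)) (some (!b)) = 1 := by
  refine kop_ext fun c τ => ?_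
  change kop_E A k none none c τ + kop_E A k (some b) (some b) c τ +
    kop_E A k (some (!b)) (some (!b)) c τ = c τ
  by_cases h : τ k = none
  · rw [kop_E_self h, kop_E_ne (by simp [h]), kop_E_ne (by simp [h]), add_zero, add_zero]
  by_cases h' : τ k = some b
  · rw [kop_E_self h', kop_E_ne h, kop_E_ne (by simp [h']), add_zero, zero_add]
  · have h'' : τ k = some (!b) := by
      revert h h'
      rcases τ k with _ | _ | _ <;> cases b <;> simp
    rw [kop_E_self h'', kop_E_ne h, kop_E_ne h', add_zero, zero_add]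

end

theorem kop_O_apply (k : κ) (β : Bool) (s t : Option Bool) (c : Cone κ → A) (τ : Cone κ) :
    kop_O A k β s t c τ = if τ k = s then csg τ k β • c (Function.update τ k t) else 0 := rfl

theorem kop_O_not (k : κ) (β : Bool) (s t : Option Bool) :
    kop_O A k (!β) s t = -kop_O A k β s t := by
  refine kop_ext fun c τ => ?_
  simp only [kop_neg_apply, Pi.neg_apply, kop_O_apply, csg_not]
  split_ifs <;> simp

theorem kop_OO (k : κ) (β : Bool) (s t s' t' : Option Bool) :
    kop_O A k β s t * kop_O A k β s' t' = if t = s' then kop_E A k s t' else 0 := by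
  refine kop_ext fun c τ => ?_
  by_cases h : t = s'
  · simp only [kop_mul_apply, kop_O_apply, kop_E_apply, h, if_true, Function.update_self,
      Function.update_idem, csg_update, smul_smul, csg_mul_self, one_smul]
  · simp only [kop_mul_apply, kop_O_apply, h, if_false, Function.update_self, smul_zero, ite_self]
    rfl

theorem kop_OE (k : κ) (β : Bool) (s t s' t' : Option Bool) :
    kop_O A k β s t * kop_E A k s' t' = if t = s' then kop_O A k β s t' else 0 := by
  refine kop_ext fun c τ => ?_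
  by_cases h : t = s'
  · simp only [kop_mul_apply, kop_O_apply, kop_E_apply, h, if_true, Function.update_self,
      Function.update_idem]
  · simp only [kop_mul_apply, kop_O_apply, kop_E_apply, h, if_false, Function.update_self,
      smul_zero, ite_self]
    rfl

theorem kop_EO (k : κ) (β : Bool) (s t s' t' : Option Bool) :
    kop_E A k s t * kop_O A k β s' t' = if t = s' then kop_O A k β s t' else 0 := by
  refine kop_ext fun c τ => ?_
  by_cases h : t = s'
  · simp only [kop_mul_apply, kop_O_apply, kop_E_apply, h, if_true, Function.update_self,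
      Function.update_idem, csg_update]
  · simp only [kop_mul_apply, kop_O_apply, kop_E_apply, h, if_false, Function.update_self, ite_self]
    rfl

theorem kop_O_anti {k l : κ} (h : k ≠ l) (β β' : Bool) {s t s' t' : Option Bool}
    (hs : s.isSome = !t.isSome) (hs' : s'.isSome = !t'.isSome) :
    kop_O A k β s t * kop_O A l β' s' t' + kop_O A l β' s' t' * kop_O A k β s t = 0 := by
  refine kop_ext fun c τ => ?_
  simp only [kop_add_apply, Pi.add_apply, kop_mul_apply, kop_O_apply, Function.update_of_ne h,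
    Function.update_of_ne h.symm, Function.update_comm h, kop_upd]
  change _ = (0 : A)
  split_ifs with h1 h2
  · rw [smul_smul, smul_smul, ← add_smul, h1, h2]
    convert zero_smul ℤ _
    linear_combination csg τ k β * csg τ l β' * kop_anti h hs hs'
  all_goals simp

theorem kop_O_comm {k l : κ} (h : k ≠ l) (β : Bool) (s t : Option Bool) (b b' : Bool) :
    Commute (kop_O A k β s t) (kop_E A l (some b) (some b')) := by
  refine kop_ext fun c τ => ?_
  simp only [kop_mul_apply, kop_O_apply, kop_E_apply, Function.update_of_ne h,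
    Function.update_of_ne h.symm, Function.update_comm h, kop_upd]
  split_ifs with h1 h2 <;> simp [kop_w, *]

/-- the chain differential in one coordinate -/
noncomputable def kop_dB (A : Type) [AddCommGroup A] (k : κ) : AddMonoid.End (Cone κ → A) :=
  kop_O A k true (some true) none + kop_O A k false (some false) none

/-- the cochain differential in one coordinate -/
noncomputable def kop_dC (A : Type) [AddCommGroup A] (k : κ) : AddMonoid.End (Cone κ → A) :=
  kop_O A k true none (some true) + kop_O A k false none (some false)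

theorem kop_dB_eq (k : κ) (b : Bool) :
    kop_dB A k = kop_O A k b (some b) none - kop_O A k b (some (!b)) none := by
  rw [sub_eq_add_neg, ← kop_O_not]
  cases b
  · exact add_comm _ _
  · rfl

theorem kop_dC_eq (k : κ) (b : Bool) :
    kop_dC A k = kop_O A k b none (some b) - kop_O A k b none (some (!b)) := by
  rw [sub_eq_add_neg, ← kop_O_not]
  cases b
  · exact add_comm _ _
  · rfl

theorem kop_dB_anti {k l : κ} (h : k ≠ l) (β : Bool) {s t : Option Bool}
    (hs : s.isSome = !t.isSome) :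
    kop_dB A k * kop_O A l β s t + kop_O A l β s t * kop_dB A k = 0 := by
  rw [kop_dB, add_mul, mul_add, add_add_add_comm, kop_O_anti h _ _ rfl hs, kop_O_anti h _ _ rfl hs,
    add_zero]

theorem kop_dC_anti {k l : κ} (h : k ≠ l) (β : Bool) {s t : Option Bool}
    (hs : s.isSome = !t.isSome) :
    kop_dC A k * kop_O A l β s t + kop_O A l β s t * kop_dC A k = 0 := by
  rw [kop_dC, add_mul, mul_add, add_add_add_comm, kop_O_anti h _ _ rfl hs, kop_O_anti h _ _ rfl hs,
    add_zero]

theorem kop_dB_comm {k l : κ} (h : k ≠ l) (b b' : Bool) :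
    Commute (kop_dB A k) (kop_E A l (some b) (some b')) :=
  (kop_O_comm h _ _ _ _ _).add_left (kop_O_comm h _ _ _ _ _)

theorem kop_dC_comm {k l : κ} (h : k ≠ l) (b b' : Bool) :
    Commute (kop_dC A k) (kop_E A l (some b) (some b')) :=
  (kop_O_comm h _ _ _ _ _).add_left (kop_O_comm h _ _ _ _ _)

theorem kop_bnd (c : Cone κ → A) : bnd c = (∑ k, kop_dB A k) c := by
  funext τ
  rw [kop_sum_apply, bnd, Fintype.sum_prod_type]
  refine Finset.sum_congr rfl fun k _ => ?_
  rw [Fintype.sum_bool]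
  rfl

theorem kop_cob (c : Cone κ → A) : cob c = (∑ k, kop_dC A k) c := by
  funext τ
  rw [kop_sum_apply, cob, Fintype.sum_prod_type]
  refine Finset.sum_congr rfl fun k _ => ?_
  rw [Fintype.sum_bool]
  rfl

/-- the part of degree `j` -/
def kop_cut (j : ℕ) (c : Cone κ → A) (τ : Cone κ) : A := if nB τ = j then c τ else 0

omit [DecidableEq κ] in
theorem kop_deg_cut (j : ℕ) (c : Cone κ → A) : Deg j (kop_cut j c) := fun _ h => if_neg h

theorem kop_bnd_cut (j : ℕ) (c : Cone κ → A) : bnd (kop_cut (j + 1) c) = kop_cut j (bnd c) := by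
  funext τ
  unfold kop_cut bnd
  by_cases e : nB τ = j
  · rw [if_pos e]
    refine Finset.sum_congr rfl fun a _ => ?_
    by_cases h : τ a.1 = some a.2
    · rw [if_pos h, if_pos h]
      exact congrArg _ (if_pos (by rw [nB_update_none (by simp [h]), e]))
    · rw [if_neg h, if_neg h]
  · rw [if_neg e]
    refine Finset.sum_eq_zero fun a _ => ?_
    by_cases h : τ a.1 = some a.2
    · rw [if_pos h]
      exact smul_eq_zero_of_right _ (if_neg (by rw [nB_update_none (by simp [h])]; omega))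
    · rw [if_neg h]

theorem kop_cob_cut (j : ℕ) (c : Cone κ → A) : cob (kop_cut j c) = kop_cut (j + 1) (cob c) := by
  funext τ
  unfold kop_cut cob
  by_cases e : nB τ = j + 1
  · rw [if_pos e]
    refine Finset.sum_congr rfl fun a _ => ?_
    by_cases h : τ a.1 = none
    · rw [if_pos h, if_pos h]
      exact congrArg _ (if_pos (by have := nB_update_some h a.2; omega))
    · rw [if_neg h, if_neg h]
  · rw [if_neg e]
    refine Finset.sum_eq_zero fun a _ => ?_
    by_cases h : τ a.1 = none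
    · rw [if_pos h]
      exact smul_eq_zero_of_right _ (if_neg (by have := nB_update_some h a.2; omega))
    · rw [if_neg h]

theorem bnd_bnd (c : Cone κ → A) : bnd (bnd c) = 0 := by
  have key : ∀ s : Finset κ, (∑ k ∈ s, kop_dB A k) * (∑ k ∈ s, kop_dB A k) = 0 := by
    intro s
    induction s using Finset.induction_on with
    | empty => simp
    | insert k s hk ih =>
      have b1 : kop_dB A k * kop_dB A k = 0 := by
        simp [kop_dB_eq k true, sub_mul, mul_sub, kop_OO]
      have b2 : (∑ l ∈ s, kop_dB A l) * kop_dB A k + kop_dB A k * ∑ l ∈ s, kop_dB A l = 0 := by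
        rw [Finset.sum_mul, Finset.mul_sum, ← Finset.sum_add_distrib]
        refine Finset.sum_eq_zero fun l hl => ?_
        have hne : l ≠ k := fun e => hk (e ▸ hl)
        rw [kop_dB.eq_1 A k, add_mul, mul_add, add_add_add_comm, kop_dB_anti hne _ rfl,
          kop_dB_anti hne _ rfl, add_zero]
      rw [Finset.sum_insert hk, add_mul, mul_add, mul_add, b1, ih, zero_add, add_zero, add_comm, b2]
  rw [kop_bnd, kop_bnd, ← kop_mul_apply, key]
  rfl

theorem sum_bnd (c : Cone κ → A) : ∑ τ, bnd c τ = 0 := by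
  simp only [kop_bnd, kop_sum_apply]
  rw [Finset.sum_comm]
  refine Finset.sum_eq_zero fun k _ => ?_
  refine Finset.sum_involution (fun τ _ => Function.update τ k ((τ k).map not)) ?_ ?_
    (fun _ _ => Finset.mem_univ _) ?_
  · intro τ _
    simp only [kop_dB_eq k true, kop_sub_apply, Pi.sub_apply, kop_O_apply, Function.update_self,
      Function.update_idem, csg_update]
    rcases τ k with _ | _ | _ <;> simp
  · intro τ _ h e
    have e' := congrFun e k
    rw [Function.update_self] at e'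
    simp only [kop_dB, kop_add_apply, Pi.add_apply, kop_O_apply] at h
    revert h e'
    rcases τ k with _ | _ | _ <;> simp
  · intro τ _
    rw [Function.update_self, Function.update_idem, Function.update_eq_self_iff]
    rcases τ k with _ | b <;> simp

theorem bnd_exact (b : κ → Bool) (W : Cone κ → AddSubgroup A)
    (hW₁ : ∀ τ k, τ k = some (!b k) → W τ ≤ W (Function.update τ k none))
    (hW₂ : ∀ τ k, τ k = some (!b k) → W τ ≤ W (Function.update τ k (some (b k))))
    (i : ℕ) (c : Cone κ → A) (hc : ∀ τ, c τ ∈ W τ) (hd : Deg i c) (h0 : bnd c = 0)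
    (hs : i = 0 → ∑ τ, c τ = 0) :
    ∃ y : Cone κ → A, (∀ τ, y τ ∈ W τ) ∧ Deg (i + 1) y ∧ bnd y = c := by
  let S : Subsemiring (AddMonoid.End (Cone κ → A)) :=
    { carrier := {X | ∀ c : Cone κ → A, (∀ τ, c τ ∈ W τ) → ∀ τ, X c τ ∈ W τ}
      mul_mem' := fun ha hb c hc => ha _ (hb c hc)
      one_mem' := fun _ hc => hc
      add_mem' := fun ha hb c hc τ => (W τ).add_mem (ha c hc τ) (hb c hc τ)
      zero_mem' := fun _ _ τ => (W τ).zero_mem }
  have hS : ∀ k s t, (∀ τ : Cone κ, τ k = t → W τ ≤ W (Function.update τ k s)) →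
      kop_E A k s t ∈ S := by
    intro k s t h c hc τ
    rw [kop_E_apply]
    split_ifs with e
    · have := h (Function.update τ k t) (Function.update_self _ _ _) (hc _)
      rwa [Function.update_idem, ← e, Function.update_eq_self] at this
    · exact (W τ).zero_mem
  have hS' : ∀ k β s t, kop_E A k s t ∈ S → kop_O A k β s t ∈ S := by
    intro k β s t h c hc τ
    have := h c hc τ
    rw [kop_E_apply] at this
    rw [kop_O_apply]
    split_ifs at this ⊢
    · exact (W τ).zsmul_mem this _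
    · exact this
  have hb : ∀ k, (b k = !b k) = False := fun k => by cases b k <;> simp
  have hb' : ∀ k, ((!b k) = b k) = False := fun k => by cases b k <;> simp
  obtain ⟨H, P, a1, -, a3, -, -, -, a7⟩ := kop_ring S (kop_dB A)
    (fun k => kop_O A k (!b k) none (some (!b k)))
    (fun k => kop_E A k (some (b k)) (some (b k)) + kop_E A k (some (b k)) (some (!b k)))
    (fun k => hS' _ _ _ _ (hS k _ _ fun τ => hW₁ τ k))
    (fun k => S.add_mem (hS k _ _ fun τ e => by rw [← e, Function.update_eq_self])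
      (hS k _ _ fun τ => hW₂ τ k))
    (fun k => by
      rw [kop_dB_eq k (!b k), ← kop_E_one k (b k)]
      simp only [sub_mul, mul_sub, kop_OO, if_true, Option.some.injEq, hb', if_false, Bool.not_not]
      abel)
    (fun k l h => kop_dB_anti h _ rfl)
    (fun k l => by
      by_cases h : k = l
      · subst h
        rw [Commute, SemiconjBy, kop_dB_eq k (b k)]
        simp only [add_mul, mul_add, sub_mul, mul_sub, kop_OE, kop_EO, if_true, Option.some.injEq,
          hb, hb', if_false, zero_add, add_zero, reduceCtorEq, sub_self]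
      · exact (kop_dB_comm h _ _).add_right (kop_dB_comm h _ _))
    (fun k l => by
      by_cases h : k = l
      · subst h
        exact Commute.refl _
      · exact ((kop_E_comm h _ _ _ _).add_left (kop_E_comm h _ _ _ _)).add_right
          ((kop_E_comm h _ _ _ _).add_left (kop_E_comm h _ _ _ _))) Finset.univ
  have hP : ∀ τ, τ ≠ vtx b → P c τ = 0 := by
    intro τ hτ
    obtain ⟨k, hk⟩ := Function.ne_iff.1 hτ
    obtain ⟨X, rfl⟩ := a7 k (Finset.mem_univ k)
    change kop_E A k _ _ (X c) τ + kop_E A k _ _ (X c) τ = 0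
    rw [kop_E_ne (s := some (b k)) hk, kop_E_ne (s := some (b k)) hk, add_zero]
  have e1 : bnd (H c) = c - P c := by
    have e := congrArg (fun X : AddMonoid.End (Cone κ → A) => X c) a3
    simp only [kop_add_apply, kop_mul_apply, ← kop_bnd, h0, map_zero, add_zero] at e
    exact e
  have e2 : bnd (kop_cut (i + 1) (H c)) = c - kop_cut i (P c) := by
    rw [kop_bnd_cut, e1]
    funext τ
    by_cases e : nB τ = i
    · simp [kop_cut, e]
    · simp [kop_cut, e, hd τ e]
  have e3 : kop_cut i (P c) = 0 := by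
    have f1 : ∀ τ, τ ≠ vtx b → kop_cut i (P c) τ = 0 := fun τ hτ => by simp [kop_cut, hP τ hτ]
    funext τ
    by_cases hτ : τ = vtx b
    · subst hτ
      by_cases hi : i = 0
      · have f2 := sum_bnd (kop_cut (i + 1) (H c))
        simp only [e2, Pi.sub_apply, Finset.sum_sub_distrib, hs hi, zero_sub, neg_eq_zero] at f2
        rwa [Finset.sum_eq_single (vtx b) (fun τ _ => f1 τ) (by simp)] at f2
      · exact if_neg fun e => hi (e.symm.trans (nB_eq_zero_iff.2 ⟨b, rfl⟩))
    · exact f1 τ hτ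
  refine ⟨kop_cut (i + 1) (H c), fun τ => ?_, kop_deg_cut _ _, by rw [e2, e3, sub_zero]⟩
  unfold kop_cut
  split_ifs
  · exact a1 c hc τ
  · exact (W τ).zero_mem

theorem cob_exact_all (i : ℕ) (c : Cone κ → A) (hd : Deg (i + 1) c)
    (h0 : cob c = 0) : ∃ y : Cone κ → A, Deg i y ∧ cob y = c := by
  obtain ⟨H, P, -, -, a3, -, -, -, a7⟩ := kop_ring ⊤ (kop_dC A)
    (fun k : κ => kop_O A k false (some false) none)
    (fun k => kop_E A k (some true) (some true) + kop_E A k (some false) (some true))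
    (fun _ => trivial) (fun _ => trivial)
    (fun k => by
      rw [kop_dC_eq k false, ← kop_E_one k false]
      simp only [sub_mul, mul_sub, kop_OO, if_true, Option.some.injEq, Bool.true_eq_false,
        if_false, Bool.not_false]
      abel)
    (fun k l h => kop_dC_anti h _ rfl)
    (fun k l => by
      by_cases h : k = l
      · subst h
        rw [Commute, SemiconjBy, kop_dC_eq k false]
        simp only [add_mul, mul_add, sub_mul, mul_sub, kop_OE, kop_EO, if_true, Option.some.injEq,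
          Bool.true_eq_false, Bool.false_eq_true, if_false, add_zero, reduceCtorEq,
          Bool.not_false, sub_self, zero_sub, sub_zero, neg_add_cancel]
      · exact (kop_dC_comm h _ _).add_right (kop_dC_comm h _ _))
    (fun k l => by
      by_cases h : k = l
      · subst h
        exact Commute.refl _
      · exact ((kop_E_comm h _ _ _ _).add_left (kop_E_comm h _ _ _ _)).add_right
          ((kop_E_comm h _ _ _ _).add_left (kop_E_comm h _ _ _ _))) Finset.univ
  have hP : ∀ τ, nB τ ≠ 0 → P c τ = 0 := by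
    intro τ hτ
    obtain ⟨k, hk⟩ := Finset.card_ne_zero.1 hτ
    have hk' : τ k = none := (Finset.mem_filter.1 hk).2
    obtain ⟨X, rfl⟩ := a7 k (Finset.mem_univ k)
    change kop_E A k _ _ (X c) τ + kop_E A k _ _ (X c) τ = 0
    rw [kop_E_ne (by simp [hk']), kop_E_ne (by simp [hk']), add_zero]
  have e1 : cob (H c) = c - P c := by
    have e := congrArg (fun X : AddMonoid.End (Cone κ → A) => X c) a3
    simp only [kop_add_apply, kop_mul_apply, ← kop_cob, h0, map_zero, add_zero] at e
    exact e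
  refine ⟨kop_cut i (H c), kop_deg_cut _ _, ?_⟩
  rw [kop_cob_cut, e1]
  funext τ
  by_cases e : nB τ = i + 1
  · simp [kop_cut, e, hP τ (by omega)]
  · simp [kop_cut, e, hd τ e]

theorem cob_exact_bad (ok : κ × Bool → Prop) (k : κ) (b : Bool)
    (hb : ok (k, b)) (hb' : ¬ ok (k, !b)) (i : ℕ) (c : Cone κ → A)
    (hc : ∀ τ, c τ ≠ 0 → ∀ a : κ × Bool, τ a.1 = some a.2 → ok a) (hd : Deg (i + 1) c)
    (h0 : cob c = 0) : ∃ y : Cone κ → A,
      (∀ τ, y τ ≠ 0 → ∀ a : κ × Bool, τ a.1 = some a.2 → ok a) ∧ Deg i y ∧ cob y = c := by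
  have hz : ∀ s, kop_E A k s (some (!b)) c = 0 := by
    intro s
    funext τ
    rw [kop_E_apply]
    split_ifs
    · by_contra h
      exact hb' (hc _ h (k, !b) (Function.update_self _ _ _))
    · rfl
  have hbb : ((!b) = b) = False := by cases b <;> simp
  have e1 : (∑ l, kop_dC A l) * kop_O A k b (some b) none + kop_O A k b (some b) none *
      ∑ l, kop_dC A l = kop_E A k none none + kop_E A k (some b) (some b) -
        kop_E A k (some b) (some (!b)) := by
    rw [Finset.sum_mul, Finset.mul_sum, ← Finset.sum_add_distrib, Finset.sum_eq_single k]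
    · rw [kop_dC_eq k b]
      simp only [sub_mul, mul_sub, kop_OO, if_true, Option.some.injEq, hbb, if_false, sub_zero,
        add_sub_assoc]
    · exact fun l _ hl => kop_dC_anti hl _ rfl
    · simp
  have e2 := congrArg (fun X : AddMonoid.End (Cone κ → A) => X c) e1
  have e3 := congrArg (fun X : AddMonoid.End (Cone κ → A) => X c) (kop_E_one (A := A) k b)
  simp only [kop_add_apply, kop_sub_apply, kop_mul_apply, ← kop_cob, h0, map_zero, add_zero, hz,
    sub_zero] at e2 e3
  refine ⟨kop_O A k b (some b) none c, fun τ hτ a ha => ?_, fun τ hτ => ?_, e2.trans e3⟩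
  · rw [kop_O_apply] at hτ
    by_cases e : τ k = some b
    · rw [if_pos e] at hτ
      by_cases hk : a.1 = k
      · obtain ⟨l, b'⟩ := a
        obtain rfl : l = k := hk
        obtain rfl : b = b' := Option.some.inj (e.symm.trans ha)
        exact hb
      · exact hc _ (right_ne_zero_of_smul hτ) a (by rwa [Function.update_of_ne hk])
    · exact absurd (if_neg e) hτ
  · rw [kop_O_apply]
    split_ifs with e
    · rw [hd _ (by rw [nB_update_none (by simp [e])]; omega), smul_zero]
    · rfl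

end Pool.Agent.Work.MP_910138_ag.C0
end

-- merged part: Pool.Agent.Work.MP_910138_ag.C0.KCech
section
/-! The cubical Čech resolution of a sheaf of modules. -/

open CategoryTheory Limits AlgebraicGeometry TopologicalSpace Opposite Abelian

namespace Pool.Agent.Work.MP_910138_ag.C0

variable {X : Scheme.{0}} {κ : Type} [Fintype κ] [DecidableEq κ] (V : κ → Bool → X.Opens)
  (M : X.Modules)

/-- the terms -/
noncomputable def cechC (i : ℕ) : X.Modules :=
  ⨁ fun τ : {τ : Cone κ // nB τ = i} => supp M (chart V τ.1)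

/-- the inclusions of the summands -/
noncomputable def cechι {i : ℕ} (τ : Cone κ) (h : nB τ = i) : supp M (chart V τ) ⟶ cechC V M i :=
  biproduct.ι (fun τ : {τ : Cone κ // nB τ = i} => supp M (chart V τ.1)) ⟨τ, h⟩

/-- the differential -/
noncomputable def cechD (i : ℕ) : cechC V M (i + 1) ⟶ cechC V M i :=
  biproduct.desc fun τ : {τ : Cone κ // nB τ = i + 1} => ∑ a : κ × Bool,
    if h : τ.1 a.1 = none then csg τ.1 a.1 a.2 • suppLE M (chart_le_update V h a.2) ≫
      cechι V M (Function.update τ.1 a.1 (some a.2))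
        (Nat.succ_injective ((nB_update_some h a.2).trans τ.2)) else 0

/-- the augmentation -/
noncomputable def cechE : cechC V M 0 ⟶ M :=
  biproduct.desc fun τ : {τ : Cone κ // nB τ = 0} => suppι M (chart V τ.1)

theorem cechι_D {i : ℕ} (τ : Cone κ) (hτ : nB τ = i + 1) :
    cechι V M τ hτ ≫ cechD V M i = ∑ a : κ × Bool,
      if h : τ a.1 = none then csg τ a.1 a.2 • suppLE M (chart_le_update V h a.2) ≫
        cechι V M (Function.update τ a.1 (some a.2))
          (Nat.succ_injective ((nB_update_some h a.2).trans hτ)) else 0 :=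
  biproduct.ι_desc _ _

theorem cechι_E (τ : Cone κ) (hτ : nB τ = 0) : cechι V M τ hτ ≫ cechE V M = suppι M (chart V τ) :=
  biproduct.ι_desc _ _

/-- the components of a chain -/
noncomputable def tcech_p (i : ℕ) (τ : Cone κ) : cechC V M i ⟶ M :=
  if h : nB τ = i then
    biproduct.π (fun τ : {τ : Cone κ // nB τ = i} => supp M (chart V τ.1)) ⟨τ, h⟩ ≫
      suppι M (chart V τ)
  else 0

theorem tcech_p_pos {i : ℕ} {τ : Cone κ} (h : nB τ = i) : tcech_p V M i τ =
    biproduct.π (fun τ : {τ : Cone κ // nB τ = i} => supp M (chart V τ.1)) ⟨τ, h⟩ ≫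
      suppι M (chart V τ) := dif_pos h

theorem tcech_p_neg {i : ℕ} {τ : Cone κ} (h : nB τ ≠ i) : tcech_p V M i τ = 0 := dif_neg h

theorem tcech_ι_p {i : ℕ} (σ : Cone κ) (hσ : nB σ = i) (τ : Cone κ) :
    cechι V M σ hσ ≫ tcech_p V M i τ = if σ = τ then suppι M (chart V σ) else 0 := by
  by_cases e : σ = τ
  · subst e
    rw [if_pos rfl, tcech_p_pos V M hσ, cechι]
    exact biproduct.ι_π_self_assoc _ _ _
  · rw [if_neg e]
    by_cases h : nB τ = i
    · rw [tcech_p_pos V M h, cechι]
      have hne : (⟨σ, hσ⟩ : {τ : Cone κ // nB τ = i}) ≠ ⟨τ, h⟩ := fun h' =>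
        e (congrArg Subtype.val h')
      exact (biproduct.ι_π_ne_assoc _ hne _).trans zero_comp
    · rw [tcech_p_neg V M h, comp_zero]

theorem tcech_map_bnd {A B : Type} [AddCommGroup A] [AddCommGroup B] (F : A →+ B)
    (c : Cone κ → A) (τ : Cone κ) : F (bnd c τ) = bnd (fun σ => F (c σ)) τ := by
  rw [bnd, bnd, map_sum]
  refine Finset.sum_congr rfl fun k _ => ?_
  split_ifs
  · exact map_zsmul F _ _
  · exact map_zero F

theorem tcech_comp_bnd {L N : X.Modules} (f : L ⟶ N) (c : Cone κ → (N ⟶ M)) (τ : Cone κ) :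
    f ≫ bnd c τ = bnd (fun σ => f ≫ c σ) τ :=
  tcech_map_bnd (Preadditive.leftComp M f) c τ

/-- evaluation of a morphism at a section -/
noncomputable def tcech_ev {N : X.Modules} {W : X.Opens} (s : Γ(N, W)) : (N ⟶ M) →+ Γ(M, W) :=
  AddMonoidHom.mk' (fun φ => φ.app W s) fun φ ψ => add_app_apply φ ψ s

theorem tcech_app_bnd {N : X.Modules} {W : X.Opens} (s : Γ(N, W)) (c : Cone κ → (N ⟶ M))
    (τ : Cone κ) : (bnd c τ).app W s = bnd (fun σ => (c σ).app W s) τ :=
  tcech_map_bnd (tcech_ev M s) c τ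

theorem tcech_comb {A : Type} [AddCommGroup A] (σ τ : Cone κ) (k : κ) (b : Bool) (y : A) :
    (if σ k = none then csg σ k b • (if Function.update σ k (some b) = τ then y else 0) else 0) =
      if τ k = some b then csg τ k b • (if σ = Function.update τ k none then y else 0) else 0 := by
  by_cases e : σ k = none ∧ Function.update σ k (some b) = τ
  · obtain ⟨e1, rfl⟩ := e
    rw [if_pos e1, if_pos rfl, if_pos (Function.update_self _ _ _), csg_update,
      if_pos (by rw [Function.update_idem, ← e1, Function.update_eq_self])]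
  · have h1 : (if σ k = none then
        csg σ k b • (if Function.update σ k (some b) = τ then y else 0) else 0) = 0 := by
      split_ifs with a1 a2
      · exact absurd ⟨a1, a2⟩ e
      · exact smul_zero _
      · rfl
    rw [h1]
    split_ifs with a1 a2
    · refine absurd ⟨by rw [a2, Function.update_self], ?_⟩ e
      rw [a2, Function.update_idem, ← a1, Function.update_eq_self]
    · exact (smul_zero _).symm
    · rfl

theorem tcech_hom_ext {i : ℕ} {N : X.Modules} {f g : cechC V M i ⟶ N}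
    (h : ∀ σ hσ, cechι V M σ hσ ≫ f = cechι V M σ hσ ≫ g) : f = g :=
  biproduct.hom_ext' _ _ fun σ => h σ.1 σ.2

theorem tcech_D_p (i : ℕ) (τ : Cone κ) :
    cechD V M i ≫ tcech_p V M i τ = bnd (tcech_p V M (i + 1)) τ := by
  refine tcech_hom_ext V M fun σ hσ => ?_
  rw [← Category.assoc, cechι_D, tcech_comp_bnd, bnd, Preadditive.sum_comp]
  refine Finset.sum_congr rfl fun a _ => ?_
  rw [tcech_ι_p, ← tcech_comb]
  by_cases h : σ a.1 = none
  · rw [dif_pos h, if_pos h, Preadditive.zsmul_comp, Category.assoc, tcech_ι_p]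
    congr 1
    split_ifs
    · exact suppLE_ι _
    · exact comp_zero
  · rw [dif_neg h, if_neg h, zero_comp]

theorem tcech_E : cechE V M = ∑ τ, tcech_p V M 0 τ := by
  refine tcech_hom_ext V M fun σ hσ => ?_
  rw [cechι_E, Preadditive.comp_sum]
  simp only [tcech_ι_p]
  rw [Finset.sum_ite_eq, if_pos (Finset.mem_univ σ)]

theorem tcech_inj {i : ℕ} {W : X.Opens} {s t : Γ(cechC V M i, W)}
    (h : ∀ τ, (tcech_p V M i τ).app W s = (tcech_p V M i τ).app W t) : s = t := by
  refine biprod_ext (fun τ : {τ : Cone κ // nB τ = i} => supp M (chart V τ.1)) fun τ => ?_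
  have h1 := h τ.1
  rw [tcech_p_pos V M τ.2] at h1
  exact gsupp_inj M _ W h1

theorem tcech_mem {i : ℕ} {W : X.Opens} (s : Γ(cechC V M i, W)) (τ : Cone κ) :
    (tcech_p V M i τ).app W s ∈ (suppData M (chart V τ)).sub W := by
  by_cases h : nB τ = i
  · rw [tcech_p_pos V M h]
    exact (suppData M (chart V τ)).ι_mem _
  · rw [tcech_p_neg V M h, gexact_zero_app]
    exact zero_mem _

theorem tcech_deg {i : ℕ} {W : X.Opens} (s : Γ(cechC V M i, W)) :
    Deg i fun τ => (tcech_p V M i τ).app W s := fun τ h => by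
  change (tcech_p V M i τ).app W s = 0
  rw [tcech_p_neg V M h, gexact_zero_app]

theorem tcech_surj {i : ℕ} {W : X.Opens} (y : Cone κ → Γ(M, W))
    (hy : ∀ τ, y τ ∈ (suppData M (chart V τ)).sub W) (hd : Deg i y) :
    ∃ t : Γ(cechC V M i, W), ∀ τ, (tcech_p V M i τ).app W t = y τ := by
  obtain ⟨t, ht⟩ := biprod_exists (fun τ : {τ : Cone κ // nB τ = i} => supp M (chart V τ.1))
    (U := W) fun τ => (suppData M (chart V τ.1)).mkSec (y τ.1) (hy τ.1)
  refine ⟨t, fun τ => ?_⟩
  by_cases h : nB τ = i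
  · rw [tcech_p_pos V M h]
    exact congrArg ((suppι M (chart V τ)).app W) (ht ⟨τ, h⟩)
  · rw [tcech_p_neg V M h, gexact_zero_app, hd τ h]

theorem tcech_sub_le {W A B : X.Opens} (h : ∀ x ∈ W, x ∈ A → x ∈ B) :
    ((suppData M A).sub W).toAddSubgroup ≤ ((suppData M B).sub W).toAddSubgroup :=
  fun _ hs x hx hx' => hs x hx fun hA => hx' (h x hx hA)

theorem tcech_lift {i : ℕ} {W : X.Opens} {v : κ → Bool} (hW : W ≤ chart V (vtx v))
    (s : Γ(cechC V M i, W)) (h0 : (bnd fun τ => (tcech_p V M i τ).app W s) = 0)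
    (hs : i = 0 → ∑ τ, (tcech_p V M i τ).app W s = 0) :
    ∃ t : Γ(cechC V M (i + 1), W), (cechD V M i).app W t = s := by
  have hv : ∀ k, W ≤ V k (v k) := fun k => le_chart.1 hW k _ (Or.inr rfl)
  obtain ⟨y, hy, hd, e⟩ := bnd_exact (A := Γ(M, W)) v
    (fun τ => ((suppData M (chart V τ)).sub W).toAddSubgroup)
    (fun τ k hk => tcech_sub_le M fun x hx hτ => mem_chart.2 fun j b hj => by
      by_cases e : j = k
      · subst e
        by_cases hb : b = v j
        · exact hb ▸ hv j hx
        · exact mem_chart.1 hτ j b (Or.inr (by rw [hk, Bool.eq_not_iff.2 hb]))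
      · rw [Function.update_of_ne e] at hj
        exact mem_chart.1 hτ j b hj)
    (fun τ k hk => tcech_sub_le M fun x hx hτ => mem_chart.2 fun j b hj => by
      by_cases e : j = k
      · subst e
        rw [Function.update_self] at hj
        rcases hj with hj | hj
        · exact absurd hj (Option.some_ne_none _)
        · exact Option.some_injective _ hj ▸ hv j hx
      · rw [Function.update_of_ne e] at hj
        exact mem_chart.1 hτ j b hj)
    i _ (tcech_mem V M s) (tcech_deg V M s) h0 hs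
  obtain ⟨t, ht⟩ := tcech_surj V M y hy hd
  refine ⟨t, tcech_inj V M fun τ => ?_⟩
  rw [← comp_app_apply, tcech_D_p, tcech_app_bnd, funext ht, e]

theorem cechD_E : cechD V M 0 ≫ cechE V M = 0 := by
  rw [tcech_E, Preadditive.comp_sum]
  simp only [tcech_D_p]
  exact sum_bnd _

theorem cechD_D (i : ℕ) : cechD V M (i + 1) ≫ cechD V M i = 0 := by
  refine hom_ext' fun W s => tcech_inj V M fun τ => ?_
  rw [← comp_app_apply, ← comp_app_apply, zero_comp, Category.assoc, tcech_D_p, tcech_comp_bnd,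
    funext (tcech_D_p V M (i + 1)), bnd_bnd]
  rfl

theorem epi_cechE (cover : ∀ k, V k false ⊔ V k true = ⊤) : Epi (cechE V M) := by
  refine (epi_iff _).2 fun U s x hx => ?_
  obtain ⟨v, hv⟩ := exists_mem_chart_vtx cover x
  obtain ⟨t, ht⟩ := (suppι_bijective (M := M)
    (inf_le_right : U ⊓ chart V (vtx v) ≤ chart V (vtx v))).2 (res M inf_le_left s)
  refine ⟨U ⊓ chart V (vtx v), inf_le_left, ⟨hx, hv⟩,
    (cechι V M (vtx v) (nB_eq_zero_iff.2 ⟨v, rfl⟩)).app _ t, ?_⟩
  rw [← comp_app_apply, cechι_E, ht]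

theorem cech_exact₀ (cover : ∀ k, V k false ⊔ V k true = ⊤) :
    (ShortComplex.mk _ _ (cechD_E V M)).Exact := by
  refine (exact_iff _).2 fun U s hs x hx => ?_
  obtain ⟨v, hv⟩ := exists_mem_chart_vtx cover x
  dsimp only at s hs ⊢
  refine ⟨U ⊓ chart V (vtx v), inf_le_left, ⟨hx, hv⟩, tcech_lift V M inf_le_right _ ?_ fun _ => ?_⟩
  · funext τ
    refine Finset.sum_eq_zero fun k _ => ?_
    split_ifs with h
    · exact (congrArg _ (tcech_deg V M _ _ (by
        rw [nB_update_none (by rw [h]; exact Option.some_ne_none _)]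
        exact Nat.succ_ne_zero _))).trans (smul_zero _)
    · rfl
  · rw [← sum_app_apply, ← tcech_E, app_res, hs, map_zero]

theorem cech_exact (cover : ∀ k, V k false ⊔ V k true = ⊤) (i : ℕ) :
    (ShortComplex.mk _ _ (cechD_D V M i)).Exact := by
  refine (exact_iff _).2 fun U s hs x hx => ?_
  obtain ⟨v, hv⟩ := exists_mem_chart_vtx cover x
  dsimp only at s hs ⊢
  refine ⟨U ⊓ chart V (vtx v), inf_le_left, ⟨hx, hv⟩, tcech_lift V M inf_le_right _ ?_
    fun h => absurd h (Nat.succ_ne_zero _)⟩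
  funext τ
  rw [← tcech_app_bnd, ← tcech_D_p, comp_app_apply, app_res (cechD V M i), hs, map_zero,
    gexact_app_zero]
  rfl

/-- the resolution -/
noncomputable def cechRes (cover : ∀ k, V k false ⊔ V k true = ⊤) : LRes M where
  C := cechC V M
  d := cechD V M
  ε := cechE V M
  epi := epi_cechE V M cover
  w₀ := cechD_E V M
  exact₀ := cech_exact₀ V M cover
  w := cechD_D V M
  exact := cech_exact V M cover

end Pool.Agent.Work.MP_910138_ag.C0
end

-- merged part: Pool.Agent.Work.MP_910138_ag.C0.KOp2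
section
/-! Weight decomposition of Čech cocycles, and the lattice of a product of copies of the blow-up of
the plane in a point. -/

namespace Pool.Agent.Work.MP_910138_ag.C0

theorem top2_coeff {K κ : Type} [Field K] [Fintype κ] [DecidableEq κ] (c : Cone κ → Lam K κ) (τ : Cone κ)
    (e : Wt κ) : (cob c τ).coeff e = cob (fun σ => (c σ).coeff e) τ := by
  rw [cob, cob, AddMonoidAlgebra.coeff_sum, Finsupp.finsetSum_apply]
  refine Finset.sum_congr rfl fun a _ => ?_
  split_ifs <;> rfl

theorem top2_weight {K κ : Type} [Field K] [Fintype κ] [DecidableEq κ] (Lat : AddSubgroup (Wt κ)) (n e : Wt κ)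
    (i : ℕ) (c : Cone κ → K) (hc : ∀ τ, c τ ≠ 0 → e ∈ Lat ∧ Allowed n τ e)
    (hd : Deg (i + 1) c) (h0 : cob c = 0) : ∃ y : Cone κ → K,
      (∀ τ, y τ ≠ 0 → (e ∈ Lat ∧ Allowed n τ e) ∧ ∃ σ, c σ ≠ 0) ∧ Deg i y ∧
      ∀ τ, c τ - cob y τ ≠ 0 → e ∈ GoodW Lat n ∧ ¬ ∀ a, 0 ≤ e a + n a := by
  have hz : ∀ τ, cob (0 : Cone κ → K) τ = 0 := fun τ => by simp [cob]
  by_cases h1 : ∃ σ, c σ ≠ 0
  swap
  · push Not at h1
    exact ⟨0, fun τ h => absurd rfl h, fun _ _ => rfl, fun τ h => absurd (by simp [h1, hz]) h⟩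
  have hL : e ∈ Lat := let ⟨σ, hσ⟩ := h1; (hc σ hσ).1
  by_cases h3 : ∀ a, 0 ≤ e a + n a
  · obtain ⟨y, a1, a2⟩ := cob_exact_all i c hd h0
    exact ⟨y, fun τ _ => ⟨⟨hL, fun a _ => h3 a⟩, h1⟩, a1, fun τ h => absurd (by simp [a2]) h⟩
  by_cases h4 : e ∈ GoodW Lat n
  · exact ⟨0, fun τ h => absurd rfl h, fun _ _ => rfl, fun _ _ => ⟨h4, h3⟩⟩
  obtain ⟨k, b, hb, hb'⟩ : ∃ k b, 0 ≤ e (k, b) + n (k, b) ∧ ¬ 0 ≤ e (k, !b) + n (k, !b) := by
    by_contra h5
    push Not at h5
    exact h4 ⟨hL, fun k => ⟨h5 k false, h5 k true⟩⟩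
  obtain ⟨y, a1, a2, a3⟩ := cob_exact_bad (fun a => 0 ≤ e a + n a) k b hb hb' i c
    (fun τ h => (hc τ h).2) hd h0
  exact ⟨y, fun τ h => ⟨⟨hL, a1 τ h⟩, h1⟩, a2, fun τ h => absurd (by simp [a3]) h⟩

theorem cob_weights {K κ : Type} [Field K] [Fintype κ] [DecidableEq κ] (Lat : AddSubgroup (Wt κ)) (n : Wt κ)
    (i : ℕ) (c : Cone κ → Lam K κ) (hc : ∀ τ, InSpan Lat n τ (c τ)) (hd : Deg (i + 1) c)
    (h0 : cob c = 0) : ∃ y : Cone κ → Lam K κ, (∀ τ, InSpan Lat n τ (y τ)) ∧ Deg i y ∧
      ∀ τ, ∀ e ∈ (c τ - cob y τ).coeff.support, e ∈ GoodW Lat n ∧ ¬ ∀ a, 0 ≤ e a + n a := by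
  classical
  choose Y h1 h2 h3 using fun e => top2_weight Lat n e i (fun τ => (c τ).coeff e)
    (fun τ h => hc τ e (Finsupp.mem_support_iff.2 h)) (fun τ h => by simp [hd τ h])
    (funext fun τ => by rw [← top2_coeff, h0]; rfl)
  let y : Cone κ → Lam K κ := fun τ => AddMonoidAlgebra.ofCoeff
    (Finsupp.onFinset (Finset.univ.biUnion fun σ => (c σ).coeff.support) (fun e => Y e τ)
      fun e he => by
        obtain ⟨σ, hσ⟩ := (h1 e τ he).2
        exact Finset.mem_biUnion.2 ⟨σ, Finset.mem_univ _, Finsupp.mem_support_iff.2 hσ⟩)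
  have hy : ∀ τ e, (y τ).coeff e = Y e τ := fun _ _ => rfl
  refine ⟨y, fun τ e he => (h1 e τ (Finsupp.mem_support_iff.1 he)).1, fun τ h => ?_,
    fun τ e he => h3 e τ ?_⟩
  · ext e
    exact h2 e τ h
  · have h4 := Finsupp.mem_support_iff.1 he
    rwa [AddMonoidAlgebra.coeff_sub, Finsupp.sub_apply, top2_coeff] at h4

end Pool.Agent.Work.MP_910138_ag.C0
end

-- merged part: Pool.Agent.Work.MP_910138_ag.C0.KWt
section
/-! Ext groups computed by weights. -/

open CategoryTheory Limits AlgebraicGeometry TopologicalSpace Opposite Abelian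

namespace Pool.Agent.Work.MP_910138_ag.C0

variable {X : Scheme.{0}} {K κ : Type} [Field K] [Fintype κ] [DecidableEq κ] [Algebra K Γ(X, ⊤)]

variable (K) in
/-- a description by weights of the morphisms `M ⟶ N` on the charts -/
structure WtData (V : κ → Bool → X.Opens) (Lat : AddSubgroup (Wt κ)) (M N : X.Modules)
    (n : Wt κ) where
  Θ : ∀ τ, (supp M (chart V τ) ⟶ N) →ₗ[K] Lam K κ
  inj : ∀ τ, Function.Injective (Θ τ)
  range : ∀ τ (l : Lam K κ), (∃ φ, Θ τ φ = l) ↔ InSpan Lat n τ l
  compat : ∀ τ τ' (h : chart V τ ≤ chart V τ') (φ : supp M (chart V τ') ⟶ N),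
    Θ τ (suppLE M h ≫ φ) = Θ τ' φ
  acyc : ∀ τ (i : ℕ) (α : Ext (supp M (chart V τ)) N (i + 1)), α = 0

variable {V : κ → Bool → X.Opens} {Lat : AddSubgroup (Wt κ)} {M N : X.Modules} {n : Wt κ}
  (w : WtData K V Lat M N n)

/-- the Laurent polynomial of a global morphism -/
noncomputable def WtData.glob (φ : M ⟶ N) : Lam K κ := w.Θ (tor κ) (suppι M _ ≫ φ)

theorem twt_glob_eq (φ : M ⟶ N) (τ : Cone κ) : w.glob φ = w.Θ τ (suppι M _ ≫ φ) := by
  rw [WtData.glob, ← w.compat (tor κ) τ (tor_le V τ), suppLE_ι_assoc]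

theorem WtData.glob_injective (cover : ∀ k, V k false ⊔ V k true = ⊤) :
    Function.Injective w.glob := by
  intro φ ψ h
  have := epi_cechE V M cover
  rw [← cancel_epi (cechE V M)]
  refine biproduct.hom_ext' _ _ fun τ => ?_
  change cechι V M τ.1 τ.2 ≫ _ = cechι V M τ.1 τ.2 ≫ _
  rw [← Category.assoc, ← Category.assoc, cechι_E]
  apply w.inj τ.1
  rw [← twt_glob_eq, ← twt_glob_eq, h]

theorem WtData.glob_support (φ : M ⟶ N) (e : Wt κ) (he : e ∈ (w.glob φ).coeff.support) :
    e ∈ GoodW Lat n := by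
  have h : ∀ τ, e ∈ Lat ∧ Allowed n τ e := fun τ =>
    (w.range τ _).1 ⟨_, (twt_glob_eq w φ τ).symm⟩ e he
  refine ⟨(h (tor κ)).1, fun k => iff_of_true ?_ ?_⟩
  · exact (h (vtx fun _ => false)).2 (k, false) rfl
  · exact (h (vtx fun _ => true)).2 (k, true) rfl

/-- the cochain of Laurent polynomials attached to a morphism -/
noncomputable def twt_c (i : ℕ) : (cechC V M i ⟶ N) →ₗ[K] (Cone κ → Lam K κ) where
  toFun z τ := if h : nB τ = i then w.Θ τ (cechι V M τ h ≫ z) else 0
  map_add' z z' := by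
    funext τ
    by_cases h : nB τ = i
    · simp only [Pi.add_apply, dif_pos h, Preadditive.comp_add, map_add]
    · simp only [Pi.add_apply, dif_neg h, add_zero]
  map_smul' a z := by
    funext τ
    by_cases h : nB τ = i
    · simp only [Pi.smul_apply, dif_pos h, Linear.comp_smul, map_smul, RingHom.id_apply]
    · simp only [Pi.smul_apply, dif_neg h, smul_zero]

theorem twt_c_pos {i : ℕ} (z : cechC V M i ⟶ N) {τ : Cone κ} (h : nB τ = i) :
    twt_c w i z τ = w.Θ τ (cechι V M τ h ≫ z) := dif_pos h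

theorem twt_c_deg {i : ℕ} (z : cechC V M i ⟶ N) : Deg i (twt_c w i z) := fun _ h => dif_neg h

theorem twt_c_inj (i : ℕ) : Function.Injective (twt_c w i) := by
  intro z z' h
  refine biproduct.hom_ext' _ _ fun τ => ?_
  change cechι V M τ.1 τ.2 ≫ _ = cechι V M τ.1 τ.2 ≫ _
  apply w.inj τ.1
  rw [← twt_c_pos, ← twt_c_pos, h]

theorem twt_c_span {i : ℕ} (z : cechC V M i ⟶ N) (τ : Cone κ) :
    InSpan Lat n τ (twt_c w i z τ) := by
  by_cases h : nB τ = i
  · exact (w.range τ _).1 ⟨_, (twt_c_pos w z h).symm⟩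
  · rw [twt_c_deg w z τ h]
    intro e he
    simp at he

theorem twt_c_surj {i : ℕ} (y : Cone κ → Lam K κ) (hy : ∀ τ, InSpan Lat n τ (y τ)) (hd : Deg i y) :
    ∃ z : cechC V M i ⟶ N, twt_c w i z = y := by
  choose φ hφ using fun τ => (w.range τ (y τ)).2 (hy τ)
  refine ⟨biproduct.desc fun τ : {τ : Cone κ // nB τ = i} => φ τ.1, funext fun τ => ?_⟩
  by_cases h : nB τ = i
  · rw [twt_c_pos w _ h, ← hφ τ]
    congr 1
    exact biproduct.ι_desc _ _
  · rw [twt_c_deg w _ τ h, hd τ h]

theorem twt_c_D {i : ℕ} (z : cechC V M i ⟶ N) :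
    twt_c w (i + 1) (cechD V M i ≫ z) = cob (twt_c w i z) := by
  funext τ
  by_cases h : nB τ = i + 1
  · rw [twt_c_pos w _ h, ← Category.assoc, cechι_D, Preadditive.sum_comp, map_sum, cob]
    refine Finset.sum_congr rfl fun a _ => ?_
    by_cases ha : τ a.1 = none
    · rw [dif_pos ha, if_pos ha, Preadditive.zsmul_comp, map_zsmul, Category.assoc, w.compat,
        twt_c_pos]
    · rw [dif_neg ha, if_neg ha, zero_comp, map_zero]
  · rw [twt_c_deg w _ τ h, cob]
    refine (Finset.sum_eq_zero fun a _ => ?_).symm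
    by_cases ha : τ a.1 = none
    · rw [if_pos ha]
      refine (congrArg _ (twt_c_deg w z _ fun h' => h ?_)).trans (smul_zero _)
      rw [← nB_update_some ha a.2, h']
    · rw [if_neg ha]

include w in
theorem twt_ac (i m : ℕ) (α : Ext (cechC V M i) N (m + 1)) : α = 0 := by
  apply (Ext.biproductAddEquiv (biproduct.isBilimit
    fun τ : {τ : Cone κ // nB τ = i} => supp M (chart V τ.1)) N (m + 1)).injective
  funext τ
  exact (w.acyc τ.1 m _).trans (w.acyc τ.1 m _).symm

theorem twt_main {i : ℕ} (z : cechC V M (i + 1) ⟶ N) (hz : cechD V M (i + 1) ≫ z = 0) :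
    ∃ y : cechC V M i ⟶ N, ∀ τ, ∀ e ∈ (twt_c w (i + 1) (z - cechD V M i ≫ y) τ).coeff.support,
      e ∈ GoodW Lat n ∧ ¬ ∀ a, 0 ≤ e a + n a := by
  obtain ⟨y, hy, hd, h⟩ := cob_weights Lat n i (twt_c w (i + 1) z) (twt_c_span w z)
    (twt_c_deg w z) (by rw [← twt_c_D, hz, map_zero])
  obtain ⟨y', rfl⟩ := twt_c_surj w y hy hd
  refine ⟨y', fun τ => ?_⟩
  rw [map_sub, twt_c_D]
  exact h τ

omit [Fintype κ] [DecidableEq κ] in
theorem kwt_fin {A ι : Type} [AddCommGroup A] [Module K A] [Finite ι] {G : Set (Wt κ)}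
    (hG : G.Finite) (f : A →ₗ[K] (ι → Lam K κ)) (hf : Function.Injective f)
    (h : ∀ a τ, ∀ e ∈ (f a τ).coeff.support, e ∈ G) : Module.Finite K A := by
  have := hG.to_subtype
  let g : A →ₗ[K] (ι → G → K) :=
    { toFun := fun a τ e => (f a τ).coeff e
      map_add' := fun a b => by
        funext τ e
        simp only [map_add, Pi.add_apply, AddMonoidAlgebra.coeff_add, Finsupp.add_apply]
      map_smul' := fun c a => by
        funext τ e
        simp only [map_smul, Pi.smul_apply, AddMonoidAlgebra.coeff_smul, Finsupp.smul_apply,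
          RingHom.id_apply] }
  refine Module.Finite.of_injective g fun a b e => hf (funext fun τ => ?_)
  ext x
  by_cases hx : x ∈ G
  · exact congrFun (congrFun e τ) ⟨x, hx⟩
  · rw [Finsupp.notMem_support_iff.1 fun h' => hx (h a τ x h'),
      Finsupp.notMem_support_iff.1 fun h' => hx (h b τ x h')]

include w in
theorem WtData.finite_ext (cover : ∀ k, V k false ⊔ V k true = ⊤) (h : (GoodW Lat n).Finite)
    (i : ℕ) : Module.Finite K (Ext M N i) := by
  rcases i with _ | i
  · have : Module.Finite K (M ⟶ N) := kwt_fin (ι := Unit) h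
      (LinearMap.pi fun _ => w.Θ (tor κ) ∘ₗ Linear.leftComp K N (suppι M _))
      (fun φ ψ e => w.glob_injective cover (congrFun e ())) fun φ _ => w.glob_support φ
    exact Module.Finite.equiv (Ext.linearEquiv₀ (R := K)).symm
  · let S : Submodule K (Lam K κ) :=
      { carrier := {l : Lam K κ | ∀ e ∈ l.coeff.support, e ∈ GoodW Lat n}
        zero_mem' := fun e he => by simp at he
        add_mem' := fun {a b} ha hb e he => by
          classical
          rw [AddMonoidAlgebra.coeff_add] at he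
          rcases Finset.mem_union.1 (Finsupp.support_add he) with h' | h'
          · exact ha e h'
          · exact hb e h'
        smul_mem' := fun c a ha e he => by
          rw [AddMonoidAlgebra.coeff_smul] at he
          exact ha e (Finsupp.support_smul he) }
    let W : Submodule K (cechC V M (i + 1) ⟶ N) :=
      (Submodule.pi Set.univ fun _ => S).comap (twt_c w (i + 1))
    have hW : Module.Finite K W := kwt_fin h (twt_c w (i + 1) ∘ₗ W.subtype)
      ((twt_c_inj w _).comp W.injective_subtype) fun z τ => z.2 τ trivial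
    refine @LRes.finite_ext _ _ _ _ _ _ (cechRes V M cover) K _ _ (twt_ac w) i W hW
      fun z hz => ?_
    obtain ⟨y, hy⟩ := twt_main w z hz
    exact ⟨y, fun τ _ e he => (hy τ e he).1⟩

include w in
theorem WtData.ext_zero (cover : ∀ k, V k false ⊔ V k true = ⊤)
    (h : ∀ e ∈ GoodW Lat n, ∀ a, 0 ≤ e a + n a) (i : ℕ) (α : Ext M N (i + 1)) : α = 0 := by
  refine (cechRes V M cover).ext_zero K (twt_ac w) i (fun z hz => ?_) α
  obtain ⟨y, hy⟩ := twt_main w z hz
  refine ⟨y, sub_eq_zero.1 (twt_c_inj w (i + 1) (Eq.trans ?_ (map_zero _).symm))⟩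
  funext τ
  ext e
  by_contra he
  have := hy τ e (Finsupp.mem_support_iff.2 he)
  exact this.2 (h e this.1)

end Pool.Agent.Work.MP_910138_ag.C0
end

-- merged part: Pool.Agent.Work.MP_910138_ag.C0.KTheta
section
/-! Morphisms between toric line bundles on the charts. -/

open CategoryTheory Limits AlgebraicGeometry TopologicalSpace Opposite Abelian

namespace Pool.Agent.Work.MP_910138_ag.C0

variable {X : Scheme.{0}} {K κ : Type} [Field K] [Fintype κ] [DecidableEq κ] {D : LatData K κ}
  (T : ToricData D X) [Algebra K Γ(X, ⊤)]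

section aux

omit [DecidableEq κ] [Algebra K Γ(X, ⊤)]

/-- the Laurent polynomial of a section over the torus -/
noncomputable def ToricData.ttheta_val {n : Wt κ} (s : Γ(T.L n, T.torus)) : Lam K κ :=
  T.ev (tor κ) (resO X (le_inf le_rfl le_rfl : T.torus ≤ T.torus ⊓ T.torus) (T.fn s))

theorem ToricData.ttheta_add {n : Wt κ} (s t : Γ(T.L n, T.torus)) :
    T.ttheta_val (s + t) = T.ttheta_val s + T.ttheta_val t := by
  rw [ToricData.ttheta_val, T.fn_add, map_add, map_add]
  rfl

theorem ToricData.ttheta_smul {n : Wt κ} (r : Γ(X, T.torus)) (s : Γ(T.L n, T.torus)) :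
    T.ttheta_val (r • s) = T.ev (tor κ) r * T.ttheta_val s := by
  rw [ToricData.ttheta_val, T.fn_smul, map_mul, map_mul, resO_resO, resO_self]
  rfl

theorem ToricData.ttheta_inj (n : Wt κ) :
    Function.Injective (T.ttheta_val : Γ(T.L n, T.torus) → Lam K κ) := fun s t h => by
  have h1 := congrArg (resO X (inf_le_left : T.torus ⊓ T.torus ≤ T.torus)) (T.ev_inj _ h)
  rw [resO_resO, resO_resO, resO_self, resO_self] at h1
  exact T.fn_injective n _ h1

theorem ToricData.ttheta_one (n : Wt κ) : T.ttheta_val (T.one n) = 1 := by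
  rw [ToricData.ttheta_val, T.fn_one, map_one, map_one]

theorem ToricData.ttheta_chi (n : Wt κ) (v : κ → Bool) :
    T.ev (tor κ) (T.chi (tor κ) (D.u n v)) = mon (D.u n v) :=
  T.ev_chi (D.u_mem n v) (allowed_tor _ _)

theorem ToricData.ttheta_gen (n : Wt κ) (v : κ → Bool) :
    T.ttheta_val (res (T.L n) (tor_le T.V (vtx v)) (T.gen n v)) = mon (D.u n v) := by
  rw [ToricData.ttheta_val, T.fn_res, T.fn_gen, resO_resO, resO_resO, resO_self, T.ttheta_chi]

/-- a maximal cone containing `τ` -/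
def ttheta_v (τ : Cone κ) : κ → Bool := fun k => (τ k).getD false

theorem ttheta_le (V : κ → Bool → X.Opens) (τ : Cone κ) :
    chart V τ ≤ chart V (vtx (ttheta_v τ)) :=
  chart_mono fun k => by
    rcases h : τ k with _ | b
    · exact Or.inl rfl
    · refine Or.inr ?_
      rw [vtx, ttheta_v, h]
      rfl

/-- the generator on the chart -/
noncomputable def ToricData.ttheta_g (n : Wt κ) (τ : Cone κ) : Γ(T.L n, T.U τ) :=
  res (T.L n) (ttheta_le T.V τ) (T.gen n (ttheta_v τ))

theorem ToricData.ttheta_isGen (n : Wt κ) (τ : Cone κ) :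
    IsGen (T.L n) (T.U τ) (T.ttheta_g n τ) := (T.isGen_gen n _).res _

/-- the unit section on the torus -/
noncomputable def ToricData.ttheta_o (n : Wt κ) (τ : Cone κ) :
    Γ(supp (T.L n) (T.U τ), T.torus) :=
  (suppData (T.L n) (T.U τ)).mkSec (T.one n) (mem_suppData_of_le (tor_le T.V τ) _)

theorem ToricData.ttheta_res (n : Wt κ) (τ : Cone κ) :
    res (supp (T.L n) (T.U τ)) (tor_le T.V τ) (suppSec (T.ttheta_g n τ)) =
      T.chi (tor κ) (D.u n (ttheta_v τ)) • T.ttheta_o n τ := by
  refine gsupp_inj _ _ _ (T.ttheta_inj n ?_)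
  rw [app_res, suppι_suppSec, gexact_app_smul, T.ttheta_smul, ToricData.ttheta_g, res_res,
    T.ttheta_gen, T.ttheta_chi]
  exact (mul_one _).symm.trans (congrArg _ (T.ttheta_one n).symm)

theorem ttheta_cancel {e : Wt κ} {l l' : Lam K κ} (h : mon e * l = mon e * l') : l = l' := by
  have := congrArg (mon (-e) * ·) h
  simpa only [← mul_assoc, ← mon_add, neg_add_cancel, mon_zero, one_mul] using this

theorem ToricData.ttheta_key {n n' : Wt κ} {τ : Cone κ} (φ : supp (T.L n) (T.U τ) ⟶ T.L n')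
    {r : Γ(X, T.U τ)} (h : φ.app _ (suppSec (T.ttheta_g n τ)) = r • T.ttheta_g n' τ) :
    T.ev τ r = mon (D.u n (ttheta_v τ) - D.u n' (ttheta_v τ)) *
      T.ttheta_val (φ.app _ (T.ttheta_o n τ)) := by
  have h1 := congrArg (fun s => T.ttheta_val (res (T.L n') (tor_le T.V τ) s)) h
  simp only
    [← app_res, T.ttheta_res, gexact_app_smul, res_smul, T.ttheta_smul, T.ttheta_chi] at h1
  rw [T.ev_res, ToricData.ttheta_g, res_res, T.ttheta_gen] at h1
  refine ttheta_cancel (e := D.u n' (ttheta_v τ)) ?_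
  rw [← mul_assoc, ← mon_add, add_sub_cancel, h1, mul_comm]

theorem ToricData.ttheta_ex (n : Wt κ) (τ : Cone κ) (s : Γ(T.L n, T.U τ)) :
    ∃ r : Γ(X, T.U τ), s = r • T.ttheta_g n τ := by
  obtain ⟨r, hr⟩ := (T.ttheta_isGen n τ _ le_rfl).2 s
  exact ⟨r, hr.symm.trans (congrArg _ (res_self _ _))⟩

omit [Fintype κ] in
theorem ttheta_span (D : LatData K κ) (n n' : Wt κ) (τ : Cone κ) (l : Lam K κ) :
    InSpan D.Lat 0 τ (mon (D.u n (ttheta_v τ) - D.u n' (ttheta_v τ)) * l) ↔
      InSpan D.Lat (n' - n) τ l := by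
  have hm := D.Lat.sub_mem (D.u_mem n (ttheta_v τ)) (D.u_mem n' (ttheta_v τ))
  have hu : ∀ a : κ × Bool, τ a.1 = some a.2 →
      (D.u n (ttheta_v τ) - D.u n' (ttheta_v τ)) a = (n' - n) a := by
    rintro ⟨k, b⟩ h
    have hb : b = ttheta_v τ k := by
      rw [ttheta_v, show τ k = some b from h]
      rfl
    subst hb
    rw [Pi.sub_apply, Pi.sub_apply, D.u_apply, D.u_apply]
    ring
  generalize D.u n (ttheta_v τ) - D.u n' (ttheta_v τ) = c at hm hu
  constructor
  · intro h e he
    obtain ⟨h1, h2⟩ := h (e + c) (mem_support_mon_mul.2 (by rwa [add_sub_cancel_right]))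
    refine ⟨(D.Lat.add_mem_cancel_right hm).1 h1, fun a ha => ?_⟩
    have := h2 a ha
    rwa [Pi.zero_apply, add_zero, Pi.add_apply, hu a ha] at this
  · intro h e he
    obtain ⟨h1, h2⟩ := h _ (mem_support_mon_mul.1 he)
    refine ⟨by simpa using D.Lat.add_mem h1 hm, fun a ha => ?_⟩
    have := h2 a ha
    rw [← hu a ha, Pi.sub_apply, sub_add_cancel] at this
    rwa [Pi.zero_apply, add_zero]

end aux

variable (hT : T.IsAlg (algebraMap K Γ(X, ⊤)))

/-- the Laurent polynomial of a morphism on a chart -/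
noncomputable def ToricData.ttheta_Θ (n n' : Wt κ) (τ : Cone κ) :
    (supp (T.L n) (T.U τ) ⟶ T.L n') →ₗ[K] Lam K κ where
  toFun φ := T.ttheta_val (φ.app _ (T.ttheta_o n τ))
  map_add' _ _ := T.ttheta_add _ _
  map_smul' c φ := by
    rw [smul_app, T.ttheta_smul, hT, RingHom.id_apply, Algebra.smul_def]
    rfl

omit [DecidableEq κ] in
theorem ToricData.ttheta_Θ_apply (n n' : Wt κ) (τ : Cone κ) (φ : supp (T.L n) (T.U τ) ⟶ T.L n') :
    T.ttheta_Θ hT n n' τ φ = T.ttheta_val (φ.app _ (T.ttheta_o n τ)) := rfl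

include hT in
theorem ToricData.exists_wtData (n n' : Wt κ) :
    ∃ w : WtData K T.V D.Lat (T.L n) (T.L n') (n' - n), ∀ h : n ≤ n', w.glob (T.incl h) = 1 := by
  refine ⟨⟨T.ttheta_Θ hT n n', fun τ φ ψ h => ?_, fun τ l => ?_, fun _ _ _ _ => rfl,
    fun τ => (T.ttheta_isGen n τ).ext_zero (T.affine τ) (T.qcOn_L n' τ)⟩,
    fun _ => T.ttheta_one n⟩
  · obtain ⟨r, hr⟩ := T.ttheta_ex n' τ (φ.app _ (suppSec (T.ttheta_g n τ)))
    obtain ⟨r', hr'⟩ := T.ttheta_ex n' τ (ψ.app _ (suppSec (T.ttheta_g n τ)))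
    have h1 : r = r' := T.ev_inj τ (by
      rw [T.ttheta_key φ hr, T.ttheta_key ψ hr', ← T.ttheta_Θ_apply hT, ← T.ttheta_Θ_apply hT, h])
    exact ((T.ttheta_isGen n τ).hom_bijective _).1 (hr.trans (h1 ▸ hr'.symm))
  · rw [← ttheta_span, ← T.ev_range]
    constructor
    · rintro ⟨φ, rfl⟩
      obtain ⟨r, hr⟩ := T.ttheta_ex n' τ (φ.app _ (suppSec (T.ttheta_g n τ)))
      exact ⟨r, T.ttheta_key φ hr⟩
    · rintro ⟨r, hr⟩
      obtain ⟨φ, hφ⟩ := ((T.ttheta_isGen n τ).hom_bijective (T.L n')).2 (r • T.ttheta_g n' τ)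
      exact ⟨φ, ttheta_cancel ((T.ttheta_key φ hφ).symm.trans hr)⟩

end Pool.Agent.Work.MP_910138_ag.C0
end

-- merged part: Pool.Agent.Work.MP_910138_ag.C0.KLat
section
/-! The lattice of a product of copies of the blow-up of the plane in a point. For `i : ι` the rays
with indices ((i, false), false), ((i, false), true) are `x0 = (1,0)`, `x1 = (-1,1)` and those with
indices ((i, true), false), ((i, true), true) are `y0 = (0,1)`, the exceptional curve, and
`y1 = (0,-1)`. -/

namespace Pool.Agent.Work.MP_910138_ag.C0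

variable {ι : Type}

/-- the lattice of characters -/
def f1Lat (ι : Type) : AddSubgroup (Wt (ι × Bool)) where
  carrier := {e | ∀ i, e ((i, true), false) + e ((i, true), true) = 0 ∧
    e ((i, false), false) + e ((i, false), true) + e ((i, true), true) = 0}
  zero_mem' _ := ⟨rfl, rfl⟩
  add_mem' {a b} ha hb i := by
    have := ha i
    have := hb i
    simp only [Pi.add_apply]
    omega
  neg_mem' {a} ha i := by
    have := ha i
    simp only [Pi.neg_apply]
    omega

/-- the ample divisor `y0 + 2 x0` -/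
def f1Amp (ι : Type) : Wt (ι × Bool) := fun a =>
  if a.2 = true then 0 else if a.1.2 = true then 1 else 2

open Classical in
/-- the sum of the exceptional divisors in `S` -/
noncomputable def nE (S : Set ι) : Wt (ι × Bool) := fun a =>
  if a.1.1 ∈ S ∧ a.1.2 = true ∧ a.2 = false then 1 else 0

theorem tlat_mem {e : Wt (ι × Bool)} : e ∈ f1Lat ι ↔
    ∀ i, e ((i, true), false) + e ((i, true), true) = 0 ∧
      e ((i, false), false) + e ((i, false), true) + e ((i, true), true) = 0 := Iff.rfl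

/-- the character with coordinates `p`, `q` -/
def tlat_mk (p q : ι → ℤ) : Wt (ι × Bool) := fun a =>
  if a.1.2 = true then (if a.2 = true then -q a.1.1 else q a.1.1)
  else (if a.2 = true then q a.1.1 - p a.1.1 else p a.1.1)

theorem tlat_mk_ff (p q : ι → ℤ) (i : ι) : tlat_mk p q ((i, false), false) = p i := by
  simp [tlat_mk]

theorem tlat_mk_ft (p q : ι → ℤ) (i : ι) : tlat_mk p q ((i, false), true) = q i - p i := by
  simp [tlat_mk]

theorem tlat_mk_tf (p q : ι → ℤ) (i : ι) : tlat_mk p q ((i, true), false) = q i := by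
  simp [tlat_mk]

theorem tlat_mk_tt (p q : ι → ℤ) (i : ι) : tlat_mk p q ((i, true), true) = -q i := by
  simp [tlat_mk]

theorem tlat_mk_mem (p q : ι → ℤ) : tlat_mk p q ∈ f1Lat ι := by
  rw [tlat_mem]
  intro i
  rw [tlat_mk_ff, tlat_mk_ft, tlat_mk_tf, tlat_mk_tt]
  omega

theorem tlat_amp_ff (i : ι) : f1Amp ι ((i, false), false) = 2 := by simp [f1Amp]

theorem tlat_amp_ft (i : ι) : f1Amp ι ((i, false), true) = 0 := by simp [f1Amp]

theorem tlat_amp_tf (i : ι) : f1Amp ι ((i, true), false) = 1 := by simp [f1Amp]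

theorem tlat_amp_tt (i : ι) : f1Amp ι ((i, true), true) = 0 := by simp [f1Amp]

theorem tlat_nE_f (S : Set ι) (i : ι) (b : Bool) : nE S ((i, false), b) = 0 := by simp [nE]

theorem tlat_nE_tt (S : Set ι) (i : ι) : nE S ((i, true), true) = 0 := by simp [nE]

theorem tlat_nE_mem {S : Set ι} {i : ι} (h : i ∈ S) : nE S ((i, true), false) = 1 := by
  simp [nE, h]

theorem tlat_nE_not {S : Set ι} {i : ι} (h : i ∉ S) : nE S ((i, true), false) = 0 := by
  simp [nE, h]

theorem nE_mono {S T : Set ι} (h : S ⊆ T) : nE S ≤ nE T := by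
  rintro ⟨⟨i, b⟩, c⟩
  cases b
  · rw [tlat_nE_f, tlat_nE_f]
  · cases c
    · by_cases hS : i ∈ S
      · rw [tlat_nE_mem hS, tlat_nE_mem (h hS)]
      · rw [tlat_nE_not hS]
        by_cases hT : i ∈ T
        · rw [tlat_nE_mem hT]; exact zero_le_one
        · rw [tlat_nE_not hT]
    · rw [tlat_nE_tt, tlat_nE_tt]

theorem tlat_good {S T : Set ι} {e : Wt (ι × Bool)} (h : e ∈ GoodW (f1Lat ι) (nE T - nE S))
    (i : ι) : (e ((i, false), false) = 0 ∧ e ((i, false), true) = 0 ∧ e ((i, true), false) = 0 ∧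
      e ((i, true), true) = 0) ∧ (i ∈ S → i ∈ T) := by
  obtain ⟨h1, h2⟩ := h
  have a1 := tlat_mem.mp h1 i
  have a2 := h2 (i, false)
  have a3 := h2 (i, true)
  simp only [Pi.sub_apply, tlat_nE_f, tlat_nE_tt] at a2 a3
  by_cases hS : i ∈ S <;> by_cases hT : i ∈ T
  · rw [tlat_nE_mem hS, tlat_nE_mem hT] at a3
    exact ⟨by omega, fun _ => hT⟩
  · rw [tlat_nE_mem hS, tlat_nE_not hT] at a3
    exfalso
    omega
  · rw [tlat_nE_not hS, tlat_nE_mem hT] at a3
    exact ⟨by omega, fun _ => hT⟩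
  · rw [tlat_nE_not hS, tlat_nE_not hT] at a3
    exact ⟨by omega, fun h => absurd h hS⟩

theorem good_nE {S T : Set ι} {e : Wt (ι × Bool)} (h : e ∈ GoodW (f1Lat ι) (nE T - nE S)) :
    e = 0 ∧ S ⊆ T := by
  refine ⟨?_, fun i hi => (tlat_good h i).2 hi⟩
  funext ⟨⟨i, b⟩, c⟩
  obtain ⟨⟨h1, h2, h3, h4⟩, -⟩ := tlat_good h i
  cases b <;> cases c <;> assumption

theorem tlat_vert (v : ι × Bool → Bool) (c : ι × Bool → ℤ) :
    ∃! e : Wt (ι × Bool), e ∈ f1Lat ι ∧ ∀ k, e (k, v k) = c k := by
  let q : ι → ℤ := fun i => if v (i, true) = true then -c (i, true) else c (i, true)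
  let p : ι → ℤ := fun i => if v (i, false) = true then q i - c (i, false) else c (i, false)
  have key : ∀ k, tlat_mk p q (k, v k) = c k := by
    rintro ⟨i, b⟩
    cases b
    · cases hv : v (i, false)
      · rw [tlat_mk_ff]; simp [p, hv]
      · rw [tlat_mk_ft]; simp [p, hv]
    · cases hv : v (i, true)
      · rw [tlat_mk_tf]; simp [q, hv]
      · rw [tlat_mk_tt]; simp [q, hv]
  refine ⟨tlat_mk p q, ⟨tlat_mk_mem p q, key⟩, ?_⟩
  rintro e ⟨h1, h2⟩
  funext ⟨⟨i, b⟩, d⟩
  have a1 := tlat_mem.mp h1 i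
  have a2 := tlat_mem.mp (tlat_mk_mem p q) i
  have a3 := (h2 (i, false)).trans (key (i, false)).symm
  have a4 := (h2 (i, true)).trans (key (i, true)).symm
  generalize tlat_mk p q = e' at *
  cases hv : v (i, false) <;> cases hw : v (i, true) <;> rw [hv] at a3 <;> rw [hw] at a4 <;>
    cases b <;> cases d <;> omega

theorem tlat_strict (v : ι × Bool → Bool) (e : Wt (ι × Bool)) (he : e ∈ f1Lat ι)
    (h : ∀ k, e (k, v k) + f1Amp ι (k, v k) = 0) (k : ι × Bool) :
    0 < e (k, !v k) + f1Amp ι (k, !v k) := by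
  obtain ⟨i, b⟩ := k
  have a1 := tlat_mem.mp he i
  have a3 := h (i, false)
  have a4 := h (i, true)
  have b1 := tlat_amp_ff (ι := ι) i
  have b2 := tlat_amp_ft (ι := ι) i
  have b3 := tlat_amp_tf (ι := ι) i
  have b4 := tlat_amp_tt (ι := ι) i
  cases hv : v (i, false) <;> cases hw : v (i, true) <;> rw [hv] at a3 <;> rw [hw] at a4 <;>
    cases b <;> simp only [hv, hw, Bool.not_true, Bool.not_false] <;> omega

theorem tlat_fin [Finite ι] (n : Wt (ι × Bool)) : (GoodW (f1Lat ι) n).Finite := by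
  let B : ι → ℤ := fun i => 3 * (|n ((i, false), false)| + |n ((i, false), true)| +
    |n ((i, true), false)| + |n ((i, true), true)|)
  refine (Set.Finite.pi' (fun a : (ι × Bool) × Bool =>
    Set.finite_Icc (-B a.1.1) (B a.1.1))).subset ?_
  rintro e ⟨h1, h2⟩ ⟨⟨i, b⟩, d⟩
  have a1 := tlat_mem.mp h1 i
  have a2 := h2 (i, false)
  have a3 := h2 (i, true)
  have c1 := le_abs_self (n ((i, false), false))
  have c2 := le_abs_self (n ((i, false), true))
  have c3 := le_abs_self (n ((i, true), false))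
  have c4 := le_abs_self (n ((i, true), true))
  have d1 := neg_abs_le (n ((i, false), false))
  have d2 := neg_abs_le (n ((i, false), true))
  have d3 := neg_abs_le (n ((i, true), false))
  have d4 := neg_abs_le (n ((i, true), true))
  rw [Set.mem_Icc]
  change -(3 * (|n ((i, false), false)| + |n ((i, false), true)| +
    |n ((i, true), false)| + |n ((i, true), true)|)) ≤ e ((i, b), d) ∧ e ((i, b), d) ≤
      3 * (|n ((i, false), false)| + |n ((i, false), true)| +
    |n ((i, true), false)| + |n ((i, true), true)|)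
  generalize |n ((i, false), false)| = x1 at *
  generalize |n ((i, false), true)| = x2 at *
  generalize |n ((i, true), false)| = x3 at *
  generalize |n ((i, true), true)| = x4 at *
  cases b <;> cases d <;> omega

theorem tlat_split (d : ℕ) (p q : ℤ) (h1 : 0 ≤ p + (d + 1) * 2) (h2 : 0 ≤ q - p)
    (h3 : 0 ≤ q + (d + 1) * 1) (h4 : 0 ≤ -q) : ∃ x : ℤ × ℤ,
      (0 ≤ x.1 + 2 ∧ 0 ≤ x.2 - x.1 ∧ 0 ≤ x.2 + 1 ∧ 0 ≤ -x.2) ∧
      (0 ≤ p - x.1 + d * 2 ∧ 0 ≤ q - p - (x.2 - x.1) ∧ 0 ≤ q - x.2 + d * 1 ∧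
        0 ≤ -q - -x.2) := by
  by_cases hq : q ≤ -1
  · by_cases hp : -2 * (d : ℤ) - 1 ≤ p
    · exact ⟨(-1, -1), by omega, by omega⟩
    · exact ⟨(-2, -1), by omega, by omega⟩
  · by_cases hp : -2 * (d : ℤ) ≤ p
    · exact ⟨(0, 0), by omega, by omega⟩
    · by_cases hp' : -2 * (d : ℤ) - 1 ≤ p
      · exact ⟨(-1, 0), by omega, by omega⟩
      · exact ⟨(-2, 0), by omega, by omega⟩

theorem tlat_idp (d : ℕ) (e : Wt (ι × Bool)) (he : e ∈ f1Lat ι)
    (h : ∀ a, 0 ≤ e a + (d + 1) * f1Amp ι a) :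
    ∃ p ∈ f1Lat ι, (∀ a, 0 ≤ p a + f1Amp ι a) ∧ ∀ a, 0 ≤ e a - p a + d * f1Amp ι a := by
  have key : ∀ i, ∃ x : ℤ × ℤ,
      (0 ≤ x.1 + 2 ∧ 0 ≤ x.2 - x.1 ∧ 0 ≤ x.2 + 1 ∧ 0 ≤ -x.2) ∧
      (0 ≤ e ((i, false), false) - x.1 + d * 2 ∧
        0 ≤ e ((i, true), false) - e ((i, false), false) - (x.2 - x.1) ∧
        0 ≤ e ((i, true), false) - x.2 + d * 1 ∧ 0 ≤ -e ((i, true), false) - -x.2) := by
    intro i
    have a1 := tlat_mem.mp he i
    have b1 := h ((i, false), false)
    have b2 := h ((i, false), true)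
    have b3 := h ((i, true), false)
    have b4 := h ((i, true), true)
    rw [tlat_amp_ff] at b1
    rw [tlat_amp_ft] at b2
    rw [tlat_amp_tf] at b3
    rw [tlat_amp_tt] at b4
    exact tlat_split d _ _ b1 (by omega) b3 (by omega)
  choose x hx hy using key
  refine ⟨tlat_mk (fun i => (x i).1) fun i => (x i).2, tlat_mk_mem _ _, ?_, ?_⟩
  · rintro ⟨⟨i, b⟩, c⟩
    have a1 := hx i
    cases b <;> cases c <;>
      simp only [tlat_mk_ff, tlat_mk_ft, tlat_mk_tf, tlat_mk_tt, tlat_amp_ff, tlat_amp_ft,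
        tlat_amp_tf, tlat_amp_tt] <;> omega
  · rintro ⟨⟨i, b⟩, c⟩
    have a1 := hy i
    have a2 := tlat_mem.mp he i
    cases b <;> cases c <;>
      simp only [tlat_mk_ff, tlat_mk_ft, tlat_mk_tf, tlat_mk_tt, tlat_amp_ff, tlat_amp_ft,
        tlat_amp_tf, tlat_amp_tt] <;> omega

theorem tlat_deg0 (e : Wt (ι × Bool)) (he : e ∈ f1Lat ι) (h : ∀ a, 0 ≤ e a) : e = 0 := by
  funext ⟨⟨i, b⟩, c⟩
  have a1 := tlat_mem.mp he i
  have b1 := h ((i, false), false)
  have b2 := h ((i, false), true)
  have b3 := h ((i, true), false)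
  have b4 := h ((i, true), true)
  rw [Pi.zero_apply]
  cases b <;> cases c <;> omega

theorem tlat_nb (d : ℕ) (e : Wt (ι × Bool)) (hd : 0 < d) (he : e ∈ f1Lat ι)
    (h : ∀ a, 0 ≤ e a + d * f1Amp ι a) (k : ι × Bool) :
    0 < e (k, false) + d * f1Amp ι (k, false) ∨ 0 < e (k, true) + d * f1Amp ι (k, true) := by
  obtain ⟨i, b⟩ := k
  have a1 := tlat_mem.mp he i
  have b1 := h ((i, false), false)
  have b2 := h ((i, false), true)
  have b3 := h ((i, true), false)
  have b4 := h ((i, true), true)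
  rw [tlat_amp_ff] at b1
  rw [tlat_amp_ft] at b2
  rw [tlat_amp_tf] at b3
  rw [tlat_amp_tt] at b4
  cases b <;> simp only [tlat_amp_ff, tlat_amp_ft, tlat_amp_tf, tlat_amp_tt] <;> omega

theorem exists_latData (K ι : Type) [Finite ι] : ∃ D : LatData K (ι × Bool), D.Lat = f1Lat ι :=
  ⟨{ Lat := f1Lat ι
     vert := tlat_vert
     amp := f1Amp ι
     strict := tlat_strict
     fin_good := tlat_fin
     idp := tlat_idp
     deg0 := tlat_deg0
     nb := tlat_nb }, rfl⟩

end Pool.Agent.Work.MP_910138_ag.C0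
end

-- merged part: Pool.Agent.Work.MP_910138_ag.C0.KProj
section
/-! The toric variety as a Proj: points and charts. -/

open CategoryTheory Limits AlgebraicGeometry TopologicalSpace Opposite Abelian

namespace Pool.Agent.Work.MP_910138_ag.C0

variable {K κ : Type} [Field K] (D : LatData K κ)

/-- the cone over the polytope -/
def LatData.Sg : AddSubmonoid (ℕ × Wt κ) where
  carrier := {s | s.2 ∈ D.Lat ∧ ∀ a, 0 ≤ s.2 a + s.1 * D.amp a}
  zero_mem' := ⟨D.Lat.zero_mem, fun a => by simp⟩
  add_mem' {s t} hs ht := ⟨D.Lat.add_mem hs.1 ht.1, fun a => by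
    have h₁ := hs.2 a
    have h₂ := ht.2 a
    simp only [Prod.snd_add, Pi.add_apply, Prod.fst_add, Nat.cast_add, add_mul]
    omega⟩

/-- the degree -/
def LatData.dg : D.Sg →+ ℕ := (AddMonoidHom.fst ℕ (Wt κ)).comp D.Sg.subtype

/-- the weight -/
def LatData.wt : D.Sg →+ Wt κ := (AddMonoidHom.snd ℕ (Wt κ)).comp D.Sg.subtype

/-- the coordinates of a point of the cone -/
def LatData.coord (s : D.Sg) (a : κ × Bool) : ℤ := D.wt s a + D.dg s * D.amp a

/-- the homogeneous coordinate ring -/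
abbrev LatData.R : Type := AddMonoidAlgebra K D.Sg

/-- its grading -/
noncomputable abbrev LatData.gr : ℕ → Submodule K D.R :=
  AddMonoidAlgebra.gradeBy K D.dg

/-- the monomials -/
noncomputable def LatData.x (s : D.Sg) : D.R := AddMonoidAlgebra.single s 1

theorem LatData.x_mem (s : D.Sg) : D.x s ∈ D.gr (D.dg s) :=
  AddMonoidAlgebra.single_mem_gradeBy _ _ _

theorem LatData.x_add (s t : D.Sg) : D.x (s + t) = D.x s * D.x t := by
  rw [LatData.x, LatData.x, LatData.x, AddMonoidAlgebra.single_mul_single, one_mul]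

/-- the toric variety -/
noncomputable def LatData.X : Scheme.{0} := Proj D.gr

/-- the structure morphism -/
noncomputable def LatData.str : D.X ⟶ Spec (CommRingCat.of K) :=
  Proj.toSpecZero D.gr ≫ Spec.map (CommRingCat.ofHom (algebraMap K (D.gr 0)))

/-- the standard opens of the monomials -/
noncomputable def LatData.bo (s : D.Sg) : D.X.Opens := Proj.basicOpen D.gr (D.x s)

/-- the complement of the divisor of the ray `(k, !b)` -/
noncomputable def LatData.V (k : κ) (b : Bool) : D.X.Opens :=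
  ⨆ s : {s : D.Sg // 0 < D.coord s (k, !b)}, D.bo s.1

theorem LatData.tproj_coord_nonneg (s : D.Sg) (a : κ × Bool) : 0 ≤ D.coord s a := s.2.2 a

theorem LatData.tproj_coord_add (s t : D.Sg) (a : κ × Bool) :
    D.coord (s + t) a = D.coord s a + D.coord t a := by
  simp only [LatData.coord, map_add, Pi.add_apply, Nat.cast_add]
  ring

theorem LatData.tproj_coord_zero (a : κ × Bool) : D.coord 0 a = 0 := by
  simp [LatData.coord]

theorem LatData.tproj_coord_nsmul (m : ℕ) (s : D.Sg) (a : κ × Bool) :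
    D.coord (m • s) a = m * D.coord s a := by
  induction m with
  | zero => simp [D.tproj_coord_zero]
  | succ m ih =>
    rw [succ_nsmul, D.tproj_coord_add, ih]
    push_cast
    ring

theorem LatData.tproj_bo_add (s t : D.Sg) : D.bo (s + t) = D.bo s ⊓ D.bo t := by
  rw [LatData.bo, D.x_add, Proj.basicOpen_mul]
  rfl

theorem LatData.tproj_bo_zero : D.bo 0 = ⊤ := Proj.basicOpen_one D.gr

theorem LatData.tproj_mem_bo_add {s t : D.Sg} {x : D.X} :
    x ∈ D.bo (s + t) ↔ x ∈ D.bo s ∧ x ∈ D.bo t := by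
  rw [D.tproj_bo_add]
  rfl

theorem LatData.tproj_mem_bo_nsmul {s : D.Sg} {x : D.X} (h : x ∈ D.bo s) (m : ℕ) :
    x ∈ D.bo (m • s) := by
  induction m with
  | zero =>
    rw [zero_nsmul, D.tproj_bo_zero]
    trivial
  | succ m ih =>
    rw [succ_nsmul]
    exact D.tproj_mem_bo_add.2 ⟨ih, h⟩

theorem LatData.tproj_mem_bo_sum {ι : Type} (S : Finset ι) (t : ι → D.Sg) {x : D.X}
    (h : ∀ i ∈ S, x ∈ D.bo (t i)) : x ∈ D.bo (∑ i ∈ S, t i) := by
  classical
  induction S using Finset.induction_on with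
  | empty =>
    rw [Finset.sum_empty, D.tproj_bo_zero]
    trivial
  | insert i S hi ih =>
    rw [Finset.sum_insert hi]
    exact D.tproj_mem_bo_add.2 ⟨h i (Finset.mem_insert_self _ _),
      ih fun j hj => h j (Finset.mem_insert_of_mem hj)⟩

theorem LatData.tproj_coord_sum {ι : Type} (S : Finset ι) (t : ι → D.Sg) (a : κ × Bool) :
    D.coord (∑ i ∈ S, t i) a = ∑ i ∈ S, D.coord (t i) a := by
  classical
  induction S using Finset.induction_on with
  | empty => simp [D.tproj_coord_zero]
  | insert i S hi ih => rw [Finset.sum_insert hi, Finset.sum_insert hi, D.tproj_coord_add, ih]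

theorem LatData.tproj_exists_bo (x : D.X) : ∃ t : D.Sg, 0 < D.dg t ∧ x ∈ D.bo t := by
  have h : ⨆ t : {t : D.Sg // 0 < D.dg t}, Proj.basicOpen D.gr (D.x t.1) = ⊤ := by
    apply Proj.iSup_basicOpen_eq_top
    rw [HomogeneousIdeal.toIdeal_irrelevant_le]
    intro i hi a ha
    have ha' : ∀ m, m ∈ a.coeff.support → D.dg m = i := ha
    change a ∈ Ideal.span _
    rw [← AddMonoidAlgebra.sum_coeff_single a, Finsupp.sum]
    refine Ideal.sum_mem _ fun m hm => ?_
    have : AddMonoidAlgebra.single m (a.coeff m) =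
        AddMonoidAlgebra.single (0 : D.Sg) (a.coeff m) * D.x m := by
      rw [LatData.x, AddMonoidAlgebra.single_mul_single, zero_add, mul_one]
    rw [this]
    exact Ideal.mul_mem_left _ _ (Ideal.subset_span ⟨⟨m, by rw [ha' m hm]; exact hi⟩, rfl⟩)
  have hx : x ∈ ⨆ t : {t : D.Sg // 0 < D.dg t}, Proj.basicOpen D.gr (D.x t.1) := by
    rw [h]
    trivial
  obtain ⟨t, ht⟩ := Opens.mem_iSup.1 hx
  exact ⟨t.1, t.2, ht⟩

theorem LatData.tproj_mem_V {k : κ} {b : Bool} {x : D.X} :
    x ∈ D.V k b ↔ ∃ s : D.Sg, 0 < D.coord s (k, !b) ∧ x ∈ D.bo s := by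
  rw [LatData.V, Opens.mem_iSup]
  exact ⟨fun ⟨s, hs⟩ => ⟨s.1, s.2, hs⟩, fun ⟨s, h, hs⟩ => ⟨⟨s, h⟩, hs⟩⟩

theorem LatData.V_cover (k : κ) : D.V k false ⊔ D.V k true = ⊤ := by
  refine top_le_iff.1 fun x _ => ?_
  obtain ⟨t, ht, hx⟩ := D.tproj_exists_bo x
  rcases D.nb (D.dg t) (D.wt t) ht t.2.1 t.2.2 k with h | h
  · exact Or.inr (D.tproj_mem_V.2 ⟨t, h, hx⟩)
  · exact Or.inl (D.tproj_mem_V.2 ⟨t, h, hx⟩)

theorem LatData.bo_le_V {s : D.Sg} {k : κ} {b : Bool} (h : 0 < D.coord s (k, !b)) :
    D.bo s ≤ D.V k b :=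
  le_iSup (fun s : {s : D.Sg // 0 < D.coord s (k, !b)} => D.bo s.1) ⟨s, h⟩

variable [Fintype κ]

theorem LatData.mem_bo (s : D.Sg) (x : D.X) :
    x ∈ D.bo s ↔ ∀ k b, 0 < D.coord s (k, !b) → x ∈ D.V k b := by
  refine ⟨fun hx k b h => D.bo_le_V h hx, fun h => ?_⟩
  obtain ⟨t₀, ht₀, hx₀⟩ := D.tproj_exists_bo x
  have hw : ∀ a : κ × Bool, ∃ t : D.Sg, x ∈ D.bo t ∧ (0 < D.coord s a → 0 < D.coord t a) := by
    rintro ⟨k, b⟩
    by_cases hc : 0 < D.coord s (k, b)
    · obtain ⟨t, ht, hx⟩ := D.tproj_mem_V.1 (h k (!b) (by rwa [Bool.not_not]))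
      rw [Bool.not_not] at ht
      exact ⟨t, hx, fun _ => ht⟩
    · exact ⟨t₀, hx₀, fun h' => absurd h' hc⟩
  choose w hwx hwc using hw
  set t : D.Sg := t₀ + ∑ a, w a with ht
  have hxt : x ∈ D.bo t :=
    D.tproj_mem_bo_add.2 ⟨hx₀, D.tproj_mem_bo_sum _ _ fun a _ => hwx a⟩
  have hdt : 0 < D.dg t := by
    rw [ht, map_add]
    omega
  have hct : ∀ a, 0 < D.coord s a → 0 < D.coord t a := by
    intro a ha
    rw [ht, D.tproj_coord_add, D.tproj_coord_sum]
    have h1 := D.tproj_coord_nonneg t₀ a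
    have h2 : D.coord (w a) a ≤ ∑ a', D.coord (w a') a :=
      Finset.single_le_sum (f := fun a' => D.coord (w a') a)
        (fun a' _ => D.tproj_coord_nonneg _ _) (Finset.mem_univ a)
    have h3 := hwc a ha
    omega
  set m : ℕ := D.dg s + ∑ a, (D.coord s a).toNat with hm
  have hm1 : D.dg s ≤ m * D.dg t := by
    have : D.dg s ≤ m := Nat.le_add_right _ _
    exact this.trans (Nat.le_mul_of_pos_right _ hdt)
  have hm2 : ∀ a, D.coord s a ≤ m * D.coord t a := by
    intro a
    have h0 := D.tproj_coord_nonneg s a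
    rcases h0.eq_or_lt with h1 | h1
    · rw [← h1]
      exact mul_nonneg (Int.natCast_nonneg _) (D.tproj_coord_nonneg t a)
    · have h2 : (D.coord s a).toNat ≤ ∑ a', (D.coord s a').toNat :=
        Finset.single_le_sum (f := fun a' => (D.coord s a').toNat)
          (fun _ _ => Nat.zero_le _) (Finset.mem_univ a)
      have h3 : D.coord s a ≤ m := by
        have : (D.coord s a).toNat ≤ m := by omega
        omega
      have h4 := hct a h1
      nlinarith [Int.natCast_nonneg m]
  let t' : D.Sg := ⟨(m * D.dg t - D.dg s, m • D.wt t - D.wt s),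
    D.Lat.sub_mem (D.Lat.nsmul_mem t.2.1 m) s.2.1, fun a => by
      have h1 := hm2 a
      simp only [LatData.coord] at h1
      simp only [Pi.sub_apply, nsmul_eq_mul, Pi.mul_apply, Pi.natCast_apply, Nat.cast_sub hm1,
        Nat.cast_mul]
      linarith⟩
  have hsum : m • t = s + t' := by
    refine Subtype.ext (Prod.ext ?_ ?_)
    · change D.dg (m • t) = D.dg s + (m * D.dg t - D.dg s)
      rw [map_nsmul, smul_eq_mul]
      omega
    · change D.wt (m • t) = D.wt s + (m • D.wt t - D.wt s)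
      rw [map_nsmul]
      abel
  have := D.tproj_mem_bo_nsmul hxt m
  rw [hsum] at this
  exact (D.tproj_mem_bo_add.1 this).1

/-- `s` lies in the relative interior of the face of `τ` -/
def LatData.Int (τ : Cone κ) (s : D.Sg) : Prop :=
  0 < D.dg s ∧ ∀ a : κ × Bool, D.coord s a = 0 ↔ τ a.1 = some a.2

omit [Fintype κ] in
theorem LatData.tproj_vertex (v : κ → Bool) : ∃ s : D.Sg, D.dg s = 1 ∧
    ∀ k, D.coord s (k, v k) = 0 ∧ 0 < D.coord s (k, !v k) := by
  have h0 : ∀ k, D.u D.amp v (k, v k) + D.amp (k, v k) = 0 := fun k => by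
    rw [D.u_apply]
    ring
  have h1 := D.strict v _ (D.u_mem D.amp v) h0
  refine ⟨⟨(1, D.u D.amp v), D.u_mem _ _, ?_⟩, rfl, fun k => ⟨?_, ?_⟩⟩
  · rintro ⟨k, b⟩
    simp only [Nat.cast_one, one_mul]
    by_cases hb : b = v k
    · rw [hb, h0]
    · have hb' : b = !v k := by
        revert hb
        cases b <;> cases v k <;> simp
      rw [hb']
      exact (h1 k).le
  · change D.u D.amp v (k, v k) + ((1 : ℕ) : ℤ) * D.amp (k, v k) = 0
    rw [Nat.cast_one, one_mul, h0]
  · change 0 < D.u D.amp v (k, !v k) + ((1 : ℕ) : ℤ) * D.amp (k, !v k)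
    rw [Nat.cast_one, one_mul]
    exact h1 k

theorem LatData.exists_int (τ : Cone κ) : ∃ s, D.Int τ s := by
  obtain ⟨s₀, hd₀, h₀⟩ := D.tproj_vertex fun k => (τ k).getD false
  obtain ⟨s₁, hd₁, h₁⟩ := D.tproj_vertex fun k => (τ k).getD true
  refine ⟨s₀ + s₁, by rw [map_add]; omega, ?_⟩
  rintro ⟨k, b⟩
  rw [D.tproj_coord_add]
  have e₀ := h₀ k
  have e₁ := h₁ k
  change _ ↔ τ k = some b
  rcases hk : τ k with _ | c
  · simp only [hk, Option.getD_none, Bool.not_false, Bool.not_true] at e₀ e₁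
    cases b
    · simp only [reduceCtorEq, iff_false]
      omega
    · simp only [reduceCtorEq, iff_false]
      omega
  · simp only [hk, Option.getD_some] at e₀ e₁
    by_cases hb : c = b
    · subst hb
      simp only [iff_true]
      omega
    · have hb' : b = !c := by
        revert hb
        cases b <;> cases c <;> simp
      have : ¬ (some c = some b) := fun h => hb (Option.some_injective _ h)
      simp only [this, iff_false]
      rw [hb']
      omega

theorem LatData.chart_eq {τ : Cone κ} {s : D.Sg} (h : D.Int τ s) : chart D.V τ = D.bo s := by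
  have key : ∀ k b, (τ k = none ∨ τ k = some b) ↔ 0 < D.coord s (k, !b) := by
    intro k b
    have h1 := h.2 (k, !b)
    have h2 := D.tproj_coord_nonneg s (k, !b)
    have h3 : (τ k = none ∨ τ k = some b) ↔ ¬ τ k = some (!b) := by
      rcases τ k with _ | _ | _ <;> cases b <;> simp
    rw [h3, ← h1]
    omega
  ext x
  change x ∈ chart D.V τ ↔ x ∈ D.bo s
  rw [mem_chart, D.mem_bo]
  simp only [key]

/-- every allowed character is a quotient of monomials -/
theorem LatData.exists_frac {τ : Cone κ} {s : D.Sg} (h : D.Int τ s) (E : Finset (Wt κ))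
    (hE : ∀ e ∈ E, e ∈ D.Lat ∧ Allowed 0 τ e) : ∃ m : ℕ, ∀ e ∈ E, ∃ t : D.Sg,
      D.dg t = m * D.dg s ∧ D.wt t = e + m • D.wt s := by
  refine ⟨∑ e ∈ E, ∑ a, (e a).natAbs, fun e he => ?_⟩
  set m : ℕ := ∑ e ∈ E, ∑ a, (e a).natAbs with hm
  have hle : ∀ a, (e a).natAbs ≤ m := fun a =>
    (Finset.single_le_sum (f := fun a => (e a).natAbs) (fun _ _ => Nat.zero_le _)
      (Finset.mem_univ a)).trans
      (Finset.single_le_sum (f := fun e : Wt κ => ∑ a, (e a).natAbs) (fun _ _ => Nat.zero_le _) he)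
  refine ⟨⟨(m * D.dg s, e + m • D.wt s),
    D.Lat.add_mem (hE e he).1 (D.Lat.nsmul_mem s.2.1 m), fun a => ?_⟩, rfl, rfl⟩
  have h1 : 0 ≤ e a + m * D.coord s a := by
    rcases (D.tproj_coord_nonneg s a).eq_or_lt with h0 | h0
    · have h2 := (hE e he).2 a ((h.2 a).1 h0.symm)
      rw [← h0]
      simpa using h2
    · have h2 := hle a
      have h3 : -e a ≤ m := by omega
      nlinarith [Int.natCast_nonneg m]
  simp only [LatData.coord] at h1
  simp only [Pi.add_apply, nsmul_eq_mul, Pi.mul_apply, Pi.natCast_apply, Nat.cast_mul]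
  linarith

end Pool.Agent.Work.MP_910138_ag.C0
end

-- merged part: Pool.Agent.Work.MP_910138_ag.C0.KAway
section
/-! The homogeneous localisations of the monoid algebra as rings of Laurent polynomials. -/

open CategoryTheory Limits AlgebraicGeometry TopologicalSpace Opposite Abelian

namespace Pool.Agent.Work.MP_910138_ag.C0

open HomogeneousLocalization

variable {K κ : Type} [Field K] (D : LatData K κ)

/-- forgetting the degree -/
noncomputable def LatData.forget : D.R →+* Lam K κ := AddMonoidAlgebra.mapDomainRingHom K D.wt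

theorem taway_forget_single (s : D.Sg) (c : K) :
    D.forget (AddMonoidAlgebra.single s c) = AddMonoidAlgebra.single (D.wt s) c :=
  AddMonoidAlgebra.mapDomain_single

theorem taway_coeff (a : D.R) : (D.forget a).coeff = Finsupp.mapDomain D.wt a.coeff := rfl

theorem taway_mon_inv (e : Wt κ) : (mon e * mon (-e) : Lam K κ) = 1 := by
  rw [← mon_add, add_neg_cancel, mon_zero]

theorem taway_mon_pow (e : Wt κ) (m : ℕ) : (mon e : Lam K κ) ^ m = mon (m • e) := by
  induction m with
  | zero => rw [pow_zero, zero_smul, mon_zero]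
  | succ m ih => rw [pow_succ, ih, succ_nsmul, mon_add]

theorem taway_eq_zero {d : ℕ} {a : D.R} (ha : a ∈ D.gr d) (h : D.forget a = 0) : a = 0 := by
  have inj : Set.InjOn D.wt {s | D.dg s = d} := fun s hs t ht e =>
    Subtype.ext (Prod.ext (Eq.trans hs (Eq.symm ht)) e)
  have h1 : Finsupp.mapDomain D.wt a.coeff = Finsupp.mapDomain D.wt (0 : D.Sg →₀ K) := by
    rw [← taway_coeff, h, Finsupp.mapDomain_zero]
    rfl
  have h2 : a.coeff = 0 := Finsupp.mapDomain_injOn _ inj (fun s hs => ha s hs) (by simp) h1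
  exact AddMonoidAlgebra.coeff_injective h2

theorem LatData.forget_x (s : D.Sg) : D.forget (D.x s) = mon (D.wt s) := by
  exact taway_forget_single D s 1

theorem LatData.isUnit_forget_x (s : D.Sg) : IsUnit (D.forget (D.x s)) := by
  rw [D.forget_x]
  exact isUnit_iff_exists_inv.2 ⟨_, taway_mon_inv _⟩

/-- a homogeneous fraction as a Laurent polynomial -/
noncomputable def LatData.evAway (s : D.Sg) : Away D.gr (D.x s) →+* Lam K κ :=
  (Localization.awayLift D.forget (D.x s) (D.isUnit_forget_x s)).comp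
    (algebraMap _ (Localization.Away (D.x s)))

theorem LatData.evAway_mk (s : D.Sg) (m : ℕ) (a : D.R) (ha : a ∈ D.gr (m • D.dg s)) :
    D.evAway s (Away.mk D.gr (D.x_mem s) m a ha) = mon (-(m • D.wt s)) * D.forget a := by
  have h := Localization.awayLift_mk D.forget (D.x s) a (mon (-D.wt s))
    (by rw [D.forget_x]; exact taway_mon_inv _) m
  rw [taway_mon_pow, smul_neg] at h
  exact h.trans (mul_comm _ _)

theorem LatData.evAway_injective (s : D.Sg) : Function.Injective (D.evAway s) := by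
  refine (injective_iff_map_eq_zero _).2 fun y hy => ?_
  obtain ⟨m, a, ha, rfl⟩ := Away.mk_surjective D.gr (D.x_mem s) y
  rw [D.evAway_mk] at hy
  have h1 : D.forget a = 0 := by
    have := congrArg (mon (m • D.wt s) * ·) hy
    simpa only [← mul_assoc, taway_mon_inv, one_mul, mul_zero] using this
  obtain rfl := taway_eq_zero D ha h1
  ext
  simp [Localization.mk_zero]

theorem LatData.evAway_awayMap (s t r : D.Sg) (h : D.x r = D.x s * D.x t)
    (y : Away D.gr (D.x s)) : D.evAway r (awayMap D.gr (D.x_mem t) h y) = D.evAway s y := by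
  obtain ⟨m, a, ha, rfl⟩ := Away.mk_surjective D.gr (D.x_mem s) y
  obtain rfl : r = s + t := by
    rw [← D.x_add] at h
    exact AddMonoidAlgebra.single_left_injective one_ne_zero h
  have hm : a * D.x t ^ m ∈ D.gr (m • D.dg (s + t)) := by
    rw [map_add, smul_add]
    exact SetLike.mul_mem_graded ha (SetLike.pow_mem_graded m (D.x_mem t))
  have e : awayMap D.gr (D.x_mem t) h (Away.mk D.gr (D.x_mem s) m a ha) =
      Away.mk D.gr (D.x_mem (s + t)) m (a * D.x t ^ m) hm := by
    rw [awayMap_mk]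
    ext
    rfl
  rw [e, D.evAway_mk, D.evAway_mk, map_mul, map_pow, D.forget_x, taway_mon_pow, mul_comm (D.forget a),
    ← mul_assoc, ← mon_add, map_add, smul_add]
  congr 2
  abel

theorem LatData.evAway_range [Fintype κ] {τ : Cone κ} {s : D.Sg} (h : D.Int τ s) (l : Lam K κ) :
    (∃ y, D.evAway s y = l) ↔ InSpan D.Lat 0 τ l := by
  classical
  constructor
  · rintro ⟨y, rfl⟩ e he
    obtain ⟨m, a, ha, rfl⟩ := Away.mk_surjective D.gr (D.x_mem s) y
    rw [D.evAway_mk, mem_support_mon_mul, taway_coeff] at he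
    obtain ⟨t, ht, e1⟩ := Finset.mem_image.1 (Finsupp.mapDomain_support he)
    have e2 : e = D.wt t - m • D.wt s := by rw [e1]; abel
    have e3 : D.dg t = m • D.dg s := ha t ht
    refine ⟨e2 ▸ D.Lat.sub_mem t.2.1 (D.Lat.nsmul_mem s.2.1 m), fun b hb => ?_⟩
    have h1 : D.wt s b + D.dg s * D.amp b = 0 := (h.2 b).2 hb
    have h2 : 0 ≤ D.wt t b + D.dg t * D.amp b := t.2.2 b
    rw [e3, smul_eq_mul, Nat.cast_mul] at h2
    rw [e2, Pi.sub_apply, Pi.smul_apply, nsmul_eq_mul, Pi.zero_apply]
    have h3 : (m : ℤ) * (D.wt s b + D.dg s * D.amp b) = 0 := by rw [h1, mul_zero]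
    linarith
  · intro hl
    obtain ⟨m, hm⟩ := D.exists_frac h l.coeff.support hl
    choose! t ht using hm
    refine ⟨Away.mk D.gr (D.x_mem s) m
      (∑ e ∈ l.coeff.support, AddMonoidAlgebra.single (t e) (l.coeff e))
      (Submodule.sum_mem _ fun e he => by
        rw [smul_eq_mul, ← (ht e he).1]
        exact AddMonoidAlgebra.single_mem_gradeBy _ _ _), ?_⟩
    rw [D.evAway_mk, map_sum, Finset.mul_sum]
    conv_rhs => rw [← AddMonoidAlgebra.sum_coeff_single l]
    refine Finset.sum_congr rfl fun e he => ?_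
    rw [taway_forget_single, (ht e he).2, mon, AddMonoidAlgebra.single_mul_single, one_mul]
    congr 1
    abel

end Pool.Agent.Work.MP_910138_ag.C0
end

-- merged part: Pool.Agent.Work.MP_910138_ag.C0.KProj2
section
/-! The toric structure on the Proj of the monoid algebra. -/

open CategoryTheory Limits AlgebraicGeometry TopologicalSpace Opposite Abelian

namespace Pool.Agent.Work.MP_910138_ag.C0

open HomogeneousLocalization

variable {K κ : Type} [Field K] (D : LatData K κ)

/-- the section of a homogeneous fraction -/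
noncomputable def LatData.sec (s : D.Sg) : Away D.gr (D.x s) →+* Γ(D.X, D.bo s) :=
  (Proj.awayToSection D.gr (D.x s)).hom

theorem LatData.sec_bijective {s : D.Sg} (hs : 0 < D.dg s) : Function.Bijective (D.sec s) :=
  ConcreteCategory.bijective_of_isIso (Proj.basicOpenIsoAway D.gr (D.x s) (D.x_mem s) hs).hom

/-- evaluation on a standard open -/
noncomputable def LatData.evO {s : D.Sg} (hs : 0 < D.dg s) : Γ(D.X, D.bo s) →+* Lam K κ :=
  (D.evAway s).comp (RingEquiv.ofBijective _ (D.sec_bijective hs)).symm.toRingHom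

theorem LatData.evO_sec {s : D.Sg} (hs : 0 < D.dg s) (y : Away D.gr (D.x s)) :
    D.evO hs (D.sec s y) = D.evAway s y :=
  congrArg (D.evAway s) ((RingEquiv.ofBijective _ (D.sec_bijective hs)).symm_apply_apply y)

theorem LatData.evO_res {s t r : D.Sg} (hs : 0 < D.dg s) (hr : 0 < D.dg r)
    (h : D.x r = D.x s * D.x t) (hle : D.bo r ≤ D.bo s) (y : Γ(D.X, D.bo s)) :
    D.evO hr (resO D.X hle y) = D.evO hs y := by
  obtain ⟨y, rfl⟩ := (D.sec_bijective hs).2 y
  have h1 : resO D.X hle (D.sec s y) = D.sec r (awayMap D.gr (D.x_mem t) h y) :=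
    (ConcreteCategory.congr_hom (Proj.awayMap_awayToSection D.gr (D.x_mem t) h) y).symm
  rw [h1, D.evO_sec, D.evO_sec, D.evAway_awayMap s t r h]

theorem LatData.basicOpen_sec {s : D.Sg} (m : ℕ) (t : D.Sg) (ht : D.x t ∈ D.gr (m • D.dg s)) :
    D.X.basicOpen (D.sec s (Away.mk D.gr (D.x_mem s) m (D.x t) ht)) ≤ D.bo t := by
  intro x hx
  have hxs : x ∈ D.bo s := D.X.basicOpen_le _ hx
  have h1 := (D.X.mem_basicOpen _ x hxs).1 hx
  have h2 := ConcreteCategory.congr_hom
    (ProjectiveSpectrum.Proj.awayToSection_germ D.gr (D.x s) x hxs)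
    (Away.mk D.gr (D.x_mem s) m (D.x t) ht)
  have h3 : IsUnit ((Proj.stalkIso' D.gr x).symm
      (mapId D.gr (Submonoid.powers_le.mpr hxs) (Away.mk D.gr (D.x_mem s) m (D.x t) ht))) :=
    h2 ▸ h1
  have h4 := h3.map (Proj.stalkIso' D.gr x)
  rw [RingEquiv.apply_symm_apply, ← isUnit_iff_isUnit_val] at h4
  have h5 : (mapId D.gr (Q := x.asHomogeneousIdeal.toIdeal.primeCompl)
      (Submonoid.powers_le.mpr hxs) (Away.mk D.gr (D.x_mem s) m (D.x t) ht)).val =
      IsLocalization.mk' (Localization.AtPrime x.asHomogeneousIdeal.toIdeal) (D.x t)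
        (⟨D.x s ^ m, Submonoid.pow_mem _ hxs m⟩ : x.asHomogeneousIdeal.toIdeal.primeCompl) := by
    rw [← Localization.mk_eq_mk']
    rfl
  rw [h5, IsLocalization.AtPrime.isUnit_mk'_iff] at h4
  exact h4

theorem kproj2_res {X : Scheme.{0}} {R : CommRingCat.{0}} (f : X ⟶ Spec R) (U : X.Opens)
    (ψ : R ⟶ Γ(X, U)) (h : U.ι ≫ f = U.toSpecΓ ≫ Spec.map ψ) :
    ((Scheme.ΓSpecIso R).inv ≫ f.appTop) ≫ X.presheaf.map (homOfLE le_top).op = ψ := by
  have h1 := congrArg Scheme.Hom.appTop h
  rw [Scheme.Hom.comp_appTop, Scheme.Hom.comp_appTop, Scheme.Opens.toSpecΓ_appTop,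
    ← Category.assoc, Scheme.ΓSpecIso_naturality, Iso.eq_comp_inv] at h1
  rw [Category.assoc, Iso.inv_comp_eq, ← h1, Category.assoc]
  congr 1
  exact X.presheaf.map_comp (homOfLE le_top).op (eqToHom U.ι_image_top.symm).op

theorem kproj2_proj {A σ : Type} [CommRing A] [SetLike σ A] [AddSubgroupClass σ A] (𝒜 : ℕ → σ)
    [GradedRing 𝒜] {f : A} {m : ℕ} (hf : f ∈ 𝒜 m) (hm : 0 < m) {R : CommRingCat.{0}}
    (φ : R ⟶ CommRingCat.of (𝒜 0)) :
    (Proj.basicOpen 𝒜 f).ι ≫ Proj.toSpecZero 𝒜 ≫ Spec.map φ = (Proj.basicOpen 𝒜 f).toSpecΓ ≫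
      Spec.map (φ ≫ CommRingCat.ofHom (fromZeroRingHom 𝒜 _) ≫ Proj.awayToSection 𝒜 f) := by
  have h1 := Proj.awayι_toSpecZero 𝒜 f hf hm
  rw [Proj.awayι, Category.assoc, Iso.inv_comp_eq, Proj.basicOpenIsoSpec_hom,
    Proj.basicOpenToSpec] at h1
  rw [Spec.map_comp, Spec.map_comp, reassoc_of% h1, Category.assoc]

theorem kproj2_sec {A σ : Type} [CommRing A] [SetLike σ A] [AddSubgroupClass σ A] (𝒜 : ℕ → σ)
    [GradedRing 𝒜] {f : A} {m : ℕ} (hf : f ∈ 𝒜 m) (hm : 0 < m) (φ : K →+* 𝒜 0) (c : K) :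
    resO (Proj 𝒜) le_top (strHom (Proj.toSpecZero 𝒜 ≫ Spec.map (CommRingCat.ofHom φ)) c) =
      (Proj.awayToSection 𝒜 f).hom (Away.mk 𝒜 hf 0 (φ c) (by simp)) := by
  have h1 := congrArg (fun g => CommRingCat.Hom.hom g c)
    (kproj2_res _ _ _ (kproj2_proj 𝒜 hf hm (CommRingCat.ofHom φ)))
  have h2 : Away.mk 𝒜 hf 0 (φ c) (by simp) = fromZeroRingHom 𝒜 _ (φ c) := by
    ext
    rw [Away.val_mk]
    simp only [pow_zero]
    rfl
  rw [h2]
  exact h1

theorem kproj2_str {s : D.Sg} (hs : 0 < D.dg s) (c : K) :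
    D.evO hs (resO D.X le_top (strHom D.str c)) = AddMonoidAlgebra.single 0 c := by
  refine (congrArg (D.evO hs) (kproj2_sec D.gr (D.x_mem s) hs (algebraMap K (D.gr 0)) c)).trans
    ((D.evO_sec hs _).trans ((D.evAway_mk _ _ _ _).trans ?_))
  rw [zero_smul, neg_zero, mon_zero, one_mul, ← map_zero D.wt]
  exact taway_forget_single D 0 c

variable [Fintype κ]

theorem LatData.exists_toricData : ∃ T : ToricData D D.X, T.IsAlg (strHom D.str) := by
  choose s hs using D.exists_int
  have he : ∀ τ, chart D.V τ = D.bo (s τ) := fun τ => D.chart_eq (hs τ)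
  have hb : ∀ τ, Function.Bijective (resO D.X (he τ).ge) := fun τ =>
    Function.bijective_iff_has_inverse.2 ⟨resO D.X (he τ).le, fun y => by
      rw [resO_resO, resO_self], fun y => by rw [resO_resO, resO_self]⟩
  have hrange : ∀ τ (l : Lam K κ), (∃ y, ((D.evO (hs τ).1).comp (resO D.X (he τ).ge)) y = l) ↔
      InSpan D.Lat 0 τ l := fun τ l => by
    rw [← D.evAway_range (hs τ)]
    constructor
    · rintro ⟨y, rfl⟩
      obtain ⟨z, hz⟩ := (D.sec_bijective (hs τ).1).2 (resO D.X (he τ).ge y)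
      exact ⟨z, by rw [RingHom.comp_apply, ← hz, D.evO_sec]⟩
    · rintro ⟨z, rfl⟩
      obtain ⟨y, hy⟩ := (hb τ).2 (D.sec _ z)
      exact ⟨y, by rw [RingHom.comp_apply, hy, D.evO_sec]⟩
  have hinj : ∀ τ, Function.Injective (D.evO (hs τ).1) := fun τ =>
    (D.evAway_injective _).comp (RingEquiv.ofBijective _ (D.sec_bijective (hs τ).1)).symm.injective
  refine ⟨{ V := D.V
            cover := D.V_cover
            affine := fun τ => he τ ▸ Proj.isAffineOpen_basicOpen D.gr _ (D.x_mem _) (hs τ).1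
            ev := fun τ => (D.evO (hs τ).1).comp (resO D.X (he τ).ge)
            ev_res := fun τ τ' h y => ?_
            ev_inj := fun τ => (hinj τ).comp (hb τ).1
            ev_range := hrange
            basic := fun τ f e k b hf hk hpos => ?_ }, fun τ c => ?_⟩
  · have hr : 0 < D.dg (s τ + s τ') := by
      rw [map_add]
      exact Nat.add_pos_left (hs τ).1 _
    have h1 : D.bo (s τ + s τ') ≤ D.bo (s τ) := (D.tproj_bo_add _ _).le.trans inf_le_left
    have h2 : D.bo (s τ + s τ') ≤ D.bo (s τ') := (D.tproj_bo_add _ _).le.trans inf_le_right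
    rw [RingHom.comp_apply, RingHom.comp_apply, ← D.evO_res (hs τ).1 hr (D.x_add _ _) h1,
      ← D.evO_res (hs τ').1 hr ((D.x_add _ _).trans (mul_comm _ _)) h2, resO_resO, resO_resO,
      resO_resO]
  · have hE := inSpan_mon.1 ((hrange τ _).1 ⟨f, hf⟩)
    obtain ⟨m, hm⟩ := D.exists_frac (hs τ) {e} (by simpa using hE)
    obtain ⟨t, ht1, ht2⟩ := hm e (Finset.mem_singleton_self e)
    have ht : D.x t ∈ D.gr (m • D.dg (s τ)) := by
      rw [smul_eq_mul, ← ht1]
      exact D.x_mem t
    have h1 : resO D.X (he τ).ge f = D.sec _ (Away.mk D.gr (D.x_mem (s τ)) m (D.x t) ht) := by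
      apply hinj τ
      rw [D.evO_sec, D.evAway_mk, D.forget_x, ← mon_add, ht2]
      exact hf.trans (congrArg mon (by abel))
    have h2 : D.X.basicOpen f ≤ D.X.basicOpen (resO D.X (he τ).ge f) := by
      have := D.X.basicOpen_res f (homOfLE (he τ).ge).op
      refine le_of_le_of_eq ?_ this.symm
      exact le_inf ((D.X.basicOpen_le f).trans (he τ).le) le_rfl
    refine h2.trans ?_
    rw [h1]
    refine (D.basicOpen_sec m t ht).trans (D.bo_le_V ?_)
    have h3 := ((hs τ).2 (k, b)).2 hk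
    rw [Bool.not_not, LatData.coord, ht1, ht2]
    rw [LatData.coord] at h3
    rw [Pi.add_apply, Pi.smul_apply, nsmul_eq_mul, Nat.cast_mul]
    have : (m : ℤ) * D.wt (s τ) (k, b) + m * D.dg (s τ) * D.amp (k, b) = 0 := by
      rw [mul_assoc, ← mul_add, h3, mul_zero]
    omega
  · exact (congrArg (D.evO (hs τ).1) (resO_resO _ _ _)).trans (kproj2_str D (hs τ).1 c)

theorem LatData.nonempty_toricData : Nonempty (ToricData D D.X) :=
  D.exists_toricData.nonempty

end Pool.Agent.Work.MP_910138_ag.C0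
end

-- merged part: Pool.Agent.Work.MP_910138_ag.C0.KProjCI
section
/-! The closed immersion into projective space. -/

open CategoryTheory Limits AlgebraicGeometry TopologicalSpace Opposite Abelian

namespace Pool.Agent.Work.MP_910138_ag.C0

theorem tprojci_exists_mem {A B σ τ : Type} [CommRing A] [SetLike σ A]
    [AddSubgroupClass σ A] [CommRing B] [SetLike τ B] [AddSubgroupClass τ B]
    {𝒜 : ℕ → σ} {ℬ : ℕ → τ} [GradedRing 𝒜] [GradedRing ℬ] (f : 𝒜 →+*ᵍ ℬ)
    (hs : Function.Surjective f) {i : ℕ} {b : B} (hb : b ∈ ℬ i) : ∃ a ∈ 𝒜 i, f a = b := by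
  obtain ⟨a, rfl⟩ := hs b
  refine ⟨DirectSum.decompose 𝒜 a i, SetLike.coe_mem _, ?_⟩
  rw [GradedRingHom.map_directSumDecompose, DirectSum.decompose_of_mem_same _ hb]

theorem tprojci_away_surj {A B σ τ : Type} [CommRing A] [SetLike σ A]
    [AddSubgroupClass σ A] [CommRing B] [SetLike τ B] [AddSubgroupClass τ B]
    {𝒜 : ℕ → σ} {ℬ : ℕ → τ} [GradedRing 𝒜] [GradedRing ℬ] (f : 𝒜 →+*ᵍ ℬ)
    (hs : Function.Surjective f) {i : ℕ} {s : A} (h : s ∈ 𝒜 i) :
    Function.Surjective (HomogeneousLocalization.Away.map f s) := by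
  intro y
  obtain ⟨n, b, hb, rfl⟩ := HomogeneousLocalization.Away.mk_surjective ℬ (Graded.map_mem f h) y
  obtain ⟨a, ha, rfl⟩ := tprojci_exists_mem f hs hb
  exact ⟨HomogeneousLocalization.Away.mk 𝒜 h n a ha, HomogeneousLocalization.Away.map_mk ..⟩

open HomogeneousIdeal in
theorem tprojci_irrelevant_le {A B σ τ : Type} [CommRing A] [SetLike σ A]
    [AddSubgroupClass σ A] [CommRing B] [SetLike τ B] [AddSubgroupClass τ B]
    {𝒜 : ℕ → σ} {ℬ : ℕ → τ} [GradedRing 𝒜] [GradedRing ℬ] (f : 𝒜 →+*ᵍ ℬ)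
    (hs : Function.Surjective f) : irrelevant ℬ ≤ (irrelevant 𝒜).map f := by
  refine (irrelevant_le ℬ).2 fun i hi b hb => ?_
  obtain ⟨a, ha, rfl⟩ := tprojci_exists_mem f hs (show b ∈ ℬ i from hb)
  exact Ideal.mem_map_of_mem f (mem_irrelevant_of_mem 𝒜 hi ha)

open HomogeneousIdeal in
theorem isClosedImmersion_projMap {A B σ τ : Type} [CommRing A] [SetLike σ A]
    [AddSubgroupClass σ A] [CommRing B] [SetLike τ B] [AddSubgroupClass τ B]
    {𝒜 : ℕ → σ} {ℬ : ℕ → τ} [GradedRing 𝒜] [GradedRing ℬ] (f : 𝒜 →+*ᵍ ℬ)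
    (hf : irrelevant ℬ ≤ (irrelevant 𝒜).map f) (hs : Function.Surjective f) :
    IsClosedImmersion (Proj.map f hf) := by
  refine IsZariskiLocalAtTarget.of_openCover (P := @IsClosedImmersion)
    (Proj.affineOpenCover 𝒜).openCover fun s => ?_
  obtain ⟨⟨i, hi⟩, s, hs'⟩ := s
  have hP : IsPullback (Spec.map (CommRingCat.ofHom (HomogeneousLocalization.Away.map f s)))
      (Proj.awayι ℬ (f s) (f.2 hs') hi) (Proj.awayι 𝒜 s hs' hi) (Proj.map f hf) :=
    IsOpenImmersion.isPullback _ _ _ _ (Proj.awayι_comp_map f hf hi s hs') (by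
      rw [Proj.opensRange_awayι, Proj.opensRange_awayι, Proj.map_preimage_basicOpen])
  have hC : IsClosedImmersion
      (Spec.map (CommRingCat.ofHom (HomogeneousLocalization.Away.map f s))) :=
    IsClosedImmersion.spec_of_surjective _ (tprojci_away_surj f hs hs')
  have h : IsClosedImmersion (pullback.snd (Proj.map f hf) (Proj.awayι 𝒜 s hs' hi)) := by
    rw [← hP.flip.isoPullback_inv_snd]
    infer_instance
  exact h

attribute [local instance] MvPolynomial.gradedAlgebra

theorem tprojci_aeval_mem {K B ι : Type} [CommRing K] [CommRing B] [Algebra K B]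
    (ℬ : ℕ → Submodule K B) [GradedAlgebra ℬ] (g : ι → B) (hg : ∀ i, g i ∈ ℬ 1) {m : ℕ}
    {φ : MvPolynomial ι K} (hφ : φ ∈ MvPolynomial.homogeneousSubmodule ι K m) :
    MvPolynomial.aeval g φ ∈ ℬ m := by
  rw [MvPolynomial.mem_homogeneousSubmodule] at hφ
  rw [MvPolynomial.aeval_def, MvPolynomial.eval₂_eq]
  refine Submodule.sum_mem _ fun d hd => ?_
  rw [← Algebra.smul_def]
  refine Submodule.smul_mem _ _ ?_
  have h1 := SetLike.prod_pow_mem_graded ℬ (fun _ => 1) g d (F := d.support) fun i _ => hg i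
  have h2 : ∑ k ∈ d.support, d k • 1 = m := by
    rw [← hφ (MvPolynomial.mem_support_iff.1 hd), Finsupp.weight_apply]
    rfl
  rwa [h2] at h1

/-- the lattice points of the polytope -/
def tprojciP {K κ : Type} [Field K] (D : LatData K κ) : Set (Wt κ) := {e | e ∈ D.Lat ∧ ∀ a, 0 ≤ e a + D.amp a}

theorem tprojci_finite {K κ : Type} [Field K] (D : LatData K κ) : (tprojciP D).Finite :=
  (D.fin_good D.amp).subset fun _ he => ⟨he.1, fun _ => iff_of_true (he.2 _) (he.2 _)⟩

theorem tprojci_nonempty {K κ : Type} [Field K] (D : LatData K κ) : (tprojciP D).Nonempty := by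
  refine ⟨D.u D.amp fun _ => false, D.u_mem _ _, ?_⟩
  have h0 : ∀ k, D.u D.amp (fun _ => false) (k, false) + D.amp (k, false) = 0 := fun k => by
    have := D.u_apply D.amp (fun _ => false) k
    rw [this, neg_add_cancel]
  rintro ⟨k, _ | _⟩
  · exact (h0 k).ge
  · exact (D.strict (fun _ => false) _ (D.u_mem _ _) h0 k).le

/-- the degree one monomial of a lattice point -/
def tprojciS {K κ : Type} [Field K] (D : LatData K κ) (p : tprojciP D) : D.Sg :=
  ⟨(1, p.1), p.2.1, fun a => by simpa using p.2.2 a⟩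

theorem tprojci_x_mem {K κ : Type} [Field K] (D : LatData K κ) (T : Subalgebra K D.R)
    (hT : ∀ p, D.x (tprojciS D p) ∈ T) (d : ℕ) :
    ∀ s : D.Sg, s.1.1 = d → D.x s ∈ T := by
  induction d with
  | zero =>
    rintro ⟨⟨d, e⟩, he, h⟩ rfl
    obtain rfl : e = 0 := D.deg0 e he fun a => by simpa using h a
    exact T.one_mem
  | succ d ih =>
    rintro ⟨⟨_, e⟩, he, h⟩ rfl
    obtain ⟨p, hp, h1, h2⟩ := D.idp d e he fun a => by simpa using h a
    let t : D.Sg := ⟨(d, e - p), D.Lat.sub_mem he hp, fun a => h2 a⟩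
    have : (⟨(d + 1, e), he, h⟩ : D.Sg) = t + tprojciS D ⟨p, hp, h1⟩ :=
      Subtype.ext (Prod.ext rfl (sub_add_cancel e p).symm)
    rw [this, D.x_add]
    exact T.mul_mem (ih t rfl) (hT _)

theorem LatData.exists_closedImmersion {K κ : Type} [Field K] [Fintype κ] (D : LatData K κ) :
    ∃ (n : ℕ) (i : D.X ⟶ projSpace K n), IsClosedImmersion i := by
  obtain ⟨n, p, hp⟩ : ∃ (n : ℕ) (p : Fin (n + 1) → tprojciP D), Function.Surjective p := by
    have := (tprojci_finite D).to_subtype
    have := (tprojci_nonempty D).to_subtype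
    obtain ⟨m, ⟨e⟩⟩ := Finite.exists_equiv_fin (tprojciP D)
    rcases m with _ | n
    · exact (e (Classical.arbitrary _)).elim0
    · exact ⟨n, e.symm, e.symm.surjective⟩
  let g : Fin (n + 1) → D.R := fun i => D.x (tprojciS D (p i))
  let f : MvPolynomial.homogeneousSubmodule (Fin (n + 1)) K →+*ᵍ D.gr :=
    { toRingHom := (MvPolynomial.aeval g).toRingHom
      map_mem := fun h => tprojci_aeval_mem D.gr g (fun i => D.x_mem _) h }
  have hs : Function.Surjective f := by
    intro y
    change y ∈ (MvPolynomial.aeval g : MvPolynomial (Fin (n + 1)) K →ₐ[K] D.R).range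
    induction y using AddMonoidAlgebra.induction_on with
    | of s =>
      refine tprojci_x_mem D _ (fun q => ?_) _ s rfl
      obtain ⟨i, rfl⟩ := hp q
      exact ⟨MvPolynomial.X i, MvPolynomial.aeval_X ..⟩
    | add a b ha hb => exact Subalgebra.add_mem _ ha hb
    | smul r a ha => exact Subalgebra.smul_mem _ ha r
  exact ⟨n, Proj.map f (tprojci_irrelevant_le f hs), isClosedImmersion_projMap f _ hs⟩

open HomogeneousIdeal in
theorem kprojci_map_str {K A B : Type} [CommRing K] [CommRing A] [CommRing B] [Algebra K A]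
    [Algebra K B] {𝒜 : ℕ → Submodule K A} {ℬ : ℕ → Submodule K B} [GradedAlgebra 𝒜]
    [GradedAlgebra ℬ] (f : 𝒜 →+*ᵍ ℬ) (hf : irrelevant ℬ ≤ (irrelevant 𝒜).map f)
    (hK : ∀ c, f (algebraMap K A c) = algebraMap K B c) :
    Proj.map f hf ≫ Proj.toSpecZero 𝒜 ≫ Spec.map (CommRingCat.ofHom (algebraMap K (𝒜 0))) =
      Proj.toSpecZero ℬ ≫ Spec.map (CommRingCat.ofHom (algebraMap K (ℬ 0))) := by
  have key : ∀ {i : ℕ} (hi : 0 < i) (s : A) (hs : s ∈ 𝒜 i),
      Proj.awayι ℬ (f s) (f.2 hs) hi ≫ Proj.map f hf ≫ Proj.toSpecZero 𝒜 ≫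
        Spec.map (CommRingCat.ofHom (algebraMap K (𝒜 0))) =
      Proj.awayι ℬ (f s) (f.2 hs) hi ≫ Proj.toSpecZero ℬ ≫
        Spec.map (CommRingCat.ofHom (algebraMap K (ℬ 0))) := by
    intro i hi s hs
    rw [Proj.awayι_comp_map_assoc f hf hi s hs, Proj.awayι_toSpecZero_assoc,
      Proj.awayι_toSpecZero_assoc, ← Spec.map_comp, ← Spec.map_comp, ← Spec.map_comp]
    congr 1
    ext c
    have e : ∀ (x y d : B) (hd : d ∈ Submonoid.powers (f s)), x = y → d = 1 →
        (Localization.mk x ⟨d, hd⟩ : Localization (Submonoid.powers (f s))) =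
          Localization.mk y ⟨1, one_mem _⟩ := by
      rintro x y d hd rfl rfl
      rfl
    exact e (f (algebraMap K A c)) (algebraMap K B c) (f 1) ⟨0, by simp⟩ (hK c) (map_one f)
  exact (Proj.mapAffineOpenCover f hf).openCover.hom_ext _ _ fun s => key s.1.2 _ s.2.2

theorem LatData.exists_closedImmersion' {K κ : Type} [Field K] [Fintype κ] (D : LatData K κ) :
    ∃ (n : ℕ) (i : D.X ⟶ projSpace K n), IsClosedImmersion i ∧ i ≫ projSpaceStr K n = D.str := by
  obtain ⟨n, p, hp⟩ : ∃ (n : ℕ) (p : Fin (n + 1) → tprojciP D), Function.Surjective p := by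
    have := (tprojci_finite D).to_subtype
    have := (tprojci_nonempty D).to_subtype
    obtain ⟨m, ⟨e⟩⟩ := Finite.exists_equiv_fin (tprojciP D)
    rcases m with _ | n
    · exact (e (Classical.arbitrary _)).elim0
    · exact ⟨n, e.symm, e.symm.surjective⟩
  let g : Fin (n + 1) → D.R := fun i => D.x (tprojciS D (p i))
  let f : MvPolynomial.homogeneousSubmodule (Fin (n + 1)) K →+*ᵍ D.gr :=
    { toRingHom := (MvPolynomial.aeval g).toRingHom
      map_mem := fun h => tprojci_aeval_mem D.gr g (fun i => D.x_mem _) h }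
  have hs : Function.Surjective f := by
    intro y
    change y ∈ (MvPolynomial.aeval g : MvPolynomial (Fin (n + 1)) K →ₐ[K] D.R).range
    induction y using AddMonoidAlgebra.induction_on with
    | of s =>
      refine tprojci_x_mem D _ (fun q => ?_) _ s rfl
      obtain ⟨i, rfl⟩ := hp q
      exact ⟨MvPolynomial.X i, MvPolynomial.aeval_X ..⟩
    | add a b ha hb => exact Subalgebra.add_mem _ ha hb
    | smul r a ha => exact Subalgebra.smul_mem _ ha r
  exact ⟨n, Proj.map f (tprojci_irrelevant_le f hs), isClosedImmersion_projMap f _ hs,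
    kprojci_map_str f _ fun c => (MvPolynomial.aeval g).commutes c⟩

end Pool.Agent.Work.MP_910138_ag.C0
end
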