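import Pool.Agent.Work.MP_910138_ag.Defs

/-! Linearity over the base field. -/

open CategoryTheory AlgebraicGeometry

namespace Pool.Agent.Work.MP_910138_ag.C0

/-- The ring map from `R` to the global functions of a scheme over `R`. -/
noncomputable def constHom {X : Scheme.{0}} {R : CommRingCat.{0}} (f : X ⟶ Spec R) :
    R ⟶ Γ(X, ⊤) :=
  (Scheme.ΓSpecIso R).inv ≫ f.appTop

/-- The constant function with value `c` on a scheme over `R`. -/
noncomputable def constFun {X : Scheme.{0}} {R : CommRingCat.{0}} (f : X ⟶ Spec R) (c : R) :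
    Γ(X, ⊤) :=
  (constHom f).hom c

/-- The restriction of global functions to the open set `U`. -/
noncomputable def resTop (X : Scheme.{0}) (U : X.Opens) : Γ(X, ⊤) ⟶ Γ(X, U) :=
  X.presheaf.map (homOfLE le_top).op

/-- The endomorphism `m` of a sheaf of modules multiplies all sections by the global function
`r`. -/
def IsMulBy {X : Scheme.{0}} (r : Γ(X, ⊤)) {M : X.Modules} (m : M ⟶ M) : Prop :=
  ∀ (U : X.Opens) (s : Γ(M, U)), (m.app U).hom s = (resTop X U).hom r • s

/-- The endomorphism `φ` of an object `P` of the derived category is multiplication by `r`: it is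
induced by termwise multiplication by `r` on a complex that represents `P`. -/
def IsScalar {X : Scheme.{0}} (r : Γ(X, ⊤)) {P : DerivedCategory X.Modules} (φ : P ⟶ P) : Prop :=
  ∃ (C : CochainComplex X.Modules ℤ) (e : DerivedCategory.Q.obj C ≅ P) (m : C ⟶ C),
    (∀ n, IsMulBy r (m.f n)) ∧ e.hom ≫ φ = DerivedCategory.Q.map m ≫ e.hom

/-- `F` is `K`-linear: it is additive, and it sends multiplication by `c ∈ K` on an object `P` to
multiplication by `c` on `F P`. -/
def IsLinear {K : Type} [Field K] (X₁ X₂ : SmProj K) (A₁ : Admissible X₁.X)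
    (A₂ : Admissible X₂.X) (F : A₁.Cat ⥤ A₂.Cat) : Prop :=
  F.Additive ∧ ∀ (c : K) (P : A₁.Cat) (φ : P ⟶ P),
    IsScalar (constFun X₁.str c) φ.hom → IsScalar (constFun X₂.str c) (F.map φ).hom

end Pool.Agent.Work.MP_910138_ag.C0
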