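import Pool.Agent.Work.MP_910138_ag.C0.MapT
import Pool.Agent.Work.MP_910138_ag.NonFM
import Pool.Agent.Work.MP_910138_ag.C0.KProjCI
import Pool.Agent.Work.MP_910138_ag.GQC2
import Pool.Agent.Work.MP_910138_ag.GDb
import Pool.Agent.Work.MP_910138_ag.GBase
import Pool.Agent.Work.MP_910138_ag.C0.LinDef

-- merged part: Pool.Agent.Work.MP_910138_ag.C0.RepB
section
/-! The matrix Hom-complexes compute the cohomology of the Hom-complexes. -/

open CategoryTheory Limits CochainComplex.HomComplex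

namespace Pool.Agent.Work.MP_910138_ag.C0

universe v u

variable {k R S : Type} [Field k] [Ring R] [Algebra k R] {𝒞 : GCat k R S}
  {A : Type u} [Category.{v} A] [Abelian A] [HasCoproductsOfShape ℤ A] [Linear k A]
  [HasDerivedCategory A] {Γ : Rep 𝒞 A} (hΓ : Γ.QFF) {X Y : Ob 𝒞} {n : ℤ}

omit [HasDerivedCategory A] in
theorem repb_sums (Γ : Rep 𝒞 A) (ψ : ∀ x y, U (Γ.W (X.lab x)) ⟶ U (Γ.W (Y.lab y))) (j : ℤ)
    (h : ∀ x y, Y.deg y - X.deg x < j → ψ x y = 0) (x : X.G) (y : Y.G)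
    (hk : Y.deg y - X.deg x ≤ j) :
    ∑ x', Γ.rl (X := X.toGn) X.D x x' ≫ ψ x' y = 0 ∧
      ∑ y', ψ x y' ≫ Γ.rl (X := Y.toGn) Y.D y' y = 0 := by
  constructor
  · refine Finset.sum_eq_zero fun x' _ => ?_
    by_cases ht : Γ.rl (X := X.toGn) X.D x x' = 0
    · rw [ht, zero_comp]
    · have := (Γ.tw X).tri x x' ht
      rw [h x' y (by omega), comp_zero]
  · refine Finset.sum_eq_zero fun y' _ => ?_
    by_cases ht : Γ.rl (X := Y.toGn) Y.D y' y = 0
    · rw [ht, comp_zero]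
    · have := (Γ.tw Y).tri y' y ht
      rw [h x y' (by omega), zero_comp]

include hΓ

theorem Rep.QFF.repb_inj {f : Matrix X.G Y.G R} (hf : SP 𝒞 X.toGn Y.toGn n f)
    (h : Γ.realU X Y f = 0) : f = 0 := by
  ext x y
  refine hΓ.inj _ _ _ _ (hf x y) 0 Hg.zero ?_
  have h1 := inc_asm_pr (Γ.ts X) (Γ.ts Y) (Γ.rl f) x y
  rw [← Rep.realU_apply, h, zero_comp, comp_zero] at h1
  rw [dl_zero]
  exact h1.symm

/-- One step of the filtration argument. -/
theorem Rep.QFF.repb_step {φ : U (Γ.totObj X) ⟶ U (Γ.totObj Y)} (hφ : Hg n φ)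
    {g : Matrix X.G Y.G R} (hg : SP 𝒞 X.toGn Y.toGn (n + 1) g) (h : dl n φ = Γ.realU X Y g)
    (j : ℤ) (h0 : ∀ x y, Y.deg y - X.deg x < j → (Γ.ts X).inc x ≫ φ ≫ (Γ.ts Y).pr y = 0) :
    ∃ f ψ, SP 𝒞 X.toGn Y.toGn n f ∧ Hg (n - 1) ψ ∧ ∀ x y, Y.deg y - X.deg x < j + 1 →
      (Γ.ts X).inc x ≫ (φ - (Γ.realU X Y f + dl (n - 1) ψ)) ≫ (Γ.ts Y).pr y = 0 := by
  have key : ∀ x y, ∃ (a : R) (ψ : U (Γ.W (X.lab x)) ⟶ U (Γ.W (Y.lab y))),
      a ∈ 𝒞.sub (X.lab x) (Y.lab y) (n + X.deg x - Y.deg y) ∧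
      Hg (n - 1 + X.deg x - Y.deg y) ψ ∧ (Y.deg y - X.deg x < j → ψ = 0) ∧
      (Y.deg y - X.deg x ≤ j → (Γ.ts X).inc x ≫ φ ≫ (Γ.ts Y).pr y =
        Γ.ρ _ _ a + sg (Y.deg y) • dl (n - 1 + X.deg x - Y.deg y) ψ) := by
    intro x y
    by_cases hk : Y.deg y - X.deg x = j
    · have hc := hg_component (Γ.ts X) (Γ.ts Y) hφ x y
      obtain ⟨s1, s2⟩ := repb_sums Γ (fun x y => (Γ.ts X).inc x ≫ φ ≫ (Γ.ts Y).pr y) j h0 x y
        hk.le
      have h1 := dl_component (Γ.ts X) (Γ.ts Y) n φ x y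
      rw [s1, s2, add_zero, smul_zero, sub_zero, h, Rep.realU_apply, inc_asm_pr, ← dl_zsmul] at h1
      have e : n + X.deg x - Y.deg y = n + 1 + X.deg x - Y.deg y - 1 := by omega
      have h2 : g x y = 0 := hΓ.inj _ _ _ _ (hg x y) _ ((hg_zsmul (sg (Y.deg y)) hc).of_eq e)
        (e ▸ h1)
      rw [Rep.rl, h2, map_zero, dl_zsmul] at h1
      have h3 := congrArg (fun z => sg (Y.deg y) • z) h1
      simp only [sg_smul_sg_smul, smul_zero] at h3
      obtain ⟨a, ha, ψ, a1, a2⟩ := hΓ.surj _ _ _ _ hc h3.symm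
      refine ⟨a, sg (Y.deg y) • ψ, ha, (hg_zsmul _ a1).of_eq (by omega),
        fun hlt => absurd hlt (by omega), fun _ => ?_⟩
      rw [dl_zsmul, sg_smul_sg_smul, a2,
        show n - 1 + X.deg x - Y.deg y = n + X.deg x - Y.deg y - 1 by omega]
    · refine ⟨0, 0, zero_mem _, Hg.zero, fun _ => rfl, fun hle => ?_⟩
      rw [h0 x y (by omega), map_zero, dl_zero, smul_zero, add_zero]
  choose a ψ a1 a2 a3 a4 using key
  refine ⟨Matrix.of a, asm (Γ.ts X) (Γ.ts Y) ψ, a1, hg_asm _ _ a2, fun x y hk => ?_⟩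
  obtain ⟨s1, s2⟩ := repb_sums Γ ψ j a3 x y (by omega)
  rw [Preadditive.sub_comp, Preadditive.add_comp, Preadditive.comp_sub, Preadditive.comp_add,
    dl_asm, inc_asm_pr, Rep.realU_apply, inc_asm_pr, s1, s2, add_zero, smul_zero, sub_zero,
    a4 x y (by omega)]
  exact sub_self _

theorem Rep.QFF.repb_ind (B : ℤ) (hB : ∀ x y, Y.deg y - X.deg x < B) (j : ℕ) :
    ∀ {φ : U (Γ.totObj X) ⟶ U (Γ.totObj Y)} {g : Matrix X.G Y.G R}, Hg n φ →
      SP 𝒞 X.toGn Y.toGn (n + 1) g → dl n φ = Γ.realU X Y g →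
      (∀ x y, Y.deg y - X.deg x < B - j → (Γ.ts X).inc x ≫ φ ≫ (Γ.ts Y).pr y = 0) →
      ∃ f ψ, SP 𝒞 X.toGn Y.toGn n f ∧ Hg (n - 1) ψ ∧ φ = Γ.realU X Y f + dl (n - 1) ψ := by
  induction j with
  | zero =>
    intro φ g _ _ _ h0
    refine ⟨0, 0, SP.zero, Hg.zero, ?_⟩
    rw [map_zero, dl_zero, add_zero]
    refine asm_ext (Γ.ts X) (Γ.ts Y) fun x y => ?_
    rw [h0 x y (by have := hB x y; omega), zero_comp, comp_zero]
  | succ j ih =>
    intro φ g hφ hg h h0
    obtain ⟨f, ψ, hf, hψ, h1⟩ := hΓ.repb_step hφ hg h _ h0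
    obtain ⟨f', ψ', hf', hψ', h2⟩ := ih (g := g - dP X Y n f)
      (hg_sub hφ ((Γ.hg_realU hf).add (hg_dl hψ (by omega)))) (hg.sub (hf.dP rfl))
      (by rw [dl_sub, dl_add, dl_dl _ (sub_add_cancel n 1), add_zero, h, Γ.dl_realU hf, map_sub])
      fun x y hk => h1 x y (by push_cast at hk ⊢; omega)
    refine ⟨f' + f, ψ' + ψ, hf'.add hf, hψ'.add hψ, ?_⟩
    rw [map_add, dl_add, add_add_add_comm, ← h2, sub_add_cancel]

theorem Rep.QFF.repb_filt {φ : U (Γ.totObj X) ⟶ U (Γ.totObj Y)} (hφ : Hg n φ)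
    {g : Matrix X.G Y.G R} (hg : SP 𝒞 X.toGn Y.toGn (n + 1) g) (h : dl n φ = Γ.realU X Y g) :
    ∃ f ψ, SP 𝒞 X.toGn Y.toGn n f ∧ Hg (n - 1) ψ ∧ φ = Γ.realU X Y f + dl (n - 1) ψ := by
  obtain ⟨B, hB⟩ := (Set.finite_range fun p : X.G × Y.G => |Y.deg p.2 - X.deg p.1|).bddAbove
  have hB' : ∀ x y, |Y.deg y - X.deg x| ≤ B := fun x y => hB ⟨(x, y), rfl⟩
  refine hΓ.repb_ind (B + 1) (fun x y => ?_) (2 * B + 1).toNat hφ hg h fun x y hk => ?_
  · have := abs_le.1 (hB' x y)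
    omega
  · have := abs_le.1 (hB' x y)
    omega

theorem Rep.QFF.real_surj {φ : U (Γ.totObj X) ⟶ U (Γ.totObj Y)} (hφ : Hg n φ) (h : dl n φ = 0) :
    ∃ f ψ, SP 𝒞 X.toGn Y.toGn n f ∧ dP X Y n f = 0 ∧ Hg (n - 1) ψ ∧
      φ = Γ.realU X Y f + dl (n - 1) ψ := by
  obtain ⟨f, ψ, hf, hψ, e⟩ := hΓ.repb_filt hφ (g := 0) SP.zero (by rw [h, map_zero])
  refine ⟨f, ψ, hf, hΓ.repb_inj (hf.dP rfl) ?_, hψ, e⟩
  rw [← Γ.dl_realU hf, ← h, e, dl_add, dl_dl _ (sub_add_cancel n 1), add_zero]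

theorem Rep.QFF.real_inj {f : Matrix X.G Y.G R} (hf : SP 𝒞 X.toGn Y.toGn n f)
    {ψ : U (Γ.totObj X) ⟶ U (Γ.totObj Y)} (hψ : Hg (n - 1) ψ)
    (h : Γ.realU X Y f = dl (n - 1) ψ) :
    ∃ g, SP 𝒞 X.toGn Y.toGn (n - 1) g ∧ f = dP X Y (n - 1) g := by
  obtain ⟨g, χ, hg, -, e⟩ := hΓ.repb_filt hψ (hf.of_eq (sub_add_cancel n 1).symm) h.symm
  refine ⟨g, hg, sub_eq_zero.1 (hΓ.repb_inj (hf.sub (hg.dP (sub_add_cancel n 1))) ?_)⟩
  rw [map_sub, h, e, dl_add, dl_dl _ (sub_add_cancel (n - 1) 1), add_zero, Γ.dl_realU hg,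
    sub_self]

end Pool.Agent.Work.MP_910138_ag.C0
end

-- merged part: Pool.Agent.Work.MP_910138_ag.C0.Beil
section
/-! Beilinson's lemma. -/

open CategoryTheory Limits CochainComplex.HomComplex

namespace Pool.Agent.Work.MP_910138_ag.C0

universe v u

variable {A : Type u} [Category.{v} A] [Abelian A] [HasCoproductsOfShape ℤ A]

theorem dU_sgl (M : A) : dU ((sgl A).obj M) = 0 := by
  refine U_ext fun p => ?_
  rw [ιU_dU p (p + 1) rfl, HomologicalComplex.single_obj_d, zero_comp, comp_zero]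

theorem dl_sgl {M N : A} (n : ℤ) (f : U ((sgl A).obj M) ⟶ U ((sgl A).obj N)) : dl n f = 0 := by
  rw [dl, dU_sgl, dU_sgl, comp_zero, zero_comp, smul_zero, sub_zero]

theorem hg_sgl_ne {M N : A} {m : ℤ} (hm : m ≠ 0) {f : U ((sgl A).obj M) ⟶ U ((sgl A).obj N)}
    (hf : Hg m f) : f = 0 := by
  exact beil_hg_zero hm hf

theorem hg_sgl_zero {M N : A} {f : U ((sgl A).obj M) ⟶ U ((sgl A).obj N)}
    (hf : Hg 0 f) : ∃ g : M ⟶ N, f = mapU ((sgl A).map g) := by
  obtain ⟨g, hg⟩ := (sgl A).map_surjective (homU f hf (dl_sgl 0 f))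
  exact ⟨g, by rw [hg, mapU_homU]⟩

variable [HasDerivedCategory A] {G : Type} [Fintype G] {K : Cx A} {W : G → Cx A} {deg : G → ℤ}
  {t : ∀ x y, U (W x) ⟶ U (W y)}

open DerivedCategory

theorem kd_single (M N : A) (h : ∀ n : ℤ, 0 < n →
    ∀ φ : Q.obj ((sgl A).obj M) ⟶ (Q.obj ((sgl A).obj N))⟦n⟧, φ = 0) :
    KD ((sgl A).obj M) ((sgl A).obj N) := by
  constructor
  · intro n φ
    rcases lt_trichotomy n 0 with hn | rfl | hn
    · exact ⟨0, Hg.zero, dl_zero, by rw [cl_zero, beil_neg M N hn φ]⟩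
    · obtain ⟨g, hg⟩ := (singleFunctor A 0).map_surjective (X := M) (Y := N)
        (φ ≫ (shiftFunctorZero (DerivedCategory A) ℤ).hom.app (Q.obj ((sgl A).obj N)))
      have hg' : Q.map ((sgl A).map g) =
          φ ≫ (shiftFunctorZero (DerivedCategory A) ℤ).hom.app (Q.obj ((sgl A).obj N)) := hg
      refine ⟨mapU ((sgl A).map g), hg_mapU _, dl_mapU _, ?_⟩
      rw [cl_mapU, hg']
      simp
    · exact ⟨0, Hg.zero, dl_zero, by rw [cl_zero, h n hn φ]⟩
  · intro n f hf hd hc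
    refine ⟨0, Hg.zero, ?_⟩
    rw [dl_zero]
    by_cases hn : n = 0
    · subst hn
      obtain ⟨g, hg⟩ := (sgl A).map_surjective (homU f hf hd)
      rw [← mapU_homU f hf hd, ← hg] at hc ⊢
      rw [cl_mapU] at hc
      have h1 : Q.map ((sgl A).map g) = 0 := by
        rw [← cancel_mono ((shiftFunctorZero (DerivedCategory A) ℤ).inv.app
          (Q.obj ((sgl A).obj N))), hc, zero_comp]
      have h2 : g = 0 := by
        apply (singleFunctor A 0).map_injective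
        rw [Functor.map_zero]
        exact h1
      rw [h2, Functor.map_zero, mapU_zero]
    · exact beil_hg_zero hn hf

theorem kd_tot_left (s : TotStr K W deg t) (h : Tw W deg t) (L : Cx A) (hW : ∀ x, KD (W x) L) :
    KD K L := by
  have := beilL_iso (F := (Qh : HomotopyCategory A (ComplexShape.up ℤ) ⥤ DerivedCategory A))
    ((HomotopyCategory.quotient A (ComplexShape.up ℤ)).obj L)
  have := beilL_tri (F := (Qh : HomotopyCategory A (ComplexShape.up ℤ) ⥤ DerivedCategory A))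
    ((HomotopyCategory.quotient A (ComplexShape.up ℤ)).obj L)
  exact kd_iff.2 (s.devissage_K h
    (BeilL Qh ((HomotopyCategory.quotient A (ComplexShape.up ℤ)).obj L))
    fun x => kd_iff.1 (hW x))

theorem kd_tot_right (s : TotStr K W deg t) (h : Tw W deg t) (L : Cx A) (hW : ∀ x, KD L (W x)) :
    KD L K := by
  have := beilR_iso (F := (Qh : HomotopyCategory A (ComplexShape.up ℤ) ⥤ DerivedCategory A))
    ((HomotopyCategory.quotient A (ComplexShape.up ℤ)).obj L)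
  have := beilR_tri (F := (Qh : HomotopyCategory A (ComplexShape.up ℤ) ⥤ DerivedCategory A))
    ((HomotopyCategory.quotient A (ComplexShape.up ℤ)).obj L)
  exact kd_iff.2 (s.devissage_K h
    (BeilR Qh ((HomotopyCategory.quotient A (ComplexShape.up ℤ)).obj L))
    fun x => kd_iff.1 (hW x))

end Pool.Agent.Work.MP_910138_ag.C0
end

-- merged part: Pool.Agent.Work.MP_910138_ag.C0.RepC
section
/-! Fullness and kernel of the realisation; the exceptional collection. -/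

open CategoryTheory Limits CochainComplex.HomComplex

namespace Pool.Agent.Work.MP_910138_ag.C0

universe v u

variable {k R S : Type} [Field k] [Ring R] [Algebra k R] {𝒞 : GCat k R S}
  {A : Type u} [Category.{v} A] [Abelian A] [HasCoproductsOfShape ℤ A] [Linear k A]

open DerivedCategory

section gen

variable (Γ : Rep 𝒞 A)

theorem repc_rl_gen (s : S) (x y : Unit) :
    Γ.rl (X := (genOb 𝒞 s).toGn) (Y := (genOb 𝒞 s).toGn) (genOb 𝒞 s).D x y = 0 :=
  map_zero (Γ.ρ s s)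

/-- the projection of a one generator total complex -/
noncomputable def repc_pr (s : S) : U (Γ.totObj (genOb 𝒞 s)) ⟶ U (Γ.W s) :=
  (Γ.ts (genOb 𝒞 s)).pr ()

/-- the inclusion into a one generator total complex -/
noncomputable def repc_inc (s : S) : U (Γ.W s) ⟶ U (Γ.totObj (genOb 𝒞 s)) :=
  (Γ.ts (genOb 𝒞 s)).inc ()

theorem repc_hg_pr (s : S) : Hg 0 (repc_pr Γ s) :=
  ((Γ.ts (genOb 𝒞 s)).hpr ()).of_eq neg_zero

theorem repc_hg_inc (s : S) : Hg 0 (repc_inc Γ s) := (Γ.ts (genOb 𝒞 s)).hinc ()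

theorem repc_dl_pr (s : S) : dl 0 (repc_pr Γ s) = 0 := by
  have h := (Γ.ts (genOb 𝒞 s)).dl_pr ()
  rw [Finset.sum_eq_zero fun x _ => (congrArg (_ ≫ ·) (repc_rl_gen Γ s x ())).trans comp_zero,
    smul_zero] at h
  exact h.trans neg_zero

theorem repc_dl_inc (s : S) : dl 0 (repc_inc Γ s) = 0 :=
  ((Γ.ts (genOb 𝒞 s)).dl_inc ()).trans (Finset.sum_eq_zero fun x _ =>
    (congrArg (· ≫ _) (repc_rl_gen Γ s () x)).trans zero_comp)

theorem repc_inc_pr (s : S) : repc_inc Γ s ≫ repc_pr Γ s = 𝟙 _ :=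
  (Γ.ts (genOb 𝒞 s)).inc_pr_self ()

theorem repc_pr_inc (s : S) : repc_pr Γ s ≫ repc_inc Γ s = 𝟙 _ := by
  have h := (Γ.ts (genOb 𝒞 s)).total
  rw [Finset.sum_eq_single (show (genOb 𝒞 s).G from ()) (fun b _ hb => absurd rfl hb)
    (fun hb => absurd (Finset.mem_univ _) hb)] at h
  exact h

/-- the total complex with one generator -/
noncomputable def repc_iso (s : S) : Γ.totObj (genOb 𝒞 s) ≅ Γ.W s where
  hom := homU (repc_pr Γ s) (repc_hg_pr Γ s) (repc_dl_pr Γ s)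
  inv := homU (repc_inc Γ s) (repc_hg_inc Γ s) (repc_dl_inc Γ s)
  hom_inv_id := mapU_injective (by
    rw [mapU_comp, mapU_homU, mapU_homU, mapU_id, repc_pr_inc])
  inv_hom_id := mapU_injective (by
    rw [mapU_comp, mapU_homU, mapU_homU, mapU_id, repc_inc_pr])

theorem repc_nat {s t : S} (a : R) (ha : a ∈ 𝒞.sub s t 0) :
    Γ.realU (genOb 𝒞 s) (genOb 𝒞 t) (genMor a ha).mat ≫ repc_pr Γ t =
      repc_pr Γ s ≫ Γ.ρ s t a := by
  have h2 : repc_inc Γ s ≫ Γ.realU (genOb 𝒞 s) (genOb 𝒞 t) (genMor a ha).mat ≫ repc_pr Γ t =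
      Γ.ρ s t a :=
    inc_asm_pr (Γ.ts (genOb 𝒞 s)) (Γ.ts (genOb 𝒞 t)) (Γ.rl (genMor a ha).mat) () ()
  rw [← h2, ← Category.assoc (repc_pr Γ s), repc_pr_inc, Category.id_comp]

end gen

theorem Rep.exists_genIso (Γ : Rep 𝒞 A) : ∃ e : ∀ s, Γ.Tot.obj (genOb 𝒞 s) ≅ Γ.W s,
    ∀ (s t : S) (a : R) (ha : a ∈ 𝒞.sub s t 0),
      Γ.Tot.map (genMor a ha) ≫ (e t).hom = (e s).hom ≫ Γ.ch ha := by
  refine ⟨fun s => repc_iso Γ s, fun s t a ha => mapU_injective ?_⟩
  have e2 : ∀ w, mapU (repc_iso Γ w).hom = repc_pr Γ w := fun w => mapU_homU _ _ _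
  refine (mapU_comp _ _).trans (Eq.trans ?_ (mapU_comp _ _).symm)
  exact (congrArg₂ (· ≫ ·) (Γ.mapU_Tot_map _) (e2 t)).trans
    ((repc_nat Γ a ha).trans (congrArg₂ (· ≫ ·) (e2 s) (Γ.mapU_ch ha)).symm)

theorem Rep.Tot_map_scal (Γ : Rep 𝒞 A) (X : Ob 𝒞) (c : k) :
    Γ.Tot.map (scal X c) = c • 𝟙 _ := by
  refine mapU_injective ((Γ.mapU_Tot_map _).trans ?_)
  rw [mapU_smul, mapU_id]
  exact (map_smul (Γ.realU X X) c 1).trans (congrArg (c • ·) Γ.realU_one)

variable [HasDerivedCategory A]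

theorem Rep.isZero_zeroOb (Γ : Rep 𝒞 A) : IsZero (Γ.L.obj (zeroOb 𝒞)) := by
  have h : IsZero (Γ.totObj (zeroOb 𝒞)) := by
    rw [IsZero.iff_id_eq_zero]
    refine mapU_injective ?_
    rw [mapU_id, mapU_zero]
    exact (Γ.ts (zeroOb 𝒞)).ext_from fun x => Empty.elim x
  exact Q.map_isZero h

theorem Rep.nice_tot (Γ : Rep 𝒞 A) {T : A → Prop} (hT : SumClosed T)
    {P : ObjectProperty (DerivedCategory A)} [P.IsTriangulated] [P.IsClosedUnderIsomorphisms]
    (h : ∀ s, Nice T P (Γ.W s)) (X : Ob 𝒞) : Nice T P (Γ.totObj X) := by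
  exact ⟨(Γ.ts X).exists_ge fun x => (h _).ge, (Γ.ts X).exists_le fun x => (h _).le,
    fun n => hT _ _ _ (fun x => (h _).terms _) ((Γ.ts X).term_iso n),
    (Γ.ts X).devissage_D (Γ.tw X) P fun x => (h _).mem⟩

theorem Rep.kd_tot_right (Γ : Rep 𝒞 A) (K : Cx A) (h : ∀ s, KD K (Γ.W s)) (X : Ob 𝒞) :
    KD K (Γ.totObj X) := by
  exact C0.kd_tot_right (Γ.ts X) (Γ.tw X) K fun x => h _

omit [HasDerivedCategory A] in
theorem repc_sub (Γ : Rep 𝒞 A) {X Y : Ob 𝒞} (f g : X ⟶ Y) :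
    mapU (Γ.Tot.map f) - mapU (Γ.Tot.map g) = Γ.realU X Y (f.mat - g.mat) := by
  rw [map_sub]
  exact congrArg₂ (· - ·) (Γ.mapU_Tot_map f) (Γ.mapU_Tot_map g)

theorem Rep.L_map_eq_of_htp (Γ : Rep 𝒞 A) {X Y : Ob 𝒞} {f g : X ⟶ Y} (h : Htp f g) :
    Γ.L.map f = Γ.L.map g := by
  obtain ⟨m, hm, hm'⟩ := h
  refine Q_map_eq_of_exact (φ := Γ.Tot.map f) (ψ := Γ.Tot.map g) (Γ.hg_realU hm) ?_
  refine (repc_sub Γ f g).trans ?_
  rw [hm']
  exact (Γ.dl_realU hm).symm

variable {Γ : Rep 𝒞 A} (hΓ : Γ.QFF)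

include hΓ

theorem Rep.QFF.kd_tot (X Y : Ob 𝒞) : KD (Γ.totObj X) (Γ.totObj Y) := by
  exact kd_tot_left (Γ.ts X) (Γ.tw X) _ fun x => Γ.kd_tot_right _ (fun s => hΓ.kd _ s) Y

theorem Rep.QFF.full : Γ.L.Full := by
  refine ⟨fun {X Y} φ => ?_⟩
  obtain ⟨g, hg⟩ := (hΓ.kd_tot X Y).map_surjective φ
  obtain ⟨m, ψ, hs, hd, hψ, he⟩ := hΓ.real_surj (hg_mapU g) (dl_mapU g)
  let f : X ⟶ Y := (⟨m, hs, dP_zero_iff.1 hd⟩ : Mor X Y)
  refine ⟨f, ?_⟩
  rw [← hg]
  let f' : Γ.totObj X ⟶ Γ.totObj Y := Γ.Tot.map f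
  have key : mapU g - mapU f' = dl (-1) ψ := by
    have e1 : mapU f' = Γ.realU X Y m := Γ.mapU_Tot_map f
    rw [e1, he, add_sub_cancel_left]
    rfl
  exact (Q_map_eq_of_exact (hψ.of_eq (by norm_num)) key).symm

theorem Rep.QFF.L_map_eq_iff {X Y : Ob 𝒞} (f g : X ⟶ Y) : Γ.L.map f = Γ.L.map g ↔ Htp f g := by
  refine ⟨fun h => ?_, Γ.L_map_eq_of_htp⟩
  obtain ⟨ψ, hψ, he⟩ := (hΓ.kd_tot X Y).exact_of_map_eq
    (φ := Γ.Tot.map f) (ψ := Γ.Tot.map g) h
  obtain ⟨m, hm, hm'⟩ := hΓ.real_inj (n := 0) (f.sp.sub g.sp) (ψ := ψ) (hψ.of_eq (by norm_num))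
    ((repc_sub Γ f g).symm.trans he)
  exact ⟨m, hm, hm'⟩

theorem repc_hom (s t : S) (n : ℤ) (φ : Q.obj (Γ.W s) ⟶ (Q.obj (Γ.W t))⟦n⟧) :
    ∃ a ∈ 𝒞.sub s t n, φ = cl n (Γ.ρ s t a) := by
  obtain ⟨f, hf, hd, rfl⟩ := (hΓ.kd s t).surj n φ
  obtain ⟨a, ha, ψ, hψ, rfl⟩ := hΓ.surj s t n f hf hd
  refine ⟨a, ha, ?_⟩
  rw [cl_add (Γ.hg ha) (Γ.cl ha) (hg_dl hψ (by omega)) (dl_dl _ (by omega)), cl_exact hψ, add_zero]

theorem repc_hom_zero (s t : S) (n : ℤ) (h : 𝒞.sub s t n = ⊥)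
    (φ : Q.obj (Γ.W s) ⟶ (Q.obj (Γ.W t))⟦n⟧) : φ = 0 := by
  obtain ⟨a, ha, rfl⟩ := repc_hom hΓ s t n φ
  rw [h, Submodule.mem_bot] at ha
  rw [ha, map_zero, cl_zero]

theorem Rep.QFF.excColl [Γ.L.essImage.IsTriangulated] (rk : S → ℕ)
    (h0 : ∀ s, ∀ a ∈ 𝒞.sub s s 0, ∃ c : k, a = c • (1 : R))
    (hn : ∀ s n, n ≠ 0 → 𝒞.sub s s n = ⊥)
    (ho : ∀ s t n, s ≠ t → rk s ≤ rk t → 𝒞.sub t s n = ⊥) :
    ExcColl k Γ.L.essImage (fun s => Q.obj (Γ.W s)) rk := by
  refine ⟨fun s => ⟨genOb 𝒞 s, ⟨Q.mapIso (repc_iso Γ s)⟩⟩, fun s φ => ?_,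
    fun s n h φ => repc_hom_zero hΓ s s n (hn s n h) φ,
    fun s t hst hrk n φ => repc_hom_zero hΓ t s n (ho s t n hst hrk) φ, fun P h1 h2 hP => ?_⟩
  · obtain ⟨a, ha, e⟩ := repc_hom hΓ s s 0
      (φ ≫ (shiftFunctorZero (DerivedCategory A) ℤ).inv.app _)
    obtain ⟨c, rfl⟩ := h0 s a ha
    refine ⟨c, ?_⟩
    rw [map_smul, Γ.one, ← mapU_id, ← mapU_smul, cl_mapU, cancel_mono, Functor.map_smul,
      CategoryTheory.Functor.map_id] at e
    exact e
  · rintro X ⟨Z, ⟨e⟩⟩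
    exact P.prop_of_iso e ((Γ.ts Z).devissage_D (Γ.tw Z) P fun x => hP _)

end Pool.Agent.Work.MP_910138_ag.C0
end

-- merged part: Pool.Agent.Work.MP_910138_ag.C0.KGG
section
/-! Global generation and vanishing of Ext in large degrees. -/

open CategoryTheory Limits AlgebraicGeometry TopologicalSpace Opposite Abelian

namespace Pool.Agent.Work.MP_910138_ag.C0

variable {X : Scheme.{0}} {K κ : Type} [Field K] [Fintype κ] {D : LatData K κ}
  (T : ToricData D X)

theorem ToricData.lFin_L (n : Wt κ) : LFin (T.L n) :=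
  lFin_of_isGen fun x => by
    obtain ⟨v, hv⟩ := exists_mem_chart_vtx T.cover x
    exact ⟨_, hv, T.gen n v, T.isGen_gen n v⟩

/-- the Laurent polynomial of a function on an open set containing the torus -/
noncomputable def tgg_ev {W : X.Opens} (h : T.torus ≤ W) : Γ(X, W) →+* Lam K κ :=
  (T.ev (tor κ)).comp (resO X h)

theorem tgg_ev_res {W W' : X.Opens} (h : T.torus ≤ W) (h' : W ≤ W') (a : Γ(X, W')) :
    tgg_ev T h (resO X h' a) = tgg_ev T (h.trans h') a := by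
  rw [tgg_ev, tgg_ev, RingHom.comp_apply, RingHom.comp_apply, resO_resO]

theorem tgg_ev_inj {W : X.Opens} (h : T.torus ≤ W) : Function.Injective (tgg_ev T h) := by
  intro a b hab
  have h1 : resO X h a = resO X h b := T.ev_inj _ hab
  apply T.res_torus_injective W
  rw [← resO_resO inf_le_right h, h1, resO_resO]

theorem tgg_ev_chi {τ : Cone κ} {e : Wt κ} (he : e ∈ D.Lat) (ha : Allowed 0 τ e)
    (h : T.torus ≤ T.U τ) : tgg_ev T h (T.chi τ e) = mon e := by
  rw [tgg_ev, RingHom.comp_apply, T.ev_res, T.ev_chi he ha]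

omit [Fintype κ] in
theorem tgg_diff (D : LatData K κ) (v w : κ → Bool) (k : κ) :
    (D.u D.amp v - D.u D.amp w) (k, w k) = D.u D.amp v (k, w k) + D.amp (k, w k) := by
  rw [Pi.sub_apply, D.u_apply, sub_neg_eq_add]

omit [Fintype κ] in
theorem tgg_eq (D : LatData K κ) {v w : κ → Bool} {k : κ} (h : w k = v k) :
    (D.u D.amp v - D.u D.amp w) (k, w k) = 0 := by
  rw [tgg_diff, h, D.u_apply, neg_add_cancel]

omit [Fintype κ] in
theorem tgg_pos (D : LatData K κ) {v w : κ → Bool} {k : κ} (h : w k ≠ v k) :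
    0 < (D.u D.amp v - D.u D.amp w) (k, w k) := by
  have h1 : w k = !v k := by
    revert h
    cases w k <;> cases v k <;> simp
  rw [tgg_diff, h1]
  exact D.strict v _ (D.u_mem _ _) (fun j => by rw [D.u_apply, neg_add_cancel]) k

omit [Fintype κ] in
theorem tgg_allowed (D : LatData K κ) (v w : κ → Bool) :
    Allowed 0 (vtx w) (D.u D.amp v - D.u D.amp w) := by
  rintro ⟨k, b⟩ hk
  have hb : w k = b := Option.some_injective _ hk
  subst hb
  rw [Pi.zero_apply, add_zero]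
  by_cases h : w k = v k
  · exact (tgg_eq D h).ge
  · exact (tgg_pos D h).le

omit [Fintype κ] in
theorem tgg_mem (D : LatData K κ) (v w : κ → Bool) : D.u D.amp v - D.u D.amp w ∈ D.Lat :=
  D.Lat.sub_mem (D.u_mem _ _) (D.u_mem _ _)

omit [Fintype κ] in
theorem tgg_face (D : LatData K κ) (v w : κ → Bool) :
    face (vtx w) (D.u D.amp v - D.u D.amp w) = meet (vtx w) (vtx v) := by
  funext k
  by_cases h : w k = v k
  · rw [face, meet, if_neg, if_pos]
    · exact congrArg some h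
    · rintro ⟨b, hb, hpos⟩
      have hb' : w k = b := Option.some_injective _ hb
      subst hb'
      exact hpos.ne' (tgg_eq D h)
  · rw [face, meet, if_pos, if_neg]
    · exact fun h' => h (Option.some_injective _ h')
    · exact ⟨w k, rfl, tgg_pos D h⟩

omit [Fintype κ] in
theorem tgg_u_neg (D : LatData K κ) (m : ℕ) (w : κ → Bool) :
    D.u (-(m • D.amp)) w = -(m • D.u D.amp w) := by
  refine D.eq_of_vert w (D.u_mem _ _) (D.Lat.neg_mem (D.Lat.nsmul_mem (D.u_mem _ _) m)) fun k => ?_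
  rw [D.u_apply, Pi.neg_apply, Pi.neg_apply, Pi.smul_apply, Pi.smul_apply, D.u_apply, smul_neg]

omit [Fintype κ] in
theorem tgg_mon_pow (e : Wt κ) (m : ℕ) : (mon e : Lam K κ) ^ m = mon (m • e) := by
  induction m with
  | zero => rw [pow_zero, zero_smul, mon_zero]
  | succ m ih => rw [pow_succ, ih, ← mon_add, succ_nsmul]

theorem tgg_le (w w' : κ → Bool) : T.torus ≤ T.U (vtx w) ⊓ T.U (vtx w') :=
  le_inf (tor_le _ _) (tor_le _ _)

/-- the transition functions of the ample line bundle -/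
noncomputable def tgg_r (w w' : κ → Bool) : Γ(X, T.U (vtx w) ⊓ T.U (vtx w')) :=
  resO X inf_le_left (T.chi (vtx w) (D.u D.amp w' - D.u D.amp w))

theorem tgg_ev_r (w w' : κ → Bool) :
    tgg_ev T (tgg_le T w w') (tgg_r T w w') = mon (D.u D.amp w' - D.u D.amp w) := by
  rw [tgg_r, tgg_ev_res, tgg_ev_chi T (tgg_mem D _ _) (tgg_allowed D _ _)]

theorem tgg_trans (m : ℕ) (w w' : κ → Bool) (r : Γ(X, T.U (vtx w) ⊓ T.U (vtx w')))
    (h : res (T.L (-(m • D.amp))) inf_le_left (T.gen (-(m • D.amp)) w) =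
      r • res (T.L (-(m • D.amp))) inf_le_right (T.gen (-(m • D.amp)) w')) :
    r = tgg_r T w w' ^ m := by
  have h1 := congrArg (fun s => tgg_ev T (le_inf (tgg_le T w w') le_rfl) (T.fn s)) h
  simp only [T.fn_smul, T.fn_res, T.fn_gen, map_mul, tgg_ev_res] at h1
  rw [tgg_ev_chi T (D.u_mem _ _) (allowed_tor _ _), tgg_ev_chi T (D.u_mem _ _) (allowed_tor _ _),
    tgg_u_neg, tgg_u_neg] at h1
  apply tgg_ev_inj T (tgg_le T w w')
  rw [map_pow, tgg_ev_r, tgg_mon_pow, smul_sub, sub_eq_neg_add, mon_add, h1, mul_assoc, ← mon_add,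
    neg_add_cancel, mon_zero, mul_one]

theorem ToricData.exists_hom_of_section {M : X.Modules} (hM : IsCoh M) (v : κ → Bool)
    (s : Γ(M, T.U (vtx v))) : ∃ (m : ℕ) (φ : T.L (-(m • D.amp)) ⟶ M),
      φ.app _ (T.gen (-(m • D.amp)) v) = s := by
  obtain ⟨m, t, htv, ht⟩ := exists_twisted_extension (M := M) (fun w : κ → Bool => T.U (vtx w))
    (fun w => hM.qcOn (T.affine _))
    (fun w w' => hM.qcOn (by rw [chart_inf]; exact T.affine _)) v
    (fun w => T.chi (vtx w) (D.u D.amp v - D.u D.amp w))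
    (fun w => by
      rw [T.basicOpen_mon _ (T.ev_chi (tgg_mem D _ _) (tgg_allowed D _ _)), tgg_face, chart_inf])
    (T.ev_inj _ (by
      rw [T.ev_chi (tgg_mem D _ _) (tgg_allowed D _ _), sub_self, mon_zero, map_one]))
    (tgg_r T)
    (fun w w' => tgg_ev_inj T (tgg_le T w w') (by
      rw [map_mul, tgg_ev_r, tgg_ev_res, tgg_ev_res,
        tgg_ev_chi T (tgg_mem D _ _) (tgg_allowed D _ _),
        tgg_ev_chi T (tgg_mem D _ _) (tgg_allowed D _ _), ← mon_add]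
      congr 1
      abel)) s
  obtain ⟨φ, hφ⟩ := exists_hom_of_isGen (M := T.L (-(m • D.amp))) (N := M)
    (fun w : κ → Bool => T.U (vtx w)) (iSup_chart_vtx T.cover)
    (fun w => T.gen (-(m • D.amp)) w) (fun w => T.isGen_gen _ w) t
    (fun w w' r hr => by rw [tgg_trans T m w w' r hr, ht])
  exact ⟨m, φ, (hφ v).trans htv⟩

theorem ToricData.globally_generated (M : X.Modules) (hM : IsCoh M) :
    ∃ (G : Type) (_ : Fintype G) (l : G → ℕ) (φ : (⨁ fun x => T.L (-(l x • D.amp))) ⟶ M),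
      Epi φ := by
  classical
  have hfin : ∀ v : κ → Bool, ∃ (n : ℕ) (g : Fin n → Γ(M, T.U (vtx v))),
      Submodule.span Γ(X, T.U (vtx v)) (Set.range g) = ⊤ := fun v => by
    have := hM.finite (T.affine (vtx v))
    exact Module.Finite.exists_fin
  choose n g hg using hfin
  choose l φ hφ using fun x : Σ v : κ → Bool, Fin (n v) =>
    T.exists_hom_of_section hM x.1 (g x.1 x.2)
  refine ⟨Σ v : κ → Bool, Fin (n v), inferInstance, l, biproduct.desc φ,
    (epi_iff _).2 fun W s x hx => ?_⟩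
  obtain ⟨v, hv⟩ := exists_mem_chart_vtx T.cover x
  have hsurj : Function.Surjective (appL (biproduct.desc φ) (T.U (vtx v))) := by
    rw [← LinearMap.range_eq_top, ← top_le_iff, ← hg v, Submodule.span_le]
    rintro _ ⟨i, rfl⟩
    refine ⟨(biproduct.ι (fun x => T.L (-(l x • D.amp))) ⟨v, i⟩).app _ (T.gen _ v), ?_⟩
    rw [appL_apply, ← comp_app_apply, biproduct.ι_desc]
    exact hφ ⟨v, i⟩
  obtain ⟨V, h, hxV, t, ht⟩ := (hM.qcOn (T.affine (vtx v))).locally_surjective (T.affine _)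
    (biproduct.desc φ) hsurj (inf_le_right : W ⊓ T.U (vtx v) ≤ _) (res M inf_le_left s) x ⟨hx, hv⟩
  exact ⟨V, h.trans inf_le_left, hxV, t, ht.trans (res_res _ _ _)⟩

include T in
theorem ToricData.ext_vanish : ∃ N₀ : ℕ, ∀ M N : X.Modules, IsCoh M → IsCoh N →
    ∀ n, N₀ < n → ∀ α : Ext M N n, α = 0 := by
  classical
  have hN := T.isLocallyNoetherian
  refine ⟨Nat.card κ + (Finset.univ.image fun v : κ → Bool => T.U (vtx v)).card,
    fun M N hM hN' n hn α => ?_⟩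
  refine ext_vanish_mv (Set.range (chart T.V)) ?_ (Nat.card κ) ?_ _ ?_ ?_ n hn α
  · rintro _ ⟨τ, rfl⟩ _ ⟨τ', rfl⟩
    exact ⟨_, (chart_inf _ _ _).symm⟩
  · rintro _ ⟨τ, rfl⟩ k hk β
    have : IsNoetherianRing Γ(X, chart T.V τ) :=
      IsLocallyNoetherian.component_noetherian ⟨_, T.affine τ⟩
    have := hM.finite (T.affine τ)
    exact ext_vanish_affine (T.affine τ) (T.glDim τ) (hM.qcOn (T.affine τ))
      (hN'.qcOn (T.affine τ)) k hk β
  · intro U hU
    obtain ⟨v, -, rfl⟩ := Finset.mem_image.1 hU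
    exact ⟨_, rfl⟩
  · refine top_le_iff.1 fun x _ => ?_
    obtain ⟨v, hv⟩ := exists_mem_chart_vtx T.cover x
    exact Finset.le_sup (f := id) (Finset.mem_image_of_mem (fun v : κ → Bool => T.U (vtx v))
      (Finset.mem_univ v)) hv

end Pool.Agent.Work.MP_910138_ag.C0
end

-- merged part: Pool.Agent.Work.MP_910138_ag.C0.LDefs
section
/-! Linearity over the base field. -/

open CategoryTheory AlgebraicGeometry

namespace Pool.Agent.Work.MP_910138_ag.C0

/-- The global functions on a variety over `K` form a `K`-algebra through the structure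
morphism. Sheaves of modules then form a `K`-linear category (`modLinear`: a scalar acts on
sections by multiplication), and so do the derived category and its full subcategories. -/
noncomputable instance strAlg {K : Type} [Field K] (X : SmProj K) : Algebra K Γ(X.X, ⊤) :=
  ((Scheme.ΓSpecIso (CommRingCat.of K)).inv ≫ X.str.appTop).hom.toAlgebra

/-- `F` is `K`-linear on morphisms. -/
def IsLin {K : Type} [Field K] (X₁ X₂ : SmProj K) (A₁ : Admissible X₁.X) (A₂ : Admissible X₂.X)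
    (F : A₁.Cat ⥤ A₂.Cat) : Prop :=
  ∀ (P Q : A₁.Cat) (c : K) (φ ψ : P ⟶ Q), F.map (c • φ + ψ) = c • F.map φ + F.map ψ

end Pool.Agent.Work.MP_910138_ag.C0
end

-- merged part: Pool.Agent.Work.MP_910138_ag.C0.PD
section
/-! Strong exceptional posets of objects. -/

open CategoryTheory Limits

namespace Pool.Agent.Work.MP_910138_ag.C0

universe v u

open DerivedCategory

/-- a poset of objects with one-dimensional Hom spaces and no higher Ext -/
structure PosetData (k : Type) [Field k] (A : Type u) [Category.{v} A] [Abelian A] [Linear k A]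
    [HasDerivedCategory A] (Q' : Type) [PartialOrder Q'] where
  ρ : Q' ⥤ A
  hom_le : ∀ {q q' : Q'} (h : q ≤ q') (f : ρ.obj q ⟶ ρ.obj q'), ∃ c : k, f = c • ρ.map (homOfLE h)
  map_ne : ∀ {q q' : Q'} (h : q ≤ q'), ρ.map (homOfLE h) ≠ 0
  hom_not_le : ∀ {q q' : Q'}, ¬ q ≤ q' → ∀ f : ρ.obj q ⟶ ρ.obj q', f = 0
  ext_zero : ∀ (q q' : Q') (n : ℤ), 0 < n →
    ∀ φ : Q.obj ((sgl A).obj (ρ.obj q)) ⟶ (Q.obj ((sgl A).obj (ρ.obj q')))⟦n⟧, φ = 0

end Pool.Agent.Work.MP_910138_ag.C0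
end

-- merged part: Pool.Agent.Work.MP_910138_ag.C0.KGeom
section
/-! Realisation of a finite poset by line bundles on a smooth projective variety. -/

open CategoryTheory Limits AlgebraicGeometry TopologicalSpace Opposite Abelian

namespace Pool.Agent.Work.MP_910138_ag.C0

theorem kgeom_lam {K κ : Type} [Field K] {l : Lam K κ} (h : ∀ e ∈ l.coeff.support, e = 0) :
    l = l.coeff 0 • 1 := by
  have h1 : l = AddMonoidAlgebra.single 0 (l.coeff 0) := by
    apply AddMonoidAlgebra.ext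
    rw [AddMonoidAlgebra.coeff_single]
    exact (Finsupp.support_subset_singleton.1 fun e he => Finset.mem_singleton.2 (h e he))
  rw [AddMonoidAlgebra.one_def, AddMonoidAlgebra.smul_single', mul_one]
  exact h1

section
variable {X : Scheme.{0}} {K κ : Type} [Field K] [Fintype κ] [Algebra K Γ(X, ⊤)]
  {V : κ → Bool → X.Opens} {Lat : AddSubgroup (Wt κ)} {M N : X.Modules} {n : Wt κ}
  (w : WtData K V Lat M N n)

theorem kgeom_zero : w.glob 0 = 0 := by
  rw [WtData.glob, comp_zero, map_zero]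

theorem kgeom_smul (c : K) (φ : M ⟶ N) : w.glob (c • φ) = c • w.glob φ := by
  rw [WtData.glob, Linear.comp_smul, map_smul, WtData.glob]

end

open Classical in
theorem kgeom_aux {K Q : Type} [Field K] [PartialOrder Q] [Fintype Q] {X : Scheme.{0}}
    [Algebra K Γ(X, ⊤)] [IsLocallyNoetherian X] {D : LatData K (Q × Bool)} (hD : D.Lat = f1Lat Q)
    (T : ToricData D X) (hT : T.IsAlg (algebraMap K Γ(X, ⊤))) :
    ∃ pd : PosetData K X.Modules Q,
      (∀ q, LFin (pd.ρ.obj q)) ∧ ∀ C C', Db X C → Db X C' → TotFin K C C' := by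
  have hmono : ∀ {q q' : Q}, q ≤ q' → nE (Set.Iic q) ≤ nE (Set.Iic q') := fun h =>
    nE_mono (Set.Iic_subset_Iic.2 h)
  have hgood : ∀ {q q' : Q} {e : Wt (Q × Bool)},
      e ∈ GoodW D.Lat (nE (Set.Iic q') - nE (Set.Iic q)) → e = 0 ∧ q ≤ q' := fun h => by
    rw [hD] at h
    exact ⟨(good_nE h).1, Set.Iic_subset_Iic.1 (good_nE h).2⟩
  let ρ : Q ⥤ X.Modules :=
    { obj := fun q => T.L (nE (Set.Iic q))
      map := fun f => T.incl (hmono f.le)
      map_id := fun q => T.incl_self _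
      map_comp := fun f g => (T.incl_comp _ _).symm }
  let pd : PosetData K X.Modules Q :=
    { ρ := ρ
      hom_le := fun {q q'} h f => by
        obtain ⟨w, hw⟩ := T.exists_wtData hT (nE (Set.Iic q)) (nE (Set.Iic q'))
        refine ⟨(w.glob f).coeff 0, w.glob_injective T.cover ?_⟩
        exact (kgeom_lam fun e he => (hgood (w.glob_support f e he)).1).trans
          ((congrArg _ (hw (hmono h)).symm).trans (kgeom_smul w _ _).symm)
      map_ne := fun {q q'} h h0 => by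
        obtain ⟨w, hw⟩ := T.exists_wtData hT (nE (Set.Iic q)) (nE (Set.Iic q'))
        have h1 := hw (hmono h)
        have h2 : T.incl (hmono h) = 0 := h0
        rw [h2, kgeom_zero] at h1
        exact zero_ne_one h1
      hom_not_le := fun {q q'} h f => by
        obtain ⟨w, -⟩ := T.exists_wtData hT (nE (Set.Iic q)) (nE (Set.Iic q'))
        refine w.glob_injective T.cover (Eq.trans ?_ (kgeom_zero w).symm)
        apply AddMonoidAlgebra.ext
        rw [AddMonoidAlgebra.coeff_zero, ← Finsupp.support_eq_empty,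
          Finset.eq_empty_iff_forall_notMem]
        exact fun e he => h (hgood (w.glob_support f e he)).2
      ext_zero := fun q q' m hm φ => by
        obtain ⟨w, -⟩ := T.exists_wtData hT (nE (Set.Iic q)) (nE (Set.Iic q'))
        refine hom_zero_of_ext (w.ext_zero T.cover fun e he a => ?_) m hm φ
        obtain ⟨rfl, h⟩ := hgood he
        have : nE (Set.Iic q) a ≤ nE (Set.Iic q') a := hmono h a
        simp only [Pi.zero_apply, Pi.sub_apply]
        omega }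
  obtain ⟨N₀, hN₀⟩ := T.ext_vanish
  refine ⟨pd, fun q => T.lFin_L _, fun C C' hC hC' => ?_⟩
  refine totFin_of_family K (fun m : ℕ => T.L (-(m • D.amp)))
    (fun m => (T.lFin_L _).isCoh) T.globally_generated (fun a b m => ?_) N₀ hN₀ C C' hC hC'
  obtain ⟨w, -⟩ := T.exists_wtData hT (-(a • D.amp)) (-(b • D.amp))
  exact w.finite_ext T.cover (D.fin_good _) m

theorem geom_main (K : Type) [Field K] (Q : Type) [PartialOrder Q] [Finite Q] :
    ∃ (X : SmProj K) (_ : IsLocallyNoetherian X.X) (pd : PosetData K X.X.Modules Q),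
      (∀ q, LFin (pd.ρ.obj q)) ∧ ∀ C C', Db X.X C → Db X.X C' → TotFin K C C' := by
  have := Fintype.ofFinite Q
  obtain ⟨D, hD⟩ := exists_latData K Q
  obtain ⟨T, hT⟩ := D.exists_toricData
  let X : SmProj K := ⟨D.X, D.str, T.isIntegral, T.smooth _ hT, D.exists_closedImmersion'⟩
  have hN : IsLocallyNoetherian X.X := T.isLocallyNoetherian
  let _ := strAlg X
  exact ⟨X, hN, kgeom_aux (X := X.X) hD T hT⟩

end Pool.Agent.Work.MP_910138_ag.C0
end

-- merged part: Pool.Agent.Work.MP_910138_ag.C0.Pos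
section
/-! The graded category of a poset and its realisation. -/

open CategoryTheory Limits CochainComplex.HomComplex

namespace Pool.Agent.Work.MP_910138_ag.C0

universe v u

/-- the linearisation of a poset -/
def posetCat (k Q' : Type) [Field k] [PartialOrder Q'] : GCat k k Q' where
  sub q q' n :=
    { carrier := {c | c ≠ 0 → n = 0 ∧ q ≤ q'}
      zero_mem' := fun h => absurd rfl h
      add_mem' := fun {a b} ha hb h => by
        by_cases h' : a = 0
        · exact hb fun h'' => h (by rw [h', h'', add_zero])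
        · exact ha h'
      smul_mem' := fun c a ha h => ha fun h' => h (by rw [h', smul_zero]) }
  one_mem _ _ := ⟨rfl, le_rfl⟩
  mul_mem ha hb h hne := by
    obtain ⟨h1, h2⟩ := ha (left_ne_zero_of_mul hne)
    obtain ⟨h3, h4⟩ := hb (right_ne_zero_of_mul hne)
    exact ⟨by omega, h2.trans h4⟩
  pos s t n hn := eq_bot_iff.2 fun a ha => by
    by_contra h
    have := (ha h).1
    omega

theorem mem_posetCat {k Q' : Type} [Field k] [PartialOrder Q'] {q q' : Q'} {n : ℤ} {c : k} :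
    c ∈ (posetCat k Q').sub q q' n ↔ (c ≠ 0 → n = 0 ∧ q ≤ q') := Iff.rfl

variable {k : Type} [Field k] {A : Type u} [Category.{v} A] [Abelian A] [HasCoproductsOfShape ℤ A]
  [Linear k A] [HasDerivedCategory A] {Q' : Type} [PartialOrder Q']

omit [HasCoproductsOfShape ℤ A] [HasDerivedCategory A] in
theorem pos0_sgl_smul {M N : A} (c : k) (f : M ⟶ N) : (sgl A).map (c • f) = c • (sgl A).map f := by
  refine HomologicalComplex.hom_ext _ _ fun n => ?_
  by_cases hn : n = 0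
  · subst hn
    simp [sgl, HomologicalComplex.single_map_f_self]
  · exact (HomologicalComplex.isZero_single_obj_X _ _ _ _ hn).eq_of_src _ _

open Classical in
/-- the basic morphism between two singles -/
noncomputable def pos0_e (pd : PosetData k A Q') (q q' : Q') :
    U ((sgl A).obj (pd.ρ.obj q)) ⟶ U ((sgl A).obj (pd.ρ.obj q')) :=
  if h : q ≤ q' then mapU ((sgl A).map (pd.ρ.map (homOfLE h))) else 0

theorem pos0_e_le (pd : PosetData k A Q') {q q' : Q'} (h : q ≤ q') :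
    pos0_e pd q q' = mapU ((sgl A).map (pd.ρ.map (homOfLE h))) := dif_pos h

theorem pos0_hg (pd : PosetData k A Q') {q q' : Q'} {n : ℤ} {a : k}
    (ha : a ∈ (posetCat k Q').sub q q' n) : Hg n (a • pos0_e pd q q') := by
  by_cases h : a = 0
  · rw [h, zero_smul]
    exact Hg.zero
  · obtain ⟨rfl, hq⟩ := ha h
    rw [pos0_e_le pd hq]
    exact hg_smul a (hg_mapU _)

/-- the realisation -/
noncomputable def pos0_rep (pd : PosetData k A Q') : Rep (posetCat k Q') A where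
  W q := (sgl A).obj (pd.ρ.obj q)
  ρ q q' := LinearMap.toSpanSingleton k _ (pos0_e pd q q')
  hg ha := pos0_hg pd ha
  cl _ := dl_sgl _ _
  mul {s t u n m a b} ha hb := by
    simp only [LinearMap.toSpanSingleton_apply]
    by_cases h : a = 0
    · simp [h]
    by_cases h' : b = 0
    · simp [h']
    obtain ⟨-, h1⟩ := ha h
    obtain ⟨-, h2⟩ := hb h'
    rw [pos0_e_le pd h1, pos0_e_le pd h2, pos0_e_le pd (h1.trans h2), Linear.smul_comp,
      Linear.comp_smul, smul_smul, ← mapU_comp, ← Functor.map_comp, ← Functor.map_comp,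
      homOfLE_comp]
  one s := by
    rw [LinearMap.toSpanSingleton_apply, one_smul, pos0_e_le pd le_rfl,
      show homOfLE (le_rfl : s ≤ s) = 𝟙 s from rfl, CategoryTheory.Functor.map_id, CategoryTheory.Functor.map_id, mapU_id]

theorem pos0_qff (pd : PosetData k A Q') : (pos0_rep pd).QFF where
  surj s t n φ hφ _ := by
    by_cases hn : n = 0
    · subst hn
      obtain ⟨g, rfl⟩ := hg_sgl_zero (M := pd.ρ.obj s) (N := pd.ρ.obj t) hφ
      by_cases h : s ≤ t
      · obtain ⟨c, rfl⟩ := pd.hom_le h g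
        refine ⟨c, fun _ => ⟨rfl, h⟩, 0, Hg.zero, ?_⟩
        rw [dl_zero, add_zero, pos0_sgl_smul, mapU_smul, ← pos0_e_le pd h]
        rfl
      · refine ⟨0, zero_mem _, 0, Hg.zero, ?_⟩
        rw [dl_zero, add_zero, pd.hom_not_le h g, Functor.map_zero, mapU_zero, map_zero]
        rfl
    · refine ⟨0, zero_mem _, 0, Hg.zero, ?_⟩
      rw [dl_zero, add_zero, map_zero]
      exact hg_sgl_ne (M := pd.ρ.obj s) (N := pd.ρ.obj t) hn hφ
  inj s t n a ha ψ _ he := by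
    by_contra h
    obtain ⟨-, hq⟩ := ha h
    have h1 : a • pos0_e pd s t = 0 :=
      he.trans (dl_sgl (M := pd.ρ.obj s) (N := pd.ρ.obj t) _ ψ)
    rw [pos0_e_le pd hq, ← mapU_smul, ← pos0_sgl_smul] at h1
    have h2 : (sgl A).map (a • pd.ρ.map (homOfLE hq)) = (sgl A).map 0 := by
      rw [Functor.map_zero]
      exact mapU_injective (h1.trans mapU_zero.symm)
    have h3 := (sgl A).map_injective h2
    apply pd.map_ne hq
    rw [← one_smul k (pd.ρ.map (homOfLE hq)), ← inv_mul_cancel₀ h, mul_smul, h3, smul_zero]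
  kd s t := kd_single _ _ (pd.ext_zero s t)

omit [HasCoproductsOfShape ℤ A] [HasDerivedCategory A] in
theorem pos0_terms {T : A → Prop} (hT : SumClosed T) {M : A} (hM : T M) (m : ℤ) :
    T (((sgl A).obj M).X m) := by
  by_cases hm : m = 0
  · subst hm
    exact hT Unit (fun _ => M) _ (fun _ => hM)
      ⟨HomologicalComplex.singleObjXSelf _ _ _ ≪≫ (biproductUniqueIso fun _ : Unit => M).symm⟩
  · refine hT Empty (fun x => x.elim) _ (fun x => x.elim)
      ⟨(HomologicalComplex.isZero_single_obj_X _ _ _ _ hm).iso ?_⟩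
    rw [IsZero.iff_id_eq_zero]
    exact biproduct.hom_ext _ _ fun x => x.elim

theorem PosetData.exists_rep (pd : PosetData k A Q') : ∃ Γ : Rep (posetCat k Q') A, Γ.QFF ∧
    ∀ (T : A → Prop) (P : ObjectProperty (DerivedCategory A)), SumClosed T →
      (∀ q, T (pd.ρ.obj q)) → (∀ q, P (DerivedCategory.Q.obj ((sgl A).obj (pd.ρ.obj q)))) →
        ∀ q, Nice T P (Γ.W q) := by
  refine ⟨pos0_rep pd, pos0_qff pd, fun T P hT hρ hP q => ⟨⟨0, ?_⟩, ⟨0, ?_⟩, ?_, hP q⟩⟩
  · exact (inferInstance : CochainComplex.IsStrictlyGE ((sgl A).obj (pd.ρ.obj q)) 0)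
  · exact (inferInstance : CochainComplex.IsStrictlyLE ((sgl A).obj (pd.ρ.obj q)) 0)
  · exact pos0_terms hT (hρ q)

end Pool.Agent.Work.MP_910138_ag.C0
end

-- merged part: Pool.Agent.Work.MP_910138_ag.C0.LinBridge
section
/-! The two descriptions of linearity agree. -/

open CategoryTheory AlgebraicGeometry

namespace Pool.Agent.Work.MP_910138_ag.C0

variable {K : Type} [Field K]

theorem isMulBy_iff (X : SmProj K) (c : K) {M : X.X.Modules} (m : M ⟶ M) :
    IsMulBy (constFun X.str c) m ↔ m = c • 𝟙 M :=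
  ⟨fun h => hom_ext' fun U s => h U s, fun h _ _ => h ▸ rfl⟩

theorem isScalar_iff (X : SmProj K) (c : K) {P : DerivedCategory X.X.Modules} (φ : P ⟶ P) :
    IsScalar (constFun X.str c) φ ↔ φ = c • 𝟙 P := by
  constructor
  · rintro ⟨C, e, m, hm, he⟩
    have h : m = c • 𝟙 C := HomologicalComplex.hom_ext _ _ fun n => (isMulBy_iff X c _).1 (hm n)
    rw [h, Functor.map_smul, Linear.smul_comp, CategoryTheory.Functor.map_id, Category.id_comp]
      at he
    rw [← cancel_epi e.hom, he, Linear.comp_smul, Category.comp_id]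
  · rintro rfl
    refine ⟨DerivedCategory.Q.objPreimage P, DerivedCategory.Q.objObjPreimageIso P, c • 𝟙 _,
      fun n => (isMulBy_iff X c _).2 rfl, ?_⟩
    rw [Functor.map_smul, Linear.smul_comp, CategoryTheory.Functor.map_id, Category.id_comp,
      Linear.comp_smul, Category.comp_id]

theorem isLinear_iff (X₁ X₂ : SmProj K) (A₁ : Admissible X₁.X) (A₂ : Admissible X₂.X)
    (F : A₁.Cat ⥤ A₂.Cat) : IsLinear X₁ X₂ A₁ A₂ F ↔ IsLin X₁ X₂ A₁ A₂ F := by
  constructor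
  · rintro ⟨ha, h⟩ P Q c φ ψ
    have h1 : F.map (c • 𝟙 P) = c • 𝟙 _ := ObjectProperty.hom_ext _
      ((isScalar_iff X₂ c _).1 (h c P (c • 𝟙 P) ((isScalar_iff X₁ c _).2 rfl)))
    rw [F.map_add, show c • φ = (c • 𝟙 P) ≫ φ by rw [Linear.smul_comp, Category.id_comp],
      F.map_comp, h1, Linear.smul_comp, Category.id_comp]
  · intro h
    have h0 : ∀ P Q : A₁.Cat, F.map (0 : P ⟶ Q) = 0 := fun P Q => by
      have := h P Q 1 0 0
      rw [one_smul, one_smul, add_zero] at this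
      exact left_eq_add.1 this
    refine ⟨⟨fun {P Q φ ψ} => by simpa using h P Q 1 φ ψ⟩, fun c P φ hφ => ?_⟩
    have e : φ = c • 𝟙 P := ObjectProperty.hom_ext _ ((isScalar_iff X₁ c _).1 hφ)
    have := h P P c (𝟙 P) 0
    rw [add_zero, h0, add_zero, CategoryTheory.Functor.map_id] at this
    rw [e, this]
    exact (isScalar_iff X₂ c _).2 rfl

end Pool.Agent.Work.MP_910138_ag.C0
end
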