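import Pool.Agent.Work.MP_910138_ag.C0.SU
import Pool.Agent.Work.MP_910138_ag.C0.LinBridge

-- merged part: Pool.Agent.Work.MP_910138_ag.C0.MB
section
/-! Multiplicative bases and finite directed categories inside a monoid. -/

open CategoryTheory

namespace Pool.Agent.Work.MP_910138_ag.C0

variable {k R S : Type} [Field k] [Ring R] [Algebra k R]

/-- a multiplicative basis of a directed category concentrated in degree zero -/
structure MBasis (𝒞 : GCat k R S) where
  B : S → S → Set R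
  fin : ∀ s t, (B s t).Finite
  indep : ∀ s t, LinearIndepOn k id (B s t)
  span : ∀ s t, Submodule.span k (B s t) = 𝒞.sub s t 0
  deg0 : ∀ s t n, n ≠ 0 → 𝒞.sub s t n = ⊥
  one_mem : ∀ s, (1 : R) ∈ B s s
  mul_mem : ∀ {s t u : S} {a b : R}, a ∈ B s t → b ∈ B t u → a * b ∈ B s u ∨ a * b = 0
  rk : S → ℕ
  rk_inj : Function.Injective rk
  lt : ∀ {s t : S} {a : R}, a ∈ B s t → rk s < rk t ∨ (s = t ∧ a = 1)

variable {𝒞 : GCat k R S} (β : MBasis 𝒞)

theorem MBasis.mem {s t : S} {a : R} (h : a ∈ β.B s t) : a ∈ 𝒞.sub s t 0 :=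
  β.span s t ▸ Submodule.subset_span h

theorem MBasis.ne_zero {s t : S} {a : R} (h : a ∈ β.B s t) : a ≠ 0 :=
  (β.indep s t).ne_zero h

theorem MBasis.exists_lin (s t : S) {V : Type*} [AddCommGroup V] [Module k V] (φ : R → V) :
    ∃ L : R →ₗ[k] V, ∀ b ∈ β.B s t, L b = φ b := by
  obtain ⟨L, hL⟩ := LinearMap.exists_extend
    ((Module.Basis.span (β.indep s t)).constr k fun b => φ b.1)
  refine ⟨L, fun b hb => ?_⟩
  have h := LinearMap.congr_fun hL (Module.Basis.span (β.indep s t) ⟨b, hb⟩)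
  rw [Module.Basis.constr_basis, LinearMap.comp_apply, Submodule.subtype_apply,
    Module.Basis.span_apply] at h
  exact h

theorem MBasis.ind {s t : S} {n : ℤ} {P : R → Prop} (h0 : P 0)
    (hadd : ∀ a b, P a → P b → P (a + b)) (hsmul : ∀ (c : k) a, P a → P (c • a))
    (hB : n = 0 → ∀ b ∈ β.B s t, P b) {a : R} (ha : a ∈ 𝒞.sub s t n) : P a := by
  by_cases hn : n = 0
  · subst hn
    rw [← β.span] at ha
    induction ha using Submodule.span_induction with
    | mem b hb => exact hB rfl b hb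
    | zero => exact h0
    | add a b _ _ ha hb => exact hadd a b ha hb
    | smul c a _ ha => exact hsmul c a ha
  · rw [β.deg0 s t n hn, Submodule.mem_bot] at ha
    exact ha ▸ h0

/-- products of basis elements are basis elements -/
def MBasis.Closed : Prop := ∀ (s t u : S) (a b : R), a ∈ β.B s t → b ∈ β.B t u → a * b ∈ β.B s u

/-- a finite directed category whose morphisms are elements of a monoid -/
structure MCat (M S : Type) [Monoid M] [LinearOrder S] where
  H : S → S → Set M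
  fin : ∀ s t, (H s t).Finite
  one_mem : ∀ s, (1 : M) ∈ H s s
  mul_mem : ∀ {s t u : S} {a b : M}, a ∈ H s t → b ∈ H t u → a * b ∈ H s u
  lt : ∀ {s t : S} {a : M}, a ∈ H s t → s < t ∨ (s = t ∧ a = 1)

/-- its linearisation -/
def mcat (k : Type) [Field k] {M S : Type} [Monoid M] [LinearOrder S] (C : MCat M S) :
    GCat k (MonoidAlgebra k M) S where
  sub s t n :=
    { carrier := {a | ∀ m, a.coeff m ≠ 0 → n = 0 ∧ m ∈ C.H s t}
      zero_mem' := fun _ h => absurd rfl h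
      add_mem' := fun {a b} ha hb m h => by
        by_cases h' : a.coeff m = 0
        · refine hb m fun h'' => h ?_
          rw [MonoidAlgebra.coeff_add, Finsupp.add_apply, h', h'', add_zero]
        · exact ha m h'
      smul_mem' := fun c a ha m h => ha m fun h' => h (by
        rw [MonoidAlgebra.coeff_smul_apply, h', smul_zero]) }
  one_mem s m h := by
    classical
    have := Finset.mem_one.1
      (MonoidAlgebra.support_coeff_one_subset (Finsupp.mem_support_iff.2 h))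
    exact ⟨rfl, this ▸ C.one_mem s⟩
  mul_mem {s t u n m l a b} ha hb h x hx := by
    classical
    obtain ⟨y, hy, z, hz, rfl⟩ := Finset.mem_mul.1
      (MonoidAlgebra.support_coeff_mul_subset a b (Finsupp.mem_support_iff.2 hx))
    obtain ⟨h1, h2⟩ := ha y (Finsupp.mem_support_iff.1 hy)
    obtain ⟨h3, h4⟩ := hb z (Finsupp.mem_support_iff.1 hz)
    exact ⟨by omega, C.mul_mem h2 h4⟩
  pos s t n hn := eq_bot_iff.2 fun a ha => by
    rw [Submodule.mem_bot]
    ext m
    by_contra h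
    have := (ha m h).1
    omega

theorem mem_mcat {M S : Type} [Monoid M] [LinearOrder S] {C : MCat M S} {s t : S} {n : ℤ}
    {a : MonoidAlgebra k M} :
    a ∈ (mcat k C).sub s t n ↔ ∀ m, a.coeff m ≠ 0 → n = 0 ∧ m ∈ C.H s t := Iff.rfl

end Pool.Agent.Work.MP_910138_ag.C0
end

-- merged part: Pool.Agent.Work.MP_910138_ag.C0.Cats
section
/-! The three graded categories inside the square zero extension. -/

open CategoryTheory TrivSqZeroExt MulOpposite

namespace Pool.Agent.Work.MP_910138_ag.C0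

variable {k : Type} [Field k]

/-- elements with prescribed components -/
def pairSub (P : Submodule k (AF k)) (N : Submodule k (AD k)) : Submodule k (RR k) where
  carrier := {r | r.fst ∈ P ∧ r.snd ∈ N}
  zero_mem' := ⟨zero_mem _, zero_mem _⟩
  add_mem' ha hb := ⟨add_mem ha.1 hb.1, add_mem ha.2 hb.2⟩
  smul_mem' c _ ha := ⟨P.smul_mem c ha.1, N.smul_mem c ha.2⟩

theorem mem_pairSub {P : Submodule k (AF k)} {N : Submodule k (AD k)} {r : RR k} :
    r ∈ pairSub P N ↔ r.fst ∈ P ∧ r.snd ∈ N := Iff.rfl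

theorem pairSub_bot : pairSub (⊥ : Submodule k (AF k)) ⊥ = ⊥ :=
  eq_bot_iff.2 fun _ h => TrivSqZeroExt.ext h.1 h.2

theorem pairSub_mul {P P' P'' : Submodule k (AF k)} {N N' N'' : Submodule k (AD k)} {a b : RR k}
    (ha : a ∈ pairSub P N) (hb : b ∈ pairSub P' N') (h1 : ∀ x ∈ P, ∀ y ∈ P', x * y ∈ P'')
    (h2 : ∀ x ∈ P, ∀ y ∈ N', x • y ∈ N'') (h3 : ∀ x ∈ N, ∀ y ∈ P', op y • x ∈ N'') :
    a * b ∈ pairSub P'' N'' :=
  ⟨h1 _ ha.1 _ hb.1, add_mem (h2 _ ha.1 _ hb.2) (h3 _ ha.2 _ hb.1)⟩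

variable (k)

/-- the free part of the morphisms of `𝒜` (`false` is the top level, `true` the bottom level) -/
noncomputable def aFst (s t : Bool × Lb) (n : ℤ) : Submodule k (AF k) :=
  if n = 0 ∧ s.1 ≤ t.1 then AS k s.2 t.2 else ⊥

/-- the dual part of the morphisms of `𝒜` -/
noncomputable def aSnd (s t : Bool × Lb) (n : ℤ) : Submodule k (AD k) :=
  if n = -2 ∧ s.1 = false ∧ t.1 = true then Psi k s.2 t.2 else ⊥

variable {k}

theorem mem_aFst {s t : Bool × Lb} {n : ℤ} {a : AF k} :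
    a ∈ aFst k s t n ↔ a ∈ AS k s.2 t.2 ∧ (a ≠ 0 → n = 0 ∧ s.1 ≤ t.1) := by
  unfold aFst
  split_ifs with h
  · exact ⟨fun h' => ⟨h', fun _ => h⟩, fun h' => h'.1⟩
  · rw [Submodule.mem_bot]
    exact ⟨fun h' => ⟨h' ▸ zero_mem _, fun h'' => absurd h' h''⟩,
      fun h' => by_contra fun h'' => h (h'.2 h'')⟩

theorem mem_aSnd {s t : Bool × Lb} {n : ℤ} {a : AD k} :
    a ∈ aSnd k s t n ↔ a ∈ Psi k s.2 t.2 ∧ (a ≠ 0 → n = -2 ∧ s.1 = false ∧ t.1 = true) := by
  unfold aSnd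
  split_ifs with h
  · exact ⟨fun h' => ⟨h', fun _ => h⟩, fun h' => h'.1⟩
  · rw [Submodule.mem_bot]
    exact ⟨fun h' => ⟨h' ▸ zero_mem _, fun h'' => absurd h' h''⟩,
      fun h' => by_contra fun h'' => h (h'.2 h'')⟩

theorem one_mem_AS (s : Lb) : (1 : AF k) ∈ AS k s s := by
  rw [AS, sub_self, sub_self]
  exact one_mem_Asub

theorem aFst_mul {s t u : Bool × Lb} {n m l : ℤ} (h : n + m = l) :
    ∀ x ∈ aFst k s t n, ∀ y ∈ aFst k t u m, x * y ∈ aFst k s u l := fun x hx y hy => by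
  rw [mem_aFst] at hx hy ⊢
  refine ⟨AS_mul hx.1 hy.1, fun hne => ?_⟩
  obtain ⟨h1, h2⟩ := hx.2 (left_ne_zero_of_mul hne)
  obtain ⟨h3, h4⟩ := hy.2 (right_ne_zero_of_mul hne)
  exact ⟨by omega, h2.trans h4⟩

theorem aFst_smul {s t u : Bool × Lb} {n m l : ℤ} (h : n + m = l) :
    ∀ x ∈ aFst k s t n, ∀ y ∈ aSnd k t u m, x • y ∈ aSnd k s u l := fun x hx y hy => by
  rw [mem_aFst] at hx
  rw [mem_aSnd] at hy ⊢
  refine ⟨AS_smul_Psi hx.1 hy.1, fun hne => ?_⟩
  obtain ⟨h1, h2⟩ := hx.2 (left_ne_zero_of_smul hne)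
  obtain ⟨h3, h4, h5⟩ := hy.2 (right_ne_zero_of_smul hne)
  exact ⟨by omega, le_antisymm (h4 ▸ h2) (Bool.false_le _), h5⟩

theorem aSnd_smul {s t u : Bool × Lb} {n m l : ℤ} (h : n + m = l) :
    ∀ x ∈ aSnd k s t n, ∀ y ∈ aFst k t u m, op y • x ∈ aSnd k s u l := fun x hx y hy => by
  rw [mem_aFst] at hy
  rw [mem_aSnd] at hx ⊢
  refine ⟨Psi_smul_AS hx.1 hy.1, fun hne => ?_⟩
  obtain ⟨h1, h2⟩ := hy.2 fun h0 => left_ne_zero_of_smul hne (by rw [h0, op_zero])
  obtain ⟨h3, h4, h5⟩ := hx.2 (right_ne_zero_of_smul hne)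
  exact ⟨by omega, h4, le_antisymm (Bool.le_true _) (h5 ▸ h2)⟩

variable (k)

/-- the graded category `𝒜` -/
noncomputable def catA : GCat k (RR k) (Bool × Lb) where
  sub s t n := pairSub (aFst k s t n) (aSnd k s t n)
  one_mem s := ⟨mem_aFst.2 ⟨one_mem_AS _, fun _ => ⟨rfl, le_rfl⟩⟩, zero_mem _⟩
  mul_mem ha hb h := pairSub_mul ha hb (aFst_mul h) (aFst_smul h) (aSnd_smul h)
  pos s t n hn := by
    rw [aFst, aSnd, if_neg (by omega), if_neg (by omega), pairSub_bot]

/-- its degree zero part -/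
noncomputable def catA0 : GCat k (RR k) (Bool × Lb) where
  sub s t n := pairSub (aFst k s t n) ⊥
  one_mem s := ⟨mem_aFst.2 ⟨one_mem_AS _, fun _ => ⟨rfl, le_rfl⟩⟩, zero_mem _⟩
  mul_mem ha hb h := pairSub_mul ha hb (aFst_mul h)
    (fun x _ y hy => by rw [(Submodule.mem_bot k).1 hy, smul_zero]; exact zero_mem _)
    (fun x hx y _ => by rw [(Submodule.mem_bot k).1 hx, smul_zero]; exact zero_mem _)
  pos s t n hn := by
    rw [aFst, if_neg (by omega), pairSub_bot]

theorem catA0_le : (catA0 k).Le (catA k) := fun _ _ _ _ h => ⟨h.1, h.2 ▸ zero_mem _⟩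

/-- the free part of the morphisms of `Λ` (levels `l = 0`, `p = 1`, `u = 2`) -/
noncomputable def lFst (s t : Fin 3 × Lb) (n : ℤ) : Submodule k (AF k) :=
  if n = 0 ∧ (s.1 = t.1 ∨ (s.1 = 0 ∧ t.1 = 2)) then AS k s.2 t.2 else ⊥

/-- the dual part of the morphisms of `Λ` -/
noncomputable def lSnd (s t : Fin 3 × Lb) (n : ℤ) : Submodule k (AD k) :=
  if n = 0 ∧ ((s.1 = 0 ∧ t.1 = 1) ∨ (s.1 = 1 ∧ t.1 = 2)) then DA k s.2 t.2 else ⊥

variable {k}

theorem mem_lFst {s t : Fin 3 × Lb} {n : ℤ} {a : AF k} :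
    a ∈ lFst k s t n ↔
      a ∈ AS k s.2 t.2 ∧ (a ≠ 0 → n = 0 ∧ (s.1 = t.1 ∨ (s.1 = 0 ∧ t.1 = 2))) := by
  unfold lFst
  split_ifs with h
  · exact ⟨fun h' => ⟨h', fun _ => h⟩, fun h' => h'.1⟩
  · rw [Submodule.mem_bot]
    exact ⟨fun h' => ⟨h' ▸ zero_mem _, fun h'' => absurd h' h''⟩,
      fun h' => by_contra fun h'' => h (h'.2 h'')⟩

theorem mem_lSnd {s t : Fin 3 × Lb} {n : ℤ} {a : AD k} :
    a ∈ lSnd k s t n ↔
      a ∈ DA k s.2 t.2 ∧ (a ≠ 0 → n = 0 ∧ ((s.1 = 0 ∧ t.1 = 1) ∨ (s.1 = 1 ∧ t.1 = 2))) := by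
  unfold lSnd
  split_ifs with h
  · exact ⟨fun h' => ⟨h', fun _ => h⟩, fun h' => h'.1⟩
  · rw [Submodule.mem_bot]
    exact ⟨fun h' => ⟨h' ▸ zero_mem _, fun h'' => absurd h' h''⟩,
      fun h' => by_contra fun h'' => h (h'.2 h'')⟩

theorem catL_mul {s t u : Fin 3 × Lb} {n m l : ℤ} {a b : RR k}
    (ha : a ∈ pairSub (lFst k s t n) (lSnd k s t n))
    (hb : b ∈ pairSub (lFst k t u m) (lSnd k t u m)) (h : n + m = l) :
    a * b ∈ pairSub (lFst k s u l) (lSnd k s u l) := by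
  obtain ⟨a1, a2⟩ := ha
  obtain ⟨b1, b2⟩ := hb
  rw [mem_lFst] at a1 b1
  rw [mem_lSnd] at a2 b2
  refine ⟨mem_lFst.2 ⟨AS_mul a1.1 b1.1, fun hne => ?_⟩, mem_lSnd.2 ⟨add_mem
    (AS_smul_DA a1.1 b2.1) (DA_smul_AS a2.1 b1.1), fun hne => ?_⟩⟩
  · obtain ⟨h1, h2⟩ := a1.2 (left_ne_zero_of_mul hne)
    obtain ⟨h3, h4⟩ := b1.2 (right_ne_zero_of_mul hne)
    exact ⟨by omega, by omega⟩
  · by_cases h0 : a.fst • b.snd = 0
    · have hne' : op b.fst • a.snd ≠ 0 := fun h' => hne (by rw [snd_mul, h0, h', add_zero])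
      obtain ⟨h1, h2⟩ := b1.2 fun h0 => left_ne_zero_of_smul hne' (by rw [h0, op_zero])
      obtain ⟨h3, h4⟩ := a2.2 (right_ne_zero_of_smul hne')
      exact ⟨by omega, by omega⟩
    · obtain ⟨h1, h2⟩ := a1.2 (left_ne_zero_of_smul h0)
      obtain ⟨h3, h4⟩ := b2.2 (right_ne_zero_of_smul h0)
      exact ⟨by omega, by omega⟩

variable (k)

/-- the category `Λ` -/
noncomputable def catL : GCat k (RR k) (Fin 3 × Lb) where
  sub s t n := pairSub (lFst k s t n) (lSnd k s t n)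
  one_mem s := ⟨mem_lFst.2 ⟨one_mem_AS _, fun _ => ⟨rfl, Or.inl rfl⟩⟩, zero_mem _⟩
  mul_mem := catL_mul
  pos s t n hn := by
    rw [lFst, lSnd, if_neg (by omega), if_neg (by omega), pairSub_bot]

variable {k}

theorem mem_catA {s t : Bool × Lb} {n : ℤ} {r : RR k} :
    r ∈ (catA k).sub s t n ↔ r.fst ∈ aFst k s t n ∧ r.snd ∈ aSnd k s t n := Iff.rfl

theorem mem_catA0 {s t : Bool × Lb} {n : ℤ} {r : RR k} :
    r ∈ (catA0 k).sub s t n ↔ r.fst ∈ aFst k s t n ∧ r.snd = 0 := Iff.rfl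

theorem mem_catL {s t : Fin 3 × Lb} {n : ℤ} {r : RR k} :
    r ∈ (catL k).sub s t n ↔ r.fst ∈ lFst k s t n ∧ r.snd ∈ lSnd k s t n := Iff.rfl

end Pool.Agent.Work.MP_910138_ag.C0
end

-- merged part: Pool.Agent.Work.MP_910138_ag.C0.SDef
section
/-! The three derivations and the twisting terms. -/

open CategoryTheory TrivSqZeroExt MulOpposite

namespace Pool.Agent.Work.MP_910138_ag.C0

variable {k : Type} [Field k] (ξ : Derivation ℤ k k)

section
variable {G G' G'' : Type}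

/-- the free part of a matrix -/
def fstM (M : Matrix G G' (RR k)) : Matrix G G' (AF k) := M.map TrivSqZeroExt.fst

/-- multiplication by the central element -/
noncomputable def cor (N : Matrix G G' (AF k)) : Matrix G G' (RR k) :=
  N.map fun a => inr (a • tau k)

/-- the first derivation -/
noncomputable def EM (N : Matrix G G' (AF k)) : Matrix G G' (AF k) := N.map (eul k)

/-- the second derivation -/
noncomputable def XM (N : Matrix G G' (AF k)) : Matrix G G' (AF k) := N.map (xiA ξ)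

end

/-- the level of an object -/
def lvl (s : Bool × Lb) : ℤ := if s.1 = true then 1 else 0

/-- the third derivation -/
noncomputable def dlt (X Y : Gn (Bool × Lb)) (N : Matrix X.G Y.G (AF k)) :
    Matrix X.G Y.G (AF k) := fun x y => (lvl (Y.lab y) - lvl (X.lab x)) • N x y

/-- free matrices of degree `n` -/
def SA (X Y : Gn (Bool × Lb)) (n : ℤ) (N : Matrix X.G Y.G (AF k)) : Prop :=
  ∀ x y, N x y ∈ aFst k (X.lab x) (Y.lab y) (n + X.deg x - Y.deg y)

/-- matrices from the top level to the bottom level -/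
def STB (X Y : Gn (Bool × Lb)) (N : Matrix X.G Y.G (AF k)) : Prop :=
  ∀ x y, N x y ≠ 0 → (X.lab x).1 = false ∧ (Y.lab y).1 = true

/-- the twisting term of a differential -/
noncomputable def th1 (X : Gn (Bool × Lb)) (D : Matrix X.G X.G (AF k)) : Matrix X.G X.G (AF k) :=
  EM D * XM ξ D * dlt X X D

/-- the twisting term of a map; `ε = -1` for closed maps, `ε = 1` for homotopies -/
noncomputable def th2 (ε : ℤ) (X Y : Gn (Bool × Lb)) (D : Matrix X.G X.G (AF k))
    (f : Matrix X.G Y.G (AF k)) (D' : Matrix Y.G Y.G (AF k)) : Matrix X.G Y.G (AF k) :=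
  EM D * XM ξ D * dlt X Y f + ε • (EM D * XM ξ f * dlt Y Y D') + EM f * XM ξ D' * dlt Y Y D'

/-- the defect of multiplicativity -/
noncomputable def th3 (X Y Z : Gn (Bool × Lb)) (D : Matrix X.G X.G (AF k))
    (f : Matrix X.G Y.G (AF k)) (D' : Matrix Y.G Y.G (AF k)) (g : Matrix Y.G Z.G (AF k))
    (D'' : Matrix Z.G Z.G (AF k)) : Matrix X.G Z.G (AF k) :=
  EM D * XM ξ f * dlt Y Z g - EM f * XM ξ D' * dlt Y Z g + EM f * XM ξ g * dlt Z Z D''

end Pool.Agent.Work.MP_910138_ag.C0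
end

-- merged part: Pool.Agent.Work.MP_910138_ag.C0.SAlg
section
/-! Identities for the twisting terms. -/

open CategoryTheory TrivSqZeroExt MulOpposite

namespace Pool.Agent.Work.MP_910138_ag.C0

variable {k : Type} [Field k] (ξ : Derivation ℤ k k)

section
variable {G G' G'' : Type}

theorem fstM_add (M N : Matrix G G' (RR k)) : fstM (M + N) = fstM M + fstM N := by
  ext x y : 1
  rfl

theorem fstM_sub (M N : Matrix G G' (RR k)) : fstM (M - N) = fstM M - fstM N := by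
  ext x y : 1
  rfl

theorem fstM_neg (M : Matrix G G' (RR k)) : fstM (-M) = -fstM M := by
  ext x y : 1
  rfl

theorem fstM_zero : fstM (0 : Matrix G G' (RR k)) = 0 := by
  ext x y : 1
  rfl

theorem fstM_one [DecidableEq G] : fstM (1 : Matrix G G (RR k)) = 1 := by
  ext x y : 1
  by_cases h : x = y
  · subst h
    simp only [fstM, Matrix.map_apply, Matrix.one_apply_eq, fst_one]
  · simp only [fstM, Matrix.map_apply, Matrix.one_apply_ne h, fst_zero]

theorem fstM_smul (c : k) (M : Matrix G G' (RR k)) : fstM (c • M) = c • fstM M := by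
  ext x y : 1
  rfl

theorem fstM_cor (N : Matrix G G' (AF k)) : fstM (cor N) = 0 := by
  ext x y : 1
  rfl

theorem cor_add (M N : Matrix G G' (AF k)) : cor (M + N) = cor M + cor N := by
  ext x y : 1
  simp only [cor, Matrix.map_apply, Matrix.add_apply, add_smul, inr_add]

theorem cor_sub (M N : Matrix G G' (AF k)) : cor (M - N) = cor M - cor N := by
  ext x y : 1
  simp only [cor, Matrix.map_apply, Matrix.sub_apply, sub_smul, inr_sub]

theorem cor_neg (M : Matrix G G' (AF k)) : cor (-M) = -cor M := by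
  ext x y : 1
  simp only [cor, Matrix.map_apply, Matrix.neg_apply, neg_smul, inr_neg]

theorem cor_zero : cor (0 : Matrix G G' (AF k)) = 0 := by
  ext x y : 1
  simp only [cor, Matrix.map_apply, Matrix.zero_apply, zero_smul, inr_zero]

theorem cor_smul (c : k) (M : Matrix G G' (AF k)) : cor (c • M) = c • cor M := by
  ext x y : 1
  simp only [cor, Matrix.map_apply, Matrix.smul_apply, smul_assoc, inr_smul]

theorem XM_neg_der (N : Matrix G G' (AF k)) : XM (-ξ) N = -XM ξ N := by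
  ext x y : 1
  simp only [XM, Matrix.map_apply, Matrix.neg_apply, xiA_neg]

theorem salg_EM_add (M N : Matrix G G' (AF k)) : EM (M + N) = EM M + EM N := by
  ext x y : 1
  simp only [EM, Matrix.map_apply, Matrix.add_apply, map_add]

theorem salg_EM_sub (M N : Matrix G G' (AF k)) : EM (M - N) = EM M - EM N := by
  ext x y : 1
  simp only [EM, Matrix.map_apply, Matrix.sub_apply, map_sub]

theorem salg_EM_neg (M : Matrix G G' (AF k)) : EM (-M) = -EM M := by
  ext x y : 1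
  simp only [EM, Matrix.map_apply, Matrix.neg_apply, map_neg]

theorem salg_EM_zero : EM (0 : Matrix G G' (AF k)) = 0 := by
  ext x y : 1
  simp only [EM, Matrix.map_apply, Matrix.zero_apply, map_zero]

theorem salg_XM_add (M N : Matrix G G' (AF k)) : XM ξ (M + N) = XM ξ M + XM ξ N := by
  ext x y : 1
  simp only [XM, Matrix.map_apply, Matrix.add_apply, map_add]

theorem salg_XM_sub (M N : Matrix G G' (AF k)) : XM ξ (M - N) = XM ξ M - XM ξ N := by
  ext x y : 1
  simp only [XM, Matrix.map_apply, Matrix.sub_apply, map_sub]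

theorem salg_XM_neg (M : Matrix G G' (AF k)) : XM ξ (-M) = -XM ξ M := by
  ext x y : 1
  simp only [XM, Matrix.map_apply, Matrix.neg_apply, map_neg]

theorem salg_XM_zero : XM ξ (0 : Matrix G G' (AF k)) = 0 := by
  ext x y : 1
  simp only [XM, Matrix.map_apply, Matrix.zero_apply, map_zero]

theorem salg_mul_inr (r : RR k) (a : AF k) :
    r * inr (a • tau k) = inr ((r.fst * a) • tau k) := by
  refine TrivSqZeroExt.ext ?_ ?_
  · simp only [fst_mul, fst_inr, mul_zero]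
  · simp only [snd_mul, fst_inr, snd_inr, op_zero, zero_smul, add_zero, mul_smul]

theorem salg_inr_mul (a : AF k) (r : RR k) :
    inr (a • tau k) * r = inr ((a * r.fst) • tau k) := by
  refine TrivSqZeroExt.ext ?_ ?_
  · simp only [fst_mul, fst_inr, zero_mul]
  · simp only [snd_mul, fst_inr, snd_inr, zero_smul, zero_add, mul_smul]
    rw [← smul_comm a, tau_central]

variable [Fintype G']

theorem fstM_mul (M : Matrix G G' (RR k)) (N : Matrix G' G'' (RR k)) :
    fstM (M * N) = fstM M * fstM N := by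
  ext x y : 1
  simp only [fstM, Matrix.map_apply, Matrix.mul_apply, fst_sum, fst_mul]

theorem mul_cor (M : Matrix G G' (RR k)) (N : Matrix G' G'' (AF k)) :
    M * cor N = cor (fstM M * N) := by
  ext x y : 1
  simp only [cor, fstM, Matrix.map_apply, Matrix.mul_apply, salg_mul_inr, Finset.sum_smul, inr_sum]

theorem cor_mul (N : Matrix G G' (AF k)) (M : Matrix G' G'' (RR k)) :
    cor N * M = cor (N * fstM M) := by
  ext x y : 1
  simp only [cor, fstM, Matrix.map_apply, Matrix.mul_apply, salg_inr_mul, Finset.sum_smul, inr_sum]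

theorem EM_mul (M : Matrix G G' (AF k)) (N : Matrix G' G'' (AF k)) :
    EM (M * N) = EM M * N + M * EM N := by
  ext x y : 1
  simp only [EM, Matrix.map_apply, Matrix.mul_apply, Matrix.add_apply, map_sum, eul_mul,
    Finset.sum_add_distrib]

theorem XM_mul (M : Matrix G G' (AF k)) (N : Matrix G' G'' (AF k)) :
    XM ξ (M * N) = XM ξ M * N + M * XM ξ N := by
  ext x y : 1
  simp only [XM, Matrix.map_apply, Matrix.mul_apply, Matrix.add_apply, map_sum, xiA_mul,
    Finset.sum_add_distrib]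

end

section
variable {R : Type} [Ring R] {A B C : Type} [Fintype A] [Fintype B] [Fintype C]

theorem salg_anti {D a : Matrix A A R} (h : a * D + D * a = 0) (W : Type) (M : Matrix A W R) :
    D * (a * M) = -(a * (D * M)) := by
  rw [← Matrix.mul_assoc, ← Matrix.mul_assoc, ← Matrix.neg_mul, eq_neg_of_add_eq_zero_right h]

theorem salg_move {D a : Matrix A A R} {D' b : Matrix B B R} {f f' : Matrix A B R}
    (h : f' * D' + f * b = a * f + D * f') : D * f' = f' * D' + f * b - a * f := by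
  rw [h]
  abel

theorem salg_move' {D a : Matrix A A R} {D' b : Matrix B B R} {f f' : Matrix A B R}
    (h : f' * D' + f * b = a * f + D * f') (W : Type) (M : Matrix B W R) :
    D * (f' * M) = f' * (D' * M) + f * (b * M) - a * (f * M) := by
  rw [← Matrix.mul_assoc, salg_move h]
  simp only [Matrix.sub_mul, Matrix.add_mul, Matrix.mul_assoc]

theorem salg_pass {D : Matrix A A R} {D' : Matrix B B R} {f : Matrix A B R}
    (h : f * D' = D * f) (W : Type) (M : Matrix B W R) : D * (f * M) = f * (D' * M) := by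
  rw [← Matrix.mul_assoc, ← h, Matrix.mul_assoc]

variable {D a1 a2 a3 : Matrix A A R} {D' b1 b2 b3 : Matrix B B R} {D'' c1 c2 c3 : Matrix C C R}
  {f f1 f2 f3 : Matrix A B R} {g g1 g2 g3 : Matrix B C R}

theorem salg_sq (h1 : a1 * D + D * a1 = 0) (h2 : a2 * D + D * a2 = 0) (h3 : a3 * D + D * a3 = 0) :
    D * (a1 * a2 * a3) + a1 * a2 * a3 * D = 0 := by
  simp only [Matrix.mul_assoc, salg_anti h1, salg_anti h2, eq_neg_of_add_eq_zero_right h3,
    Matrix.mul_neg]
  abel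

theorem salg_cl (h1 : a1 * D + D * a1 = 0) (h2 : a2 * D + D * a2 = 0)
    (k2 : b2 * D' + D' * b2 = 0) (k3 : b3 * D' + D' * b3 = 0)
    (e1 : f1 * D' + f * b1 = a1 * f + D * f1) (e2 : f2 * D' + f * b2 = a2 * f + D * f2)
    (e3 : f3 * D' + f * b3 = a3 * f + D * f3) :
    f * (b1 * b2 * b3) + (a1 * a2 * f3 + (-1 : ℤ) • (a1 * f2 * b3) + f1 * b2 * b3) * D' =
      D * (a1 * a2 * f3 + (-1 : ℤ) • (a1 * f2 * b3) + f1 * b2 * b3) + a1 * a2 * a3 * f := by
  simp only [neg_smul, one_smul, Matrix.add_mul, Matrix.mul_add, Matrix.neg_mul, Matrix.mul_neg,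
    Matrix.mul_sub, Matrix.mul_assoc, salg_anti h1, salg_anti h2, salg_anti k2,
    eq_neg_of_add_eq_zero_right k3, salg_move' e1, salg_move' e2, salg_move e3]
  abel

theorem salg_htp (h1 : a1 * D + D * a1 = 0) (h2 : a2 * D + D * a2 = 0)
    (k2 : b2 * D' + D' * b2 = 0) (k3 : b3 * D' + D' * b3 = 0) :
    a1 * a2 * (f3 * D' + f * b3 + (a3 * f + D * f3)) +
        (-1 : ℤ) • (a1 * (f2 * D' + f * b2 + (a2 * f + D * f2)) * b3) +
        (f1 * D' + f * b1 + (a1 * f + D * f1)) * b2 * b3 =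
      f * (b1 * b2 * b3) + (a1 * a2 * f3 + (1 : ℤ) • (a1 * f2 * b3) + f1 * b2 * b3) * D' +
        (D * (a1 * a2 * f3 + (1 : ℤ) • (a1 * f2 * b3) + f1 * b2 * b3) + a1 * a2 * a3 * f) := by
  simp only [neg_smul, one_smul, Matrix.add_mul, Matrix.mul_add, Matrix.mul_neg,
    Matrix.mul_assoc, salg_anti h1, salg_anti h2, salg_anti k2, eq_neg_of_add_eq_zero_right k3]
  abel

theorem salg_mul (h1 : a1 * D + D * a1 = 0) (k2 : b2 * D' + D' * b2 = 0)
    (l3 : c3 * D'' + D'' * c3 = 0)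
    (e1 : f1 * D' + f * b1 = a1 * f + D * f1) (e2 : f2 * D' + f * b2 = a2 * f + D * f2)
    (g2' : g2 * D'' + g * c2 = b2 * g + D' * g2) (g3' : g3 * D'' + g * c3 = b3 * g + D' * g3) :
    a1 * a2 * (f3 * g + f * g3) + (-1 : ℤ) • (a1 * (f2 * g + f * g2) * c3) +
        (f1 * g + f * g1) * c2 * c3 =
      f * (b1 * b2 * g3 + (-1 : ℤ) • (b1 * g2 * c3) + g1 * c2 * c3) +
        (a1 * a2 * f3 + (-1 : ℤ) • (a1 * f2 * b3) + f1 * b2 * b3) * g +
        ((a1 * f2 * g3 - f1 * b2 * g3 + f1 * g2 * c3) * D'' +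
          D * (a1 * f2 * g3 - f1 * b2 * g3 + f1 * g2 * c3)) := by
  simp only [neg_smul, one_smul, Matrix.add_mul, Matrix.mul_add, Matrix.neg_mul, Matrix.mul_neg,
    Matrix.mul_sub, Matrix.sub_mul, Matrix.mul_assoc, salg_anti h1, salg_anti k2,
    eq_neg_of_add_eq_zero_right l3, salg_move' e1, salg_move' e2, salg_move' g2', salg_move g3']
  abel

end

variable {X Y Z : Gn (Bool × Lb)} {n m l : ℤ}

theorem dlt_mul (M : Matrix X.G Y.G (AF k)) (N : Matrix Y.G Z.G (AF k)) :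
    dlt X Z (M * N) = dlt X Y M * N + M * dlt Y Z N := by
  ext x z : 1
  simp only [dlt, Matrix.mul_apply, Matrix.add_apply, Finset.smul_sum, ← Finset.sum_add_distrib,
    smul_mul_assoc, mul_smul_comm, ← add_smul]
  refine Finset.sum_congr rfl fun y _ => ?_
  congr 1
  ring

theorem salg_dlt_add (M N : Matrix X.G Y.G (AF k)) : dlt X Y (M + N) = dlt X Y M + dlt X Y N := by
  ext x y : 1
  simp only [dlt, Matrix.add_apply, smul_add]

theorem salg_dlt_sub (M N : Matrix X.G Y.G (AF k)) : dlt X Y (M - N) = dlt X Y M - dlt X Y N := by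
  ext x y : 1
  simp only [dlt, Matrix.sub_apply, smul_sub]

theorem salg_dlt_neg (M : Matrix X.G Y.G (AF k)) : dlt X Y (-M) = -dlt X Y M := by
  ext x y : 1
  simp only [dlt, Matrix.neg_apply, smul_neg]

theorem salg_dlt_zero : dlt X Y (0 : Matrix X.G Y.G (AF k)) = 0 := by
  ext x y : 1
  simp only [dlt, Matrix.zero_apply, smul_zero]

theorem salg_SA_EM {N : Matrix X.G Y.G (AF k)} (h : SA X Y n N) : SA X Y n (EM N) := fun x y =>
  mem_aFst.2 ⟨eul_mem (mem_aFst.1 (h x y)).1, fun hne => (mem_aFst.1 (h x y)).2 fun h0 =>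
    hne (by rw [EM, Matrix.map_apply, h0, map_zero])⟩

theorem salg_SA_XM {N : Matrix X.G Y.G (AF k)} (h : SA X Y n N) : SA X Y n (XM ξ N) := fun x y =>
  mem_aFst.2 ⟨xiA_mem ξ (mem_aFst.1 (h x y)).1, fun hne => (mem_aFst.1 (h x y)).2 fun h0 =>
    hne (by rw [XM, Matrix.map_apply, h0, map_zero])⟩

theorem salg_SA_dlt {N : Matrix X.G Y.G (AF k)} (h : SA X Y n N) : SA X Y n (dlt X Y N) :=
  fun x y => zsmul_mem (h x y) _

theorem salg_SA_mul {M : Matrix X.G Y.G (AF k)} {N : Matrix Y.G Z.G (AF k)} (h : SA X Y n M)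
    (h' : SA Y Z m N) (e : n + m = l) : SA X Z l (M * N) := fun x z => by
  rw [Matrix.mul_apply]
  exact sum_mem fun y _ => aFst_mul (by omega) _ (h x y) _ (h' y z)

theorem salg_SA_add {M N : Matrix X.G Y.G (AF k)} (h : SA X Y n M) (h' : SA X Y n N) :
    SA X Y n (M + N) := fun x y => add_mem (h x y) (h' x y)

theorem salg_SA_sub {M N : Matrix X.G Y.G (AF k)} (h : SA X Y n M) (h' : SA X Y n N) :
    SA X Y n (M - N) := fun x y => sub_mem (h x y) (h' x y)

theorem salg_SA_zsmul {M : Matrix X.G Y.G (AF k)} (c : ℤ) (h : SA X Y n M) :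
    SA X Y n (c • M) := fun x y => zsmul_mem (h x y) c

theorem salg_STB_dlt {N : Matrix X.G Y.G (AF k)} (h : SA X Y n N) : STB X Y (dlt X Y N) := by
  intro x y hne
  have h1 := ((mem_aFst.1 (h x y)).2 (right_ne_zero_of_smul hne)).2
  have h2 : lvl (Y.lab y) - lvl (X.lab x) ≠ 0 := left_ne_zero_of_smul hne
  revert h1 h2
  unfold lvl
  cases (X.lab x).1 <;> cases (Y.lab y).1 <;> simp

theorem salg_STB_mul {M : Matrix X.G Y.G (AF k)} {N : Matrix Y.G Z.G (AF k)} (h : SA X Y n M)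
    (h' : STB Y Z N) : STB X Z (M * N) := by
  intro x z hne
  rw [Matrix.mul_apply] at hne
  obtain ⟨y, -, hy⟩ := Finset.exists_ne_zero_of_sum_ne_zero hne
  obtain ⟨h1, h2⟩ := h' y z (right_ne_zero_of_mul hy)
  have h3 := ((mem_aFst.1 (h x y)).2 (left_ne_zero_of_mul hy)).2
  exact ⟨le_antisymm (h1 ▸ h3) (Bool.false_le _), h2⟩

theorem salg_STB_add {M N : Matrix X.G Y.G (AF k)} (h : STB X Y M) (h' : STB X Y N) :
    STB X Y (M + N) := by
  intro x y hne
  by_cases h0 : M x y = 0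
  · exact h' x y fun h1 => hne (by rw [Matrix.add_apply, h0, h1, add_zero])
  · exact h x y h0

theorem salg_STB_sub {M N : Matrix X.G Y.G (AF k)} (h : STB X Y M) (h' : STB X Y N) :
    STB X Y (M - N) := by
  intro x y hne
  by_cases h0 : M x y = 0
  · exact h' x y fun h1 => hne (by rw [Matrix.sub_apply, h0, h1, sub_zero])
  · exact h x y h0

theorem salg_STB_zsmul {M : Matrix X.G Y.G (AF k)} (c : ℤ) (h : STB X Y M) : STB X Y (c • M) :=
  fun x y hne => h x y (right_ne_zero_of_smul (a := c) hne)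

theorem SP.fstM {M : Matrix X.G Y.G (RR k)} (h : SP (catA k) X Y n M) : SA X Y n (fstM M) :=
  fun x y => (h x y).1

theorem SA.cor {N : Matrix X.G Y.G (AF k)} (h : SA X Y n N) (h' : STB X Y N) (e : n - 2 = m) :
    SP (catA k) X Y m (cor N) := by
  intro x y
  refine mem_catA.2 ⟨zero_mem _, mem_aSnd.2 ⟨AS_smul_Psi (mem_aFst.1 (h x y)).1 (tau_mem _),
    fun hne => ?_⟩⟩
  have h0 : N x y ≠ 0 := left_ne_zero_of_smul hne
  have h1 := ((mem_aFst.1 (h x y)).2 h0).1
  exact ⟨by omega, h' x y h0⟩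

variable {D : Matrix X.G X.G (AF k)} {D' : Matrix Y.G Y.G (AF k)} {D'' : Matrix Z.G Z.G (AF k)}
  {f h : Matrix X.G Y.G (AF k)} {g : Matrix Y.G Z.G (AF k)}

theorem salg_SA3 {W : Gn (Bool × Lb)} {p q r : ℤ} {M : Matrix X.G Y.G (AF k)}
    {N : Matrix Y.G Z.G (AF k)} {P : Matrix Z.G W.G (AF k)} (hM : SA X Y p M) (hN : SA Y Z q N)
    (hP : SA Z W r P) (e : p + q + r = n) : SA X W n (EM M * XM ξ N * dlt Z W P) :=
  salg_SA_mul (salg_SA_mul (salg_SA_EM hM) (salg_SA_XM ξ hN) rfl) (salg_SA_dlt hP) e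

theorem salg_STB3 {W : Gn (Bool × Lb)} {p q r : ℤ} {M : Matrix X.G Y.G (AF k)}
    {N : Matrix Y.G Z.G (AF k)} {P : Matrix Z.G W.G (AF k)} (hM : SA X Y p M) (hN : SA Y Z q N)
    (hP : SA Z W r P) : STB X W (EM M * XM ξ N * dlt Z W P) :=
  salg_STB_mul (salg_SA_mul (salg_SA_EM hM) (salg_SA_XM ξ hN) rfl) (salg_STB_dlt hP)

theorem salg_E0 (hD : D * D = 0) : EM D * D + D * EM D = 0 := by
  rw [← EM_mul, hD, salg_EM_zero]

theorem salg_X0 (hD : D * D = 0) : XM ξ D * D + D * XM ξ D = 0 := by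
  rw [← XM_mul, hD, salg_XM_zero]

theorem salg_d0 (hD : D * D = 0) : dlt X X D * D + D * dlt X X D = 0 := by
  rw [← dlt_mul, hD, salg_dlt_zero]

theorem salg_E1 (hf : f * D' = D * f) : EM f * D' + f * EM D' = EM D * f + D * EM f := by
  rw [← EM_mul, hf, EM_mul]

theorem salg_X1 (hf : f * D' = D * f) :
    XM ξ f * D' + f * XM ξ D' = XM ξ D * f + D * XM ξ f := by
  rw [← XM_mul, hf, XM_mul]

theorem salg_d1 (hf : f * D' = D * f) :
    dlt X Y f * D' + f * dlt Y Y D' = dlt X X D * f + D * dlt X Y f := by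
  rw [← dlt_mul, hf, dlt_mul]

theorem sp_th1 (hD : SA X X 1 D) : SP (catA k) X X 1 (cor (th1 ξ X D)) := by
  exact SA.cor (n := 3) (salg_SA3 ξ hD hD hD rfl) (salg_STB3 ξ hD hD hD) rfl

theorem sp_th2 (ε : ℤ) (hD : SA X X 1 D) (hf : SA X Y n f) (hD' : SA Y Y 1 D') :
    SP (catA k) X Y n (cor (th2 ξ ε X Y D f D')) := by
  refine SA.cor (n := n + 2) (salg_SA_add (salg_SA_add (salg_SA3 ξ hD hD hf (by omega))
    (salg_SA_zsmul ε (salg_SA3 ξ hD hf hD' (by omega)))) (salg_SA3 ξ hf hD' hD' (by omega)))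
    (salg_STB_add (salg_STB_add (salg_STB3 ξ hD hD hf)
      (salg_STB_zsmul ε (salg_STB3 ξ hD hf hD'))) (salg_STB3 ξ hf hD' hD')) (by omega)

theorem sp_th3 (hD : SA X X 1 D) (hf : SA X Y 0 f) (hD' : SA Y Y 1 D') (hg : SA Y Z 0 g)
    (hD'' : SA Z Z 1 D'') : SP (catA k) X Z (-1) (cor (th3 ξ X Y Z D f D' g D'')) := by
  refine SA.cor (n := 1) (salg_SA_add (salg_SA_sub (salg_SA3 ξ hD hf hg rfl)
    (salg_SA3 ξ hf hD' hg rfl)) (salg_SA3 ξ hf hg hD'' rfl))
    (salg_STB_add (salg_STB_sub (salg_STB3 ξ hD hf hg) (salg_STB3 ξ hf hD' hg))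
      (salg_STB3 ξ hf hg hD'')) rfl

theorem th1_sq (hD : D * D = 0) : D * th1 ξ X D + th1 ξ X D * D = 0 := by
  exact salg_sq (salg_E0 hD) (salg_X0 ξ hD) (salg_d0 hD)

theorem th2_cl (hD : D * D = 0) (hD' : D' * D' = 0) (hf : f * D' = D * f) :
    f * th1 ξ Y D' + th2 ξ (-1) X Y D f D' * D' = D * th2 ξ (-1) X Y D f D' + th1 ξ X D * f := by
  exact salg_cl (salg_E0 hD) (salg_X0 ξ hD) (salg_X0 ξ hD') (salg_d0 hD') (salg_E1 hf)
    (salg_X1 ξ hf) (salg_d1 hf)

theorem th2_htp (hD : D * D = 0) (hD' : D' * D' = 0) :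
    th2 ξ (-1) X Y D (h * D' + D * h) D' =
      h * th1 ξ Y D' + th2 ξ 1 X Y D h D' * D' + (D * th2 ξ 1 X Y D h D' + th1 ξ X D * h) := by
  rw [th2, salg_EM_add, salg_XM_add, salg_dlt_add, EM_mul, EM_mul, XM_mul, XM_mul, dlt_mul,
    dlt_mul]
  exact salg_htp (salg_E0 hD) (salg_X0 ξ hD) (salg_X0 ξ hD') (salg_d0 hD')

theorem th2_mul (hD : D * D = 0) (hD' : D' * D' = 0) (hD'' : D'' * D'' = 0) (hf : f * D' = D * f)
    (hg : g * D'' = D' * g) :
    th2 ξ (-1) X Z D (f * g) D'' = f * th2 ξ (-1) Y Z D' g D'' + th2 ξ (-1) X Y D f D' * g +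
      (th3 ξ X Y Z D f D' g D'' * D'' + D * th3 ξ X Y Z D f D' g D'') := by
  rw [th2, EM_mul, XM_mul, dlt_mul]
  exact salg_mul (salg_E0 hD) (salg_X0 ξ hD') (salg_d0 hD'') (salg_E1 hf) (salg_X1 ξ hf)
    (salg_X1 ξ hg) (salg_d1 hg)

theorem th2_sub (ε : ℤ) (f f' : Matrix X.G Y.G (AF k)) :
    th2 ξ ε X Y D (f - f') D' = th2 ξ ε X Y D f D' - th2 ξ ε X Y D f' D' := by
  simp only [th2, salg_EM_sub, salg_XM_sub, salg_dlt_sub, Matrix.mul_sub, Matrix.sub_mul, smul_sub]
  abel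

theorem th2_eq_zero (ε : ℤ) (h1 : EM f = 0) (h2 : XM ξ f = 0) (h3 : dlt X Y f = 0) :
    th2 ξ ε X Y D f D' = 0 := by
  simp only [th2, h1, h2, h3, Matrix.mul_zero, Matrix.zero_mul, smul_zero, add_zero]

theorem th2_scal (c : k) :
    th2 ξ (-1) X X D (c • (1 : Matrix X.G X.G (AF k))) D = -(ξ c • (EM D * dlt X X D)) := by
  have h1 : EM (c • (1 : Matrix X.G X.G (AF k))) = 0 := by
    ext x y : 1
    rw [EM, Matrix.map_apply, Matrix.smul_apply, LinearMap.map_smul_of_tower, Matrix.one_apply]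
    split_ifs
    · rw [eul_one, smul_zero, Matrix.zero_apply]
    · rw [map_zero, smul_zero, Matrix.zero_apply]
  have h2 : XM ξ (c • (1 : Matrix X.G X.G (AF k))) = ξ c • 1 := by
    ext x y : 1
    rw [XM, Matrix.map_apply, Matrix.smul_apply, xiA_smul, Matrix.smul_apply, Matrix.one_apply]
    split_ifs
    · rw [xiA_one, smul_zero, zero_add]
    · rw [map_zero, smul_zero, zero_add]
  have h3 : dlt X X (c • (1 : Matrix X.G X.G (AF k))) = 0 := by
    ext x y : 1
    rw [dlt, Matrix.smul_apply, Matrix.one_apply, Matrix.zero_apply]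
    split_ifs with hxy
    · rw [hxy, sub_self, zero_smul]
    · rw [smul_zero, smul_zero]
  simp only [th2, h1, h2, h3, Matrix.mul_zero, Matrix.zero_mul, zero_add, add_zero, neg_smul,
    one_smul, Matrix.mul_smul, Matrix.smul_mul, Matrix.mul_one]

theorem th1_neg : th1 ξ X (-D) = -th1 ξ X D := by
  simp only [th1, salg_EM_neg, salg_XM_neg, salg_dlt_neg, Matrix.mul_neg, Matrix.neg_mul, neg_neg]

theorem th1_neg_der : th1 (-ξ) X D = -th1 ξ X D := by
  simp only [th1, XM_neg_der, Matrix.mul_neg, Matrix.neg_mul]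

theorem th2_neg (ε : ℤ) : th2 ξ ε X Y (-D) f (-D') = th2 ξ ε X Y D f D' := by
  simp only [th2, salg_EM_neg, salg_XM_neg, salg_dlt_neg, Matrix.mul_neg, Matrix.neg_mul, neg_neg]

end Pool.Agent.Work.MP_910138_ag.C0
end

-- merged part: Pool.Agent.Work.MP_910138_ag.C0.ChainD
section
/-! The poset of chains of a finite directed category. -/

open CategoryTheory

namespace Pool.Agent.Work.MP_910138_ag.C0

variable {M S : Type} [Monoid M] [LinearOrder S] (C : MCat M S)

/-- nondegenerate simplices of the nerve -/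
@[ext]
structure Chn where
  T : Finset S
  a : S → S → M
  ne : T.Nonempty
  mem : ∀ i ∈ T, ∀ j ∈ T, i ≤ j → a i j ∈ C.H i j
  comp : ∀ i ∈ T, ∀ j ∈ T, ∀ l ∈ T, i ≤ j → j ≤ l → a i j * a j l = a i l
  norm : ∀ i j, ¬ (i ∈ T ∧ j ∈ T ∧ i ≤ j) → a i j = 1

/-- `σ ≤ τ` means that `τ` is a face of `σ` -/
instance : PartialOrder (Chn C) where
  le σ τ := τ.T ⊆ σ.T ∧ ∀ i ∈ τ.T, ∀ j ∈ τ.T, τ.a i j = σ.a i j
  le_refl _ := ⟨subset_rfl, fun _ _ _ _ => rfl⟩
  le_trans _ _ _ h h' := ⟨h'.1.trans h.1, fun i hi j hj =>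
    (h'.2 i hi j hj).trans (h.2 i (h'.1 hi) j (h'.1 hj))⟩
  le_antisymm σ τ h h' := by
    have e : σ.T = τ.T := subset_antisymm h'.1 h.1
    refine Chn.ext e (funext fun i => funext fun j => ?_)
    by_cases hij : i ∈ σ.T ∧ j ∈ σ.T ∧ i ≤ j
    · exact h'.2 i hij.1 j hij.2.1
    · rw [σ.norm i j hij, τ.norm i j (e ▸ hij)]

theorem Chn.le_iff {σ τ : Chn C} :
    σ ≤ τ ↔ τ.T ⊆ σ.T ∧ ∀ i ∈ τ.T, ∀ j ∈ τ.T, τ.a i j = σ.a i j := Iff.rfl

/-- simplices of the nerve of the category over `c` -/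
@[ext]
structure CGen (c : S) where
  σ : Chn C
  g : S → M
  mem : ∀ i ∈ σ.T, g i ∈ C.H i c
  comp : ∀ i ∈ σ.T, ∀ j ∈ σ.T, i ≤ j → σ.a i j * g j = g i
  norm : ∀ i, i ∉ σ.T → g i = 1

instance [Finite S] : Finite (Chn C) := by
  have := Fintype.ofFinite S
  have := fun i j => ((C.fin i j).insert 1).to_subtype
  refine Finite.of_injective (fun σ : Chn C => ((σ.T, fun i j => ⟨σ.a i j, by
    by_cases h : i ∈ σ.T ∧ j ∈ σ.T ∧ i ≤ j
    · exact Or.inr (σ.mem i h.1 j h.2.1 h.2.2)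
    · exact Or.inl (σ.norm i j h)⟩) : Finset S × ∀ i j, ↥(insert (1 : M) (C.H i j)))) ?_
  intro σ τ h
  exact Chn.ext (congrArg Prod.fst h) (funext fun i => funext fun j =>
    congrArg Subtype.val (congrFun (congrFun (congrArg Prod.snd h) i) j))

instance [Finite S] (c : S) : Finite (CGen C c) := by
  have := fun i => ((C.fin i c).insert 1).to_subtype
  refine Finite.of_injective (fun x : CGen C c => ((x.σ, fun i => ⟨x.g i, by
    by_cases h : i ∈ x.σ.T
    · exact Or.inr (x.mem i h)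
    · exact Or.inl (x.norm i h)⟩) : Chn C × ∀ i, ↥(insert (1 : M) (C.H i c)))) ?_
  intro x y h
  exact CGen.ext (congrArg Prod.fst h) (funext fun i =>
    congrArg Subtype.val (congrFun (congrArg Prod.snd h) i))

noncomputable instance [Finite S] (c : S) : Fintype (CGen C c) := Fintype.ofFinite _

noncomputable instance (c : S) : DecidableEq (CGen C c) := Classical.decEq _

variable {C}

/-- the first vertex -/
def Chn.mn (σ : Chn C) : S := σ.T.min' σ.ne

/-- restriction of a chain to a nonempty set of vertices -/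
def Chn.res (σ : Chn C) (T : Finset S) (hT : T ⊆ σ.T) (hne : T.Nonempty) : Chn C where
  T := T
  a i j := if i ∈ T ∧ j ∈ T then σ.a i j else 1
  ne := hne
  mem i hi j hj h := by
    rw [if_pos ⟨hi, hj⟩]
    exact σ.mem i (hT hi) j (hT hj) h
  comp i hi j hj l hl h h' := by
    rw [if_pos ⟨hi, hj⟩, if_pos ⟨hj, hl⟩, if_pos ⟨hi, hl⟩]
    exact σ.comp i (hT hi) j (hT hj) l (hT hl) h h'
  norm i j h := by
    by_cases h' : i ∈ T ∧ j ∈ T
    · rw [if_pos h']
      exact σ.norm i j fun h'' => h ⟨h'.1, h'.2, h''.2.2⟩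
    · exact if_neg h'

variable {c c' : S}

/-- restriction of a generator -/
def CGen.res (x : CGen C c) (T : Finset S) (hT : T ⊆ x.σ.T) (hne : T.Nonempty) : CGen C c where
  σ := x.σ.res T hT hne
  g i := if i ∈ T then x.g i else 1
  mem i hi := by
    rw [if_pos (show i ∈ T from hi)]
    exact x.mem i (hT hi)
  comp i hi j hj h := by
    change (if i ∈ T ∧ j ∈ T then x.σ.a i j else 1) * _ = _
    rw [if_pos ⟨hi, hj⟩, if_pos (show i ∈ T from hi), if_pos (show j ∈ T from hj)]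
    exact x.comp i (hT hi) j (hT hj) h
  norm i hi := if_neg hi

/-- the image of a generator under a morphism -/
def CGen.push (x : CGen C c) (m : M) (hm : m ∈ C.H c c') : CGen C c' where
  σ := x.σ
  g i := if i ∈ x.σ.T then x.g i * m else 1
  mem i hi := by
    rw [if_pos hi]
    exact C.mul_mem (x.mem i hi) hm
  comp i hi j hj h := by rw [if_pos hi, if_pos hj, ← mul_assoc, x.comp i hi j hj h]
  norm i hi := if_neg hi

/-- `y` is a face of `x` -/
def CGen.Face (x y : CGen C c) : Prop := x.σ ≤ y.σ ∧ ∀ i ∈ y.σ.T, y.g i = x.g i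

/-- the sign of the face that omits `j` -/
def csgn (k : Type) [Field k] (T : Finset S) (j : S) : k := (-1) ^ (T.filter (· < j)).card

variable (k : Type) [Field k]

open Classical in
/-- the boundary matrix -/
noncomputable def chD (c : S) : Matrix (CGen C c) (CGen C c) k := fun x y =>
  ∑ j ∈ x.σ.T, if x.Face y ∧ y.σ.T = x.σ.T.erase j then csgn k x.σ.T j else 0

open Classical in
/-- the matrix of a morphism -/
noncomputable def chM (c c' : S) (m : M) : Matrix (CGen C c) (CGen C c') k := fun x y =>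
  if y.σ = x.σ ∧ ∀ i ∈ x.σ.T, y.g i = x.g i * m then 1 else 0

variable (C) in
/-- the linear extension -/
noncomputable def chAct (c c' : S) :
    MonoidAlgebra k M →ₗ[k] Matrix (CGen C c) (CGen C c') k :=
  Finsupp.linearCombination k (chM k c c') ∘ₗ (MonoidAlgebra.coeffLinearEquiv k).toLinearMap

variable [Finite S]

variable (C) in
/-- the generators of the chain complex -/
noncomputable abbrev chGn (c : S) : Gn (Chn C) :=
  ⟨CGen C c, fun x => x.σ, fun x => 1 - (x.σ.T.card : ℤ)⟩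

end Pool.Agent.Work.MP_910138_ag.C0
end
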