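import Pool.Agent.Work.MP_910138_ag.C0.SU

/-! Functors on complexes that act linearly on graded maps. -/

open CategoryTheory Limits CochainComplex.HomComplex

namespace Pool.Agent.Work.MP_910138_ag.C0

universe v u v' u' v'' u''

variable (k : Type) [Field k]
  {A : Type u} [Category.{v} A] [Abelian A] [HasCoproductsOfShape ℤ A] [Linear k A]
  {B : Type u'} [Category.{v'} B] [Abelian B] [HasCoproductsOfShape ℤ B] [Linear k B]

/-- a linear action of `T` on homogeneous maps -/
structure DGAct (T : Cx A ⥤ Cx B) where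
  act : ∀ (_ : ℤ) (K L : Cx A), (U K ⟶ U L) →ₗ[k] (U (T.obj K) ⟶ U (T.obj L))
  hg : ∀ (n : ℤ) {K L : Cx A} (f : U K ⟶ U L), Hg n (act n K L f)
  act_comp : ∀ {n m l : ℤ} {K L M : Cx A} {f : U K ⟶ U L} {g : U L ⟶ U M}, Hg n f → Hg m g →
    n + m = l → act l K M (f ≫ g) = act n K L f ≫ act m L M g
  act_dl : ∀ {n l : ℤ} {K L : Cx A} {f : U K ⟶ U L}, Hg n f → n + 1 = l →
    act l K L (dl n f) = dl n (act n K L f)
  act_mapU : ∀ {K L : Cx A} (φ : K ⟶ L), act 0 K L (mapU φ) = mapU (T.map φ)

theorem dg0_ofU_smul {K L : Cx A} (n : ℤ) (c : k) (f : U K ⟶ U L) :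
    ofU n (c • f) = c • ofU n f := by
  ext p q h
  simp [ofU]

theorem dg0_of_cochain (T : Cx A ⥤ Cx B)
    (c : ∀ (n : ℤ) (K L : Cx A), Cochain K L n → Cochain (T.obj K) (T.obj L) n)
    (hadd : ∀ (n : ℤ) (K L : Cx A) (z w : Cochain K L n), c n K L (z + w) = c n K L z + c n K L w)
    (hsmul : ∀ (n : ℤ) (K L : Cx A) (a : k) (z : Cochain K L n), c n K L (a • z) = a • c n K L z)
    (hcomp : ∀ (n m l : ℤ) (K L M : Cx A) (z : Cochain K L n) (w : Cochain L M m)
      (h : n + m = l), c l K M (z.comp w h) = (c n K L z).comp (c m L M w) h)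
    (hd : ∀ (n l : ℤ) (K L : Cx A) (z : Cochain K L n), n + 1 = l →
      c l K L (δ n l z) = δ n l (c n K L z))
    (hof : ∀ (K L : Cx A) (φ : K ⟶ L), c 0 K L (Cochain.ofHom φ) = Cochain.ofHom (T.map φ)) :
    Nonempty (DGAct k T) := by
  refine ⟨{ act := fun n K L =>
              { toFun := fun f => toU (c n K L (ofU n f))
                map_add' := fun f g => by rw [ofU_add, hadd, toU_add]
                map_smul' := fun a f => by
                  rw [dg0_ofU_smul, hsmul, toU_smul, RingHom.id_apply] }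
            hg := ?_, act_comp := ?_, act_dl := ?_, act_mapU := ?_ }⟩
  · intro n K L f
    exact hg_toU _
  · intro n m l K L M f g hf hg h
    obtain ⟨z, rfl⟩ := hf.exists
    obtain ⟨w, rfl⟩ := hg.exists
    change toU (c l K M (ofU l _)) = toU (c n K L (ofU n _)) ≫ toU (c m L M (ofU m _))
    rw [← toU_comp z w h, ofU_toU, ofU_toU, ofU_toU, hcomp, toU_comp]
  · intro n l K L f hf h
    obtain ⟨z, rfl⟩ := hf.exists
    change toU (c l K L (ofU l _)) = dl n (toU (c n K L (ofU n _)))
    rw [← toU_δ z h, ofU_toU, ofU_toU, hd _ _ _ _ _ h, toU_δ _ h]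
  · intro K L φ
    change toU (c 0 K L (ofU 0 _)) = _
    rw [mapU, mapU, ofU_toU, hof]

section Bif

open HomologicalComplex

variable {C : Type u''} [Category.{v''} C] [Preadditive C] (F : C ⥤ A ⥤ B) [F.Additive]
  [∀ X, (F.obj X).Additive]
  [∀ (K₁ : CochainComplex C ℤ) (K₂ : CochainComplex A ℤ),
    HomologicalComplex.HasMapBifunctor K₁ K₂ F (.up ℤ)] (E : CochainComplex C ℤ)

/-- the action of a bifunctor on cochains in the second variable -/
noncomputable def dg0_c (n : ℤ) (K L : Cx A) (z : Cochain K L n) :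
    Cochain (F := mapBifunctor E K F (.up ℤ)) (G := mapBifunctor E L F (.up ℤ)) n :=
  Cochain.mk fun p q hpq => mapBifunctorDesc fun i j h =>
    sg (i * n) • ((F.obj (E.X i)).map (z.v j (j + n) rfl) ≫
      ιMapBifunctor E L F (.up ℤ) i (j + n) q (by dsimp at h ⊢; omega))

omit [HasCoproductsOfShape ℤ A] [HasCoproductsOfShape ℤ B] in
theorem dg0_ι {n : ℤ} {K L : Cx A} (z : Cochain K L n) (i j j' p q : ℤ) (h : i + j = p)
    (hpq : p + n = q) (hj : j + n = j') :
    ιMapBifunctor E K F (.up ℤ) i j p h ≫ (dg0_c F E n K L z).v p q hpq =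
      sg (i * n) • ((F.obj (E.X i)).map (z.v j j' hj) ≫ ιMapBifunctor E L F (.up ℤ) i j' q
        (by dsimp; omega)) := by
  subst hj
  rw [dg0_c, Cochain.mk_v, ι_mapBifunctorDesc]

omit [HasCoproductsOfShape ℤ A] [HasCoproductsOfShape ℤ B] in
theorem dg0_ι_d (K : Cx A) (i j p q : ℤ) (h : i + j = p) (hpq : p + 1 = q) :
    ιMapBifunctor E K F (.up ℤ) i j p h ≫ (mapBifunctor E K F (.up ℤ)).d p q =
      (F.map (E.d i (i + 1))).app (K.X j) ≫ ιMapBifunctor E K F (.up ℤ) (i + 1) j q
        (by dsimp; omega) +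
      sg i • ((F.obj (E.X i)).map (K.d j (j + 1)) ≫ ιMapBifunctor E K F (.up ℤ) i (j + 1) q
        (by dsimp; omega)) := by
  rw [mapBifunctor.d_eq, Preadditive.comp_add, mapBifunctor.ι_D₁, mapBifunctor.ι_D₂,
    mapBifunctor.d₁_eq E K F (.up ℤ) (i₁' := i + 1) rfl j q (by dsimp; omega),
    mapBifunctor.d₂_eq E K F (.up ℤ) i (i₂' := j + 1) rfl q (by dsimp; omega)]
  exact congrArg₂ (· + ·) (one_smul _ _) rfl

end Bif

theorem dgAct_mapHomologicalComplex (F : A ⥤ B) [F.Additive] [F.Linear k] :
    Nonempty (DGAct k (F.mapHomologicalComplex (ComplexShape.up ℤ))) := by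
  refine dg0_of_cochain k _ (fun n K L z => z.map F) ?_ ?_ ?_ ?_ ?_
  · intro n K L z w
    exact Cochain.map_add _ _ _
  · intro n K L a z
    ext p q hpq
    exact F.map_smul a (z.v p q hpq)
  · intro n m l K L M z w h
    exact Cochain.map_comp _ z w h F
  · intro n l K L z _
    exact (δ_map _ _ _ _).symm
  · intro K L φ
    exact Cochain.map_ofHom _ _ φ F

theorem dgAct_map₂ {C : Type u''} [Category.{v''} C] [Preadditive C] (F : C ⥤ A ⥤ B) [F.Additive]
    [∀ X, (F.obj X).Additive] [∀ X, (F.obj X).Linear k]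
    [∀ (K₁ : CochainComplex C ℤ) (K₂ : CochainComplex A ℤ),
      HomologicalComplex.HasMapBifunctor K₁ K₂ F (.up ℤ)] (E : CochainComplex C ℤ) :
    Nonempty (DGAct k (F.map₂CochainComplex.obj E)) := by
  refine dg0_of_cochain k _ (fun n K L z => dg0_c F E n K L z) ?_ ?_ ?_ ?_ ?_
  · intro n K L z w
    have : dg0_c F E n K L (z + w) = dg0_c F E n K L z + dg0_c F E n K L w := by
      ext p q hpq i j h
      rw [Cochain.add_v, Preadditive.comp_add, dg0_ι F E _ i j (j + n) p q h hpq rfl,
        dg0_ι F E _ i j (j + n) p q h hpq rfl, dg0_ι F E _ i j (j + n) p q h hpq rfl,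
        Cochain.add_v, Functor.map_add, Preadditive.add_comp, smul_add]
    exact this
  · intro n K L a z
    have : dg0_c F E n K L (a • z) = a • dg0_c F E n K L z := by
      ext p q hpq i j h
      rw [Cochain.smul_v, Linear.comp_smul, dg0_ι F E _ i j (j + n) p q h hpq rfl,
        dg0_ι F E _ i j (j + n) p q h hpq rfl, Cochain.smul_v, Functor.map_smul,
        Linear.smul_comp, smul_comm]
    exact this
  · intro n m l K L M z w hl
    have : dg0_c F E l K M (z.comp w hl) = (dg0_c F E n K L z).comp (dg0_c F E m L M w) hl := by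
      ext p q hpq i j h
      dsimp at h
      rw [dg0_ι F E _ i j (j + n + m) p q h hpq (by omega),
        Cochain.comp_v _ _ hl p (p + n) q rfl (by omega), ← Category.assoc,
        dg0_ι F E _ i j (j + n) p (p + n) h rfl rfl, Preadditive.zsmul_comp, Category.assoc,
        dg0_ι F E _ i (j + n) (j + n + m) (p + n) q (by omega) (by omega) rfl,
        Cochain.comp_v _ _ hl j (j + n) (j + n + m) rfl rfl, Functor.map_comp, Category.assoc,
        Preadditive.comp_zsmul, smul_smul, ← sg_add, ← mul_add, hl]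
    exact this
  · intro n l K L z hl
    have : dg0_c F E l K L (δ n l z) = δ n l (dg0_c F E n K L z) := by
      ext p q hpq i j h
      dsimp at h
      have e : ((l.negOnePow : ℤˣ) : ℤ) = -sg n := by rw [← sg_succ, hl, sg]
      have e1 : sg (i * l) = sg (i * n) * sg i := by rw [← hl, mul_add, mul_one, sg_add]
      have e2 : sg ((i + 1) * n) = sg (i * n) * sg n := by rw [add_mul, one_mul, sg_add]
      have e3 : ∀ a : ℤ, -sg n * (a * sg n) = -a := fun a => by
        have := sg_mul_self n
        linear_combination (-a) * this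
      rw [dg0_ι F E _ i j (j + n + 1) p q h hpq (by omega),
        δ_v n l hl z j (j + n + 1) (by omega) (j + n) (j + 1) (by omega) rfl,
        δ_v n l hl _ p q hpq (p + n) (p + 1) (by omega) rfl, Units.smul_def, Units.smul_def, e,
        Preadditive.comp_add, Preadditive.comp_zsmul, ← Category.assoc, ← Category.assoc,
        dg0_ι F E _ i j (j + n) p (p + n) h rfl rfl, Preadditive.zsmul_comp, Category.assoc,
        dg0_ι_d F E L i (j + n) (p + n) q (by omega) (by omega),
        dg0_ι_d F E K i j p (p + 1) h rfl]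
      simp only [Preadditive.add_comp, Preadditive.comp_add, Preadditive.zsmul_comp,
        Preadditive.comp_zsmul, Category.assoc, Functor.map_add, Functor.map_zsmul,
        Functor.map_comp]
      rw [dg0_ι F E _ (i + 1) j (j + n) (p + 1) q (by omega) (by omega) rfl,
        dg0_ι F E _ i (j + 1) (j + n + 1) (p + 1) q (by omega) (by omega) (by omega)]
      simp only [Preadditive.comp_zsmul, NatTrans.naturality_assoc, smul_add, smul_smul, e1, e2,
        e3]
      module
    exact this
  · intro K L φ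
    have : dg0_c F E 0 K L (Cochain.ofHom φ) =
        Cochain.ofHom (HomologicalComplex.mapBifunctorMap (𝟙 E) φ F (.up ℤ)) := by
      ext p i j h
      rw [dg0_ι F E _ i j j p p h (add_zero p) (add_zero j), Cochain.ofHom_v, Cochain.ofHom_v,
        HomologicalComplex.ι_mapBifunctorMap]
      simp
    exact this

theorem dgAct_comp {C : Type u''} [Category.{v''} C] [Abelian C] [HasCoproductsOfShape ℤ C]
    [Linear k C] {T : Cx A ⥤ Cx B} {T' : Cx B ⥤ Cx C} (a : DGAct k T) (b : DGAct k T') :
    Nonempty (DGAct k (T ⋙ T')) := by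
  refine ⟨{ act := fun n K L => (b.act n _ _).comp (a.act n K L)
            hg := ?_, act_comp := ?_, act_dl := ?_, act_mapU := ?_ }⟩
  · intro n K L f
    exact b.hg n _
  · intro n m l K L M f g hf hg h
    change b.act l _ _ (a.act l K M (f ≫ g)) = _
    rw [a.act_comp hf hg h]
    exact b.act_comp (a.hg n f) (a.hg m g) h
  · intro n l K L f hf h
    change b.act l _ _ (a.act l K L (dl n f)) = _
    rw [a.act_dl hf h]
    exact b.act_dl (a.hg n f) h
  · intro K L φ
    change b.act 0 _ _ (a.act 0 K L (mapU φ)) = _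
    rw [a.act_mapU]
    exact b.act_mapU _

end Pool.Agent.Work.MP_910138_ag.C0
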