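import Pool.Agent.Work.MP_910138_ag.C0.SU
import Pool.Agent.Work.MP_910138_ag.GDb
import Pool.Agent.Work.MP_910138_ag.Exot
import Pool.Agent.Work.MP_910138_ag.C0.DG

-- merged part: Pool.Agent.Work.MP_910138_ag.C0.TotEx
section
/-! Existence of total complexes and description of their terms. -/

open CategoryTheory Limits CochainComplex.HomComplex

namespace Pool.Agent.Work.MP_910138_ag.C0

universe v u

variable {A : Type u} [Category.{v} A] [Abelian A] [HasCoproductsOfShape ℤ A]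

variable {G : Type} [Fintype G] {K K' : Cx A} {W W' : G → Cx A} {deg : G → ℤ}
  {t : ∀ x y, U (W x) ⟶ U (W y)} {t' : ∀ x y, U (W' x) ⟶ U (W' y)}

theorem totex_hg {L M : Cx A} {k : ℤ} {f : U L ⟶ U M} (hf : Hg k f) {p q : ℤ} (h : p + k = q) :
    ιU L p ≫ f ≫ πU M q ≫ ιU M q = ιU L p ≫ f := by
  subst h
  exact (hf p).symm

theorem totex_ext {L : Cx A} {B : A} (a : ℤ) {f g : U L ⟶ B}
    (h : ∀ n, ιU L (n - a) ≫ f = ιU L (n - a) ≫ g) : f = g := by
  refine U_ext fun p => ?_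
  obtain ⟨n, rfl⟩ : ∃ n, p = n - a := ⟨p + a, by omega⟩
  exact h n

/-- the terms of the total complex -/
noncomputable abbrev totexX (W : G → Cx A) (deg : G → ℤ) (n : ℤ) : A :=
  ⨁ fun x => (W x).X (n - deg x)

/-- the sum of all the `U (W x)` -/
noncomputable abbrev totexB (W : G → Cx A) : A := ⨁ fun x => U (W x)

/-- inclusion of a term -/
noncomputable def totexI (W : G → Cx A) (deg : G → ℤ) (n : ℤ) : totexX W deg n ⟶ totexB W :=
  biproduct.map fun x => ιU (W x) (n - deg x)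

/-- projection to a term -/
noncomputable def totexP (W : G → Cx A) (deg : G → ℤ) (n : ℤ) : totexB W ⟶ totexX W deg n :=
  biproduct.map fun x => πU (W x) (n - deg x)

/-- the total differential -/
noncomputable def totexD (deg : G → ℤ) (t : ∀ x y, U (W x) ⟶ U (W y)) : totexB W ⟶ totexB W :=
  biproduct.map (fun x => sg (deg x) • dU (W x)) + biproduct.matrix t

theorem totex_ι_D {B : A} (x : G) (f : totexB W ⟶ B) :
    biproduct.ι (fun x => U (W x)) x ≫ totexD deg t ≫ f =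
      sg (deg x) • (dU (W x) ≫ biproduct.ι (fun x => U (W x)) x ≫ f) +
        ∑ y, t x y ≫ biproduct.ι (fun x => U (W x)) y ≫ f := by
  rw [totexD, Preadditive.add_comp, Preadditive.comp_add, biproduct.ι_map_assoc,
    biproduct.ι_matrix_assoc, biproduct.lift_eq, Preadditive.sum_comp, Preadditive.zsmul_comp]
  simp only [Category.assoc]

theorem totex_D_D (h : Tw W deg t) : totexD deg t ≫ totexD deg t = 0 := by
  refine biproduct.hom_ext' _ _ fun x => biproduct.hom_ext _ _ fun z => ?_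
  have h1 : ∀ y, biproduct.ι (fun x => U (W x)) y ≫ totexD deg t ≫
      biproduct.π (fun x => U (W x)) z = sg (deg y) • (dU (W y) ≫
        biproduct.ι (fun x => U (W x)) y ≫ biproduct.π (fun x => U (W x)) z) + t y z := by
    intro y
    rw [totexD, Preadditive.add_comp, Preadditive.comp_add, biproduct.ι_map_assoc,
      biproduct.matrix_π, biproduct.ι_desc, Preadditive.zsmul_comp]
  have h2 : ∑ y, sg (deg y) • (t x y ≫ dU (W y) ≫ biproduct.ι (fun x => U (W x)) y ≫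
      biproduct.π (fun x => U (W x)) z) = sg (deg z) • (t x z ≫ dU (W z)) := by
    rw [Finset.sum_eq_single z]
    · rw [biproduct.ι_π_self, Category.comp_id]
    · intro b _ hb
      rw [biproduct.ι_π_ne _ hb, comp_zero, comp_zero, smul_zero]
    · simp
  have h3 : t x z ≫ dU (W z) = sg (deg x + 1 - deg z) • (dU (W x) ≫ t x z) :=
    sub_eq_zero.1 (h.cl x z)
  simp only [Category.assoc, zero_comp, comp_zero]
  rw [totex_ι_D]
  simp only [h1, Preadditive.comp_add, Finset.sum_add_distrib, Preadditive.comp_zsmul,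
    dU_dU_assoc, zero_comp, smul_zero, zero_add]
  rw [h2, h.sq, add_zero, h3, sg_sub, sg_succ, mul_comm, mul_smul, sg_smul_sg_smul, neg_smul,
    add_neg_cancel]

theorem totex_I_D (h : Tw W deg t) {n m : ℤ} (hm : n + 1 = m) :
    totexI W deg n ≫ totexD deg t ≫ totexP W deg m ≫ totexI W deg m = totexI W deg n ≫ totexD deg t := by
  refine biproduct.hom_ext' _ _ fun x => ?_
  have h1 : ∀ y, biproduct.ι (fun x => U (W x)) y ≫ totexP W deg m ≫ totexI W deg m =
      πU (W y) (m - deg y) ≫ ιU (W y) (m - deg y) ≫ biproduct.ι (fun x => U (W x)) y := by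
    intro y
    rw [totexP, totexI, biproduct.ι_map_assoc, biproduct.ι_map]
  have h2 : ∀ {B : A} (f : totexB W ⟶ B), biproduct.ι (fun y => (W y).X (n - deg y)) x ≫
      totexI W deg n ≫ f = ιU (W x) (n - deg x) ≫ biproduct.ι (fun x => U (W x)) x ≫ f := by
    intro B f
    rw [totexI, biproduct.ι_map_assoc]
  have h3 := totex_ι_D (deg := deg) (t := t) x (𝟙 _)
  simp only [Category.comp_id] at h3
  rw [h2, h2, totex_ι_D, h3]
  simp only [h1, Preadditive.comp_add, Preadditive.comp_sum, Preadditive.comp_zsmul]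
  congr 1
  · rw [reassoc_of% (totex_hg (hg_dU (K := W x)) (show n - deg x + 1 = m - deg x by omega))]
  · refine Finset.sum_congr rfl fun y _ => ?_
    rw [reassoc_of% (totex_hg (h.hg x y)
      (show n - deg x + (deg x + 1 - deg y) = m - deg y by omega))]

/-- the total complex -/
noncomputable def totexK (h : Tw W deg t) : Cx A where
  X n := totexX W deg n
  d n m := if n + 1 = m then totexI W deg n ≫ totexD deg t ≫ totexP W deg m else 0
  shape n m hnm := if_neg hnm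
  d_comp_d' n m k hnm hmk := by
    have h1 : n + 1 = m := hnm
    have h2 : m + 1 = k := hmk
    rw [if_pos h1, if_pos h2]
    simp only [Category.assoc]
    rw [reassoc_of% (totex_I_D h h1), reassoc_of% (totex_D_D h), zero_comp, comp_zero]

/-- the inclusion of a term of the total complex -/
noncomputable def totexJ (h : Tw W deg t) (n : ℤ) : totexX W deg n ⟶ U (totexK h) :=
  ιU (totexK h) n

/-- the inclusion of a summand -/
noncomputable def totexInc (h : Tw W deg t) (x : G) : U (W x) ⟶ U (totexK h) :=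
  descU fun p => ((W x).XIsoOfEq (show p = p + deg x - deg x by omega)).hom ≫
    biproduct.ι (fun y => (W y).X (p + deg x - deg y)) x ≫ totexJ h (p + deg x)

/-- the projection to a summand -/
noncomputable def totexPr (h : Tw W deg t) (x : G) : U (totexK h) ⟶ U (W x) :=
  descU (K := totexK h) fun n =>
    (biproduct.π (fun y => (W y).X (n - deg y)) x ≫ ιU (W x) (n - deg x) : totexX W deg n ⟶ _)

@[reassoc]
theorem totex_inc (h : Tw W deg t) (x : G) (n : ℤ) :
    ιU (W x) (n - deg x) ≫ totexInc h x =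
      biproduct.ι (fun y => (W y).X (n - deg y)) x ≫ totexJ h n := by
  have h1 : ∀ p (hp : p = n - deg x), ιU (W x) p ≫ totexInc h x = ((W x).XIsoOfEq hp).hom ≫
      biproduct.ι (fun y => (W y).X (n - deg y)) x ≫ totexJ h n := by
    intro p hp
    obtain rfl : n = p + deg x := by omega
    rw [totexInc, ιU_descU]
  rw [h1 _ rfl]
  simp

@[reassoc]
theorem totex_pr (h : Tw W deg t) (x : G) (n : ℤ) :
    totexJ h n ≫ totexPr h x =
      biproduct.π (fun y => (W y).X (n - deg y)) x ≫ ιU (W x) (n - deg x) :=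
  ιU_descU (K := totexK h) _ n

theorem totex_J_π (h : Tw W deg t) (n : ℤ) :
    totexJ h n ≫ πU (totexK h) n ≫ ιU (totexK h) n = totexJ h n :=
  ιU_πU_self_assoc (K := totexK h) n _

theorem totex_J_ext (h : Tw W deg t) {B : A} {f g : U (totexK h) ⟶ B}
    (e : ∀ n, totexJ h n ≫ f = totexJ h n ≫ g) : f = g := U_ext e

theorem totex_J_d (h : Tw W deg t) (n : ℤ) :
    totexJ h n ≫ dU (totexK h) = totexI W deg n ≫ totexD deg t ≫ biproduct.desc (totexInc h) := by
  have h1 : totexI W deg (n + 1) ≫ biproduct.desc (totexInc h) = totexJ h (n + 1) := by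
    refine biproduct.hom_ext' _ _ fun x => ?_
    rw [totexI, biproduct.ι_map_assoc, biproduct.ι_desc, totex_inc]
  have h2 : totexJ h n ≫ dU (totexK h) =
      (if n + 1 = n + 1 then totexI W deg n ≫ totexD deg t ≫ totexP W deg (n + 1) else 0) ≫
        totexJ h (n + 1) := ιU_dU (K := totexK h) n (n + 1) rfl
  rw [h2, if_pos rfl, ← h1]
  simp only [Category.assoc]
  rw [reassoc_of% (totex_I_D h (rfl : n + 1 = n + 1))]

theorem exists_tot (h : Tw W deg t) : ∃ K : Cx A, Nonempty (TotStr K W deg t) := by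
  refine ⟨totexK h, ⟨⟨totexInc h, totexPr h, fun x p => ?_, fun x n => ?_, fun x => ?_,
    fun x y hxy => ?_, ?_, fun x => ?_⟩⟩⟩
  · obtain ⟨n, rfl⟩ : ∃ n, p = n - deg x := ⟨p + deg x, by omega⟩
    rw [sub_add_cancel, totex_inc_assoc, totex_inc, totex_J_π]
  · change totexJ h n ≫ _ = totexJ h n ≫ _
    rw [← sub_eq_add_neg, totex_pr_assoc, totex_pr, ιU_πU_self_assoc]
  · refine totex_ext (deg x) fun n => ?_
    rw [totex_inc_assoc, totex_pr, biproduct.ι_π_self_assoc, Category.comp_id]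
  · refine totex_ext (deg x) fun n => ?_
    rw [totex_inc_assoc, totex_pr, biproduct.ι_π_ne_assoc _ hxy, zero_comp, comp_zero]
  · refine totex_J_ext h fun n => ?_
    rw [Preadditive.comp_sum, Category.comp_id]
    simp only [totex_pr_assoc, totex_inc]
    simp only [← Category.assoc, ← Preadditive.sum_comp]
    rw [biproduct.total, Category.id_comp]
  · refine totex_ext (deg x) fun n => ?_
    rw [dl, Preadditive.comp_sub, totex_inc_assoc, totex_J_d, totexI, biproduct.ι_map_assoc,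
      totex_ι_D, Preadditive.comp_add]
    simp only [biproduct.ι_desc]
    rw [add_sub_cancel_left]

set_option linter.unusedSectionVars false in
theorem TotStr.term_iso (s : TotStr K W deg t) (n : ℤ) :
    Nonempty (K.X n ≅ ⨁ fun x => (W x).X (n - deg x)) := by
  refine ⟨⟨biproduct.lift fun x => ιU K n ≫ s.pr x ≫ πU (W x) (n - deg x),
    biproduct.desc fun x => ιU (W x) (n - deg x) ≫ s.inc x ≫ πU K n, ?_, ?_⟩⟩
  · rw [biproduct.lift_desc]
    have h1 : ∀ x, (ιU K n ≫ s.pr x ≫ πU (W x) (n - deg x)) ≫ ιU (W x) (n - deg x) ≫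
        s.inc x ≫ πU K n = ιU K n ≫ (s.pr x ≫ s.inc x) ≫ πU K n := by
      intro x
      simp only [Category.assoc]
      rw [reassoc_of% (totex_hg (s.hpr x) (show n + -deg x = n - deg x by omega))]
    simp only [h1]
    rw [← Preadditive.comp_sum, ← Preadditive.sum_comp, s.total, Category.id_comp, ιU_πU_self]
  · refine biproduct.hom_ext' _ _ fun x => biproduct.hom_ext _ _ fun y => ?_
    simp only [Category.assoc, biproduct.ι_desc_assoc, biproduct.lift_π, Category.id_comp]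
    rw [reassoc_of% (totex_hg (s.hinc x) (show n - deg x + deg x = n by omega))]
    by_cases hxy : x = y
    · subst hxy
      rw [s.inc_pr_self_assoc, ιU_πU_self, biproduct.ι_π_self]
    · rw [s.inc_pr_ne_assoc x y hxy, zero_comp, comp_zero, biproduct.ι_π_ne _ hxy]

theorem totex_isZero (s : TotStr K W deg t) (n : ℤ) (h : ∀ x, IsZero ((W x).X (n - deg x))) :
    IsZero (K.X n) := by
  obtain ⟨e⟩ := s.term_iso n
  refine IsZero.of_iso ?_ e
  rw [IsZero.iff_id_eq_zero]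
  exact biproduct.hom_ext _ _ fun x => (h x).eq_of_tgt _ _

theorem TotStr.exists_ge (s : TotStr K W deg t) (h : ∀ x, ∃ a : ℤ, (W x).IsStrictlyGE a) :
    ∃ a : ℤ, K.IsStrictlyGE a := by
  choose a ha using h
  obtain ⟨b, hb⟩ := (Set.finite_range fun x => a x + deg x).bddBelow
  refine ⟨b, (K.isStrictlyGE_iff b).2 fun n hn => totex_isZero s n fun x => ?_⟩
  have h1 : b ≤ a x + deg x := hb ⟨x, rfl⟩
  exact (W x).isZero_of_isStrictlyGE (a x) _ (by omega)

theorem TotStr.exists_le (s : TotStr K W deg t) (h : ∀ x, ∃ a : ℤ, (W x).IsStrictlyLE a) :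
    ∃ a : ℤ, K.IsStrictlyLE a := by
  choose a ha using h
  obtain ⟨b, hb⟩ := (Set.finite_range fun x => a x + deg x).bddAbove
  refine ⟨b, (K.isStrictlyLE_iff b).2 fun n hn => totex_isZero s n fun x => ?_⟩
  have h1 : a x + deg x ≤ b := hb ⟨x, rfl⟩
  exact (W x).isZero_of_isStrictlyLE (a x) _ (by omega)

theorem TotStr.injective (s : TotStr K W deg t) (h : ∀ x n, Injective ((W x).X n)) (n : ℤ) :
    Injective (K.X n) := by
  obtain ⟨e⟩ := s.term_iso n
  exact Injective.of_iso e.symm inferInstance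

/-- a chosen total complex -/
noncomputable def tot (h : Tw W deg t) : Cx A := (exists_tot h).choose

/-- its structure -/
noncomputable def totStr (h : Tw W deg t) : TotStr (tot h) W deg t := (exists_tot h).choose_spec.some

end Pool.Agent.Work.MP_910138_ag.C0
end

-- merged part: Pool.Agent.Work.MP_910138_ag.C0.Cl
section
/-! Classes of closed homogeneous maps in the derived category. -/

open CategoryTheory Limits CochainComplex.HomComplex

namespace Pool.Agent.Work.MP_910138_ag.C0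

universe v u

variable {A : Type u} [Category.{v} A] [Abelian A] [HasCoproductsOfShape ℤ A]
  [HasDerivedCategory A] {K K' L L' : Cx A} {n : ℤ}

open DerivedCategory

/-- the chain map `K ⟶ L⟦n⟧` attached to a closed map of degree `n` -/
noncomputable def shU (n : ℤ) (f : U K ⟶ U L) (hf : Hg n f) (hd : dl n f = 0) : K ⟶ L⟦n⟧ :=
  Cocycle.equivHomShift.symm (cocU n f hf hd)

open Classical in
/-- the class in the derived category of a closed map of degree `n` -/
noncomputable def cl (n : ℤ) (f : U K ⟶ U L) : Q.obj K ⟶ (Q.obj L)⟦n⟧ :=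
  if h : Hg n f ∧ dl n f = 0 then Q.map (shU n f h.1 h.2) ≫ (Q.commShiftIso n).hom.app L else 0

/-- the Hom-complex computes the morphisms in the derived category -/
structure KD (K L : Cx A) : Prop where
  surj : ∀ (n : ℤ) (φ : Q.obj K ⟶ (Q.obj L)⟦n⟧), ∃ f, Hg n f ∧ dl n f = 0 ∧ cl n f = φ
  inj : ∀ (n : ℤ) (f : U K ⟶ U L), Hg n f → dl n f = 0 → cl n f = 0 →
    ∃ h, Hg (n - 1) h ∧ f = dl (n - 1) h

theorem cl0_hd (z : Cocycle K L n) : dl n (toU (z : Cochain K L n)) = 0 := by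
  rw [← toU_δ _ rfl, Cocycle.δ_eq_zero, toU_zero]

theorem cl0_cocU_toU (z : Cocycle K L n) (h1 : Hg n (toU (z : Cochain K L n)))
    (h2 : dl n (toU (z : Cochain K L n)) = 0) : cocU n _ h1 h2 = z :=
  Cocycle.ext (ofU_toU _)

theorem cl0_toU (z : Cocycle K L n) : cl n (toU (z : Cochain K L n)) = cl_c z := by
  rw [cl, dif_pos ⟨hg_toU _, cl0_hd z⟩, shU, cl0_cocU_toU, cl_c]

theorem cl0_exists {f : U K ⟶ U L} (hf : Hg n f) (hd : dl n f = 0) :
    ∃ z : Cocycle K L n, toU (z : Cochain K L n) = f :=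
  ⟨cocU n f hf hd, toU_ofU hf⟩

theorem cl0_mem_iff (z : Cocycle K L n) : z ∈ coboundaries K L n ↔
    ∃ h, Hg (n - 1) h ∧ toU (z : Cochain K L n) = dl (n - 1) h := by
  rw [mem_coboundaries_iff z (n - 1) (by omega)]
  constructor
  · rintro ⟨β, hβ⟩
    exact ⟨toU β, hg_toU _, by rw [← hβ, toU_δ _ (by omega)]⟩
  · rintro ⟨h, hh, e⟩
    obtain ⟨β, rfl⟩ := hh.exists
    exact ⟨β, toU_injective (by rw [toU_δ _ (by omega), e])⟩

theorem cl_add {f g : U K ⟶ U L} (hf : Hg n f) (hf' : dl n f = 0) (hg : Hg n g)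
    (hg' : dl n g = 0) : cl n (f + g) = cl n f + cl n g := by
  obtain ⟨z, rfl⟩ := cl0_exists hf hf'
  obtain ⟨w, rfl⟩ := cl0_exists hg hg'
  rw [← toU_add, ← Cocycle.coe_add, cl0_toU, cl0_toU, cl0_toU, cl_c_add]

theorem cl_zero : cl n (0 : U K ⟶ U L) = 0 := by
  have h := cl_add (n := n) (K := K) (L := L) Hg.zero dl_zero Hg.zero dl_zero
  rw [add_zero] at h
  exact left_eq_add.mp h

theorem cl0_sub {f g : U K ⟶ U L} (hf : Hg n f) (hf' : dl n f = 0) (hg : Hg n g)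
    (hg' : dl n g = 0) : cl n (f - g) = cl n f - cl n g := by
  have h := cl_add (hg_sub hf hg) (by rw [dl_sub, hf', hg', sub_zero]) hg hg'
  rw [sub_add_cancel] at h
  rw [h, add_sub_cancel_right]

theorem cl_smul {k : Type} [Field k] [Linear k A] (c : k) {f : U K ⟶ U L} (hf : Hg n f)
    (hf' : dl n f = 0) : cl n (c • f) = c • cl n f := by
  obtain ⟨z, rfl⟩ := cl0_exists hf hf'
  have e : Cocycle.equivHomShift.symm (c • z) = c • Cocycle.equivHomShift.symm z := by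
    ext p
    simp [Cocycle.equivHomShift_symm_apply]
  rw [← toU_smul, ← Cocycle.coe_smul, cl0_toU, cl0_toU, cl_c, cl_c, e, Functor.map_smul,
    Linear.smul_comp]

theorem cl_exact {h : U K ⟶ U L} (hh : Hg (n - 1) h) : cl n (dl (n - 1) h) = 0 := by
  obtain ⟨z, hz⟩ := cl0_exists (n := n) (hg_dl hh (by omega)) (dl_dl h (by omega))
  rw [← hz, cl0_toU, cl_c_eq_zero_iff,
    (CohomologyClass.toHom_mk_eq_zero_iff z).2 ((cl0_mem_iff z).2 ⟨h, hh, hz⟩), Functor.map_zero]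

theorem cl_precomp (φ : K' ⟶ K) {f : U K ⟶ U L} (hf : Hg n f) (hf' : dl n f = 0) :
    cl n (mapU φ ≫ f) = Q.map φ ≫ cl n f := by
  obtain ⟨z, rfl⟩ := cl0_exists hf hf'
  have h : mapU φ ≫ toU (z : Cochain K L n) = toU (z.precomp φ : Cochain K' L n) := by
    rw [mapU, ← toU_comp _ _ (zero_add n)]
    rfl
  rw [h, cl0_toU, cl0_toU, cl_c, cl_c, Cocycle.equivHomShift_symm_precomp, Functor.map_comp,
    Category.assoc]

theorem cl_postcomp (ψ : L ⟶ L') {f : U K ⟶ U L} (hf : Hg n f) (hf' : dl n f = 0) :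
    cl n (f ≫ mapU ψ) = cl n f ≫ (Q.map ψ)⟦n⟧' := by
  obtain ⟨z, rfl⟩ := cl0_exists hf hf'
  have h : toU (z : Cochain K L n) ≫ mapU ψ = toU (z.postcomp ψ : Cochain K L' n) := by
    rw [mapU, ← toU_comp _ _ (add_zero n)]
    rfl
  rw [h, cl0_toU, cl0_toU, cl_c, cl_c, Cocycle.equivHomShift_symm_postcomp, Functor.map_comp,
    Category.assoc, Category.assoc, Functor.commShiftIso_hom_naturality]

set_option backward.isDefEq.respectTransparency false in
theorem cl_mapU (φ : K ⟶ L) :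
    cl 0 (mapU φ) = Q.map φ ≫ (shiftFunctorZero (DerivedCategory A) ℤ).inv.app (Q.obj L) := by
  have h : mapU φ = toU (Cocycle.ofHom φ : Cochain K L 0) := rfl
  have e : Cocycle.equivHomShift.symm (Cocycle.ofHom φ) =
      φ ≫ (shiftFunctorZero (Cx A) ℤ).inv.app L := by
    ext p
    simp [Cocycle.equivHomShift_symm_apply,
      Cochain.rightShift_v _ _ _ _ p p (add_zero p) p (add_zero p),
      CochainComplex.shiftFunctorZero_inv_app_f, HomologicalComplex.XIsoOfEq]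
  rw [h, cl0_toU, cl_c, e, Functor.commShiftIso_zero,
    Functor.CommShift.isoZero_hom_app, ← Functor.map_comp_assoc, Category.assoc,
    Iso.inv_hom_id_app]
  simp

theorem Q_map_eq_of_exact {φ ψ : K ⟶ L} {h : U K ⟶ U L} (hh : Hg (-1) h)
    (e : mapU φ - mapU ψ = dl (-1) h) : Q.map φ = Q.map ψ := by
  have h1 : cl 0 (dl (-1) h) = 0 := cl_exact (n := 0) (hh.of_eq (by omega))
  rw [← e, cl0_sub (hg_mapU _) (dl_mapU _) (hg_mapU _) (dl_mapU _), sub_eq_zero, cl_mapU,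
    cl_mapU] at h1
  exact (cancel_mono _).1 h1

theorem KD.map_surjective (hk : KD K L) (φ : Q.obj K ⟶ Q.obj L) : ∃ f : K ⟶ L, Q.map f = φ := by
  obtain ⟨f, hf, hd, e⟩ :=
    hk.surj 0 (φ ≫ (shiftFunctorZero (DerivedCategory A) ℤ).inv.app (Q.obj L))
  refine ⟨homU f hf hd, ?_⟩
  rw [← mapU_homU f hf hd, cl_mapU] at e
  exact (cancel_mono _).1 e

theorem KD.exact_of_map_eq (hk : KD K L) {φ ψ : K ⟶ L} (e : Q.map φ = Q.map ψ) :
    ∃ h, Hg (-1) h ∧ mapU φ - mapU ψ = dl (-1) h := by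
  have h0 : cl 0 (mapU φ - mapU ψ) = 0 := by
    rw [cl0_sub (hg_mapU _) (dl_mapU _) (hg_mapU _) (dl_mapU _), cl_mapU, cl_mapU, e, sub_self]
  obtain ⟨h, hh, e'⟩ := hk.inj 0 _ (hg_sub (hg_mapU φ) (hg_mapU ψ))
    (by rw [dl_sub, dl_mapU, dl_mapU, sub_zero]) h0
  exact ⟨h, hh.of_eq (by omega), e'⟩

theorem cl0_kd_iff : KD K L ↔ ∀ n : ℤ, Function.Bijective
    (fun f : (HomotopyCategory.quotient A (ComplexShape.up ℤ)).obj K ⟶
      (HomotopyCategory.quotient A (ComplexShape.up ℤ)).obj (L⟦n⟧) => Qh.map f) := by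
  constructor
  · intro hk n
    constructor
    · intro f g hfg
      obtain ⟨x, hx⟩ := (CohomologyClass.toHom_bijective K L n).2 (f - g)
      obtain ⟨z, rfl⟩ := x.mk_surjective
      have h0 : cl_c z = 0 := by
        rw [cl_c_eq_zero_iff, hx, Functor.map_sub, sub_eq_zero]
        exact hfg
      have h1 := hk.inj n _ (hg_toU _) (cl0_hd z) (by rw [cl0_toU, h0])
      rw [← cl0_mem_iff, ← CohomologyClass.toHom_mk_eq_zero_iff, hx] at h1
      exact sub_eq_zero.1 h1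
    · intro φ
      obtain ⟨f, hf, hd, e⟩ := hk.surj n ((quotientCompQhIso A).inv.app K ≫ φ ≫
        (quotientCompQhIso A).hom.app (L⟦n⟧) ≫ (Q.commShiftIso n).hom.app L)
      obtain ⟨z, rfl⟩ := cl0_exists hf hd
      rw [cl0_toU, cl_c_eq] at e
      exact ⟨_, (cancel_mono _).1 ((cancel_epi _).1 e)⟩
  · intro hb
    constructor
    · intro n φ
      obtain ⟨g, hg⟩ := (hb n).2 ((quotientCompQhIso A).hom.app K ≫ φ ≫
        (Q.commShiftIso n).inv.app L ≫ (quotientCompQhIso A).inv.app (L⟦n⟧))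
      obtain ⟨x, rfl⟩ := (CohomologyClass.toHom_bijective K L n).2 g
      obtain ⟨z, rfl⟩ := x.mk_surjective
      refine ⟨_, hg_toU _, cl0_hd z, ?_⟩
      have hg' : Qh.map (CohomologyClass.toHom (CohomologyClass.mk z)) = _ := hg
      rw [cl0_toU, cl_c_eq, hg']
      simp
    · intro n f hf hd e
      obtain ⟨z, rfl⟩ := cl0_exists hf hd
      rw [cl0_toU, cl_c_eq_zero_iff] at e
      rw [← cl0_mem_iff, ← CohomologyClass.toHom_mk_eq_zero_iff]
      refine (hb n).1 ?_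
      have h0 : Qh.map (0 : (HomotopyCategory.quotient A (ComplexShape.up ℤ)).obj K ⟶
        (HomotopyCategory.quotient A (ComplexShape.up ℤ)).obj (L⟦n⟧)) = 0 := Functor.map_zero _ _ _
      exact e.trans h0.symm

theorem kd_iff : KD K L ↔ ∀ n : ℤ, Function.Bijective
    (fun f : (HomotopyCategory.quotient A (ComplexShape.up ℤ)).obj K ⟶
      ((HomotopyCategory.quotient A (ComplexShape.up ℤ)).obj L)⟦n⟧ => Qh.map f) := by
  rw [cl0_kd_iff]
  refine forall_congr' fun n => ⟨fun h => ?_, fun h => ?_⟩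
  · exact cl_bij_iso Qh _
      (((HomotopyCategory.quotient A (ComplexShape.up ℤ)).commShiftIso n).app L) h
  · exact cl_bij_iso Qh _
      (((HomotopyCategory.quotient A (ComplexShape.up ℤ)).commShiftIso n).app L).symm h

theorem kd_of_isKInjective [L.IsKInjective] : KD K L := by
  rw [cl0_kd_iff]
  intro n
  exact CochainComplex.IsKInjective.Qh_map_bijective _ (L⟦n⟧)

/-- composition with a quasi-isomorphism into a complex: surjectivity on cohomology -/
theorem KD.post_surj (hk : KD K L) (hk' : KD K L') (ψ : L ⟶ L') [QuasiIso ψ] {f : U K ⟶ U L'}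
    (hf : Hg n f) (hf' : dl n f = 0) :
    ∃ g h, Hg n g ∧ dl n g = 0 ∧ Hg (n - 1) h ∧ f = g ≫ mapU ψ + dl (n - 1) h := by
  obtain ⟨g, hg, hg', e⟩ := hk.surj n (cl n f ≫ inv ((Q.map ψ)⟦n⟧'))
  have h1 : Hg n (g ≫ mapU ψ) := hg.comp (hg_mapU ψ) (add_zero n)
  have h2 : dl n (g ≫ mapU ψ) = 0 := by rw [dl_comp_mapU, hg', zero_comp]
  obtain ⟨h, hh, e'⟩ := hk'.inj n (f - g ≫ mapU ψ) (hg_sub hf h1)
    (by rw [dl_sub, hf', h2, sub_zero])
    (by rw [cl0_sub hf hf' h1 h2, cl_postcomp ψ hg hg', e, Category.assoc, IsIso.inv_hom_id,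
      Category.comp_id, sub_self])
  exact ⟨g, h, hg, hg', hh, by rw [← e', add_sub_cancel]⟩

end Pool.Agent.Work.MP_910138_ag.C0
end

-- merged part: Pool.Agent.Work.MP_910138_ag.C0.RepD
section
/-! Strict realisations of a graded category by complexes. -/

open CategoryTheory Limits CochainComplex.HomComplex

namespace Pool.Agent.Work.MP_910138_ag.C0

universe v u

variable {k R S : Type} [Field k] [Ring R] [Algebra k R] {𝒞 : GCat k R S}
  {A : Type u} [Category.{v} A] [Abelian A] [HasCoproductsOfShape ℤ A] [Linear k A]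

variable (𝒞 A) in
/-- a strict linear realisation by closed homogeneous maps -/
structure Rep where
  W : S → Cx A
  ρ : ∀ s t, R →ₗ[k] (U (W s) ⟶ U (W t))
  hg : ∀ {s t : S} {n : ℤ} {a : R}, a ∈ 𝒞.sub s t n → Hg n (ρ s t a)
  cl : ∀ {s t : S} {n : ℤ} {a : R}, a ∈ 𝒞.sub s t n → dl n (ρ s t a) = 0
  mul : ∀ {s t u : S} {n m : ℤ} {a b : R}, a ∈ 𝒞.sub s t n → b ∈ 𝒞.sub t u m →
    ρ s u (a * b) = ρ s t a ≫ ρ t u b
  one : ∀ s, ρ s s 1 = 𝟙 _

variable (Γ : Rep 𝒞 A)

/-- the realisation is a quasi-isomorphism on Hom-complexes, which compute the morphisms in the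
derived category -/
structure Rep.QFF [HasDerivedCategory A] : Prop where
  surj : ∀ (s t : S) (n : ℤ) (φ : U (Γ.W s) ⟶ U (Γ.W t)), Hg n φ → dl n φ = 0 →
    ∃ a ∈ 𝒞.sub s t n, ∃ ψ, Hg (n - 1) ψ ∧ φ = Γ.ρ s t a + dl (n - 1) ψ
  inj : ∀ (s t : S) (n : ℤ) (a : R), a ∈ 𝒞.sub s t n → ∀ ψ, Hg (n - 1) ψ →
    Γ.ρ s t a = dl (n - 1) ψ → a = 0
  kd : ∀ s t, KD (Γ.W s) (Γ.W t)

/-- realisation of the entries of a matrix -/
noncomputable def Rep.rl {X Y : Gn S} (f : Matrix X.G Y.G R) (x : X.G) (y : Y.G) :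
    U (Γ.W (X.lab x)) ⟶ U (Γ.W (Y.lab y)) := Γ.ρ _ _ (f x y)

section

variable {X Y Z : Gn S} {n m : ℤ}

theorem Rep.rl_mul {f : Matrix X.G Y.G R} {g : Matrix Y.G Z.G R} (hf : SP 𝒞 X Y n f)
    (hg : SP 𝒞 Y Z m g) (x : X.G) (z : Z.G) :
    Γ.rl (f * g) x z = ∑ y, Γ.rl f x y ≫ Γ.rl g y z := by
  rw [Rep.rl, Matrix.mul_apply, map_sum]
  exact Finset.sum_congr rfl fun y _ => Γ.mul (hf x y) (hg y z)

end

theorem Rep.tw (Z : Ob 𝒞) : Tw (fun x => Γ.W (Z.lab x)) Z.deg (Γ.rl (X := Z.toGn) Z.D) where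
  hg x y := (Γ.hg (Z.sp x y)).of_eq (by omega)
  cl x y := by
    have := Γ.cl (Z.sp x y)
    rwa [show 1 + Z.deg x - Z.deg y = Z.deg x + 1 - Z.deg y by omega] at this
  sq x z := by rw [← Γ.rl_mul Z.sp Z.sp, Z.sq, Rep.rl, Matrix.zero_apply, map_zero]
  tri x y h := by
    by_contra hc
    exact h (by rw [Rep.rl, Z.sp.eq_zero (by omega), map_zero])

/-- the total complex of an object -/
noncomputable def Rep.totObj (Z : Ob 𝒞) : Cx A := tot (Γ.tw Z)

/-- its structure -/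
noncomputable def Rep.ts (Z : Ob 𝒞) :
    TotStr (Γ.totObj Z) (fun x => Γ.W (Z.lab x)) Z.deg (Γ.rl (X := Z.toGn) Z.D) := totStr (Γ.tw Z)

/-- realisation of a matrix -/
noncomputable def Rep.realU (X Y : Ob 𝒞) :
    Matrix X.G Y.G R →ₗ[k] (U (Γ.totObj X) ⟶ U (Γ.totObj Y)) where
  toFun f := asm (Γ.ts X) (Γ.ts Y) (Γ.rl f)
  map_add' f g := by
    rw [← asm_add]
    congr 1
    funext x y
    exact map_add (Γ.ρ _ _) _ _
  map_smul' c f := by
    rw [RingHom.id_apply, ← asm_smul]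
    congr 1
    funext x y
    exact map_smul (Γ.ρ _ _) _ _

section

variable {X Y Z : Ob 𝒞} {n m : ℤ}

theorem Rep.realU_apply (f : Matrix X.G Y.G R) :
    Γ.realU X Y f = asm (Γ.ts X) (Γ.ts Y) (Γ.rl f) := rfl

theorem Rep.hg_realU {f : Matrix X.G Y.G R} (hf : SP 𝒞 X.toGn Y.toGn n f) :
    Hg n (Γ.realU X Y f) := hg_asm _ _ fun x y => Γ.hg (hf x y)

theorem Rep.realU_mul {f : Matrix X.G Y.G R} {g : Matrix Y.G Z.G R}
    (hf : SP 𝒞 X.toGn Y.toGn n f) (hg : SP 𝒞 Y.toGn Z.toGn m g) :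
    Γ.realU X Z (f * g) = Γ.realU X Y f ≫ Γ.realU Y Z g := by
  rw [Rep.realU_apply, Rep.realU_apply, Rep.realU_apply, asm_comp]
  congr 1
  funext x z
  exact Γ.rl_mul hf hg x z

theorem Rep.dl_realU {f : Matrix X.G Y.G R} (hf : SP 𝒞 X.toGn Y.toGn n f) :
    dl n (Γ.realU X Y f) = Γ.realU X Y (dP X Y n f) := by
  rw [Rep.realU_apply, dl_asm, Rep.realU_apply]
  congr 1
  funext x y
  rw [← Γ.rl_mul hf Y.sp, ← Γ.rl_mul X.sp hf, Rep.rl, Γ.cl (hf x y), smul_zero, zero_add]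
  simp only [Rep.rl, dP, Matrix.sub_apply, Matrix.smul_apply, map_sub, map_zsmul]

theorem Rep.realU_one : Γ.realU X X 1 = 𝟙 _ := by
  refine asm_ext (Γ.ts X) (Γ.ts X) fun x y => ?_
  rw [Rep.realU_apply, inc_asm_pr, Category.id_comp, Rep.rl]
  by_cases h : x = y
  · subst h
    rw [Matrix.one_apply_eq, Γ.one, (Γ.ts X).inc_pr_self]
  · rw [Matrix.one_apply_ne h, map_zero, (Γ.ts X).inc_pr_ne x y h]

end

/-- the realisation functor -/
noncomputable def Rep.Tot : Ob 𝒞 ⥤ Cx A where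
  obj := Γ.totObj
  map {X Y} f := homU (Γ.realU X Y f.mat) (Γ.hg_realU f.sp) (by
    rw [Γ.dl_realU f.sp, Mor.dP f, map_zero])
  map_id Z := mapU_injective (by rw [mapU_homU, mapU_id, Ob.id_mat, Γ.realU_one])
  map_comp f g := mapU_injective (by
    rw [mapU_homU, mapU_comp, mapU_homU, mapU_homU, Ob.comp_mat, Γ.realU_mul f.sp g.sp])

theorem Rep.mapU_Tot_map {X Y : Ob 𝒞} (f : X ⟶ Y) :
    mapU (Γ.Tot.map f) = Γ.realU X Y f.mat := mapU_homU _ _ _

/-- the functor to the derived category -/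
noncomputable abbrev Rep.L [HasDerivedCategory A] : Ob 𝒞 ⥤ DerivedCategory A :=
  Γ.Tot ⋙ DerivedCategory.Q

/-- the chain map attached to an element of degree zero -/
noncomputable def Rep.ch {s t : S} {a : R} (ha : a ∈ 𝒞.sub s t 0) : Γ.W s ⟶ Γ.W t :=
  homU (Γ.ρ s t a) (Γ.hg ha) (Γ.cl ha)

theorem Rep.mapU_ch {s t : S} {a : R} (ha : a ∈ 𝒞.sub s t 0) : mapU (Γ.ch ha) = Γ.ρ s t a :=
  mapU_homU _ _ _

/-- restriction to a subcategory -/
def Rep.res {𝒞₀ : GCat k R S} (h : 𝒞₀.Le 𝒞) : Rep 𝒞₀ A where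
  W := Γ.W
  ρ := Γ.ρ
  hg ha := Γ.hg (h _ _ _ ha)
  cl ha := Γ.cl (h _ _ _ ha)
  mul ha hb := Γ.mul (h _ _ _ ha) (h _ _ _ hb)
  one := Γ.one

/-- bounded complexes with good terms and good image in the derived category -/
structure Nice [HasDerivedCategory A] (T : A → Prop) (P : ObjectProperty (DerivedCategory A))
    (K : Cx A) : Prop where
  ge : ∃ a : ℤ, K.IsStrictlyGE a
  le : ∃ b : ℤ, K.IsStrictlyLE b
  terms : ∀ n, T (K.X n)
  mem : P (DerivedCategory.Q.obj K)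

/-- a class of objects closed under finite sums -/
def SumClosed (T : A → Prop) : Prop :=
  ∀ (G : Type) [Fintype G] (M : G → A) (N : A), (∀ x, T (M x)) → Nonempty (N ≅ ⨁ M) → T N

end Pool.Agent.Work.MP_910138_ag.C0
end

-- merged part: Pool.Agent.Work.MP_910138_ag.C0.TotDev
section
/-! Devissage along the generators of a total complex. -/

open CategoryTheory Limits CochainComplex.HomComplex

namespace Pool.Agent.Work.MP_910138_ag.C0

universe v u

section Aux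

variable {A : Type u} [Category.{v} A] [Abelian A] [HasCoproductsOfShape ℤ A]

theorem totdev0_dl_shP (W : Cx A) (e : ℤ) : dl e (totdev_shP W e) = 0 := by
  refine U_ext fun p => ?_
  rw [dl, Preadditive.comp_sub, Preadditive.comp_zsmul, ιU_dU_assoc p (p + 1) rfl, totdev_ι_shP,
    ← Category.assoc, totdev_ι_shP, comp_zero]
  have h : ιU W (p + e) ≫ dU W -
      sg e • ((e.negOnePow • W.d (p + e) (p + 1 + e)) ≫ ιU W (p + 1 + e)) = 0 := by
    rw [Units.smul_def, Preadditive.zsmul_comp, ιU_dU (p + e) (p + 1 + e) (by omega)]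
    exact sub_eq_zero.2 (sg_smul_sg_smul e _).symm
  exact h

end Aux

section Rem

variable {A : Type u} [Category.{v} A] [Abelian A] [HasCoproductsOfShape ℤ A]
variable {G : Type} [Fintype G] {K K1 : Cx A} {W : G → Cx A} {deg : G → ℤ}
  {t : ∀ x y, U (W x) ⟶ U (W y)}

theorem totdev0_top (h : Tw W deg t) {x0 : G} (hx : ∀ y, deg y ≤ deg x0) (y : G) : t x0 y = 0 := by
  by_contra hne
  exact absurd (h.tri _ _ hne) (not_lt.2 (hx y))

theorem totdev0_tw (h : Tw W deg t) {x0 : G} [Fintype {y // y ≠ x0}] (h0 : ∀ y, t x0 y = 0) :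
    Tw (fun y : {y // y ≠ x0} => W y.1) (fun y => deg y.1) (fun x y => t x.1 y.1) where
  hg x y := h.hg x.1 y.1
  cl x y := h.cl x.1 y.1
  sq x z := by
    have := h.sq x.1 z.1
    rwa [totdev_sum x0, h0, comp_zero, zero_add] at this
  tri x y := h.tri x.1 y.1

variable (s : TotStr K W deg t) (x0 : G) [Fintype {y // y ≠ x0}]
  (s1 : TotStr K1 (fun y : {y // y ≠ x0} => W y.1) (fun y => deg y.1) (fun x y => t x.1 y.1))
  (h0 : ∀ y, t x0 y = 0)

/-- the inclusion of the top generator -/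
noncomputable def totdev0_i : (W x0)⟦-deg x0⟧ ⟶ K :=
  homU (totdev_shP (W x0) (-deg x0) ≫ s.inc x0)
    ((totdev_hg_shP _ _).comp (s.hinc x0) (by omega))
    (by
      rw [dl_comp _ _ (neg_add_cancel (deg x0)), totdev0_dl_shP, s.dl_inc]
      simp [h0])

/-- the projection onto the other generators -/
noncomputable def totdev0_p : K ⟶ K1 :=
  homU (∑ y : {y // y ≠ x0}, s.pr y.1 ≫ s1.inc y)
    (Hg.sum _ fun y _ => (s.hpr y.1).comp (s1.hinc y) (by simp))
    (by
      have e : ∀ y : {y // y ≠ x0}, dl 0 (s.pr y.1 ≫ s1.inc y) =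
          ∑ z : {y // y ≠ x0}, s.pr y.1 ≫ t y.1 z.1 ≫ s1.inc z -
            ∑ z : {y // y ≠ x0}, s.pr z.1 ≫ t z.1 y.1 ≫ s1.inc y := fun y => by
        rw [dl_comp _ _ (neg_add_cancel (deg y.1)), s.dl_pr, s1.dl_inc, Preadditive.neg_comp,
          Preadditive.zsmul_comp, smul_neg, sg_smul_sg_smul, totdev_sum x0 (M := U K ⟶ U (W y.1)),
          h0, comp_zero, zero_add, Preadditive.sum_comp, Preadditive.comp_sum, sub_eq_add_neg]
        simp only [Category.assoc]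
      rw [dl_sum]
      simp only [e, Finset.sum_sub_distrib]
      rw [Finset.sum_comm, sub_self])

/-- the graded section -/
noncomputable def totdev0_s : U K1 ⟶ U K := ∑ y : {y // y ≠ x0}, s1.pr y ≫ s.inc y.1

/-- the graded retraction -/
noncomputable def totdev0_r : U K ⟶ U ((W x0)⟦-deg x0⟧) :=
  s.pr x0 ≫ totdev_shI (W x0) (-deg x0)

omit [Fintype {y // y ≠ x0}] in
theorem totdev0_mapU_i :
    mapU (totdev0_i s x0 h0) = totdev_shP (W x0) (-deg x0) ≫ s.inc x0 := mapU_homU _ _ _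

theorem totdev0_mapU_p :
    mapU (totdev0_p s x0 s1 h0) = ∑ y : {y // y ≠ x0}, s.pr y.1 ≫ s1.inc y := mapU_homU _ _ _

theorem totdev0_hg_s : Hg 0 (totdev0_s s x0 s1) :=
  Hg.sum _ fun y _ => (s1.hpr y).comp (s.hinc y.1) (by simp)

omit [Fintype {y // y ≠ x0}] in
theorem totdev0_hg_r : Hg 0 (totdev0_r s x0) :=
  (s.hpr x0).comp (totdev_hg_shI _ _) (by omega)

theorem totdev0_inc_s (y : {y // y ≠ x0}) : s1.inc y ≫ totdev0_s s x0 s1 = s.inc y.1 := by
  rw [totdev0_s, Preadditive.comp_sum, Finset.sum_eq_single y]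
  · rw [s1.inc_pr_self_assoc]
  · intro b _ hb
    rw [s1.inc_pr_ne_assoc y b hb.symm, zero_comp]
  · simp

theorem totdev0_p_pr (y : {y // y ≠ x0}) : mapU (totdev0_p s x0 s1 h0) ≫ s1.pr y = s.pr y.1 := by
  rw [totdev0_mapU_p, Preadditive.sum_comp, Finset.sum_eq_single y]
  · rw [Category.assoc, s1.inc_pr_self, Category.comp_id]
  · intro b _ hb
    rw [Category.assoc, s1.inc_pr_ne b y hb, comp_zero]
  · simp

theorem totdev0_i_p : totdev0_i s x0 h0 ≫ totdev0_p s x0 s1 h0 = 0 := by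
  apply mapU_injective
  rw [mapU_comp, mapU_zero]
  refine s1.ext_to fun y => ?_
  rw [Category.assoc, totdev0_p_pr, totdev0_mapU_i, Category.assoc, s.inc_pr_ne x0 y.1 y.2.symm,
    comp_zero, zero_comp]

omit [Fintype {y // y ≠ x0}] in
theorem totdev0_i_r : mapU (totdev0_i s x0 h0) ≫ totdev0_r s x0 = 𝟙 _ := by
  rw [totdev0_mapU_i, totdev0_r, Category.assoc, s.inc_pr_self_assoc, totdev_shP_shI]

theorem totdev0_s_p : totdev0_s s x0 s1 ≫ mapU (totdev0_p s x0 s1 h0) = 𝟙 _ := by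
  refine s1.ext_to fun y => s1.ext_from fun x => ?_
  rw [Category.assoc, totdev0_p_pr, ← Category.assoc, totdev0_inc_s, Category.id_comp]
  by_cases hxy : x = y
  · subst hxy
    rw [s.inc_pr_self, s1.inc_pr_self]
  · rw [s.inc_pr_ne x.1 y.1 (fun e => hxy (Subtype.ext e)), s1.inc_pr_ne x y hxy]

theorem totdev0_total : totdev0_r s x0 ≫ mapU (totdev0_i s x0 h0) +
    mapU (totdev0_p s x0 s1 h0) ≫ totdev0_s s x0 s1 = 𝟙 _ := by
  rw [← s.total, totdev_sum x0, totdev0_mapU_i, totdev0_r, Category.assoc,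
    ← Category.assoc (totdev_shI _ _), totdev_shI_shP, Category.id_comp, totdev0_mapU_p,
    Preadditive.sum_comp]
  simp only [Category.assoc, totdev0_inc_s]

/-- the short complex obtained by removing a top generator -/
noncomputable def totdev0_S : ShortComplex (Cx A) :=
  ShortComplex.mk _ _ (totdev0_i_p s x0 s1 h0)

/-- it is degreewise split -/
noncomputable def totdev0_σ (n : ℤ) :
    ((totdev0_S s x0 s1 h0).map (HomologicalComplex.eval A _ n)).Splitting :=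
  totdev_split (totdev0_S s x0 s1 h0) (totdev0_r s x0) (totdev0_s s x0 s1) (totdev0_hg_r s x0)
    (totdev0_hg_s s x0 s1) (totdev0_i_r s x0 h0) (totdev0_s_p s x0 s1 h0) (totdev0_total s x0 s1 h0) n

theorem totdev0_shortExact : (totdev0_S s x0 s1 h0).ShortExact :=
  HomologicalComplex.shortExact_of_degreewise_shortExact _
    fun n => (totdev0_σ s x0 s1 h0 n).shortExact

theorem totdev0_isZero [IsEmpty G] (s : TotStr K W deg t) : IsZero K := by
  rw [IsZero.iff_id_eq_zero]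
  apply mapU_injective
  rw [mapU_id, mapU_zero, ← s.total]
  simp

end Rem

section Main

variable {A : Type u} [Category.{v} A] [Abelian A] [HasCoproductsOfShape ℤ A]

theorem totdev0_K (P : ObjectProperty (HomotopyCategory A (ComplexShape.up ℤ))) [P.IsTriangulated]
    [P.IsClosedUnderIsomorphisms] (N : ℕ) :
    ∀ (G : Type) [Fintype G] (K : Cx A) (W : G → Cx A) (deg : G → ℤ)
      (t : ∀ x y, U (W x) ⟶ U (W y)), Fintype.card G = N → TotStr K W deg t → Tw W deg t →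
      (∀ x, P ((HomotopyCategory.quotient A (ComplexShape.up ℤ)).obj (W x))) →
      P ((HomotopyCategory.quotient A (ComplexShape.up ℤ)).obj K) := by
  induction N using Nat.strong_induction_on with
  | _ N ih =>
    intro G _ K W deg t hN s h hP
    classical
    rcases isEmpty_or_nonempty G with hG | hG
    · exact P.prop_of_isZero (Functor.map_isZero _ (totdev0_isZero s))
    · obtain ⟨x0, hx⟩ := Finite.exists_max deg
      have h0 := totdev0_top h hx
      have h1 := totdev0_tw h h0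
      have hT := (HomotopyCategory.distinguished_iff_iso_trianglehOfDegreewiseSplit _).2
        ⟨_, totdev0_σ s x0 (totStr h1) h0, ⟨Iso.refl _⟩⟩
      refine P.ext_of_isTriangulatedClosed₂ _ hT ?_ ?_
      · exact P.prop_of_iso
          (((HomotopyCategory.quotient A (ComplexShape.up ℤ)).commShiftIso (-deg x0)).app
            (W x0)).symm (P.le_shift (-deg x0) _ (hP x0))
      · exact ih _ (hN ▸ totdev_card x0) _ _ _ _ _ rfl (totStr h1) h1 fun y => hP y.1

theorem totdev0_Q (N : ℕ) :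
    ∀ (G : Type) [Fintype G] (K K' : Cx A) (W W' : G → Cx A) (deg : G → ℤ)
      (t : ∀ x y, U (W x) ⟶ U (W y)) (t' : ∀ x y, U (W' x) ⟶ U (W' y)), Fintype.card G = N →
      ∀ (s : TotStr K W deg t) (s' : TotStr K' W' deg t'), Tw W deg t → Tw W' deg t' →
      ∀ (Φ : K ⟶ K') (α : ∀ x, W x ⟶ W' x), (∀ x, QuasiIso (α x)) →
      (∀ x, s.inc x ≫ mapU Φ ≫ s'.pr x = mapU (α x)) →
      (∀ x y, x ≠ y → s.inc x ≫ mapU Φ ≫ s'.pr y ≠ 0 → deg x < deg y) → QuasiIso Φ := by
  induction N using Nat.strong_induction_on with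
  | _ N ih =>
    intro G _ K K' W W' deg t t' hN s s' h h' Φ α hα hd ht
    classical
    rcases isEmpty_or_nonempty G with hG | hG
    · exact totdev_quasiIso_zero Φ (totdev0_isZero s) (totdev0_isZero s')
    · obtain ⟨x0, hx⟩ := Finite.exists_max deg
      have h0 := totdev0_top h hx
      have h0' := totdev0_top h' hx
      have h1 := totdev0_tw h h0
      have h1' := totdev0_tw h' h0'
      have sq1 : (α x0)⟦-deg x0⟧' ≫ totdev0_i s' x0 h0' = totdev0_i s x0 h0 ≫ Φ := by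
        apply mapU_injective
        rw [mapU_comp, mapU_comp, totdev0_mapU_i, totdev0_mapU_i, ← Category.assoc, totdev_shP_nat,
          Category.assoc, Category.assoc]
        congr 1
        refine s'.ext_to fun y => ?_
        by_cases hy : x0 = y
        · subst hy
          rw [Category.assoc, Category.assoc, hd, s'.inc_pr_self, Category.comp_id]
        · rw [Category.assoc, Category.assoc, s'.inc_pr_ne x0 y hy, comp_zero]
          by_contra hne
          exact absurd (ht x0 y hy (Ne.symm hne)) (not_lt.2 (hx y))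
      set ψ := totdev0_s s x0 (totStr h1) ≫ mapU Φ ≫ mapU (totdev0_p s' x0 (totStr h1') h0')
        with hψ
      have hpψ : mapU (totdev0_p s x0 (totStr h1) h0) ≫ ψ =
          mapU Φ ≫ mapU (totdev0_p s' x0 (totStr h1') h0') := by
        have e : mapU (totdev0_i s x0 h0) ≫ mapU Φ ≫ mapU (totdev0_p s' x0 (totStr h1') h0')
            = 0 := by
          rw [← mapU_comp, ← mapU_comp, ← Category.assoc, ← sq1, Category.assoc, totdev0_i_p,
            comp_zero, mapU_zero]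
        rw [← Category.id_comp (mapU Φ ≫ _), ← totdev0_total s x0 (totStr h1) h0,
          Preadditive.add_comp, Category.assoc, e, comp_zero, zero_add, Category.assoc]
      have hgψ : Hg 0 ψ :=
        (totdev0_hg_s _ _ _).comp ((hg_mapU _).comp (hg_mapU _) rfl) rfl
      have hdψ : dl 0 ψ = 0 := by
        have e := congrArg (dl 0) hpψ
        rw [dl_mapU_comp, ← mapU_comp, dl_mapU] at e
        rw [← Category.id_comp (dl 0 ψ), ← totdev0_s_p s x0 (totStr h1) h0, Category.assoc, e,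
          comp_zero]
      have sq2 : Φ ≫ totdev0_p s' x0 (totStr h1') h0' =
          totdev0_p s x0 (totStr h1) h0 ≫ homU ψ hgψ hdψ := by
        apply mapU_injective
        rw [mapU_comp, mapU_comp, mapU_homU, hpψ]
      have hc : ∀ x y, (totStr h1).inc x ≫ mapU (homU ψ hgψ hdψ) ≫ (totStr h1').pr y =
          s.inc x.1 ≫ mapU Φ ≫ s'.pr y.1 := by
        intro x y
        rw [mapU_homU, hψ, Category.assoc, Category.assoc, totdev0_p_pr, ← Category.assoc,
          totdev0_inc_s]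
      have q3 : QuasiIso (homU ψ hgψ hdψ) := by
        refine ih _ (hN ▸ totdev_card x0) _ _ _ _ _ _ _ _ rfl (totStr h1) (totStr h1') h1 h1' _
          (fun y => α y.1) (fun y => hα y.1) (fun x => ?_) (fun x y hxy hne => ?_)
        · rw [hc, hd]
        · rw [hc] at hne
          exact ht x.1 y.1 (fun e => hxy (Subtype.ext e)) hne
      have q1 : QuasiIso ((α x0)⟦-deg x0⟧') :=
        (CochainComplex.quasiIso_shift_iff (α x0) (-deg x0)).2 (hα x0)
      exact totdev_quasiIso₂ (S₁ := totdev0_S s x0 (totStr h1) h0)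
        (S₂ := totdev0_S s' x0 (totStr h1') h0')
        (ShortComplex.homMk ((α x0)⟦-deg x0⟧') Φ (homU ψ hgψ hdψ) sq1 sq2)
        (totdev0_shortExact _ _ _ _) (totdev0_shortExact _ _ _ _) q1 q3

end Main

variable {A : Type u} [Category.{v} A] [Abelian A] [HasCoproductsOfShape ℤ A]

variable {G : Type} [Fintype G] {K K' : Cx A} {W W' : G → Cx A} {deg : G → ℤ}
  {t : ∀ x y, U (W x) ⟶ U (W y)} {t' : ∀ x y, U (W' x) ⟶ U (W' y)}

theorem TotStr.devissage_K (s : TotStr K W deg t) (h : Tw W deg t)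
    (P : ObjectProperty (HomotopyCategory A (ComplexShape.up ℤ))) [P.IsTriangulated]
    [P.IsClosedUnderIsomorphisms]
    (hP : ∀ x, P ((HomotopyCategory.quotient A (ComplexShape.up ℤ)).obj (W x))) :
    P ((HomotopyCategory.quotient A (ComplexShape.up ℤ)).obj K) := by
  exact totdev0_K P _ G K W deg t rfl s h hP

theorem TotStr.devissage_D [HasDerivedCategory A] (s : TotStr K W deg t) (h : Tw W deg t)
    (P : ObjectProperty (DerivedCategory A)) [P.IsTriangulated] [P.IsClosedUnderIsomorphisms]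
    (hP : ∀ x, P (DerivedCategory.Q.obj (W x))) : P (DerivedCategory.Q.obj K) := by
  exact P.prop_of_iso ((DerivedCategory.quotientCompQhIso A).app K)
    (s.devissage_K h (P.inverseImage DerivedCategory.Qh) fun x =>
      P.prop_of_iso ((DerivedCategory.quotientCompQhIso A).app (W x)).symm (hP x))

theorem quasiIso_of_tri (s : TotStr K W deg t) (s' : TotStr K' W' deg t') (h : Tw W deg t)
    (h' : Tw W' deg t') (Φ : K ⟶ K') (α : ∀ x, W x ⟶ W' x) (hα : ∀ x, QuasiIso (α x))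
    (hd : ∀ x, s.inc x ≫ mapU Φ ≫ s'.pr x = mapU (α x))
    (ht : ∀ x y, x ≠ y → s.inc x ≫ mapU Φ ≫ s'.pr y ≠ 0 → deg x < deg y) : QuasiIso Φ := by
  exact totdev0_Q _ G K K' W W' deg t t' rfl s s' h h' Φ α hα hd ht

end Pool.Agent.Work.MP_910138_ag.C0
end

-- merged part: Pool.Agent.Work.MP_910138_ag.C0.RepS
section
/-! Compatibility of the realisation with shifts and cones. -/

open CategoryTheory Limits CochainComplex.HomComplex Pretriangulated

namespace Pool.Agent.Work.MP_910138_ag.C0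

universe v u

section shift

variable {A : Type u} [Category.{v} A] [Abelian A] [HasCoproductsOfShape ℤ A]
  {K L : Cx A}

/-- the identification of a complex with its shift -/
noncomputable def reps_sI (K : Cx A) : U K ⟶ U (K⟦(1 : ℤ)⟧) :=
  toU ((Cochain.ofHom (𝟙 K)).rightShift 1 (-1) (neg_add_cancel 1))

/-- the inverse identification -/
noncomputable def reps_sP (K : Cx A) : U (K⟦(1 : ℤ)⟧) ⟶ U K :=
  toU ((Cochain.ofHom (𝟙 (K⟦(1 : ℤ)⟧))).rightUnshift 1 (zero_add 1))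

theorem reps_toU_id : toU (Cochain.ofHom (𝟙 K)) = 𝟙 _ := mapU_id

theorem reps_toU_rightUnshift {n n' : ℤ} (γ : Cochain K (L⟦(1 : ℤ)⟧) n') (h : n' + 1 = n) :
    toU (γ.rightUnshift n h) = toU γ ≫ reps_sP L := by
  have e := Cochain.rightUnshift_comp γ (Cochain.ofHom (𝟙 (L⟦(1 : ℤ)⟧))) (add_zero n') n h 1
    (zero_add 1)
  rw [Cochain.comp_id] at e
  rw [e, toU_comp, reps_sP]

set_option backward.isDefEq.respectTransparency false in
theorem reps_toU_rightShift {n n' : ℤ} (γ : Cochain K L n) (h : n' + 1 = n) :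
    toU (γ.rightShift 1 n' h) = toU γ ≫ reps_sI L := by
  refine U_ext fun p => ?_
  rw [ιU_toU _ p _ rfl, ιU_toU_assoc _ p _ rfl, reps_sI, ιU_toU _ (p + n) (p + n') (by omega),
    Cochain.rightShift_v _ _ _ _ _ _ _ (p + n) rfl,
    Cochain.rightShift_v _ _ _ _ _ _ _ (p + n) (add_zero _)]
  simp

@[reassoc]
theorem reps_sI_sP : reps_sI K ≫ reps_sP K = 𝟙 _ := by
  rw [reps_sI, ← reps_toU_rightUnshift _ (neg_add_cancel 1), Cochain.rightUnshift_rightShift,
    reps_toU_id]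

@[reassoc]
theorem reps_sP_sI : reps_sP K ≫ reps_sI K = 𝟙 _ := by
  rw [reps_sP, ← reps_toU_rightShift _ (zero_add 1), Cochain.rightShift_rightUnshift,
    reps_toU_id]

set_option backward.isDefEq.respectTransparency false in
@[reassoc]
theorem reps_sI_nat (φ : K ⟶ L) : reps_sI K ≫ mapU (φ⟦(1 : ℤ)⟧') = mapU φ ≫ reps_sI L := by
  refine U_ext fun p => ?_
  rw [ιU_mapU_assoc, reps_sI, reps_sI, ιU_toU_assoc _ p (p + -1) rfl, ιU_mapU,
    ιU_toU _ p (p + -1) rfl, Cochain.rightShift_v _ _ _ _ _ _ _ p (add_zero _),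
    Cochain.rightShift_v _ _ _ _ _ _ _ p (add_zero _)]
  simp [CochainComplex.shiftFunctorObjXIso, HomologicalComplex.XIsoOfEq_inv_naturality_assoc]

theorem reps_dl_sI : dl (-1) (reps_sI K) = 0 := by
  rw [reps_sI, ← toU_δ _ (neg_add_cancel 1), Cochain.δ_rightShift _ 1 (-1) 0 _ 1 (zero_add 1),
    δ_ofHom, Cochain.rightShift_zero, smul_zero, toU_zero]

/-- the opposite identification -/
noncomputable def reps_nI (K : Cx A) : U K ⟶ U (K⟦(1 : ℤ)⟧) := -reps_sI K

/-- the opposite inverse identification -/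
noncomputable def reps_nP (K : Cx A) : U (K⟦(1 : ℤ)⟧) ⟶ U K := -reps_sP K

@[reassoc]
theorem reps_nI_nP : reps_nI K ≫ reps_nP K = 𝟙 _ := by
  rw [reps_nI, reps_nP, Preadditive.neg_comp_neg, reps_sI_sP]

theorem reps_nP_nI : reps_nP K ≫ reps_nI K = 𝟙 _ := by
  rw [reps_nI, reps_nP, Preadditive.neg_comp_neg, reps_sP_sI]

theorem reps_nI_nat (φ : K ⟶ L) : reps_nI K ≫ mapU (φ⟦(1 : ℤ)⟧') = mapU φ ≫ reps_nI L := by
  rw [reps_nI, reps_nI, Preadditive.neg_comp, Preadditive.comp_neg, reps_sI_nat]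

theorem reps_dl_nI : dl (-1) (reps_nI K) = 0 := by rw [reps_nI, dl_neg, reps_dl_sI, neg_zero]

theorem reps_hg_nI : Hg (-1) (reps_nI K) := hg_neg (hg_toU _)

theorem reps_hg_nP : Hg 1 (reps_nP K) := hg_neg (hg_toU _)

theorem reps_mor₃ (φ : K ⟶ L) :
    mapU (CochainComplex.mappingCone.triangle φ).mor₃ =
      toU (CochainComplex.mappingCone.fst φ).1 ≫ reps_nI K := by
  have h : Cochain.ofHom (CochainComplex.mappingCone.triangle φ).mor₃ =
      (-(CochainComplex.mappingCone.fst φ).1).rightShift 1 0 (zero_add 1) :=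
    Cocycle.cochain_ofHom_homOf_eq_coe _
  rw [reps_nI, Preadditive.comp_neg, ← Preadditive.neg_comp, ← toU_neg,
    ← reps_toU_rightShift _ (zero_add 1)]
  exact congrArg toU h

end shift

section totstr

variable {A : Type u} [Category.{v} A] [Abelian A] [HasCoproductsOfShape ℤ A]
  {G : Type} [Fintype G] {K K' : Cx A} {W : G → Cx A} {deg deg' : G → ℤ}
  {t t' : ∀ x y, U (W x) ⟶ U (W y)}

/-- the shifted structure -/
noncomputable def reps_sh (s : TotStr K W deg t) (ht : ∀ x y, t' x y = -t x y) :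
    TotStr (K⟦(1 : ℤ)⟧) W (fun x => deg x - 1) t' where
  inc x := s.inc x ≫ reps_nI K
  pr x := reps_nP K ≫ s.pr x
  hinc x := (s.hinc x).comp reps_hg_nI (by omega)
  hpr x := reps_hg_nP.comp (s.hpr x) (by omega)
  inc_pr_self x := by rw [Category.assoc, reps_nI_nP_assoc, s.inc_pr_self]
  inc_pr_ne x y h := by rw [Category.assoc, reps_nI_nP_assoc, s.inc_pr_ne x y h]
  total := by
    have h : ∑ x, (reps_nP K ≫ s.pr x) ≫ s.inc x ≫ reps_nI K =
        reps_nP K ≫ (∑ x, s.pr x ≫ s.inc x) ≫ reps_nI K := by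
      simp only [Preadditive.sum_comp, Preadditive.comp_sum, Category.assoc]
    rw [h, s.total, Category.id_comp, reps_nP_nI]
  dl_inc x := by
    rw [dl_comp _ _ (show deg x + -1 = deg x - 1 by omega), reps_dl_nI, comp_zero, zero_add,
      s.dl_inc, Preadditive.sum_comp, sg_neg_one, neg_smul, one_smul]
    simp only [Category.assoc, ht, Preadditive.neg_comp, Finset.sum_neg_distrib]

/-- comparison of two structures with the same data -/
noncomputable def reps_cmp (s : TotStr K W deg t) (s' : TotStr K' W deg' t') : U K ⟶ U K' :=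
  ∑ x, s.pr x ≫ s'.inc x

@[reassoc]
theorem reps_inc_cmp (s : TotStr K W deg t) (s' : TotStr K' W deg' t') (x : G) :
    s.inc x ≫ reps_cmp s s' = s'.inc x := by
  rw [reps_cmp, Preadditive.comp_sum, Finset.sum_eq_single x]
  · rw [s.inc_pr_self_assoc]
  · intro b _ hb
    rw [s.inc_pr_ne_assoc x b hb.symm, zero_comp]
  · simp

theorem reps_hg_cmp (s : TotStr K W deg t) (s' : TotStr K' W deg' t') (hd : ∀ x, deg x = deg' x) :
    Hg 0 (reps_cmp s s') :=
  Hg.sum _ fun x _ => (s.hpr x).comp (s'.hinc x) (by rw [hd x]; omega)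

theorem reps_dl_cmp (s : TotStr K W deg t) (s' : TotStr K' W deg' t') (hd : ∀ x, deg x = deg' x)
    (ht : ∀ x y, t x y = t' x y) : dl 0 (reps_cmp s s') = 0 := by
  refine s.ext_from fun x => ?_
  have h := dl_comp (s.inc x) (reps_cmp s s') (show deg x + 0 = deg' x by rw [add_zero, hd])
  rw [reps_inc_cmp, s'.dl_inc, s.dl_inc, Preadditive.sum_comp, sg_zero, one_smul] at h
  simp only [Category.assoc, reps_inc_cmp, ht] at h
  rw [comp_zero]
  exact (right_eq_add.1 h)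

/-- the isomorphism between two total complexes of the same data -/
noncomputable def reps_iso (s : TotStr K W deg t) (s' : TotStr K' W deg' t')
    (hd : ∀ x, deg x = deg' x) (ht : ∀ x y, t x y = t' x y) : K ≅ K' where
  hom := homU (reps_cmp s s') (reps_hg_cmp s s' hd) (reps_dl_cmp s s' hd ht)
  inv := homU (reps_cmp s' s) (reps_hg_cmp s' s fun x => (hd x).symm)
    (reps_dl_cmp s' s (fun x => (hd x).symm) fun x y => (ht x y).symm)
  hom_inv_id := mapU_injective (by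
    rw [mapU_comp, mapU_homU, mapU_homU, mapU_id]
    refine s.ext_from fun x => ?_
    rw [reps_inc_cmp_assoc, reps_inc_cmp, Category.comp_id])
  inv_hom_id := mapU_injective (by
    rw [mapU_comp, mapU_homU, mapU_homU, mapU_id]
    refine s'.ext_from fun x => ?_
    rw [reps_inc_cmp_assoc, reps_inc_cmp, Category.comp_id])

@[reassoc]
theorem reps_inc_iso (s : TotStr K W deg t) (s' : TotStr K' W deg' t')
    (hd : ∀ x, deg x = deg' x) (ht : ∀ x y, t x y = t' x y) (x : G) :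
    s.inc x ≫ mapU (reps_iso s s' hd ht).hom = s'.inc x := by
  rw [reps_iso, mapU_homU, reps_inc_cmp]

end totstr

section cone

open CochainComplex.mappingCone

variable {A : Type u} [Category.{v} A] [Abelian A] [HasCoproductsOfShape ℤ A]
  {K L : Cx A} (φ : K ⟶ L)

@[reassoc]
theorem reps_inl_fst : toU (inl φ) ≫ toU (fst φ).1 = 𝟙 _ := by
  rw [← toU_comp _ _ (neg_add_cancel 1), inl_fst, reps_toU_id]

@[reassoc]
theorem reps_inl_snd : toU (inl φ) ≫ toU (snd φ) = 0 := by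
  rw [← toU_comp _ _ (add_zero (-1)), inl_snd, toU_zero]

@[reassoc]
theorem reps_inr_fst : mapU (inr φ) ≫ toU (fst φ).1 = 0 := by
  rw [mapU, ← toU_comp _ _ (zero_add 1), inr_fst, toU_zero]

@[reassoc]
theorem reps_inr_snd : mapU (inr φ) ≫ toU (snd φ) = 𝟙 _ := by
  rw [mapU, ← toU_comp _ _ (zero_add 0), inr_snd, reps_toU_id]

theorem reps_cone_total :
    toU (fst φ).1 ≫ toU (inl φ) + toU (snd φ) ≫ mapU (inr φ) = 𝟙 _ := by
  rw [mapU, ← toU_comp _ _ (add_neg_cancel 1), ← toU_comp _ _ (add_zero 0), ← toU_add,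
    CochainComplex.mappingCone.id, reps_toU_id]

theorem reps_dl_inl : dl (-1) (toU (inl φ)) = mapU φ ≫ mapU (inr φ) := by
  rw [← toU_δ _ (neg_add_cancel 1), δ_inl, ← mapU_comp, mapU]

variable {G G' : Type} [Fintype G] [Fintype G'] {W : G ⊕ G' → Cx A} {deg : G → ℤ} {deg' : G' → ℤ}
  {T : ∀ x y, U (W x) ⟶ U (W y)} {t : ∀ x y : G, U (W (Sum.inl x)) ⟶ U (W (Sum.inl y))}

/-- the structure of the mapping cone -/
noncomputable def reps_cone
    (s : TotStr K (fun x => W (Sum.inl x)) deg t)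
    (s' : TotStr L (fun x => W (Sum.inr x)) deg' fun x y => T (Sum.inr x) (Sum.inr y))
    (hφ : ∀ x, s.inc x ≫ mapU φ = ∑ y, T (Sum.inl x) (Sum.inr y) ≫ s'.inc y)
    (h0 : ∀ x y, T (Sum.inr x) (Sum.inl y) = 0)
    (ht : ∀ x y, T (Sum.inl x) (Sum.inl y) = -t x y) :
    TotStr (CochainComplex.mappingCone φ) W (Sum.elim (fun x => deg x - 1) deg') T where
  inc
    | Sum.inl x => s.inc x ≫ toU (inl φ)
    | Sum.inr y => s'.inc y ≫ mapU (inr φ)
  pr
    | Sum.inl x => toU (fst φ).1 ≫ s.pr x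
    | Sum.inr y => toU (snd φ) ≫ s'.pr y
  hinc
    | Sum.inl x => (s.hinc x).comp (hg_toU _) (by simp only [Sum.elim_inl]; omega)
    | Sum.inr y => (s'.hinc y).comp (hg_mapU _) (by simp only [Sum.elim_inr]; omega)
  hpr
    | Sum.inl x => (hg_toU _).comp (s.hpr x) (by simp only [Sum.elim_inl]; omega)
    | Sum.inr y => (hg_toU _).comp (s'.hpr y) (by simp only [Sum.elim_inr]; omega)
  inc_pr_self
    | Sum.inl x => by
      dsimp only
      rw [Category.assoc, reps_inl_fst_assoc, s.inc_pr_self]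
    | Sum.inr y => by
      dsimp only
      rw [Category.assoc, reps_inr_snd_assoc, s'.inc_pr_self]
  inc_pr_ne
    | Sum.inl x, Sum.inl y, h => by
      dsimp only
      rw [Category.assoc, reps_inl_fst_assoc, s.inc_pr_ne x y fun e => h (congrArg _ e)]
    | Sum.inl x, Sum.inr y, _ => by
      dsimp only
      rw [Category.assoc, reps_inl_snd_assoc, zero_comp, comp_zero]
    | Sum.inr x, Sum.inl y, _ => by
      dsimp only
      rw [Category.assoc, reps_inr_fst_assoc, zero_comp, comp_zero]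
    | Sum.inr x, Sum.inr y, h => by
      dsimp only
      rw [Category.assoc, reps_inr_snd_assoc, s'.inc_pr_ne x y fun e => h (congrArg _ e)]
  total := by
    rw [Fintype.sum_sum_type]
    dsimp only
    have h1 : ∑ x, (toU (fst φ).1 ≫ s.pr x) ≫ s.inc x ≫ toU (inl φ) =
        toU (fst φ).1 ≫ (∑ x, s.pr x ≫ s.inc x) ≫ toU (inl φ) := by
      simp only [Preadditive.sum_comp, Preadditive.comp_sum, Category.assoc]
    have h2 : ∑ x, (toU (snd φ) ≫ s'.pr x) ≫ s'.inc x ≫ mapU (inr φ) =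
        toU (snd φ) ≫ (∑ x, s'.pr x ≫ s'.inc x) ≫ mapU (inr φ) := by
      simp only [Preadditive.sum_comp, Preadditive.comp_sum, Category.assoc]
    rw [h1, h2, s.total, s'.total, Category.id_comp, Category.id_comp, reps_cone_total]
  dl_inc
    | Sum.inl x => by
      rw [Fintype.sum_sum_type]
      dsimp only [Sum.elim_inl]
      rw [dl_comp _ _ (show deg x + -1 = deg x - 1 by omega), s.dl_inc, reps_dl_inl,
        reassoc_of% (hφ x), sg_neg_one, neg_smul, one_smul, add_comm]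
      simp only [Preadditive.sum_comp, Category.assoc, ht, Preadditive.neg_comp,
        Finset.sum_neg_distrib]
    | Sum.inr y => by
      rw [Fintype.sum_sum_type]
      dsimp only [Sum.elim_inr]
      rw [dl_comp_mapU, s'.dl_inc]
      simp only [Preadditive.sum_comp, Category.assoc, h0, zero_comp, Finset.sum_const_zero,
        zero_add]

end cone

section real

variable {k R S : Type} [Field k] [Ring R] [Algebra k R] {𝒞 : GCat k R S}
  {A : Type u} [Category.{v} A] [Abelian A] [HasCoproductsOfShape ℤ A] [Linear k A]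
  (Γ : Rep 𝒞 A)

/-- the inverse shift on objects -/
abbrev reps_up (Z : Ob 𝒞) : Ob 𝒞 where
  G := Z.G
  lab := Z.lab
  deg x := Z.deg x + 1
  D := -Z.D
  sp x y := by
    have := neg_mem (Z.sp x y)
    rwa [show 1 + Z.deg x - Z.deg y = 1 + (Z.deg x + 1) - (Z.deg y + 1) by omega] at this
  sq := by rw [Matrix.neg_mul, Matrix.mul_neg, neg_neg, Z.sq]

/-- the shift of the inverse shift -/
def reps_upIso (Z : Ob 𝒞) : shObj (reps_up Z) ≅ Z where
  hom :=
    { mat := (1 : Matrix Z.G Z.G R)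
      sp := fun x y => by
        have := SP.one (𝒞 := 𝒞) (X := Z.toGn) x y
        rwa [show 0 + Z.deg x - Z.deg y = 0 + (Z.deg x + 1 - 1) - Z.deg y by omega] at this
      cl := by
        change (1 : Matrix Z.G Z.G R) * Z.D = - -Z.D * 1
        rw [neg_neg, Matrix.one_mul, Matrix.mul_one] }
  inv :=
    { mat := (1 : Matrix Z.G Z.G R)
      sp := fun x y => by
        have := SP.one (𝒞 := 𝒞) (X := Z.toGn) x y
        rwa [show 0 + Z.deg x - Z.deg y = 0 + Z.deg x - (Z.deg y + 1 - 1) by omega] at this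
      cl := by
        change (1 : Matrix Z.G Z.G R) * - -Z.D = Z.D * 1
        rw [neg_neg, Matrix.one_mul, Matrix.mul_one] }
  hom_inv_id := Ob.hom_ext (Matrix.one_mul (1 : Matrix Z.G Z.G R))
  inv_hom_id := Ob.hom_ext (Matrix.one_mul (1 : Matrix Z.G Z.G R))

theorem reps_rl_zero {Y Y' : Gn S} {g : Matrix Y.G Y'.G R} {x : Y.G} {y : Y'.G} (h : g x y = 0) :
    Γ.rl g x y = 0 := by
  rw [Rep.rl, h, map_zero]

theorem reps_rl_sh (Z : Ob 𝒞) (x y : Z.G) :
    Γ.rl (X := (shObj Z).toGn) (shObj Z).D x y = -Γ.rl (X := Z.toGn) Z.D x y :=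
  map_neg (Γ.ρ _ _) (Z.D x y)

/-- the total complex of the shift -/
noncomputable def reps_shIso (Z : Ob 𝒞) : Γ.totObj (shObj Z) ≅ (Γ.totObj Z)⟦(1 : ℤ)⟧ :=
  reps_iso (Γ.ts (shObj Z)) (reps_sh (Γ.ts Z) (reps_rl_sh Γ Z)) (fun _ => rfl) (fun _ _ => rfl)

theorem reps_inc_shIso (Z : Ob 𝒞) (x : Z.G) :
    (Γ.ts (shObj Z)).inc x ≫ mapU (reps_shIso Γ Z).hom = (Γ.ts Z).inc x ≫ reps_nI _ :=
  reps_inc_iso (Γ.ts (shObj Z)) (reps_sh (Γ.ts Z) (reps_rl_sh Γ Z)) (fun _ => rfl) (fun _ _ => rfl) x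

theorem reps_inc_map {Z Z' : Ob 𝒞} (f : Z ⟶ Z') (x : Z.G) :
    (Γ.ts Z).inc x ≫ mapU (Γ.Tot.map f) = ∑ y, Γ.rl (X := Z.toGn) (Y := Z'.toGn) f.mat x y ≫ (Γ.ts Z').inc y :=
  (congrArg (_ ≫ ·) (Γ.mapU_Tot_map f)).trans (inc_asm _ _ _ x)

theorem reps_sh_nat {Z Z' : Ob 𝒞} (f : Z ⟶ Z') :
    Γ.Tot.map ((shFun 𝒞).map f) ≫ (reps_shIso Γ Z').hom =
      (reps_shIso Γ Z).hom ≫ (Γ.Tot.map f)⟦(1 : ℤ)⟧' := by
  apply mapU_injective
  refine (mapU_comp _ _).trans (Eq.trans ?_ (mapU_comp _ _).symm)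
  refine (Γ.ts (shObj Z)).ext_from fun x => ?_
  have h1 : (Γ.ts (shObj Z)).inc x ≫ mapU (Γ.Tot.map ((shFun 𝒞).map f)) =
      ∑ y : Z'.G, Γ.rl (X := Z.toGn) (Y := Z'.toGn) f.mat x y ≫ (Γ.ts (shObj Z')).inc y :=
    reps_inc_map Γ ((shFun 𝒞).map f) x
  have h2 : (Γ.ts (shObj Z)).inc x ≫ mapU (Γ.Tot.map ((shFun 𝒞).map f)) ≫
      mapU (reps_shIso Γ Z').hom =
      ∑ y : Z'.G, Γ.rl (X := Z.toGn) (Y := Z'.toGn) f.mat x y ≫ (Γ.ts Z').inc y ≫ reps_nI _ := by
    refine ((Category.assoc _ _ _).symm.trans (congrArg (· ≫ _) h1)).trans ?_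
    refine (Preadditive.sum_comp _ _ _).trans (Finset.sum_congr rfl fun y _ => ?_)
    exact (Category.assoc _ _ _).trans (congrArg (_ ≫ ·) (reps_inc_shIso Γ Z' y))
  have h3 : (Γ.ts (shObj Z)).inc x ≫ mapU (reps_shIso Γ Z).hom ≫
      mapU ((Γ.Tot.map f)⟦(1 : ℤ)⟧') =
      ∑ y : Z'.G, Γ.rl (X := Z.toGn) (Y := Z'.toGn) f.mat x y ≫ (Γ.ts Z').inc y ≫ reps_nI _ := by
    refine ((Category.assoc _ _ _).symm.trans (congrArg (· ≫ _) (reps_inc_shIso Γ Z x))).trans ?_
    refine (Category.assoc _ _ _).trans ((congrArg (_ ≫ ·) (reps_nI_nat (Γ.Tot.map f))).trans ?_)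
    refine ((Category.assoc _ _ _).symm.trans (congrArg (· ≫ _) (reps_inc_map Γ f x))).trans ?_
    refine (Preadditive.sum_comp _ _ _).trans (Finset.sum_congr rfl fun y _ => ?_)
    exact Category.assoc _ _ _
  exact h2.trans h3.symm

/-- the realisation commutes with the shift -/
noncomputable def reps_shNat :
    shFun 𝒞 ⋙ Γ.Tot ≅ Γ.Tot ⋙ shiftFunctor (Cx A) (1 : ℤ) :=
  NatIso.ofComponents (fun Z => reps_shIso Γ Z) fun f => reps_sh_nat Γ f

section

variable {Z Z' : Ob 𝒞} (f : Z ⟶ Z')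

/-- the structure of the mapping cone of the realisation -/
noncomputable def reps_tsC : TotStr (CochainComplex.mappingCone (Γ.Tot.map f))
    (fun x => Γ.W ((coneObj f).lab x)) (Sum.elim (fun x => Z.deg x - 1) Z'.deg)
    (Γ.rl (X := (coneObj f).toGn) (coneObj f).D) :=
  reps_cone (G := Z.G) (G' := Z'.G) (W := fun x => Γ.W ((coneObj f).lab x))
    (T := Γ.rl (X := (coneObj f).toGn) (coneObj f).D) (Γ.Tot.map f) (Γ.ts Z) (Γ.ts Z')
    (reps_inc_map Γ f) (fun _ _ => map_zero (Γ.ρ _ _)) (reps_rl_sh Γ Z)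

/-- the total complex of the cone -/
noncomputable def reps_coneIso :
    Γ.totObj (coneObj f) ≅ CochainComplex.mappingCone (Γ.Tot.map f) :=
  reps_iso (Γ.ts (coneObj f)) (reps_tsC Γ f) (fun _ => rfl) (fun _ _ => rfl)

theorem reps_inc_cone_inl (x : Z.G) :
    (Γ.ts (coneObj f)).inc (Sum.inl x) ≫ mapU (reps_coneIso Γ f).hom =
      (Γ.ts Z).inc x ≫ toU (CochainComplex.mappingCone.inl (Γ.Tot.map f)) :=
  reps_inc_iso (Γ.ts (coneObj f)) (reps_tsC Γ f) (fun _ => rfl) (fun _ _ => rfl) (Sum.inl x)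

theorem reps_inc_cone_inr (x : Z'.G) :
    (Γ.ts (coneObj f)).inc (Sum.inr x) ≫ mapU (reps_coneIso Γ f).hom =
      (Γ.ts Z').inc x ≫ mapU (CochainComplex.mappingCone.inr (Γ.Tot.map f)) :=
  reps_inc_iso (Γ.ts (coneObj f)) (reps_tsC Γ f) (fun _ => rfl) (fun _ _ => rfl) (Sum.inr x)

theorem reps_inc_inr (x : Z'.G) :
    (Γ.ts Z').inc x ≫ mapU (Γ.Tot.map (coneInr f)) = (Γ.ts (coneObj f)).inc (Sum.inr x) := by
  refine (reps_inc_map Γ (coneInr f) x).trans ?_
  refine (Finset.sum_eq_single (show (coneObj f).G from Sum.inr x) ?_ ?_).trans ?_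
  · rintro (y | y) _ hy
    · exact (congrArg (· ≫ _) (reps_rl_zero Γ rfl)).trans zero_comp
    · exact (congrArg (· ≫ _) (reps_rl_zero Γ
        (Matrix.one_apply_ne (n := Z'.G) fun e => hy (congrArg _ e.symm)))).trans zero_comp
  · intro h
    exact absurd (Finset.mem_univ _) h
  · have h : Γ.rl (X := Z'.toGn) (Y := (coneObj f).toGn) (coneInr f).mat x (Sum.inr x) = 𝟙 _ :=
      (congrArg (Γ.ρ _ _) (Matrix.one_apply_eq (n := Z'.G) x)).trans (Γ.one _)
    exact (congrArg (· ≫ _) h).trans (Category.id_comp _)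

theorem reps_inl_fstM (x : Z.G) :
    (Γ.ts (coneObj f)).inc (Sum.inl x) ≫ mapU (Γ.Tot.map (coneFst f)) =
      (Γ.ts (shObj Z)).inc x := by
  refine (reps_inc_map Γ (coneFst f) (Sum.inl x)).trans ?_
  refine (Finset.sum_eq_single (show (shObj Z).G from x) ?_ ?_).trans ?_
  · intro y _ hy
    exact (congrArg (· ≫ _) (reps_rl_zero Γ
      (Matrix.one_apply_ne (n := Z.G) fun e => hy e.symm))).trans zero_comp
  · intro h
    exact absurd (Finset.mem_univ _) h
  · have h : Γ.rl (X := (coneObj f).toGn) (Y := (shObj Z).toGn) (coneFst f).mat (Sum.inl x) x =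
        𝟙 _ := (congrArg (Γ.ρ _ _) (Matrix.one_apply_eq (n := Z.G) x)).trans (Γ.one _)
    exact (congrArg (· ≫ _) h).trans (Category.id_comp _)

theorem reps_inr_fstM (x : Z'.G) :
    (Γ.ts (coneObj f)).inc (Sum.inr x) ≫ mapU (Γ.Tot.map (coneFst f)) = 0 := by
  refine (reps_inc_map Γ (coneFst f) (Sum.inr x)).trans ?_
  refine Finset.sum_eq_zero fun y _ => ?_
  exact (congrArg (· ≫ _) (reps_rl_zero Γ rfl)).trans zero_comp

theorem reps_comm₂ : Γ.Tot.map (coneInr f) ≫ (reps_coneIso Γ f).hom =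
    CochainComplex.mappingCone.inr (Γ.Tot.map f) := by
  apply mapU_injective
  refine (mapU_comp _ _).trans ?_
  refine (Γ.ts Z').ext_from fun x => ?_
  refine ((Category.assoc _ _ _).symm.trans (congrArg (· ≫ _) (reps_inc_inr Γ f x))).trans ?_
  exact reps_inc_cone_inr Γ f x

theorem reps_comm₃ : Γ.Tot.map (coneFst f) ≫ (reps_shIso Γ Z).hom =
    (reps_coneIso Γ f).hom ≫ (CochainComplex.mappingCone.triangle (Γ.Tot.map f)).mor₃ := by
  apply mapU_injective
  refine (mapU_comp _ _).trans (Eq.trans ?_ (mapU_comp _ _).symm)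
  refine Eq.trans ?_ (congrArg (_ ≫ ·) (reps_mor₃ (Γ.Tot.map f))).symm
  refine (Γ.ts (coneObj f)).ext_from ?_
  rintro (x | x)
  · refine ((Category.assoc _ _ _).symm.trans (congrArg (· ≫ _) (reps_inl_fstM Γ f x))).trans ?_
    refine (reps_inc_shIso Γ Z x).trans (Eq.symm ?_)
    refine ((Category.assoc _ _ _).symm.trans
      (congrArg (· ≫ _) (reps_inc_cone_inl Γ f x))).trans ?_
    exact (Category.assoc _ _ _).trans (congrArg (_ ≫ ·) (reps_inl_fst_assoc _ _))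
  · refine ((Category.assoc _ _ _).symm.trans (congrArg (· ≫ _) (reps_inr_fstM Γ f x))).trans ?_
    refine zero_comp.trans (Eq.symm ?_)
    refine ((Category.assoc _ _ _).symm.trans
      (congrArg (· ≫ _) (reps_inc_cone_inr Γ f x))).trans ?_
    refine (Category.assoc _ _ _).trans ((congrArg (_ ≫ ·) (reps_inr_fst_assoc _ _)).trans ?_)
    exact (congrArg (_ ≫ ·) zero_comp).trans comp_zero

end

end real

variable {k R S : Type} [Field k] [Ring R] [Algebra k R] {𝒞 : GCat k R S}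
  {A : Type u} [Category.{v} A] [Abelian A] [HasCoproductsOfShape ℤ A] [Linear k A]
  [HasDerivedCategory A]

instance shFun_essSurj : (shFun 𝒞).EssSurj :=
  ⟨fun Z => ⟨reps_up Z, ⟨reps_upIso Z⟩⟩⟩

theorem Rep.exists_shift_cone (Γ : Rep 𝒞 A) :
    ∃ e : shFun 𝒞 ⋙ Γ.L ≅ Γ.L ⋙ shiftFunctor (DerivedCategory A) (1 : ℤ),
      ∀ (X Y : Ob 𝒞) (f : X ⟶ Y), Triangle.mk (Γ.L.map f) (Γ.L.map (coneInr f))
        (Γ.L.map (coneFst f) ≫ e.hom.app X) ∈ distTriang (DerivedCategory A) := by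
  refine ⟨Functor.isoWhiskerRight (reps_shNat Γ) DerivedCategory.Q ≪≫
    Functor.isoWhiskerLeft Γ.Tot (DerivedCategory.Q.commShiftIso (1 : ℤ)), fun Z Z' f => ?_⟩
  refine isomorphic_distinguished _
    (DerivedCategory.mappingCone_triangle_distinguished (Γ.Tot.map f)) _ ?_
  refine Triangle.isoMk _ _ (Iso.refl _) (Iso.refl _)
    (DerivedCategory.Q.mapIso (reps_coneIso Γ f)) ?_ ?_ ?_
  · exact (Category.comp_id _).trans (Category.id_comp _).symm
  · refine Eq.trans ?_ (Category.id_comp _).symm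
    exact (DerivedCategory.Q.map_comp _ _).symm.trans (congrArg _ (reps_comm₂ Γ f))
  · have h := ((DerivedCategory.Q (C := A)).map_comp _ _).symm.trans
      ((congrArg (DerivedCategory.Q (C := A)).map (reps_comm₃ Γ f)).trans
        ((DerivedCategory.Q (C := A)).map_comp _ _))
    have h' : (DerivedCategory.Q.map (Γ.Tot.map (coneFst f)) ≫
        DerivedCategory.Q.map (reps_shIso Γ Z).hom ≫
          (DerivedCategory.Q.commShiftIso (1 : ℤ)).hom.app (Γ.totObj Z)) ≫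
            (𝟙 (DerivedCategory.Q.obj (Γ.totObj Z)))⟦(1 : ℤ)⟧' =
        DerivedCategory.Q.map (reps_coneIso Γ f).hom ≫
          DerivedCategory.Q.map (CochainComplex.mappingCone.triangle (Γ.Tot.map f)).mor₃ ≫
            (DerivedCategory.Q.commShiftIso (1 : ℤ)).hom.app (Γ.totObj Z) := by
      rw [(shiftFunctor (DerivedCategory A) (1 : ℤ)).map_id]
      refine (Category.comp_id _).trans ?_
      exact (Category.assoc _ _ _).symm.trans ((congrArg (· ≫ _) h).trans (Category.assoc _ _ _))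
    exact h'

end Pool.Agent.Work.MP_910138_ag.C0
end

-- merged part: Pool.Agent.Work.MP_910138_ag.C0.Exot2
section
/-! Two full functors with the same kernel and image differ by an exact autoequivalence. -/

open CategoryTheory Limits Pretriangulated

namespace Pool.Agent.Work.MP_910138_ag.C0

universe v u v' u'

variable {k : Type} [Field k] {T : Type u} [Category.{v} T] {D : Type u'} [Category.{v'} D]
  [HasZeroObject D] [Preadditive D] [HasShift D ℤ] [∀ n : ℤ, (shiftFunctor D n).Additive]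
  [Pretriangulated D] [Linear k D]

theorem exot2_abstract (M N : T ⥤ D) [M.Full] [M.EssSurj] [N.Full] [N.EssSurj]
    (hker : ∀ (Z Z' : T) (f g : Z ⟶ Z'), M.map f = M.map g ↔ N.map f = N.map g) (sh : T ⥤ T)
    (eM : sh ⋙ M ≅ M ⋙ shiftFunctor D (1 : ℤ)) (eN : sh ⋙ N ≅ N ⋙ shiftFunctor D (1 : ℤ))
    (cone : ∀ (Z Z' : T) (f : Z ⟶ Z'), ∃ (C : T) (i : Z' ⟶ C) (p : C ⟶ sh.obj Z),
      Triangle.mk (M.map f) (M.map i) (M.map p ≫ eM.hom.app Z) ∈ distTriang D ∧
      Triangle.mk (N.map f) (N.map i) (N.map p ≫ eN.hom.app Z) ∈ distTriang D)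
    (lin : ∀ (Z : T) (c : k), ∃ u : Z ⟶ Z, M.map u = c • 𝟙 _ ∧ N.map u = c • 𝟙 _) :
    ∃ (F : D ⥤ D) (_ : F.CommShift ℤ), F.IsTriangulated ∧ F.IsEquivalence ∧
      (∀ (P Q : D) (c : k) (φ ψ : P ⟶ Q), F.map (c • φ + ψ) = c • F.map φ + F.map ψ) ∧
      Nonempty (M ⋙ F ≅ N) := by
  obtain ⟨F, ⟨α⟩⟩ := exot_descend M N fun Z Z' f g => (hker Z Z' f g).1
  obtain ⟨a, ha⟩ : ∃ a : ∀ Z : T, F.obj (M.obj Z) ≅ N.obj Z,
      ∀ (Z Z' : T) (f : Z ⟶ Z'), F.map (M.map f) ≫ (a Z').hom = (a Z).hom ≫ N.map f :=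
    ⟨fun Z => α.app Z, fun Z Z' f => α.hom.naturality f⟩
  obtain ⟨ε, hε, hεe⟩ : ∃ ε : ∀ Z : T, M.obj (sh.obj Z) ≅ (M.obj Z)⟦(1 : ℤ)⟧,
      (∀ (Z Z' : T) (f : Z ⟶ Z'),
        M.map (sh.map f) ≫ (ε Z').hom = (ε Z).hom ≫ (M.map f)⟦(1 : ℤ)⟧') ∧
      ∀ Z, eM.hom.app Z = (ε Z).hom :=
    ⟨fun Z => eM.app Z, fun Z Z' f => eM.hom.naturality f, fun _ => rfl⟩
  obtain ⟨τ, hτ, hτe⟩ : ∃ τ : ∀ Z : T, N.obj (sh.obj Z) ≅ (N.obj Z)⟦(1 : ℤ)⟧,
      (∀ (Z Z' : T) (f : Z ⟶ Z'),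
        N.map (sh.map f) ≫ (τ Z').hom = (τ Z).hom ≫ (N.map f)⟦(1 : ℤ)⟧') ∧
      ∀ Z, eN.hom.app Z = (τ Z).hom :=
    ⟨fun Z => eN.app Z, fun Z Z' f => eN.hom.naturality f, fun _ => rfl⟩
  obtain ⟨γ, hγ⟩ := exot_descend_iso M (shiftFunctor D (1 : ℤ) ⋙ F) (F ⋙ shiftFunctor D (1 : ℤ))
    (fun Z => F.mapIso (ε Z).symm ≪≫ a (sh.obj Z) ≪≫ τ Z ≪≫
      (shiftFunctor D (1 : ℤ)).mapIso (a Z).symm) (by
      intro Z Z' f
      change F.map ((M.map f)⟦(1 : ℤ)⟧') ≫ F.map (ε Z').inv ≫ (a (sh.obj Z')).hom ≫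
          (τ Z').hom ≫ ((a Z').inv)⟦(1 : ℤ)⟧' =
        (F.map (ε Z).inv ≫ (a (sh.obj Z)).hom ≫ (τ Z).hom ≫ ((a Z).inv)⟦(1 : ℤ)⟧') ≫
            (F.map (M.map f))⟦(1 : ℤ)⟧'
      have h1 : (M.map f)⟦(1 : ℤ)⟧' ≫ (ε Z').inv = (ε Z).inv ≫ M.map (sh.map f) := by
        rw [Iso.comp_inv_eq, Category.assoc, hε, Iso.inv_hom_id_assoc]
      have h2 : N.map f ≫ (a Z').inv = (a Z).inv ≫ F.map (M.map f) := by
        rw [Iso.comp_inv_eq, Category.assoc, ha, Iso.inv_hom_id_assoc]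
      rw [← Category.assoc, ← F.map_comp, h1, F.map_comp, Category.assoc,
        ← Category.assoc (F.map (M.map _)), ha, Category.assoc,
        ← Category.assoc (N.map (sh.map _)), hτ, Category.assoc, ← Functor.map_comp, h2,
        Functor.map_comp]
      simp only [Category.assoc])
  obtain ⟨inst, hinst⟩ := commShift_of_iso F γ
  have htri : F.IsTriangulated := by
    refine ⟨fun T₀ hT₀ => ?_⟩
    obtain ⟨Z, ⟨φ⟩⟩ := Functor.EssSurj.mem_essImage M T₀.obj₁
    obtain ⟨Z', ⟨φ'⟩⟩ := Functor.EssSurj.mem_essImage M T₀.obj₂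
    obtain ⟨f, hf⟩ := exot_lift M φ φ' T₀.mor₁
    obtain ⟨C, i, p, h1, h2⟩ := cone Z Z' f
    have iso1 := isoTriangleOfIso₁₂ _ _ h1 hT₀ φ φ' hf
    refine isomorphic_distinguished _ ?_ _ (F.mapTriangle.mapIso iso1).symm
    refine isomorphic_distinguished _ h2 _ (Triangle.isoMk _ _ (a Z) (a Z') (a C) (ha _ _ f)
      (ha _ _ i) ?_)
    have h3 : (F.commShiftIso (1 : ℤ)).hom.app (M.obj Z) =
        F.map (ε Z).inv ≫ (a (sh.obj Z)).hom ≫ (τ Z).hom ≫ ((a Z).inv)⟦(1 : ℤ)⟧' := by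
      rw [hinst]
      exact hγ Z
    change (F.map (M.map p ≫ eM.hom.app Z) ≫ (F.commShiftIso (1 : ℤ)).hom.app (M.obj Z)) ≫
        ((a Z).hom)⟦(1 : ℤ)⟧' = (a C).hom ≫ N.map p ≫ eN.hom.app Z
    rw [h3, hεe, hτe]
    have h4 : F.map (M.map p ≫ (ε Z).hom) ≫ F.map (ε Z).inv = F.map (M.map p) := by
      rw [← F.map_comp]
      simp
    have h5 : ((a Z).inv)⟦(1 : ℤ)⟧' ≫ ((a Z).hom)⟦(1 : ℤ)⟧' = 𝟙 _ := by
      rw [← Functor.map_comp]
      simp
    have h6 : (F.map (M.map p ≫ (ε Z).hom) ≫ F.map (ε Z).inv ≫ (a (sh.obj Z)).hom ≫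
            (τ Z).hom ≫ ((a Z).inv)⟦(1 : ℤ)⟧') ≫ ((a Z).hom)⟦(1 : ℤ)⟧' =
        (a C).hom ≫ N.map p ≫ (τ Z).hom := by
      simp only [Category.assoc]
      rw [h5, Category.comp_id, ← Category.assoc, h4, ← Category.assoc, ha]
      simp only [Category.assoc]
    exact h6
  have hfull : F.Full := by
    refine ⟨fun {Y Y'} ψ => ?_⟩
    obtain ⟨Z, ⟨φ⟩⟩ := Functor.EssSurj.mem_essImage M Y
    obtain ⟨Z', ⟨φ'⟩⟩ := Functor.EssSurj.mem_essImage M Y'
    obtain ⟨f, hf⟩ := exot_lift N ((a Z).symm ≪≫ F.mapIso φ) ((a Z').symm ≪≫ F.mapIso φ') ψ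
    refine ⟨φ.inv ≫ M.map f ≫ φ'.hom, ?_⟩
    have h1 : F.map (M.map f) = (a Z).hom ≫ N.map f ≫ (a Z').inv := by
      rw [← Category.assoc, ← ha, Category.assoc, Iso.hom_inv_id, Category.comp_id]
    change N.map f ≫ (a Z').inv ≫ F.map φ'.hom = ((a Z).inv ≫ F.map φ.hom) ≫ ψ at hf
    rw [F.map_comp, F.map_comp, h1, Category.assoc, Category.assoc, hf, Category.assoc,
      Iso.hom_inv_id_assoc, ← Category.assoc, ← F.map_comp, Iso.inv_hom_id, F.map_id,
      Category.id_comp]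
  have hfaith : F.Faithful := by
    refine ⟨fun {Y Y'} ψ ψ' h => ?_⟩
    obtain ⟨Z, ⟨φ⟩⟩ := Functor.EssSurj.mem_essImage M Y
    obtain ⟨Z', ⟨φ'⟩⟩ := Functor.EssSurj.mem_essImage M Y'
    obtain ⟨f, hf⟩ := exot_lift M φ φ' ψ
    obtain ⟨g, hg⟩ := exot_lift M φ φ' ψ'
    have h1 : F.map (M.map f) = F.map (M.map g) := by
      rw [← cancel_mono (F.map φ'.hom), ← F.map_comp, ← F.map_comp, hf, hg, F.map_comp,
        F.map_comp, h]
    have h2 : N.map f = N.map g := by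
      rw [← cancel_epi (a Z).hom, ← ha, ← ha, h1]
    rw [← cancel_epi φ.hom, ← hf, ← hg, (hker Z Z' f g).2 h2]
  have hsurj : F.EssSurj := by
    refine ⟨fun Y => ?_⟩
    obtain ⟨Z, ⟨φ⟩⟩ := Functor.EssSurj.mem_essImage N Y
    exact ⟨M.obj Z, ⟨a Z ≪≫ φ⟩⟩
  refine ⟨F, inst, htri, {}, fun P Q c φ ψ => ?_, ⟨α⟩⟩
  obtain ⟨Z, ⟨θ⟩⟩ := Functor.EssSurj.mem_essImage M P
  obtain ⟨u, hu, hu'⟩ := lin Z c
  have h1 : F.map (M.map u) = c • 𝟙 _ := by
    rw [← cancel_mono (a Z).hom, ha, hu']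
    simp
  have h2 : c • φ = θ.inv ≫ M.map u ≫ θ.hom ≫ φ := by
    rw [hu]
    simp
  rw [F.map_add, h2, F.map_comp, F.map_comp, h1, Linear.smul_comp, Category.id_comp,
    Linear.comp_smul, ← F.map_comp, Iso.inv_hom_id_assoc]

omit [Linear k D] in
/-- The shift isomorphism and the triangles lift to a triangulated subcategory. -/
theorem exot2_lift (P : ObjectProperty D) [P.IsTriangulated] (G : T ⥤ D)
    (hG : ∀ Z, P (G.obj Z)) (sh : T ⥤ T) (e : sh ⋙ G ≅ G ⋙ shiftFunctor D (1 : ℤ)) :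
    ∃ e' : sh ⋙ P.lift G hG ≅ P.lift G hG ⋙ shiftFunctor P.FullSubcategory (1 : ℤ),
      ∀ (Z Z' C : T) (f : Z ⟶ Z') (i : Z' ⟶ C) (p : C ⟶ sh.obj Z),
        Triangle.mk (G.map f) (G.map i) (G.map p ≫ e.hom.app Z) ∈ distTriang D →
        Triangle.mk ((P.lift G hG).map f) ((P.lift G hG).map i)
          ((P.lift G hG).map p ≫ e'.hom.app Z) ∈ distTriang P.FullSubcategory := by
  obtain ⟨ε, hε⟩ : ∃ ε : ∀ Z : T,
      (P.lift G hG).obj (sh.obj Z) ≅ ((P.lift G hG).obj Z)⟦(1 : ℤ)⟧,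
      ∀ Z, P.ι.map (ε Z).hom ≫
        (P.ι.commShiftIso (1 : ℤ)).hom.app ((P.lift G hG).obj Z) = e.hom.app Z := by
    refine ⟨fun Z => P.fullyFaithfulι.preimageIso
      (e.app Z ≪≫ ((P.ι.commShiftIso (1 : ℤ)).app ((P.lift G hG).obj Z)).symm), ?_⟩
    intro Z
    have h : P.ι.map (P.fullyFaithfulι.preimageIso
        (X := (P.lift G hG).obj (sh.obj Z)) (Y := ((P.lift G hG).obj Z)⟦(1 : ℤ)⟧)
        (e.app Z ≪≫ ((P.ι.commShiftIso (1 : ℤ)).app ((P.lift G hG).obj Z)).symm)).hom =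
        e.hom.app Z ≫ (P.ι.commShiftIso (1 : ℤ)).inv.app ((P.lift G hG).obj Z) :=
      P.fullyFaithfulι.map_preimage _
    rw [h]
    exact (Category.assoc _ _ _).trans ((congrArg (e.hom.app Z ≫ ·)
      ((P.ι.commShiftIso (1 : ℤ)).inv_hom_id_app _)).trans (Category.comp_id _))
  have hnat : ∀ (Z Z' : T) (f : Z ⟶ Z'), (P.lift G hG).map (sh.map f) ≫ (ε Z').hom =
      (ε Z).hom ≫ ((P.lift G hG).map f)⟦(1 : ℤ)⟧' := by
    intro Z Z' f
    apply P.ι.map_injective
    rw [← cancel_mono ((P.ι.commShiftIso (1 : ℤ)).hom.app ((P.lift G hG).obj Z')),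
      Functor.map_comp, Functor.map_comp, Category.assoc, Category.assoc, hε,
      Functor.commShiftIso_hom_naturality, ← Category.assoc, hε]
    exact e.hom.naturality f
  refine ⟨NatIso.ofComponents (fun Z => ε Z) (fun f => hnat _ _ f), fun Z Z' C f i p h => ?_⟩
  have h' : P.ι.map ((P.lift G hG).map p ≫ (ε Z).hom) ≫
      (P.ι.commShiftIso (1 : ℤ)).hom.app ((P.lift G hG).obj Z) = G.map p ≫ e.hom.app Z := by
    rw [Functor.map_comp, Category.assoc, hε]
    rfl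
  change Triangle.mk (G.map f) (G.map i) (P.ι.map ((P.lift G hG).map p ≫ (ε Z).hom) ≫
      (P.ι.commShiftIso (1 : ℤ)).hom.app ((P.lift G hG).obj Z)) ∈ distTriang D
  rw [h']
  exact h

theorem exists_exotic2 (L G : T ⥤ D) [L.Full] [G.Full] [L.essImage.IsTriangulated]
    (him : G.essImage = L.essImage)
    (hker : ∀ (Z Z' : T) (f g : Z ⟶ Z'), L.map f = L.map g ↔ G.map f = G.map g) (sh : T ⥤ T)
    (eL : sh ⋙ L ≅ L ⋙ shiftFunctor D (1 : ℤ)) (eG : sh ⋙ G ≅ G ⋙ shiftFunctor D (1 : ℤ))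
    (cone : ∀ (Z Z' : T) (f : Z ⟶ Z'), ∃ (C : T) (i : Z' ⟶ C) (p : C ⟶ sh.obj Z),
      Triangle.mk (L.map f) (L.map i) (L.map p ≫ eL.hom.app Z) ∈ distTriang D ∧
      Triangle.mk (G.map f) (G.map i) (G.map p ≫ eG.hom.app Z) ∈ distTriang D)
    (lin : ∀ (Z : T) (c : k), ∃ u : Z ⟶ Z, L.map u = c • 𝟙 _ ∧ G.map u = c • 𝟙 _) :
    ∃ (F : L.essImage.FullSubcategory ⥤ L.essImage.FullSubcategory) (_ : F.CommShift ℤ),
      F.IsTriangulated ∧ F.IsEquivalence ∧
      (∀ (P Q : L.essImage.FullSubcategory) (c : k) (φ ψ : P ⟶ Q),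
        F.map (c • φ + ψ) = c • F.map φ + F.map ψ) ∧
      Nonempty (L.toEssImage ⋙ F ⋙ L.essImage.ι ≅ G) := by
  have hG : ∀ Z, L.essImage (G.obj Z) := fun Z => him ▸ Functor.obj_mem_essImage G Z
  obtain ⟨eM, hM⟩ := exot2_lift L.essImage L (Functor.obj_mem_essImage L) sh eL
  obtain ⟨eN, hN⟩ := exot2_lift L.essImage G hG sh eG
  have hsurj : (L.essImage.lift G hG).EssSurj := by
    refine ⟨fun Y => ?_⟩
    obtain ⟨Z, ⟨φ⟩⟩ : G.essImage Y.obj := (congrFun him Y.obj).mpr Y.property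
    exact ⟨Z, ⟨L.essImage.isoMk φ⟩⟩
  obtain ⟨F, inst, h1, h2, h3, ⟨α⟩⟩ := exot2_abstract (k := k) L.toEssImage (L.essImage.lift G hG)
    (fun Z Z' f g => ⟨fun h => L.essImage.ι.map_injective
        ((hker Z Z' f g).1 (congrArg L.essImage.ι.map h)),
      fun h => L.essImage.ι.map_injective ((hker Z Z' f g).2 (congrArg L.essImage.ι.map h))⟩)
    sh eM eN
    (fun Z Z' f => by
      obtain ⟨C, i, p, h1, h2⟩ := cone Z Z' f
      exact ⟨C, i, p, hM _ _ _ _ _ _ h1, hN _ _ _ _ _ _ h2⟩)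
    (fun Z c => by
      obtain ⟨u, h1, h2⟩ := lin Z c
      exact ⟨u, L.essImage.ι.map_injective h1, L.essImage.ι.map_injective h2⟩)
  exact ⟨F, inst, h1, h2, h3, ⟨(Functor.associator _ _ _).symm ≪≫
    Functor.isoWhiskerRight α L.essImage.ι ≪≫ L.essImage.liftCompιIso G hG⟩⟩

end Pool.Agent.Work.MP_910138_ag.C0
end

-- merged part: Pool.Agent.Work.MP_910138_ag.C0.MapT
section
/-! Transport of realisations along functors; morphisms of realisations. -/

open CategoryTheory Limits CochainComplex.HomComplex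

namespace Pool.Agent.Work.MP_910138_ag.C0

universe v u v' u'

variable {k R S : Type} [Field k] [Ring R] [Algebra k R] {𝒞 : GCat k R S}
  {A : Type u} [Category.{v} A] [Abelian A] [HasCoproductsOfShape ℤ A] [Linear k A]
  {B : Type u'} [Category.{v'} B] [Abelian B] [HasCoproductsOfShape ℤ B] [Linear k B]

/-- the category is concentrated in degree zero -/
def GCat.Deg0 (𝒞 : GCat k R S) : Prop := ∀ s t n, n ≠ 0 → 𝒞.sub s t n = ⊥

section

variable (Γ : Rep 𝒞 A) (h0 : 𝒞.Deg0) {T : Cx A ⥤ Cx B} (a : DGAct k T)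

theorem mapt_id (K : Cx A) : a.act 0 K K (𝟙 _) = 𝟙 _ := by
  rw [← mapU_id, a.act_mapU, T.map_id, mapU_id]

include h0 in
theorem mapt_cases {s t : S} {n : ℤ} {x : R} (hx : x ∈ 𝒞.sub s t n) : n = 0 ∨ x = 0 :=
  or_iff_not_imp_left.2 fun h => by rwa [h0 s t n h, Submodule.mem_bot] at hx

include h0 in
theorem mapt_comp {s t : S} {n m l : ℤ} {x : R} (hx : x ∈ 𝒞.sub s t n) {M : Cx A}
    {g : U (Γ.W t) ⟶ U M} (hg : Hg m g) (h : n + m = l) :
    a.act l _ _ (Γ.ρ s t x ≫ g) = a.act 0 _ _ (Γ.ρ s t x) ≫ a.act m _ _ g := by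
  rcases mapt_cases h0 hx with rfl | rfl
  · exact a.act_comp (Γ.hg hx) hg h
  · simp only [map_zero, zero_comp]

/-- the transported realisation -/
noncomputable def mapt_rep : Rep 𝒞 B where
  W s := T.obj (Γ.W s)
  ρ s t := a.act 0 _ _ ∘ₗ Γ.ρ s t
  hg hx := by
    rcases mapt_cases h0 hx with rfl | rfl
    · exact a.hg _ _
    · rw [map_zero]
      exact Hg.zero
  cl hx := by
    rcases mapt_cases h0 hx with rfl | rfl
    · rw [LinearMap.comp_apply, ← a.act_dl (Γ.hg hx) rfl, Γ.cl hx, map_zero]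
    · rw [map_zero, dl_zero]
  mul hx hy := by
    rcases mapt_cases h0 hx with rfl | rfl
    · rcases mapt_cases h0 hy with rfl | rfl
      · simp only [LinearMap.comp_apply]
        rw [Γ.mul hx hy, a.act_comp (Γ.hg hx) (Γ.hg hy) (add_zero 0)]
      · simp only [mul_zero, map_zero, comp_zero]
    · simp only [zero_mul, map_zero, zero_comp]
  one s := by rw [LinearMap.comp_apply, Γ.one, mapt_id]

/-- the transported structure -/
noncomputable def mapt_ts (Z : Ob 𝒞) : TotStr (T.obj (Γ.totObj Z))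
    (fun x => (mapt_rep Γ h0 a).W (Z.lab x)) Z.deg ((mapt_rep Γ h0 a).rl (X := Z.toGn) Z.D) where
  inc x := a.act (Z.deg x) _ _ ((Γ.ts Z).inc x)
  pr x := a.act (-Z.deg x) _ _ ((Γ.ts Z).pr x)
  hinc x := a.hg _ _
  hpr x := a.hg _ _
  inc_pr_self x :=
    (a.act_comp ((Γ.ts Z).hinc x) ((Γ.ts Z).hpr x) (add_neg_cancel _)).symm.trans
      ((congrArg _ ((Γ.ts Z).inc_pr_self x)).trans (mapt_id a _))
  inc_pr_ne x y h :=
    (a.act_comp ((Γ.ts Z).hinc x) ((Γ.ts Z).hpr y) rfl).symm.trans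
      ((congrArg _ ((Γ.ts Z).inc_pr_ne x y h)).trans (map_zero _))
  total := by
    rw [← mapt_id a, ← (Γ.ts Z).total, map_sum]
    exact Finset.sum_congr rfl fun x _ =>
      (a.act_comp ((Γ.ts Z).hpr x) ((Γ.ts Z).hinc x) (neg_add_cancel _)).symm
  dl_inc x := by
    refine (a.act_dl ((Γ.ts Z).hinc x) rfl).symm.trans ?_
    rw [(Γ.ts Z).dl_inc, map_sum]
    exact Finset.sum_congr rfl fun y _ =>
      mapt_comp Γ h0 a (Z.sp x y) ((Γ.ts Z).hinc y) (by omega)

theorem mapt_inc_map {Z Z' : Ob 𝒞} (f : Z ⟶ Z') (x : Z.G) :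
    (mapt_ts Γ h0 a Z).inc x ≫ mapU (T.map (Γ.Tot.map f)) =
      ∑ y, (mapt_rep Γ h0 a).rl (X := Z.toGn) (Y := Z'.toGn) f.mat x y ≫
        (mapt_ts Γ h0 a Z').inc y := by
  refine (congrArg (_ ≫ ·) (a.act_mapU _).symm).trans
    ((a.act_comp ((Γ.ts Z).hinc x) (hg_mapU _) (add_zero _)).symm.trans
      ((congrArg _ (reps_inc_map Γ f x)).trans ((map_sum _ _ _).trans ?_)))
  exact Finset.sum_congr rfl fun y _ =>
    mapt_comp Γ h0 a (f.sp x y) ((Γ.ts Z').hinc y) (by omega)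

/-- comparison of the total complexes -/
noncomputable def mapt_iso (Z : Ob 𝒞) : T.obj (Γ.totObj Z) ≅ (mapt_rep Γ h0 a).totObj Z :=
  reps_iso (mapt_ts Γ h0 a Z) ((mapt_rep Γ h0 a).ts Z) (fun _ => rfl) fun _ _ => rfl

theorem mapt_inc_iso (Z : Ob 𝒞) (x : Z.G) :
    (mapt_ts Γ h0 a Z).inc x ≫ mapU (mapt_iso Γ h0 a Z).hom = ((mapt_rep Γ h0 a).ts Z).inc x :=
  reps_inc_iso _ _ _ _ x

theorem mapt_nat {Z Z' : Ob 𝒞} (f : Z ⟶ Z') :
    T.map (Γ.Tot.map f) ≫ (mapt_iso Γ h0 a Z').hom =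
      (mapt_iso Γ h0 a Z).hom ≫ (mapt_rep Γ h0 a).Tot.map f := by
  apply mapU_injective
  refine (mapU_comp _ _).trans (Eq.trans ?_ (mapU_comp _ _).symm)
  refine (mapt_ts Γ h0 a Z).ext_from fun x => ?_
  refine ((Category.assoc _ _ _).symm.trans (congrArg (· ≫ _) (mapt_inc_map Γ h0 a f x))).trans
    (Eq.trans ?_ ((Category.assoc _ _ _).symm.trans
      ((congrArg (· ≫ _) (mapt_inc_iso Γ h0 a Z x)).trans (reps_inc_map _ f x))).symm)
  refine (Preadditive.sum_comp _ _ _).trans (Finset.sum_congr rfl fun y _ => ?_)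
  exact (Category.assoc _ _ _).trans (congrArg (_ ≫ ·) (mapt_inc_iso Γ h0 a Z' y))

end

theorem Rep.exists_mapT (Γ : Rep 𝒞 A) (h0 : 𝒞.Deg0) {T : Cx A ⥤ Cx B} (a : DGAct k T) :
    ∃ Γ' : Rep 𝒞 B, (∀ s, Γ'.W s = T.obj (Γ.W s)) ∧ Nonempty (Γ.Tot ⋙ T ≅ Γ'.Tot) := by
  exact ⟨mapt_rep Γ h0 a, fun _ => rfl,
    ⟨NatIso.ofComponents (mapt_iso Γ h0 a) fun f => mapt_nat Γ h0 a f⟩⟩

/-- a morphism of realisations -/
structure RepHom (Γ Γ' : Rep 𝒞 A) where
  α : ∀ s, Γ.W s ⟶ Γ'.W s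
  nat : ∀ {s t : S} {n : ℤ} {a : R}, a ∈ 𝒞.sub s t n →
    Γ.ρ s t a ≫ mapU (α t) = mapU (α s) ≫ Γ'.ρ s t a

section

variable {Γ Γ' : Rep 𝒞 A} (α : RepHom Γ Γ')

/-- the diagonal map of total complexes -/
noncomputable def mapt_diag (Z : Ob 𝒞) : U (Γ.totObj Z) ⟶ U (Γ'.totObj Z) :=
  ∑ x, (Γ.ts Z).pr x ≫ mapU (α.α (Z.lab x)) ≫ (Γ'.ts Z).inc x

@[reassoc]
theorem mapt_inc_diag (Z : Ob 𝒞) (x : Z.G) :
    (Γ.ts Z).inc x ≫ mapt_diag α Z = mapU (α.α (Z.lab x)) ≫ (Γ'.ts Z).inc x := by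
  rw [mapt_diag, Preadditive.comp_sum, Finset.sum_eq_single x]
  · rw [(Γ.ts Z).inc_pr_self_assoc]
  · intro y _ hy
    rw [(Γ.ts Z).inc_pr_ne_assoc x y hy.symm, zero_comp]
  · simp

theorem mapt_hg_diag (Z : Ob 𝒞) : Hg 0 (mapt_diag α Z) :=
  Hg.sum _ fun x _ => ((Γ.ts Z).hpr x).comp ((hg_mapU _).comp ((Γ'.ts Z).hinc x) rfl) (by omega)

theorem mapt_sum {Z Z' : Ob 𝒞} {n : ℤ} {f : Matrix Z.G Z'.G R} (hf : SP 𝒞 Z.toGn Z'.toGn n f)
    (x : Z.G) : (∑ y, Γ.rl f x y ≫ (Γ.ts Z').inc y) ≫ mapt_diag α Z' =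
      mapU (α.α (Z.lab x)) ≫ ∑ y, Γ'.rl f x y ≫ (Γ'.ts Z').inc y := by
  rw [Preadditive.sum_comp, Preadditive.comp_sum]
  refine Finset.sum_congr rfl fun y _ => ?_
  rw [Category.assoc, mapt_inc_diag, Rep.rl, Rep.rl, reassoc_of% α.nat (hf x y)]

theorem mapt_dl_diag (Z : Ob 𝒞) : dl 0 (mapt_diag α Z) = 0 := by
  refine (Γ.ts Z).ext_from fun x => ?_
  have h := dl_comp ((Γ.ts Z).inc x) (mapt_diag α Z) (add_zero (Z.deg x))
  rw [mapt_inc_diag, dl_mapU_comp, (Γ'.ts Z).dl_inc, (Γ.ts Z).dl_inc, sg_zero, one_smul,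
    mapt_sum α Z.sp] at h
  rw [comp_zero]
  exact (add_eq_right.1 h.symm)

/-- the diagonal chain map -/
noncomputable def mapt_app (Z : Ob 𝒞) : Γ.totObj Z ⟶ Γ'.totObj Z :=
  homU (mapt_diag α Z) (mapt_hg_diag α Z) (mapt_dl_diag α Z)

theorem mapt_mapU_app (Z : Ob 𝒞) : mapU (mapt_app α Z) = mapt_diag α Z := mapU_homU _ _ _

theorem mapt_app_nat {Z Z' : Ob 𝒞} (f : Z ⟶ Z') :
    Γ.Tot.map f ≫ mapt_app α Z' = mapt_app α Z ≫ Γ'.Tot.map f := by
  apply mapU_injective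
  refine (mapU_comp _ _).trans ((congrArg (_ ≫ ·) (mapt_mapU_app α Z')).trans (Eq.trans ?_
    ((mapU_comp _ _).trans (congrArg (· ≫ _) (mapt_mapU_app α Z))).symm))
  refine (Γ.ts Z).ext_from fun x => ?_
  refine ((Category.assoc _ _ _).symm.trans (congrArg (· ≫ _) (reps_inc_map Γ f x))).trans ?_
  exact (mapt_sum α f.sp x).trans ((mapt_inc_diag_assoc α Z x _).trans
    (congrArg (_ ≫ ·) (reps_inc_map Γ' f x))).symm

end

theorem RepHom.exists_natTrans {Γ Γ' : Rep 𝒞 A} (α : RepHom Γ Γ') (h : ∀ s, QuasiIso (α.α s)) :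
    ∃ τ : Γ.Tot ⟶ Γ'.Tot, ∀ Z, QuasiIso (τ.app Z) := by
  refine ⟨⟨mapt_app α, fun _ _ f => mapt_app_nat α f⟩, fun Z => quasiIso_of_tri (Γ.ts Z) (Γ'.ts Z)
    (Γ.tw Z) (Γ'.tw Z) (mapt_app α Z) (fun x => α.α (Z.lab x)) (fun x => h _) (fun x => ?_)
    fun x y hxy hne => absurd ?_ hne⟩
  · rw [mapt_mapU_app, mapt_inc_diag_assoc, (Γ'.ts Z).inc_pr_self, Category.comp_id]
  · rw [mapt_mapU_app, mapt_inc_diag_assoc, (Γ'.ts Z).inc_pr_ne x y hxy, comp_zero]

end Pool.Agent.Work.MP_910138_ag.C0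
end
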