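import Pool.Agent.Work.MP_910138_ag.C0.AinfC
import Mathlib
import Pool.Agent.Work.MP_910138_ag.C0.MapT
import Pool.Agent.Work.MP_910138_ag.C0.ChainD
import Pool.Agent.Work.MP_910138_ag.Exot
import Pool.Agent.Work.MP_910138_ag.C0.Bases

-- merged part: Pool.Agent.Work.MP_910138_ag.C0.TestD
section
/-! The test objects. -/

open CategoryTheory TrivSqZeroExt MulOpposite Polynomial

namespace Pool.Agent.Work.MP_910138_ag.C0

variable {k : Type} [Field k]

/-- the element `w - b` -/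
noncomputable def omg (b : k) : RR k := inl ((X - C b : k[X]) • (1 : AF k))

/-- the generators of the test objects -/
abbrev jGn (i : Fin 2) : Gn (Bool × Lb) :=
  ⟨Fin 4, ![(false, (i, 0)), (false, (i, 1)), (true, (i, 0)), (true, (i, 1))], ![0, 1, 1, 2]⟩

/-- the differential of the test objects -/
noncomputable def jD (b : k) : Matrix (Fin 4) (Fin 4) (RR k) :=
  !![0, omg b, 1, 0; 0, 0, 0, 1; 0, 0, 0, -omg b; 0, 0, 0, 0]

theorem testd_om_mem (i : Fin 2) (b : k) :
    (X - C b : k[X]) • (1 : AF k) ∈ AS k (i, 0) (i, 1) := by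
  have h := smul_wd_mem_Asub (k := k) (m := 1) (p := X - C b)
    (mem_degLE_one.2 ⟨-b, 1, by rw [C_1, one_mul, C_neg]; ring⟩) 1
  rw [wd_one] at h
  change _ ∈ Asub k (li (i, 0) - li (i, 0)) 1
  rw [sub_self]
  exact h

theorem testd_mul_neg (a b : RR k) : a * -b = -(a * b) := mul_neg a b

theorem testd_neg_mul (a b : RR k) : -a * b = -(a * b) := neg_mul a b

theorem testd_omg_comm (b : k) (a : AF k) : (inl a : RR k) * omg b = omg b * inl a := by
  rw [omg, ← inl_mul, ← inl_mul, mul_smul_comm, smul_mul_assoc, mul_one, one_mul]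

theorem testd_omg_eq (b : k) : omg b = omg 0 - b • (1 : RR k) := by
  refine TrivSqZeroExt.ext ?_ ?_
  · rw [fst_sub, fst_smul, fst_one, omg, omg, fst_inl, fst_inl, C_0, sub_zero, sub_smul,
      ← algebraMap_smul k[X] b, algebraMap_eq]
  · rw [snd_sub, snd_smul, snd_one, omg, omg, snd_inl, snd_inl, smul_zero, sub_zero]

theorem testd_omg_ne (b : k) : omg b ≠ 0 := fun h => by
  classical
  have h1 : ((X - C b : k[X]) • (1 : AF k)).coeff 1 = 0 := by
    have h2 : (X - C b : k[X]) • (1 : AF k) = 0 := congrArg TrivSqZeroExt.fst h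
    rw [h2]
    rfl
  rw [← wd_one, aal_coeff_smul_wd, if_pos rfl] at h1
  exact X_sub_C_ne_zero b h1

theorem jD_sp (i : Fin 2) (b : k) : SP (catA0 k) (jGn i) (jGn i) 1 (jD b) := by
  have h1 : ∀ c : Bool, omg b ∈ (catA0 k).sub (c, (i, 0)) (c, (i, 1)) 0 := fun c =>
    ⟨mem_aFst.2 ⟨testd_om_mem i b, fun _ => ⟨rfl, le_rfl⟩⟩, rfl⟩
  have h2 : ∀ s : Lb, (1 : RR k) ∈ (catA0 k).sub (false, s) (true, s) 0 := fun s =>
    ⟨mem_aFst.2 ⟨one_mem_AS s, fun _ => ⟨rfl, Bool.false_le _⟩⟩, rfl⟩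
  intro x y
  fin_cases x <;> fin_cases y
  exacts [zero_mem _, h1 _, h2 _, zero_mem _, zero_mem _, zero_mem _, zero_mem _, h2 _,
    zero_mem _, zero_mem _, zero_mem _, neg_mem (h1 _), zero_mem _, zero_mem _, zero_mem _,
    zero_mem _]

theorem jD_sq (b : k) : jD b * jD b = 0 := by
  ext1 x y
  fin_cases x <;> fin_cases y <;> simp [jD, Matrix.mul_apply, Fin.sum_univ_four]

/-- the test objects -/
noncomputable abbrev jOb (i : Fin 2) (b : k) : Ob (catA0 k) where
  toGn := jGn i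
  D := jD b
  sp := jD_sp i b
  sq := jD_sq b

theorem jOb_deg (i : Fin 2) (b : k) : Deg02 (jOb i b) := by
  intro x
  fin_cases x <;> simp

theorem jF_sp (a : Fin 3) :
    SP (catA0 k) (jGn 0) (jGn 1) 0 (Matrix.diagonal fun _ => (inl (lt k a) : RR k)) := by
  have h : ∀ (c : Bool) (j : Fin 2),
      (inl (lt k a) : RR k) ∈ (catA0 k).sub (c, (0, j)) (c, (1, j)) 0 := fun c j => by
    refine ⟨mem_aFst.2 ⟨?_, fun _ => ⟨rfl, le_rfl⟩⟩, rfl⟩
    change _ ∈ Asub k 1 (lk (0, j) - lk (0, j))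
    rw [sub_self]
    exact aal_wd_mem (FreeMonoid.of a)
  intro x y
  by_cases e : x = y
  · subst e
    rw [Matrix.diagonal_apply_eq]
    fin_cases x
    exacts [h _ _, h _ _, h _ _, h _ _]
  · rw [Matrix.diagonal_apply_ne _ e]
    exact zero_mem _

theorem jF_cl (a : Fin 3) (b : k) : (Matrix.diagonal fun _ => (inl (lt k a) : RR k)) * jD b =
    jD b * Matrix.diagonal fun _ => (inl (lt k a) : RR k) := by
  ext1 x y
  rw [Matrix.diagonal_mul, Matrix.mul_diagonal]
  fin_cases x <;> fin_cases y <;> simp [jD, testd_omg_comm, testd_mul_neg, testd_neg_mul]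

/-- the test maps -/
noncomputable def jF (a : Fin 3) (b : k) : jOb 0 b ⟶ jOb 1 b :=
  ⟨Matrix.diagonal fun _ => inl (lt k a), jF_sp a, jF_cl a b⟩

/-- the matrix with a single entry in the corner -/
noncomputable def corner (σ : AD k) : Matrix (Fin 4) (Fin 4) (RR k) :=
  Matrix.single 0 3 (inr σ)

variable (ξ : Derivation ℤ k k)

theorem testd_fst (b : k) : fstM (jD b) =
    !![0, (X - C b : k[X]) • 1, 1, 0; 0, 0, 0, 1; 0, 0, 0, -((X - C b : k[X]) • 1); 0, 0, 0, 0] := by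
  ext1 x y
  fin_cases x <;> fin_cases y <;> simp [fstM, jD, omg]

theorem testd_EM (b : k) : EM (fstM (jD b)) = 0 := by
  rw [testd_fst]
  ext1 x y
  fin_cases x <;> fin_cases y <;> simp [EM, eul_one]

theorem testd_xi (b : k) : xiA ξ ((X - C b : k[X]) • (1 : AF k)) = -(ξ b • (1 : AF k)) := by
  rw [← wd_one, xiA_smul_wd, map_sub, xiP_X, xiP_C, zero_sub, neg_smul,
    ← algebraMap_smul k[X] (ξ b), algebraMap_eq]

theorem testd_XM (b : k) : XM ξ (fstM (jD b)) =
    !![0, -(ξ b • 1), 0, 0; 0, 0, 0, 0; 0, 0, 0, ξ b • 1; 0, 0, 0, 0] := by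
  rw [testd_fst]
  ext1 x y
  fin_cases x <;> fin_cases y <;> simp [XM, xiA_one, testd_xi]

theorem testd_dlt (i : Fin 2) (b : k) : dlt (jGn i) (jGn i) (fstM (jD b)) =
    !![0, 0, 1, 0; 0, 0, 0, 1; 0, 0, 0, 0; 0, 0, 0, 0] := by
  rw [testd_fst]
  ext1 x y
  fin_cases x <;> fin_cases y <;> simp [dlt, lvl]

theorem sObj_jD (i : Fin 2) (b : k) : (sObj ξ (incObj (catA0_le k) (jOb i b))).D = jD b := by
  change jD b + cor (th1 ξ (jGn i) (fstM (jD b))) = jD b
  rw [th1, testd_EM, Matrix.zero_mul, Matrix.zero_mul, cor_zero, add_zero]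

theorem sMor_jF (a : Fin 3) (b : k) :
    Mor.mat (sMor ξ ((incFun (catA0_le k)).map (jF a b))) =
      (jF a b).mat + corner (if a = 0 then -(ξ b • lt k 0 • tau k) else 0) := by
  change (jF a b).mat + cor (th2 ξ (-1) (jGn 0) (jGn 1) (fstM (jD b))
    (fstM (Matrix.diagonal fun _ => (inl (lt k a) : RR k))) (fstM (jD b))) = _
  congr 1
  have e : EM (fstM (Matrix.diagonal fun _ : Fin 4 => (inl (lt k a) : RR k))) =
      Matrix.diagonal fun _ => eul k (lt k a) := by
    ext1 x y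
    by_cases h : x = y
    · subst h
      simp [EM, fstM]
    · simp [EM, fstM, Matrix.diagonal_apply_ne _ h]
  have e2 : XM ξ (fstM (jD b)) * dlt (jGn 1) (jGn 1) (fstM (jD b)) =
      Matrix.single 0 3 (-(ξ b • (1 : AF k))) := by
    rw [testd_XM, testd_dlt]
    ext1 x y
    fin_cases x <;> fin_cases y <;> simp [Matrix.mul_apply, Fin.sum_univ_four]
  rw [th2, testd_EM, Matrix.zero_mul, Matrix.zero_mul, Matrix.zero_mul, Matrix.zero_mul, smul_zero,
    add_zero,
    zero_add, e, Matrix.mul_assoc, e2, eul_lt]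
  ext1 x y
  rw [cor, Matrix.map_apply, Matrix.diagonal_mul, corner, Matrix.single_apply, Matrix.single_apply]
  split_ifs with h1 h2 h2
  · rw [← neg_smul, mul_smul_comm, mul_one, smul_assoc, neg_smul, h1]
  · rw [mul_zero, zero_smul, inr_zero]
  · rw [zero_mul, zero_smul]
  · rw [mul_zero, zero_smul, inr_zero]

theorem testd_jF_eq (a : Fin 3) (b : k) (x : Fin 4) : (jF a b).mat x x = inl (lt k a) :=
  Matrix.diagonal_apply_eq _ x

theorem testd_jF_ne (a : Fin 3) (b : k) {x y : Fin 4} (h : x ≠ y) : (jF a b).mat x y = 0 :=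
  Matrix.diagonal_apply_ne _ h

theorem testd_two (b : k) {x y : Fin 4} (h : ¬ (x = 0 ∧ y = 3)) (z : Fin 4) :
    jD b x z = 0 ∨ jD b z y = 0 := by
  fin_cases x <;> fin_cases y <;> fin_cases z <;>
    first | exact Or.inl rfl | exact Or.inr rfl | exact absurd ⟨rfl, rfl⟩ h

theorem psi3_jF (ψ : ∀ (_ _ _ _ : Bool × Lb), RR k →ₗ[k] RR k →ₗ[k] RR k →ₗ[k] RR k) (a : Fin 3) :
    ∃ p p' : RR k, ∀ b, psi3 ψ (jOb 0 b) (jOb 1 b) (jF a b).mat =
      Matrix.single 0 3 (p - b • p') := by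
  let F : RR k →ₗ[k] RR k :=
    ((ψ (false, (0, 0)) (false, (0, 1)) (true, (0, 1)) (true, (1, 1))).flip 1).flip (inl (lt k a)) -
    (ψ (false, (0, 0)) (true, (0, 0)) (true, (0, 1)) (true, (1, 1)) 1).flip (inl (lt k a)) -
    (((ψ (false, (0, 0)) (false, (0, 1)) (false, (1, 1)) (true, (1, 1))).flip
        (inl (lt k a))).flip 1 -
      ψ (false, (0, 0)) (true, (0, 0)) (true, (1, 0)) (true, (1, 1)) 1 (inl (lt k a))) +
    ((ψ (false, (0, 0)) (false, (1, 0)) (false, (1, 1)) (true, (1, 1)) (inl (lt k a))).flip 1 -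
      ψ (false, (0, 0)) (false, (1, 0)) (true, (1, 0)) (true, (1, 1)) (inl (lt k a)) 1)
  refine ⟨F (omg 0), F 1, fun b => ?_⟩
  rw [← map_smul, ← map_sub, ← testd_omg_eq]
  ext1 x y
  have e1 : ∀ (s : Fin 4 → Bool × Lb) (t : Bool × Lb),
      ∑ z, ∑ w, ψ (s x) (s z) (s w) t (jD b x z) (jD b z w) ((jF a b).mat w y) =
        ∑ z, ψ (s x) (s z) (s y) t (jD b x z) (jD b z y) (inl (lt k a)) := fun s t => by
    refine Finset.sum_congr rfl fun z _ => (Finset.sum_eq_single y (fun w _ hw => ?_)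
      fun h => absurd (Finset.mem_univ _) h).trans ?_
    · rw [testd_jF_ne a b hw, map_zero]
    · rw [testd_jF_eq]
  have e2 : ∀ (s t : Fin 4 → Bool × Lb),
      ∑ z, ∑ w, ψ (s x) (s z) (t w) (t y) (jD b x z) ((jF a b).mat z w) (jD b w y) =
        ∑ z, ψ (s x) (s z) (t z) (t y) (jD b x z) (inl (lt k a)) (jD b z y) := fun s t => by
    refine Finset.sum_congr rfl fun z _ => (Finset.sum_eq_single z (fun w _ hw => ?_)
      fun h => absurd (Finset.mem_univ _) h).trans ?_
    · rw [testd_jF_ne a b hw.symm, map_zero, LinearMap.zero_apply]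
    · rw [testd_jF_eq]
  have e3 : ∀ (s : Bool × Lb) (t : Fin 4 → Bool × Lb),
      ∑ z, ∑ w, ψ s (t z) (t w) (t y) ((jF a b).mat x z) (jD b z w) (jD b w y) =
        ∑ w, ψ s (t x) (t w) (t y) (inl (lt k a)) (jD b x w) (jD b w y) := fun s t => by
    refine (Finset.sum_eq_single x (fun z _ hz => Finset.sum_eq_zero fun w _ => ?_)
      fun h => absurd (Finset.mem_univ _) h).trans ?_
    · rw [testd_jF_ne a b hz.symm, map_zero, LinearMap.zero_apply, LinearMap.zero_apply]
    · rw [testd_jF_eq]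
  refine (congrArg₂ (· + ·) (congrArg₂ (· - ·) (e1 (jGn 0).lab _) (e2 (jGn 0).lab (jGn 1).lab))
    (e3 _ (jGn 1).lab)).trans ?_
  clear e1 e2 e3
  by_cases h : x = 0 ∧ y = 3
  · obtain ⟨rfl, rfl⟩ := h
    simp [F, jD, Fin.sum_univ_four, sub_eq_add_neg]
  · rw [Matrix.single_apply_of_ne _ _ _ _ _ fun h' => h ⟨h'.1.symm, h'.2.symm⟩,
      Finset.sum_eq_zero, Finset.sum_eq_zero, Finset.sum_eq_zero, sub_zero, add_zero]
    all_goals
      intro z _
      rcases testd_two b h z with h0 | h0 <;> simp only [h0, map_zero, LinearMap.zero_apply]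

theorem testd_fst_zero {s t : Bool × Lb} {n : ℤ} {r : RR k} (h : r ∈ (catA k).sub s t n)
    (h1 : n = 0 → s.1 ≤ t.1 → lk t.2 < lk s.2) : r.fst = 0 := by
  by_contra h0
  have h2 := mem_aFst.1 h.1
  have h3 := h1 (h2.2 h0).1 (h2.2 h0).2
  exact h0 (Asub_neg_right (sub_neg.2 h3) h2.1)

theorem testd_zero {s t : Bool × Lb} {n : ℤ} {r : RR k} (h : r ∈ (catA k).sub s t n)
    (h1 : n = 0 → s.1 ≤ t.1 → lk t.2 < lk s.2) (h2 : ¬ (n = -2 ∧ s.1 = false ∧ t.1 = true)) :
    r = 0 :=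
  TrivSqZeroExt.ext (testd_fst_zero h h1) (by_contra fun h0 => h2 ((mem_aSnd.1 h.2).2 h0))

theorem testd_self {s : Bool × Lb} {n : ℤ} {r : RR k} (h : r ∈ (catA k).sub s s n) :
    ∃ c : k, r = c • (1 : RR k) := by
  have h3 := (mem_aFst.1 h.1).1
  rw [AS, sub_self, sub_self] at h3
  obtain ⟨c, hc⟩ := mem_degLE_zero.1 (h3 1).1
  refine ⟨c, TrivSqZeroExt.ext ?_ ?_⟩
  · rw [fst_smul, fst_one, Asub_zero h3, hc, ← algebraMap_smul k[X] c, algebraMap_eq]
  · rw [snd_smul, snd_one, smul_zero]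
    by_contra h0
    obtain ⟨_, h1, h2⟩ := (mem_aSnd.1 h.2).2 h0
    rw [h1] at h2
    exact Bool.false_ne_true h2

theorem jEnd (i : Fin 2) (b : k) (γ : Matrix (Fin 4) (Fin 4) (RR k))
    (h : SP (catA k) (jGn i) (jGn i) 0 γ) (hc : γ * jD b = jD b * γ) :
    ∃ (c : k) (σ : AD k), σ ∈ Rel k ∧ γ = c • 1 + corner σ := by
  obtain ⟨c0, h0⟩ := testd_self (h 0 0)
  obtain ⟨c1, h1⟩ := testd_self (h 1 1)
  obtain ⟨c2, h2⟩ := testd_self (h 2 2)
  obtain ⟨c3, h3⟩ := testd_self (h 3 3)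
  have z01 : γ 0 1 = 0 := testd_zero (h 0 1) (by simp) (by simp)
  have z02 : γ 0 2 = 0 := testd_zero (h 0 2) (by simp) (by simp)
  have z10 : γ 1 0 = 0 := testd_zero (h 1 0) (by simp) (by simp)
  have z12 : γ 1 2 = 0 := testd_zero (h 1 2) (by simp [lk]) (by simp)
  have z13 : γ 1 3 = 0 := testd_zero (h 1 3) (by simp) (by simp)
  have z20 : γ 2 0 = 0 := testd_zero (h 2 0) (by simp) (by simp)
  have z21 : γ 2 1 = 0 := testd_zero (h 2 1) (by simp) (by simp)
  have z23 : γ 2 3 = 0 := testd_zero (h 2 3) (by simp) (by simp)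
  have z30 : γ 3 0 = 0 := testd_zero (h 3 0) (by simp) (by simp)
  have z31 : γ 3 1 = 0 := testd_zero (h 3 1) (by simp) (by simp)
  have z32 : γ 3 2 = 0 := testd_zero (h 3 2) (by simp) (by simp)
  have z03 : γ 0 3 = inr (γ 0 3).snd :=
    TrivSqZeroExt.ext (testd_fst_zero (h 0 3) (by simp)) rfl
  have e01 := congrFun (congrFun hc 0) 1
  have e02 := congrFun (congrFun hc 0) 2
  have e13 := congrFun (congrFun hc 1) 3
  simp only [Matrix.mul_apply, Fin.sum_univ_four, z01, z02, z12, z13, z21, z23, z31, z32, h0, h1,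
    h2, h3] at e01 e02 e13
  simp [jD] at e01 e02 e13
  have a1 : c0 = c1 := smul_left_injective k (testd_omg_ne b) e01
  have a2 : c0 = c2 := smul_left_injective k (one_ne_zero (α := RR k)) e02
  have a3 : c1 = c3 := smul_left_injective k (one_ne_zero (α := RR k)) e13
  subst a1 a2 a3
  refine ⟨c0, (γ 0 3).snd, (mem_aSnd.1 (h 0 3).2).1.2, ?_⟩
  ext1 x y
  fin_cases x <;> fin_cases y <;>
    simp [corner, z01, z02, z10, z12, z13, z20, z21, z23, z30, z31, z32, h0, h1, h2, h3, ← z03]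

theorem jHtp (i j : Fin 2) (b : k) (H : Matrix (Fin 4) (Fin 4) (RR k))
    (h : SP (catA k) (jGn i) (jGn j) (-1) H) :
    fstM (H * jD b + jD b * H) = 0 ∧
      ∀ p, (((H * jD b + jD b * H) 0 3).snd.toL p).eval b = 0 := by
  have hf : ∀ x y, (H x y).fst = 0 := fun x y => by
    refine testd_fst_zero (h x y) ?_
    fin_cases x <;> fin_cases y <;> simp [lk]
  have hf' : fstM H = 0 := by
    ext1 x y
    exact hf x y
  refine ⟨by rw [fstM_add, fstM_mul, fstM_mul, hf', Matrix.zero_mul, Matrix.mul_zero, add_zero],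
    fun p => ?_⟩
  have z01 : H 0 1 = 0 := testd_zero (h 0 1) (by simp) (by simp)
  have z23 : H 2 3 = 0 := testd_zero (h 2 3) (by simp) (by simp)
  have e : (H * jD b + jD b * H) 0 3 = omg b * H 1 3 - H 0 2 * omg b := by
    rw [Matrix.add_apply, Matrix.mul_apply, Matrix.mul_apply, Fin.sum_univ_four, Fin.sum_univ_four,
      z01, z23]
    simp [jD, testd_mul_neg, sub_eq_neg_add]
  rw [e, snd_sub, snd_mul, snd_mul, hf, hf, omg, fst_inl, snd_inl, smul_zero, smul_zero, add_zero,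
    zero_add, AD.toL_sub, LinearMap.sub_apply, AD.smul_apply, AD.op_smul_apply, unop_op,
    mul_smul_comm, smul_mul_assoc, map_smul, map_smul, smul_eq_mul, smul_eq_mul, ← mul_sub,
    eval_mul, eval_sub, eval_X, eval_C, sub_self, zero_mul]

theorem testd_EM0 {G G' : Type} : EM (0 : Matrix G G' (AF k)) = 0 := by
  ext1 x y
  exact map_zero (eul k)

theorem testd_XM0 {G G' : Type} : XM ξ (0 : Matrix G G' (AF k)) = 0 := by
  ext1 x y
  exact map_zero (xiA ξ)

theorem sObj_gen_D (s : Bool × Lb) : (sObj ξ (genOb (catA k) s)).D = (genOb (catA k) s).D := by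
  change (0 : Matrix Unit Unit (RR k)) + cor (th1 ξ (genOb (catA k) s).toGn (fstM 0)) = 0
  rw [th1, fstM_zero, testd_EM0, Matrix.zero_mul, Matrix.zero_mul, cor_zero, add_zero]

theorem sMor_gen (s t : Bool × Lb) (a : RR k) (ha : a ∈ (catA k).sub s t 0) :
    sMor ξ (genMor a ha) ≫ (isoD (sObj_gen_D ξ t)).hom =
      (isoD (sObj_gen_D ξ s)).hom ≫ genMor a ha := by
  refine Ob.hom_ext ?_
  change ((genMor a ha).mat + cor (th2 ξ (-1) (genOb (catA k) s).toGn (genOb (catA k) t).toGn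
    (fstM (0 : Matrix Unit Unit (RR k))) (fstM (genMor a ha).mat)
    (fstM (0 : Matrix Unit Unit (RR k))))) * (1 : Matrix Unit Unit (RR k)) =
    (1 : Matrix Unit Unit (RR k)) * (genMor a ha).mat
  rw [th2, fstM_zero, testd_EM0, testd_XM0]
  simp only [Matrix.zero_mul, Matrix.mul_zero, smul_zero, add_zero, cor_zero, Matrix.mul_one,
    Matrix.one_mul]

end Pool.Agent.Work.MP_910138_ag.C0
end

-- merged part: Pool.Agent.Work.MP_910138_ag.C0.Der
section
/-! Derivations of fields. -/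

namespace Pool.Agent.Work.MP_910138_ag.C0

theorem der_poly_zero {k : Type} [Field k] (ξ : Derivation ℤ k k) (q : Polynomial k)
    (h : ∀ b, ξ b = q.eval b) : ξ = 0 := by
  ext a
  rw [Derivation.coe_zero, Pi.zero_apply]
  rcases finite_or_infinite k with hk | hk
  · have := Fintype.ofFinite k
    rw [← FiniteField.pow_card a, Derivation.leibniz_pow, nsmul_eq_mul, FiniteField.cast_card_eq_zero,
      zero_mul]
  · have e : q.comp (Polynomial.C a * Polynomial.X) =
        Polynomial.C a * q + Polynomial.C (ξ a) * Polynomial.X := Polynomial.funext fun b => by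
      simp only [Polynomial.eval_comp, Polynomial.eval_mul, Polynomial.eval_C, Polynomial.eval_X,
        Polynomial.eval_add, ← h, Derivation.leibniz, smul_eq_mul]
      ring
    have e1 := congrArg (fun r => Polynomial.coeff r 1) e
    simp only [Polynomial.comp_C_mul_X_coeff, Polynomial.coeff_add, Polynomial.coeff_C_mul,
      Polynomial.coeff_X_one, pow_one, mul_one] at e1
    linear_combination -e1

theorem der_smooth (K F : Type) [Field K] [Field F] [CharZero F] [Algebra K F] :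
    Algebra.FormallySmooth K F := by
  obtain ⟨s, hs⟩ := exists_isTranscendenceBasis K F
  have := hs.isAlgebraic_field
  have : CharZero (IntermediateField.adjoin K (Set.range ((↑) : s → F))) :=
    (algebraMap _ F).charZero
  exact .of_algebraicIndependent_of_isSeparable hs.1

theorem der_lift {R S F : Type} [CommRing R] [CommRing S] [Field F] [CharZero F] {j : R →+* F}
    (hj : Function.Injective j) (θ : R →+* S) (π : S →+* F) (hπ : Function.Surjective π)
    (hn : IsNilpotent (RingHom.ker π)) (e : ∀ r, π (θ r) = j r) :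
    ∃ σ : F →+* S, (∀ z, π (σ z) = z) ∧ ∀ r, σ (j r) = θ r := by
  have := hj.isDomain j
  let _ := j.toAlgebra
  let _ := θ.toAlgebra
  have : FaithfulSMul R F := (faithfulSMul_iff_algebraMap_injective R F).2 hj
  let _ := FractionRing.liftAlgebra R F
  have := FractionRing.isScalarTower_liftAlgebra R F
  have := der_smooth (FractionRing R) F
  have : Algebra.FormallySmooth R (FractionRing R) := .of_isLocalization (nonZeroDivisors R)
  have : Algebra.FormallySmooth R F := .comp R (FractionRing R) F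
  let g : S →ₐ[R] F := ⟨π, e⟩
  let σ := Algebra.FormallySmooth.liftOfSurjective (AlgHom.id R F) g hπ hn
  exact ⟨σ, Algebra.FormallySmooth.liftOfSurjective_apply (AlgHom.id R F) g hπ hn, σ.commutes⟩

theorem exists_derivation (K : Type) [Field K] [CharZero K] (h : ¬ Algebra.IsAlgebraic ℚ K) :
    ∃ ξ : Derivation ℤ K K, ξ ≠ 0 := by
  obtain ⟨t, ht⟩ := (Algebra.transcendental_iff_not_isAlgebraic.2 h).transcendental
  obtain ⟨σ, h1, h2⟩ := der_lift (j := (Polynomial.aeval t : Polynomial ℚ →ₐ[ℚ] K).toRingHom)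
    (transcendental_iff_injective.1 ht)
    (Polynomial.eval₂RingHom ((TrivSqZeroExt.inlHom K K).comp (algebraMap ℚ K))
      (TrivSqZeroExt.inl t + TrivSqZeroExt.inr 1))
    (TrivSqZeroExt.fstHom K K K).toRingHom (fun z => ⟨TrivSqZeroExt.inl z, rfl⟩)
    ⟨2, TrivSqZeroExt.kerIdeal_sq K K⟩ (fun r => by
      induction r using Polynomial.induction_on' with
      | add p q hp hq => simp only [map_add, hp, hq]
      | monomial n a => simp [Polynomial.aeval_monomial])
  have h3 : ∀ z, (σ z).fst = z := h1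
  refine ⟨Derivation.mk' (AddMonoidHom.mk' (fun z => (σ z).snd) fun a b => by simp).toIntLinearMap
    fun a b => by simp [h3, mul_comm], fun e => ?_⟩
  have h4 : (σ t).snd = 0 := congrArg (fun D : Derivation ℤ K K => D t) e
  have h5 := h2 Polynomial.X
  simp only [AlgHom.toRingHom_eq_coe, RingHom.coe_coe, Polynomial.aeval_X,
    Polynomial.coe_eval₂RingHom, Polynomial.eval₂_X] at h5
  simp [h5] at h4

theorem exists_derivation_complex : ∃ ξ : Derivation ℤ ℂ ℂ, ξ ≠ 0 := by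
  refine exists_derivation ℂ fun h => ?_
  have h1 := Algebra.IsAlgebraic.cardinalMk_le_max ℚ ℂ
  rw [Cardinal.mk_complex, Cardinal.mkRat, max_self] at h1
  exact h1.not_gt Cardinal.aleph0_lt_continuum

end Pool.Agent.Work.MP_910138_ag.C0
end

-- merged part: Pool.Agent.Work.MP_910138_ag.C0.TestM
section
/-! The obstruction. -/

open CategoryTheory TrivSqZeroExt MulOpposite Polynomial

namespace Pool.Agent.Work.MP_910138_ag.C0

variable {k : Type} [Field k] (ξ : Derivation ℤ k k)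

theorem testm_entry (x : AF k) (s σ₀ σ₁ : AD k) (c₀ c₁ : k) (e : RR k)
    (N : Matrix (Fin 4) (Fin 4) (RR k))
    (hN : N = ((Matrix.diagonal fun _ => (inl x : RR k)) + corner s) * (c₁ • 1 + corner σ₁) -
      (c₀ • 1 + corner σ₀) * ((Matrix.diagonal fun _ => (inl x : RR k)) - Matrix.single 0 3 e)) :
    (N 0 0).fst = (c₁ - c₀) • x ∧
      (N 0 3).snd = x • σ₁ + c₁ • s + c₀ • e.snd - op x • σ₀ := by
  subst hN
  constructor
  · simp [Matrix.mul_apply, Fin.sum_univ_four, corner, sub_smul]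
  · simp [Matrix.mul_apply, Fin.sum_univ_four, corner]
    abel

theorem testm_lt_ne (a : Fin 3) : lt k a ≠ 0 := by
  intro h
  have h1 := aal_coeff_smul_wd (k := k) 1 (FreeMonoid.of a) (FreeMonoid.of a)
  rw [one_smul, if_pos rfl, ← lt, h] at h1
  exact zero_ne_one h1

/-- the comparison matrices of the test objects -/
noncomputable def testm_g (c : Cmp (catA0_le k) (sFun ξ)) (i : Fin 2) (b : k) :
    Matrix (Fin 4) (Fin 4) (RR k) := Mor.mat (c.γ (jOb i b))

theorem testm_gam (c : Cmp (catA0_le k) (sFun ξ)) (i : Fin 2) (b : k) :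
    ∃ (r : k) (σ : AD k), σ ∈ Rel k ∧ testm_g ξ c i b = r • 1 + corner σ := by
  refine jEnd i b _ (c.γ (jOb i b)).sp ?_
  have h : testm_g ξ c i b * jD b = (sObj ξ (incObj (catA0_le k) (jOb i b))).D * testm_g ξ c i b :=
    (c.γ (jOb i b)).cl
  rwa [sObj_jD] at h

theorem testm_inv (c : Cmp (catA0_le k) (sFun ξ)) (b : k) :
    ∃ G H : Matrix (Fin 4) (Fin 4) (RR k), SP (catA k) (jGn 0) (jGn 0) (-1) H ∧
      testm_g ξ c 0 b * G - 1 = H * jD b + jD b * H := by
  obtain ⟨γ', H, h1, h2⟩ := c.inv (jOb 0 b) (jOb_deg 0 b)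
  refine ⟨γ'.mat, H, h1, ?_⟩
  rw [← sObj_jD ξ 0 b]
  exact h2.trans (dP_neg_one _)

theorem testm_nat (c : Cmp (catA0_le k) (sFun ξ)) (a : Fin 3) (b : k) :
    ∃ H : Matrix (Fin 4) (Fin 4) (RR k), SP (catA k) (jGn 0) (jGn 1) (-1) H ∧
      H * jD b + jD b * H = ((Matrix.diagonal fun _ => (inl (lt k a) : RR k)) +
          corner (if a = 0 then -(ξ b • lt k 0 • tau k) else 0)) * testm_g ξ c 1 b -
        testm_g ξ c 0 b * ((Matrix.diagonal fun _ => (inl (lt k a) : RR k)) -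
          psi3 c.ψ (jOb 0 b) (jOb 1 b) (jF a b).mat) := by
  obtain ⟨g, hg, H, h1, h2⟩ := c.nat _ _ (jF a b) (jOb_deg 0 b) (jOb_deg 1 b)
  obtain ⟨H', rfl⟩ : ∃ H' : Matrix (Fin 4) (Fin 4) (RR k), H' = H := ⟨H, rfl⟩
  obtain ⟨F, hF⟩ : ∃ F : Matrix (Fin 4) (Fin 4) (RR k),
    F = Mor.mat (sMor ξ ((incFun (catA0_le k)).map (jF a b))) := ⟨_, rfl⟩
  have h3 : F * testm_g ξ c 1 b - testm_g ξ c 0 b * g.mat =
      H' * jD b + (sObj ξ (incObj (catA0_le k) (jOb 0 b))).D * H' := by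
    rw [hF]
    exact h2.trans (dP_neg_one _)
  rw [sObj_jD, hg, hF.trans (sMor_jF ξ a b)] at h3
  exact ⟨H', h1, h3.symm⟩

theorem testm_ne (c : Cmp (catA0_le k) (sFun ξ)) (b : k) {r : k} {σ : AD k}
    (h : testm_g ξ c 0 b = r • 1 + corner σ) : r ≠ 0 := by
  rintro rfl
  obtain ⟨G, H, h1, h3⟩ := testm_inv ξ c b
  have h4 := congrFun (congrFun (jHtp 0 0 b H h1).1 0) 0
  rw [← h3, h] at h4
  simp [fstM, Matrix.mul_apply, Fin.sum_univ_four, corner] at h4

theorem Cmp.der_eq_zero (c : Cmp (catA0_le k) (sFun ξ)) : ξ = 0 := by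
  choose p p' hp using psi3_jF c.ψ
  refine der_poly_zero ξ (∑ a, ((p a).snd.toL (lt k a) - X * (p' a).snd.toL (lt k a))) fun b => ?_
  obtain ⟨c₀, σ₀, r₀, e₀⟩ := testm_gam ξ c 0 b
  obtain ⟨c₁, σ₁, r₁, e₁⟩ := testm_gam ξ c 1 b
  have hc := testm_ne ξ c b e₀
  have key : ∀ a : Fin 3, c₁ = c₀ ∧ ((lt k a • σ₁ +
      c₁ • (if a = 0 then -(ξ b • lt k 0 • tau k) else 0) + c₀ • (p a - b • p' a).snd -
        op (lt k a) • σ₀).toL (lt k a)).eval b = 0 := fun a => by
    obtain ⟨H, h1, h3⟩ := testm_nat ξ c a b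
    rw [hp, e₀, e₁] at h3
    obtain ⟨h5, h6⟩ := testm_entry _ _ _ _ _ _ _ _ h3
    obtain ⟨h7, h8⟩ := jHtp 0 1 b H h1
    refine ⟨?_, h6 ▸ h8 (lt k a)⟩
    have h9 : (c₁ - c₀) • lt k a = 0 := h5.symm.trans (congrFun (congrFun h7 0) 0)
    exact sub_eq_zero.1 ((smul_eq_zero.1 h9).resolve_right (testm_lt_ne a))
  obtain rfl := (key 0).1
  have k0 := (key 0).2
  have k1 := (key 1).2
  have k2 := (key 2).2
  have s₀ := congrArg (eval b) (r₀ 1 1)
  have s₁ := congrArg (eval b) (r₁ 1 1)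
  have t := tau_lt_lt (k := k) 0 0
  simp only [om, one_mul, mul_one, Fin.sum_univ_three, map_add, eval_add, eval_zero] at s₀ s₁
  simp [t] at k0 k1 k2
  simp only [Fin.sum_univ_three, eval_add, eval_sub, eval_mul, eval_X]
  refine mul_left_cancel₀ hc ?_
  linear_combination s₁ - s₀ - k0 - k1 - k2

end Pool.Agent.Work.MP_910138_ag.C0
end

-- merged part: Pool.Agent.Work.MP_910138_ag.C0.Res2
section
/-! Injective resolutions of realisations. -/

open CategoryTheory Limits CochainComplex.HomComplex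

namespace Pool.Agent.Work.MP_910138_ag.C0

universe v u

theorem res2_left_mono {B : Type u} [Category.{v} B] [Abelian B] {P : Type} [SmallCategory P]
    [∀ a b : P, Finite (a ⟶ b)] (c : P) :
    (evaluationLeftAdjoint B c).PreservesMonomorphisms := by
  refine ⟨fun {X Y} f hf => ?_⟩
  have : ∀ t, Mono (((evaluationLeftAdjoint B c).map f).app t) := by
    intro t
    have h1 : Mono (Limits.Sigma.map fun _ : c ⟶ t => f) := Sigma.map_mono _
    have h2 : (Sigma.desc fun h : c ⟶ t => f ≫ Sigma.ι (fun _ => Y) h) =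
        Limits.Sigma.map fun _ : c ⟶ t => f := by
      refine Sigma.hom_ext _ _ fun j => ?_
      rw [Sigma.ι_desc, Sigma.ι_map]
    rw [← h2] at h1
    exact h1
  exact NatTrans.mono_of_mono_app _

theorem res2_eval_injective {B : Type u} [Category.{v} B] [Abelian B] {P : Type} [SmallCategory P]
    [∀ a b : P, Finite (a ⟶ b)] (F : P ⥤ B) (hF : Injective F) (c : P) :
    Injective (F.obj c) := by
  have := res2_left_mono (B := B) c
  exact (evaluationAdjunctionRight B c).map_injective F hF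

theorem res2_enough {B : Type u} [Category.{v} B] [Abelian B] [EnoughInjectives B]
    {P : Type} [SmallCategory P] [Finite P] [∀ a b : P, Finite (a ⟶ b)] :
    EnoughInjectives (P ⥤ B) := by
  refine ⟨fun F => ?_⟩
  let G : P → P ⥤ B := fun c => (evaluationRightAdjoint B c).obj (Injective.under (F.obj c))
  have hG : ∀ c, Injective (G c) := fun c =>
    (evaluationAdjunctionLeft B c).map_injective _ inferInstance
  let φ : ∀ c, F ⟶ G c := fun c =>
    (evaluationAdjunctionLeft B c).homEquiv F _ (Injective.ι (F.obj c))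
  have hφ : ∀ c, Mono ((φ c).app c) := by
    intro c
    have h1 : (φ c).app c ≫ (evaluationAdjunctionLeft B c).counit.app _ = Injective.ι (F.obj c) := by
      have h2 := ((evaluationAdjunctionLeft B c).homEquiv F _).symm_apply_apply
        (Injective.ι (F.obj c))
      rw [Adjunction.homEquiv_counit] at h2
      exact h2
    exact mono_of_mono_fac h1
  have hm : ∀ c, Mono ((Pi.lift φ).app c) := by
    intro c
    have h1 : (Pi.lift φ).app c ≫ (Pi.π G c).app c = (φ c).app c := by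
      rw [← NatTrans.comp_app, Pi.lift_π]
    have := hφ c
    exact mono_of_mono_fac h1
  exact ⟨{ J := ∏ᶜ G, f := Pi.lift φ, mono := NatTrans.mono_of_mono_app _ }⟩

/-- a diagram of complexes seen as a complex of diagrams -/
noncomputable def res2_flip {B : Type u} [Category.{v} B] [Abelian B] {P : Type} [SmallCategory P]
    (W : P ⥤ Cx B) : Cx (P ⥤ B) where
  X n := W ⋙ HomologicalComplex.eval B _ n
  d i j :=
    { app := fun t => (W.obj t).d i j
      naturality := fun _ _ g => (W.map g).comm i j }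
  shape i j h := by
    ext t
    exact (W.obj t).shape i j h
  d_comp_d' i j k _ _ := by
    ext t
    exact (W.obj t).d_comp_d i j k

theorem exists_diagram_resolution {B : Type u} [Category.{v} B] [Abelian B] [EnoughInjectives B]
    {P : Type} [SmallCategory P] [Finite P] [∀ a b : P, Finite (a ⟶ b)] (W : P ⥤ Cx B)
    (hW : ∀ u, ∃ a : ℤ, (W.obj u).IsStrictlyGE a) :
    ∃ (I : P ⥤ Cx B) (α : W ⟶ I), (∀ u, QuasiIso (α.app u)) ∧
      (∀ u, ∃ a : ℤ, (I.obj u).IsStrictlyGE a) ∧ ∀ u n, Injective ((I.obj u).X n) := by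
  choose a ha using hW
  obtain ⟨b, hb⟩ := (Set.finite_range a).bddBelow
  have hb' : ∀ u, b ≤ a u := fun u => hb ⟨u, rfl⟩
  have : EnoughInjectives (P ⥤ B) := res2_enough
  have hge : (res2_flip W).IsStrictlyGE b := by
    rw [CochainComplex.isStrictlyGE_iff]
    intro i hi
    refine Functor.isZero _ fun t => ?_
    have := ha t
    exact (W.obj t).isZero_of_isStrictlyGE (a t) i (lt_of_lt_of_le hi (hb' t))
  obtain ⟨L, i, hi, hL, hLb⟩ :=
    CochainComplex.Plus.modelCategoryQuillen.exists_quasiIso_injective (res2_flip W) b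
  refine ⟨L.asFunctor,
    { app := fun t =>
        { f := fun n => (i.f n).app t
          comm' := fun n m _ => NatTrans.congr_app (i.comm n m) t }
      naturality := fun t t' g => by
        ext n
        exact (i.f n).naturality g }, fun t => ?_, fun t => ⟨b, ?_⟩, fun t n => ?_⟩
  · exact (HomologicalComplex.quasiIso_iff_evaluation i).1 hi t
  · rw [CochainComplex.isStrictlyGE_iff]
    intro n hn
    exact (L.isZero_of_isStrictlyGE b n hn).obj t
  · exact res2_eval_injective _ (hL n) t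

variable {k R S : Type} [Field k] [Ring R] [Algebra k R] {𝒞 : GCat k R S}
  {A : Type u} [Category.{v} A] [Abelian A] [HasCoproductsOfShape ℤ A] [Linear k A]

/-- the objects of the category spanned by a closed basis -/
structure res2_Obj (β : MBasis 𝒞) (hβ : β.Closed) : Type where
  s : S

instance res2_cat (β : MBasis 𝒞) (hβ : β.Closed) : SmallCategory (res2_Obj β hβ) where
  Hom x y := β.B x.s y.s
  id x := ⟨1, β.one_mem x.s⟩
  comp f g := ⟨f.1 * g.1, hβ _ _ _ _ _ f.2 g.2⟩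
  id_comp f := Subtype.ext (one_mul f.1)
  comp_id f := Subtype.ext (mul_one f.1)
  assoc f g h := Subtype.ext (mul_assoc f.1 g.1 h.1)

instance res2_fin [Finite S] (β : MBasis 𝒞) (hβ : β.Closed) : Finite (res2_Obj β hβ) :=
  Finite.of_injective (fun x : res2_Obj β hβ => x.s) fun x y h => by
    cases x
    cases y
    exact congrArg _ h

instance res2_finHom (β : MBasis 𝒞) (hβ : β.Closed) (x y : res2_Obj β hβ) : Finite (x ⟶ y) :=
  (β.fin x.s y.s).to_subtype

/-- the diagram of complexes attached to a realisation -/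
noncomputable def res2_diag (β : MBasis 𝒞) (hβ : β.Closed) (Γ : Rep 𝒞 A) :
    res2_Obj β hβ ⥤ Cx A where
  obj x := Γ.W x.s
  map f := Γ.ch (β.mem f.2)
  map_id x := mapU_injective (by
    rw [Γ.mapU_ch, mapU_id]
    exact Γ.one x.s)
  map_comp f g := mapU_injective (by
    rw [mapU_comp, Γ.mapU_ch, Γ.mapU_ch, Γ.mapU_ch]
    exact Γ.mul (β.mem f.2) (β.mem g.2))

theorem res2_rho (β : MBasis 𝒞) (hβ : β.Closed) (I : res2_Obj β hβ ⥤ Cx A) (s t : S) :
    ∃ L : R →ₗ[k] (U (I.obj ⟨s⟩) ⟶ U (I.obj ⟨t⟩)), ∀ (b : R) (hb : b ∈ β.B s t),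
      L b = mapU (I.map (X := ⟨s⟩) (Y := ⟨t⟩) ⟨b, hb⟩) := by
  classical
  obtain ⟨L, hL⟩ := β.exists_lin s t (V := U (I.obj ⟨s⟩) ⟶ U (I.obj ⟨t⟩)) fun b =>
    if h : b ∈ β.B s t then mapU (I.map (X := ⟨s⟩) (Y := ⟨t⟩) ⟨b, h⟩) else 0
  exact ⟨L, fun b hb => by rw [hL b hb, dif_pos hb]⟩

theorem Rep.exists_resolution [EnoughInjectives A] [Finite S] (β : MBasis 𝒞) (hβ : β.Closed)
    (Γ : Rep 𝒞 A) (hb : ∀ s, ∃ a : ℤ, (Γ.W s).IsStrictlyGE a) :
    ∃ (Γ' : Rep 𝒞 A) (α : RepHom Γ Γ'), (∀ s, QuasiIso (α.α s)) ∧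
      (∀ s, ∃ a : ℤ, (Γ'.W s).IsStrictlyGE a) ∧ ∀ s n, Injective ((Γ'.W s).X n) := by
  obtain ⟨I, α, h1, h2, h3⟩ := exists_diagram_resolution (res2_diag β hβ Γ) fun x => hb x.s
  choose ρ hρ using res2_rho β hβ I
  have hhg : ∀ {s t : S} {n : ℤ} {a : R}, a ∈ 𝒞.sub s t n → Hg n (ρ s t a) := by
    intro s t n a ha
    refine β.ind (P := fun a => Hg n (ρ s t a)) ?_ ?_ ?_ ?_ ha
    · rw [map_zero]
      exact Hg.zero
    · intro a b ha hb
      rw [map_add]
      exact ha.add hb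
    · intro c a ha
      rw [map_smul]
      exact hg_smul c ha
    · rintro rfl b hb
      rw [hρ s t b hb]
      exact hg_mapU _
  have hcl : ∀ {s t : S} {n : ℤ} {a : R}, a ∈ 𝒞.sub s t n → dl n (ρ s t a) = 0 := by
    intro s t n a ha
    refine β.ind (P := fun a => dl n (ρ s t a) = 0) ?_ ?_ ?_ ?_ ha
    · rw [map_zero, dl_zero]
    · intro a b ha hb
      rw [map_add, dl_add, ha, hb, add_zero]
    · intro c a ha
      rw [map_smul, dl_smul, ha, smul_zero]
    · rintro rfl b hb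
      rw [hρ s t b hb, dl_mapU]
  have hmul : ∀ {s t u : S} {n m : ℤ} {a b : R}, a ∈ 𝒞.sub s t n → b ∈ 𝒞.sub t u m →
      ρ s u (a * b) = ρ s t a ≫ ρ t u b := by
    intro s t u n m a b ha hb
    refine β.ind (P := fun a => ρ s u (a * b) = ρ s t a ≫ ρ t u b) ?_ ?_ ?_ ?_ ha
    · rw [zero_mul, map_zero, map_zero, zero_comp]
    · intro a a' ha ha'
      rw [add_mul, map_add, map_add, Preadditive.add_comp, ha, ha']
    · intro c a ha
      rw [smul_mul_assoc, map_smul, map_smul, Linear.smul_comp, ha]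
    · intro _ a ha
      refine β.ind (P := fun b => ρ s u (a * b) = ρ s t a ≫ ρ t u b) ?_ ?_ ?_ ?_ hb
      · rw [mul_zero, map_zero, map_zero, comp_zero]
      · intro b b' hb hb'
        rw [mul_add, map_add, map_add, Preadditive.comp_add, hb, hb']
      · intro c b hb
        rw [mul_smul_comm, map_smul, map_smul, Linear.comp_smul, hb]
      · intro _ b hb
        rw [hρ s u _ (hβ _ _ _ _ _ ha hb), hρ s t a ha, hρ t u b hb, ← mapU_comp, ← I.map_comp]
        rfl
  have hone : ∀ s, ρ s s 1 = 𝟙 _ := by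
    intro s
    rw [hρ s s 1 (β.one_mem s), ← mapU_id, ← I.map_id]
    rfl
  obtain ⟨γ, hγ⟩ : ∃ γ : ∀ s, Γ.W s ⟶ I.obj ⟨s⟩, ∀ s, γ s = α.app ⟨s⟩ := ⟨_, fun _ => rfl⟩
  refine ⟨{ W := fun s => I.obj ⟨s⟩, ρ := ρ, hg := hhg, cl := hcl, mul := hmul, one := hone },
    { α := γ, nat := ?_ }, fun s => ?_, fun s => h2 ⟨s⟩, fun s n => h3 ⟨s⟩ n⟩
  · intro s t n a ha
    refine β.ind (P := fun a => Γ.ρ s t a ≫ mapU (γ t) = mapU (γ s) ≫ ρ s t a) ?_ ?_ ?_ ?_ ha
    · rw [map_zero, map_zero, zero_comp, comp_zero]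
    · intro a b ha hb
      rw [map_add, map_add, Preadditive.add_comp, Preadditive.comp_add, ha, hb]
    · intro c a ha
      rw [map_smul, map_smul, Linear.smul_comp, Linear.comp_smul, ha]
    · intro _ b hb
      rw [hρ s t b hb, ← Γ.mapU_ch (β.mem hb), ← mapU_comp, ← mapU_comp, hγ, hγ]
      exact congrArg mapU (α.naturality (X := ⟨s⟩) (Y := ⟨t⟩) ⟨b, hb⟩)
  · have := h1 ⟨s⟩
    rw [← hγ] at this
    exact this

end Pool.Agent.Work.MP_910138_ag.C0
end

-- merged part: Pool.Agent.Work.MP_910138_ag.C0.RMod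
section
/-! A strict model for a right derived functor on twisted complexes. -/

open CategoryTheory Limits CochainComplex.HomComplex

namespace Pool.Agent.Work.MP_910138_ag.C0

universe v u v' u'

variable {k R S : Type} [Field k] [Ring R] [Algebra k R] {𝒞 : GCat k R S}
  {A : Type u} [Category.{v} A] [Abelian A] [HasCoproductsOfShape ℤ A] [Linear k A]
  {B : Type u'} [Category.{v'} B] [Abelian B] [HasCoproductsOfShape ℤ B] [Linear k B]
  [HasDerivedCategory A] [HasDerivedCategory B] [EnoughInjectives A] [EnoughInjectives B]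

theorem Rep.exists_model [Finite S] (β : MBasis 𝒞) (hβ : β.Closed) (π : B ⥤ A) [π.Additive]
    [π.Linear k] (Γ : Rep 𝒞 B) (hb : ∀ s, ∃ a : ℤ, (Γ.W s).IsStrictlyGE a)
    (hΓ : ∀ Z, CochainComplex.plus B (Γ.Tot.obj Z)) :
    ∃ Γ' : Rep 𝒞 A, (∀ K s, KD K (Γ'.W s)) ∧
      Nonempty ((CochainComplex.plus B).lift Γ.Tot hΓ ⋙ RD π ≅ Γ'.L) := by
  obtain ⟨I, α, hα, hI, hinj⟩ := Rep.exists_resolution β hβ Γ hb
  obtain ⟨τ, hτ⟩ := α.exists_natTrans hα
  obtain ⟨η, hη⟩ := rmodel_unit π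
  obtain ⟨a⟩ := C0.dgAct_mapHomologicalComplex (k := k) π
  obtain ⟨Iπ, hW, ⟨e⟩⟩ := I.exists_mapT β.deg0 a
  obtain ⟨J, γ, hγ, hJ, hJinj⟩ := Rep.exists_resolution β hβ Iπ fun s => by
    obtain ⟨b, hb⟩ := hI s
    rw [hW]
    exact ⟨b, inferInstance⟩
  obtain ⟨σ, hσ⟩ := γ.exists_natTrans hγ
  let I' : Ob 𝒞 ⥤ CochainComplex.Plus B :=
    (CochainComplex.plus B).lift I.Tot fun Z => (I.ts Z).exists_ge fun x => hI _
  let τ' : (CochainComplex.plus B).lift Γ.Tot hΓ ⟶ I' :=
    { app := fun Z => ObjectProperty.homMk (τ.app Z)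
      naturality := fun _ _ f => ObjectProperty.hom_ext _ (τ.naturality f) }
  refine ⟨J, fun K s => ?_, ?_⟩
  · obtain ⟨b, hb⟩ := hJ s
    have := hJinj s
    have := CochainComplex.isKInjective_of_injective (J.W s) b
    exact kd_of_isKInjective
  · have h1 : ∀ Z, IsIso ((Functor.whiskerRight τ' (RD π)).app Z) := fun Z =>
      rmodel_inverts π (τ'.app Z) (hτ Z)
    have h2 : ∀ Z, IsIso ((Functor.whiskerLeft I' η).app Z) := fun Z =>
      hη (I'.obj Z) ((I.ts Z).injective fun x n => hinj _ n)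
    have h3 : ∀ Z, IsIso ((Functor.whiskerRight σ DerivedCategory.Q).app Z) := fun Z =>
      have := hσ Z
      inferInstanceAs (IsIso (DerivedCategory.Q.map (σ.app Z)))
    have := NatIso.isIso_of_isIso_app (Functor.whiskerRight τ' (RD π))
    have := NatIso.isIso_of_isIso_app (Functor.whiskerLeft I' η)
    have := NatIso.isIso_of_isIso_app (Functor.whiskerRight σ DerivedCategory.Q)
    exact ⟨asIso (Functor.whiskerRight τ' (RD π)) ≪≫ (asIso (Functor.whiskerLeft I' η)).symm ≪≫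
      Functor.isoWhiskerRight e DerivedCategory.Q ≪≫
      asIso (Functor.whiskerRight σ DerivedCategory.Q)⟩

end Pool.Agent.Work.MP_910138_ag.C0
end

-- merged part: Pool.Agent.Work.MP_910138_ag.C0.NonFM
section
/-! The exotic functor is not a derived functor of a functor acting on cochains. -/

open CategoryTheory Limits

namespace Pool.Agent.Work.MP_910138_ag.C0

universe v u v' u'

variable {k : Type} [Field k]
  {A : Type u} [Category.{v} A] [Abelian A] [HasCoproductsOfShape ℤ A] [Linear k A]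
  {B : Type u'} [Category.{v'} B] [Abelian B] [HasCoproductsOfShape ℤ B] [Linear k B]
  [HasDerivedCategory A] [HasDerivedCategory B] [EnoughInjectives A] [EnoughInjectives B]

theorem catA_neg_one (s t : Bool × Lb) : (catA k).sub s t (-1) = ⊥ := by
  change pairSub _ _ = _
  rw [aFst, aSnd, if_neg (by omega), if_neg (by omega), pairSub_bot]

theorem not_derived (ξ : Derivation ℤ k k) {Γ : Rep (catA k) A} (hΓ : Γ.QFF) (T : Cx A ⥤ Cx B)
    (a : DGAct k T) (hT : ∀ Z, CochainComplex.plus B ((Γ.Tot ⋙ T).obj Z)) (π : B ⥤ A)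
    [π.Additive] [π.Linear k]
    (θ : (sFun ξ).G Γ ≅ (CochainComplex.plus B).lift (Γ.Tot ⋙ T) hT ⋙ RD π) : ξ = 0 := by
  obtain ⟨β, hβ⟩ := exists_basis_catA0 k
  obtain ⟨Γ₁, hW, ⟨e⟩⟩ := (Γ.res (catA0_le k)).exists_mapT β.deg0 a
  obtain ⟨e₀, -⟩ := Γ.exists_genIso
  have hb : ∀ s, ∃ n : ℤ, (Γ₁.W s).IsStrictlyGE n := fun s => by
    rw [hW]
    exact (CochainComplex.plus B).prop_of_iso (T.mapIso (e₀ s)) (hT (genOb _ s))
  have h₁ : ∀ Z, CochainComplex.plus B (Γ₁.Tot.obj Z) := fun Z =>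
    (CochainComplex.plus B).prop_of_iso (e.app Z) (hT (incObj (catA0_le k) Z))
  obtain ⟨J, hJ, ⟨j⟩⟩ := Rep.exists_model β hβ π Γ₁ hb h₁
  let e' : incFun (catA0_le k) ⋙ (CochainComplex.plus B).lift (Γ.Tot ⋙ T) hT ≅
      (CochainComplex.plus B).lift Γ₁.Tot h₁ :=
    Functor.fullyFaithfulCancelRight (CochainComplex.plus B).ι e
  obtain ⟨c⟩ := nonempty_cmp (catA0_le k) β.deg0 catA_neg_one hΓ (sFun ξ)
    (fun s => isoD (sObj_gen_D ξ s)) (sMor_gen ξ) J hJ
    (Functor.isoWhiskerLeft (incFun (catA0_le k)) θ ≪≫ Functor.isoWhiskerRight e' (RD π) ≪≫ j)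
  exact c.der_eq_zero ξ

theorem not_derived' (ξ : Derivation ℤ k k) {Γ : Rep (catA k) A} (hΓ : Γ.QFF)
    (P : ObjectProperty (Cx A)) (hP : ∀ Z, P (Γ.Tot.obj Z))
    (hD : ∀ K : P.FullSubcategory, Γ.L.essImage ((P.ι ⋙ DerivedCategory.Q).obj K))
    (T : Cx A ⥤ Cx B) (a : DGAct k T)
    (hT : ∀ K : P.FullSubcategory, CochainComplex.plus B ((P.ι ⋙ T).obj K))
    (π : B ⥤ A) [π.Additive] [π.Linear k]
    (F : Γ.L.essImage.FullSubcategory ⥤ Γ.L.essImage.FullSubcategory)
    (η : Γ.L.toEssImage ⋙ F ⋙ Γ.L.essImage.ι ≅ (sFun ξ).G Γ)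
    (θ : Γ.L.essImage.lift (P.ι ⋙ DerivedCategory.Q) hD ⋙ F ⋙ Γ.L.essImage.ι ≅
      (CochainComplex.plus B).lift (P.ι ⋙ T) hT ⋙ RD π) : ξ = 0 :=
  not_derived ξ hΓ T a (fun Z => hT ⟨_, hP Z⟩) π
    (η.symm ≪≫ Functor.isoWhiskerLeft (P.lift Γ.Tot hP) θ)

end Pool.Agent.Work.MP_910138_ag.C0
end

-- merged part: Pool.Agent.Work.MP_910138_ag.C0.Der2
section
/-! The fields that have a nonzero derivation. -/

open Polynomial IntermediateField

namespace Pool.Agent.Work.MP_910138_ag.C0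

theorem der2_finrank {L K : Type} [Field L] [Field K] [Algebra L K] {p : ℕ} [Fact p.Prime]
    [CharP K p] {y : K} {a : L} (ha : algebraMap L K a = y ^ p)
    (hy : y ∉ (algebraMap L K).range) : IsIntegral L y ∧ Module.finrank L L⟮y⟯ = p := by
  have hp : p.Prime := Fact.out
  have hm : (X ^ p - C a : L[X]).Monic := monic_X_pow_sub_C a hp.ne_zero
  have h0 : aeval y (X ^ p - C a : L[X]) = 0 := by simp [ha]
  have hi : IsIntegral L y := ⟨_, hm, h0⟩
  have hirr : Irreducible (X ^ p - C a : L[X]) := X_pow_sub_C_irreducible_of_prime hp fun b hb =>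
    hy ⟨b, frobenius_inj K p (by rw [frobenius_def, frobenius_def, ← map_pow, hb, ha])⟩
  refine ⟨hi, ?_⟩
  rw [adjoin.finrank hi, ← minpoly.eq_of_irreducible_of_monic hirr h0 hm, natDegree_X_pow_sub_C]

theorem der2_of_not_unramified (L K : Type) [Field L] [Field K] [Algebra L K]
    (h : ¬ Algebra.FormallyUnramified L K) : ∃ ξ : Derivation ℤ K K, ξ ≠ 0 := by
  by_contra hc
  push Not at hc
  refine h ⟨subsingleton_of_forall_eq 0 fun w => ?_⟩
  refine (Module.forall_dual_apply_eq_zero_iff K w).1 fun f => ?_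
  have h1 : KaehlerDifferential.linearMapEquivDerivation L K f = 0 := by
    ext z
    exact DFunLike.congr_fun
      (hc ((KaehlerDifferential.linearMapEquivDerivation L K f).restrictScalars ℤ)) z
  rw [(map_eq_zero_iff _ (LinearEquiv.injective _)).1 h1, LinearMap.zero_apply]

theorem exists_derivation_imperfect (K : Type) [Field K] (h : ¬ PerfectField K) :
    ∃ ξ : Derivation ℤ K K, ξ ≠ 0 := by
  obtain ⟨p, hp⟩ := CharP.exists K
  rcases CharP.char_is_prime_or_zero K p with hp' | rfl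
  swap
  · have := CharP.charP_to_charZero K
    exact absurd PerfectField.ofCharZero h
  have : Fact p.Prime := ⟨hp'⟩
  obtain ⟨x, hx⟩ : ∃ x : K, x ∉ (frobenius K p).fieldRange := by
    by_contra hc
    push Not at hc
    have := PerfectRing.ofSurjective K p hc
    exact h (PerfectRing.toPerfectField K p)
  obtain ⟨L, hL, hmax⟩ := zorn_le_nonempty₀
    {L : Subfield K | (frobenius K p).fieldRange ≤ L ∧ x ∉ L} (fun c hc hch y hy =>
      ⟨sSup c, ⟨(hc hy).1.trans (le_sSup hy), fun hx' => by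
        obtain ⟨z, hz, hxz⟩ := (Subfield.mem_sSup_of_directedOn ⟨y, hy⟩ hch.directedOn).1 hx'
        exact (hc hz).2 hxz⟩, fun z hz => le_sSup hz⟩) _ ⟨le_rfl, hx⟩
  have hr : ∀ y : K, y ∉ L → y ∉ (algebraMap L K).range := fun y hy ⟨b, hb⟩ => hy (hb ▸ b.2)
  have key : ∀ y : K, y ∉ L → IsIntegral L y ∧ Module.finrank L L⟮y⟯ = p := fun y hy =>
    der2_finrank (a := ⟨y ^ p, hL ⟨y, rfl⟩⟩) rfl (hr y hy)
  have hx' := key x hmax.prop.2
  have htop : L⟮x⟯ = ⊤ := by
    refine eq_top_iff.2 fun y _ => ?_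
    by_cases hy : y ∈ L
    · exact IntermediateField.algebraMap_mem _ (⟨y, hy⟩ : L)
    have hle : L ≤ L⟮y⟯.toSubfield := fun z hz => IntermediateField.algebraMap_mem _ (⟨z, hz⟩ : L)
    have hxy : x ∈ L⟮y⟯ := by
      by_contra hn
      exact hy (hmax.le_of_ge ⟨hL.trans hle, hn⟩ hle (mem_adjoin_simple_self L y))
    have := adjoin.finiteDimensional (key y hy).1
    rw [eq_of_le_of_finrank_eq (adjoin_simple_le_iff.2 hxy) (hx'.2.trans (key y hy).2.symm)]
    exact mem_adjoin_simple_self L y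
  have : FiniteDimensional L K := by
    have := adjoin.finiteDimensional hx'.1
    rw [htop] at this
    exact IntermediateField.topEquiv.toLinearEquiv.finiteDimensional
  have : IsPurelyInseparable L K := (isPurelyInseparable_iff_pow_mem L p).2 fun z =>
    ⟨1, ⟨z ^ p, hL ⟨z, rfl⟩⟩, by rw [pow_one]; rfl⟩
  refine der2_of_not_unramified L K fun hu => hr x hmax.prop.2 ?_
  rw [Algebra.FormallyUnramified.range_eq_top_of_isPurelyInseparable L K]
  trivial

theorem exists_derivation_of (K : Type) [Field K]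
    (h : Algebra.Transcendental ℤ K ∨ ¬ PerfectField K) : ∃ ξ : Derivation ℤ K K, ξ ≠ 0 := by
  rcases h with h | h
  · obtain ⟨x, hx⟩ := h.transcendental
    have hi : Function.Injective (algebraMap ℤ K) := (injective_iff_map_eq_zero _).2 fun n hn => by
      by_contra hc
      exact hx ⟨C n, C_ne_zero.2 hc, by rw [aeval_C, hn]⟩
    have : CharZero K := charZero_of_injective_algebraMap hi
    refine exists_derivation K fun ha => hx ?_
    exact (IsFractionRing.isAlgebraic_iff ℤ ℚ K).2 (ha.isAlgebraic x)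
  · exact exists_derivation_imperfect K h

end Pool.Agent.Work.MP_910138_ag.C0
end
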