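import Pool.Agent.Work.MP_910138_ag.C0.LinBridge
import Pool.Agent.Work.MP_910138_ag.C0.MapT

-- merged part: Pool.Agent.Work.MP_910138_ag.C0.AinfA
section
/-! Coherent homotopies between two realisations that agree in the derived category. -/

open CategoryTheory Limits CochainComplex.HomComplex

namespace Pool.Agent.Work.MP_910138_ag.C0

universe v u

variable {k R S : Type} [Field k] [Ring R] [Algebra k R] {𝒞₀ 𝒞 : GCat k R S}
  {A : Type u} [Category.{v} A] [Abelian A] [HasCoproductsOfShape ℤ A] [Linear k A]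

/-- coherent homotopies up to order three -/
structure Coh (𝒞₀ : GCat k R S) (Γ : Rep 𝒞 A) (J : Rep 𝒞₀ A) (φ : ∀ s, Γ.W s ⟶ J.W s) where
  h : ∀ s t, R →ₗ[k] (U (Γ.W s) ⟶ U (J.W t))
  κ : ∀ s (_ : S) u, R →ₗ[k] R →ₗ[k] (U (Γ.W s) ⟶ U (J.W u))
  ψ : ∀ (_ _ _ _ : S), R →ₗ[k] R →ₗ[k] R →ₗ[k] R
  l : ∀ s (_ _ : S) v, R →ₗ[k] R →ₗ[k] R →ₗ[k] (U (Γ.W s) ⟶ U (J.W v))
  hg_h : ∀ {s t : S} {a : R}, a ∈ 𝒞₀.sub s t 0 → Hg (-1) (h s t a)
  dl_h : ∀ {s t : S} {a : R}, a ∈ 𝒞₀.sub s t 0 →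
    dl (-1) (h s t a) = Γ.ρ s t a ≫ mapU (φ t) - mapU (φ s) ≫ J.ρ s t a
  hg_κ : ∀ {s t u : S} {a b : R}, a ∈ 𝒞₀.sub s t 0 → b ∈ 𝒞₀.sub t u 0 → Hg (-2) (κ s t u a b)
  dl_κ : ∀ {s t u : S} {a b : R}, a ∈ 𝒞₀.sub s t 0 → b ∈ 𝒞₀.sub t u 0 →
    dl (-2) (κ s t u a b) = Γ.ρ s t a ≫ h t u b + h s t a ≫ J.ρ t u b - h s u (a * b)
  mem_ψ : ∀ {s t u v : S} {a b c : R}, a ∈ 𝒞₀.sub s t 0 → b ∈ 𝒞₀.sub t u 0 → c ∈ 𝒞₀.sub u v 0 →
    ψ s t u v a b c ∈ 𝒞.sub s v (-2)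
  hg_l : ∀ {s t u v : S} {a b c : R}, a ∈ 𝒞₀.sub s t 0 → b ∈ 𝒞₀.sub t u 0 → c ∈ 𝒞₀.sub u v 0 →
    Hg (-3) (l s t u v a b c)
  dl_l : ∀ {s t u v : S} {a b c : R}, a ∈ 𝒞₀.sub s t 0 → b ∈ 𝒞₀.sub t u 0 → c ∈ 𝒞₀.sub u v 0 →
    Γ.ρ s t a ≫ κ t u v b c - κ s u v (a * b) c + κ s t v a (b * c) - κ s t u a b ≫ J.ρ u v c =
      Γ.ρ s v (ψ s t u v a b c) ≫ mapU (φ v) + dl (-3) (l s t u v a b c)

section ainfa

variable {E F : Type*} [AddCommGroup E] [Module k E] [AddCommGroup F] [Module k F]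

/-- a linear section over the image of a submodule -/
theorem ainfa_sec (E₀ : Submodule k E) (p : E →ₗ[k] F) :
    ∃ r : F →ₗ[k] E, ∀ y, (∃ e ∈ E₀, p e = y) → r y ∈ E₀ ∧ p (r y) = y := by
  obtain ⟨g, hg⟩ := (p.domRestrict E₀).rangeRestrict.exists_rightInverse_of_surjective
    (p.domRestrict E₀).range_rangeRestrict
  obtain ⟨r, hr⟩ := LinearMap.exists_extend (E₀.subtype ∘ₗ g)
  refine ⟨r, ?_⟩
  rintro y ⟨e, he, rfl⟩
  have h1 : r (p e) = (g ⟨p e, ⟨e, he⟩, rfl⟩ : E) :=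
    LinearMap.congr_fun hr ⟨p e, ⟨e, he⟩, rfl⟩
  rw [h1]
  exact ⟨Subtype.prop _, congrArg Subtype.val (LinearMap.congr_fun hg ⟨p e, ⟨e, he⟩, rfl⟩)⟩

theorem ainfa_bi (f : R → R → F) (h1 : ∀ b, IsLinearMap k fun a => f a b)
    (h2 : ∀ a, IsLinearMap k (f a)) : ∃ g : R →ₗ[k] R →ₗ[k] F, ∀ a b, g a b = f a b :=
  ⟨LinearMap.mk₂ k f (fun a a' b => (h1 b).map_add a a') (fun c a b => (h1 b).map_smul c a)
    (fun a => (h2 a).map_add) (fun c a b => (h2 a).map_smul c b), fun _ _ => rfl⟩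

theorem ainfa_tri (f : R → R → R → F) (h1 : ∀ b c, IsLinearMap k fun a => f a b c)
    (h2 : ∀ a c, IsLinearMap k fun b => f a b c) (h3 : ∀ a b, IsLinearMap k (f a b)) :
    ∃ g : R →ₗ[k] R →ₗ[k] R →ₗ[k] F, ∀ a b c, g a b c = f a b c := by
  obtain ⟨g, hg⟩ := ainfa_bi (k := k) (fun a b => (h3 a b).mk' (f a b))
    (fun b => ⟨fun a a' => LinearMap.ext fun c => (h1 b c).map_add a a',
      fun x a => LinearMap.ext fun c => (h1 b c).map_smul x a⟩)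
    (fun a => ⟨fun b b' => LinearMap.ext fun c => (h2 a c).map_add b b',
      fun x b => LinearMap.ext fun c => (h2 a c).map_smul x b⟩)
  exact ⟨g, fun a b c => by rw [hg]; rfl⟩

variable (k) in
/-- the homogeneous maps of a given degree -/
def ainfa_hg (K L : Cx A) (n : ℤ) : Submodule k (U K ⟶ U L) where
  carrier := {f | Hg n f}
  add_mem' := Hg.add
  zero_mem' := Hg.zero
  smul_mem' c _ hf := hg_smul c hf

variable (k) in
/-- the differential as a linear map -/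
noncomputable def ainfa_dl (K L : Cx A) (n : ℤ) : (U K ⟶ U L) →ₗ[k] (U K ⟶ U L) where
  toFun := dl n
  map_add' := dl_add
  map_smul' := dl_smul

theorem ainfa_sec_dl (K L : Cx A) (n : ℤ) : ∃ r : (U K ⟶ U L) →ₗ[k] (U K ⟶ U L),
    ∀ y, (∃ e, Hg n e ∧ y = dl n e) → Hg n (r y) ∧ dl n (r y) = y := by
  obtain ⟨r, hr⟩ := ainfa_sec (ainfa_hg k K L n) (ainfa_dl k K L n)
  exact ⟨r, fun y ⟨e, he, h⟩ => hr y ⟨e, he, h.symm⟩⟩

theorem ainfa_dl_left {K L M : Cx A} {n : ℤ} {f : U K ⟶ U L} (hf : dl 0 f = 0) (g : U L ⟶ U M) :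
    dl n (f ≫ g) = f ≫ dl n g := by
  rw [dl_comp f g (zero_add n), hf, zero_comp, smul_zero, add_zero]

theorem ainfa_dl_right {K L M : Cx A} {n : ℤ} (f : U K ⟶ U L) {g : U L ⟶ U M} (hg : dl 0 g = 0) :
    dl n (f ≫ g) = dl n f ≫ g := by
  rw [dl_comp f g (add_zero n), hg, comp_zero, zero_add, sg_zero, one_smul]

end ainfa

variable [HasDerivedCategory A]

open DerivedCategory

theorem ainfa_closed {Γ : Rep 𝒞 A} (hΓ : Γ.QFF) {s t : S} {L : Cx A} (hL : KD (Γ.W s) L)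
    (φ : Γ.W t ⟶ L) (hφ : QuasiIso φ) {n m : ℤ} (hm : n - 1 = m) {f : U (Γ.W s) ⟶ U L}
    (hf : Hg n f) (hf' : dl n f = 0) :
    ∃ a ∈ 𝒞.sub s t n, ∃ l, Hg m l ∧ f = Γ.ρ s t a ≫ mapU φ + dl m l := by
  subst hm
  obtain ⟨g, h, hg, hg', hh, rfl⟩ := (hΓ.kd s t).post_surj hL φ hf hf'
  obtain ⟨a, ha, ψ, hψ, rfl⟩ := hΓ.surj s t n g hg hg'
  refine ⟨a, ha, ψ ≫ mapU φ + h, (hψ.comp (hg_mapU φ) (add_zero _)).add hh, ?_⟩
  rw [dl_add, dl_comp_mapU, Preadditive.add_comp, add_assoc]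

theorem nonempty_coh (hle : 𝒞₀.Le 𝒞) (h1 : ∀ s t, 𝒞.sub s t (-1) = ⊥) {Γ : Rep 𝒞 A} (hΓ : Γ.QFF)
    (J : Rep 𝒞₀ A) (hJ : ∀ K s, KD K (J.W s)) (φ : ∀ s, Γ.W s ⟶ J.W s)
    (hφ : ∀ s, QuasiIso (φ s))
    (hnat : ∀ (s t : S) (a : R) (ha : a ∈ 𝒞₀.sub s t 0),
      Q.map (Γ.ch (hle _ _ _ ha)) ≫ Q.map (φ t) = Q.map (φ s) ≫ Q.map (J.ch ha)) :
    Nonempty (Coh 𝒞₀ Γ J φ) := by
  have e1 : ∀ s t, ∃ h : R →ₗ[k] (U (Γ.W s) ⟶ U (J.W t)), ∀ a ∈ 𝒞₀.sub s t 0, Hg (-1) (h a) ∧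
      dl (-1) (h a) = Γ.ρ s t a ≫ mapU (φ t) - mapU (φ s) ≫ J.ρ s t a := by
    intro s t
    obtain ⟨r, hr⟩ := ainfa_sec_dl (k := k) (Γ.W s) (J.W t) (-1)
    refine ⟨r ∘ₗ (Linear.rightComp k _ (mapU (φ t)) ∘ₗ Γ.ρ s t -
      Linear.leftComp k _ (mapU (φ s)) ∘ₗ J.ρ s t), fun a ha => hr _ ?_⟩
    obtain ⟨e, he, h⟩ := (hJ (Γ.W s) t).exact_of_map_eq (φ := Γ.ch (hle _ _ _ ha) ≫ φ t)
      (ψ := φ s ≫ J.ch ha) (by rw [Q.map_comp, Q.map_comp, hnat s t a ha])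
    rw [mapU_comp, mapU_comp, Rep.mapU_ch, Rep.mapU_ch] at h
    exact ⟨e, he, h⟩
  choose h hh using e1
  have e2 : ∀ s t u, ∃ κ : R →ₗ[k] R →ₗ[k] (U (Γ.W s) ⟶ U (J.W u)), ∀ a ∈ 𝒞₀.sub s t 0,
      ∀ b ∈ 𝒞₀.sub t u 0, Hg (-2) (κ a b) ∧
        dl (-2) (κ a b) = Γ.ρ s t a ≫ h t u b + h s t a ≫ J.ρ t u b - h s u (a * b) := by
    intro s t u
    obtain ⟨r, hr⟩ := ainfa_sec_dl (k := k) (Γ.W s) (J.W u) (-2)
    obtain ⟨g, hg⟩ := ainfa_bi (k := k)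
      (fun a b => Γ.ρ s t a ≫ h t u b + h s t a ≫ J.ρ t u b - h s u (a * b))
      (fun b => ⟨fun a a' => by
        simp only [map_add, add_mul, Preadditive.add_comp]; abel, fun c a => by
        simp only [map_smul, smul_mul_assoc, Linear.smul_comp, smul_add, smul_sub]⟩)
      (fun a => ⟨fun b b' => by
        simp only [map_add, mul_add, Preadditive.comp_add]; abel, fun c b => by
        simp only [map_smul, mul_smul_comm, Linear.comp_smul, smul_add, smul_sub]⟩)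
    refine ⟨g.compr₂ r, fun a ha b hb => ?_⟩
    rw [LinearMap.compr₂_apply, hg]
    refine hr _ ?_
    have ha' := hle _ _ _ ha
    have hab := 𝒞₀.mul_mem ha hb (add_zero 0)
    obtain ⟨x, hx, l, hl, e⟩ := ainfa_closed hΓ (hJ (Γ.W s) u) (φ u) (hφ u) (n := -1) (m := -2)
      (by norm_num) (f := Γ.ρ s t a ≫ h t u b + h s t a ≫ J.ρ t u b - h s u (a * b))
      (hg_sub (((Γ.hg ha').comp (hh t u b hb).1 (zero_add _)).add
        ((hh s t a ha).1.comp (J.hg hb) (add_zero _))) (hh s u _ hab).1) (by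
        rw [dl_sub, dl_add, ainfa_dl_left (Γ.cl ha'), ainfa_dl_right _ (J.cl hb), (hh t u b hb).2,
          (hh s t a ha).2, (hh s u _ hab).2, Γ.mul ha' (hle _ _ _ hb), J.mul ha hb]
        simp only [Preadditive.comp_sub, Preadditive.sub_comp, Category.assoc]
        abel)
    rw [h1, Submodule.mem_bot] at hx
    rw [hx, map_zero, zero_comp, zero_add] at e
    exact ⟨l, hl, e⟩
  choose κ hκ using e2
  have e3 : ∀ s t u v, ∃ (ψ : R →ₗ[k] R →ₗ[k] R →ₗ[k] R)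
      (l : R →ₗ[k] R →ₗ[k] R →ₗ[k] (U (Γ.W s) ⟶ U (J.W v))), ∀ a ∈ 𝒞₀.sub s t 0,
      ∀ b ∈ 𝒞₀.sub t u 0, ∀ c ∈ 𝒞₀.sub u v 0, ψ a b c ∈ 𝒞.sub s v (-2) ∧ Hg (-3) (l a b c) ∧
        Γ.ρ s t a ≫ κ t u v b c - κ s u v (a * b) c + κ s t v a (b * c) -
          κ s t u a b ≫ J.ρ u v c = Γ.ρ s v (ψ a b c) ≫ mapU (φ v) + dl (-3) (l a b c) := by
    intro s t u v
    obtain ⟨r, hr⟩ := ainfa_sec ((𝒞.sub s v (-2)).prod (ainfa_hg k (Γ.W s) (J.W v) (-3)))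
      (LinearMap.coprod (Linear.rightComp k _ (mapU (φ v)) ∘ₗ Γ.ρ s v)
        (ainfa_dl k (Γ.W s) (J.W v) (-3)))
    obtain ⟨g, hg⟩ := ainfa_tri (k := k)
      (fun a b c => Γ.ρ s t a ≫ κ t u v b c - κ s u v (a * b) c + κ s t v a (b * c) -
        κ s t u a b ≫ J.ρ u v c)
      (fun b c => ⟨fun a a' => by
        simp only [map_add, add_mul, Preadditive.add_comp, LinearMap.add_apply]; abel, fun x a => by
        simp only [map_smul, smul_mul_assoc, Linear.smul_comp, smul_add, smul_sub,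
          LinearMap.smul_apply]⟩)
      (fun a c => ⟨fun b b' => by
        simp only [map_add, mul_add, add_mul, Preadditive.comp_add, Preadditive.add_comp,
          LinearMap.add_apply]; abel, fun x b => by
        simp only [map_smul, mul_smul_comm, smul_mul_assoc, Linear.comp_smul, Linear.smul_comp,
          smul_add, smul_sub, LinearMap.smul_apply]⟩)
      (fun a b => ⟨fun c c' => by
        simp only [map_add, mul_add, Preadditive.comp_add]; abel, fun x c => by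
        simp only [map_smul, mul_smul_comm, Linear.comp_smul, smul_add, smul_sub]⟩)
    refine ⟨g.compr₂ (LinearMap.llcomp k R _ R (LinearMap.fst k _ _ ∘ₗ r)),
      g.compr₂ (LinearMap.llcomp k R _ _ (LinearMap.snd k _ _ ∘ₗ r)), fun a ha b hb c hc => ?_⟩
    have ha' := hle _ _ _ ha
    have hab := 𝒞₀.mul_mem ha hb (add_zero 0)
    have hbc := 𝒞₀.mul_mem hb hc (add_zero 0)
    obtain ⟨x, hx, l, hl, e⟩ := ainfa_closed hΓ (hJ (Γ.W s) v) (φ v) (hφ v) (n := -2) (m := -3)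
      (by norm_num) (f := Γ.ρ s t a ≫ κ t u v b c - κ s u v (a * b) c + κ s t v a (b * c) -
        κ s t u a b ≫ J.ρ u v c)
      (hg_sub ((hg_sub ((Γ.hg ha').comp (hκ t u v b hb c hc).1 (zero_add _))
        (hκ s u v _ hab c hc).1).add (hκ s t v a ha _ hbc).1)
        ((hκ s t u a ha b hb).1.comp (J.hg hc) (add_zero _))) (by
        rw [dl_sub, dl_add, dl_sub, ainfa_dl_left (Γ.cl ha'), ainfa_dl_right _ (J.cl hc),
          (hκ t u v b hb c hc).2, (hκ s u v _ hab c hc).2, (hκ s t v a ha _ hbc).2,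
          (hκ s t u a ha b hb).2, Γ.mul ha' (hle _ _ _ hb), J.mul hb hc, mul_assoc]
        simp only [Preadditive.comp_sub, Preadditive.sub_comp, Preadditive.comp_add,
          Preadditive.add_comp, Category.assoc]
        abel)
    obtain ⟨⟨h2, h3⟩, h4⟩ := hr (g a b c) ⟨(x, l), ⟨hx, hl⟩, by rw [hg]; exact e.symm⟩
    exact ⟨h2, h3, (hg a b c).symm.trans h4.symm⟩
  choose ψ l hl using e3
  exact ⟨⟨h, κ, ψ, l, fun ha => (hh _ _ _ ha).1, fun ha => (hh _ _ _ ha).2,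
    fun ha hb => (hκ _ _ _ _ ha _ hb).1, fun ha hb => (hκ _ _ _ _ ha _ hb).2,
    fun ha hb hc => (hl _ _ _ _ _ ha _ hb _ hc).1, fun ha hb hc => (hl _ _ _ _ _ ha _ hb _ hc).2.1,
    fun ha hb hc => (hl _ _ _ _ _ ha _ hb _ hc).2.2⟩⟩

end Pool.Agent.Work.MP_910138_ag.C0
end

-- merged part: Pool.Agent.Work.MP_910138_ag.C0.AinfB
section
/-! Comparison of total complexes of length at most two. -/

open CategoryTheory Limits CochainComplex.HomComplex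

namespace Pool.Agent.Work.MP_910138_ag.C0

universe v u

variable {k R S : Type} [Field k] [Ring R] [Algebra k R] {𝒞₀ 𝒞 : GCat k R S}

/-- the generators lie in degrees `0, 1, 2` -/
def Deg02 (Z : Ob 𝒞₀) : Prop := ∀ x, 0 ≤ Z.deg x ∧ Z.deg x ≤ 2

/-- the correction term of a map -/
def psi3 (ψ : ∀ (_ _ _ _ : S), R →ₗ[k] R →ₗ[k] R →ₗ[k] R) (X Y : Ob 𝒞₀)
    (f : Matrix X.G Y.G R) : Matrix X.G Y.G R := fun x y =>
  ∑ z, ∑ w, ψ (X.lab x) (X.lab z) (X.lab w) (Y.lab y) (X.D x z) (X.D z w) (f w y) -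
  ∑ z, ∑ w, ψ (X.lab x) (X.lab z) (Y.lab w) (Y.lab y) (X.D x z) (f z w) (Y.D w y) +
  ∑ z, ∑ w, ψ (X.lab x) (Y.lab z) (Y.lab w) (Y.lab y) (f x z) (Y.D z w) (Y.D w y)

section aux

variable {A : Type u} [Category.{v} A] [Abelian A] [HasCoproductsOfShape ℤ A] [Linear k A]
  {Γ : Rep 𝒞 A} {J : Rep 𝒞₀ A} {φ : ∀ s, Γ.W s ⟶ J.W s} (c : Coh 𝒞₀ Γ J φ)
  {X Y Z T : Gn S} {n m p e : ℤ}

theorem ainfb_zero (h0 : 𝒞₀.Deg0) {a : Matrix X.G Y.G R} (ha : SP 𝒞₀ X Y n a) {x : X.G} {y : Y.G}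
    (h : n + X.deg x ≠ Y.deg y) : a x y = 0 := by
  have := ha x y
  rwa [h0 _ _ _ (by omega), Submodule.mem_bot] at this

theorem ainfb_mem (h0 : 𝒞₀.Deg0) {a : Matrix X.G Y.G R} (ha : SP 𝒞₀ X Y n a) (x : X.G) (y : Y.G) :
    a x y ∈ 𝒞₀.sub (X.lab x) (Y.lab y) 0 := by
  by_cases h : n + X.deg x = Y.deg y
  · have := ha x y
    rwa [show n + X.deg x - Y.deg y = 0 by omega] at this
  · rw [ainfb_zero h0 ha h]
    exact zero_mem _

/-- first homotopies of a matrix -/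
noncomputable def ainfb_h (a : Matrix X.G Y.G R) (x : X.G) (y : Y.G) :
    U (Γ.W (X.lab x)) ⟶ U (J.W (Y.lab y)) := c.h _ _ (a x y)

/-- second homotopies of two matrices -/
noncomputable def ainfb_k (a : Matrix X.G Y.G R) (b : Matrix Y.G Z.G R) (x : X.G) (z : Z.G) :
    U (Γ.W (X.lab x)) ⟶ U (J.W (Z.lab z)) := ∑ y, c.κ _ (Y.lab y) _ (a x y) (b y z)

/-- third homotopies of three matrices -/
noncomputable def ainfb_l (a : Matrix X.G Y.G R) (b : Matrix Y.G Z.G R) (d : Matrix Z.G T.G R)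
    (x : X.G) (t : T.G) : U (Γ.W (X.lab x)) ⟶ U (J.W (T.lab t)) :=
  ∑ y, ∑ z, c.l _ (Y.lab y) (Z.lab z) _ (a x y) (b y z) (d z t)

/-- the obstruction of three matrices -/
noncomputable def ainfb_p (a : Matrix X.G Y.G R) (b : Matrix Y.G Z.G R) (d : Matrix Z.G T.G R) :
    Matrix X.G T.G R := fun x t =>
  ∑ y, ∑ z, c.ψ (X.lab x) (Y.lab y) (Z.lab z) (T.lab t) (a x y) (b y z) (d z t)

variable {a : Matrix X.G Y.G R} {b : Matrix Y.G Z.G R} {d : Matrix Z.G T.G R}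

theorem ainfb_h_zero (h0 : 𝒞₀.Deg0) (ha : SP 𝒞₀ X Y n a) {x : X.G} {y : Y.G}
    (h : n + X.deg x ≠ Y.deg y) : ainfb_h c a x y = 0 := by
  rw [ainfb_h, ainfb_zero h0 ha h, map_zero]

theorem ainfb_k_zero (h0 : 𝒞₀.Deg0) (ha : SP 𝒞₀ X Y n a) (hb : SP 𝒞₀ Y Z m b) {x : X.G} {z : Z.G}
    (h : n + m + X.deg x ≠ Z.deg z) : ainfb_k c a b x z = 0 := by
  refine Finset.sum_eq_zero fun y _ => ?_
  by_cases h1 : n + X.deg x = Y.deg y
  · rw [ainfb_zero h0 hb (by omega), map_zero]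
  · rw [ainfb_zero h0 ha h1, map_zero, LinearMap.zero_apply]

theorem ainfb_l_zero (h0 : 𝒞₀.Deg0) (ha : SP 𝒞₀ X Y n a) (hb : SP 𝒞₀ Y Z m b)
    (hd : SP 𝒞₀ Z T p d) {x : X.G} {t : T.G}
    (h : n + m + p + X.deg x ≠ T.deg t) : ainfb_l c a b d x t = 0 := by
  refine Finset.sum_eq_zero fun y _ => Finset.sum_eq_zero fun z _ => ?_
  by_cases h1 : n + X.deg x = Y.deg y
  · by_cases h2 : m + Y.deg y = Z.deg z
    · rw [ainfb_zero h0 hd (by omega), map_zero]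
    · rw [ainfb_zero h0 hb h2, map_zero, LinearMap.zero_apply]
  · rw [ainfb_zero h0 ha h1, map_zero, LinearMap.zero_apply, LinearMap.zero_apply]

theorem ainfb_p_zero (h0 : 𝒞₀.Deg0) (ha : SP 𝒞₀ X Y n a) (hb : SP 𝒞₀ Y Z m b)
    (hd : SP 𝒞₀ Z T p d) {x : X.G} {t : T.G}
    (h : n + m + p + X.deg x ≠ T.deg t) : ainfb_p c a b d x t = 0 := by
  refine Finset.sum_eq_zero fun y _ => Finset.sum_eq_zero fun z _ => ?_
  by_cases h1 : n + X.deg x = Y.deg y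
  · by_cases h2 : m + Y.deg y = Z.deg z
    · rw [ainfb_zero h0 hd (by omega), map_zero]
    · rw [ainfb_zero h0 hb h2, map_zero, LinearMap.zero_apply]
  · rw [ainfb_zero h0 ha h1, map_zero, LinearMap.zero_apply, LinearMap.zero_apply]

theorem ainfb_hg_h (h0 : 𝒞₀.Deg0) (ha : SP 𝒞₀ X Y n a) (x : X.G) (y : Y.G)
    (he : e = n + X.deg x - Y.deg y - 1) : Hg e (ainfb_h c a x y) := by
  by_cases h : n + X.deg x = Y.deg y
  · exact (c.hg_h (ainfb_mem h0 ha x y)).of_eq (by omega)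
  · rw [ainfb_h_zero c h0 ha h]
    exact Hg.zero

theorem ainfb_hg_k (h0 : 𝒞₀.Deg0) (ha : SP 𝒞₀ X Y n a) (hb : SP 𝒞₀ Y Z m b) (x : X.G) (z : Z.G)
    (he : e = n + m + X.deg x - Z.deg z - 2) : Hg e (ainfb_k c a b x z) := by
  by_cases h : n + m + X.deg x = Z.deg z
  · exact Hg.sum _ fun y _ =>
      (c.hg_κ (ainfb_mem h0 ha x y) (ainfb_mem h0 hb y z)).of_eq (by omega)
  · rw [ainfb_k_zero c h0 ha hb h]
    exact Hg.zero

theorem ainfb_hg_l (h0 : 𝒞₀.Deg0) (ha : SP 𝒞₀ X Y n a) (hb : SP 𝒞₀ Y Z m b)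
    (hd : SP 𝒞₀ Z T p d) (x : X.G) (t : T.G)
    (he : e = n + m + p + X.deg x - T.deg t - 3) : Hg e (ainfb_l c a b d x t) := by
  by_cases h : n + m + p + X.deg x = T.deg t
  · exact Hg.sum _ fun y _ => Hg.sum _ fun z _ =>
      (c.hg_l (ainfb_mem h0 ha x y) (ainfb_mem h0 hb y z) (ainfb_mem h0 hd z t)).of_eq (by omega)
  · rw [ainfb_l_zero c h0 ha hb hd h]
    exact Hg.zero

theorem ainfb_sp_p (h0 : 𝒞₀.Deg0) (ha : SP 𝒞₀ X Y n a) (hb : SP 𝒞₀ Y Z m b)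
    (hd : SP 𝒞₀ Z T p d) (he : e = n + m + p - 2) : SP 𝒞 X T e (ainfb_p c a b d) := by
  intro x t
  by_cases h : n + m + p + X.deg x = T.deg t
  · rw [show e + X.deg x - T.deg t = -2 by omega]
    exact sum_mem fun y _ => sum_mem fun z _ =>
      c.mem_ψ (ainfb_mem h0 ha x y) (ainfb_mem h0 hb y z) (ainfb_mem h0 hd z t)
  · rw [ainfb_p_zero c h0 ha hb hd h]
    exact zero_mem _

theorem ainfb_dl_h (h0 : 𝒞₀.Deg0) (ha : SP 𝒞₀ X Y n a) (x : X.G) (y : Y.G)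
    (he : e = n + X.deg x - Y.deg y - 1) : dl e (ainfb_h c a x y) =
      Γ.rl a x y ≫ mapU (φ (Y.lab y)) - mapU (φ (X.lab x)) ≫ J.rl a x y := by
  by_cases h : n + X.deg x = Y.deg y
  · rw [show e = -1 by omega]
    exact c.dl_h (ainfb_mem h0 ha x y)
  · rw [ainfb_h_zero c h0 ha h, dl_zero, Rep.rl, Rep.rl, ainfb_zero h0 ha h, map_zero, map_zero,
      zero_comp, comp_zero, sub_zero]

theorem ainfb_dl_k (h0 : 𝒞₀.Deg0) (ha : SP 𝒞₀ X Y n a) (hb : SP 𝒞₀ Y Z m b) (x : X.G) (z : Z.G)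
    (he : e = n + m + X.deg x - Z.deg z - 2) : dl e (ainfb_k c a b x z) =
      ∑ y, Γ.rl a x y ≫ ainfb_h c b y z + ∑ y, ainfb_h c a x y ≫ J.rl b y z -
        ainfb_h c (a * b) x z := by
  have key : dl (-2) (ainfb_k c a b x z) =
      ∑ y, Γ.rl a x y ≫ ainfb_h c b y z + ∑ y, ainfb_h c a x y ≫ J.rl b y z -
        ainfb_h c (a * b) x z := by
    rw [ainfb_k, dl_sum, ainfb_h, Matrix.mul_apply, map_sum, ← Finset.sum_add_distrib,
      ← Finset.sum_sub_distrib]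
    exact Finset.sum_congr rfl fun y _ => c.dl_κ (ainfb_mem h0 ha x y) (ainfb_mem h0 hb y z)
  by_cases h : n + m + X.deg x = Z.deg z
  · rw [show e = -2 by omega, key]
  · rw [← key, ainfb_k_zero c h0 ha hb h, dl_zero, dl_zero]

theorem ainfb_dl_l (h0 : 𝒞₀.Deg0) (ha : SP 𝒞₀ X Y n a) (hb : SP 𝒞₀ Y Z m b)
    (hd : SP 𝒞₀ Z T p d) (x : X.G) (t : T.G)
    (he : e = n + m + p + X.deg x - T.deg t - 3) : dl e (ainfb_l c a b d x t) =
      ∑ y, Γ.rl a x y ≫ ainfb_k c b d y t - ainfb_k c (a * b) d x t + ainfb_k c a (b * d) x t -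
        ∑ z, ainfb_k c a b x z ≫ J.rl d z t -
        Γ.rl (ainfb_p c a b d) x t ≫ mapU (φ (T.lab t)) := by
  have key : dl (-3) (ainfb_l c a b d x t) =
      ∑ y, Γ.rl a x y ≫ ainfb_k c b d y t - ainfb_k c (a * b) d x t + ainfb_k c a (b * d) x t -
        ∑ z, ainfb_k c a b x z ≫ J.rl d z t -
        Γ.rl (ainfb_p c a b d) x t ≫ mapU (φ (T.lab t)) := by
    have e1 : ∑ y, Γ.rl a x y ≫ ainfb_k c b d y t = ∑ y, ∑ z,
        Γ.ρ _ _ (a x y) ≫ c.κ (Y.lab y) (Z.lab z) (T.lab t) (b y z) (d z t) :=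
      Finset.sum_congr rfl fun y _ => by rw [ainfb_k, Preadditive.comp_sum, Rep.rl]
    have e2 : ainfb_k c (a * b) d x t = ∑ y, ∑ z,
        c.κ (X.lab x) (Z.lab z) (T.lab t) (a x y * b y z) (d z t) := by
      rw [ainfb_k, Finset.sum_comm]
      exact Finset.sum_congr rfl fun z _ => by
        rw [Matrix.mul_apply, map_sum, LinearMap.sum_apply]
    have e3 : ainfb_k c a (b * d) x t = ∑ y, ∑ z,
        c.κ (X.lab x) (Y.lab y) (T.lab t) (a x y) (b y z * d z t) :=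
      Finset.sum_congr rfl fun y _ => by rw [Matrix.mul_apply, map_sum]
    have e4 : ∑ z, ainfb_k c a b x z ≫ J.rl d z t = ∑ y, ∑ z,
        c.κ (X.lab x) (Y.lab y) (Z.lab z) (a x y) (b y z) ≫ J.ρ _ _ (d z t) := by
      rw [Finset.sum_comm]
      exact Finset.sum_congr rfl fun z _ => by rw [ainfb_k, Preadditive.sum_comp, Rep.rl]
    have e5 : Γ.rl (ainfb_p c a b d) x t ≫ mapU (φ (T.lab t)) = ∑ y, ∑ z,
        Γ.ρ _ _ (c.ψ (X.lab x) (Y.lab y) (Z.lab z) (T.lab t) (a x y) (b y z) (d z t)) ≫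
          mapU (φ (T.lab t)) := by
      rw [Rep.rl, ainfb_p, map_sum, Preadditive.sum_comp]
      exact Finset.sum_congr rfl fun y _ => by rw [map_sum, Preadditive.sum_comp]
    rw [e1, e2, e3, e4, e5, ainfb_l, dl_sum]
    simp only [← Finset.sum_add_distrib, ← Finset.sum_sub_distrib]
    refine Finset.sum_congr rfl fun y _ => ?_
    rw [dl_sum]
    refine Finset.sum_congr rfl fun z _ => ?_
    rw [c.dl_l (ainfb_mem h0 ha x y) (ainfb_mem h0 hb y z) (ainfb_mem h0 hd z t),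
      add_sub_cancel_left]
  by_cases h : n + m + p + X.deg x = T.deg t
  · rw [show e = -3 by omega, key]
  · rw [← key, ainfb_l_zero c h0 ha hb hd h, dl_zero, dl_zero]

theorem ainfb_h_0 (x : X.G) (y : Y.G) : ainfb_h c (0 : Matrix X.G Y.G R) x y = 0 := map_zero _

theorem ainfb_k_0l (x : X.G) (z : Z.G) : ainfb_k c (0 : Matrix X.G Y.G R) b x z = 0 :=
  Finset.sum_eq_zero fun y _ => by rw [Matrix.zero_apply, map_zero, LinearMap.zero_apply]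

theorem ainfb_k_0r (x : X.G) (z : Z.G) : ainfb_k c a (0 : Matrix Y.G Z.G R) x z = 0 :=
  Finset.sum_eq_zero fun y _ => by rw [Matrix.zero_apply, map_zero]

/-- moving a sign across a homogeneous matrix -/
theorem ainfb_sg (h0 : 𝒞₀.Deg0) (hb : SP 𝒞₀ Y Z m b) {B : A} (q : ∀ y, B ⟶ U (J.W (Y.lab y)))
    (z : Z.G) : ∑ y, (sg (Y.deg y) • q y) ≫ J.rl b y z =
      (sg m * sg (Z.deg z)) • ∑ y, q y ≫ J.rl b y z := by
  rw [Finset.smul_sum]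
  refine Finset.sum_congr rfl fun y _ => ?_
  by_cases h : m + Y.deg y = Z.deg z
  · rw [← h, sg_add, ← mul_assoc, sg_mul_self, one_mul, Preadditive.zsmul_comp]
  · rw [Rep.rl, ainfb_zero h0 hb h, map_zero, comp_zero, comp_zero, smul_zero]

/-- the diagonal part -/
noncomputable def ainfb_e (φ : ∀ s, Γ.W s ⟶ J.W s) (x y : X.G) :
    U (Γ.W (X.lab x)) ⟶ U (J.W (X.lab y)) := mapU (φ (X.lab x)) ≫ J.rl (1 : Matrix X.G X.G R) x y

theorem ainfb_e_self (x : X.G) : ainfb_e φ x x = mapU (φ (X.lab x)) := by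
  rw [ainfb_e, Rep.rl, Matrix.one_apply_eq, J.one, Category.comp_id]

theorem ainfb_e_ne {x y : X.G} (h : x ≠ y) : ainfb_e φ x y = 0 := by
  rw [ainfb_e, Rep.rl, Matrix.one_apply_ne h, map_zero, comp_zero]

theorem ainfb_hg_e (x y : X.G) : Hg (0 + X.deg x - X.deg y) (ainfb_e φ x y) := by
  by_cases h : x = y
  · subst h
    rw [ainfb_e_self]
    exact (hg_mapU _).of_eq (by omega)
  · rw [ainfb_e_ne h]
    exact Hg.zero

theorem ainfb_dl_e (x y : X.G) : dl (0 + X.deg x - X.deg y) (ainfb_e φ x y) = 0 := by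
  by_cases h : x = y
  · subst h
    rw [ainfb_e_self, zero_add, sub_self, dl_mapU]
  · rw [ainfb_e_ne h, dl_zero]

theorem ainfb_comp_e {B : A} (q : ∀ x, B ⟶ U (Γ.W (X.lab x))) (y : X.G) :
    ∑ x, q x ≫ ainfb_e φ x y = q y ≫ mapU (φ (X.lab y)) := by
  rw [Finset.sum_eq_single y, ainfb_e_self]
  · intro x _ hx
    rw [ainfb_e_ne hx, comp_zero]
  · simp

theorem ainfb_e_comp {B : A} (q : ∀ y, U (J.W (X.lab y)) ⟶ B) (x : X.G) :
    ∑ y, ainfb_e φ x y ≫ q y = mapU (φ (X.lab x)) ≫ q x := by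
  rw [Finset.sum_eq_single x, ainfb_e_self]
  · intro y _ hy
    rw [ainfb_e_ne hy.symm, zero_comp]
  · simp

/-- the components of the comparison map -/
noncomputable def ainfb_Φ (Z : Ob 𝒞₀) (x y : Z.G) : U (Γ.W (Z.lab x)) ⟶ U (J.W (Z.lab y)) :=
  ainfb_e (X := Z.toGn) φ x y + sg (Z.deg y) • ainfb_h c (X := Z.toGn) (Y := Z.toGn) Z.D x y +
    ainfb_k c (X := Z.toGn) (Y := Z.toGn) (Z := Z.toGn) Z.D Z.D x y

theorem ainfb_hg_Φ (h0 : 𝒞₀.Deg0) (Z : Ob 𝒞₀) (x y : Z.G) :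
    Hg (0 + Z.deg x - Z.deg y) (ainfb_Φ c Z x y) :=
  ((ainfb_hg_e x y).add (hg_zsmul _ (ainfb_hg_h c h0 Z.sp x y (by omega)))).add
    (ainfb_hg_k c h0 Z.sp Z.sp x y (by omega))

theorem ainfb_dl_Φ (h0 : 𝒞₀.Deg0) {Z : Ob 𝒞₀} (hZ : Deg02 Z) (x y : Z.G) :
    sg (Z.deg y) • dl (0 + Z.deg x - Z.deg y) (ainfb_Φ c Z x y) +
      ∑ y', ainfb_Φ c Z x y' ≫ J.rl (X := Z.toGn) (Y := Z.toGn) Z.D y' y -
      sg 0 • ∑ x', Γ.rl (X := Z.toGn) (Y := Z.toGn) Z.D x x' ≫ ainfb_Φ c Z x' y = 0 := by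
  have z1 : ∑ y', ainfb_k c (X := Z.toGn) (Y := Z.toGn) (Z := Z.toGn) Z.D Z.D x y' ≫
      J.rl (X := Z.toGn) (Y := Z.toGn) Z.D y' y = 0 := Finset.sum_eq_zero fun z _ => by
    by_cases h : 1 + 1 + Z.deg x = Z.deg z
    · have h1 := hZ x
      have h2 := hZ y
      rw [Rep.rl, ainfb_zero h0 Z.sp (by omega), map_zero, comp_zero]
    · rw [ainfb_k_zero c h0 Z.sp Z.sp h, zero_comp]
  have z2 : ∑ x', Γ.rl (X := Z.toGn) (Y := Z.toGn) Z.D x x' ≫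
      ainfb_k c (X := Z.toGn) (Y := Z.toGn) (Z := Z.toGn) Z.D Z.D x' y = 0 :=
    Finset.sum_eq_zero fun z _ => by
      by_cases h : 1 + 1 + Z.deg z = Z.deg y
      · have h1 := hZ x
        have h2 := hZ y
        rw [Rep.rl, ainfb_zero h0 Z.sp (by omega), map_zero, zero_comp]
      · rw [ainfb_k_zero c h0 Z.sp Z.sp h, comp_zero]
  simp only [ainfb_Φ, dl_add, dl_zsmul, Preadditive.add_comp, Preadditive.comp_add,
    Finset.sum_add_distrib, Preadditive.comp_zsmul]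
  rw [ainfb_dl_e, ainfb_dl_h c h0 Z.sp x y (by omega), ainfb_dl_k c h0 Z.sp Z.sp x y (by omega),
    z1, z2, ainfb_comp_e, ainfb_e_comp, ainfb_sg h0 Z.sp, Z.sq, ainfb_h_0, ← Finset.smul_sum]
  simp only [smul_add, sg_smul_sg_smul, sg_zero, sg_one, one_smul, neg_mul, one_mul, neg_smul,
    sub_zero, add_zero, zero_add]
  abel

/-- the components of the homotopy -/
noncomputable def ainfb_H {X Y : Ob 𝒞₀} (f : Matrix X.G Y.G R) (x : X.G) (y : Y.G) :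
    U (Γ.W (X.lab x)) ⟶ U (J.W (Y.lab y)) :=
  sg (Y.deg y) • ainfb_h c (X := X.toGn) (Y := Y.toGn) f x y -
    ainfb_k c (X := X.toGn) (Y := X.toGn) (Z := Y.toGn) X.D f x y +
    ainfb_k c (X := X.toGn) (Y := Y.toGn) (Z := Y.toGn) f Y.D x y +
    sg (Y.deg y) • (ainfb_l c (X := X.toGn) (Y := X.toGn) (Z := X.toGn) (T := Y.toGn) X.D X.D f x y -
      ainfb_l c (X := X.toGn) (Y := X.toGn) (Z := Y.toGn) (T := Y.toGn) X.D f Y.D x y +
      ainfb_l c (X := X.toGn) (Y := Y.toGn) (Z := Y.toGn) (T := Y.toGn) f Y.D Y.D x y)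

theorem ainfb_hg_H (h0 : 𝒞₀.Deg0) {X Y : Ob 𝒞₀} (f : X ⟶ Y) (x : X.G) (y : Y.G) :
    Hg (-1 + X.deg x - Y.deg y) (ainfb_H c f.mat x y) :=
  ((hg_sub (hg_zsmul _ (ainfb_hg_h c h0 f.sp x y (by omega)))
    (ainfb_hg_k c h0 X.sp f.sp x y (by omega))).add
    (ainfb_hg_k c h0 f.sp Y.sp x y (by omega))).add (hg_zsmul _
      ((hg_sub (ainfb_hg_l c h0 X.sp X.sp f.sp x y (by omega))
        (ainfb_hg_l c h0 X.sp f.sp Y.sp x y (by omega))).add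
        (ainfb_hg_l c h0 f.sp Y.sp Y.sp x y (by omega))))

theorem ainfb_psi3 {X Y : Ob 𝒞₀} (f : Matrix X.G Y.G R) : psi3 c.ψ X Y f =
    ainfb_p c (X := X.toGn) (Y := X.toGn) (Z := X.toGn) (T := Y.toGn) X.D X.D f -
      ainfb_p c (X := X.toGn) (Y := X.toGn) (Z := Y.toGn) (T := Y.toGn) X.D f Y.D +
      ainfb_p c (X := X.toGn) (Y := Y.toGn) (Z := Y.toGn) (T := Y.toGn) f Y.D Y.D := rfl

theorem ainfb_psi3_zero (h0 : 𝒞₀.Deg0) {X Y : Ob 𝒞₀} (f : X ⟶ Y) {x : X.G} {y : Y.G}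
    (h : 2 + X.deg x ≠ Y.deg y) : psi3 c.ψ X Y f.mat x y = 0 := by
  rw [ainfb_psi3, Matrix.add_apply, Matrix.sub_apply,
    ainfb_p_zero c h0 X.sp X.sp f.sp (by omega), ainfb_p_zero c h0 X.sp f.sp Y.sp (by omega),
    ainfb_p_zero c h0 f.sp Y.sp Y.sp (by omega), sub_zero, add_zero]

theorem ainfb_sp_psi3 (h0 : 𝒞₀.Deg0) {X Y : Ob 𝒞₀} (f : X ⟶ Y) :
    SP 𝒞 X.toGn Y.toGn 0 (psi3 c.ψ X Y f.mat) := by
  rw [ainfb_psi3]
  exact ((ainfb_sp_p c h0 X.sp X.sp f.sp (by omega)).sub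
    (ainfb_sp_p c h0 X.sp f.sp Y.sp (by omega))).add (ainfb_sp_p c h0 f.sp Y.sp Y.sp (by omega))

theorem ainfb_psi3_D (h0 : 𝒞₀.Deg0) {X Y : Ob 𝒞₀} (hX : Deg02 X) (hY : Deg02 Y) (f : X ⟶ Y) :
    psi3 c.ψ X Y f.mat * Y.D = 0 := by
  ext x y
  rw [Matrix.mul_apply]
  refine Finset.sum_eq_zero fun z _ => ?_
  by_cases h : 2 + X.deg x = Y.deg z
  · have h1 := hX x
    have h2 := hY y
    rw [ainfb_zero h0 Y.sp (by omega), mul_zero]
  · rw [ainfb_psi3_zero c h0 f h, zero_mul]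

theorem ainfb_D_psi3 (h0 : 𝒞₀.Deg0) {X Y : Ob 𝒞₀} (hX : Deg02 X) (hY : Deg02 Y) (f : X ⟶ Y) :
    X.D * psi3 c.ψ X Y f.mat = 0 := by
  ext x y
  rw [Matrix.mul_apply]
  refine Finset.sum_eq_zero fun z _ => ?_
  by_cases h : 2 + X.deg z = Y.deg y
  · have h1 := hX x
    have h2 := hY y
    rw [ainfb_zero h0 X.sp (by omega), zero_mul]
  · rw [ainfb_psi3_zero c h0 f h, mul_zero]

theorem ainfb_dl_H (h0 : 𝒞₀.Deg0) {X Y : Ob 𝒞₀} (hX : Deg02 X) (hY : Deg02 Y) (f : X ⟶ Y)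
    (x : X.G) (y : Y.G) :
    ∑ z, Γ.rl (X := X.toGn) (Y := Y.toGn) (f.mat - psi3 c.ψ X Y f.mat) x z ≫ ainfb_Φ c Y z y -
      ∑ z, ainfb_Φ c X x z ≫ J.rl (X := X.toGn) (Y := Y.toGn) f.mat z y =
    sg (Y.deg y) • dl (-1 + X.deg x - Y.deg y) (ainfb_H c f.mat x y) +
      ∑ y', ainfb_H c f.mat x y' ≫ J.rl (X := Y.toGn) (Y := Y.toGn) Y.D y' y -
      sg (-1) • ∑ x', Γ.rl (X := X.toGn) (Y := X.toGn) X.D x x' ≫ ainfb_H c f.mat x' y := by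
  have h1 := hX x
  have h2 := hY y
  have zr : ∀ q : ∀ z : Y.G, U (Γ.W (X.lab x)) ⟶ U (J.W (Y.lab z)),
      (∀ z, 2 + X.deg x ≠ Y.deg z → q z = 0) →
        ∑ z, q z ≫ J.rl (X := Y.toGn) (Y := Y.toGn) Y.D z y = 0 := fun q hq =>
    Finset.sum_eq_zero fun z _ => by
      by_cases h : 2 + X.deg x = Y.deg z
      · rw [Rep.rl, ainfb_zero h0 Y.sp (by omega), map_zero, comp_zero]
      · rw [hq z h, zero_comp]
  have zl : ∀ q : ∀ z : X.G, U (Γ.W (X.lab z)) ⟶ U (J.W (Y.lab y)),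
      (∀ z, 2 + X.deg z ≠ Y.deg y → q z = 0) →
        ∑ z, Γ.rl (X := X.toGn) (Y := X.toGn) X.D x z ≫ q z = 0 := fun q hq =>
    Finset.sum_eq_zero fun z _ => by
      by_cases h : 2 + X.deg z = Y.deg y
      · rw [Rep.rl, ainfb_zero h0 X.sp (by omega), map_zero, zero_comp]
      · rw [hq z h, comp_zero]
  have zp : ∀ q : ∀ z : Y.G, U (Γ.W (Y.lab z)) ⟶ U (J.W (Y.lab y)),
      (∀ z, Y.deg y ≤ Y.deg z → q z = 0) →
        ∑ z, Γ.rl (X := X.toGn) (Y := Y.toGn) (psi3 c.ψ X Y f.mat) x z ≫ q z = 0 := fun q hq =>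
    Finset.sum_eq_zero fun z _ => by
      by_cases h : 2 + X.deg x = Y.deg z
      · rw [hq z (by omega), comp_zero]
      · rw [Rep.rl, ainfb_psi3_zero c h0 f h, map_zero, zero_comp]
  have r1 : ∀ z, Γ.rl (X := X.toGn) (Y := Y.toGn) (f.mat - psi3 c.ψ X Y f.mat) x z =
      Γ.rl (X := X.toGn) (Y := Y.toGn) f.mat x z -
        Γ.rl (X := X.toGn) (Y := Y.toGn) (psi3 c.ψ X Y f.mat) x z := fun z => map_sub _ _ _
  have r2 : Γ.rl (X := X.toGn) (Y := Y.toGn) (psi3 c.ψ X Y f.mat) x y =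
      Γ.rl (ainfb_p c (X := X.toGn) (Y := X.toGn) (Z := X.toGn) (T := Y.toGn) X.D X.D f.mat) x y -
      Γ.rl (ainfb_p c (X := X.toGn) (Y := X.toGn) (Z := Y.toGn) (T := Y.toGn) X.D f.mat Y.D) x y +
      Γ.rl (ainfb_p c (X := X.toGn) (Y := Y.toGn) (Z := Y.toGn) (T := Y.toGn) f.mat Y.D Y.D) x y := by
    rw [ainfb_psi3, Rep.rl, Matrix.add_apply, Matrix.sub_apply, map_add, map_sub]
    rfl
  have l1 : ∀ (x : X.G) (y : Y.G), 2 + X.deg x ≠ Y.deg y → sg (Y.deg y) •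
      (ainfb_l c (X := X.toGn) (Y := X.toGn) (Z := X.toGn) (T := Y.toGn) X.D X.D f.mat x y -
      ainfb_l c (X := X.toGn) (Y := X.toGn) (Z := Y.toGn) (T := Y.toGn) X.D f.mat Y.D x y +
      ainfb_l c (X := X.toGn) (Y := Y.toGn) (Z := Y.toGn) (T := Y.toGn) f.mat Y.D Y.D x y) = 0 :=
    fun x y h => by
      rw [ainfb_l_zero c h0 X.sp X.sp f.sp (by omega), ainfb_l_zero c h0 X.sp f.sp Y.sp (by omega),
        ainfb_l_zero c h0 f.sp Y.sp Y.sp (by omega), sub_zero, add_zero, smul_zero]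
  simp only [ainfb_Φ, ainfb_H, r1, dl_add, dl_sub, dl_zsmul, Preadditive.add_comp,
    Preadditive.comp_add, Preadditive.sub_comp, Preadditive.comp_sub, Finset.sum_add_distrib,
    Finset.sum_sub_distrib]
  rw [ainfb_comp_e, ainfb_comp_e, ainfb_e_comp, zr _ fun z h => l1 x z h,
    zl _ fun z h => l1 z y h,
    zp _ fun z h => by rw [ainfb_h_zero c h0 Y.sp (by omega), smul_zero],
    zp _ fun z h => ainfb_k_zero c h0 Y.sp Y.sp (by omega),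
    ainfb_sg h0 f.sp, ainfb_sg h0 Y.sp,
    ainfb_dl_h c h0 f.sp x y (by omega), ainfb_dl_k c h0 X.sp f.sp x y (by omega),
    ainfb_dl_k c h0 f.sp Y.sp x y (by omega), ainfb_dl_l c h0 X.sp X.sp f.sp x y (by omega),
    ainfb_dl_l c h0 X.sp f.sp Y.sp x y (by omega), ainfb_dl_l c h0 f.sp Y.sp Y.sp x y (by omega),
    X.sq, Y.sq, f.cl, ainfb_k_0l, ainfb_k_0r, r2]
  simp only [Preadditive.comp_zsmul, ← Finset.smul_sum, smul_add, smul_sub, sg_smul_sg_smul,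
    sg_zero, sg_one, sg_neg_one, one_smul, neg_mul, one_mul, neg_smul, Preadditive.add_comp,
    Preadditive.sub_comp]
  abel

end aux

variable {A : Type u} [Category.{v} A] [Abelian A] [HasCoproductsOfShape ℤ A] [Linear k A]
  [HasDerivedCategory A]

open DerivedCategory

theorem Coh.exists_cmp (hle : 𝒞₀.Le 𝒞) (h0 : 𝒞₀.Deg0) {Γ : Rep 𝒞 A} {J : Rep 𝒞₀ A}
    {φ : ∀ s, Γ.W s ⟶ J.W s} (hφ : ∀ s, QuasiIso (φ s)) (c : Coh 𝒞₀ Γ J φ) :
    ∃ Φ : ∀ Z : Ob 𝒞₀, Γ.totObj (incObj hle Z) ⟶ J.totObj Z,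
      (∀ Z, Deg02 Z → QuasiIso (Φ Z)) ∧
      ∀ (X Y : Ob 𝒞₀) (f : X ⟶ Y), Deg02 X → Deg02 Y → ∃ g : incObj hle X ⟶ incObj hle Y,
        g.mat = f.mat - psi3 c.ψ X Y f.mat ∧
          Q.map (Γ.Tot.map g) ≫ Q.map (Φ Y) = Q.map (Φ X) ≫ Q.map (J.Tot.map f) := by
  classical
  have hd : ∀ Z : Ob 𝒞₀, Deg02 Z →
      dl 0 (asm (Γ.ts (incObj hle Z)) (J.ts Z) (ainfb_Φ c Z)) = 0 := fun Z hZ => by
    rw [dl_asm, ← asm_zero (Γ.ts (incObj hle Z)) (J.ts Z)]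
    congr 1
    funext x y
    exact ainfb_dl_Φ c h0 hZ x y
  have hg : ∀ Z : Ob 𝒞₀, Hg 0 (asm (Γ.ts (incObj hle Z)) (J.ts Z) (ainfb_Φ c Z)) := fun Z =>
    hg_asm _ _ (ainfb_hg_Φ c h0 Z)
  let Φ : ∀ Z : Ob 𝒞₀, Γ.totObj (incObj hle Z) ⟶ J.totObj Z := fun Z =>
    if hZ : Deg02 Z then homU _ (hg Z) (hd Z hZ) else 0
  have hΦ : ∀ Z : Ob 𝒞₀, Deg02 Z →
      mapU (Φ Z) = asm (Γ.ts (incObj hle Z)) (J.ts Z) (ainfb_Φ c Z) := fun Z hZ => by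
    simp only [Φ, dif_pos hZ]
    exact mapU_homU _ _ _
  refine ⟨Φ, fun Z hZ => ?_, fun X Y f hX hY => ?_⟩
  · refine quasiIso_of_tri (Γ.ts (incObj hle Z)) (J.ts Z) (Γ.tw (incObj hle Z)) (J.tw Z) (Φ Z)
      (fun x => φ (Z.lab x)) (fun x => hφ _) (fun x => ?_) (fun x y hxy hne => ?_)
    · rw [hΦ Z hZ, inc_asm_pr, ainfb_Φ, ainfb_e_self, ainfb_h_zero c h0 Z.sp (by omega),
        ainfb_k_zero c h0 Z.sp Z.sp (by omega), smul_zero, add_zero, add_zero]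
    · by_contra hc
      refine hne ?_
      have hc' : ¬Z.deg x < Z.deg y := hc
      rw [hΦ Z hZ, inc_asm_pr, ainfb_Φ, ainfb_e_ne hxy, ainfb_h_zero c h0 Z.sp (by omega),
        ainfb_k_zero c h0 Z.sp Z.sp (by omega), smul_zero, add_zero, add_zero]
  · let g : incObj hle X ⟶ incObj hle Y :=
      (⟨f.mat - psi3 c.ψ X Y f.mat,
        SP.sub (fun x y => hle _ _ _ (f.sp x y)) (ainfb_sp_psi3 c h0 f), by
          change (f.mat - psi3 c.ψ X Y f.mat) * Y.D = X.D * (f.mat - psi3 c.ψ X Y f.mat)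
          rw [Matrix.sub_mul, Matrix.mul_sub, ainfb_psi3_D c h0 hX hY, ainfb_D_psi3 c h0 hX hY,
            f.cl]⟩ : Mor (incObj hle X) (incObj hle Y))
    refine ⟨g, rfl, ?_⟩
    let g' : Γ.totObj (incObj hle X) ⟶ Γ.totObj (incObj hle Y) := Γ.Tot.map g
    let f' : J.totObj X ⟶ J.totObj Y := J.Tot.map f
    have eg : mapU g' = asm (Γ.ts (incObj hle X)) (Γ.ts (incObj hle Y))
        (Γ.rl (X := X.toGn) (Y := Y.toGn) (f.mat - psi3 c.ψ X Y f.mat)) := Γ.mapU_Tot_map g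
    have ef : mapU f' = asm (J.ts X) (J.ts Y) (J.rl (X := X.toGn) (Y := Y.toGn) f.mat) :=
      J.mapU_Tot_map f
    have key : mapU (g' ≫ Φ Y) - mapU (Φ X ≫ f') =
        dl (-1) (asm (Γ.ts (incObj hle X)) (J.ts Y) (ainfb_H c f.mat)) := by
      rw [mapU_comp, mapU_comp, eg, ef, hΦ X hX, hΦ Y hY, asm_comp, asm_comp, ← asm_sub, dl_asm]
      congr 1
      funext x y
      exact ainfb_dl_H c h0 hX hY f x y
    have fin := Q_map_eq_of_exact (hg_asm _ _ (ainfb_hg_H c h0 f)) key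
    rw [Q.map_comp, Q.map_comp] at fin
    exact fin

end Pool.Agent.Work.MP_910138_ag.C0
end
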