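import Pool.Agent.Work.MP_910138_ag.C0.SU
import Mathlib

-- merged part: Pool.Agent.Work.MP_910138_ag.C0.HTr
section
/-! Traces on subspaces. -/

namespace Pool.Agent.Work.MP_910138_ag.C0

variable {K V : Type} [Field K] [AddCommGroup V] [Module K V] {W W' : Submodule K V}
  {f g : V →ₗ[K] V}

theorem htr_eq (h : ∀ v ∈ W, f v ∈ W) : trOn W f = LinearMap.trace K W (f.restrict h) :=
  dif_pos h

theorem trOn_congr (h : ∀ v ∈ W, f v = g v) : trOn W f = trOn W g := by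
  unfold trOn
  by_cases hf : ∀ v ∈ W, f v ∈ W
  · have hg : ∀ v ∈ W, g v ∈ W := fun v hv => h v hv ▸ hf v hv
    rw [dif_pos hf, dif_pos hg]
    congr 1
    ext v
    exact h v v.2
  · have hg : ¬ ∀ v ∈ W, g v ∈ W := fun hg => hf fun v hv => (h v hv).symm ▸ hg v hv
    rw [dif_neg hf, dif_neg hg]

theorem trOn_zero : trOn W (0 : V →ₗ[K] V) = 0 := by
  have h : ∀ v ∈ W, (0 : V →ₗ[K] V) v ∈ W := fun _ _ => W.zero_mem
  rw [htr_eq h]
  have : (0 : V →ₗ[K] V).restrict h = 0 := by ext v; rfl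
  rw [this, map_zero]

theorem trOn_add (hf : ∀ v ∈ W, f v ∈ W) (hg : ∀ v ∈ W, g v ∈ W) :
    trOn W (f + g) = trOn W f + trOn W g := by
  have h : ∀ v ∈ W, (f + g) v ∈ W := fun v hv => W.add_mem (hf v hv) (hg v hv)
  rw [htr_eq h, htr_eq hf, htr_eq hg, ← map_add]
  rfl

theorem trOn_sub (hf : ∀ v ∈ W, f v ∈ W) (hg : ∀ v ∈ W, g v ∈ W) :
    trOn W (f - g) = trOn W f - trOn W g := by
  have h : ∀ v ∈ W, (f - g) v ∈ W := fun v hv => W.sub_mem (hf v hv) (hg v hv)
  rw [htr_eq h, htr_eq hf, htr_eq hg, ← map_sub]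
  rfl

theorem trOn_neg : trOn W (-f) = -trOn W f := by
  by_cases hf : ∀ v ∈ W, f v ∈ W
  · have h : ∀ v ∈ W, (-f) v ∈ W := fun v hv => W.neg_mem (hf v hv)
    rw [htr_eq h, htr_eq hf, ← map_neg]
    rfl
  · have h : ¬ ∀ v ∈ W, (-f) v ∈ W := fun h => hf fun v hv => by simpa using h v hv
    unfold trOn
    rw [dif_neg hf, dif_neg h, neg_zero]

theorem trOn_smul (hf : ∀ v ∈ W, f v ∈ W) (a : K) : trOn W (a • f) = a * trOn W f := by
  have h : ∀ v ∈ W, (a • f) v ∈ W := fun v hv => W.smul_mem a (hf v hv)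
  rw [htr_eq h, htr_eq hf, ← smul_eq_mul, ← map_smul]
  rfl

theorem trOn_comm [FiniteDimensional K W] [FiniteDimensional K W'] (hf : ∀ v ∈ W, f v ∈ W')
    (hg : ∀ v ∈ W', g v ∈ W) : trOn W (g ∘ₗ f) = trOn W' (f ∘ₗ g) := by
  have h1 : ∀ v ∈ W, (g ∘ₗ f) v ∈ W := fun v hv => hg _ (hf v hv)
  have h2 : ∀ v ∈ W', (f ∘ₗ g) v ∈ W' := fun v hv => hf _ (hg v hv)
  rw [htr_eq h1, htr_eq h2]
  exact LinearMap.trace_comp_comm' (f.restrict hf) (g.restrict hg)

theorem trOn_of_le [FiniteDimensional K W'] (h : W ≤ W') (hf : ∀ v ∈ W', f v ∈ W) :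
    trOn W' f = trOn W f := by
  have : FiniteDimensional K W := Submodule.finiteDimensional_of_le h
  have := trOn_comm (W := W') (W' := W) (f := f) (g := LinearMap.id) hf (fun v hv => h hv)
  simpa using this

/-- additivity along `0 → W ∩ ker d → W → d W → 0` -/
theorem trOn_ker_map [FiniteDimensional K W] (d : V →ₗ[K] V) (hf : ∀ v ∈ W, f v ∈ W)
    (h : ∀ v ∈ W, d (f v) = g (d v)) :
    trOn W f = trOn (W ⊓ LinearMap.ker d) f + trOn (W.map d) g := by
  obtain ⟨s, hs⟩ := (d.submoduleMap W).exists_rightInverse_of_surjective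
    (LinearMap.range_eq_top.2 (d.submoduleMap_surjective W))
  obtain ⟨η, hη⟩ := LinearMap.exists_extend (W.subtype ∘ₗ s)
  have hη1 : ∀ b (hb : b ∈ W.map d), η b = (s ⟨b, hb⟩ : V) := fun b hb =>
    LinearMap.congr_fun hη ⟨b, hb⟩
  have hηW : ∀ b ∈ W.map d, η b ∈ W := fun b hb => by rw [hη1 b hb]; exact (s _).2
  have hdη : ∀ b ∈ W.map d, d (η b) = b := fun b hb => by
    rw [hη1 b hb]
    exact congrArg Subtype.val (LinearMap.congr_fun hs ⟨b, hb⟩)
  have hd : ∀ v ∈ W, d v ∈ W.map d := fun v hv => Submodule.mem_map_of_mem hv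
  have : FiniteDimensional K (W ⊓ LinearMap.ker d : Submodule K V) :=
    Submodule.finiteDimensional_of_le inf_le_left
  set q : V →ₗ[K] V := LinearMap.id - η ∘ₗ d with hq
  have hqv : ∀ v, q v = v - η (d v) := fun v => rfl
  have hqZ : ∀ v ∈ W, q v ∈ W ⊓ LinearMap.ker d := fun v hv =>
    ⟨by rw [hqv]; exact W.sub_mem hv (hηW _ (hd v hv)), by
      change d (q v) = 0
      rw [hqv, map_sub, hdη _ (hd v hv), sub_self]⟩
  have e : f = f ∘ₗ q + (f ∘ₗ η) ∘ₗ d := by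
    ext v
    simp [hqv]
  have a1 : trOn W (f ∘ₗ q) = trOn (W ⊓ LinearMap.ker d) f := by
    rw [trOn_comm hqZ (fun v hv => hf v hv.1)]
    refine trOn_congr fun v hv => ?_
    have h0 : d v = 0 := hv.2
    rw [LinearMap.comp_apply, hqv, h v hv.1, h0, map_zero, map_zero, sub_zero]
  have a2 : trOn W ((f ∘ₗ η) ∘ₗ d) = trOn (W.map d) g := by
    rw [trOn_comm hd (g := f ∘ₗ η) (fun b hb => hf _ (hηW b hb))]
    refine trOn_congr fun b hb => ?_
    rw [LinearMap.comp_apply, LinearMap.comp_apply, h _ (hηW b hb), hdη b hb]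
  rw [← a1, ← a2, ← trOn_add (f := f ∘ₗ q) (g := (f ∘ₗ η) ∘ₗ d)
    (fun v hv => hf _ (hqZ v hv).1) (fun v hv => hf _ (hηW _ (hd v hv))), ← e]

/-- the trace from a matrix -/
theorem trOn_eq_sum {ι : Type} [Fintype ι] (b : ι → V) (hb : LinearIndependent K b)
    (hW : Submodule.span K (Set.range b) = W) (M : ι → ι → K)
    (hf : ∀ i, f (b i) = ∑ j, M i j • b j) : trOn W f = ∑ i, M i i := by
  classical
  subst hW
  have hmem : ∀ i, b i ∈ Submodule.span K (Set.range b) := fun i =>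
    Submodule.subset_span ⟨i, rfl⟩
  have h : ∀ v ∈ Submodule.span K (Set.range b), f v ∈ Submodule.span K (Set.range b) := by
    intro v hv
    have : Submodule.span K (Set.range b) ≤ (Submodule.span K (Set.range b)).comap f := by
      rw [Submodule.span_le]
      rintro _ ⟨i, rfl⟩
      change f (b i) ∈ Submodule.span K (Set.range b)
      rw [hf]
      exact Submodule.sum_mem _ fun j _ => Submodule.smul_mem _ _ (hmem j)
    exact this hv
  rw [htr_eq h, LinearMap.trace_eq_matrix_trace K (Module.Basis.span hb), Matrix.trace]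
  refine Finset.sum_congr rfl fun i _ => ?_
  have : f.restrict h (Module.Basis.span hb i) = ∑ j, M i j • Module.Basis.span hb j := by
    apply Subtype.ext
    simp only [LinearMap.coe_restrict_apply, Module.Basis.span_apply, AddSubmonoidClass.coe_finsetSum,
      Submodule.coe_smul]
    exact hf i
  rw [Matrix.diag_apply, LinearMap.toMatrix_apply, this, Module.Basis.repr_sum_self]

variable {R : Type} [CommRing R] [IsDomain R] [IsPrincipalIdealRing R] [Algebra R K]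
  [IsFractionRing R K] [Module R V] [IsScalarTower R K V]

/-- a lattice has a basis, which is linearly independent over the fraction field -/
theorem exists_lattice_basis (L : Submodule R V) (hL : L.FG) :
    ∃ (n : ℕ) (b : Fin n → V), LinearIndependent K b ∧ Submodule.span R (Set.range b) = L := by
  have : Module.IsTorsionFree R V := .trans_faithfulSMul R K V
  have : Module.Finite R L := Module.Finite.iff_fg.2 hL
  let B := Module.finBasis R L
  refine ⟨_, fun i => (B i : V), ?_, ?_⟩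
  · exact (LinearIndependent.iff_fractionRing R K).1
      (B.linearIndependent.map' L.subtype (Submodule.ker_subtype L))
  · have := congrArg (Submodule.map L.subtype) B.span_eq
    rw [Submodule.map_span, Submodule.map_top, Submodule.range_subtype, ← Set.range_comp] at this
    exact this

omit [IsPrincipalIdealRing R] in
/-- clearing denominators -/
theorem exists_smul_mem (L : Submodule R V) {v : V} (hv : v ∈ Submodule.span K (L : Set V)) :
    ∃ a : R, a ≠ 0 ∧ a • v ∈ L := by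
  induction hv using Submodule.span_induction with
  | mem x hx => exact ⟨1, one_ne_zero, by rwa [one_smul]⟩
  | zero => exact ⟨1, one_ne_zero, by simp⟩
  | add x y _ _ hx hy =>
    obtain ⟨a, ha, hax⟩ := hx
    obtain ⟨c, hc, hcy⟩ := hy
    refine ⟨a * c, mul_ne_zero ha hc, ?_⟩
    rw [smul_add]
    refine L.add_mem ?_ ?_
    · rw [mul_comm, mul_smul]; exact L.smul_mem c hax
    · rw [mul_smul]; exact L.smul_mem a hcy
  | smul k x _ hx =>
    obtain ⟨a, ha, hax⟩ := hx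
    obtain ⟨r, s, hs, rfl⟩ := IsFractionRing.div_surjective (A := R) k
    have hs0 : s ≠ 0 := nonZeroDivisors.ne_zero hs
    have hs1 : algebraMap R K s ≠ 0 := by simpa using hs0
    refine ⟨s * a, mul_ne_zero hs0 ha, ?_⟩
    have : (s * a) • (algebraMap R K r / algebraMap R K s) • x = r • a • x := by
      rw [← algebraMap_smul K (s * a), ← algebraMap_smul K r, ← algebraMap_smul K a, smul_smul,
        smul_smul, map_mul]
      congr 1
      field_simp
    rw [this]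
    exact L.smul_mem r hax

omit [IsPrincipalIdealRing R] in
/-- clearing denominators in a finitely generated module -/
theorem exists_smul_le (L N : Submodule R V) (hN : N.FG)
    (h : ∀ v ∈ N, v ∈ Submodule.span K (L : Set V)) : ∃ a : R, a ≠ 0 ∧ ∀ v ∈ N, a • v ∈ L := by
  classical
  obtain ⟨S, rfl⟩ := hN
  choose! a ha haL using fun v (hv : v ∈ S) =>
    exists_smul_mem (K := K) L (h v (Submodule.subset_span hv))
  refine ⟨∏ v ∈ S, a v, Finset.prod_ne_zero_iff.2 ha, fun v hv => ?_⟩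
  have : Submodule.span R (S : Set V) ≤ L.comap ((∏ v ∈ S, a v) • LinearMap.id) := by
    rw [Submodule.span_le]
    intro w hw
    change (∏ v ∈ S, a v) • w ∈ L
    rw [← Finset.prod_erase_mul S a hw, mul_smul]
    exact L.smul_mem _ (haL w hw)
  exact this hv

theorem htr_matrix (L : Submodule R V) (hL : L.FG) (hf : ∀ v ∈ L, f v ∈ L) :
    ∃ (n : ℕ) (b : Fin n → V) (M : Matrix (Fin n) (Fin n) R), LinearIndependent K b ∧
      Submodule.span R (Set.range b) = L ∧ (∀ i, f (b i) = ∑ j, M i j • b j) ∧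
      trOn (Submodule.span K (L : Set V)) f = algebraMap R K (∑ i, M i i) := by
  obtain ⟨n, b, hb, hbL⟩ := exists_lattice_basis (K := K) L hL
  have hmem : ∀ i, f (b i) ∈ Submodule.span R (Set.range b) := fun i =>
    hbL ▸ hf _ (hbL ▸ Submodule.subset_span ⟨i, rfl⟩)
  choose M hM using fun i => (Submodule.mem_span_range_iff_exists_fun R).1 (hmem i)
  refine ⟨n, b, Matrix.of M, hb, hbL, fun i => (hM i).symm, ?_⟩
  rw [trOn_eq_sum b hb (by rw [← hbL, Submodule.span_span_of_tower])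
    (fun i j => algebraMap R K (M i j)) (fun i => by simp only [algebraMap_smul, hM]), map_sum]
  rfl

theorem trOn_mem (L : Submodule R V) (hL : L.FG) (hf : ∀ v ∈ L, f v ∈ L) :
    trOn (Submodule.span K (L : Set V)) f ∈ (algebraMap R K).range := by
  obtain ⟨n, b, M, -, -, -, hM⟩ := htr_matrix L hL hf
  exact ⟨_, hM.symm⟩

theorem trOn_prime (L : Submodule R V) (hL : L.FG) (hf : ∀ v ∈ L, f v ∈ L) (p : R) (hp : Prime p)
    (h2 : ∀ v ∈ L, ∃ w ∈ L, f (f v) = p • w) :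
    ∃ a : R, trOn (Submodule.span K (L : Set V)) f = algebraMap R K (p * a) := by
  classical
  obtain ⟨n, b, M, hb, hbL, hM, htr⟩ := htr_matrix L hL hf
  have hbR : LinearIndependent R b := (LinearIndependent.iff_fractionRing R K).2 hb
  have hmem : ∀ i, b i ∈ L := fun i => hbL ▸ Submodule.subset_span ⟨i, rfl⟩
  have hdiv : ∀ i k, p ∣ (M * M) i k := by
    intro i k
    obtain ⟨w, hw, hfw⟩ := h2 (b i) (hmem i)
    rw [← hbL] at hw
    obtain ⟨c, rfl⟩ := (Submodule.mem_span_range_iff_exists_fun R).1 hw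
    have e1 : f (f (b i)) = ∑ k, (M * M) i k • b k := by
      rw [hM i, map_sum]
      simp only [LinearMap.map_smul_of_tower, hM, Finset.smul_sum, smul_smul, Matrix.mul_apply,
        Finset.sum_smul]
      exact Finset.sum_comm
    rw [e1, Finset.smul_sum] at hfw
    simp only [smul_smul] at hfw
    exact ⟨c k, (Fintype.linearIndependent_iffₛ.1 hbR _ _ hfw) k⟩
  have : (Ideal.span {p}).IsPrime := (Ideal.span_singleton_prime hp.ne_zero).2 hp
  let π := Ideal.Quotient.mk (Ideal.span {p})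
  have hnil : IsNilpotent (M.map π) := by
    refine ⟨2, ?_⟩
    rw [pow_two, ← Matrix.map_mul]
    ext i k
    exact Ideal.Quotient.eq_zero_iff_mem.2 (Ideal.mem_span_singleton.2 (hdiv i k))
  have h0 := (Matrix.isNilpotent_trace_of_isNilpotent hnil).eq_zero
  have h1 : π (∑ i, M i i) = 0 := by
    rw [map_sum]; exact h0
  obtain ⟨a, ha⟩ := Ideal.mem_span_singleton.1 (Ideal.Quotient.eq_zero_iff_mem.1 h1)
  exact ⟨a, by rw [htr, ha]⟩

end Pool.Agent.Work.MP_910138_ag.C0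
end

-- merged part: Pool.Agent.Work.MP_910138_ag.C0.HLoc
section
/-! Comparison of the traces attached to triples of lattices. -/

namespace Pool.Agent.Work.MP_910138_ag.C0

open Submodule

variable {K V : Type} [Field K] [AddCommGroup V] [Module K V] {x σ : Fin 3 → V →ₗ[K] V}
  {R : Type} [CommRing R] [IsDomain R] [IsPrincipalIdealRing R] [Algebra R K]
  [IsFractionRing R K] [Module R V] [IsScalarTower R K V] {e φ φ' : V →ₗ[K] V}

/-- a triple of lattices -/
structure Tri (x σ : Fin 3 → V →ₗ[K] V) (e : V →ₗ[K] V) (A B C : Submodule R V) : Prop where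
  fgA : A.FG
  fgC : C.FG
  sat : Sat x A B
  gen : Gen x B C
  sec : Sec x σ (span K (B : Set V)) (span K (C : Set V))
  e_mem : ∀ v ∈ A, e v ∈ C

variable {A B C A' B' C' : Submodule R V}

theorem hloc_ext {n : ℕ} {b : Fin n → V} (hb : LinearIndependent K b) (u : Fin n → V) :
    ∃ f : V →ₗ[K] V, ∀ i, f (b i) = u i := by
  obtain ⟨f, hf⟩ := ((Module.Basis.span hb).constr K u).exists_extend
  refine ⟨f, fun i => ?_⟩
  have h := LinearMap.congr_fun hf (Module.Basis.span hb i)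
  rwa [Module.Basis.constr_basis, LinearMap.comp_apply, Submodule.subtype_apply,
    Module.Basis.span_apply] at h

omit [IsDomain R] [IsPrincipalIdealRing R] [IsFractionRing R K] in
theorem hloc_span {n : ℕ} {b : Fin n → V} (hA : span R (Set.range b) = A) (f : V →ₗ[K] V)
    (h : ∀ i, f (b i) ∈ B) : ∀ v ∈ A, f v ∈ B := fun _ hv =>
  (hA.ge.trans (span_le.2 (Set.range_subset_iff.2 h) : _ ≤ B.comap (f.restrictScalars R))) hv

theorem hloc_K {S : Set V} {W : Submodule K V} (f : V →ₗ[K] V) (h : ∀ v ∈ S, f v ∈ W) :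
    ∀ v ∈ span K S, f v ∈ W := fun _ hv => (span_le.2 h : _ ≤ W.comap f) hv

omit [IsDomain R] [IsPrincipalIdealRing R] in
theorem hloc_div {W : Submodule K V} {a : R} (ha : a ≠ 0) {v : V} (h : a • v ∈ W) : v ∈ W := by
  rwa [← algebraMap_smul K, W.smul_mem_iff ((map_ne_zero_iff _ (IsFractionRing.injective R K)).2
    ha)] at h

omit [IsDomain R] [IsPrincipalIdealRing R] [IsFractionRing R K] in
theorem hloc_fin (h : A.FG) : FiniteDimensional K (span K (A : Set V)) := by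
  obtain ⟨S, rfl⟩ := h
  rw [span_span_of_tower]
  infer_instance

theorem Tri.exists_adm (hx : Kos x) (h : Tri x σ e A B C) : ∃ φ, Adm x σ B C φ := by
  obtain ⟨n, b, hb, hC⟩ := exists_lattice_basis (K := K) C h.fgC
  have h1 : ∀ i, b i ∈ C := fun i => hC.le (subset_span ⟨i, rfl⟩)
  choose t ht ht' using fun i => h.gen _ (h1 i)
  choose u hu using fun i => hx.ex (fun c => σ c (b i) - t i c) (by
    simp only [map_sub, Finset.sum_sub_distrib, ht', (h.sec _ (subset_span (h1 i))).2, sub_self])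
  obtain ⟨f, hf⟩ := hloc_ext hb u
  refine ⟨f, fun v hv c => hloc_span hC (σ c - x c ∘ₗ f) (fun i => ?_) v hv⟩
  rw [LinearMap.sub_apply, LinearMap.comp_apply, hf, ← hu, sub_sub_cancel]
  exact ht i c

theorem Tri.adm_mem (h : Tri x σ e A B C) (hφ : Adm x σ B C φ) :
    ∀ v ∈ span K (C : Set V), φ v ∈ span K (A : Set V) := by
  refine hloc_K φ fun v hv => ?_
  choose a ha ha' using fun c => exists_smul_mem B ((h.sec v (subset_span hv)).1 c)
  refine hloc_div (Finset.prod_ne_zero_iff.2 fun c (_ : c ∈ Finset.univ) => ha c)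
    (subset_span (h.sat _ fun c => ?_))
  obtain ⟨k, hk⟩ := Finset.dvd_prod_of_mem a (Finset.mem_univ c)
  have h1 := B.sub_mem (B.smul_mem k (ha' c)) (B.smul_mem (∏ c, a c) (hφ v hv c))
  rwa [← mul_smul, mul_comm, ← hk, ← smul_sub, sub_sub_cancel, ← LinearMap.map_smul_of_tower] at h1

omit [IsDomain R] [IsPrincipalIdealRing R] [IsFractionRing R K] in
theorem hloc_psi (h' : Tri x σ e A' B' C') (hB : B ≤ B') (hC : C ≤ C') (hφ : Adm x σ B C φ)
    (hφ' : Adm x σ B' C' φ') : ∀ v ∈ C, (φ' - φ) v ∈ A' := fun v hv => h'.sat _ fun c => by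
  have h1 := B'.sub_mem (hB (hφ v hv c)) (hφ' v (hC hv) c)
  rwa [sub_sub_sub_cancel_left, ← map_sub] at h1

theorem hloc_pres (h : Tri x σ e A B C) (hφ : Adm x σ B C φ) (he : ∀ v ∈ A', e v ∈ C) :
    ∀ v ∈ span K (A' : Set V), (φ ∘ₗ e) v ∈ span K (A : Set V) :=
  hloc_K _ fun v hv => h.adm_mem hφ _ (subset_span (he v hv))

/-- the operator `e` maps the big lattice into the small one -/
theorem Tri.cmp_le (h : Tri x σ e A B C) (h' : Tri x σ e A' B' C') (hA : A ≤ A') (hB : B ≤ B')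
    (hC : C ≤ C') (he : ∀ v ∈ A', e v ∈ C) (hφ : Adm x σ B C φ) (hφ' : Adm x σ B' C' φ') :
    trOn (span K (A' : Set V)) (φ' ∘ₗ e) - trOn (span K (A : Set V)) (φ ∘ₗ e) ∈
      (algebraMap R K).range := by
  have := hloc_fin (K := K) h'.fgA
  have h1 := hloc_pres h hφ he
  rw [← trOn_of_le (span_mono hA) h1, ← trOn_sub (hloc_pres h' hφ' h'.e_mem)
    fun v hv => span_mono hA (h1 v hv), ← LinearMap.sub_comp]
  exact trOn_mem A' h'.fgA fun v hv => hloc_psi h' hB hC hφ hφ' _ (he v hv)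

/-- lattices of prime index -/
theorem Tri.cmp_prime (h : Tri x σ e A B C) (h' : Tri x σ e A' B' C') (hA : A ≤ A') (hB : B ≤ B')
    (hC : C ≤ C') (p : R) (hp : Prime p) (pA : ∀ v ∈ A', p • v ∈ A) (pB : ∀ v ∈ B', p • v ∈ B)
    (pC : ∀ v ∈ C', p • v ∈ C) (hφ : Adm x σ B C φ) (hφ' : Adm x σ B' C' φ') :
    trOn (span K (A' : Set V)) (φ' ∘ₗ e) - trOn (span K (A : Set V)) (φ ∘ₗ e) ∈
      (algebraMap R K).range := by
  have h0 : span K (A : Set V) = span K (A' : Set V) := le_antisymm (span_mono hA)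
    (span_le.2 fun v hv => hloc_div hp.ne_zero (subset_span (pA v hv)))
  have h1 := hloc_pres h hφ h.e_mem
  have h2 := hloc_pres h' hφ' h'.e_mem
  rw [h0] at h1 ⊢
  have h3 : ∀ v ∈ A', (algebraMap R K p • (φ' - φ) ∘ₗ e) v ∈ A := fun v hv => h.sat _ fun c => by
    have h4 := B.sub_mem (hφ _ (pC _ (h'.e_mem v hv)) c) (pB _ (hφ' _ (h'.e_mem v hv) c))
    rw [LinearMap.map_smul_of_tower, LinearMap.map_smul_of_tower, LinearMap.map_smul_of_tower,
      ← smul_sub, ← smul_sub, sub_sub_sub_cancel_left, ← map_sub,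
      ← LinearMap.map_smul_of_tower] at h4
    rwa [LinearMap.smul_apply, algebraMap_smul]
  obtain ⟨a, ha⟩ := trOn_prime A' h'.fgA (fun v hv => hA (h3 v hv)) p hp fun v hv =>
    ⟨_, hloc_psi h' hB hC hφ hφ' _ (h.e_mem _ (h3 v hv)), by
      rw [LinearMap.smul_apply, algebraMap_smul, LinearMap.comp_apply]⟩
  rw [LinearMap.sub_comp, trOn_smul fun v hv => sub_mem (h2 v hv) (h1 v hv), trOn_sub h2 h1,
    map_mul] at ha
  exact ⟨a, (mul_left_cancel₀ ((map_ne_zero_iff _ (IsFractionRing.injective R K)).2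
    hp.ne_zero) ha).symm⟩

/-- lattices, cycles and boundaries -/
theorem Tri.cmp_ker (hx : Kos x) (d : V →ₗ[K] V) (hd : Comm x d) (hdd : ∀ v, d (d v) = 0)
    (hde : ∀ v, d (e v) = -e (d v)) (h : Tri x σ e A B C) (dA : ∀ v ∈ A, d v ∈ A)
    (dB : ∀ v ∈ B, d v ∈ B) (dC : ∀ v ∈ C, d v ∈ C)
    (hσ : ∀ v ∈ C, ∀ c, σ c (d v) = d (σ c v))
    (hZ : Tri x σ e (A ⊓ LinearMap.ker (d.restrictScalars R))
      (B ⊓ LinearMap.ker (d.restrictScalars R)) (C ⊓ LinearMap.ker (d.restrictScalars R)))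
    (hB : Tri x σ e (A.map (d.restrictScalars R)) (B.map (d.restrictScalars R))
      (C.map (d.restrictScalars R)))
    (φZ φB : V →ₗ[K] V) (hφ : Adm x σ B C φ)
    (hφZ : Adm x σ (B ⊓ LinearMap.ker (d.restrictScalars R))
      (C ⊓ LinearMap.ker (d.restrictScalars R)) φZ)
    (hφB : Adm x σ (B.map (d.restrictScalars R)) (C.map (d.restrictScalars R)) φB) :
    trOn (span K (A : Set V)) (φ ∘ₗ e) -
      (trOn (span K ((A ⊓ LinearMap.ker (d.restrictScalars R) : Submodule R V) : Set V))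
          (φZ ∘ₗ e) -
        trOn (span K ((A.map (d.restrictScalars R) : Submodule R V) : Set V)) (φB ∘ₗ e)) ∈
      (algebraMap R K).range := by
  have := hloc_fin (K := K) h.fgA
  obtain ⟨n, b, hb, hC⟩ := exists_lattice_basis (K := K) _ hB.fgC
  choose w hw hw' using fun i => mem_map.1 (hC.le (subset_span ⟨i, rfl⟩))
  obtain ⟨η, hη⟩ := hloc_ext hb w
  have e1 : ∀ v ∈ C.map (d.restrictScalars R), η v ∈ C := hloc_span hC η fun i => hη i ▸ hw i
  have e2 : ∀ v ∈ C.map (d.restrictScalars R), d (η v) = v := fun v hv =>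
    sub_eq_zero.1 ((mem_bot R).1 (hloc_span hC (B := ⊥) (d ∘ₗ η - LinearMap.id) (fun i => by
      rw [LinearMap.sub_apply, LinearMap.comp_apply, hη]
      exact (mem_bot R).2 (sub_eq_zero.2 (hw' i))) v hv))
  have e3 : ∀ v ∈ C, d v ∈ C.map (d.restrictScalars R) := fun v hv => mem_map_of_mem hv
  have e4 : ∀ v ∈ C, v - η (d v) ∈ C ⊓ LinearMap.ker (d.restrictScalars R) := fun v hv =>
    ⟨C.sub_mem hv (e1 _ (e3 v hv)), (map_sub d _ _).trans (sub_eq_zero.2 (e2 _ (e3 v hv)).symm)⟩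
  have e5 : span K ((A ⊓ LinearMap.ker (d.restrictScalars R) : Submodule R V) : Set V) =
      span K (A : Set V) ⊓ LinearMap.ker d := by
    refine le_antisymm (span_le.2 fun v hv => ⟨subset_span hv.1, hv.2⟩) fun v hv => ?_
    obtain ⟨a, ha, h1⟩ := exists_smul_mem A hv.1
    exact hloc_div ha (subset_span ⟨h1, (LinearMap.ker (d.restrictScalars R)).smul_mem a hv.2⟩)
  have e6 : span K ((A.map (d.restrictScalars R) : Submodule R V) : Set V) =
      (span K (A : Set V)).map d := (map_span d _).symm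
  obtain ⟨φL, hL⟩ : ∃ φL : V →ₗ[K] V, ∀ v, φL v = φZ (v - η (d v)) + φ (η (d v)) :=
    ⟨φZ ∘ₗ (LinearMap.id - η ∘ₗ d) + φ ∘ₗ η ∘ₗ d, fun _ => rfl⟩
  have a1 : Adm x σ B C φL := fun v hv c => by
    have h1 := B.add_mem (hφZ _ (e4 v hv) c).1 (hφ _ (e1 _ (e3 v hv)) c)
    rwa [sub_add_sub_comm, ← map_add, ← map_add, sub_add_cancel, ← hL] at h1
  have a2 : Adm x σ (B.map (d.restrictScalars R)) (C.map (d.restrictScalars R)) (d ∘ₗ φ ∘ₗ η) :=
    fun v hv c => ⟨_, hφ _ (e1 v hv) c, (map_sub d _ _).trans (by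
      rw [← hσ _ (e1 v hv), e2 v hv, hd]; rfl)⟩
  have a3 : ∀ v ∈ span K (A : Set V), d ((φL ∘ₗ e) v) = (-((d ∘ₗ φ ∘ₗ η) ∘ₗ e)) (d v) :=
    fun v hv => sub_eq_zero.1 ((mem_bot K).1 (hloc_K (W := ⊥)
      (d ∘ₗ φL ∘ₗ e - (-((d ∘ₗ φ ∘ₗ η) ∘ₗ e)) ∘ₗ d) (fun v hv => by
        have h1 : d _ = 0 := (e5.le (hZ.adm_mem hφZ _ (subset_span (e4 _ (h.e_mem v hv))))).2
        refine (mem_bot K).2 (sub_eq_zero.2 ?_)
        change d (φL (e v)) = -d (φ (η (e (d v))))
        rw [hL, map_add, h1, zero_add, hde, map_neg, map_neg, map_neg]) v hv))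
  have a4 := trOn_ker_map d (hloc_pres h a1 h.e_mem) a3
  rw [trOn_neg, trOn_congr (f := φL ∘ₗ e) (g := φZ ∘ₗ e) (W := _ ⊓ _) fun v hv => by
    have h1 : d v = 0 := hv.2
    change φL (e v) = φZ (e v)
    rw [hL, hde, h1, map_zero, neg_zero, map_zero, map_zero, sub_zero, add_zero], ← e5,
    ← e6] at a4
  have a5 := add_mem (h.cmp_le h le_rfl le_rfl le_rfl h.e_mem a1 hφ)
    (hB.cmp_le hB le_rfl le_rfl le_rfl hB.e_mem a2 hφB)
  rw [a4] at a5
  convert a5 using 1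
  ring

end Pool.Agent.Work.MP_910138_ag.C0
end

-- merged part: Pool.Agent.Work.MP_910138_ag.C0.HST
section
/-! Generated subfamilies are eventually saturated; kernels and images are eventually good. -/

namespace Pool.Agent.Work.MP_910138_ag.C0

variable {K V : Type} [Field K] [AddCommGroup V] [Module K V] {x : Fin 3 → V →ₗ[K] V}
  {R : Type} [CommRing R] [Algebra R K] [Module R V] [IsScalarTower R K V]

/-- the elements that all words of length `m` send to `I (i + m)` -/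
def hst_W (x : Fin 3 → V →ₗ[K] V) (I : ℤ → Submodule R V) : ℕ → ℤ → Submodule R V
  | 0, i => I i
  | m + 1, i => ⨅ a, (hst_W x I m (i + 1)).comap ((x a).restrictScalars R)

theorem hst_mem_W {I : ℤ → Submodule R V} {m : ℕ} {i : ℤ} {v : V} :
    v ∈ hst_W x I (m + 1) i ↔ ∀ a, x a v ∈ hst_W x I m (i + 1) := by
  simp [hst_W]

theorem hst_W_succ {I : ℤ → Submodule R V} {j₀ : ℤ}
    (hI : ∀ i j, j₀ ≤ i → i + 1 = j → Maps x (I i) (I j)) (m : ℕ) :
    ∀ i, j₀ ≤ i → hst_W x I m i ≤ hst_W x I (m + 1) i := by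
  induction m with
  | zero => exact fun i hi v hv => hst_mem_W.2 fun a => hI i _ hi rfl a v hv
  | succ m ih =>
    exact fun i hi v hv => hst_mem_W.2 fun a => ih (i + 1) (by omega) (hst_mem_W.1 hv a)

theorem hst_W_mono {I : ℤ → Submodule R V} {j₀ : ℤ}
    (hI : ∀ i j, j₀ ≤ i → i + 1 = j → Maps x (I i) (I j)) {i : ℤ} (hi : j₀ ≤ i) :
    Monotone fun m => hst_W x I m i :=
  monotone_nat_of_le_succ fun m => hst_W_succ hI m i hi

theorem exists_sat [IsNoetherianRing R] (hx : Kos x) (M I : ℤ → Submodule R V) (j₀ : ℤ)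
    (hM : GoodFrom x M j₀) (hfg : (M j₀).FG) (hle : ∀ j, j₀ ≤ j → I j ≤ M j)
    (hI : ∀ i j, j₀ ≤ i → i + 1 = j → Maps x (I i) (I j) ∧ Gen x (I i) (I j)) : EG x I := by
  have hmaps : ∀ i j, j₀ ≤ i → i + 1 = j → Maps x (I i) (I j) := fun i j h h' => (hI i j h h').1
  have := isNoetherian_of_fg_of_noetherian _ hfg
  obtain ⟨m₀, hm₀⟩ := (monotone_stabilizes_iff_noetherian (R := R) (M := M j₀)).2 this
    ⟨fun m => (hst_W x I m j₀).comap (M j₀).subtype,
      fun a b h => Submodule.comap_mono (hst_W_mono hmaps le_rfl h)⟩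
  have step : ∀ (i : ℤ) (m : ℕ) (u : V), j₀ ≤ i → u ∈ M (i + 1) → (∃ c, x c u ∈ I (i + 1 + 1)) →
      u ∈ hst_W x I (m + 1) (i + 1) → u ∉ hst_W x I m (i + 1) →
      ∃ u', u' ∈ M i ∧ (∃ c, x c u' ∈ I (i + 1)) ∧ u' ∈ hst_W x I (m + 1 + 1) i ∧
        u' ∉ hst_W x I (m + 1) i := by
    rintro i m u hi h1 ⟨c, h2⟩ h3 h4
    obtain ⟨t, ht, e⟩ := (hI (i + 1) _ (by omega) rfl).2 _ h2
    obtain ⟨u', hu'⟩ := hx.ex (t - Pi.single c u) (by
      simp only [Pi.sub_apply, map_sub, Finset.sum_sub_distrib, e]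
      rw [Finset.sum_eq_single c (fun a _ ha => by rw [Pi.single_eq_of_ne ha, map_zero])
        (fun h => absurd (Finset.mem_univ c) h), Pi.single_eq_same, sub_self])
    have hW : ∀ m a, t a ∈ hst_W x I m (i + 1) := fun m a =>
      hst_W_mono hmaps (i := i + 1) (by omega) (Nat.zero_le m) (ht a)
    have key : ∀ P : Submodule R V, (∀ a, t a ∈ P) → u ∈ P → ∀ a, x a u' ∈ P := by
      intro P h5 h6 a
      rw [← hu', Pi.sub_apply]
      refine sub_mem (h5 a) ?_
      by_cases ha : a = c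
      · rwa [ha, Pi.single_eq_same]
      · rw [Pi.single_eq_of_ne ha]
        exact zero_mem _
    refine ⟨u', (hM i _ hi rfl).sat _ (key _ (fun a => hle _ (by omega) (ht a)) h1), ?_,
      hst_mem_W.2 (key _ (hW _) h3), fun h => h4 ?_⟩
    · obtain ⟨a, ha⟩ := exists_ne c
      exact ⟨a, by rw [← hu', Pi.sub_apply, Pi.single_eq_of_ne ha, sub_zero]; exact ht a⟩
    · have h5 := hst_mem_W.1 h c
      rw [← hu', Pi.sub_apply, Pi.single_eq_same] at h5
      simpa using sub_mem (hW m c) h5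
  have down : ∀ (n m : ℕ) (u : V), u ∈ M (j₀ + n) → (∃ c, x c u ∈ I (j₀ + n + 1)) →
      u ∈ hst_W x I (m + 1) (j₀ + n) → u ∉ hst_W x I m (j₀ + n) →
      ∃ u', u' ∈ M j₀ ∧ u' ∈ hst_W x I (m + n + 1) j₀ ∧ u' ∉ hst_W x I (m + n) j₀ := by
    intro n
    induction n with
    | zero =>
      intro m u h1 _ h3 h4
      rw [Nat.cast_zero, add_zero] at h1 h3 h4
      exact ⟨u, h1, h3, h4⟩
    | succ n ih =>
      intro m u h1 h2 h3 h4
      rw [Nat.cast_succ, ← add_assoc] at h1 h2 h3 h4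
      obtain ⟨u', k1, k2, k3, k4⟩ := step _ m u (by omega) h1 h2 h3 h4
      rw [show m + (n + 1) = m + 1 + n by omega]
      exact ih _ u' k1 k2 k3 k4
  refine ⟨j₀ + m₀, fun i j hi hj => ⟨hmaps i j (by omega) hj, (hI i j (by omega) hj).2,
    fun u hu => ?_⟩⟩
  subst hj
  obtain ⟨n, rfl⟩ : ∃ n : ℕ, i = j₀ + n := ⟨(i - j₀).toNat, by omega⟩
  by_contra hn
  obtain ⟨u', k1, k2, k3⟩ := down n 0 u
    ((hM _ _ (by omega) rfl).sat _ fun c => hle _ (by omega) (hu c)) ⟨0, hu 0⟩ (hst_mem_W.2 hu) hn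
  rw [zero_add] at k2 k3
  have e1 := hm₀ n (by omega)
  have e2 := hm₀ (n + 1) (by omega)
  have : (⟨u', k1⟩ : M j₀) ∈ (hst_W x I n j₀).comap (M j₀).subtype :=
    (e2.symm.trans e1).le (show (⟨u', k1⟩ : M j₀) ∈ (hst_W x I (n + 1) j₀).comap (M j₀).subtype
      from k2)
  exact k3 this

theorem eg_pre [IsNoetherianRing R] (hx : Kos x) (f : V →ₗ[K] V) (hf : Comm x f) (δ : ℤ)
    (M M' N : ℤ → Submodule R V) (hM : EG x M) (hM' : EG x M') (hN : EG x N)
    (hfg : ∀ j, (M' j).FG) (j₀ : ℤ) (hle : ∀ j, j₀ ≤ j → N j ≤ M' j)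
    (hs : ShiftFrom f M M' δ j₀) : EG x (preF R f δ M N) := by
  obtain ⟨a, hM⟩ := hM
  obtain ⟨a', hM'⟩ := hM'
  obtain ⟨b, hN⟩ := hN
  obtain ⟨j₁, l1, l2, l3, l4, l5⟩ :
      ∃ j₁, a + δ ≤ j₁ ∧ a' ≤ j₁ ∧ b ≤ j₁ ∧ j₀ ≤ j₁ ∧ j₀ + δ ≤ j₁ :=
    ⟨max (a + δ) (max a' (max b (max j₀ (j₀ + δ)))), by omega⟩
  have hmem : ∀ (j : ℤ) (v : V), v ∈ (M (j - δ)).map (f.restrictScalars R) ⊔ N j ↔
      ∃ m ∈ M (j - δ), ∃ n ∈ N j, f m + n = v := fun j v => by
    simp [Submodule.mem_sup]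
  obtain ⟨j₂, hI⟩ := exists_sat hx M' (fun j => (M (j - δ)).map (f.restrictScalars R) ⊔ N j) j₁
    (hM'.mono l2) (hfg _) (fun j hj v hv => by
      obtain ⟨m, hm, n, hn, rfl⟩ := (hmem j v).1 hv
      exact add_mem (hs _ j (by omega) (by omega) m hm) (hle j (by omega) hn))
    fun i j hi hj => by
      have g1 := hM (i - δ) (j - δ) (by omega) (by omega)
      have g2 := hN i j (by omega) hj
      constructor
      · intro c v hv
        obtain ⟨m, hm, n, hn, rfl⟩ := (hmem i v).1 hv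
        exact (hmem j _).2 ⟨_, g1.maps c m hm, _, g2.maps c n hn, by rw [map_add, hf]⟩
      · intro v hv
        obtain ⟨m, hm, n, hn, rfl⟩ := (hmem j v).1 hv
        obtain ⟨t, ht, rfl⟩ := g1.gen m hm
        obtain ⟨t', ht', rfl⟩ := g2.gen n hn
        refine ⟨fun c => f (t c) + t' c, fun c => (hmem i _).2 ⟨_, ht c, _, ht' c, rfl⟩, ?_⟩
        simp only [map_add, map_sum, hf _ _, Finset.sum_add_distrib]
  have hP : ∀ (j : ℤ) (v : V), v ∈ preF R f δ M N j ↔ v ∈ M j ∧ f v ∈ N (j + δ) :=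
    fun j v => Iff.rfl
  refine ⟨max (a + 1) (max (b + 1 - δ) (j₂ + 1 - δ)), fun i j hi hj => ?_⟩
  have g1 := hM i j (by omega) hj
  have g2 := hN (i + δ) (j + δ) (by omega) (by omega)
  refine ⟨fun c v hv => (hP _ _).2 ⟨g1.maps c v hv.1, by rw [hf]; exact g2.maps c _ hv.2⟩,
    fun v hv => ?_, fun v hv => (hP _ _).2 ⟨g1.sat v fun c => (hv c).1,
      g2.sat _ fun c => by rw [← hf]; exact (hv c).2⟩⟩
  obtain ⟨t, ht, rfl⟩ := g1.gen v hv.1
  obtain ⟨t', ht', e⟩ := g2.gen _ ((hP _ _).1 hv).2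
  obtain ⟨u, hu⟩ := hx.ex (fun c => f (t c) - t' c) (by
    simp only [map_sub, Finset.sum_sub_distrib, e, map_sum, hf _ _, sub_self])
  have hu' := (hI (i + δ - 1) (i + δ) (by omega) (by omega)).sat u fun c => (hmem _ _).2
    ⟨t c, by rw [add_sub_cancel_right]; exact ht c, -t' c, neg_mem (ht' c), by
      rw [← hu, sub_eq_add_neg]⟩
  obtain ⟨m, hm, n, hn, rfl⟩ := (hmem _ _).1 hu'
  refine ⟨fun c => t c - x c m, fun c => (hP _ _).2 ⟨sub_mem (ht c)
    ((hM _ i (by omega) (by omega)).maps c m hm), ?_⟩, ?_⟩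
  · have e1 := hu c
    have e2 : f (t c - x c m) = t' c + x c n := by
      rw [map_add] at e1
      rw [map_sub, hf, sub_eq_iff_eq_add.1 e1]
      abel
    rw [e2]
    exact add_mem (ht' c) ((hN _ _ (by omega) (by omega)).maps c n hn)
  · simp only [map_sub, Finset.sum_sub_distrib, hx.sq, sub_zero]

theorem eg_kerF [IsNoetherianRing R] (hx : Kos x) (d : V →ₗ[K] V) (hd : Comm x d)
    (M : ℤ → Submodule R V) (hM : EG x M) (hfg : ∀ j, (M j).FG) (j₀ : ℤ)
    (hs : ShiftFrom d M M 0 j₀) : EG x (kerF R d M) := by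
  refine eg_pre hx d hd 0 M M (fun _ => ⊥) hM hM ⟨0, fun i j _ _ => ⟨fun c v hv => ?_,
    fun v hv => ⟨0, fun _ => zero_mem _, ?_⟩, fun v hv => ?_⟩⟩ hfg j₀ (fun _ _ => bot_le) hs
  · rw [(Submodule.mem_bot R).1 hv, map_zero]
    exact zero_mem _
  · rw [(Submodule.mem_bot R).1 hv]
    simp
  · exact (Submodule.mem_bot R).2 (hx.inj v fun c => (Submodule.mem_bot R).1 (hv c))

theorem eg_imF [IsNoetherianRing R] (hx : Kos x) (d : V →ₗ[K] V) (hd : Comm x d)
    (M : ℤ → Submodule R V) (hM : EG x M) (hfg : ∀ j, (M j).FG) (j₀ : ℤ)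
    (hs : ShiftFrom d M M 0 j₀) : EG x (imF R d M) := by
  obtain ⟨a, hM⟩ := hM
  refine exists_sat hx M _ (max a j₀) (hM.mono (le_max_left _ _)) (hfg _) ?_ fun i j hi hj => ?_
  · rintro j hj _ ⟨m, hm, rfl⟩
    exact hs j j (by omega) (add_zero j) m hm
  · have g := hM i j (by omega) hj
    constructor
    · rintro c _ ⟨m, hm, rfl⟩
      exact ⟨_, g.maps c m hm, hd c m⟩
    · rintro _ ⟨m, hm, rfl⟩
      obtain ⟨t, ht, rfl⟩ := g.gen m hm
      refine ⟨fun c => d (t c), fun c => ⟨_, ht c, rfl⟩, ?_⟩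
      simp only [LinearMap.restrictScalars_apply, map_sum, hd _ _]

/-- propagation along generated families -/
theorem shiftFrom_of_gen {S : Type} [SetLike S V] [AddSubmonoidClass S V] (f : V →ₗ[K] V)
    (hf : Comm x f) (M N : ℤ → S) (δ j₀ : ℤ)
    (hM : ∀ i j, j₀ ≤ i → i + 1 = j → Gen x (M i) (M j))
    (hN : ∀ i j, j₀ + δ ≤ i → i + 1 = j → Maps x (N i) (N j))
    (h0 : ∀ v ∈ M j₀, f v ∈ N (j₀ + δ)) : ShiftFrom f M N δ j₀ := by
  rintro i _ hi rfl
  induction i, hi using Int.leInduction with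
  | base => exact h0
  | succ i hi ih =>
    intro v hv
    obtain ⟨t, ht, rfl⟩ := hM i _ hi rfl v hv
    rw [map_sum]
    refine sum_mem fun c _ => ?_
    rw [hf]
    exact hN (i + δ) _ (by omega) (by omega) c _ (ih _ (ht c))

end Pool.Agent.Work.MP_910138_ag.C0
end

-- merged part: Pool.Agent.Work.MP_910138_ag.C0.HChain
section
/-! Integrality of the trace when `e` is nilpotent on homology. -/

namespace Pool.Agent.Work.MP_910138_ag.C0

open Submodule

variable {K V : Type} [Field K] [AddCommGroup V] [Module K V] {x : Fin 3 → V →ₗ[K] V}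
  {gr : ℤ → Submodule K V} {pr : ℤ → V →ₗ[K] V} {d e : V →ₗ[K] V} {r s : ℤ → Fin 3 → V →ₗ[K] V}
  {R : Type} [CommRing R] [IsDomain R] [IsPrincipalIdealRing R] [Algebra R K]
  [IsFractionRing R K] [Module R V] [IsScalarTower R K V] {Λ : ℤ → Submodule R V}

omit [IsDomain R] [IsPrincipalIdealRing R] in
theorem hchain_span {L : Submodule R V} {a : R} (ha : a ≠ 0) {v : V} (hv : a • v ∈ L) :
    v ∈ Submodule.span K (L : Set V) := by
  have h1 : algebraMap R K a ≠ 0 := (map_ne_zero_iff _ (IsFractionRing.injective R K)).2 ha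
  rw [← smul_mem_iff _ h1, algebraMap_smul]
  exact subset_span hv

theorem Lat.span_kerF (h : Lat R x gr d e r s Λ) (j : ℤ) :
    Submodule.span K (kerF R d Λ j : Set V) = kerF K d gr j := by
  refine le_antisymm (span_le.2 fun v hv => ⟨?_, hv.2⟩) fun v hv => ?_
  · rw [← h.span]
    exact subset_span hv.1
  · obtain ⟨a, ha, hv'⟩ := exists_smul_mem (Λ j) (v := v) (by rw [h.span]; exact hv.1)
    refine hchain_span ha ⟨hv', ?_⟩
    have h1 : d v = 0 := hv.2
    change d (a • v) = 0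
    rw [LinearMap.map_smul_of_tower, h1, smul_zero]

theorem Lat.span_imF (h : Lat R x gr d e r s Λ) (j : ℤ) :
    Submodule.span K (imF R d Λ j : Set V) = imF K d gr j := by
  change Submodule.span K (d '' (Λ j : Set V)) = (gr j).map d
  rw [← h.span, Submodule.map_span]

theorem Lat.e_gr (h : Lat R x gr d e r s Λ) : ShiftFrom e gr gr 2 0 := by
  intro i j hi hj v hv
  rw [← h.span] at hv ⊢
  obtain ⟨a, ha, hv'⟩ := exists_smul_mem (Λ i) hv
  refine hchain_span ha ?_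
  rw [← LinearMap.map_smul_of_tower]
  exact h.e_mem i j hi hj _ hv'

variable (d e Λ) in
/-- the cycles that `g * e ^ n` maps to boundaries -/
def hchain_L (g : R) (n : ℕ) : ℤ → Submodule R V :=
  preF R (algebraMap R K g • e ^ n) (2 * n) (kerF R d Λ) (imF R d Λ)

omit [IsDomain R] [IsPrincipalIdealRing R] [IsFractionRing R K] in
theorem hchain_mem {g : R} {n : ℕ} {j : ℤ} {v : V} : v ∈ hchain_L d e Λ g n j ↔
    v ∈ kerF R d Λ j ∧ g • (e ^ n) v ∈ imF R d Λ (j + 2 * n) := by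
  simp [hchain_L, preF]

theorem hchain_span_L (h : Lat R x gr d e r s Λ) {g : R} (hg : g ≠ 0) (n : ℕ) (j : ℤ) :
    Submodule.span K (hchain_L d e Λ g n j : Set V) = flag d e gr n j := by
  refine le_antisymm (span_le.2 fun v hv => ?_) fun v hv => ?_
  · obtain ⟨h1, h2⟩ := hchain_mem.1 hv
    refine ⟨?_, ?_⟩
    · rw [← h.span_kerF]
      exact subset_span h1
    · have h3 := hchain_span (K := K) hg h2
      rwa [h.span_imF] at h3
  · obtain ⟨a, ha, h1⟩ := exists_smul_mem (K := K) (kerF R d Λ j) (v := v)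
      (by rw [h.span_kerF]; exact hv.1)
    obtain ⟨b, hb, h2⟩ := exists_smul_mem (K := K) (imF R d Λ (j + 2 * n)) (v := (e ^ n) v)
      (by rw [h.span_imF]; exact hv.2)
    refine hchain_span (mul_ne_zero hb ha) (hchain_mem.2 ⟨?_, ?_⟩)
    · rw [mul_smul]
      exact smul_mem _ _ h1
    · rw [LinearMap.map_smul_of_tower, mul_comm b a, mul_smul]
      exact smul_mem _ _ (smul_mem _ _ h2)

omit [IsDomain R] [IsPrincipalIdealRing R] [IsFractionRing R K] in
theorem hchain_eZ (h : Lat R x gr d e r s Λ) : ShiftFrom e (kerF R d Λ) (kerF R d Λ) 2 0 := by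
  intro i j hi hj v hv
  refine ⟨h.e_mem i j hi hj v hv.1, ?_⟩
  have h1 : d v = 0 := hv.2
  change d (e v) = 0
  rw [h.anti, h1, map_zero, neg_zero]

omit [IsDomain R] [IsPrincipalIdealRing R] [IsFractionRing R K] in
theorem hchain_eB (h : Lat R x gr d e r s Λ) : ShiftFrom e (imF R d Λ) (imF R d Λ) 2 0 := by
  rintro i j hi hj _ ⟨w, hw, rfl⟩
  refine ⟨-e w, neg_mem (h.e_mem i j hi hj w hw), ?_⟩
  change d (-e w) = e (d w)
  rw [map_neg, h.anti, neg_neg]

omit [IsDomain R] [IsPrincipalIdealRing R] [IsFractionRing R K] in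
theorem hchain_powZ (h : Lat R x gr d e r s Λ) (n : ℕ) :
    ShiftFrom (e ^ n) (kerF R d Λ) (kerF R d Λ) (2 * n) 0 := by
  induction n with
  | zero =>
    intro i j _ hj v hv
    obtain rfl : i = j := by omega
    exact hv
  | succ n ih =>
    intro i j hi hj v hv
    rw [pow_succ', Module.End.mul_apply]
    exact hchain_eZ h (i + 2 * n) j (by omega) (by push_cast at hj; omega) _ (ih i _ hi rfl v hv)

omit [IsDomain R] [IsPrincipalIdealRing R] [IsFractionRing R K] in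
theorem hchain_BZ (hA : Amb x gr pr d r s) (h : Lat R x gr d e r s Λ) (j : ℤ) (hj : 0 ≤ j) :
    imF R d Λ j ≤ kerF R d Λ j := by
  rintro _ ⟨w, hw, rfl⟩
  exact ⟨h.d_mem j j hj (add_zero _) w hw, hA.sq w⟩

omit [IsDomain R] [IsPrincipalIdealRing R] [IsFractionRing R K] in
theorem hchain_bot (hA : Amb x gr pr d r s) (h : Lat R x gr d e r s Λ) {j : ℤ} (hj : 0 ≤ j) :
    hchain_L d e Λ 1 0 j = imF R d Λ j := by
  ext v
  rw [hchain_mem]
  simp only [pow_zero, Module.End.one_apply, one_smul, Nat.cast_zero, mul_zero, add_zero]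
  exact ⟨fun hv => hv.2, fun hv => ⟨hchain_BZ hA h j hj hv, hv⟩⟩

omit [IsFractionRing R K] in
theorem hchain_fg (h : Lat R x gr d e r s Λ) {N : Submodule R V} {j : ℤ} (hN : N ≤ Λ j) : N.FG :=
  (h.fg j).of_le hN

omit [IsFractionRing R K] in
theorem hchain_egZ (hA : Amb x gr pr d r s) (h : Lat R x gr d e r s Λ) : EG x (kerF R d Λ) :=
  eg_kerF hA.kos d hA.comm Λ ⟨1, h.good⟩ h.fg 0 h.d_mem

omit [IsFractionRing R K] in
theorem hchain_egB (hA : Amb x gr pr d r s) (h : Lat R x gr d e r s Λ) : EG x (imF R d Λ) :=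
  eg_imF hA.kos d hA.comm Λ ⟨1, h.good⟩ h.fg 0 h.d_mem

omit [IsFractionRing R K] in
theorem hchain_eg (hA : Amb x gr pr d r s) (h : Lat R x gr d e r s Λ) (g : R) (n : ℕ) :
    EG x (hchain_L d e Λ g n) := by
  refine eg_pre hA.kos _ ((h.comm.pow n).smul _) _ _ (kerF R d Λ) _ (hchain_egZ hA h)
    (hchain_egZ hA h) (hchain_egB hA h) (fun j => hchain_fg h inf_le_left) 0 (hchain_BZ hA h)
    fun i j hi hj v hv => ?_
  rw [LinearMap.smul_apply, algebraMap_smul]
  exact smul_mem _ _ (hchain_powZ h n i j hi hj v hv)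

omit [IsDomain R] [IsPrincipalIdealRing R] [IsFractionRing R K] in
theorem hchain_le (h : Lat R x gr d e r s Λ) (g : R) (n : ℕ) {j : ℤ} (hj : 0 ≤ j) :
    hchain_L d e Λ g n j ≤ hchain_L d e Λ g (n + 1) j := fun v hv => by
  obtain ⟨h1, h2⟩ := hchain_mem.1 hv
  refine hchain_mem.2 ⟨h1, ?_⟩
  rw [pow_succ', Module.End.mul_apply, ← LinearMap.map_smul_of_tower]
  exact hchain_eB h _ _ (by omega) (by push_cast; ring) _ h2

omit [IsDomain R] [IsPrincipalIdealRing R] [IsFractionRing R K] in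
theorem hchain_e (h : Lat R x gr d e r s Λ) (g : R) (n : ℕ) {j : ℤ} (hj : 0 ≤ j) :
    ∀ v ∈ hchain_L d e Λ g (n + 1) j, e v ∈ hchain_L d e Λ g n (j + 2) := fun v hv => by
  obtain ⟨h1, h2⟩ := hchain_mem.1 hv
  refine hchain_mem.2 ⟨hchain_eZ h j _ hj rfl v h1, ?_⟩
  have h3 : j + 2 + 2 * (n : ℤ) = j + 2 * ((n + 1 : ℕ) : ℤ) := by push_cast; ring
  rwa [h3, ← Module.End.mul_apply, ← pow_succ]

theorem hchain_tri (hA : Amb x gr pr d r s) (h : Lat R x gr d e r s Λ) {m n : ℕ} {g : R}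
    (hg : g ≠ 0) (hn : n ≤ m) : ∀ᶠ j : ℤ in Filter.atTop, ∀ σ : Fin 3 → V →ₗ[K] V,
      (∀ n : ℕ, n ≤ m → Sec x σ (flag d e gr n (j + 1)) (flag d e gr n (j + 2))) →
      Tri x σ e (hchain_L d e Λ g n j) (hchain_L d e Λ g n (j + 1))
        (hchain_L d e Λ g n (j + 2)) := by
  obtain ⟨j₀, h0⟩ := hchain_eg hA h g n
  filter_upwards [Filter.eventually_ge_atTop j₀, Filter.eventually_ge_atTop 0] with j h1 h2 σ hσ
  refine ⟨hchain_fg h (inf_le_left.trans inf_le_left),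
    hchain_fg h (inf_le_left.trans inf_le_left), (h0 j _ h1 rfl).sat,
    (h0 (j + 1) _ (by omega) (by ring)).gen, ?_,
    fun v hv => hchain_e h g n h2 v (hchain_le h g n h2 hv)⟩
  rw [hchain_span_L h hg, hchain_span_L h hg]
  exact hσ n hn

variable (x gr d e) in
/-- the traces attached to two families eventually differ by an integral element -/
def hchain_E (m : ℕ) (F F' : ℤ → Submodule R V) : Prop :=
  ∀ᶠ j : ℤ in Filter.atTop, ∀ σ : Fin 3 → V →ₗ[K] V,
    (∀ n : ℕ, n ≤ m → Sec x σ (flag d e gr n (j + 1)) (flag d e gr n (j + 2))) →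
    ∀ φ φ' : V →ₗ[K] V, Adm x σ (F (j + 1)) (F (j + 2)) φ → Adm x σ (F' (j + 1)) (F' (j + 2)) φ' →
      trOn (Submodule.span K (F' j : Set V)) (φ' ∘ₗ e) -
        trOn (Submodule.span K (F j : Set V)) (φ ∘ₗ e) ∈ (algebraMap R K).range

theorem hchain_trans (hA : Amb x gr pr d r s) (h : Lat R x gr d e r s Λ) {m n : ℕ} {g : R}
    (hg : g ≠ 0) (hn : n ≤ m) {F F' : ℤ → Submodule R V}
    (h1 : hchain_E x gr d e m F (hchain_L d e Λ g n))
    (h2 : hchain_E x gr d e m (hchain_L d e Λ g n) F') : hchain_E x gr d e m F F' := by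
  filter_upwards [h1, h2, hchain_tri hA h hg hn] with j k1 k2 k3 σ hσ φ φ' hφ hφ'
  obtain ⟨ψ, hψ⟩ := (k3 σ hσ).exists_adm hA.kos
  have k4 := add_mem (k2 σ hσ ψ φ' hψ hφ') (k1 σ hσ φ ψ hφ hψ)
  rwa [sub_add_sub_cancel] at k4

theorem hchain_E_n (hA : Amb x gr pr d r s) (h : Lat R x gr d e r s Λ) (m n : ℕ) (hn : n ≤ m) :
    hchain_E x gr d e m (hchain_L d e Λ 1 0) (hchain_L d e Λ 1 n) := by
  induction n with
  | zero =>
    filter_upwards [hchain_tri hA h (one_ne_zero (α := R)) hn] with j k σ hσ φ φ' hφ hφ'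
    exact (k σ hσ).cmp_le (k σ hσ) le_rfl le_rfl le_rfl (k σ hσ).e_mem hφ hφ'
  | succ n ih =>
    refine hchain_trans hA h one_ne_zero (by omega) (ih (by omega)) ?_
    filter_upwards [hchain_tri hA h (one_ne_zero (α := R)) (by omega : n ≤ m),
      hchain_tri hA h (one_ne_zero (α := R)) hn, Filter.eventually_ge_atTop 0]
      with j k k' hj σ hσ φ φ' hφ hφ'
    exact (k σ hσ).cmp_le (k' σ hσ) (hchain_le h 1 n hj) (hchain_le h 1 n (by omega))
      (hchain_le h 1 n (by omega)) (hchain_e h 1 n hj) hφ hφ'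

theorem hchain_E_g (hA : Amb x gr pr d r s) (h : Lat R x gr d e r s Λ) (m : ℕ) (g : R) :
    g ≠ 0 → hchain_E x gr d e m (hchain_L d e Λ 1 0) (hchain_L d e Λ g m) := by
  induction g using UniqueFactorizationMonoid.induction_on_prime with
  | h₁ => exact fun h0 => absurd rfl h0
  | h₂ u hu =>
    intro _
    have h1 : hchain_L d e Λ u m = hchain_L d e Λ 1 m := by
      ext j v
      rw [hchain_mem, hchain_mem, one_smul, smul_mem_iff_of_isUnit _ hu]
    rw [h1]
    exact hchain_E_n hA h m m le_rfl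
  | h₃ a p ha hp ih =>
    intro hpa
    refine hchain_trans hA h ha le_rfl (ih ha) ?_
    have h1 : ∀ j, hchain_L d e Λ a m j ≤ hchain_L d e Λ (p * a) m j := fun j v hv => by
      rw [hchain_mem] at hv ⊢
      rw [mul_smul]
      exact ⟨hv.1, smul_mem _ _ hv.2⟩
    have h2 : ∀ j, ∀ v ∈ hchain_L d e Λ (p * a) m j, p • v ∈ hchain_L d e Λ a m j :=
      fun j v hv => by
        rw [hchain_mem] at hv ⊢
        rw [LinearMap.map_smul_of_tower, smul_smul, mul_comm a p]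
        exact ⟨smul_mem _ _ hv.1, hv.2⟩
    filter_upwards [hchain_tri hA h ha (le_refl m), hchain_tri hA h hpa (le_refl m)]
      with j k k' σ hσ φ φ' hφ hφ'
    exact (k σ hσ).cmp_prime (k' σ hσ) (h1 _) (h1 _) (h1 _) p hp (h2 _) (h2 _) (h2 _) hφ hφ'

theorem hchain_top (hA : Amb x gr pr d r s) (h : Lat R x gr d e r s Λ) (m : ℕ) (j₀ : ℤ)
    (hm : ShiftFrom (e ^ m) (kerF K d gr) (imF K d gr) (2 * m) j₀) :
    ∃ g : R, g ≠ 0 ∧ ∃ j' : ℤ, ∀ j, j' ≤ j → hchain_L d e Λ g m j = kerF R d Λ j := by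
  obtain ⟨a, ha⟩ := hchain_egZ hA h
  obtain ⟨b, hb⟩ := hchain_egB hA h
  obtain ⟨j', h0, h1, h2⟩ : ∃ j', j₀ ≤ j' ∧ a ≤ j' ∧ b ≤ j' :=
    ⟨max j₀ (max a b), by omega, by omega, by omega⟩
  obtain ⟨g, hg, h3⟩ := exists_smul_le (K := K) (imF R d Λ (j' + 2 * m))
    ((kerF R d Λ j').map ((e ^ m).restrictScalars R)) ((hchain_fg h inf_le_left).map _) (by
      rintro _ ⟨v, hv, rfl⟩
      rw [h.span_imF]
      refine hm j' _ h0 rfl v ?_
      rw [← h.span_kerF]
      exact subset_span hv)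
  have h4 := shiftFrom_of_gen (algebraMap R K g • e ^ m) ((h.comm.pow m).smul _) (kerF R d Λ)
    (imF R d Λ) (2 * m) j' (fun i j hi hj => (ha i j (by omega) hj).gen)
    (fun i j hi hj => (hb i j (by omega) hj).maps) fun v hv => by
      rw [LinearMap.smul_apply, algebraMap_smul]
      exact h3 _ ⟨v, hv, rfl⟩
  exact ⟨g, hg, j', fun j hj => inf_eq_left.2 fun v hv => h4 j _ hj rfl v hv⟩

theorem loc_mem (hA : Amb x gr pr d r s) (h : Lat R x gr d e r s Λ) (m : ℕ) (j₀ : ℤ)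
    (hm : ShiftFrom (e ^ m) (kerF K d gr) (imF K d gr) (2 * m) j₀) :
    ∃ j₁ : ℤ, ∀ j, j₁ ≤ j → ∀ (σ : Fin 3 → V →ₗ[K] V) (β : V →ₗ[K] V),
      Sec x σ (gr (j + 1)) (gr (j + 2)) → (∀ v ∈ gr (j + 2), ∀ c, σ c (d v) = d (σ c v)) →
      (∀ n : ℕ, n ≤ m → Sec x σ (flag d e gr n (j + 1)) (flag d e gr n (j + 2))) →
      Adm x σ (Λ (j + 1)) (Λ (j + 2)) β → trOn (gr j) (β ∘ₗ e) ∈ (algebraMap R K).range := by
  obtain ⟨g, hg, j', hj'⟩ := hchain_top hA h m j₀ hm
  have h1 := hchain_E_g hA h m g hg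
  have h2 := hchain_tri hA h (m := m) hg le_rfl
  have h3 := hchain_tri hA h (m := m) (one_ne_zero (α := R)) (Nat.zero_le m)
  obtain ⟨j₁, hj₁⟩ := Filter.eventually_atTop.1 (h1.and (h2.and h3))
  refine ⟨max (max j₁ j') 1, fun j hj σ β hσ hσd hP hβ => ?_⟩
  simp only [max_le_iff] at hj
  obtain ⟨k1, k2, k3⟩ := hj₁ j hj.1.1
  have k4 := k1 σ hP
  have k5 := k2 σ hP
  have k6 := k3 σ hP
  rw [hj' j (by omega), hj' (j + 1) (by omega), hj' (j + 2) (by omega)] at k4 k5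
  rw [hchain_bot hA h (j := j) (by omega), hchain_bot hA h (j := j + 1) (by omega),
    hchain_bot hA h (j := j + 2) (by omega)] at k4 k6
  obtain ⟨φZ, hZ⟩ := k5.exists_adm hA.kos
  obtain ⟨φB, hB⟩ := k6.exists_adm hA.kos
  have hT : Tri x σ e (Λ j) (Λ (j + 1)) (Λ (j + 2)) :=
    ⟨h.fg _, h.fg _, (h.good j _ hj.2 rfl).sat, (h.good (j + 1) _ (by omega) (by ring)).gen,
      by rwa [h.span, h.span], h.e_mem j _ (by omega) rfl⟩
  have k7 := hT.cmp_ker hA.kos d hA.comm hA.sq h.anti (h.d_mem j _ (by omega) (add_zero _))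
    (h.d_mem (j + 1) _ (by omega) (add_zero _)) (h.d_mem (j + 2) _ (by omega) (add_zero _))
    (fun v hv => hσd v (by rw [← h.span]; exact subset_span hv)) k5 k6 φZ φB hβ hZ hB
  have k8 := add_mem k7 (k4 φB φZ hB hZ)
  rw [h.span] at k8
  exact (sub_add_cancel (trOn (gr j) (β ∘ₗ e)) _) ▸ k8

end Pool.Agent.Work.MP_910138_ag.C0
end

-- merged part: Pool.Agent.Work.MP_910138_ag.C0.HSig
section
/-! Sections compatible with the differential and a flag; the recursion for the traces. -/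

namespace Pool.Agent.Work.MP_910138_ag.C0

variable {K V : Type} [Field K] [AddCommGroup V] [Module K V] {x : Fin 3 → V →ₗ[K] V}

theorem hsig_lift {A : Type} [AddCommGroup A] [Module K A] (f : A →ₗ[K] V) (S : Submodule K A) :
    ∃ τ : V →ₗ[K] A, (∀ v, τ v ∈ S) ∧ ∀ a ∈ S, f (τ (f a)) = f a := by
  obtain ⟨h, hh⟩ := (f.domRestrict S).rangeRestrict.exists_rightInverse_of_surjective
    (LinearMap.range_rangeRestrict _)
  obtain ⟨g, hg⟩ := h.exists_extend
  refine ⟨S.subtype ∘ₗ g, fun v => (g v).2, fun a ha => ?_⟩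
  have h1 : g (f a) = h ⟨f a, ⟨a, ha⟩, rfl⟩ := DFunLike.congr_fun hg ⟨f a, ⟨a, ha⟩, rfl⟩
  have h2 := congrArg Subtype.val (DFunLike.congr_fun hh ⟨f a, ⟨a, ha⟩, rfl⟩)
  rw [LinearMap.comp_apply, h1]
  exact h2

theorem hsig_sec {P Q : Submodule K V} (hg : Gen x P Q) :
    ∃ σ : Fin 3 → V →ₗ[K] V, Sec x σ P Q := by
  obtain ⟨τ, h1, h2⟩ := hsig_lift (∑ c, x c ∘ₗ LinearMap.proj c : (Fin 3 → V) →ₗ[K] V)
    (Submodule.pi Set.univ fun _ => P)
  refine ⟨fun c => LinearMap.proj c ∘ₗ τ, fun v hv => ⟨fun c => h1 v c trivial, ?_⟩⟩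
  obtain ⟨t, ht, rfl⟩ := hg v hv
  have h3 := h2 t fun c _ => ht c
  simp only [LinearMap.sum_apply] at h3
  exact h3

theorem hsig_comm {d : V →ₗ[K] V} (hd : Comm x d) (t : Fin 3 → V) :
    ∑ c, x c (d (t c)) = d (∑ c, x c (t c)) := by
  rw [map_sum]
  exact Finset.sum_congr rfl fun c _ => (hd c _).symm

theorem exists_sec_extend (σ : Fin 3 → V →ₗ[K] V) {P P' Q Q' : Submodule K V} (hQ : Q ≤ Q')
    (hP : P ≤ P') (h : Sec x σ P Q) (hg : Gen x P' Q') :
    ∃ σ' : Fin 3 → V →ₗ[K] V, Sec x σ' P' Q' ∧ ∀ v ∈ Q, ∀ c, σ' c v = σ c v := by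
  obtain ⟨τ, hτ⟩ := hsig_sec hg
  obtain ⟨p, p1, p2⟩ := hsig_lift (LinearMap.id : V →ₗ[K] V) Q
  simp only [LinearMap.id_apply] at p2
  refine ⟨fun c => σ c ∘ₗ p + τ c ∘ₗ (LinearMap.id - p), fun v hv => ?_, fun v hv c => ?_⟩
  · obtain ⟨h1, h2⟩ := h _ (p1 v)
    obtain ⟨h3, h4⟩ := hτ _ (sub_mem hv (hQ (p1 v)))
    refine ⟨fun c => add_mem (hP (h1 c)) (h3 c), ?_⟩
    simp only [LinearMap.add_apply, LinearMap.comp_apply, LinearMap.sub_apply, LinearMap.id_apply,
      map_add, Finset.sum_add_distrib, h2, h4, add_sub_cancel]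
  · simp [p2 v hv]

theorem exists_sec_flag (d : V →ₗ[K] V) (hd : Comm x d) (hdd : ∀ v, d (d v) = 0)
    (P Q : Submodule K V) (dP : ∀ v ∈ P, d v ∈ P) (dQ : ∀ v ∈ Q, d v ∈ Q) (hg : Gen x P Q) (m : ℕ)
    (F G : ℕ → Submodule K V) (hF : Monotone F) (hG : Monotone G) (F0 : F 0 = P.map d)
    (G0 : G 0 = Q.map d) (Fm : F m = P ⊓ LinearMap.ker d) (Gm : G m = Q ⊓ LinearMap.ker d)
    (hFG : ∀ n, n ≤ m → Gen x (F n) (G n)) :
    ∃ σ : Fin 3 → V →ₗ[K] V, Sec x σ P Q ∧ (∀ v ∈ Q, ∀ c, σ c (d v) = d (σ c v)) ∧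
      ∀ n, n ≤ m → Sec x σ (F n) (G n) := by
  obtain ⟨s₀, hs⟩ := hsig_sec hg
  obtain ⟨η, η1, η2⟩ := hsig_lift d Q
  have key : ∀ n, n ≤ m → ∃ σ : Fin 3 → V →ₗ[K] V, (∀ k, k ≤ n → Sec x σ (F k) (G k)) ∧
      ∀ v ∈ G 0, ∀ c, σ c v = d (s₀ c (η v)) := by
    intro n
    induction n with
    | zero =>
      refine fun _ => ⟨fun c => d ∘ₗ s₀ c ∘ₗ η, fun k hk => ?_, fun _ _ _ => rfl⟩
      rw [Nat.le_zero.1 hk, F0, G0]
      rintro _ ⟨v, hv, rfl⟩
      obtain ⟨h1, h2⟩ := hs _ (η1 (d v))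
      refine ⟨fun c => ⟨_, h1 c, rfl⟩, ?_⟩
      simp only [LinearMap.comp_apply]
      rw [hsig_comm hd, h2, η2 v hv]
    | succ n ih =>
      intro hn
      obtain ⟨σ, h1, h2⟩ := ih (Nat.le_of_succ_le hn)
      obtain ⟨σ', h3, h4⟩ := exists_sec_extend σ (hG n.le_succ) (hF n.le_succ) (h1 n le_rfl)
        (hFG _ hn)
      refine ⟨σ', fun k hk => ?_, fun v hv c => (h4 v (hG n.zero_le hv) c).trans (h2 v hv c)⟩
      rcases Nat.le_succ_iff_eq_or_le.1 hk with rfl | hk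
      · exact h3
      · intro v hv
        simp only [h4 v (hG hk hv)]
        exact h1 k hk v hv
  obtain ⟨σ, h1, h2⟩ := key m le_rfl
  have h3 : ∀ v ∈ Q, (∀ c, σ c (v - η (d v)) ∈ P ⊓ LinearMap.ker d) ∧
      ∑ c, x c (σ c (v - η (d v))) = v - η (d v) := fun v hv => by
    rw [← Fm]
    refine h1 m le_rfl _ ?_
    rw [Gm]
    exact ⟨sub_mem hv (η1 _), by simp [η2 v hv]⟩
  refine ⟨fun c => σ c ∘ₗ (LinearMap.id - η ∘ₗ d) + s₀ c ∘ₗ η ∘ₗ d, fun v hv => ?_,
    fun v hv c => ?_, fun n hn v hv => ?_⟩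
  · obtain ⟨h4, h5⟩ := h3 v hv
    obtain ⟨h6, h7⟩ := hs _ (η1 (d v))
    refine ⟨fun c => add_mem (h4 c).1 (h6 c), ?_⟩
    simp only [LinearMap.add_apply, LinearMap.comp_apply, LinearMap.sub_apply, LinearMap.id_apply,
      map_add, Finset.sum_add_distrib, h5, h7, sub_add_cancel]
  · have h4 : d (σ c (v - η (d v))) = 0 := ((h3 v hv).1 c).2
    simp only [LinearMap.add_apply, LinearMap.comp_apply, LinearMap.sub_apply, LinearMap.id_apply,
      map_add, h4, hdd, map_zero, sub_zero, add_zero, zero_add]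
    exact h2 _ (G0 ▸ ⟨v, hv, rfl⟩) c
  · have h4 : d v = 0 := (Gm ▸ hG hn hv).2
    simp only [LinearMap.add_apply, LinearMap.comp_apply, LinearMap.sub_apply, LinearMap.id_apply,
      h4, map_zero, sub_zero, add_zero]
    exact h1 n hn v hv

variable {gr : ℤ → Submodule K V} {pr : ℤ → V →ₗ[K] V} {d γ : V →ₗ[K] V}
  {r s : ℤ → Fin 3 → V →ₗ[K] V}

theorem hsig_xr (hA : Amb x gr pr d r s) {j : ℤ} (hj : 0 ≤ j) {t : Fin 3 → V}
    (ht : ∀ c, t c ∈ gr (j + 1)) (a : Fin 3) :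
    x a (∑ b, r j b (t b)) = t a - s j a (∑ b, x b (t b)) := by
  rw [eq_sub_iff_add_eq, map_sum, map_sum, ← Finset.sum_add_distrib,
    Finset.sum_congr rfl fun b _ => hA.split j hj a b _ (ht b)]
  simp

theorem hsig_d (hA : Amb x gr pr d r s) {j : ℤ} (hj : 0 ≤ j) : ∀ v ∈ gr j, d v ∈ gr j :=
  hA.d_mem j j hj (add_zero j)

theorem Amb.r_s (hA : Amb x gr pr d r s) {j : ℤ} (hj : 0 ≤ j) :
    ∀ v ∈ gr (j + 2), ∑ c, r j c (s j c v) = 0 := by
  refine fun v hv => hA.kos.inj _ fun a => ?_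
  rw [hsig_xr hA hj fun c => hA.s_mem j hj c v hv, hA.x_s j hj v hv, sub_self]

theorem Amb.conn_mem (hA : Amb x gr pr d r s) {j : ℤ} (hj : 0 ≤ j) :
    ∀ v ∈ gr (j + 2), conn d r s j v ∈ gr j := by
  intro v hv
  rw [conn, LinearMap.sum_apply]
  exact sum_mem fun c _ => hA.r_mem j hj c _ (hsig_d hA (by omega) _ (hA.s_mem j hj c v hv))

theorem Amb.x_conn (hA : Amb x gr pr d r s) {j : ℤ} (hj : 0 ≤ j) (c : Fin 3) :
    ∀ v ∈ gr (j + 2), x c (conn d r s j v) = d (s j c v) - s j c (d v) := by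
  intro v hv
  simp only [conn, LinearMap.sum_apply, LinearMap.comp_apply]
  rw [hsig_xr hA hj fun c => hsig_d hA (by omega) _ (hA.s_mem j hj c v hv), hsig_comm hA.comm,
    hA.x_s j hj v hv]

theorem Amb.conn_x (hA : Amb x gr pr d r s) {j : ℤ} (hj : 0 ≤ j) (c : Fin 3) :
    ∀ v ∈ gr (j + 1), conn d r s j (x c v) = r j c (d v) - d (r j c v) := by
  intro v hv
  have h1 : ∀ a, r j a (d (s j a (x c v))) =
      (if a = c then r j a (d v) else 0) - r j a (x a (d (r j c v))) := fun a => by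
    rw [eq_sub_of_add_eq' (hA.split j hj a c v hv), map_sub, map_sub, hA.comm]
    split_ifs <;> simp
  simp only [conn, LinearMap.sum_apply, LinearMap.comp_apply, h1, Finset.sum_sub_distrib]
  rw [hA.r_x j hj _ (hsig_d hA hj _ (hA.r_mem j hj c v hv))]
  simp

/-- `f` maps `A` to `B` -/
def hsig_Mp (f : V →ₗ[K] V) (A B : Submodule K V) : Prop := ∀ v ∈ A, f v ∈ B

theorem hsig_Mp.c {f g : V →ₗ[K] V} {A B C : Submodule K V} (hf : hsig_Mp f B C)
    (hg : hsig_Mp g A B) : hsig_Mp (f ∘ₗ g) A C := fun v hv => hf _ (hg v hv)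

theorem hsig_split {W : Submodule K V} [FiniteDimensional K W] {f p q : V →ₗ[K] V}
    (hf : hsig_Mp f W W) (hp : hsig_Mp p W W) (hq : hsig_Mp q W W)
    (h : ∀ v ∈ W, p v + q v = v) : trOn W f = trOn W (f ∘ₗ p) + trOn W (q ∘ₗ f) := by
  rw [trOn_comm hf hq, ← trOn_add (hf.c hp) (hf.c hq)]
  refine trOn_congr fun v hv => ?_
  rw [LinearMap.add_apply, LinearMap.comp_apply, LinearMap.comp_apply, ← map_add, h v hv]

theorem hsig_rec {W0 W1 W2 W3 : Submodule K V} [FiniteDimensional K W0] [FiniteDimensional K W1]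
    [FiniteDimensional K W2] {y d g r r' s s' D D' : V →ₗ[K] V}
    (d0 : hsig_Mp d W0 W0) (d1 : hsig_Mp d W1 W1) (d2 : hsig_Mp d W2 W2) (d3 : hsig_Mp d W3 W3)
    (g0 : hsig_Mp g W0 W2) (g1 : hsig_Mp g W1 W3) (hr : hsig_Mp r W1 W0) (hr' : hsig_Mp r' W2 W1)
    (hs : hsig_Mp s W2 W1) (hs' : hsig_Mp s' W3 W2) (hD : hsig_Mp D W2 W0)
    (hD' : hsig_Mp D' W3 W1) (y0 : hsig_Mp y W0 W1) (y1 : hsig_Mp y W1 W2)
    (y2 : hsig_Mp y W2 W3) (e1 : ∀ v ∈ W1, y (r v) + s (y v) = v)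
    (e2 : ∀ v ∈ W2, y (r' v) + s' (y v) = v) (yg : ∀ v, g (y v) = y (g v))
    (c1 : ∀ v ∈ W2, y (D v) = d (s v) - s (d v)) (c2 : ∀ v ∈ W3, y (D' v) = d (s' v) - s' (d v))
    (c3 : ∀ v ∈ W1, D (y v) = r (d v) - d (r v))
    (c4 : ∀ v ∈ W2, D' (y v) = r' (d v) - d (r' v)) :
    trOn W1 (D' ∘ₗ g) + trOn W0 (D ∘ₗ g) = trOn W0 (r ∘ₗ r' ∘ₗ (d ∘ₗ g - g ∘ₗ d)) -
      trOn W1 (s ∘ₗ s' ∘ₗ (d ∘ₗ g - g ∘ₗ d)) := by
  have a1 : trOn W1 ((D' ∘ₗ g) ∘ₗ y ∘ₗ r) =
      trOn W1 ((r' ∘ₗ d ∘ₗ g) ∘ₗ r) - trOn W1 ((d ∘ₗ r') ∘ₗ g ∘ₗ r) := by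
    rw [← trOn_sub ((hr'.c (d2.c g0)).c hr) ((d1.c hr').c (g0.c hr))]
    refine trOn_congr fun v hv => ?_
    simp only [LinearMap.comp_apply, LinearMap.sub_apply, yg, c4 _ (g0 _ (hr v hv))]
  have a2 : trOn W1 ((s ∘ₗ y) ∘ₗ D' ∘ₗ g) =
      trOn W1 ((s ∘ₗ d) ∘ₗ s' ∘ₗ g) - trOn W1 (s ∘ₗ s' ∘ₗ d ∘ₗ g) := by
    rw [← trOn_sub ((hs.c d2).c (hs'.c g1)) (hs.c (hs'.c (d3.c g1)))]
    refine trOn_congr fun v hv => ?_
    simp only [LinearMap.comp_apply, LinearMap.sub_apply, c2 _ (g1 v hv), map_sub]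
  have b1 : trOn W2 ((g ∘ₗ D) ∘ₗ y ∘ₗ r') =
      trOn W2 ((g ∘ₗ r) ∘ₗ d ∘ₗ r') - trOn W2 ((g ∘ₗ d) ∘ₗ r ∘ₗ r') := by
    rw [← trOn_sub ((g0.c hr).c (d1.c hr')) ((g0.c d0).c (hr.c hr'))]
    refine trOn_congr fun v hv => ?_
    simp only [LinearMap.comp_apply, LinearMap.sub_apply, c3 _ (hr' v hv), map_sub]
  have b2 : trOn W2 ((s' ∘ₗ y) ∘ₗ g ∘ₗ D) =
      trOn W2 ((s' ∘ₗ g ∘ₗ d) ∘ₗ s) - trOn W2 ((s' ∘ₗ g) ∘ₗ s ∘ₗ d) := by
    rw [← trOn_sub ((hs'.c (g1.c d1)).c hs) ((hs'.c g1).c (hs.c d2))]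
    refine trOn_congr fun v hv => ?_
    simp only [LinearMap.comp_apply, LinearMap.sub_apply, ← yg, c1 v hv, map_sub]
  have f1 : trOn W0 (r ∘ₗ r' ∘ₗ (d ∘ₗ g - g ∘ₗ d)) =
      trOn W0 (r ∘ₗ r' ∘ₗ d ∘ₗ g) - trOn W0 ((r ∘ₗ r') ∘ₗ g ∘ₗ d) := by
    rw [← trOn_sub (hr.c (hr'.c (d2.c g0))) ((hr.c hr').c (g0.c d0))]
    refine trOn_congr fun v hv => ?_
    simp only [LinearMap.comp_apply, LinearMap.sub_apply, map_sub]
  have f2 : trOn W1 (s ∘ₗ s' ∘ₗ (d ∘ₗ g - g ∘ₗ d)) =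
      trOn W1 (s ∘ₗ s' ∘ₗ d ∘ₗ g) - trOn W1 (s ∘ₗ s' ∘ₗ g ∘ₗ d) := by
    rw [← trOn_sub (hs.c (hs'.c (d3.c g1))) (hs.c (hs'.c (g1.c d1)))]
    refine trOn_congr fun v hv => ?_
    simp only [LinearMap.comp_apply, LinearMap.sub_apply, map_sub]
  rw [hsig_split (hD'.c g1) (y0.c hr) (hs.c y1) e1, trOn_comm g0 hD,
    hsig_split (g0.c hD) (y1.c hr') (hs'.c y2) e2, a1, a2, b1, b2, f1, f2,
    trOn_comm hr (hr'.c (d2.c g0)), trOn_comm (g0.c hr) (d1.c hr'),
    trOn_comm (hs'.c g1) (hs.c d2), trOn_comm (hr.c hr') (g0.c d0),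
    trOn_comm hs (hs'.c (g1.c d1))]
  ring

/-- the recursion -/
theorem Amb.TT_succ (hA : Amb x gr pr d r s) (hγ : Comm x γ) (hγs : ShiftFrom γ gr gr 2 0)
    {j : ℤ} (hj : 0 ≤ j) : TT gr d γ r s (j + 1) + TT gr d γ r s j =
      trOn (gr j) (r j 0 ∘ₗ r (j + 1) 0 ∘ₗ (d ∘ₗ γ - γ ∘ₗ d)) -
        trOn (gr (j + 1)) (s j 0 ∘ₗ s (j + 1) 0 ∘ₗ (d ∘ₗ γ - γ ∘ₗ d)) := by
  have := hA.fin
  have hj' : 0 ≤ j + 1 := by omega
  have e : gr (j + 2) = gr (j + 1 + 1) := by rw [add_assoc, one_add_one_eq_two]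
  refine hsig_rec (W2 := gr (j + 1 + 1)) (W3 := gr (j + 1 + 2)) (y := x 0) (hsig_d hA hj)
    (hsig_d hA hj') (hsig_d hA (by omega)) (hsig_d hA (by omega)) (hγs _ _ hj (by ring))
    (hγs _ _ hj' rfl) (hA.r_mem j hj 0) (hA.r_mem _ hj' 0) (e ▸ hA.s_mem j hj 0)
    (hA.s_mem _ hj' 0) (e ▸ hA.conn_mem hj) (hA.conn_mem hj') (hA.maps 0 _ _ hj rfl)
    (hA.maps 0 _ _ hj' rfl) (hA.maps 0 _ _ (by omega) (by ring))
    (fun v hv => hA.split j hj 0 0 v hv) (fun v hv => hA.split _ hj' 0 0 v hv) (hγ 0)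
    (e ▸ hA.x_conn hj 0) (hA.x_conn hj' 0) (hA.conn_x hj 0) (hA.conn_x hj' 0)

/-- the invariant in terms of a section commuting with the differential -/
theorem Amb.TT_eq (hA : Amb x gr pr d r s) (hγs : ShiftFrom γ gr gr 2 0) {j : ℤ} (hj : 0 ≤ j)
    (σ : Fin 3 → V →ₗ[K] V) (hσ : Sec x σ (gr (j + 1)) (gr (j + 2)))
    (hd : ∀ v ∈ gr (j + 2), ∀ c, σ c (d v) = d (σ c v)) :
    ∃ β : V →ₗ[K] V, (∀ v ∈ gr (j + 2), β v ∈ gr j ∧ ∀ c, σ c v - x c (β v) = s j c v) ∧
      TT gr d γ r s j = trOn (gr j) (β ∘ₗ (d ∘ₗ γ - γ ∘ₗ d)) := by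
  have := hA.fin
  obtain ⟨β, hβ⟩ : ∃ β : V →ₗ[K] V, ∀ v, β v = ∑ c, r j c (σ c v - s j c v) :=
    ⟨∑ c, r j c ∘ₗ (σ c - s j c), fun v => by simp only [LinearMap.sum_apply]; rfl⟩
  have h0 : ∀ v ∈ gr (j + 2), ∀ c, σ c v - s j c v ∈ gr (j + 1) := fun v hv c =>
    sub_mem ((hσ v hv).1 c) (hA.s_mem j hj c v hv)
  have h1 : hsig_Mp β (gr (j + 2)) (gr j) := fun v hv => by
    rw [hβ]
    exact sum_mem fun c _ => hA.r_mem j hj c _ (h0 v hv c)
  have h2 : ∀ v ∈ gr (j + 2), ∀ c, x c (β v) = σ c v - s j c v := fun v hv c => by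
    rw [hβ, hsig_xr hA hj (h0 v hv)]
    simp only [map_sub, Finset.sum_sub_distrib, (hσ v hv).2, hA.x_s j hj v hv, sub_self, map_zero,
      sub_zero]
  have d0 : hsig_Mp d (gr j) (gr j) := hsig_d hA hj
  have d2 : hsig_Mp d (gr (j + 2)) (gr (j + 2)) := hsig_d hA (by omega)
  have g0 : hsig_Mp γ (gr j) (gr (j + 2)) := hγs _ _ hj rfl
  have h3 : ∀ v ∈ gr (j + 2), conn d r s j v = β (d v) - d (β v) := fun v hv => by
    refine sub_eq_zero.1 (hA.kos.inj _ fun c => ?_)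
    rw [map_sub, map_sub, hA.x_conn hj c v hv, ← hA.comm, h2 v hv, h2 _ (d2 v hv), map_sub,
      hd v hv]
    abel
  refine ⟨β, fun v hv => ⟨h1 v hv, fun c => by rw [h2 v hv, sub_sub_cancel]⟩, ?_⟩
  have h4 : TT gr d γ r s j = trOn (gr j) (β ∘ₗ d ∘ₗ γ) - trOn (gr j) (d ∘ₗ β ∘ₗ γ) := by
    rw [← trOn_sub (h1.c (d2.c g0)) (d0.c (h1.c g0))]
    exact trOn_congr fun v hv => h3 _ (g0 v hv)
  rw [h4, trOn_comm (h1.c g0) d0, ← trOn_sub (h1.c (d2.c g0)) ((h1.c g0).c d0)]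
  refine trOn_congr fun v hv => ?_
  simp only [LinearMap.comp_apply, LinearMap.sub_apply, map_sub]

end Pool.Agent.Work.MP_910138_ag.C0
end

-- merged part: Pool.Agent.Work.MP_910138_ag.C0.HDim
section
/-! Dimension counts in a Koszul system. -/

namespace Pool.Agent.Work.MP_910138_ag.C0

open Module

variable {K V : Type} [Field K] [AddCommGroup V] [Module K V] {x : Fin 3 → V →ₗ[K] V}

section
variable {R : Type} [CommRing R] [Algebra R K] [Module R V] [IsScalarTower R K V]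

/-- the sum map on triples -/
def hdim_pi (x : Fin 3 → V →ₗ[K] V) (P : Submodule R V) : (Fin 3 → P) →ₗ[R] V :=
  ∑ c, (x c).restrictScalars R ∘ₗ P.subtype ∘ₗ LinearMap.proj c

theorem hdim_pi_apply (P : Submodule R V) (t : Fin 3 → P) :
    hdim_pi x P t = ∑ c, x c (t c) := by
  simp [hdim_pi]

theorem hdim_range (P : Submodule R V) : LinearMap.range (hdim_pi x P) = piSum R x P := by
  refine le_antisymm ?_ (iSup_le fun c => ?_)
  · rintro _ ⟨t, rfl⟩
    rw [hdim_pi_apply]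
    exact Submodule.sum_mem _ fun c _ => Submodule.mem_iSup_of_mem c ⟨t c, (t c).2, rfl⟩
  · rintro _ ⟨v, hv, rfl⟩
    refine ⟨Pi.single c ⟨v, hv⟩, ?_⟩
    rw [hdim_pi_apply, Finset.sum_eq_single c (fun b _ hb => by simp [hb]) (by simp)]
    simp

theorem mem_piSum {P : Submodule R V} {v : V} :
    v ∈ piSum R x P ↔ ∃ t : Fin 3 → V, (∀ c, t c ∈ P) ∧ ∑ c, x c (t c) = v := by
  rw [← hdim_range]
  constructor
  · rintro ⟨t, rfl⟩
    exact ⟨fun c => t c, fun c => (t c).2, (hdim_pi_apply P t).symm⟩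
  · rintro ⟨t, ht, rfl⟩
    exact ⟨fun c => ⟨t c, ht c⟩, hdim_pi_apply P _⟩

theorem maps_iff_piSum {P Q : Submodule R V} : Maps x P Q ↔ piSum R x P ≤ Q :=
  ⟨fun h => iSup_le fun c => Submodule.map_le_iff_le_comap.2 fun v hv => h c v hv,
    fun h c v hv => h (Submodule.mem_iSup_of_mem c ⟨v, hv, rfl⟩)⟩

theorem gen_iff_piSum {P Q : Submodule R V} : Gen x P Q ↔ Q ≤ piSum R x P :=
  ⟨fun h v hv => mem_piSum.2 (h v hv), fun h _ hv => mem_piSum.1 (h hv)⟩

/-- the inclusion in the triples -/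
def hdim_io {P Q : Submodule R V} (h : Maps x P Q) : P →ₗ[R] Fin 3 → Q :=
  LinearMap.pi fun c => ((x c).restrictScalars R).restrict (h c)

theorem hdim_io_inj (hx : Kos x) {P Q : Submodule R V} (h : Maps x P Q) :
    Function.Injective (hdim_io h) :=
  (injective_iff_map_eq_zero _).2 fun v hv =>
    Subtype.ext (hx.inj v fun c => congrArg Subtype.val (congrFun hv c))

theorem hdim_le (hx : Kos x) {P Q : Submodule R V} (h : Maps x P Q) :
    LinearMap.range (hdim_io h) ≤ LinearMap.ker (hdim_pi x Q) := by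
  rintro _ ⟨v, rfl⟩
  rw [LinearMap.mem_ker, hdim_pi_apply]
  exact hx.sq v

theorem hdim_sat (hx : Kos x) {P Q : Submodule R V} (h : Maps x P Q) :
    LinearMap.range (hdim_io h) = LinearMap.ker (hdim_pi x Q) ↔ Sat x P Q := by
  constructor
  · intro e v hv
    obtain ⟨u, hu⟩ := e.ge (show (fun c => ⟨x c v, hv c⟩ : Fin 3 → Q) ∈ _ by
      rw [LinearMap.mem_ker, hdim_pi_apply]
      exact hx.sq v)
    have : v - u = 0 := hx.inj _ fun c => by
      rw [map_sub, sub_eq_zero]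
      exact (congrArg Subtype.val (congrFun hu c)).symm
    rw [sub_eq_zero.1 this]
    exact u.2
  · intro hs
    refine le_antisymm (hdim_le hx h) fun t ht => ?_
    rw [LinearMap.mem_ker, hdim_pi_apply] at ht
    obtain ⟨u, hu⟩ := hx.ex _ ht
    exact ⟨⟨u, hs u fun c => hu c ▸ (t c).2⟩, funext fun c => Subtype.ext (hu c).symm⟩

end

variable {F : Type} [Field F] [Algebra F K] [Module F V] [IsScalarTower F K V]
  {P Q : Submodule F V}

instance finiteDimensional_piSum [FiniteDimensional F Q] : FiniteDimensional F (piSum F x Q) := by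
  rw [← hdim_range]
  infer_instance

theorem finite_of_maps (hx : Kos x) [FiniteDimensional F Q] (h : Maps x P Q) :
    FiniteDimensional F P :=
  FiniteDimensional.of_injective _ (hdim_io_inj hx h)

theorem hdim_rank [FiniteDimensional F Q] :
    finrank F (piSum F x Q) + finrank F (LinearMap.ker (hdim_pi x Q)) = 3 * finrank F Q := by
  rw [← hdim_range, LinearMap.finrank_range_add_finrank_ker, Module.finrank_pi_fintype]
  simp

theorem dim_le (hx : Kos x) [FiniteDimensional F Q] (h : Maps x P Q) :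
    finrank F (piSum F x Q) + finrank F P ≤ 3 * finrank F Q := by
  rw [← hdim_rank (x := x), ← LinearMap.finrank_range_of_inj (hdim_io_inj hx h)]
  exact Nat.add_le_add_left (Submodule.finrank_mono (hdim_le hx h)) _

theorem dim_eq_of_sat (hx : Kos x) [FiniteDimensional F Q] (h : Maps x P Q) (hs : Sat x P Q) :
    finrank F (piSum F x Q) + finrank F P = 3 * finrank F Q := by
  rw [← hdim_rank (x := x), ← LinearMap.finrank_range_of_inj (hdim_io_inj hx h),
    (hdim_sat hx h).2 hs]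

theorem sat_of_dim_eq (hx : Kos x) [FiniteDimensional F Q] (h : Maps x P Q)
    (he : finrank F (piSum F x Q) + finrank F P = 3 * finrank F Q) : Sat x P Q := by
  rw [← hdim_rank (x := x), ← LinearMap.finrank_range_of_inj (hdim_io_inj hx h)] at he
  exact (hdim_sat hx h).1
    (Submodule.eq_of_le_of_finrank_eq (hdim_le hx h) (Nat.add_left_cancel he))

end Pool.Agent.Work.MP_910138_ag.C0
end

-- merged part: Pool.Agent.Work.MP_910138_ag.C0.HStruct
section
/-! A saturated family is an extension of a constant family by a family that is good everywhere. -/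

namespace Pool.Agent.Work.MP_910138_ag.C0

open Module

variable {k K V : Type} [Field k] [Field K] [Algebra k K] [AddCommGroup V] [Module K V]
  [Module k V] [IsScalarTower k K V] {x : Fin 3 → V →ₗ[K] V}

theorem hstruct_rec {α : Type} (n : ℤ) (a : ℤ → α) (f : ℤ → α → α) :
    ∃ T : ℤ → α, (∀ j, j ≤ n → T j = a j) ∧ ∀ j, n ≤ j → T (j + 1) = f j (T j) := by
  obtain ⟨g, g0, gs⟩ : ∃ g : ℕ → α, g 0 = a n ∧ ∀ i, g (i + 1) = f (n + i) (g i) :=
    ⟨Nat.rec (a n) fun i t => f (n + i) t, rfl, fun _ => rfl⟩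
  refine ⟨fun j => if j ≤ n then a j else g (j - n).toNat, fun j hj => if_pos hj, fun j hj => ?_⟩
  obtain ⟨i, rfl⟩ := Int.eq_ofNat_of_zero_le (sub_nonneg.2 hj) |>.imp
    (q := fun i : ℕ => j = n + i) fun i hi => by omega
  have h1 : (n + i + 1 - n).toNat = i + 1 := by omega
  have h2 : (n + i - n).toNat = i := by omega
  have h3 : (if n + i ≤ n then a (n + i) else g (n + i - n).toNat) = g i := by
    split_ifs with h
    · obtain rfl : i = 0 := by omega
      simp [g0]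
    · rw [h2]
  dsimp only
  rw [if_neg (by omega), h1, gs, h3]

theorem hstruct_num (c : ℤ → ℕ) (m : ℕ)
    (H : ∀ n : ℤ, n ≤ 0 → ∃ v : ℤ → ℕ, v 0 ≤ m ∧ ∀ j, n ≤ j → v j + c (j + 1) ≤ v (j + 1)) :
    ∃ n₀ : ℤ, ∀ i, i ≤ n₀ → c i = 0 := by
  by_contra hne
  push Not at hne
  have key : ∀ N : ℕ, ∃ a : ℤ, a ≤ 0 ∧ ∀ v : ℤ → ℕ,
      (∀ j, a ≤ j → v j + c (j + 1) ≤ v (j + 1)) → v a + N ≤ v 0 := by
    intro N
    induction N with
    | zero => exact ⟨0, le_rfl, fun _ _ => le_rfl⟩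
    | succ N ih =>
      obtain ⟨a, ha, h⟩ := ih
      obtain ⟨i, hi, hc⟩ := hne a
      refine ⟨i - 1, by omega, fun v hv => ?_⟩
      have h1 := h v fun j hj => hv j (by omega)
      have h2 := hv (i - 1) le_rfl
      rw [sub_add_cancel] at h2
      have h3 : ∀ j, i ≤ j → v i ≤ v j := fun j hj => by
        induction j, hj using Int.leInduction with
        | base => exact le_rfl
        | succ j hj ih =>
          have := hv j (by omega)
          omega
      have := h3 a hi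
      omega
  obtain ⟨a, ha, h⟩ := key (m + 1)
  obtain ⟨v, hv0, hv⟩ := H a ha
  have := h v hv
  omega

theorem hstruct_span (b : ℕ) (β : Fin b → V) :
    Submodule.span K (Submodule.span k (Set.range β) : Set V) = Submodule.span K (Set.range β) :=
  Submodule.span_span_of_tower k K _

theorem hstruct_compl {P Q : Submodule K V} [FiniteDimensional K Q] (h : P ≤ Q) :
    ∃ B : Submodule k V, FiniteDimensional k B ∧ finrank k B + finrank K P ≤ finrank K Q ∧
      P ⊔ Submodule.span K (B : Set V) = Q := by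
  obtain ⟨W, hW⟩ := P.exists_isCompl
  have : FiniteDimensional K P := Submodule.finiteDimensional_of_le h
  have : FiniteDimensional K (W ⊓ Q : Submodule K V) :=
    Submodule.finiteDimensional_of_le inf_le_right
  have h1 : P ⊔ W ⊓ Q = Q := by
    rw [← sup_inf_assoc_of_le W h, hW.sup_eq_top, top_inf_eq]
  have h2 : P ⊓ (W ⊓ Q) = ⊥ := by rw [← inf_assoc, hW.inf_eq_bot, bot_inf_eq]
  have h3 := Submodule.finrank_sup_add_finrank_inf_eq P (W ⊓ Q)
  rw [h1, h2, finrank_bot] at h3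
  let β := finBasis K (W ⊓ Q : Submodule K V)
  refine ⟨Submodule.span k (Set.range fun i => (β i : V)),
    FiniteDimensional.span_of_finite k (Set.finite_range _), ?_, ?_⟩
  · have := finrank_range_le_card (R := k) fun i => (β i : V)
    rw [Fintype.card_fin, Set.finrank] at this
    omega
  · rw [hstruct_span]
    refine Eq.trans ?_ h1
    congr 1
    have := congrArg (Submodule.map (W ⊓ Q).subtype) β.span_eq
    rwa [Submodule.map_span, Submodule.map_subtype_top, ← Set.range_comp] at this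

theorem hstruct_ind (T : Submodule K V) (C : Submodule k V) [FiniteDimensional K T]
    [FiniteDimensional k C] : ∃ b : Fin (finrank k C) → V, Submodule.span k (Set.range b) = C ∧
      finrank K (T ⊔ Submodule.span K (C : Set V) : Submodule K V) ≤ finrank K T + finrank k C ∧
      (finrank K T + finrank k C = finrank K (T ⊔ Submodule.span K (C : Set V) : Submodule K V) →
        ∀ c : Fin (finrank k C) → K, ∑ i, c i • b i ∈ T → c = 0) := by
  let β := finBasis k C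
  have h1 : Submodule.span k (Set.range fun i => (β i : V)) = C := by
    have := congrArg (Submodule.map C.subtype) β.span_eq
    rwa [Submodule.map_span, Submodule.map_subtype_top, ← Set.range_comp] at this
  let g := T.subtype.coprod (Fintype.linearCombination K fun i => (β i : V))
  have h2 : LinearMap.range g = T ⊔ Submodule.span K (C : Set V) := by
    rw [LinearMap.range_coprod, Submodule.range_subtype, Fintype.range_linearCombination,
      ← hstruct_span (k := k), h1]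
  have h3 := g.finrank_range_add_finrank_ker
  rw [h2, finrank_prod, finrank_fintype_fun_eq_card, Fintype.card_fin] at h3
  refine ⟨_, h1, by omega, fun he c hc => ?_⟩
  have h4 : LinearMap.ker g = ⊥ := Submodule.finrank_eq_zero.1 (by omega)
  have h5 : (-⟨_, hc⟩, c) ∈ LinearMap.ker g := by
    simp [g, Fintype.linearCombination_apply]
  rw [h4, Submodule.mem_bot] at h5
  exact congrArg Prod.snd h5

theorem hstruct_pi_sup (P Q : Submodule K V) :
    piSum K x (P ⊔ Q) = piSum K x P ⊔ piSum K x Q := by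
  simp only [piSum, Submodule.map_sup, iSup_sup_eq]

theorem hstruct_span_sup (A B : Submodule k V) : Submodule.span K ((A ⊔ B : Submodule k V) : Set V) =
    Submodule.span K (A : Set V) ⊔ Submodule.span K (B : Set V) := by
  rw [← Submodule.span_union, ← Submodule.span_span_of_tower k K ((A : Set V) ∪ B),
    Submodule.span_union, Submodule.span_eq, Submodule.span_eq]

theorem hstruct_span_pi (C : Submodule k V) : Submodule.span K (piSum k x C : Set V) =
    piSum K x (Submodule.span K (C : Set V)) := by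
  refine le_antisymm (Submodule.span_le.2 fun v hv => ?_) (maps_iff_piSum.1 fun c v hv => ?_)
  · obtain ⟨t, ht, rfl⟩ := mem_piSum.1 hv
    exact mem_piSum.2 ⟨t, fun c => Submodule.subset_span (ht c), rfl⟩
  · refine (Submodule.span_le (p := (Submodule.span K (piSum k x C : Set V)).comap (x c))).2
      (fun w hw => ?_) hv
    exact Submodule.subset_span (maps_iff_piSum.2 le_rfl c w hw)

theorem hstruct_fin (C : Submodule k V) [FiniteDimensional k C] :
    FiniteDimensional k (piSum k x C) := by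
  rw [← hdim_range]
  infer_instance

/-- The construction from the base point `n`. -/
theorem hstruct_base (hx : Kos x) (M : ℤ → Submodule K V) (hfin : ∀ j, FiniteDimensional K (M j))
    (hM : ∀ i, Maps x (M i) (M (i + 1)) ∧ Sat x (M i) (M (i + 1))) (c : ℤ → ℕ)
    (hc : ∀ j, c (j + 1) + finrank K (piSum K x (M j)) = finrank K (M (j + 1))) (n : ℤ) :
    ∃ (T : ℤ → Submodule K V) (C : ℤ → Submodule k V),
      (∀ j, j ≤ n + 1 → T j = M j) ∧ (∀ j, n + 1 ≤ j → T (j + 1) = piSum K x (T j)) ∧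
      (∀ i, Maps x (T i) (T (i + 1))) ∧ (∀ i, Maps x (C i) (C (i + 1))) ∧
      (∀ j, FiniteDimensional k (C j)) ∧ (∀ j, T j ⊔ Submodule.span K (C j : Set V) = M j) ∧
      (∀ j, finrank K (T j) + finrank k (C j) = finrank K (M j)) ∧
      (∀ j, n ≤ j → finrank K (T (j + 1 + 1)) + finrank K (T j) = 3 * finrank K (T (j + 1))) ∧
      ∀ j, n + 1 ≤ j → finrank k (C j) + c (j + 1) ≤ finrank k (C (j + 1)) := by
  choose B hBf hBd hBs using fun j =>
    hstruct_compl (k := k) (Q := M (j + 1)) (maps_iff_piSum.1 (hM j).1)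
  obtain ⟨T, T0, Ts⟩ := hstruct_rec (n + 1) M fun _ t => piSum K x t
  obtain ⟨C, C0, Cs⟩ := hstruct_rec (n + 1) (fun _ => (⊥ : Submodule k V))
    fun j t => piSum k x t ⊔ B j
  have ind : ∀ p : ℤ → Prop, (∀ j, j ≤ n + 1 → p j) → (∀ j, n + 1 ≤ j → p j → p (j + 1)) →
      ∀ j, p j := fun p h0 hs j => by
    rcases le_total j (n + 1) with hj | hj
    · exact h0 j hj
    · induction j, hj using Int.leInduction with
      | base => exact h0 _ le_rfl
      | succ j hj ih => exact hs j hj ih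
  have hsup : ∀ j, T j ⊔ Submodule.span K (C j : Set V) = M j := by
    refine ind _ (fun j hj => ?_) fun j hj ih => ?_
    · rw [T0 j hj, C0 j hj]
      simp
    · rw [Ts j hj, Cs j hj, hstruct_span_sup, hstruct_span_pi, ← sup_assoc, ← hstruct_pi_sup, ih,
        hBs]
  have hTf : ∀ j, FiniteDimensional K (T j) := fun j =>
    Submodule.finiteDimensional_of_le (le_sup_left.trans (hsup j).le)
  have hCf : ∀ j, FiniteDimensional k (C j) := by
    refine ind _ (fun j hj => ?_) fun j hj ih => ?_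
    · rw [C0 j hj]
      infer_instance
    · rw [Cs j hj]
      have := hstruct_fin (x := x) (C j)
      infer_instance
  have hTm : ∀ i, Maps x (T i) (T (i + 1)) := fun i => by
    rcases le_or_gt (n + 1) i with hi | hi
    · rw [Ts i hi]
      exact maps_iff_piSum.2 le_rfl
    · rw [T0 i hi.le, T0 (i + 1) hi]
      exact (hM i).1
  have hCm : ∀ i, Maps x (C i) (C (i + 1)) := fun i => by
    rcases le_or_gt (n + 1) i with hi | hi
    · rw [Cs i hi]
      exact maps_iff_piSum.2 le_sup_left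
    · rw [C0 i hi.le]
      intro a v hv
      rw [(Submodule.mem_bot k).1 hv, map_zero]
      exact zero_mem _
  have e0 : ∀ j, finrank K (M j) ≤ finrank K (T j) + finrank k (C j) := fun j => by
    obtain ⟨b, -, h, -⟩ := hstruct_ind (T j) (C j)
    rwa [hsup] at h
  have e1 : ∀ j, j ≤ n + 1 → finrank K (T j) + finrank k (C j) = finrank K (M j) := fun j hj => by
    rw [T0 j hj, C0 j hj, finrank_bot, add_zero]
  have e2 : ∀ j, n ≤ j → finrank K (T (j + 1 + 1)) + finrank K (T j) ≤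
      3 * finrank K (T (j + 1)) := fun j hj => by
    rw [Ts (j + 1) (by omega)]
    exact dim_le hx (hTm j)
  have e3 : ∀ j, n ≤ j → finrank k (C (j + 1 + 1)) + finrank k (C j) ≤
      3 * finrank k (C (j + 1)) + c (j + 1 + 1) := fun j hj => by
    have := hstruct_fin (x := x) (C (j + 1))
    have h1 := dim_le hx (hCm j)
    have h2 := Submodule.finrank_sup_add_finrank_inf_eq (piSum k x (C (j + 1))) (B (j + 1))
    have h3 := hBd (j + 1)
    have h4 := hc (j + 1)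
    rw [← Cs (j + 1) (by omega)] at h2
    omega
  have e4 : ∀ j, finrank K (M (j + 1 + 1)) + finrank K (M j) =
      3 * finrank K (M (j + 1)) + c (j + 1 + 1) := fun j => by
    have h1 := dim_eq_of_sat hx (hM j).1 (hM j).2
    have h4 := hc (j + 1)
    omega
  have e5 : ∀ j, finrank K (T j) + finrank k (C j) = finrank K (M j) := by
    refine ind _ e1 fun j hj ih => ?_
    obtain ⟨i, rfl⟩ : ∃ i, j = i + 1 := ⟨j - 1, by ring⟩
    have := e0 i
    have := e0 (i + 1 + 1)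
    have := e2 i (by omega)
    have := e3 i (by omega)
    have := e4 i
    omega
  have e6 : ∀ j, n ≤ j → finrank K (T (j + 1 + 1)) + finrank K (T j) = 3 * finrank K (T (j + 1)) ∧
      finrank k (C (j + 1 + 1)) + finrank k (C j) =
        3 * finrank k (C (j + 1)) + c (j + 1 + 1) := fun j hj => by
    have := e5 j
    have := e5 (j + 1)
    have := e5 (j + 1 + 1)
    have := e2 j hj
    have := e3 j hj
    have := e4 j
    omega
  have e7 : ∀ j, n ≤ j → finrank k (C j) ≤ finrank k (C (j + 1)) := fun j hj => by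
    induction j, hj using Int.leInduction with
    | base =>
      rw [C0 n (by omega), finrank_bot]
      exact Nat.zero_le _
    | succ j hj ih =>
      have := (e6 j hj).2
      omega
  refine ⟨T, C, T0, Ts, hTm, hCm, hCf, hsup, e5, fun j hj => (e6 j hj).1, fun j hj => ?_⟩
  obtain ⟨i, rfl⟩ : ∃ i, j = i + 1 := ⟨j - 1, by ring⟩
  have := (e6 i (by omega)).2
  have := e7 i (by omega)
  omega

theorem exists_struct (hx : Kos x) (M : ℤ → Submodule K V) (hfin : ∀ j, FiniteDimensional K (M j))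
    (hM : ∀ i j, i + 1 = j → Maps x (M i) (M j) ∧ Sat x (M i) (M j)) :
    ∃ (T : ℤ → Submodule K V) (C : ℤ → Submodule k V) (n₀ : ℤ),
      (∀ j, T j ≤ M j) ∧ (∀ i j, i + 1 = j → Good x (T i) (T j)) ∧ (∀ j, j ≤ n₀ → T j = M j) ∧
      (∀ i j, i + 1 = j → Maps x (C i) (C j)) ∧
      (∀ j, T j ⊔ Submodule.span K (C j : Set V) = M j) ∧
      ∀ j, ∃ (n : ℕ) (b : Fin n → V), Submodule.span k (Set.range b) = C j ∧
        ∀ c : Fin n → K, ∑ i, c i • b i ∈ T j → c = 0 := by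
  have hM' := fun i => hM i (i + 1) rfl
  have hle : ∀ j, piSum K x (M j) ≤ M (j + 1) := fun j => maps_iff_piSum.1 (hM' j).1
  obtain ⟨c, hc⟩ : ∃ c : ℤ → ℕ,
      ∀ j, c (j + 1) + finrank K (piSum K x (M j)) = finrank K (M (j + 1)) := by
    refine ⟨fun j => finrank K (M j) - finrank K (piSum K x (M (j - 1))), fun j => ?_⟩
    have := Submodule.finrank_mono (hle j)
    dsimp only
    rw [show j + 1 - 1 = j by ring]
    omega
  obtain ⟨n₀, hn₀⟩ := hstruct_num c (finrank K (M 0)) fun n _ => by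
    obtain ⟨T, C, -, -, -, -, -, -, h1, -, h2⟩ := hstruct_base (k := k) hx M hfin hM' c hc (n - 1)
    refine ⟨fun j => finrank k (C j), ?_, fun j hj => h2 j (by omega)⟩
    have := h1 0
    dsimp only
    omega
  obtain ⟨T, C, T0, Ts, hTm, hCm, hCf, hsup, h1, h2, -⟩ :=
    hstruct_base (k := k) hx M hfin hM' c hc (n₀ - 1)
  rw [sub_add_cancel] at T0 Ts
  have hTM : ∀ j, T j ≤ M j := fun j => le_sup_left.trans (hsup j).le
  have hTf : ∀ j, FiniteDimensional K (T j) := fun j => Submodule.finiteDimensional_of_le (hTM j)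
  refine ⟨T, C, n₀, hTM, ?_, T0, ?_, hsup, fun j => ?_⟩
  · rintro i _ rfl
    refine ⟨hTm i, ?_, ?_⟩
    · rcases le_or_gt n₀ i with hi | hi
      · exact gen_iff_piSum.2 (Ts i hi).le
      · rw [T0 i hi.le, T0 (i + 1) hi]
        have h3 := hc i
        rw [hn₀ (i + 1) hi, zero_add] at h3
        exact gen_iff_piSum.2 (Submodule.eq_of_le_of_finrank_eq (hle i) h3).ge
    · rcases le_or_gt n₀ i with hi | hi
      · refine sat_of_dim_eq hx (hTm i) ?_
        rw [← Ts (i + 1) (by omega)]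
        exact h2 i (by omega)
      · rw [T0 i hi.le, T0 (i + 1) hi]
        exact (hM' i).2
  · rintro i _ rfl
    exact hCm i
  · obtain ⟨b, hb, -, h⟩ := hstruct_ind (T j) (C j)
    exact ⟨_, b, hb, h (by rw [hsup, h1])⟩

end Pool.Agent.Work.MP_910138_ag.C0
end

-- merged part: Pool.Agent.Work.MP_910138_ag.C0.HNum
section
/-! Integer sequences and the recursion `u (j + 1) = 3 u j - u (j - 1)`. -/

namespace Pool.Agent.Work.MP_910138_ag.C0

theorem hnum_mu : ∃ μ : ℝ, 0 < μ ∧ μ < 1 ∧ μ * (3 - μ) = 1 ∧ Irrational μ := by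
  have h5 : √(5 : ℝ) * √5 = 5 := Real.mul_self_sqrt (by norm_num)
  have h0 : 0 ≤ √(5 : ℝ) := Real.sqrt_nonneg _
  refine ⟨(3 - √5) / 2, by (refine lt_of_not_ge fun h_nl => ?_; linarith only [h_nl, h5, h0, mul_nonneg_of_nonpos_of_nonpos (Mathlib.Tactic.Linarith.sub_nonpos_of_le h0) (Mathlib.Tactic.Linarith.sub_nonpos_of_le h_nl)]), by (refine lt_of_not_ge fun h_nl => ?_; linarith only [h_nl, h5, h0, mul_nonneg_of_nonpos_of_nonpos (Mathlib.Tactic.Linarith.sub_nonpos_of_le h0) (Mathlib.Tactic.Linarith.sub_nonpos_of_le h_nl)]), by nlinarith, ?_⟩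
  have h : Irrational (√((5 : ℕ) : ℝ)) := Nat.Prime.irrational_sqrt (by norm_num)
  have h' : Irrational (√(5 : ℝ)) := by simpa using h
  rintro ⟨q, hq⟩
  refine h' ⟨3 - 2 * q, ?_⟩
  push_cast
  linarith only [hq]

/-- A nonnegative sub-solution does not decay faster than `μ ^ k`. -/
theorem hnum_nat {μ : ℝ} (h1 : μ < 1) (h2 : μ * (3 - μ) = 1) (u : ℕ → ℝ) (hu : ∀ k, 0 ≤ u k)
    (hrec : ∀ k, u (k + 2) + u k ≤ 3 * u (k + 1)) : μ * u 0 ≤ u 1 := by
  by_contra hc
  push Not at hc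
  set α := μ * u 0 - u 1 with hα
  have hα0 : 0 < α := by linarith only [hc]
  have h3 : ∀ k, u (k + 1) - μ * u k ≤ -α := by
    intro k
    induction k with
    | zero => simp [hα]
    | succ k ih =>
      have e : (3 - μ) * (u (k + 1) - μ * u k) = 3 * u (k + 1) - u k - μ * u (k + 1) := by
        linear_combination (-u k) * h2
      have := hrec k
      linarith only [hc, ih, e, this, h1, mul_pos_of_neg_of_neg (Mathlib.Tactic.Linarith.sub_neg_of_lt h1) (Mathlib.Tactic.Linarith.sub_neg_of_lt hc), mul_nonneg_of_nonpos_of_nonpos (le_of_lt (Mathlib.Tactic.Linarith.sub_neg_of_lt h1)) (Mathlib.Tactic.Linarith.sub_nonpos_of_le ih)]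
  have h4 : ∀ k : ℕ, u k ≤ u 0 - k * α := by
    intro k
    induction k with
    | zero => simp
    | succ k ih =>
      have := h3 k
      have := hu k
      push_cast
      nlinarith
  obtain ⟨k, hk⟩ := exists_nat_gt (u 0 / α)
  rw [div_lt_iff₀ hα0] at hk
  linarith only [hk, h4, hu, h4 k, hu k]

theorem hnum_A {μ : ℝ} (h1 : μ < 1) (h2 : μ * (3 - μ) = 1) (u : ℤ → ℝ) (j : ℤ)
    (hu : ∀ k, j ≤ k → 0 ≤ u k) (hrec : ∀ k, j ≤ k → u (k + 2) + u k ≤ 3 * u (k + 1)) :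
    μ * u j ≤ u (j + 1) := by
  have := hnum_nat h1 h2 (fun k => u (j + k)) (fun k => hu _ (by omega)) (fun k => by
    have := hrec (j + k) (by omega)
    push_cast
    simpa only [add_assoc] using this)
  simpa using this

theorem hnum_B {μ : ℝ} (h1 : μ < 1) (h2 : μ * (3 - μ) = 1) (u : ℤ → ℝ)
    (hu : ∀ k, 0 ≤ u k) (hrec : ∀ k, u (k + 2) + u k ≤ 3 * u (k + 1)) (j : ℤ) :
    μ * u (j + 1) ≤ u j := by
  have := hnum_A h1 h2 (fun k => u (-k)) (-(j + 1)) (fun k _ => hu _) (fun k _ => by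
    have := hrec (-(k + 2))
    have e1 : -(k + 2) + 2 = -k := by ring
    have e2 : -(k + 2) + 1 = -(k + 1) := by ring
    rw [e1, e2] at this
    linarith only [this])
  have e1 : -(-(j + 1) + 1) = j := by ring
  simpa only [neg_neg, e1] using this

theorem hnum_shift {μ : ℝ} (h2 : μ * (3 - μ) = 1) (u : ℤ → ℝ)
    (hrec : ∀ k, u (k + 2) + u k = 3 * u (k + 1)) (m : ℕ) (j : ℤ) :
    u (j + 1) - μ * u j = μ ^ m * (u (j + m + 1) - μ * u (j + m)) := by
  induction m with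
  | zero => simp
  | succ m ih =>
    have h := hrec (j + m)
    have e1 : j + ((m + 1 : ℕ) : ℤ) + 1 = j + m + 2 := by push_cast; ring
    have e2 : j + ((m + 1 : ℕ) : ℤ) = j + m + 1 := by push_cast; ring
    rw [ih, e1, e2, pow_succ, mul_assoc]
    congr 1
    linear_combination (-μ) * h - u (j + m + 1) * h2

theorem hnum_const (u : ℤ → ℝ) (hrec : ∀ k, u (k + 2) + u k = 3 * u (k + 1)) (j : ℤ) :
    3 * u j * u (j + 1) - u j ^ 2 - u (j + 1) ^ 2 = 3 * u 0 * u 1 - u 0 ^ 2 - u 1 ^ 2 := by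
  have step : ∀ k : ℤ, 3 * u (k + 1) * u (k + 1 + 1) - u (k + 1) ^ 2 - u (k + 1 + 1) ^ 2 =
      3 * u k * u (k + 1) - u k ^ 2 - u (k + 1) ^ 2 := fun k => by
    have h := hrec k
    have e : k + 1 + 1 = k + 2 := by ring
    rw [e]
    linear_combination (u k - u (k + 2)) * h
  induction j using Int.induction_on with
  | zero => simp
  | succ k ih => rw [step, ih]
  | pred k ih =>
    rw [← ih, ← step (-(k : ℤ) - 1)]
    simp

theorem num_vanish (r : ℤ → ℕ) (hr : ∀ j, r (j + 2) + r j = 3 * r (j + 1)) :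
    ∃ n : ℕ, ∀ (i l l' : ℤ → ℕ) (j₁ : ℤ), (∀ j, l j + i (j + 2 * n) = r j) →
      (∀ j, 3 * l (j + 1) ≤ l (j + 2) + l j) → (∀ j, l' j ≤ r j) →
      (∀ j, 3 * l' (j + 1) ≤ l' (j + 2) + l' j) → (∀ j, j₁ ≤ j → l' j = i j) →
      (∀ j, j₁ ≤ j → i (j + 2) + i j = 3 * i (j + 1)) → ∀ j, j₁ ≤ j → i j = 0 := by
  obtain ⟨μ, h0, h1, h2, hirr⟩ := hnum_mu
  have hrR : ∀ j, ((r (j + 2) : ℕ) : ℝ) + r j = 3 * r (j + 1) := fun j => by exact_mod_cast hr j
  set q : ℝ := 3 * (r 0 : ℝ) * r 1 - (r 0 : ℝ) ^ 2 - (r 1 : ℝ) ^ 2 with hq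
  obtain ⟨n, hn⟩ : ∃ n : ℕ, μ ^ (2 * n) * q < 1 := by
    obtain ⟨n, hn⟩ := exists_pow_lt_of_lt_one (x := 1 / (|q| + 1)) (y := μ ^ 2) (by positivity)
      (by linarith only [h1, h0, mul_pos_of_neg_of_neg (Mathlib.Tactic.Linarith.sub_neg_of_lt h0) (Mathlib.Tactic.Linarith.sub_neg_of_lt h1)])
    refine ⟨n, ?_⟩
    rw [lt_div_iff₀ (by positivity), ← pow_mul] at hn
    have h3 : 0 < μ ^ (2 * n) := by positivity
    linarith only [h0, hn, h3, h1, le_abs_self q, mul_pos_of_neg_of_neg (Mathlib.Tactic.Linarith.sub_neg_of_lt h0) (Mathlib.Tactic.Linarith.sub_neg_of_lt hn), mul_pos_of_neg_of_neg (Mathlib.Tactic.Linarith.sub_neg_of_lt h0) (Mathlib.Tactic.Linarith.sub_neg_of_lt h3), mul_pos_of_neg_of_neg (Mathlib.Tactic.Linarith.sub_neg_of_lt h1) (Mathlib.Tactic.Linarith.sub_neg_of_lt hn), mul_pos_of_neg_of_neg (Mathlib.Tactic.Linarith.sub_neg_of_lt h1) (Mathlib.Tactic.Linarith.sub_neg_of_lt h3), mul_nonneg_of_nonpos_of_nonpos (le_of_lt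 (Mathlib.Tactic.Linarith.sub_neg_of_lt h3)) (Mathlib.Tactic.Linarith.sub_nonpos_of_le (le_abs_self q))]
  refine ⟨n, fun i l l' j₁ hl hlc hl' hlc' hi hic j hj => ?_⟩
  have hlR : ∀ j, ((l j : ℕ) : ℝ) + i (j + 2 * n) = r j := fun j => by exact_mod_cast hl j
  have hlcR : ∀ j, 3 * ((l (j + 1) : ℕ) : ℝ) ≤ l (j + 2) + l j := fun j => by exact_mod_cast hlc j
  have hlcR' : ∀ j, 3 * ((l' (j + 1) : ℕ) : ℝ) ≤ l' (j + 2) + l' j := fun j => by
    exact_mod_cast hlc' j
  have hicR : ∀ j, j₁ ≤ j → ((i (j + 2) : ℕ) : ℝ) + i j = 3 * i (j + 1) := fun j hj => by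
    exact_mod_cast hic j hj
  have hsh : ∀ j, ((l (j - 2 * n) : ℕ) : ℝ) + i j = r (j - 2 * n) := fun j => by
    have := hlR (j - 2 * n)
    rwa [sub_add_cancel] at this
  have b1 : μ * (i (j + 1) : ℝ) ≤ i j :=
    hnum_B h1 h2 (fun k => (i k : ℝ)) (fun k => Nat.cast_nonneg _) (fun k => by
      have a0 := hsh k
      have a1 := hsh (k + 1)
      have a2 := hsh (k + 2)
      have a3 := hlcR (k - 2 * n)
      have a4 := hrR (k - 2 * n)
      have e1 : k - 2 * n + 1 = k + 1 - 2 * n := by ring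
      have e2 : k - 2 * n + 2 = k + 2 - 2 * n := by ring
      rw [e1, e2] at a3 a4
      linarith only [a0, a1, a2, a3, a4]) j
  have b2 : μ * ((r (j + 1) : ℝ) - l' (j + 1)) ≤ r j - l' j :=
    hnum_B h1 h2 (fun k => (r k : ℝ) - l' k) (fun k => sub_nonneg.2 (by exact_mod_cast hl' k))
      (fun k => by linarith only [hrR, hlcR', hrR k, hlcR' k]) j
  rw [hi j hj, hi (j + 1) (by omega)] at b2
  have a1 : μ * (i j : ℝ) ≤ i (j + 1) :=
    hnum_A h1 h2 (fun k => (i k : ℝ)) j (fun k _ => Nat.cast_nonneg _)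
      (fun k hk => (hicR k (by omega)).le)
  have a2 : μ * (l (j - 2 * n) : ℝ) ≤ l (j + 1 - 2 * n) :=
    hnum_A h1 h2 (fun k => (l (k - 2 * n) : ℝ)) j (fun k _ => Nat.cast_nonneg _) (fun k hk => by
      have a0 := hsh k
      have a1 := hsh (k + 1)
      have a2 := hsh (k + 2)
      have a3 := hicR k (by omega)
      have a4 := hrR (k - 2 * n)
      have e1 : k - 2 * n + 1 = k + 1 - 2 * n := by ring
      have e2 : k - 2 * n + 2 = k + 2 - 2 * n := by ring
      rw [e1, e2] at a4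
      linarith only [a0, a1, a2, a3, a4])
  have a3 := hnum_shift h2 (fun k => (r k : ℝ)) hrR (2 * n) (j - 2 * n)
  have e1 : j - 2 * n + ((2 * n : ℕ) : ℤ) = j := by push_cast; ring
  have e2 : j - 2 * n + 1 = j + 1 - 2 * n := by ring
  simp only [e1, e2] at a3
  have a4 : (i (j + 1) : ℝ) - μ * i j ≤ μ ^ (2 * n) * ((r (j + 1) : ℝ) - μ * r j) := by
    rw [← a3, ← hsh j, ← hsh (j + 1)]
    linarith only [a2]
  have hc := hnum_const (fun k => (r k : ℝ)) hrR j
  simp only [← hq] at hc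
  have hprod : ((i (j + 1) : ℝ) - μ * i j) * ((i j : ℝ) - μ * i (j + 1)) ≤
      μ ^ (2 * n) * ((r (j + 1) : ℝ) - μ * r j) * ((r j : ℝ) - μ * r (j + 1)) :=
    mul_le_mul a4 (by linarith only [b2]) (by linarith only [b1]) (by linarith only [a1, a4])
  have id1 : ∀ x y : ℝ, (y - μ * x) * (x - μ * y) = μ * (3 * x * y - x ^ 2 - y ^ 2) :=
    fun x y => by linear_combination (-x * y) * h2
  have hnn : 0 ≤ ((i (j + 1) : ℝ) - μ * i j) * ((i j : ℝ) - μ * i (j + 1)) :=
    mul_nonneg (by linarith only [a1]) (by linarith only [b1])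
  have hid := id1 (i j) (i (j + 1))
  rw [mul_assoc, id1 (r j) (r (j + 1)), hc, hid] at hprod
  rw [hid] at hnn
  have q0 : (0 : ℝ) ≤ 3 * (i j : ℝ) * i (j + 1) - (i j : ℝ) ^ 2 - (i (j + 1) : ℝ) ^ 2 :=
    (mul_nonneg_iff_of_pos_left h0).1 hnn
  have q1 : 3 * (i j : ℝ) * i (j + 1) - (i j : ℝ) ^ 2 - (i (j + 1) : ℝ) ^ 2 < 1 := by
    refine lt_of_mul_lt_mul_left (a := μ) (hprod.trans_lt ?_) h0.le
    linarith only [h0, hn, mul_pos_of_neg_of_neg (Mathlib.Tactic.Linarith.sub_neg_of_lt h0) (Mathlib.Tactic.Linarith.sub_neg_of_lt hn)]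
  have q0' : (0 : ℤ) ≤ 3 * (i j : ℤ) * i (j + 1) - (i j : ℤ) ^ 2 - (i (j + 1) : ℤ) ^ 2 := by
    exact_mod_cast q0
  have q1' : 3 * (i j : ℤ) * i (j + 1) - (i j : ℤ) ^ 2 - (i (j + 1) : ℤ) ^ 2 < 1 := by
    exact_mod_cast q1
  have q2' : 3 * (i j : ℤ) * i (j + 1) - (i j : ℤ) ^ 2 - (i (j + 1) : ℤ) ^ 2 = 0 := by omega
  have q2 : 3 * (i j : ℝ) * i (j + 1) - (i j : ℝ) ^ 2 - (i (j + 1) : ℝ) ^ 2 = 0 := by
    exact_mod_cast q2'
  have hz : ∀ x y : ℕ, (y : ℝ) - μ * x = 0 → x = 0 := fun x y h => by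
    by_contra hx
    have hx' : (x : ℝ) ≠ 0 := Nat.cast_ne_zero.2 hx
    refine hirr ⟨y / x, ?_⟩
    push_cast
    field_simp
    linarith only [h]
  rw [q2, mul_zero] at hid
  rcases mul_eq_zero.1 hid with h | h
  · exact hz _ _ h
  · have h3 := hz _ _ h
    rw [h3] at h
    simpa using h

end Pool.Agent.Work.MP_910138_ag.C0
end

-- merged part: Pool.Agent.Work.MP_910138_ag.C0.HReg
section
/-! An operator of degree two on a family that is good everywhere is nilpotent. -/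

namespace Pool.Agent.Work.MP_910138_ag.C0

variable {K V : Type} [Field K] [AddCommGroup V] [Module K V] {x : Fin 3 → V →ₗ[K] V}

open Module

theorem hreg_le (hx : Kos x) {P Q W : Submodule K V} [FiniteDimensional K Q]
    [FiniteDimensional K W] (h1 : Maps x P Q) (h2 : Sat x P Q) (h3 : Maps x Q W) :
    3 * finrank K Q ≤ finrank K W + finrank K P := by
  rw [← dim_eq_of_sat hx h1 h2]
  exact Nat.add_le_add_right (Submodule.finrank_mono (maps_iff_piSum.1 h3)) _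

theorem hreg_eq (hx : Kos x) {P Q W : Submodule K V} [FiniteDimensional K Q]
    (h1 : Good x P Q) (h2 : Good x Q W) : finrank K W + finrank K P = 3 * finrank K Q := by
  rw [← dim_eq_of_sat hx h1.maps h1.sat,
    le_antisymm (maps_iff_piSum.1 h2.maps) (gen_iff_piSum.1 h2.gen)]

theorem hreg_rank (W : Submodule K V) [FiniteDimensional K W] (f : V →ₗ[K] V) :
    finrank K (W ⊓ LinearMap.ker f : Submodule K V) + finrank K (W.map f) = finrank K W := by
  rw [← (f.domRestrict W).finrank_range_add_finrank_ker, LinearMap.range_domRestrict,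
    LinearMap.ker_domRestrict, ← Submodule.finrank_map_subtype_eq W, Submodule.map_comap_subtype,
    add_comm]

theorem hreg_pow {T : ℤ → Submodule K V} {e : V →ₗ[K] V}
    (heT : ∀ i j, i + 2 = j → ∀ v ∈ T i, e v ∈ T j) (n : ℕ) :
    ∀ i j, i + 2 * (n : ℤ) = j → ∀ v ∈ T i, (e ^ n) v ∈ T j := by
  induction n with
  | zero =>
    intro i j h v hv
    rw [show j = i by omega]
    exact hv
  | succ n ih =>
    intro i j h v hv
    rw [pow_succ, Module.End.mul_apply]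
    exact ih (i + 2) j (by push_cast at h; omega) _ (heT i _ rfl v hv)

theorem hreg_act (u : List (Fin 3)) (c : Fin 3) (v : V) :
    act x (u ++ [c]) v = act x u (x c v) := by
  induction u with
  | nil => rfl
  | cons a u ih => exact congrArg (x a) ih

/-- the elements of `T j` that all long words map into `I` -/
def hreg_L (x : Fin 3 → V →ₗ[K] V) (T I : ℤ → Submodule K V) (j₁ j : ℤ) : Submodule K V where
  carrier := {v | v ∈ T j ∧ ∀ (u : List (Fin 3)) (k : ℤ), j + u.length = k → j₁ ≤ k →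
    act x u v ∈ I k}
  add_mem' := fun ha hb => ⟨add_mem ha.1 hb.1, fun u k h1 h2 => by
    rw [map_add]; exact add_mem (ha.2 u k h1 h2) (hb.2 u k h1 h2)⟩
  zero_mem' := ⟨zero_mem _, fun u k _ _ => by rw [map_zero]; exact zero_mem _⟩
  smul_mem' := fun a v hv => ⟨Submodule.smul_mem _ a hv.1, fun u k h1 h2 => by
    rw [map_smul]; exact Submodule.smul_mem _ a (hv.2 u k h1 h2)⟩

theorem hreg_L_maps {T I : ℤ → Submodule K V} {j₁ i j : ℤ} (hij : i + 1 = j)
    (hT : Maps x (T i) (T j)) : Maps x (hreg_L x T I j₁ i) (hreg_L x T I j₁ j) := by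
  intro c v hv
  refine ⟨hT c v hv.1, fun u k h1 h2 => ?_⟩
  rw [← hreg_act]
  refine hv.2 _ k ?_ h2
  rw [List.length_append, List.length_singleton]
  push_cast
  omega

theorem hreg_L_sat {T I : ℤ → Submodule K V} {j₁ i j : ℤ} (hij : i + 1 = j)
    (hT : Sat x (T i) (T j)) (hI : GoodFrom x I j₁) :
    Sat x (hreg_L x T I j₁ i) (hreg_L x T I j₁ j) := by
  intro v hv
  refine ⟨hT v fun c => (hv c).1, fun u k h1 h2 => ?_⟩
  rcases List.eq_nil_or_concat u with rfl | ⟨u, c, rfl⟩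
  · have e : i = k := by simpa using h1
    subst e
    exact (hI i j h2 hij).sat v fun c => (hv c).2 [] j (by simp) (by omega)
  · rw [List.concat_eq_append, hreg_act]
    refine (hv c).2 u k ?_ h2
    rw [List.length_concat] at h1
    push_cast at h1
    omega

theorem hreg_L_eq {T I : ℤ → Submodule K V} {j₁ j : ℤ} (hj : j₁ ≤ j) (hle : I j ≤ T j)
    (hI : GoodFrom x I j₁) : hreg_L x T I j₁ j = I j := by
  refine le_antisymm (fun v hv => hv.2 [] j (by simp) hj) fun v hv => ⟨hle hv, fun u => ?_⟩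
  induction u with
  | nil =>
    intro k h1 _
    have e : j = k := by simpa using h1
    subst e
    exact hv
  | cons c u ih =>
    intro k h1 _
    rw [List.length_cons] at h1
    push_cast at h1
    exact (hI (j + u.length) k (by omega) (by omega)).maps c _ (ih _ rfl (by omega))

theorem reg_nil (hx : Kos x) (T : ℤ → Submodule K V) (hfin : ∀ j, FiniteDimensional K (T j))
    (hT : ∀ i j, i + 1 = j → Good x (T i) (T j)) (e : V →ₗ[K] V) (he : Comm x e)
    (heT : ∀ i j, i + 2 = j → ∀ v ∈ T i, e v ∈ T j) :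
    ∃ n : ℕ, ∀ j, ∀ v ∈ T j, (e ^ n) v = 0 := by
  obtain ⟨n, hn⟩ := num_vanish (fun j => finrank K (T j)) fun j =>
    hreg_eq hx (hT j (j + 1) rfl) (hT (j + 1) (j + 2) (by ring))
  refine ⟨n, ?_⟩
  have hf : Comm x (e ^ n) := he.pow n
  have hfT := hreg_pow heT n
  generalize e ^ n = f at hf hfT
  let I : ℤ → Submodule K V := fun j => (T (j - 2 * n)).map f
  have hIT : ∀ j, I j ≤ T j := by
    rintro j _ ⟨w, hw, rfl⟩
    exact hfT _ j (by ring) w hw
  have hIfin : ∀ j, FiniteDimensional K (I j) := fun j =>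
    Submodule.finiteDimensional_of_le (hIT j)
  obtain ⟨j₁, hI⟩ := exists_sat (R := K) hx T I 0 (fun i j _ h => hT i j h)
    (Module.Finite.iff_fg.1 (hfin 0)) (fun j _ => hIT j) (by
      intro i j _ hij
      have hg := hT (i - 2 * n) (j - 2 * n) (by omega)
      constructor
      · rintro c _ ⟨w, hw, rfl⟩
        exact ⟨x c w, hg.maps c w hw, hf c w⟩
      · rintro _ ⟨w, hw, rfl⟩
        obtain ⟨t, ht, rfl⟩ := hg.gen w hw
        refine ⟨fun c => f (t c), fun c => ⟨t c, ht c, rfl⟩, ?_⟩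
        rw [map_sum]
        exact Finset.sum_congr rfl fun c _ => (hf c _).symm)
  let L : ℤ → Submodule K V := fun j => T j ⊓ LinearMap.ker f
  have hLfin : ∀ j, FiniteDimensional K (L j) := fun j =>
    Submodule.finiteDimensional_of_le (inf_le_left : L j ≤ T j)
  have hLm : ∀ i j, i + 1 = j → Maps x (L i) (L j) := fun i j hij c v hv =>
    ⟨(hT i j hij).maps c v hv.1, by
      have h1 : f v = 0 := hv.2
      change f (x c v) = 0
      rw [hf, h1, map_zero]⟩
  have hLs : ∀ i j, i + 1 = j → Sat x (L i) (L j) := fun i j hij v hv =>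
    ⟨(hT i j hij).sat v fun c => (hv c).1, hx.inj _ fun c => by
      rw [← hf]
      exact (hv c).2⟩
  have hL'le : ∀ j, hreg_L x T I j₁ j ≤ T j := fun j v hv => hv.1
  have hL'fin : ∀ j, FiniteDimensional K (hreg_L x T I j₁ j) := fun j =>
    Submodule.finiteDimensional_of_le (hL'le j)
  have h0 := hn (fun j => finrank K (I j)) (fun j => finrank K (L j))
    (fun j => finrank K (hreg_L x T I j₁ j)) j₁
    (fun j => by
      have h1 := hreg_rank (T j) f
      have h2 : I (j + 2 * n) = (T j).map f := by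
        simp only [I, add_sub_cancel_right]
      rw [h2]
      exact h1)
    (fun j => hreg_le hx (hLm j _ rfl) (hLs j _ rfl) (hLm _ _ (by ring)))
    (fun j => Submodule.finrank_mono (hL'le j))
    (fun j => hreg_le hx (hreg_L_maps rfl (hT j _ rfl).maps) (hreg_L_sat rfl (hT j _ rfl).sat hI)
      (hreg_L_maps (by ring) (hT (j + 1) (j + 2) (by ring)).maps))
    (fun j hj => by rw [hreg_L_eq hj (hIT j) hI])
    (fun j hj => hreg_eq hx (hI j _ hj rfl) (hI (j + 1) (j + 2) (by omega) (by ring)))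
  have h1 : ∀ j, j₁ - 2 * n ≤ j → ∀ v ∈ T j, f v = 0 := fun j hj v hv => by
    have h2 : I (j + 2 * n) = ⊥ := Submodule.finrank_eq_zero.1 (h0 _ (by omega))
    rw [← Submodule.mem_bot K, ← h2]
    exact ⟨v, by rwa [add_sub_cancel_right], rfl⟩
  have h2 : ∀ (m : ℕ) (j : ℤ), j₁ - 2 * n - m ≤ j → ∀ v ∈ T j, f v = 0 := by
    intro m
    induction m with
    | zero => exact fun j hj => h1 j (by omega)
    | succ m ih =>
      intro j hj v hv
      refine hx.inj _ fun c => ?_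
      rw [← hf]
      exact ih (j + 1) (by push_cast at hj; omega) _ ((hT j _ rfl).maps c v hv)
  exact fun j => h2 (j₁ - 2 * n - j).toNat j (by omega)

end Pool.Agent.Work.MP_910138_ag.C0
end
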