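import Pool.Agent.Work.MP_910138_ag.C0.SU
import Pool.Agent.Work.MP_910138_ag.C0.HReg

-- merged part: Pool.Agent.Work.MP_910138_ag.C0.HWP
section
/-! The preprojective algebra over `k(w)`: windows of exponents. -/

open TensorProduct

namespace Pool.Agent.Work.MP_910138_ag.C0

variable {k P : Type} (K : Type) [Field k] [Field K] [Algebra k K] [HasVar k K] [Ring P]
  [Algebra k P] (Q : PiData k P)

/-- homogeneous elements of degree `n` with exponents in `S` -/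
noncomputable def PiData.WP (S : Set ℤ) (n : ℤ) : Submodule k (K ⊗[k] P) :=
  Submodule.span k {y | ∃ e ∈ S, ∃ p ∈ Q.gr n, y = (ww k K ^ e) ⊗ₜ[k] p}

/-- the coefficient of `w ^ e` -/
noncomputable def coefK (P : Type) [Ring P] [Algebra k P] (e : ℤ) : K ⊗[k] P →ₗ[k] P :=
  (TensorProduct.lid k P).toLinearMap ∘ₗ
    LinearMap.rTensor P (resK k K ∘ₗ LinearMap.mulLeft k (ww k K ^ (-1 - e)))

/-- the map from the free algebra -/
noncomputable def PiData.rho : AF k →ₐ[k] K ⊗[k] P :=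
  MonoidAlgebra.liftNCAlgHom
    (Algebra.TensorProduct.includeLeft.comp (Polynomial.aeval (ww k K)))
    ((Algebra.TensorProduct.includeRight (R := k) (A := K) (B := P)).toMonoidHom.comp Q.w)
    fun _ _ => by
      simp only [AlgHom.comp_apply, Algebra.TensorProduct.includeLeft_apply, Commute, SemiconjBy]
      exact (Algebra.TensorProduct.tmul_mul_tmul _ _ _ _).trans (by
        rw [mul_one, one_mul]
        exact ((Algebra.TensorProduct.tmul_mul_tmul _ _ _ _).trans (by rw [mul_one, one_mul])).symm)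

variable {K}

theorem coefK_tmul (e : ℤ) (c : K) (p : P) :
    coefK K P e (c ⊗ₜ[k] p) = resK k K (ww k K ^ (-1 - e) * c) • p := by
  simp [coefK]

theorem coefK_zpow (e e' : ℤ) (p : P) :
    coefK K P e ((ww k K ^ e') ⊗ₜ[k] p) = if e = e' then p else 0 := by
  rw [coefK_tmul, ← zpow_add₀ (ww_ne_zero k K), resK_zpow]
  by_cases h : e = e'
  · rw [if_pos h, if_pos (by omega), one_smul]
  · rw [if_neg h, if_neg (by omega), zero_smul]

theorem hwp_single (p : Polynomial k) (u : Wd) :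
    (MonoidAlgebra.single u p : AF k) = p • wd k u := by
  rw [wd, MonoidAlgebra.smul_single, smul_eq_mul, mul_one]

theorem PiData.rho_smul_wd (p : Polynomial k) (u : Wd) :
    Q.rho K (p • wd k u) = Polynomial.aeval (ww k K) p ⊗ₜ[k] Q.w u := by
  rw [← hwp_single]
  simp [PiData.rho]

theorem hwp_rho_wd (u : Wd) : Q.rho K (wd k u) = (1 : K) ⊗ₜ[k] Q.w u := by
  have h := Q.rho_smul_wd (K := K) 1 u
  rwa [one_smul, map_one] at h

theorem PiData.rho_smul (p : Polynomial k) (a : AF k) :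
    Q.rho K (p • a) = Polynomial.aeval (ww k K) p • Q.rho K a := by
  induction a using MonoidAlgebra.induction_linear with
  | zero => simp
  | add a b ha hb => rw [smul_add, map_add, map_add, ha, hb, smul_add]
  | single u c =>
    rw [hwp_single, smul_smul, Q.rho_smul_wd, Q.rho_smul_wd, map_mul, smul_tmul', smul_eq_mul]

theorem PiData.rho_om : Q.rho K (om k) = 0 := by
  have h := Q.kos.sq 1
  simp only [LinearMap.mulLeft_apply, mul_one] at h
  simp only [om, lt, map_sum, map_mul, hwp_rho_wd, Algebra.TensorProduct.tmul_mul_tmul, mul_one]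
  rw [← tmul_sum, h, tmul_zero]

theorem hwp_gen {S : Set ℤ} {n e : ℤ} {p : P} (he : e ∈ S) (hp : p ∈ Q.gr n) :
    (ww k K ^ e) ⊗ₜ[k] p ∈ Q.WP K S n :=
  Submodule.subset_span ⟨e, he, p, hp, rfl⟩

theorem hwp_tmul {S : Set ℤ} {n : ℤ} {c : K} {p : P} (hc : c ∈ Win k K S)
    (hp : p ∈ Q.gr n) : c ⊗ₜ[k] p ∈ Q.WP K S n := by
  induction hc using Submodule.span_induction with
  | mem c hc =>
    obtain ⟨e, he, rfl⟩ := hc
    exact hwp_gen Q he hp
  | zero => rw [zero_tmul]; exact zero_mem _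
  | add a b _ _ ha hb => rw [add_tmul]; exact add_mem ha hb
  | smul a b _ hb => rw [← smul_tmul']; exact Submodule.smul_mem _ a hb

theorem hwp_aeval {m : ℤ} {p : Polynomial k} (hp : p ∈ degLE k m) :
    Polynomial.aeval (ww k K) p ∈ Win k K (Set.Icc 0 m) := by
  rw [Polynomial.aeval_eq_sum_range]
  refine Submodule.sum_mem _ fun j _ => ?_
  by_cases h : m < j
  · rw [hp j h, zero_smul]
    exact zero_mem _
  · exact Submodule.smul_mem _ _ (Submodule.subset_span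
      ⟨j, ⟨Int.natCast_nonneg j, not_lt.1 h⟩, zpow_natCast _ _⟩)

theorem PiData.rho_mem {n m : ℤ} {a : AF k} (ha : a ∈ Asub k n m) :
    Q.rho K a ∈ Q.WP K (Set.Icc 0 m) n := by
  rw [← MonoidAlgebra.sum_coeff_single a, Finsupp.sum, map_sum]
  refine Submodule.sum_mem _ fun u hu => ?_
  have h : (u.length : ℤ) = n := by
    by_contra h
    exact Finsupp.mem_support_iff.1 hu ((ha u).2 h)
  rw [hwp_single, Q.rho_smul_wd]
  exact hwp_tmul Q (hwp_aeval (ha u).1) (h ▸ Q.w_mem u)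

theorem PiData.WP_mono {S T : Set ℤ} (h : S ⊆ T) (n : ℤ) : Q.WP K S n ≤ Q.WP K T n :=
  Submodule.span_mono fun _ ⟨e, he, hy⟩ => ⟨e, h he, hy⟩

theorem PiData.WP_mul {S T U : Set ℤ} {n m l : ℤ} (h : n + m = l)
    (hU : ∀ a ∈ S, ∀ b ∈ T, a + b ∈ U) {y z : K ⊗[k] P} (hy : y ∈ Q.WP K S n)
    (hz : z ∈ Q.WP K T m) : y * z ∈ Q.WP K U l := by
  have h1 := Submodule.mul_mem_mul hy hz
  rw [PiData.WP, PiData.WP, Submodule.span_mul_span] at h1
  refine Submodule.span_le.2 ?_ h1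
  rintro _ ⟨_, ⟨a, ha, p, hp, rfl⟩, _, ⟨b, hb, q, hq, rfl⟩, rfl⟩
  dsimp only
  rw [Algebra.TensorProduct.tmul_mul_tmul, ← zpow_add₀ (ww_ne_zero k K)]
  exact hwp_gen Q (hU a ha b hb) (Q.mul_mem h hp hq)

theorem PiData.WP_smul {S T U : Set ℤ} {n : ℤ} (hU : ∀ a ∈ S, ∀ b ∈ T, a + b ∈ U) {c : K}
    {y : K ⊗[k] P} (hc : c ∈ Win k K S) (hy : y ∈ Q.WP K T n) : c • y ∈ Q.WP K U n := by
  rw [Algebra.smul_def, Algebra.TensorProduct.algebraMap_apply, Algebra.algebraMap_self_apply]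
  exact Q.WP_mul (zero_add n) hU (hwp_tmul Q hc (Q.mem_gr_zero.2 ⟨1, (one_smul _ _).symm⟩)) hy

theorem PiData.tmul_mem_WP {S : Set ℤ} {n : ℤ} {c : K} {p : P} (hc : c ∈ Win k K S)
    (hp : p ∈ Q.gr n) : c ⊗ₜ[k] p ∈ Q.WP K S n :=
  hwp_tmul Q hc hp

theorem PiData.coefK_mem {S : Set ℤ} {n : ℤ} {y : K ⊗[k] P} (hy : y ∈ Q.WP K S n) (e : ℤ) :
    coefK K P e y ∈ Q.gr n ∧ (e ∉ S → coefK K P e y = 0) := by
  induction hy using Submodule.span_induction with
  | mem y hy =>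
    obtain ⟨a, ha, p, hp, rfl⟩ := hy
    rw [coefK_zpow]
    refine ⟨?_, fun h => if_neg fun h' : e = a => h (h' ▸ ha)⟩
    split_ifs
    exacts [hp, zero_mem _]
  | zero => rw [map_zero]; exact ⟨zero_mem _, fun _ => rfl⟩
  | add a b _ _ ha hb =>
    rw [map_add]
    exact ⟨add_mem ha.1 hb.1, fun h => by rw [ha.2 h, hb.2 h, add_zero]⟩
  | smul a b _ hb =>
    rw [map_smul]
    exact ⟨Submodule.smul_mem _ a hb.1, fun h => by rw [hb.2 h, smul_zero]⟩

theorem hwp_key {T : Set ℤ} {n : ℤ} {y : K ⊗[k] P} (hy : y ∈ Q.WP K T n) :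
    ∃ F : Finset ℤ, ∀ F' : Finset ℤ, F ⊆ F' →
      ∑ e ∈ F', (ww k K ^ e) ⊗ₜ[k] coefK K P e y = y := by
  induction hy using Submodule.span_induction with
  | mem y hy =>
    obtain ⟨a, -, p, -, rfl⟩ := hy
    refine ⟨{a}, fun F' h => ?_⟩
    rw [Finset.sum_eq_single a, coefK_zpow, if_pos rfl]
    · intro b _ hb
      rw [coefK_zpow, if_neg hb, tmul_zero]
    · intro h'
      exact absurd (h (Finset.mem_singleton_self a)) h'
  | zero => exact ⟨∅, fun F' _ => by simp⟩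
  | add a b _ _ ha hb =>
    obtain ⟨F, hF⟩ := ha
    obtain ⟨G, hG⟩ := hb
    refine ⟨F ∪ G, fun F' h => ?_⟩
    simp only [map_add, tmul_add, Finset.sum_add_distrib]
    rw [hF F' (Finset.subset_union_left.trans h), hG F' (Finset.subset_union_right.trans h)]
  | smul a b _ hb =>
    obtain ⟨F, hF⟩ := hb
    refine ⟨F, fun F' h => ?_⟩
    simp only [map_smul, tmul_smul]
    rw [← Finset.smul_sum, hF F' h]

theorem PiData.mem_WP_of_coefK {S T : Set ℤ} {n : ℤ} {y : K ⊗[k] P} (hy : y ∈ Q.WP K T n)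
    (h : ∀ e, e ∉ S → coefK K P e y = 0) : y ∈ Q.WP K S n := by
  obtain ⟨F, hF⟩ := hwp_key Q hy
  rw [← hF F subset_rfl]
  refine Submodule.sum_mem _ fun e _ => ?_
  by_cases he : e ∈ S
  · exact hwp_gen Q he (Q.coefK_mem hy e).1
  · rw [h e he, tmul_zero]
    exact zero_mem _

theorem PiData.WP_empty (n : ℤ) : Q.WP K ∅ n = ⊥ := by
  simp [PiData.WP]

theorem PiData.WP_union (S T : Set ℤ) (n : ℤ) : Q.WP K (S ∪ T) n = Q.WP K S n ⊔ Q.WP K T n := by
  rw [PiData.WP, PiData.WP, PiData.WP, ← Submodule.span_union]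
  congr 1
  ext y
  simp only [Set.mem_union, Set.mem_ofPred_eq, or_and_right, exists_or]

theorem PiData.eq_zero_of_disjoint {S T : Set ℤ} (h : Disjoint S T) {n m : ℤ} {y : K ⊗[k] P}
    (hS : y ∈ Q.WP K S n) (hT : y ∈ Q.WP K T m) : y = 0 := by
  have h1 : y ∈ Q.WP K ∅ n := Q.mem_WP_of_coefK hS fun e _ => by
    by_cases he : e ∈ S
    · exact (Q.coefK_mem hT e).2 (Set.disjoint_left.1 h he)
    · exact (Q.coefK_mem hS e).2 he
  rwa [Q.WP_empty, Submodule.mem_bot] at h1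

theorem PiData.WP_le_baseChange (S : Set ℤ) (n : ℤ) {y : K ⊗[k] P} (hy : y ∈ Q.WP K S n) :
    y ∈ (Q.gr n).baseChange K := by
  refine (Submodule.span_le (p := ((Q.gr n).baseChange K).restrictScalars k)).2 ?_ hy
  rintro _ ⟨e, -, p, hp, rfl⟩
  exact Submodule.tmul_mem_baseChange_of_mem _ hp

theorem PiData.baseChange_mem_WP {S : Set ℤ} {n m : ℤ} (f : P →ₗ[k] P)
    (hf : ∀ p ∈ Q.gr n, f p ∈ Q.gr m) {y : K ⊗[k] P} (hy : y ∈ Q.WP K S n) :
    f.baseChange K y ∈ Q.WP K S m := by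
  refine (Submodule.span_le
    (p := (Q.WP K S m).comap ((f.baseChange K).restrictScalars k))).2 ?_ hy
  rintro _ ⟨e, he, p, hp, rfl⟩
  exact hwp_gen Q he (hf p hp)

/-- forms that kill the relation extend to the preprojective algebra over `k(w)` -/
theorem PiData.exists_extK {ψ : AD k} (hψ : ψ ∈ Rel k) : ∃ L : K ⊗[k] P →ₗ[K] K,
    ∀ a, L (Q.rho K a) = Polynomial.aeval (ww k K) (ψ.toL a) := by
  obtain ⟨l, hl⟩ := Q.desc K (fun u => Polynomial.aeval (ww k K) (ψ.toL (wd k u))) fun u v => by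
    have h := hψ (wd k u) (wd k v)
    rw [om, Finset.mul_sum, Finset.sum_mul, map_sum] at h
    rw [← map_sum, ← map_zero (Polynomial.aeval (R := k) (ww k K)), ← h]
    simp only [wd_mul, lt, mul_assoc]
  refine ⟨l.liftBaseChange K, fun a => ?_⟩
  induction a using MonoidAlgebra.induction_linear with
  | zero => simp
  | add a b ha hb => simp only [map_add, ha, hb]
  | single u c =>
    rw [hwp_single, Q.rho_smul_wd, LinearMap.liftBaseChange_tmul, hl, map_smul, smul_eq_mul,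
      smul_eq_mul, map_mul]

theorem PiData.extK_unique {L L' : K ⊗[k] P →ₗ[K] K}
    (h : ∀ u, L (1 ⊗ₜ[k] Q.w u) = L' (1 ⊗ₜ[k] Q.w u)) : L = L' := by
  have h1 : (L.restrictScalars k) ∘ₗ TensorProduct.mk k K P 1 =
      (L'.restrictScalars k) ∘ₗ TensorProduct.mk k K P 1 := LinearMap.ext_on_range Q.span_top h
  refine TensorProduct.AlgebraTensorModule.ext fun c p => ?_
  have h2 : c ⊗ₜ[k] p = c • ((1 : K) ⊗ₜ[k] p) := by rw [smul_tmul', smul_eq_mul, mul_one]
  rw [h2, map_smul, map_smul]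
  exact congrArg _ (LinearMap.congr_fun h1 p)

end Pool.Agent.Work.MP_910138_ag.C0
end

-- merged part: Pool.Agent.Work.MP_910138_ag.C0.HAmb
section
/-! The Koszul system attached to a twisted complex. -/

open TensorProduct

namespace Pool.Agent.Work.MP_910138_ag.C0

variable {k P : Type} (K : Type) [Field k] [Field K] [Algebra k K] [Ring P]
  [Algebra k P] (Q : PiData k P) {G : Type} (lab : G → Lb)

/-- left multiplication by a letter -/
noncomputable def PiData.xV (G : Type) (c : Fin 3) :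
    (G → K ⊗[k] P) →ₗ[K] (G → K ⊗[k] P) :=
  (LinearMap.mulLeft K ((1 : K) ⊗ₜ[k] Q.x c)).compLeft G

/-- the graded pieces -/
noncomputable def PiData.grV (j : ℤ) : Submodule K (G → K ⊗[k] P) :=
  Submodule.pi Set.univ fun g => (Q.gr (j - 1 + li (lab g))).baseChange K

/-- a family of maps acting on each component -/
noncomputable def diagV (f : G → P →ₗ[k] P) : (G → K ⊗[k] P) →ₗ[K] (G → K ⊗[k] P) :=
  LinearMap.pi fun g => (f g).baseChange K ∘ₗ LinearMap.proj g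

/-- the projections -/
noncomputable def PiData.prV (j : ℤ) : (G → K ⊗[k] P) →ₗ[K] (G → K ⊗[k] P) :=
  diagV K fun g => Q.pr (j - 1 + li (lab g))

/-- the splittings -/
noncomputable def splV (r : ℤ → Fin 3 → P →ₗ[k] P) (j : ℤ) (c : Fin 3) :
    (G → K ⊗[k] P) →ₗ[K] (G → K ⊗[k] P) :=
  diagV K fun g => r (j + li (lab g)) c

variable {K} in
/-- right multiplication by a matrix -/
noncomputable def opM [Fintype G] (M : Matrix G G (K ⊗[k] P)) :
    (G → K ⊗[k] P) →ₗ[K] (G → K ⊗[k] P) where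
  toFun v := Matrix.vecMul v M
  map_add' v w := Matrix.add_vecMul M v w
  map_smul' c v := funext fun y => by
    simp only [Matrix.vecMul, dotProduct, Pi.smul_apply, RingHom.id_apply, Finset.smul_sum,
      smul_mul_assoc]

variable [HasVar k K]

/-- the lattices at the finite places -/
noncomputable def PiData.latZ (j : ℤ) : Submodule (Rz k K) (G → K ⊗[k] P) where
  carrier := {v | ∀ g, v g ∈ Q.WP K (Set.Ici 0) (j - 1 + li (lab g))}
  zero_mem' _ := zero_mem _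
  add_mem' hv hw g := add_mem (hv g) (hw g)
  smul_mem' c _ hv g := Q.WP_smul (S := Set.Ici 0) (T := Set.Ici 0) (U := Set.Ici 0)
    (fun _ ha _ hb => Set.mem_Ici.2 (add_nonneg (Set.mem_Ici.1 ha) (Set.mem_Ici.1 hb)))
    (mem_Rz.1 c.2) (hv g)

/-- the lattices at infinity -/
noncomputable def PiData.latI (j : ℤ) : Submodule (Ri k K) (G → K ⊗[k] P) where
  carrier := {v | ∀ g, v g ∈ Q.WP K (Set.Iic (lk (lab g))) (j - 1 + li (lab g))}
  zero_mem' _ := zero_mem _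
  add_mem' hv hw g := add_mem (hv g) (hw g)
  smul_mem' c _ hv g := Q.WP_smul (S := Set.Iic 0) (T := Set.Iic (lk (lab g)))
    (U := Set.Iic (lk (lab g)))
    (fun _ ha _ hb => Set.mem_Iic.2 (add_le_of_nonpos_of_le (Set.mem_Iic.1 ha) (Set.mem_Iic.1 hb)))
    (mem_Ri.1 c.2) (hv g)

variable {K} [Fintype G]

section
omit [HasVar k K]

theorem opM_apply (M : Matrix G G (K ⊗[k] P)) (v : G → K ⊗[k] P) (y : G) :
    opM M v y = ∑ x, v x * M x y := rfl

theorem opM_mul (M N : Matrix G G (K ⊗[k] P)) : opM (M * N) = opM N ∘ₗ opM M :=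
  LinearMap.ext fun v => (Matrix.vecMul_vecMul v M N).symm

theorem opM_sub (M N : Matrix G G (K ⊗[k] P)) : opM (M - N) = opM M - opM N :=
  LinearMap.ext fun v => Matrix.vecMul_sub M N v

theorem PiData.comm_opM (M : Matrix G G (K ⊗[k] P)) : Comm (Q.xV K G) (opM M) := by
  intro c v
  funext y
  change ∑ x, ((1 : K) ⊗ₜ[k] Q.x c * v x) * M x y = (1 : K) ⊗ₜ[k] Q.x c * ∑ x, v x * M x y
  simp only [Finset.mul_sum, mul_assoc]

theorem hamb_mem {N : Type} [AddCommGroup N] [Module K N] {U : Submodule k P}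
    (F : K ⊗[k] P →ₗ[K] N) (W : Submodule K N) (h : ∀ p ∈ U, F (1 ⊗ₜ[k] p) ∈ W) {y : K ⊗[k] P}
    (hy : y ∈ U.baseChange K) : F y ∈ W := by
  rw [Submodule.baseChange_eq_span] at hy
  refine (Submodule.span_le (p := W.comap F)).2 ?_ hy
  rintro _ ⟨p, hp, rfl⟩
  exact h p hp

theorem hamb_eq {N : Type} [AddCommGroup N] [Module K N] {U : Submodule k P}
    (F F' : K ⊗[k] P →ₗ[K] N) (h : ∀ p ∈ U, F (1 ⊗ₜ[k] p) = F' (1 ⊗ₜ[k] p)) {y : K ⊗[k] P}
    (hy : y ∈ U.baseChange K) : F y = F' y :=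
  sub_eq_zero.1 (hamb_mem (F - F') ⊥ (fun p hp => sub_eq_zero.2 (h p hp)) hy)

theorem hamb_map {U W : Submodule k P} (f : P →ₗ[k] P) (h : ∀ p ∈ U, f p ∈ W) {y : K ⊗[k] P}
    (hy : y ∈ U.baseChange K) : f.baseChange K y ∈ W.baseChange K :=
  hamb_mem _ _ (fun p hp => Submodule.tmul_mem_baseChange_of_mem _ (h p hp)) hy

theorem hamb_top (y : K ⊗[k] P) : y ∈ (⊤ : Submodule k P).baseChange K := by
  rw [Submodule.baseChange_top]
  trivial

theorem hamb_mul {n m l : ℤ} (h : n + m = l) {y z : K ⊗[k] P} (hy : y ∈ (Q.gr n).baseChange K)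
    (hz : z ∈ (Q.gr m).baseChange K) : y * z ∈ (Q.gr l).baseChange K := by
  refine hamb_mem (LinearMap.mulRight K z) _ (fun p hp => ?_) hy
  refine hamb_mem (LinearMap.mulLeft K ((1 : K) ⊗ₜ[k] p)) _ (fun q hq => ?_) hz
  rw [LinearMap.mulLeft_apply, Algebra.TensorProduct.tmul_mul_tmul]
  exact Submodule.tmul_mem_baseChange_of_mem _ (Q.mul_mem h hp hq)

theorem hamb_x_mem (c : Fin 3) : Q.x c ∈ Q.gr 1 := Q.w_mem (FreeMonoid.of c)

theorem hamb_r_x {U : Submodule k P} {r : Fin 3 → P →ₗ[k] P}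
    (h : ∀ v ∈ U, ∑ c, r c (Q.x c * v) = v) {y : K ⊗[k] P} (hy : y ∈ U.baseChange K) :
    ∑ c, (r c).baseChange K ((1 : K) ⊗ₜ[k] Q.x c * y) = y := by
  have := hamb_eq (∑ c, (r c).baseChange K ∘ₗ LinearMap.mulLeft K ((1 : K) ⊗ₜ[k] Q.x c))
    LinearMap.id (fun p hp => by
      simp only [LinearMap.sum_apply, LinearMap.comp_apply, LinearMap.mulLeft_apply,
        Algebra.TensorProduct.tmul_mul_tmul, mul_one, LinearMap.baseChange_tmul, ← tmul_sum,
        h p hp, LinearMap.id_apply]) hy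
  simpa only [LinearMap.sum_apply, LinearMap.comp_apply, LinearMap.mulLeft_apply,
    LinearMap.id_apply] using this

theorem hamb_x_s {U : Submodule k P} {s : Fin 3 → P →ₗ[k] P}
    (h : ∀ v ∈ U, ∑ c, Q.x c * s c v = v) {y : K ⊗[k] P} (hy : y ∈ U.baseChange K) :
    ∑ c, (1 : K) ⊗ₜ[k] Q.x c * (s c).baseChange K y = y := by
  have := hamb_eq (∑ c, LinearMap.mulLeft K ((1 : K) ⊗ₜ[k] Q.x c) ∘ₗ (s c).baseChange K)
    LinearMap.id (fun p hp => by
      simp only [LinearMap.sum_apply, LinearMap.comp_apply, LinearMap.mulLeft_apply,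
        Algebra.TensorProduct.tmul_mul_tmul, mul_one, LinearMap.baseChange_tmul, ← tmul_sum,
        h p hp, LinearMap.id_apply]) hy
  simpa only [LinearMap.sum_apply, LinearMap.comp_apply, LinearMap.mulLeft_apply,
    LinearMap.id_apply] using this

theorem hamb_split {U : Submodule k P} {r s : P →ₗ[k] P} {a b : Fin 3}
    (h : ∀ v ∈ U, Q.x a * r v + s (Q.x b * v) = if a = b then v else 0) {y : K ⊗[k] P}
    (hy : y ∈ U.baseChange K) : (1 : K) ⊗ₜ[k] Q.x a * r.baseChange K y +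
      s.baseChange K ((1 : K) ⊗ₜ[k] Q.x b * y) = if a = b then y else 0 := by
  have := hamb_eq (LinearMap.mulLeft K ((1 : K) ⊗ₜ[k] Q.x a) ∘ₗ r.baseChange K +
      s.baseChange K ∘ₗ LinearMap.mulLeft K ((1 : K) ⊗ₜ[k] Q.x b))
    (if a = b then LinearMap.id else 0) (fun p hp => by
      simp only [LinearMap.add_apply, LinearMap.comp_apply, LinearMap.mulLeft_apply,
        Algebra.TensorProduct.tmul_mul_tmul, mul_one, LinearMap.baseChange_tmul, ← tmul_add,
        h p hp]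
      split_ifs <;> simp) hy
  simp only [LinearMap.add_apply, LinearMap.comp_apply, LinearMap.mulLeft_apply] at this
  rw [this]
  split_ifs <;> rfl

theorem hamb_pr_x {n m : ℤ} (h : n + 1 = m) (c : Fin 3) (y : K ⊗[k] P) :
    (Q.pr m).baseChange K ((1 : K) ⊗ₜ[k] Q.x c * y) =
      (1 : K) ⊗ₜ[k] Q.x c * (Q.pr n).baseChange K y :=
  hamb_eq ((Q.pr m).baseChange K ∘ₗ LinearMap.mulLeft K ((1 : K) ⊗ₜ[k] Q.x c))
    (LinearMap.mulLeft K ((1 : K) ⊗ₜ[k] Q.x c) ∘ₗ (Q.pr n).baseChange K) (fun p _ => by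
      simp only [LinearMap.comp_apply, LinearMap.mulLeft_apply,
        Algebra.TensorProduct.tmul_mul_tmul, LinearMap.baseChange_tmul, Q.pr_x_mul h])
    (hamb_top y)

omit [Fintype G] in
theorem hamb_xV (c : Fin 3) (v : G → K ⊗[k] P) (g : G) :
    Q.xV K G c v g = (1 : K) ⊗ₜ[k] Q.x c * v g := rfl

omit [Fintype G] in
theorem hamb_splV (r : ℤ → Fin 3 → P →ₗ[k] P) (j : ℤ) (c : Fin 3) (v : G → K ⊗[k] P) (g : G) :
    splV K lab r j c v g = (r (j + li (lab g)) c).baseChange K (v g) := rfl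

omit [Fintype G] in
theorem hamb_prV (j : ℤ) (v : G → K ⊗[k] P) (g : G) :
    Q.prV K lab j v g = (Q.pr (j - 1 + li (lab g))).baseChange K (v g) := rfl

omit [Fintype G] in
theorem hamb_grV {j : ℤ} {v : G → K ⊗[k] P} :
    v ∈ Q.grV K lab j ↔ ∀ g, v g ∈ (Q.gr (j - 1 + li (lab g))).baseChange K :=
  ⟨fun h g => h g trivial, fun h g _ => h g⟩

theorem hamb_li (s : Lb) : 0 ≤ li s := Int.natCast_nonneg _

omit [Fintype G] in
theorem hamb_kos : Kos (Q.xV K G) := by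
  obtain ⟨r, s, h1, h2⟩ := Q.exists_global_split
  refine ⟨fun v hv => funext fun g => ?_, fun v => funext fun g => ?_, fun t ht => ?_⟩
  · rw [← hamb_r_x Q (fun v _ => h1 v) (hamb_top (v g))]
    refine Finset.sum_eq_zero fun c _ => ?_
    rw [← hamb_xV, hv c, Pi.zero_apply, map_zero]
  · have h3 : ∑ c, Q.x c * Q.x c = 0 := by simpa [PiData.x] using Q.kos.sq 1
    simp only [Finset.sum_apply, hamb_xV, ← mul_assoc, ← Finset.sum_mul,
      Algebra.TensorProduct.tmul_mul_tmul, ← tmul_sum, h3, tmul_zero, zero_mul, Pi.zero_apply]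
  · refine ⟨fun g => ∑ b, (r b).baseChange K (t b g), fun a => funext fun g => ?_⟩
    have h3 : ∑ b, (1 : K) ⊗ₜ[k] Q.x b * t b g = 0 := by
      simpa only [Finset.sum_apply, hamb_xV, Pi.zero_apply] using congrFun ht g
    have h4 := Finset.sum_congr (s₁ := Finset.univ) rfl fun b _ =>
      hamb_split Q (fun v _ => h2 a b v) (hamb_top (t b g))
    rw [Finset.sum_add_distrib, ← map_sum, h3, map_zero, add_zero, Finset.sum_ite_eq,
      if_pos (Finset.mem_univ _), ← Finset.mul_sum] at h4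
    exact h4.symm

omit [Fintype G] in
theorem hamb_pr_self (j : ℤ) (v : G → K ⊗[k] P) (hv : v ∈ Q.grV K lab j) :
    Q.prV K lab j v = v := funext fun g =>
  hamb_eq _ LinearMap.id (fun p hp => by rw [LinearMap.baseChange_tmul, Q.pr_self hp]; rfl)
    ((hamb_grV Q lab).1 hv g)

omit [Fintype G] in
theorem hamb_sat {i j : ℤ} (h : i + 1 = j) : Sat (Q.xV K G) (Q.grV K lab i) (Q.grV K lab j) := by
  intro v hv
  have e : v - Q.prV K lab i v = 0 := (hamb_kos Q).inj _ fun c => by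
    rw [map_sub, ← hamb_pr_self Q lab j _ (hv c), sub_eq_zero]
    funext g
    exact hamb_pr_x Q (by omega) c (v g)
  rw [sub_eq_zero.1 e]
  exact (hamb_grV Q lab).2 fun g => hamb_map _ (fun p _ => Q.pr_mem _ p) (hamb_top (v g))

omit [Fintype G] in
theorem hamb_r_xV {r s : ℤ → Fin 3 → P →ₗ[k] P} (hs : Q.Split r s) (j : ℤ) (v : G → K ⊗[k] P)
    (hv : v ∈ Q.grV K lab j) : ∑ c, splV K lab r j c (Q.xV K G c v) = v := funext fun g => by
  rw [Finset.sum_apply]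
  exact hamb_r_x Q (hs.r_x _ _ (by omega)) ((hamb_grV Q lab).1 hv g)

omit [Fintype G] in
theorem hamb_x_sV {r s : ℤ → Fin 3 → P →ₗ[k] P} (hs : Q.Split r s) {j j' : ℤ} (hj : 0 ≤ j)
    (h : j + 2 = j') (v : G → K ⊗[k] P) (hv : v ∈ Q.grV K lab j') :
    ∑ c, Q.xV K G c (splV K lab s j c v) = v := funext fun g => by
  have := hamb_li (lab g)
  rw [Finset.sum_apply]
  exact hamb_x_s Q (hs.x_s _ _ (by omega) (by omega)) ((hamb_grV Q lab).1 hv g)

end

theorem PiData.shift_opM (M : Matrix G G (K ⊗[k] P)) (δ : ℤ)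
    (hM : ∀ y x, M y x ∈ Q.WP K Set.univ (li (lab x) + δ - li (lab y))) (j₀ : ℤ) :
    ShiftFrom (opM M) (Q.grV K lab) (Q.grV K lab) δ j₀ := by
  intro i j _ h v hv
  refine (hamb_grV Q lab).2 fun x => ?_
  rw [opM_apply]
  exact Submodule.sum_mem _ fun y _ => hamb_mul Q (by omega) ((hamb_grV Q lab).1 hv y)
    (Q.WP_le_baseChange _ _ (hM y x))

omit [HasVar k K] in
theorem hamb_anti {D e : Matrix G G (K ⊗[k] P)} (hDe : D * e = -(e * D)) (v : G → K ⊗[k] P) :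
    opM D (opM e v) = -opM e (opM D v) := by
  change Matrix.vecMul (Matrix.vecMul v e) D = -Matrix.vecMul (Matrix.vecMul v D) e
  rw [Matrix.vecMul_vecMul, Matrix.vecMul_vecMul, hDe, Matrix.vecMul_neg, neg_neg]

theorem hamb_w_mem {S : Set ℤ} {a : ℤ} (h : a ∈ S) : ww k K ^ a ∈ Win k K S :=
  Submodule.subset_span ⟨a, h, rfl⟩

section
variable {R : Subalgebra k K} {S : G → Set ℤ} {Λ : ℤ → Submodule R (G → K ⊗[k] P)}
  (hΛ : ∀ j v, v ∈ Λ j ↔ ∀ g, v g ∈ Q.WP K (S g) (j - 1 + li (lab g)))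
include hΛ

omit [Fintype G] in
theorem hamb_single [DecidableEq G] {j : ℤ} {g : G} {y : K ⊗[k] P}
    (hy : y ∈ Q.WP K (S g) (j - 1 + li (lab g))) : (Pi.single g y : G → K ⊗[k] P) ∈ Λ j := by
  refine (hΛ _ _).2 fun g' => ?_
  by_cases h : g' = g
  · subst h
    rwa [Pi.single_eq_same]
  · rw [Pi.single_eq_of_ne h]
    exact zero_mem _

theorem hamb_fg (a : G → ℤ) (ha : ∀ g, a g ∈ S g) (hR : ∀ g, ∀ b ∈ S g, ww k K ^ (b - a g) ∈ R)
    (j : ℤ) : (Λ j).FG := by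
  classical
  have hT : ∀ g, ∃ T : Set P, T.Finite ∧ Submodule.span k T = Q.gr (j - 1 + li (lab g)) :=
    fun g => Submodule.fg_def.1 (Module.Finite.iff_fg.1 inferInstance)
  choose T hT1 hT2 using hT
  let L : G → P →ₗ[k] (G → K ⊗[k] P) := fun g =>
    LinearMap.single k (fun _ => K ⊗[k] P) g ∘ₗ TensorProduct.mk k K P (ww k K ^ a g)
  refine Submodule.fg_def.2 ⟨⋃ g, L g '' T g, Set.finite_iUnion fun g => (hT1 g).image _,
    le_antisymm (Submodule.span_le.2 ?_) fun v hv => ?_⟩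
  · rintro _ ⟨_, ⟨g, rfl⟩, p, hp, rfl⟩
    exact hamb_single Q lab hΛ
      (Q.tmul_mem_WP (hamb_w_mem (ha g)) (hT2 g ▸ Submodule.subset_span hp))
  · rw [← Finset.univ_sum_single v]
    refine Submodule.sum_mem _ fun g _ => ?_
    refine (Submodule.span_le (p := ((Submodule.span R (⋃ g, L g '' T g)).restrictScalars k).comap
      (LinearMap.single k (fun _ => K ⊗[k] P) g))).2 ?_ ((hΛ _ _).1 hv g)
    rintro _ ⟨b, hb, p, hp, rfl⟩
    have h1 : L g p ∈ Submodule.span R (⋃ g, L g '' T g) := by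
      refine Submodule.span_mono (Set.subset_iUnion (fun g => L g '' T g) g)
        (Submodule.span_subset_span k R _ ?_)
      rw [← Submodule.map_span, hT2]
      exact ⟨p, hp, rfl⟩
    have h2 := Submodule.smul_mem _ (⟨_, hR g b hb⟩ : R) h1
    change (Pi.single g ((ww k K ^ b) ⊗ₜ[k] p) : G → K ⊗[k] P) ∈ Submodule.span R _
    convert h2 using 1
    change _ = ww k K ^ (b - a g) • (Pi.single g ((ww k K ^ a g) ⊗ₜ[k] p) : G → K ⊗[k] P)
    rw [← Pi.single_smul, smul_tmul', smul_eq_mul, ← zpow_add₀ (ww_ne_zero k K), sub_add_cancel]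

omit [Fintype G] in
theorem hamb_le {j : ℤ} {v : G → K ⊗[k] P} (hv : v ∈ Λ j) : v ∈ Q.grV K lab j :=
  (hamb_grV Q lab).2 fun g => Q.WP_le_baseChange _ _ ((hΛ _ _).1 hv g)

theorem hamb_span (a : G → ℤ) (ha : ∀ g, a g ∈ S g) (j : ℤ) :
    Submodule.span K (Λ j : Set (G → K ⊗[k] P)) = Q.grV K lab j := by
  classical
  refine le_antisymm (Submodule.span_le.2 fun v hv => hamb_le Q lab hΛ hv) fun v hv => ?_
  rw [← Finset.univ_sum_single v]
  refine Submodule.sum_mem _ fun g _ => ?_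
  refine hamb_mem (LinearMap.single K (fun _ => K ⊗[k] P) g) _ (fun p hp => ?_)
    ((hamb_grV Q lab).1 hv g)
  have h1 : (1 : K) ⊗ₜ[k] p = (ww k K ^ a g)⁻¹ • ((ww k K ^ a g) ⊗ₜ[k] p) := by
    rw [smul_tmul', smul_eq_mul, inv_mul_cancel₀ (zpow_ne_zero _ (ww_ne_zero k K))]
  rw [h1, map_smul]
  exact Submodule.smul_mem _ _ (Submodule.subset_span
    (hamb_single Q lab hΛ (Q.tmul_mem_WP (hamb_w_mem (ha g)) hp)))

omit [Fintype G] in
theorem hamb_r_mem {r s : ℤ → Fin 3 → P →ₗ[k] P} (hs : Q.Split r s) {i j : ℤ} (h : i + 1 = j)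
    (c : Fin 3) (v : G → K ⊗[k] P) (hv : v ∈ Λ j) : splV K lab r i c v ∈ Λ i :=
  (hΛ _ _).2 fun g => Q.baseChange_mem_WP _ (fun p hp => hs.r_mem _ _ (by omega) c p (by
    rwa [show i + li (lab g) = j - 1 + li (lab g) by omega])) ((hΛ _ _).1 hv g)

omit [Fintype G] in
theorem hamb_s_mem {r s : ℤ → Fin 3 → P →ₗ[k] P} (hs : Q.Split r s) {i j l : ℤ} (h : i + 1 = j)
    (h' : i + 2 = l) (c : Fin 3) (v : G → K ⊗[k] P) (hv : v ∈ Λ l) : splV K lab s i c v ∈ Λ j :=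
  (hΛ _ _).2 fun g => Q.baseChange_mem_WP _ (fun p hp => by
    rw [show j - 1 + li (lab g) = i + li (lab g) by omega]
    exact hs.s_mem _ _ (by omega) c p hp) ((hΛ _ _).1 hv g)

omit [Fintype G] in
theorem hamb_good {r s : ℤ → Fin 3 → P →ₗ[k] P} (hs : Q.Split r s) :
    GoodFrom (Q.xV K G) Λ 1 := by
  intro i j hi h
  refine ⟨fun c v hv => (hΛ _ _).2 fun g => ?_, fun v hv => ?_, fun v hv => ?_⟩
  · have h1 : (1 : K) ∈ Win k K {0} := by
      rw [← zpow_zero (ww k K)]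
      exact hamb_w_mem rfl
    refine Q.WP_mul (by omega) ?_ (Q.tmul_mem_WP h1 (hamb_x_mem Q c)) ((hΛ _ _).1 hv g)
    rintro _ rfl b hb
    rwa [zero_add]
  · exact ⟨fun c => splV K lab s (i - 1) c v,
      fun c => hamb_s_mem Q lab hΛ hs (by omega) (by omega) c v hv,
      hamb_x_sV Q lab hs (by omega) (by omega) v (hamb_le Q lab hΛ hv)⟩
  · rw [← hamb_r_xV Q lab hs i v (hamb_sat Q lab h v fun c => hamb_le Q lab hΛ (hv c))]
    exact Submodule.sum_mem _ fun c _ => hamb_r_mem Q lab hΛ hs h c _ (hv c)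

theorem hamb_op {M : Matrix G G (K ⊗[k] P)} {T : G → G → Set ℤ} {U : G → Set ℤ} {δ i j : ℤ}
    (hM : ∀ y x, M y x ∈ Q.WP K (T y x) (li (lab x) + δ - li (lab y)))
    (hU : ∀ y x, ∀ a ∈ S y, ∀ b ∈ T y x, a + b ∈ U x) (h : i + δ = j) {v : G → K ⊗[k] P}
    (hv : v ∈ Λ i) (x : G) : opM M v x ∈ Q.WP K (U x) (j - 1 + li (lab x)) := by
  rw [opM_apply]
  exact Submodule.sum_mem _ fun y _ => Q.WP_mul (by omega) (hU y x) ((hΛ _ _).1 hv y) (hM y x)

end

variable {r s : ℤ → Fin 3 → P →ₗ[k] P} (hs : Q.Split r s) {D e : Matrix G G (K ⊗[k] P)}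
  (hD : ∀ x y, D x y ∈ Q.WP K (Set.Icc 0 (lk (lab y) - lk (lab x))) (li (lab y) - li (lab x)))

include hs hD

theorem PiData.amb (hDD : D * D = 0) :
    Amb (Q.xV K G) (Q.grV K lab) (Q.prV K lab) (opM D) (splV K lab r) (splV K lab s) := by
  have hr : ∀ i j, i + 1 = j → ∀ c, ∀ v ∈ Q.grV K lab j, splV K lab r i c v ∈ Q.grV K lab i :=
    fun i j h c v hv => (hamb_grV Q lab).2 fun g => hamb_map _ (fun p hp =>
      hs.r_mem _ _ (by omega) c p (by
        rwa [show i + li (lab g) = j - 1 + li (lab g) by omega])) ((hamb_grV Q lab).1 hv g)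
  have hs' : ∀ i j l, i + 1 = j → i + 2 = l → ∀ c, ∀ v ∈ Q.grV K lab l,
      splV K lab s i c v ∈ Q.grV K lab j :=
    fun i j l h h' c v hv => (hamb_grV Q lab).2 fun g => hamb_map _ (fun p hp => by
      rw [show j - 1 + li (lab g) = i + li (lab g) by omega]
      exact hs.s_mem _ _ (by omega) c p hp) ((hamb_grV Q lab).1 hv g)
  have hm : ∀ i j, i + 1 = j → Maps (Q.xV K G) (Q.grV K lab i) (Q.grV K lab j) :=
    fun i j h c v hv => (hamb_grV Q lab).2 fun g => hamb_mul Q (by omega)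
      (Submodule.tmul_mem_baseChange_of_mem _ (hamb_x_mem Q c)) ((hamb_grV Q lab).1 hv g)
  refine ⟨hamb_kos Q, fun j => ?_, fun i j hi h => ⟨hm i j h, fun v hv => ?_, hamb_sat Q lab h⟩,
    fun c i j _ h => hm i j h c, hamb_pr_self Q lab, fun i j h v hv => funext fun g => ?_,
    Q.comm_opM D, fun v => ?_, Q.shift_opM lab D 0 (fun y x => ?_) 0, fun j _ => hr j _ rfl,
    fun j _ => hs' j _ _ rfl rfl, fun j _ => hamb_r_xV Q lab hs j,
    fun j hj => hamb_x_sV Q lab hs hj rfl, fun j hj a b v hv => funext fun g => ?_⟩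
  · exact Module.Finite.iff_fg.2 (Submodule.fg_pi fun g =>
      Module.Finite.iff_fg.1 (Module.Finite.range _))
  · exact ⟨fun c => splV K lab s (i - 1) c v, fun c => hs' _ _ _ (by omega) (by omega) c v hv,
      hamb_x_sV Q lab hs (by omega) (by omega) v hv⟩
  · exact hamb_eq ((Q.pr (j - 1 + li (lab g))).baseChange K) 0 (fun p hp => by
      rw [LinearMap.baseChange_tmul, Q.pr_ne (by omega) hp, tmul_zero]; rfl)
      ((hamb_grV Q lab).1 hv g)
  · change Matrix.vecMul (Matrix.vecMul v D) D = 0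
    rw [Matrix.vecMul_vecMul, hDD, Matrix.vecMul_zero]
  · rw [add_zero]
    exact Q.WP_mono (Set.subset_univ _) _ (hD y x)
  · have h1 := hamb_li (lab g)
    have h2 := (hamb_grV Q lab).1 hv g
    rw [add_sub_cancel_right] at h2
    refine (hamb_split Q (hs.split _ (by omega) a b) h2).trans ?_
    split_ifs <;> rfl

theorem PiData.lat_Z (he : ∀ y x, e y x ∈ Q.WP K (Set.Ici 0) (li (lab x) + 2 - li (lab y)))
    (hDe : D * e = -(e * D)) :
    Lat (Rz k K) (Q.xV K G) (Q.grV K lab) (opM D) (opM e) (splV K lab r) (splV K lab s) (Q.latZ K lab) := by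
  have hΛ : ∀ j v, v ∈ Q.latZ K lab j ↔
      ∀ g, v g ∈ Q.WP K ((fun _ => Set.Ici 0) g) (j - 1 + li (lab g)) := fun _ _ => Iff.rfl
  refine ⟨hamb_fg Q lab hΛ (fun _ => 0) (fun _ => Set.self_mem_Ici) fun g b hb => ?_,
    hamb_span Q lab hΛ (fun _ => 0) fun _ => Set.self_mem_Ici, hamb_good Q lab hΛ hs,
    fun i j _ h v hv => hamb_op Q lab hΛ (δ := 0) (U := fun _ => Set.Ici 0)
      (fun y x => by rw [add_zero]; exact hD y x) (fun y x a ha b hb => ?_) h hv,
    fun i j _ h v hv => hamb_op Q lab hΛ (U := fun _ => Set.Ici 0) he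
      (fun y x a ha b hb => ?_) h hv, Q.comm_opM e, hamb_anti hDe,
    fun j _ => hamb_r_mem Q lab hΛ hs rfl, fun j _ => hamb_s_mem Q lab hΛ hs rfl rfl⟩
  · rw [sub_zero]
    exact mem_Rz.2 (hamb_w_mem hb)
  · exact Set.mem_Ici.2 (add_nonneg (Set.mem_Ici.1 ha) hb.1)
  · exact Set.mem_Ici.2 (add_nonneg (Set.mem_Ici.1 ha) (Set.mem_Ici.1 hb))

theorem PiData.lat_I (he : ∀ y x, e y x ∈
      Q.WP K (Set.Iic (-2 + lk (lab x) - lk (lab y))) (li (lab x) + 2 - li (lab y)))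
    (hDe : D * e = -(e * D)) :
    Lat (Ri k K) (Q.xV K G) (Q.grV K lab) (opM D) (ww k K ^ 2 • opM e) (splV K lab r) (splV K lab s)
      (Q.latI K lab) := by
  have hΛ : ∀ j v, v ∈ Q.latI K lab j ↔
      ∀ g, v g ∈ Q.WP K ((fun g => Set.Iic (lk (lab g))) g) (j - 1 + li (lab g)) :=
    fun _ _ => Iff.rfl
  refine ⟨hamb_fg Q lab hΛ (fun g => lk (lab g)) (fun _ => Set.self_mem_Iic) fun g b hb => ?_,
    hamb_span Q lab hΛ (fun g => lk (lab g)) fun _ => Set.self_mem_Iic, hamb_good Q lab hΛ hs,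
    fun i j _ h v hv => hamb_op Q lab hΛ (δ := 0) (U := fun g => Set.Iic (lk (lab g)))
      (fun y x => by rw [add_zero]; exact hD y x) (fun y x a ha b hb => ?_) h hv,
    fun i j _ h v hv x => ?_, (Q.comm_opM e).smul _, fun v => ?_,
    fun j _ => hamb_r_mem Q lab hΛ hs rfl, fun j _ => hamb_s_mem Q lab hΛ hs rfl rfl⟩
  · exact mem_Ri.2 (hamb_w_mem (Set.mem_Iic.2 (sub_nonpos.2 (Set.mem_Iic.1 hb))))
  · have h1 : a ≤ _ := ha
    have h2 := hb.2
    change a + b ≤ _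
    omega
  · have h1 := hamb_op Q lab hΛ (U := fun g => Set.Iic (lk (lab g) - 2)) he
      (fun y x a ha b hb => by
        have h1 : a ≤ _ := ha
        have h2 : b ≤ _ := hb
        change a + b ≤ _
        omega) h hv x
    have h2 : ww k K ^ 2 ∈ Win k K {2} := by
      rw [← zpow_ofNat]
      exact hamb_w_mem rfl
    refine Q.WP_smul ?_ h2 h1
    rintro _ rfl b hb
    have h3 : b ≤ _ := hb
    change 2 + b ≤ _
    omega
  · rw [LinearMap.smul_apply, LinearMap.smul_apply, map_smul, hamb_anti hDe, smul_neg]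

end Pool.Agent.Work.MP_910138_ag.C0
end

-- merged part: Pool.Agent.Work.MP_910138_ag.C0.HDual
section
/-! The dual form of the ghost lemma. -/

open TensorProduct MulOpposite

namespace Pool.Agent.Work.MP_910138_ag.C0

theorem mem_of_pairing {k T Γ : Type} [Field k] [AddCommGroup T] [Module k T] [AddCommGroup Γ]
    [Module k Γ] [FiniteDimensional k T] (B : T →ₗ[k] Γ →ₗ[k] k)
    (hB : ∀ t, (∀ g, B t g = 0) → t = 0) (S : Submodule k T) (t : T) (ht : t ∉ S) :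
    ∃ g, (∀ s ∈ S, B s g = 0) ∧ B t g = 1 := by
  have hinj : Function.Injective B :=
    (injective_iff_map_eq_zero B).2 fun t h => hB t fun g => by rw [h, LinearMap.zero_apply]
  obtain ⟨f, hf, hft⟩ := LinearMap.exists_extend_of_notMem (0 : S →ₗ[k] k) ht 1
  obtain ⟨g, hg⟩ := LinearMap.flip_surjective_iff₁.2 hinj f
  refine ⟨g, fun s hs => ?_, ?_⟩
  · rw [← LinearMap.flip_apply, hg]
    exact LinearMap.congr_fun hf ⟨s, hs⟩
  · rw [← LinearMap.flip_apply, hg, hft]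

variable {k : Type} [Field k]

/-- the conclusion of the ghost lemma -/
def Ghost {G : Type} [Fintype G] (lab : G → Lb) (deg : G → ℤ) (D : Matrix G G (AF k)) : Prop :=
  ∃ H : Matrix G G (AD k), (∀ x y, H x y ∈ Psi k (lab x) (lab y)) ∧
    (∀ x y, deg x ≠ deg y → H x y = 0) ∧
      ∀ x y, eul k (D x y) • tau k = ∑ z, (D x z • H z y - op (D z y) • H x z)

variable {K P : Type} [Field K] [Algebra k K] [HasVar k K] [Ring P] [Algebra k P] (Q : PiData k P)

theorem hdual_rho_wd (c : K) (u : Wd) : c • Q.rho K (wd k u) = c ⊗ₜ[k] Q.w u := by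
  have h := Q.rho_smul_wd (K := K) 1 u
  rw [one_smul, map_one] at h
  rw [h, TensorProduct.smul_tmul', smul_eq_mul, mul_one]

theorem hdual_ext {N : Type} [AddCommGroup N] [Module k N] {f g : K ⊗[k] P →ₗ[k] N}
    (h : ∀ (c : K) (u : Wd), f (c • Q.rho K (wd k u)) = g (c • Q.rho K (wd k u))) : f = g := by
  refine TensorProduct.ext' fun c p => ?_
  refine LinearMap.congr_fun (f := f ∘ₗ TensorProduct.mk k K P c)
    (g := g ∘ₗ TensorProduct.mk k K P c) (LinearMap.ext_on_range Q.span_top fun u => ?_) p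
  have := h c u
  rw [hdual_rho_wd] at this
  exact this

theorem hdual_res_coeff (p : Polynomial k) (j : ℕ) :
    resK k K (ww k K ^ (-1 - (j : ℤ)) * Polynomial.aeval (ww k K) p) = p.coeff j := by
  induction p using Polynomial.induction_on' with
  | add p q hp hq => rw [map_add, mul_add, map_add, hp, hq, Polynomial.coeff_add]
  | monomial n a =>
    rw [Polynomial.aeval_monomial, mul_left_comm, ← Algebra.smul_def, map_smul, ← zpow_natCast,
      ← zpow_add₀ (ww_ne_zero k K), resK_zpow, Polynomial.coeff_monomial, smul_eq_mul]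
    by_cases h : n = j
    · rw [if_pos h, if_pos (by omega), mul_one]
    · rw [if_neg h, if_neg (by omega), mul_zero]

/-- the pairing of forms with the preprojective algebra -/
def hdual_Pair (β : AD k →ₗ[k] K ⊗[k] P →ₗ[k] k) : Prop :=
  ∀ ψ ∈ Rel k, ∀ (c : K) (a : AF k),
    β ψ (c • Q.rho K a) = resK k K (c * Polynomial.aeval (ww k K) (ψ.toL a))

theorem hdual_exists : ∃ β : AD k →ₗ[k] K ⊗[k] P →ₗ[k] k, hdual_Pair Q β := by
  choose L hL using fun ψ : Rel k => Q.exists_extK (K := K) ψ.2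
  have h : ∀ (ψ : Rel k) (c : K) (a : AF k), (resK k K ∘ₗ (L ψ).restrictScalars k)
      (c • Q.rho K a) = resK k K (c * Polynomial.aeval (ww k K) (ψ.1.toL a)) := by
    intro ψ c a
    rw [LinearMap.comp_apply, LinearMap.restrictScalars_apply, map_smul, hL, smul_eq_mul]
  let β₀ : Rel k →ₗ[k] K ⊗[k] P →ₗ[k] k :=
    { toFun := fun ψ => resK k K ∘ₗ (L ψ).restrictScalars k
      map_add' := fun ψ φ => hdual_ext Q fun c u => by
        rw [LinearMap.add_apply, h, h, h, Submodule.coe_add, AD.toL_add, LinearMap.add_apply,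
          map_add, mul_add, map_add]
      map_smul' := fun r ψ => hdual_ext Q fun c u => by
        rw [LinearMap.smul_apply, h, h, Submodule.coe_smul, AD.toL_smul, LinearMap.smul_apply,
          map_smul, mul_smul_comm, map_smul, RingHom.id_apply] }
  obtain ⟨β, hβ⟩ := β₀.exists_extend
  refine ⟨β, fun ψ hψ c a => ?_⟩
  rw [← h ⟨ψ, hψ⟩ c a]
  exact LinearMap.congr_fun (LinearMap.congr_fun hβ ⟨ψ, hψ⟩) _

variable {Q} {β : AD k →ₗ[k] K ⊗[k] P →ₗ[k] k}

theorem hdual_left (hβ : hdual_Pair Q β) {ψ : AD k} (hψ : ψ ∈ Rel k) (a : AF k) (p : K ⊗[k] P) :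
    β (a • ψ) p = β ψ (p * Q.rho K a) := by
  refine LinearMap.congr_fun (g := β ψ ∘ₗ LinearMap.mulRight k (Q.rho K a))
    (hdual_ext Q fun c u => ?_) p
  rw [LinearMap.comp_apply, LinearMap.mulRight_apply, smul_mul_assoc, ← map_mul, hβ ψ hψ,
    hβ _ (smul_mem_Rel a hψ), AD.smul_apply]

theorem hdual_right (hβ : hdual_Pair Q β) {ψ : AD k} (hψ : ψ ∈ Rel k) (a : AF k) (p : K ⊗[k] P) :
    β (op a • ψ) p = β ψ (Q.rho K a * p) := by
  refine LinearMap.congr_fun (g := β ψ ∘ₗ LinearMap.mulLeft k (Q.rho K a))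
    (hdual_ext Q fun c u => ?_) p
  rw [LinearMap.comp_apply, LinearMap.mulLeft_apply, mul_smul_comm, ← map_mul, hβ ψ hψ,
    hβ _ (op_smul_mem_Rel a hψ), AD.op_smul_apply, unop_op]

theorem hdual_tau (hβ : hdual_Pair Q β) (L : K ⊗[k] P →ₗ[K] K)
    (hL : ∀ a, L (Q.rho K a) = Polynomial.aeval (ww k K) ((tau k).toL a)) (p : K ⊗[k] P) :
    β (tau k) p = resK k K (L p) := by
  refine LinearMap.congr_fun (g := resK k K ∘ₗ L.restrictScalars k)
    (hdual_ext Q fun c u => ?_) p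
  rw [LinearMap.comp_apply, LinearMap.restrictScalars_apply, map_smul L, hL, smul_eq_mul,
    hβ _ (tau_mem (0, 0)).2]

theorem hdual_nondeg (hβ : hdual_Pair Q β) {n m : ℤ} {ψ : AD k} (hψ : ψ ∈ Dsub k n m ⊓ Rel k)
    (h : ∀ p ∈ Q.WP K Set.univ n, β ψ p = 0) : ψ = 0 := by
  refine AD.ext_wd fun u => ?_
  by_cases hu : (u.length : ℤ) = n
  · refine Polynomial.ext fun j => ?_
    rw [← hdual_res_coeff (K := K), ← hβ ψ hψ.2, h]
    · rfl
    · rw [hdual_rho_wd]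
      exact Submodule.subset_span ⟨_, Set.mem_univ _, _, hu ▸ Q.w_mem u, rfl⟩
  · exact (hψ.1 u).2 hu

variable (Q) in
/-- the test forms -/
noncomputable def hdual_form (n : ℤ) (a : ℕ) (l : P →ₗ[k] k) : AD k :=
  formOf k fun u => Polynomial.monomial a (l (Q.pr n (Q.w u)))

theorem hdual_form_mem (n : ℤ) {a : ℕ} {m : ℤ} (h : a ≤ m) (l : P →ₗ[k] k) :
    hdual_form Q n a l ∈ Dsub k n m ⊓ Rel k := by
  refine ⟨fun u => ?_, mem_Rel_of_wd fun u v => ?_⟩
  · rw [hdual_form, formOf_wd]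
    refine ⟨fun j hj => ?_, fun hu => ?_⟩
    · rw [Polynomial.coeff_monomial, if_neg (by omega)]
    · rw [Q.pr_w, if_neg hu, map_zero, map_zero]
  · simp only [hdual_form, formOf_wd]
    rw [← map_sum, ← map_sum, ← map_sum]
    have h1 : ∑ c, Q.w (u * FreeMonoid.of c * FreeMonoid.of c * v) = 0 := by
      have h2 := Q.kos.sq (Q.w v)
      simp only [LinearMap.mulLeft_apply] at h2
      simp only [map_mul, mul_assoc]
      rw [← Finset.mul_sum, h2, mul_zero]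
    rw [h1, map_zero, map_zero, map_zero]

theorem hdual_form_pair (hβ : hdual_Pair Q β) (n : ℤ) (a : ℕ) (l : P →ₗ[k] k) (p : K ⊗[k] P) :
    β (hdual_form Q n a l) p = l (Q.pr n (coefK K P (-1 - a) p)) := by
  refine LinearMap.congr_fun (g := l ∘ₗ Q.pr n ∘ₗ coefK K P (-1 - a))
    (hdual_ext Q fun c u => ?_) p
  rw [hβ _ (hdual_form_mem n le_rfl l).2, hdual_rho_wd, LinearMap.comp_apply, LinearMap.comp_apply,
    coefK_tmul, map_smul, map_smul, hdual_form, formOf_wd, Polynomial.aeval_monomial,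
    mul_left_comm, ← Algebra.smul_def, map_smul, sub_sub_cancel, zpow_natCast, mul_comm c,
    smul_eq_mul, smul_eq_mul, mul_comm]

theorem hdual_adj (hβ : hdual_Pair Q β) {G : Type} [Fintype G] (D : Matrix G G (AF k))
    (H : Matrix G G (AD k)) (hH : ∀ x y, H x y ∈ Rel k) (γ : Matrix G G (K ⊗[k] P)) :
    ∑ x, ∑ y, β (∑ z, (D x z • H z y - op (D z y) • H x z)) (γ y x) =
      ∑ x, ∑ y, β (H x y) ((γ * D.map (Q.rho K) - D.map (Q.rho K) * γ) y x) := by
  simp only [map_sum, map_sub, LinearMap.sum_apply, LinearMap.sub_apply, Finset.sum_sub_distrib,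
    hdual_left hβ (hH _ _), hdual_right hβ (hH _ _), Matrix.sub_apply, Matrix.mul_apply,
    Matrix.map_apply]
  congr 1
  · rw [Finset.sum_comm]
    refine (Finset.sum_congr rfl fun y _ => Finset.sum_comm).trans Finset.sum_comm
  · exact Finset.sum_congr rfl fun x _ => Finset.sum_comm

theorem hdual_ksmul (c : k) (a b : AF k) (ψ φ : AD k) :
    c • (a • ψ - op b • φ) = a • c • ψ - op b • c • φ := AD.ext' fun p => by
  simp [smul_sub]

/-- the forms `D H - H D` -/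
def hdual_S {G : Type} [Fintype G] (lab : G → Lb) (deg : G → ℤ) (D : Matrix G G (AF k)) :
    Submodule k (∀ x y : G, Psi k (lab x) (lab y)) where
  carrier := {t | ∃ H : Matrix G G (AD k), (∀ x y, H x y ∈ Psi k (lab x) (lab y)) ∧
    (∀ x y, deg x ≠ deg y → H x y = 0) ∧
      ∀ x y, (t x y : AD k) = ∑ z, (D x z • H z y - op (D z y) • H x z)}
  zero_mem' := ⟨0, fun _ _ => zero_mem _, fun _ _ _ => rfl, fun x y => by simp⟩
  add_mem' := by
    rintro s t ⟨H, h1, h2, h3⟩ ⟨H', h1', h2', h3'⟩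
    refine ⟨H + H', fun x y => add_mem (h1 x y) (h1' x y), fun x y h => ?_, fun x y => ?_⟩
    · rw [Matrix.add_apply, h2 x y h, h2' x y h, add_zero]
    · rw [Pi.add_apply, Pi.add_apply, Submodule.coe_add, h3, h3', ← Finset.sum_add_distrib]
      refine Finset.sum_congr rfl fun z _ => ?_
      rw [Matrix.add_apply, Matrix.add_apply, smul_add, smul_add]
      abel
  smul_mem' := by
    rintro c t ⟨H, h1, h2, h3⟩
    refine ⟨c • H, fun x y => Submodule.smul_mem _ c (h1 x y), fun x y h => ?_, fun x y => ?_⟩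
    · rw [Matrix.smul_apply, h2 x y h, smul_zero]
    · rw [Pi.smul_apply, Pi.smul_apply, Submodule.coe_smul, h3, Finset.smul_sum]
      exact Finset.sum_congr rfl fun z _ => hdual_ksmul _ _ _ _ _

theorem hdual_gamma (hβ : hdual_Pair Q β) {G : Type} [Fintype G] (lab : G → Lb) (deg : G → ℤ)
    (D : Matrix G G (AF k)) (hD : ∀ x y, D x y ∈ AS k (lab x) (lab y))
    (hdeg : ∀ x y, D x y ≠ 0 → deg y = deg x + 1) (hn : ¬ Ghost lab deg D) :
    ∃ γ : Matrix G G (K ⊗[k] P),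
      (∀ y x, γ y x ∈ Q.WP K Set.univ (li (lab x) + 2 - li (lab y))) ∧
      (∀ y x, deg y ≠ deg x + 1 → γ y x = 0) ∧
      (∀ H : Matrix G G (AD k), (∀ x y, H x y ∈ Psi k (lab x) (lab y)) →
        (∀ x y, deg x ≠ deg y → H x y = 0) →
        ∑ x, ∑ y, β (∑ z, (D x z • H z y - op (D z y) • H x z)) (γ y x) = 0) ∧
      ∑ x, ∑ y, β (eul k (D x y) • tau k) (γ y x) = 1 := by
  classical
  have : ∀ x y, FiniteDimensional k (Psi k (lab x) (lab y)) := fun x y =>
    Submodule.finiteDimensional_inf_left _ _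
  let B : (∀ x y : G, Psi k (lab x) (lab y)) →ₗ[k]
      (∀ y x : G, Q.WP K Set.univ (li (lab x) + 2 - li (lab y))) →ₗ[k] k :=
    LinearMap.mk₂ k (fun t g => ∑ x, ∑ y, β (t x y) (g y x))
      (fun _ _ _ => by simp [Finset.sum_add_distrib])
      (fun _ _ _ => by simp [Finset.mul_sum])
      (fun _ _ _ => by simp [Finset.sum_add_distrib])
      (fun _ _ _ => by simp [Finset.mul_sum])
  have hB : ∀ t g, B t g = ∑ x, ∑ y, β (t x y) (g y x) := fun _ _ => rfl
  have hnd : ∀ t, (∀ g, B t g = 0) → t = 0 := by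
    intro t ht
    funext x y
    refine Subtype.ext (hdual_nondeg hβ (t x y).2 fun p hp => ?_)
    have := ht (Pi.single y (Pi.single x ⟨p, hp⟩))
    rw [hB, Finset.sum_eq_single x, Finset.sum_eq_single y] at this
    · simpa using this
    · intro y' _ h
      rw [Pi.single_eq_of_ne h, Pi.zero_apply, Submodule.coe_zero, map_zero]
    · simp
    · intro x' _ h
      refine Finset.sum_eq_zero fun y' _ => ?_
      by_cases h' : y' = y
      · subst h'
        rw [Pi.single_eq_same, Pi.single_eq_of_ne h, Submodule.coe_zero, map_zero]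
      · rw [Pi.single_eq_of_ne h', Pi.zero_apply, Submodule.coe_zero, map_zero]
    · simp
  obtain ⟨g, hg0, hg1⟩ := mem_of_pairing B hnd (hdual_S lab deg D)
    (fun x y => ⟨eul k (D x y) • tau k, AS_smul_Psi (eul_mem (hD x y)) (tau_mem _)⟩) hn
  have key : ∀ t : G → G → AD k, (∀ x y, deg y ≠ deg x + 1 → t x y = 0) →
      ∑ x, ∑ y, β (t x y) (if deg y = deg x + 1 then (g y x : K ⊗[k] P) else 0) =
        ∑ x, ∑ y, β (t x y) (g y x) := by
    intro t ht
    refine Finset.sum_congr rfl fun x _ => Finset.sum_congr rfl fun y _ => ?_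
    split_ifs with h
    · rfl
    · rw [ht x y h, map_zero, map_zero, LinearMap.zero_apply]
  refine ⟨fun y x => if deg y = deg x + 1 then (g y x : K ⊗[k] P) else 0, fun y x => ?_,
    fun y x h => if_neg h, fun H h1 h2 => ?_, ?_⟩
  · beta_reduce
    split_ifs
    · exact (g y x).2
    · exact zero_mem _
  · refine (key _ fun x y h => Finset.sum_eq_zero fun z _ => ?_).trans
      (hg0 (fun x y => ⟨_, sum_mem fun z _ => sub_mem (AS_smul_Psi (hD x z) (h1 z y))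
        (Psi_smul_AS (h1 x z) (hD z y))⟩) ⟨H, h1, h2, fun _ _ => rfl⟩)
    have e1 : D x z • H z y = 0 := by
      by_cases h0 : D x z = 0
      · rw [h0, zero_smul]
      · rw [h2 z y (by have := hdeg x z h0; omega), smul_zero]
    have e2 : op (D z y) • H x z = 0 := by
      by_cases h0 : D z y = 0
      · rw [h0, op_zero, zero_smul]
      · rw [h2 x z (by have := hdeg z y h0; omega), smul_zero]
    rw [e1, e2, sub_zero]
  · refine (key _ fun x y h => ?_).trans hg1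
    have h0 : D x y = 0 := by
      by_contra h0
      exact h (hdeg x y h0)
    rw [h0, map_zero, zero_smul]

variable (Q)

theorem dual_step {G : Type} [Fintype G] (lab : G → Lb) (deg : G → ℤ) (D : Matrix G G (AF k))
    (hD : ∀ x y, D x y ∈ AS k (lab x) (lab y)) (hdeg : ∀ x y, D x y ≠ 0 → deg y = deg x + 1)
    (hDD : D * D = 0) (L : K ⊗[k] P →ₗ[K] K)
    (hL : ∀ a, L (Q.rho K a) = Polynomial.aeval (ww k K) ((tau k).toL a)) (hn : ¬ Ghost lab deg D) :
    ∃ γ e₀ e₁ : Matrix G G (K ⊗[k] P),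
      (∀ y x, γ y x ∈ Q.WP K Set.univ (li (lab x) + 2 - li (lab y))) ∧
      (∀ y x, e₀ y x ∈ Q.WP K (Set.Ici 0) (li (lab x) + 2 - li (lab y))) ∧
      (∀ y x, e₁ y x ∈
        Q.WP K (Set.Iic (-2 + lk (lab x) - lk (lab y))) (li (lab x) + 2 - li (lab y))) ∧
      γ * D.map (Q.rho K) - D.map (Q.rho K) * γ = e₀ - e₁ ∧
      D.map (Q.rho K) * e₀ = -(e₀ * D.map (Q.rho K)) ∧ D.map (Q.rho K) * e₁ = -(e₁ * D.map (Q.rho K)) ∧
      resK k K (∑ x, ∑ y, L (γ y x * Q.rho K (eul k (D x y)))) = 1 := by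
  classical
  obtain ⟨β, hβ⟩ := hdual_exists (K := K) Q
  obtain ⟨γ, hγ, hγd, hγ0, hγ1⟩ := hdual_gamma hβ lab deg D hD hdeg hn
  have hρ : ∀ x y, D.map (Q.rho K) x y ∈
      Q.WP K (Set.Icc 0 (lk (lab y) - lk (lab x))) (li (lab y) - li (lab x)) :=
    fun x y => Q.rho_mem (hD x y)
  have hmul : ∀ (S : G → G → Set ℤ) (e : Matrix G G (K ⊗[k] P)),
      (∀ y x, e y x ∈ Q.WP K (S y x) (li (lab x) + 2 - li (lab y))) →
      (∀ y z x, ∀ a ∈ S y z, ∀ b ∈ Set.Icc 0 (lk (lab x) - lk (lab z)), a + b ∈ S y x) →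
      (∀ y z x, ∀ a ∈ Set.Icc 0 (lk (lab z) - lk (lab y)), ∀ b ∈ S z x, a + b ∈ S y x) →
      ∀ y x, (e * D.map (Q.rho K)) y x ∈ Q.WP K (S y x) (li (lab x) + 2 - li (lab y)) ∧
        (D.map (Q.rho K) * e) y x ∈ Q.WP K (S y x) (li (lab x) + 2 - li (lab y)) := by
    intro S e he h1 h2 y x
    rw [Matrix.mul_apply, Matrix.mul_apply]
    exact ⟨sum_mem fun z _ => Q.WP_mul (by ring) (h1 y z x) (he y z) (hρ z x),
      sum_mem fun z _ => Q.WP_mul (by ring) (h2 y z x) (hρ y z) (he z x)⟩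
  have hδ : ∀ y x, (γ * D.map (Q.rho K) - D.map (Q.rho K) * γ) y x ∈
      Q.WP K Set.univ (li (lab x) + 2 - li (lab y)) := fun y x =>
    have h := hmul (fun _ _ => Set.univ) γ hγ (fun _ _ _ _ _ _ _ => trivial)
      (fun _ _ _ _ _ _ _ => trivial) y x
    sub_mem h.1 h.2
  have hwin : ∀ y x, (γ * D.map (Q.rho K) - D.map (Q.rho K) * γ) y x ∈
      Q.WP K (Set.Ici 0) (li (lab x) + 2 - li (lab y)) ⊔
      Q.WP K (Set.Iic (-2 + lk (lab x) - lk (lab y))) (li (lab x) + 2 - li (lab y)) := by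
    intro y x
    rw [← Q.WP_union]
    refine Q.mem_WP_of_coefK (hδ y x) fun e he => ?_
    simp only [Set.mem_union, Set.mem_Ici, Set.mem_Iic, not_or, not_le] at he
    by_cases hxy : deg x = deg y
    · obtain ⟨a, rfl⟩ : ∃ a : ℕ, e = -1 - a := ⟨(-1 - e).toNat, by omega⟩
      rw [← Q.pr_self (Q.coefK_mem (hδ y x) _).1, ← Module.forall_dual_apply_eq_zero_iff k]
      intro l
      have hm := hdual_form_mem (Q := Q) (li (lab x) + 2 - li (lab y)) (a := a)
        (m := lk (lab y) - lk (lab x)) (by omega) l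
      have h1 : ∀ x' y', Matrix.single x y (hdual_form Q (li (lab x) + 2 - li (lab y)) a l) x' y' ∈
          Psi k (lab x') (lab y') := by
        intro x' y'
        rw [Matrix.single_apply]
        split_ifs with h
        · obtain ⟨rfl, rfl⟩ := h
          exact hm
        · exact zero_mem _
      have h2 := hγ0 _ h1 fun x' y' h => by
        rw [Matrix.single_apply, if_neg]
        rintro ⟨rfl, rfl⟩
        exact h hxy
      rw [hdual_adj hβ D _ fun x' y' => (h1 x' y').2, Finset.sum_eq_single x,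
        Finset.sum_eq_single y, Matrix.single_apply_same, hdual_form_pair hβ] at h2
      · exact h2
      · intro y' _ h
        rw [Matrix.single_apply_of_col_ne _ _ h.symm, map_zero, LinearMap.zero_apply]
      · simp
      · intro x' _ h
        refine Finset.sum_eq_zero fun y' _ => ?_
        rw [Matrix.single_apply_of_row_ne h.symm, map_zero, LinearMap.zero_apply]
      · simp
    · have h1 : ∀ z, γ y z * D.map (Q.rho K) z x = 0 := fun z => by
        by_cases h0 : D z x = 0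
        · rw [Matrix.map_apply, h0, map_zero, mul_zero]
        · rw [hγd y z (by have := hdeg z x h0; omega), zero_mul]
      have h2 : ∀ z, D.map (Q.rho K) y z * γ z x = 0 := fun z => by
        by_cases h0 : D y z = 0
        · rw [Matrix.map_apply, h0, map_zero, zero_mul]
        · rw [hγd z x (by have := hdeg y z h0; omega), mul_zero]
      simp only [Matrix.sub_apply, Matrix.mul_apply, h1, h2, Finset.sum_const_zero, sub_zero,
        map_zero]
  choose a ha b hb hab using fun y x => Submodule.mem_sup.1 (hwin y x)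
  obtain ⟨e₀, he₀⟩ : ∃ e₀ : Matrix G G (K ⊗[k] P), ∀ y x, e₀ y x = a y x := ⟨a, fun _ _ => rfl⟩
  obtain ⟨e₁, he₁⟩ : ∃ e₁ : Matrix G G (K ⊗[k] P), ∀ y x, e₁ y x = -b y x :=
    ⟨fun y x => -b y x, fun _ _ => rfl⟩
  have h0 : ∀ y x, e₀ y x ∈ Q.WP K (Set.Ici 0) (li (lab x) + 2 - li (lab y)) :=
    fun y x => he₀ y x ▸ ha y x
  have h1 : ∀ y x, e₁ y x ∈
      Q.WP K (Set.Iic (-2 + lk (lab x) - lk (lab y))) (li (lab x) + 2 - li (lab y)) :=
    fun y x => he₁ y x ▸ neg_mem (hb y x)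
  have he : γ * D.map (Q.rho K) - D.map (Q.rho K) * γ = e₀ - e₁ := by
    ext y x
    rw [← hab, Matrix.sub_apply, he₀, he₁, sub_neg_eq_add]
  have hsq : D.map (Q.rho K) * D.map (Q.rho K) = 0 := by
    rw [← Matrix.map_mul, hDD, Matrix.map_zero _ (map_zero _)]
  have hanti : D.map (Q.rho K) * e₀ + e₀ * D.map (Q.rho K) =
      D.map (Q.rho K) * e₁ + e₁ * D.map (Q.rho K) := by
    rw [← sub_eq_zero, add_sub_add_comm, ← mul_sub, ← sub_mul, ← he, mul_sub, sub_mul,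
      ← mul_assoc, ← mul_assoc, hsq, mul_assoc γ, hsq, zero_mul, mul_zero, sub_zero, zero_sub,
      add_neg_cancel]
  have hz : D.map (Q.rho K) * e₀ + e₀ * D.map (Q.rho K) = 0 := by
    ext y x
    have a0 := hmul (fun _ _ => Set.Ici 0) e₀ h0 (fun _ _ _ _ ha _ hb => add_nonneg ha hb.1)
      (fun _ _ _ _ ha _ hb => add_nonneg ha.1 hb) y x
    have a1 := hmul (fun y x => Set.Iic (-2 + lk (lab x) - lk (lab y))) e₁ h1
      (fun _ _ _ _ ha _ hb => by
        simp only [Set.mem_Iic, Set.mem_Icc] at ha hb ⊢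
        omega)
      (fun _ _ _ _ ha _ hb => by
        simp only [Set.mem_Iic, Set.mem_Icc] at ha hb ⊢
        omega) y x
    refine Q.eq_zero_of_disjoint (S := Set.Ici 0)
      (T := Set.Iic (-2 + lk (lab x) - lk (lab y))) (m := li (lab x) + 2 - li (lab y)) ?_
      (add_mem a0.2 a0.1) ?_
    · rw [Set.Ici_disjoint_Iic]
      have b1 := (lab x).2.2
      simp only [lk]
      omega
    · rw [hanti]
      exact add_mem a1.2 a1.1
  refine ⟨γ, e₀, e₁, hγ, h0, h1, he, eq_neg_of_add_eq_zero_left hz,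
    eq_neg_of_add_eq_zero_left (hanti ▸ hz), ?_⟩
  rw [← hγ1]
  simp only [map_sum, hdual_left hβ (tau_mem (0, 0)).2, hdual_tau hβ L hL]

end Pool.Agent.Work.MP_910138_ag.C0
end

-- merged part: Pool.Agent.Work.MP_910138_ag.C0.HNil
section
/-! Nilpotence on a saturated family with two families of lattices. -/

namespace Pool.Agent.Work.MP_910138_ag.C0

variable {k K V : Type} [Field k] [Field K] [Algebra k K] [AddCommGroup V] [Module K V]
  [Module k V] [IsScalarTower k K V] {x : Fin 3 → V →ₗ[K] V}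

theorem hnil_pow {S : Type} [SetLike S V] {f : V →ₗ[K] V} {N : ℤ → S} {j₀ : ℤ}
    (h : ShiftFrom f N N 2 j₀) (m : ℕ) {v : V} (hv : v ∈ N j₀) : (f ^ m) v ∈ N (j₀ + 2 * m) := by
  induction m with
  | zero => simpa using hv
  | succ m ih =>
    rw [pow_succ', Module.End.mul_apply]
    exact h _ _ (by omega) (by push_cast; ring) _ ih

/-- the comparison lattice -/
def hnilP (R : Subalgebra k K) (T : Submodule K V) (C : Submodule k V) : Submodule R V :=
  T.restrictScalars R ⊔ Submodule.span R (C : Set V)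

theorem hnil_key (R : Subalgebra k K) [IsFractionRing R K] {M T : ℤ → Submodule K V}
    {C : ℤ → Submodule k V} (hT : ∀ i j, i + 1 = j → Good x (T i) (T j))
    (hC : ∀ i j, i + 1 = j → Maps x (C i) (C j))
    (hM : ∀ j, T j ⊔ Submodule.span K (C j : Set V) = M j) {j₀ : ℤ} {f : V →ₗ[K] V}
    {Λ : ℤ → Submodule R V} (hfg : (Λ j₀).FG) (hs : Submodule.span K (Λ j₀ : Set V) = M j₀)
    (hg : ∀ i j, j₀ ≤ i → i + 1 = j → Gen x (Λ i) (Λ j)) (hf : ShiftFrom f Λ Λ 2 j₀) {n : ℕ}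
    {b : Fin n → V} (hb : ∀ i, b i ∈ M j₀) :
    ∃ g : K, g ≠ 0 ∧ ∀ (m : ℕ) (i : Fin n),
      g • (f ^ m) (b i) ∈ hnilP R (T (j₀ + 2 * m)) (C (j₀ + 2 * m)) := by
  have h1 : ∀ i j, i + 1 = j → Maps x (hnilP R (T i) (C i)) (hnilP R (T j) (C j)) := by
    intro i j hij c
    have : hnilP R (T i) (C i) ≤ (hnilP R (T j) (C j)).comap ((x c).restrictScalars R) :=
      sup_le (fun v hv => Submodule.mem_sup_left ((hT i j hij).maps c v hv))
        (Submodule.span_le.2 fun v hv =>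
          Submodule.mem_sup_right (Submodule.subset_span (hC i j hij c v hv)))
    exact fun v hv => this hv
  obtain ⟨a, ha, h2⟩ := exists_smul_le (K := K) (hnilP R (T j₀) (C j₀)) (Λ j₀) hfg fun v hv => by
    have h3 : M j₀ ≤ Submodule.span K (hnilP R (T j₀) (C j₀) : Set V) := by
      rw [← hM]
      exact sup_le (fun v hv => Submodule.subset_span (Submodule.mem_sup_left hv))
        (Submodule.span_mono fun v hv => Submodule.mem_sup_right (Submodule.subset_span hv))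
    exact h3 (hs ▸ Submodule.subset_span hv)
  obtain ⟨a', ha', h3⟩ := exists_smul_le (K := K) (Λ j₀) (Submodule.span R (Set.range b))
    (Submodule.fg_span (Set.finite_range b)) fun v hv => by
      have h3 : Submodule.span R (Set.range b) ≤ (M j₀).restrictScalars R :=
        Submodule.span_le.2 (Set.range_subset_iff.2 hb)
      rw [hs]
      exact h3 hv
  have h4 := shiftFrom_of_gen (x := x) ((a : K) • LinearMap.id)
    (Comm.smul (x := x) (f := LinearMap.id) (fun _ _ => rfl) _) Λ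
    (fun j => hnilP R (T j) (C j)) 0 j₀ hg
    (fun i j _ hij => h1 i j hij) fun v hv => by
      rw [add_zero]
      exact h2 v hv
  refine ⟨a * a', mul_ne_zero (fun e => ha (Subtype.ext e)) fun e => ha' (Subtype.ext e),
    fun m i => ?_⟩
  have h5 := hnil_pow hf m (h3 _ (Submodule.subset_span ⟨i, rfl⟩))
  have h6 := h4 _ _ (by omega) (add_zero _) _ h5
  rwa [LinearMap.smul_apply, LinearMap.id_apply, Subalgebra.smul_def, map_smul, smul_smul] at h6

theorem hnil_coef (R : Subalgebra k K) {T : Submodule K V} {C : Submodule k V} {n : ℕ}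
    {b : Fin n → V} (hb : Submodule.span k (Set.range b) = C)
    (hi : ∀ c : Fin n → K, ∑ i, c i • b i ∈ T → c = 0) {g : K} {w : V} (hw : g • w ∈ hnilP R T C)
    {c : Fin n → K} (hc : w - ∑ i, c i • b i ∈ T) (l : Fin n) : g * c l ∈ R := by
  rw [hnilP, ← hb, Submodule.span_span_of_tower, Submodule.mem_sup] at hw
  obtain ⟨ρ, h1, z, h2, h3⟩ := hw
  obtain ⟨a, rfl⟩ := (Submodule.mem_span_range_iff_exists_fun R).1 h2
  have h4 := hi (fun i => g * c i - a i) (by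
    have e : ∑ i, (g * c i - a i) • b i = ρ - g • (w - ∑ i, c i • b i) := by
      simp only [sub_smul, Finset.sum_sub_distrib, smul_sub, ← h3, Finset.smul_sum, smul_smul,
        Subalgebra.smul_def]
      abel
    rw [e]
    exact T.sub_mem h1 (T.smul_mem g hc))
  have h5 : g * c l - a l = 0 := congrFun h4 l
  rw [sub_eq_zero.1 h5]
  exact (a l).2

theorem nil_core (R₀ R₁ : Subalgebra k K) [IsFractionRing R₀ K] [IsFractionRing R₁ K] (ϖ : K)
    (hs : Sep R₀ R₁ ϖ) (hx : Kos x) (M : ℤ → Submodule K V)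
    (hfin : ∀ j, FiniteDimensional K (M j))
    (hM : ∀ i j, i + 1 = j → Maps x (M i) (M j) ∧ Sat x (M i) (M j)) (j₀ : ℤ)
    (e : V →ₗ[K] V) (he : Comm x e)
    (heM : ∀ i j, i + 2 = j → ∀ v ∈ M i, e v ∈ M j)
    (Λ₀ : ℤ → Submodule R₀ V) (Λ₁ : ℤ → Submodule R₁ V) (f₀ : (Λ₀ j₀).FG) (f₁ : (Λ₁ j₀).FG)
    (s₀ : Submodule.span K (Λ₀ j₀ : Set V) = M j₀) (s₁ : Submodule.span K (Λ₁ j₀ : Set V) = M j₀)
    (g₀ : ∀ i j, j₀ ≤ i → i + 1 = j → Gen x (Λ₀ i) (Λ₀ j))
    (g₁ : ∀ i j, j₀ ≤ i → i + 1 = j → Gen x (Λ₁ i) (Λ₁ j))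
    (e₀ : ShiftFrom e Λ₀ Λ₀ 2 j₀) (e₁ : ShiftFrom (ϖ • e) Λ₁ Λ₁ 2 j₀) :
    ∃ m : ℕ, ∀ v ∈ M j₀, (e ^ m) v = 0 := by
  obtain ⟨T, C, n₀, t1, t2, t3, t4, t5, t6⟩ := exists_struct (k := k) hx M hfin hM
  have h0 : ∀ i j, i + 2 = j → j ≤ n₀ → ∀ v ∈ T i, e v ∈ T j := fun i j hij hj v hv => by
    rw [t3 j hj]
    exact heM i j hij v (t1 i hv)
  have heT : ∀ i j, i + 2 = j → ∀ v ∈ T i, e v ∈ T j := fun i j hij => by
    by_cases h : j ≤ n₀
    · exact h0 i j hij h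
    · exact shiftFrom_of_gen e he T T 2 (n₀ - 2) (fun i j _ h => (t2 i j h).gen)
        (fun i j _ h => (t2 i j h).maps) (h0 _ _ rfl (by omega)) i j (by omega) hij
  obtain ⟨N, hN⟩ := reg_nil hx T
    (fun j => by have := hfin j; exact Submodule.finiteDimensional_of_le (t1 j)) t2 e he heT
  obtain ⟨n, b, b1, -⟩ := t6 j₀
  have hb : ∀ i, b i ∈ M j₀ := fun i => by
    rw [← t5]
    exact Submodule.mem_sup_right (Submodule.subset_span (b1 ▸ Submodule.subset_span ⟨i, rfl⟩))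
  obtain ⟨a₀, a1, a2⟩ := hnil_key R₀ t2 t4 t5 f₀ s₀ g₀ e₀ hb
  obtain ⟨a₁, a3, a4⟩ := hnil_key R₁ t2 t4 t5 f₁ s₁ g₁ e₁ hb
  obtain ⟨m, hm⟩ := hs a₀ a₁ a1 a3
  obtain ⟨n', b', c1, c2⟩ := t6 (j₀ + 2 * m)
  have key : ∀ i, (e ^ m) (b i) ∈ T (j₀ + 2 * m) := fun i => by
    have k1 : (e ^ m) (b i) ∈ M (j₀ + 2 * m) :=
      hnil_pow (N := M) (fun i j _ h => heM i j h) m (hb i)
    rw [← t5, ← c1, Submodule.span_span_of_tower, Submodule.mem_sup] at k1
    obtain ⟨ρ, k2, z, k3, k4⟩ := k1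
    obtain ⟨c, rfl⟩ := (Submodule.mem_span_range_iff_exists_fun K).1 k3
    have k5 : (e ^ m) (b i) - ∑ l, c l • b' l ∈ T (j₀ + 2 * m) := by
      rwa [← k4, add_sub_cancel_right]
    have k6 := a4 m i
    rw [smul_pow, LinearMap.smul_apply, smul_smul] at k6
    have k7 : ∀ l, c l = 0 := fun l =>
      hm _ (hnil_coef R₀ c1 c2 (a2 m i) k5 l) (hnil_coef R₁ c1 c2 k6 k5 l)
    simpa [k7] using k5
  have fin : M j₀ ≤ (T (j₀ + 2 * m)).comap (e ^ m) := by
    rw [← t5, ← b1, Submodule.span_span_of_tower]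
    exact sup_le (fun v hv => hnil_pow (N := T) (fun i j _ h => heT i j h) m hv)
      (Submodule.span_le.2 (Set.range_subset_iff.2 key))
  refine ⟨N + m, fun v hv => ?_⟩
  rw [pow_add, Module.End.mul_apply]
  exact hN _ _ (fin hv)

end Pool.Agent.Work.MP_910138_ag.C0
end

-- merged part: Pool.Agent.Work.MP_910138_ag.C0.HWord
section
/-! Backward extension of a quotient of good families, and nilpotence on the quotient. -/

namespace Pool.Agent.Work.MP_910138_ag.C0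

variable {K V : Type} [Field K] [AddCommGroup V] [Module K V] {x : Fin 3 → V →ₗ[K] V}

/-- the action of a word, first letter first -/
def hword_act (x : Fin 3 → V →ₗ[K] V) : List (Fin 3) → V →ₗ[K] V
  | [] => LinearMap.id
  | c :: u => hword_act x u ∘ₗ x c

theorem hword_act_append (u w : List (Fin 3)) (v : V) :
    hword_act x (u ++ w) v = hword_act x w (hword_act x u v) := by
  induction u generalizing v with
  | nil => rfl
  | cons c u ih => exact ih _

theorem hword_act_map {V' : Type} [AddCommGroup V'] [Module K V'] {x' : Fin 3 → V' →ₗ[K] V'}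
    {θ : V →ₗ[K] V'} (h : ∀ c v, θ (x c v) = x' c (θ v)) (u : List (Fin 3)) (v : V) :
    θ (hword_act x u v) = hword_act x' u (θ v) := by
  induction u generalizing v with
  | nil => rfl
  | cons c u ih => exact (ih _).trans (congrArg _ (h c v))

/-- eventually compatible families -/
def hword_W (x : Fin 3 → V →ₗ[K] V) : Submodule K (List (Fin 3) → V) where
  carrier := {f | ∃ N, (∀ u c, N ≤ u.length → f (u ++ [c]) = x c (f u)) ∧
    ∀ v u, N ≤ v.length + u.length → ∑ c, f (v ++ c :: c :: u) = 0}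
  zero_mem' := ⟨0, by simp, by simp⟩
  add_mem' := by
    rintro f g ⟨N, h1, h2⟩ ⟨N', h1', h2'⟩
    refine ⟨N + N', fun u c h => ?_, fun v u h => ?_⟩
    · simp [h1 u c (by omega), h1' u c (by omega)]
    · simp [Finset.sum_add_distrib, h2 v u (by omega), h2' v u (by omega)]
  smul_mem' := by
    rintro a f ⟨N, h1, h2⟩
    refine ⟨N, fun u c h => ?_, fun v u h => ?_⟩
    · simp [h1 u c h]
    · simp [← Finset.smul_sum, h2 v u h]

/-- eventually vanishing families -/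
def hword_W0 (x : Fin 3 → V →ₗ[K] V) : Submodule K (hword_W x) where
  carrier := {f | ∃ N, ∀ u, N ≤ u.length → f.1 u = 0}
  zero_mem' := ⟨0, by simp⟩
  add_mem' := by
    rintro f g ⟨N, h⟩ ⟨N', h'⟩
    exact ⟨N + N', fun u hu => by simp [h u (by omega), h' u (by omega)]⟩
  smul_mem' := by
    rintro a f ⟨N, h⟩
    exact ⟨N, fun u hu => by simp [h u hu]⟩

/-- the shift -/
def hword_x (x : Fin 3 → V →ₗ[K] V) (c : Fin 3) : hword_W x →ₗ[K] hword_W x :=
  (LinearMap.funLeft K V (c :: ·)).restrict (by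
    rintro f ⟨N, h1, h2⟩
    exact ⟨N, fun u a h => h1 (c :: u) a (by simp; omega),
      fun v u h => h2 (c :: v) u (by simp; omega)⟩)

/-- a commuting operator -/
def hword_e {e : V →ₗ[K] V} (he : Comm x e) : hword_W x →ₗ[K] hword_W x :=
  (e.compLeft (List (Fin 3))).restrict (by
    rintro f ⟨N, h1, h2⟩
    exact ⟨N, fun u a h => by simp [h1 u a h, he a],
      fun v u h => by simp [← map_sum, h2 v u h]⟩)

/-- the family of an element -/
def hword_i (hx : ∀ v, ∑ c, x c (x c v) = 0) : V →ₗ[K] hword_W x :=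
  (LinearMap.pi (hword_act x)).codRestrict _ fun z =>
    ⟨0, fun u c _ => hword_act_append u [c] z, fun v u _ => by
      simp only [LinearMap.pi_apply, hword_act_append, hword_act, LinearMap.comp_apply]
      rw [← map_sum, hx, map_zero]⟩

theorem hword_loc (hx : ∀ v, ∑ c, x c (x c v) = 0) {e : V →ₗ[K] V} (he : Comm x e) :
    ∃ (V' : Type) (_ : AddCommGroup V') (_ : Module K V') (x' : Fin 3 → V' →ₗ[K] V')
      (θ : V →ₗ[K] V') (e' : V' →ₗ[K] V'), Kos x' ∧ (∀ c v, θ (x c v) = x' c (θ v)) ∧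
      (∀ v, θ (e v) = e' (θ v)) ∧ Comm x' e' ∧
      ∀ v, θ v = 0 → ∃ N, ∀ u : List (Fin 3), u.length = N → hword_act x u v = 0 := by
  have h1 : ∀ c, hword_W0 x ≤ (hword_W0 x).comap (hword_x x c) := fun c f ⟨N, h⟩ =>
    ⟨N, fun u hu => h (c :: u) (by simp; omega)⟩
  have h2 : hword_W0 x ≤ (hword_W0 x).comap (hword_e he) := fun f ⟨N, h⟩ =>
    ⟨N, fun u hu => (congrArg e (h u hu)).trans (map_zero e)⟩
  refine ⟨hword_W x ⧸ hword_W0 x, inferInstance, inferInstance,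
    fun c => Submodule.mapQ _ _ (hword_x x c) (h1 c), (hword_W0 x).mkQ ∘ₗ hword_i hx,
    Submodule.mapQ _ _ (hword_e he) h2, ⟨fun v h => ?_, fun v => ?_, fun t h => ?_⟩,
    fun c v => rfl, fun v => ?_, fun c v => ?_, fun v h => ?_⟩
  · obtain ⟨f, rfl⟩ := (hword_W0 x).mkQ_surjective v
    choose N hN using fun c => (Submodule.Quotient.mk_eq_zero _).1 (h c)
    refine (Submodule.Quotient.mk_eq_zero _).2 ⟨∑ c, N c + 1, ?_⟩
    rintro (_ | ⟨c, u⟩) hu
    · simp at hu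
    · have := Finset.single_le_sum (fun c _ => Nat.zero_le (N c)) (Finset.mem_univ c)
      exact hN c u (by simp at hu; omega)
  · obtain ⟨f, rfl⟩ := (hword_W0 x).mkQ_surjective v
    obtain ⟨N, -, h⟩ := f.2
    have : (hword_W0 x).mkQ (∑ c, hword_x x c (hword_x x c f)) = 0 :=
      (Submodule.Quotient.mk_eq_zero _).2 ⟨N, fun u hu => by
        rw [Submodule.coe_sum, Finset.sum_apply]
        exact h [] u (by simpa using hu)⟩
    rwa [map_sum] at this
  · choose f hf using fun c => (hword_W0 x).mkQ_surjective (t c)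
    obtain rfl : t = _ := (funext hf).symm
    have h' : (hword_W0 x).mkQ (∑ c, hword_x x c (f c)) = 0 := by rwa [map_sum]
    obtain ⟨N₀, h₀⟩ := (Submodule.Quotient.mk_eq_zero _).1 h'
    choose N hN hN' using fun c => (f c).2
    have hle := fun c => Finset.single_le_sum (fun c _ => Nat.zero_le (N c)) (Finset.mem_univ c)
    refine ⟨(hword_W0 x).mkQ ⟨fun u => u.casesOn 0 fun c u => (f c).1 u,
      N₀ + ∑ c, N c + 1, ?_, ?_⟩, fun c => rfl⟩
    · rintro (_ | ⟨a, u⟩) c hu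
      · simp at hu
      · exact hN a u c (by have := hle a; simp at hu; omega)
    · rintro (_ | ⟨a, v⟩) u hu
      · have := h₀ u (by simp at hu; omega)
        rwa [Submodule.coe_sum, Finset.sum_apply] at this
      · exact hN' a v u (by have := hle a; simp at hu; omega)
  · exact congrArg (hword_W0 x).mkQ (Subtype.ext (funext fun u => (hword_act_map he u v).symm))
  · obtain ⟨f, rfl⟩ := (hword_W0 x).mkQ_surjective v
    rfl
  · obtain ⟨N, h⟩ := (Submodule.Quotient.mk_eq_zero _).1 h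
    exact ⟨N, fun u hu => h u hu.ge⟩

theorem hword_mem {Z : ℤ → Submodule K V} {j₀ : ℤ} (hZ : GoodFrom x Z j₀) (u : List (Fin 3))
    {j : ℤ} (hj : j₀ ≤ j) {v : V} (hv : v ∈ Z j) : hword_act x u v ∈ Z (j + u.length) := by
  induction u generalizing j v with
  | nil => simpa [hword_act] using hv
  | cons c u ih =>
    have := ih (j := j + 1) (by omega) ((hZ j _ hj rfl).maps c v hv)
    rwa [add_assoc, add_comm 1, ← Nat.cast_succ] at this

theorem hword_down {B : ℤ → Submodule K V} {j₀ : ℤ} (hB : GoodFrom x B j₀) (N : ℕ) {j : ℤ}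
    (hj : j₀ ≤ j) {v : V} (hv : ∀ u : List (Fin 3), u.length = N → hword_act x u v ∈ B (j + N)) :
    v ∈ B j := by
  induction N generalizing j v with
  | zero => simpa [hword_act] using hv [] rfl
  | succ N ih =>
    refine (hB j _ hj rfl).sat v fun c => ih (by omega) fun u hu => ?_
    have := hv (c :: u) (by simp [hu])
    rwa [Nat.cast_succ, add_comm (N : ℤ), ← add_assoc] at this

theorem hword_back (hx : Kos x) (Z : ℤ → Submodule K V) (j₀ : ℤ)
    (hZ : ∀ i j, j₀ ≤ i → i + 1 = j → Maps x (Z i) (Z j) ∧ Sat x (Z i) (Z j))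
    (hfin : ∀ j, FiniteDimensional K (Z j)) {e : V →ₗ[K] V} (he : Comm x e)
    (heZ : ShiftFrom e Z Z 2 j₀) : ∃ M : ℤ → Submodule K V, (∀ j, FiniteDimensional K (M j)) ∧
      (∀ i j, i + 1 = j → Maps x (M i) (M j) ∧ Sat x (M i) (M j)) ∧
      (∀ i j, i + 2 = j → ∀ v ∈ M i, e v ∈ M j) ∧ ∀ j, j₀ ≤ j → M j = Z j := by
  obtain ⟨P, P0, P1⟩ : ∃ P : ℕ → Submodule K V, P 0 = Z j₀ ∧
      ∀ n, P (n + 1) = ⨅ c, (P n).comap (x c) :=
    ⟨fun n => n.rec (Z j₀) fun _ Q => ⨅ c, Q.comap (x c), rfl, fun _ => rfl⟩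
  obtain ⟨M, h1, h2⟩ : ∃ M : ℤ → Submodule K V, (∀ j, j₀ ≤ j → M j = Z j) ∧
      ∀ n : ℕ, M (j₀ - n) = P n := by
    refine ⟨fun j => if j₀ ≤ j then Z j else P (j₀ - j).toNat, fun j h => if_pos h, fun n => ?_⟩
    rcases n with _ | n
    · simp [P0]
    · simp
  have h3 : ∀ i, Maps x (M i) (M (i + 1)) ∧ Sat x (M i) (M (i + 1)) := fun i => by
    by_cases h : j₀ ≤ i
    · rw [h1 i h, h1 _ (by omega)]
      exact hZ i _ h rfl
    · obtain ⟨n, rfl⟩ : ∃ n : ℕ, i = j₀ - (n + 1 : ℕ) := ⟨(j₀ - i - 1).toNat, by omega⟩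
      rw [h2, P1, show j₀ - (n + 1 : ℕ) + 1 = j₀ - n by omega, h2]
      exact ⟨fun c v hv => (Submodule.mem_iInf _).1 hv c, fun v hv => (Submodule.mem_iInf _).2 hv⟩
  have ind : ∀ p : ℤ → Prop, (∀ j, j₀ ≤ j → p j) → (∀ j, p (j + 1) → p j) → ∀ j, p j :=
    fun p a b j => by
      rcases le_total j₀ j with h | h
      · exact a j h
      · induction j, h using Int.leInductionDown with
        | base => exact a _ le_rfl
        | pred n _ ih => exact b _ (by rwa [sub_add_cancel])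
  refine ⟨M, ind _ (fun j h => h1 j h ▸ hfin j) fun j h => finite_of_maps hx (h3 j).1, ?_, ?_, h1⟩
  · rintro i _ rfl
    exact h3 i
  · rintro i _ rfl
    refine ind (fun i => ∀ v ∈ M i, e v ∈ M (i + 2)) (fun j h => ?_) (fun j h v hv => ?_) i
    · rw [h1 j h, h1 _ (by omega)]
      exact heZ j _ h rfl
    · refine (h3 _).2 _ fun c => ?_
      rw [← he, add_right_comm]
      exact h _ ((h3 j).1 c v hv)

/-- the localisation: a Koszul system receiving `Z / B` -/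
theorem exists_ext (hx : Kos x) (Z B : ℤ → Submodule K V) (j₀ : ℤ) (hZ : GoodFrom x Z j₀)
    (hB : GoodFrom x B j₀) (hle : ∀ j, B j ≤ Z j) (hfin : ∀ j, FiniteDimensional K (Z j))
    (pr : ℤ → V →ₗ[K] V) (hp : ∀ j, ∀ v ∈ Z j, pr j v = v)
    (hp' : ∀ i j, i ≠ j → ∀ v ∈ Z i, pr j v = 0) (e : V →ₗ[K] V) (he : Comm x e)
    (heZ : ShiftFrom e Z Z 2 j₀) (heB : ShiftFrom e B B 2 j₀) :
    ∃ (V' : Type) (_ : AddCommGroup V') (_ : Module K V') (x' : Fin 3 → V' →ₗ[K] V')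
      (θ : V →ₗ[K] V') (e' : V' →ₗ[K] V') (M : ℤ → Submodule K V'),
      Kos x' ∧ (∀ c v, θ (x c v) = x' c (θ v)) ∧ (∀ v, θ (e v) = e' (θ v)) ∧ Comm x' e' ∧
      (∀ j, FiniteDimensional K (M j)) ∧
      (∀ i j, i + 1 = j → Maps x' (M i) (M j) ∧ Sat x' (M i) (M j)) ∧
      (∀ i j, i + 2 = j → ∀ v ∈ M i, e' v ∈ M j) ∧
      (∀ j, j₀ ≤ j → M j = (Z j).map θ) ∧ ∀ j, j₀ ≤ j → ∀ v ∈ Z j, (θ v = 0 ↔ v ∈ B j) := by
  obtain ⟨Bt, hBt⟩ : ∃ Bt : Submodule K V, Bt = ⨆ i : {i // j₀ ≤ i}, B i := ⟨_, rfl⟩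
  have b0 : ∀ j, j₀ ≤ j → B j ≤ Bt := fun j h => hBt ▸ le_iSup (fun i : {i // j₀ ≤ i} => B i) ⟨j, h⟩
  have b1 : ∀ c, Bt ≤ Bt.comap (x c) := fun c => hBt.le.trans (iSup_le fun i v hv =>
    b0 (i + 1) (by have := i.2; omega) ((hB i _ i.2 rfl).maps c v hv))
  have b2 : Bt ≤ Bt.comap e := hBt.le.trans (iSup_le fun i v hv =>
    b0 (i + 2) (by have := i.2; omega) (heB i _ i.2 rfl v hv))
  have b3 : ∀ j, Bt ≤ (B j).comap (pr j) := fun j => hBt.le.trans (iSup_le fun i v hv => by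
    rw [Submodule.mem_comap]
    by_cases h : i.1 = j
    · subst h
      rwa [hp _ v (hle _ hv)]
    · rw [hp' _ _ h v (hle _ hv)]
      exact zero_mem _)
  obtain ⟨V', _, _, x', ι, e', k1, k2, k3, k4, k5⟩ := hword_loc
    (x := fun c => Bt.mapQ Bt (x c) (b1 c)) (e := Bt.mapQ Bt e b2) (fun v => by
      obtain ⟨v, rfl⟩ := Bt.mkQ_surjective v
      have := congrArg Bt.mkQ (hx.sq v)
      rwa [map_sum, map_zero] at this) fun c v => by
      obtain ⟨v, rfl⟩ := Bt.mkQ_surjective v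
      exact congrArg Bt.mkQ (he c v)
  obtain ⟨θ, hθ⟩ : ∃ θ, θ = ι ∘ₗ Bt.mkQ := ⟨_, rfl⟩
  have t1 : ∀ c v, θ (x c v) = x' c (θ v) := fun c v => hθ ▸ k2 c (Bt.mkQ v)
  have t2 : ∀ v, θ (e v) = e' (θ v) := fun v => hθ ▸ k3 (Bt.mkQ v)
  have t3 : ∀ j, j₀ ≤ j → ∀ v ∈ Z j, (θ v = 0 ↔ v ∈ B j) := fun j hj v hv => by
    subst hθ
    refine ⟨fun h => ?_, fun h => ?_⟩
    · obtain ⟨N, hN⟩ := k5 _ h
      refine hword_down hB N hj fun u hu => ?_
      have h1 := hN u hu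
      rw [← hword_act_map (x := x) (θ := Bt.mkQ) fun _ _ => rfl] at h1
      have h2 := b3 (j + N) ((Submodule.Quotient.mk_eq_zero _).1 h1)
      rwa [Submodule.mem_comap, hp _ _ (hu ▸ hword_mem hZ u hj hv)] at h2
    · rw [LinearMap.comp_apply, Bt.mkQ_apply, (Submodule.Quotient.mk_eq_zero _).2 (b0 j hj h),
        map_zero]
  obtain ⟨M, m1, m2, m3, m4⟩ := hword_back k1 (fun j => (Z j).map θ) j₀ (by
    rintro i _ hi rfl
    refine ⟨?_, fun w hw => ?_⟩
    · rintro c _ ⟨v, hv, rfl⟩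
      exact ⟨_, (hZ i _ hi rfl).maps c v hv, t1 c v⟩
    · choose z hz hz' using hw
      have hi' : j₀ ≤ i + 1 := by omega
      obtain ⟨b, hb, hb'⟩ := (hB _ _ hi' rfl).gen _ ((t3 (i + 1 + 1) (by omega) (∑ c, x c (z c))
        (sum_mem fun c _ => (hZ _ _ hi' rfl).maps c _ (hz c))).1 (by
          simp only [map_sum, t1, hz', k1.sq]))
      obtain ⟨u, hu⟩ := hx.ex (fun c => z c - b c) (by
        simp only [map_sub, Finset.sum_sub_distrib, hb', sub_self])
      refine ⟨u, (hZ i _ hi rfl).sat u fun c => hu c ▸ sub_mem (hz c) (hle _ (hb c)),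
        sub_eq_zero.1 (k1.inj _ fun c => ?_)⟩
      rw [map_sub, ← t1, ← hu, map_sub, hz', (t3 _ hi' _ (hle _ (hb c))).2 (hb c), sub_zero,
        sub_self]) (fun j => inferInstance) k4 (by
    rintro i j hi hj _ ⟨v, hv, rfl⟩
    exact ⟨_, heZ i j hi hj v hv, t2 v⟩)
  exact ⟨V', inferInstance, inferInstance, x', θ, e', M, k1, t1, t2, k4, m1, m2, m3, m4, t3⟩

variable {k : Type} [Field k] [Algebra k K] [Module k V] [IsScalarTower k K V]

theorem nil_quot (R₀ R₁ : Subalgebra k K) [IsFractionRing R₀ K] [IsFractionRing R₁ K] (ϖ : K)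
    (hs : Sep R₀ R₁ ϖ) (hx : Kos x) (Z B : ℤ → Submodule K V) (j₀ : ℤ) (hZ : GoodFrom x Z j₀)
    (hB : GoodFrom x B j₀) (hle : ∀ j, B j ≤ Z j) (hfin : ∀ j, FiniteDimensional K (Z j))
    (pr : ℤ → V →ₗ[K] V) (hp : ∀ j, ∀ v ∈ Z j, pr j v = v)
    (hp' : ∀ i j, i ≠ j → ∀ v ∈ Z i, pr j v = 0) (e : V →ₗ[K] V) (he : Comm x e)
    (heZ : ShiftFrom e Z Z 2 j₀) (heB : ShiftFrom e B B 2 j₀)
    (Λ₀ : ℤ → Submodule R₀ V) (Λ₁ : ℤ → Submodule R₁ V) (f₀ : (Λ₀ j₀).FG) (f₁ : (Λ₁ j₀).FG)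
    (s₀ : Submodule.span K (Λ₀ j₀ : Set V) = Z j₀) (s₁ : Submodule.span K (Λ₁ j₀ : Set V) = Z j₀)
    (g₀ : ∀ i j, j₀ ≤ i → i + 1 = j → Gen x (Λ₀ i) (Λ₀ j))
    (g₁ : ∀ i j, j₀ ≤ i → i + 1 = j → Gen x (Λ₁ i) (Λ₁ j))
    (e₀ : ∀ i j, j₀ ≤ i → i + 2 = j → ∀ v ∈ Λ₀ i, ∃ w ∈ Λ₀ j, e v - w ∈ B j)
    (e₁ : ∀ i j, j₀ ≤ i → i + 2 = j → ∀ v ∈ Λ₁ i, ∃ w ∈ Λ₁ j, ϖ • e v - w ∈ B j) :
    ∃ m : ℕ, ShiftFrom (e ^ m) Z B (2 * m) j₀ := by
  obtain ⟨V', _, _, x', θ, e', M, k1, k2, k3, k4, k5, k6, k7, k8, k9⟩ :=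
    exists_ext hx Z B j₀ hZ hB hle hfin pr hp hp' e he heZ heB
  let _ : Module k V' := Module.compHom V' (algebraMap k K)
  have : IsScalarTower k K V' := ⟨fun a b v => by rw [Algebra.smul_def, mul_smul]; rfl⟩
  have gen : ∀ (R : Subalgebra k K) (P Q : Submodule R V), Gen x P Q →
      Gen x' (P.map (θ.restrictScalars R)) (Q.map (θ.restrictScalars R)) := by
    rintro R P Q h _ ⟨v, hv, rfl⟩
    obtain ⟨t, ht, rfl⟩ := h v hv
    exact ⟨fun c => θ (t c), fun c => ⟨_, ht c, rfl⟩, by simp [k2]⟩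
  have sp : ∀ (R : Subalgebra k K) (P : Submodule R V), Submodule.span K (P : Set V) = Z j₀ →
      Submodule.span K (P.map (θ.restrictScalars R) : Set V') = M j₀ := fun R P h => by
    rw [k8 _ le_rfl, ← h, Submodule.map_span]
    rfl
  obtain ⟨m, hm⟩ := nil_core R₀ R₁ ϖ hs k1 M k5 k6 j₀ e' k4 k7
    (fun j => (Λ₀ j).map (θ.restrictScalars R₀)) (fun j => (Λ₁ j).map (θ.restrictScalars R₁))
    (f₀.map _) (f₁.map _) (sp _ _ s₀) (sp _ _ s₁) (fun i j a b => gen _ _ _ (g₀ i j a b))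
    (fun i j a b => gen _ _ _ (g₁ i j a b)) (by
      rintro i j a b _ ⟨v, hv, rfl⟩
      obtain ⟨w, hw, h⟩ := e₀ i j a b v hv
      have := (k9 j (by omega) _ (hle _ h)).2 h
      rw [map_sub, sub_eq_zero, k3] at this
      exact ⟨w, hw, this.symm⟩) (by
      rintro i j a b _ ⟨v, hv, rfl⟩
      obtain ⟨w, hw, h⟩ := e₁ i j a b v hv
      have := (k9 j (by omega) _ (hle _ h)).2 h
      rw [map_sub, sub_eq_zero, map_smul, k3] at this
      exact ⟨w, hw, this.symm⟩)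
  have pw : ∀ n : ℕ, ∀ v ∈ Z j₀, (e ^ n) v ∈ Z (j₀ + 2 * n) ∧ θ ((e ^ n) v) = (e' ^ n) (θ v) := by
    intro n v hv
    induction n with
    | zero => simpa using hv
    | succ n ih =>
      rw [pow_succ', pow_succ', Module.End.mul_apply, Module.End.mul_apply, k3, ih.2]
      exact ⟨heZ _ _ (by omega) (by push_cast; ring) _ ih.1, rfl⟩
  refine ⟨m, shiftFrom_of_gen _ (he.pow m) Z B _ j₀ (fun i j a b => (hZ i j a b).gen)
    (fun i j a b => (hB i j (by omega) b).maps) fun v hv => ?_⟩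
  refine (k9 _ (by omega) _ (pw m v hv).1).1 ((pw m v hv).2.trans (hm _ ?_))
  rw [k8 _ le_rfl]
  exact ⟨v, hv, rfl⟩

end Pool.Agent.Work.MP_910138_ag.C0
end

-- merged part: Pool.Agent.Work.MP_910138_ag.C0.HCore
section
/-! The trace invariant lies in the sum of the two rings. -/

namespace Pool.Agent.Work.MP_910138_ag.C0

section
variable {K V : Type} [Field K] [AddCommGroup V] [Module K V] {x : Fin 3 → V →ₗ[K] V}
  {gr : ℤ → Submodule K V} {pr : ℤ → V →ₗ[K] V} {d γ e e₀ e₁ : V →ₗ[K] V}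
  {r s : ℤ → Fin 3 → V →ₗ[K] V}

section
variable {R : Type} [CommRing R] [IsDomain R] [IsPrincipalIdealRing R] [Algebra R K]
  [IsFractionRing R K] [Module R V] [IsScalarTower R K V] {Λ : ℤ → Submodule R V}

theorem hcore_lat (hA : Amb x gr pr d r s) (h : Lat R x gr d e r s Λ) :
    Lat K x gr d e r s gr where
  fg j := Module.Finite.iff_fg.1 (hA.fin j)
  span j := Submodule.span_eq _
  good := hA.good
  d_mem := hA.d_mem
  e_mem := h.e_gr
  comm := h.comm
  anti := h.anti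
  r_mem := hA.r_mem
  s_mem := hA.s_mem

omit [IsDomain R] [IsPrincipalIdealRing R] [IsFractionRing R K] in
theorem hcore_r (h : Lat R x gr d e r s Λ) {j : ℤ} (hj : 0 ≤ j) :
    ∀ v ∈ Λ (j + 2), (r j 0 ∘ₗ r (j + 1) 0) v ∈ Λ j := fun v hv =>
  h.r_mem j hj 0 _ (h.r_mem (j + 1) (by omega) 0 v (by rwa [add_assoc, one_add_one_eq_two]))

omit [IsDomain R] [IsPrincipalIdealRing R] [IsFractionRing R K] in
theorem hcore_s (h : Lat R x gr d e r s Λ) {j : ℤ} (hj : 0 ≤ j) :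
    ∀ v ∈ Λ (j + 1 + 2), (s j 0 ∘ₗ s (j + 1) 0) v ∈ Λ (j + 1) := fun v hv => by
  have h1 := h.s_mem (j + 1) (by omega) 0 v hv
  rw [add_assoc, one_add_one_eq_two] at h1
  exact h.s_mem j hj 0 _ h1

theorem hcore_tr (h : Lat R x gr d e r s Λ) {j : ℤ} (hj : 0 ≤ j) {f : V →ₗ[K] V}
    (hf : ∀ v ∈ Λ (j + 2), f v ∈ Λ j) : trOn (gr j) (f ∘ₗ e) ∈ (algebraMap R K).range := by
  rw [← h.span]
  exact trOn_mem (Λ j) (h.fg j) fun v hv => hf _ (h.e_mem j _ hj rfl v hv)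

omit [IsDomain R] [IsPrincipalIdealRing R] [IsFractionRing R K] in
theorem hcore_adm (h : Lat R x gr d e r s Λ) {j : ℤ} (hj : 0 ≤ j) {σ : Fin 3 → V →ₗ[K] V}
    {β : V →ₗ[K] V} (hβ : ∀ v ∈ gr (j + 2), β v ∈ gr j ∧ ∀ c, σ c v - x c (β v) = s j c v) :
    Adm x σ (Λ (j + 1)) (Λ (j + 2)) β := fun v hv c => by
  rw [(hβ v (by rw [← h.span]; exact Submodule.subset_span hv)).2 c]
  exact h.s_mem j hj c v hv

end

theorem hcore_flag (n : ℕ) : hchain_L d e gr (1 : K) n = flag d e gr n := by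
  rw [hchain_L, map_one, one_smul, flag]

theorem hcore_key {ϖ : K} (hγs : ShiftFrom γ gr gr 2 0) (he : d ∘ₗ γ - γ ∘ₗ d = e₀ - e₁) {i j : ℤ}
    (hi : 0 ≤ i) (hj : i + 2 = j) {z : V} (hz : z ∈ kerF K d gr i) :
    ϖ • e₀ z - (ϖ • e₁) z ∈ imF K d gr j := by
  have h1 : d z = 0 := hz.2
  have h2 := LinearMap.congr_fun he z
  simp only [LinearMap.sub_apply, LinearMap.comp_apply, h1, map_zero, sub_zero] at h2
  rw [LinearMap.smul_apply, ← smul_sub, ← h2]
  exact Submodule.smul_mem _ _ ⟨γ z, hγs i j hi hj z hz.1, rfl⟩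

theorem hcore_pow {ϖ : K} (L₀ : Lat K x gr d e₀ r s gr) (L₁ : Lat K x gr d (ϖ • e₁) r s gr)
    (hγs : ShiftFrom γ gr gr 2 0) (he : d ∘ₗ γ - γ ∘ₗ d = e₀ - e₁) {i : ℤ} (hi : 0 ≤ i) {z : V}
    (hz : z ∈ kerF K d gr i) (n : ℕ) :
    ((ϖ • e₁) ^ n) z - ϖ ^ n • (e₀ ^ n) z ∈ imF K d gr (i + 2 * n) := by
  induction n with
  | zero => simp
  | succ n ih =>
    have h0 : i + 2 * (n : ℤ) + 2 = i + 2 * ((n + 1 : ℕ) : ℤ) := by push_cast; ring
    have h1 := hchain_eB L₁ _ _ (by omega) h0 _ ih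
    have h2 := hcore_key (ϖ := ϖ) hγs he (by omega) h0 (hchain_powZ L₀ n i _ hi rfl z hz)
    have h3 := sub_mem h1 (Submodule.smul_mem _ (ϖ ^ n) h2)
    rw [map_sub, map_smul, smul_sub, sub_sub, add_sub_cancel, smul_smul] at h3
    rw [pow_succ' (ϖ • e₁), pow_succ' e₀, pow_succ ϖ, Module.End.mul_apply, Module.End.mul_apply]
    exact h3

theorem hcore_flag_eq {ϖ : K} (hϖ : ϖ ≠ 0) (L₀ : Lat K x gr d e₀ r s gr)
    (L₁ : Lat K x gr d (ϖ • e₁) r s gr) (hγs : ShiftFrom γ gr gr 2 0)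
    (he : d ∘ₗ γ - γ ∘ₗ d = e₀ - e₁) {i : ℤ} (hi : 0 ≤ i) (n : ℕ) :
    flag d (ϖ • e₁) gr n i = flag d e₀ gr n i := by
  ext z
  refine and_congr_right fun hz => ?_
  have h1 := hcore_pow L₀ L₁ hγs he hi hz n
  change ((ϖ • e₁) ^ n) z ∈ imF K d gr (i + 2 * n) ↔ (e₀ ^ n) z ∈ imF K d gr (i + 2 * n)
  rw [← Submodule.smul_mem_iff _ (pow_ne_zero n hϖ) (x := (e₀ ^ n) z)]
  refine ⟨fun h => ?_, fun h => ?_⟩
  · have h2 := sub_mem h h1
    rwa [sub_sub_cancel] at h2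
  · have h2 := add_mem h1 h
    rwa [sub_add_cancel] at h2

theorem hcore_split {ϖ : K} (hϖ : ϖ ≠ 0) (L₀ : Lat K x gr d e₀ r s gr)
    (L₁ : Lat K x gr d (ϖ • e₁) r s gr) {j : ℤ} (hj : 0 ≤ j) {f : V →ₗ[K] V}
    (hf : ∀ v ∈ gr (j + 2), f v ∈ gr j) : trOn (gr j) (f ∘ₗ (e₀ - e₁)) =
      trOn (gr j) (f ∘ₗ e₀) - ϖ⁻¹ * trOn (gr j) (f ∘ₗ (ϖ • e₁)) := by
  have h0 : ∀ v ∈ gr j, (f ∘ₗ e₀) v ∈ gr j := fun v hv => hf _ (L₀.e_mem j _ hj rfl v hv)
  have h1 : ∀ v ∈ gr j, (f ∘ₗ (ϖ • e₁)) v ∈ gr j := fun v hv => hf _ (L₁.e_mem j _ hj rfl v hv)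
  rw [← trOn_smul h1, ← trOn_sub h0 fun v hv => Submodule.smul_mem _ _ (h1 v hv),
    ← LinearMap.comp_smul, inv_smul_smul₀ hϖ, LinearMap.comp_sub]

end

variable {k K V : Type} [Field k] [Field K] [Algebra k K] [AddCommGroup V] [Module K V]
  [Module k V] [IsScalarTower k K V] {x : Fin 3 → V →ₗ[K] V}
  {gr : ℤ → Submodule K V} {pr : ℤ → V →ₗ[K] V} {d γ e₀ e₁ : V →ₗ[K] V}
  {r s : ℤ → Fin 3 → V →ₗ[K] V}

theorem hcore_nil {R₀ R₁ : Subalgebra k K} [IsFractionRing R₀ K] [IsFractionRing R₁ K]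
    [IsPrincipalIdealRing R₀] [IsPrincipalIdealRing R₁] {ϖ : K}
    (hs : Sep R₀ R₁ ϖ) (hA : Amb x gr pr d r s) {Λ₀ : ℤ → Submodule R₀ V}
    {Λ₁ : ℤ → Submodule R₁ V} (h₀ : Lat R₀ x gr d e₀ r s Λ₀) (h₁ : Lat R₁ x gr d (ϖ • e₁) r s Λ₁)
    (hγs : ShiftFrom γ gr gr 2 0) (he : d ∘ₗ γ - γ ∘ₗ d = e₀ - e₁) :
    ∃ (m : ℕ) (j₀ : ℤ), 0 ≤ j₀ ∧ ShiftFrom (e₀ ^ m) (kerF K d gr) (imF K d gr) (2 * m) j₀ := by
  have L₀ := hcore_lat hA h₀
  obtain ⟨a1, b1⟩ := hchain_egZ hA L₀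
  obtain ⟨a2, b2⟩ := hchain_egB hA L₀
  obtain ⟨a3, b3⟩ := hchain_egZ hA h₀
  obtain ⟨a4, b4⟩ := hchain_egZ hA h₁
  obtain ⟨j₀, c0, c1, c2, c3, c4⟩ : ∃ j₀, 0 ≤ j₀ ∧ a1 ≤ j₀ ∧ a2 ≤ j₀ ∧ a3 ≤ j₀ ∧ a4 ≤ j₀ :=
    ⟨max 0 (max a1 (max a2 (max a3 a4))), by omega, by omega, by omega, by omega, by omega⟩
  have hB : ∀ j, 0 ≤ j → kerF K d gr j ⊓ imF K d gr j = imF K d gr j := fun j hj =>
    inf_eq_right.2 (hchain_BZ hA L₀ j hj)
  obtain ⟨m, hm⟩ := nil_quot R₀ R₁ ϖ hs hA.kos (kerF K d gr)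
    (fun j => kerF K d gr j ⊓ imF K d gr j) j₀ (b1.mono c1)
    (fun i j hi hj => by
      beta_reduce
      rw [hB i (by omega), hB j (by omega)]
      exact b2 i j (by omega) hj)
    (fun j => inf_le_left)
    (fun j => haveI := hA.fin j; Submodule.finiteDimensional_of_le (S₂ := gr j) inf_le_left)
    pr (fun j v hv => hA.pr_self j v hv.1) (fun i j hij v hv => hA.pr_ne i j hij v hv.1) e₀ h₀.comm
    ((hchain_eZ L₀).mono c0)
    (fun i j hi hj v hv => ⟨hchain_eZ L₀ i j (by omega) hj v hv.1,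
      hchain_eB L₀ i j (by omega) hj v hv.2⟩)
    (kerF R₀ d Λ₀) (kerF R₁ d Λ₁) (hchain_fg h₀ inf_le_left) (hchain_fg h₁ inf_le_left)
    (h₀.span_kerF j₀) (h₁.span_kerF j₀) (fun i j hi hj => (b3 i j (by omega) hj).gen)
    (fun i j hi hj => (b4 i j (by omega) hj).gen)
    (fun i j hi hj v hv => ⟨e₀ v, hchain_eZ h₀ i j (by omega) hj v hv, by
      rw [sub_self]; exact zero_mem _⟩)
    (fun i j hi hj v hv => ⟨(ϖ • e₁) v, hchain_eZ h₁ i j (by omega) hj v hv, by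
      rw [hB j (by omega)]
      refine hcore_key hγs he (by omega) hj ?_
      rw [← h₁.span_kerF]
      exact Submodule.subset_span hv⟩)
  exact ⟨m, j₀, c0, fun i j hi hj v hv => (hm i j hi hj v hv).2⟩

theorem core (R₀ R₁ : Subalgebra k K) [IsFractionRing R₀ K] [IsFractionRing R₁ K]
    [IsPrincipalIdealRing R₀] [IsPrincipalIdealRing R₁] (ϖ : K) (hϖ : ϖ ≠ 0)
    (hs : Sep R₀ R₁ ϖ) (hA : Amb x gr pr d r s) (Λ₀ : ℤ → Submodule R₀ V)
    (Λ₁ : ℤ → Submodule R₁ V) (h₀ : Lat R₀ x gr d e₀ r s Λ₀) (h₁ : Lat R₁ x gr d (ϖ • e₁) r s Λ₁)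
    (hγ : Comm x γ) (hγs : ShiftFrom γ gr gr 2 0) (he : d ∘ₗ γ - γ ∘ₗ d = e₀ - e₁) :
    ∃ a ∈ R₀, ∃ b ∈ R₁, TT gr d γ r s 0 = a + ϖ⁻¹ * b := by
  have L₀ := hcore_lat hA h₀
  have L₁ := hcore_lat hA h₁
  have form : ∀ j, 0 ≤ j → ∀ f : V →ₗ[K] V, (∀ v ∈ gr (j + 2), f v ∈ gr j) →
      trOn (gr j) (f ∘ₗ e₀) ∈ (algebraMap R₀ K).range →
      trOn (gr j) (f ∘ₗ (ϖ • e₁)) ∈ (algebraMap R₁ K).range →
      ∃ a ∈ R₀, ∃ b ∈ R₁, trOn (gr j) (f ∘ₗ (d ∘ₗ γ - γ ∘ₗ d)) = a + ϖ⁻¹ * b := by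
    rintro j hj f hf ⟨a, ha⟩ ⟨b, hb⟩
    refine ⟨a, a.2, -b, neg_mem b.2, ?_⟩
    rw [he, hcore_split hϖ L₀ L₁ hj hf, ← ha, ← hb, mul_neg, sub_eq_add_neg]
    rfl
  have down : ∀ n : ℕ, (∃ a ∈ R₀, ∃ b ∈ R₁, TT gr d γ r s n = a + ϖ⁻¹ * b) →
      ∃ a ∈ R₀, ∃ b ∈ R₁, TT gr d γ r s 0 = a + ϖ⁻¹ * b := by
    intro n
    induction n with
    | zero => exact id
    | succ n ih =>
      rintro ⟨a, ha, b, hb, h⟩
      have hn : (0 : ℤ) ≤ n := Int.natCast_nonneg n
      have hn' : (0 : ℤ) ≤ n + 1 := by omega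
      obtain ⟨a1, ha1, b1, hb1, k1⟩ := form n hn _ (hcore_r L₀ hn)
        (hcore_tr h₀ hn (hcore_r h₀ hn)) (hcore_tr h₁ hn (hcore_r h₁ hn))
      obtain ⟨a2, ha2, b2, hb2, k2⟩ := form (n + 1) hn' _ (hcore_s L₀ hn)
        (hcore_tr h₀ hn' (hcore_s h₀ hn)) (hcore_tr h₁ hn' (hcore_s h₁ hn))
      have k3 := hA.TT_succ hγ hγs hn
      rw [LinearMap.comp_assoc] at k1 k2
      rw [Nat.cast_succ] at h
      rw [k1, k2, h] at k3
      refine ih ⟨a1 - a2 - a, sub_mem (sub_mem ha1 ha2) ha, b1 - b2 - b,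
        sub_mem (sub_mem hb1 hb2) hb, ?_⟩
      linear_combination k3
  obtain ⟨m, j₀, hj₀, hm⟩ := hcore_nil hs hA h₀ h₁ hγs he
  have hm' : ShiftFrom ((ϖ • e₁) ^ m) (kerF K d gr) (imF K d gr) (2 * m) j₀ := by
    rintro i _ hi rfl v hv
    have h1 := add_mem (hcore_pow L₀ L₁ hγs he (hj₀.trans hi) hv m)
      (Submodule.smul_mem _ (ϖ ^ m) (hm i _ hi rfl v hv))
    rwa [sub_add_cancel] at h1
  obtain ⟨j₁, l₁⟩ := loc_mem hA h₀ m j₀ hm
  obtain ⟨j₂, l₂⟩ := loc_mem hA h₁ m j₀ hm'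
  have hg : ∀ᶠ j : ℤ in Filter.atTop, ∀ n ∈ Finset.range (m + 1),
      Gen x (flag d e₀ gr n (j + 1)) (flag d e₀ gr n (j + 2)) := by
    refine (Filter.eventually_all_finset _).2 fun n _ => ?_
    obtain ⟨a, ha⟩ := hchain_eg hA L₀ 1 n
    rw [hcore_flag] at ha
    filter_upwards [Filter.eventually_ge_atTop a] with j hj
    exact (ha (j + 1) _ (by omega) (by ring)).gen
  obtain ⟨j, g1, g2, g3, g4⟩ := (hg.and ((Filter.eventually_ge_atTop j₀).and
    ((Filter.eventually_ge_atTop j₁).and (Filter.eventually_ge_atTop j₂)))).exists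
  have hj : 0 ≤ j := hj₀.trans g2
  have mono : ∀ i, 0 ≤ i → Monotone fun n => flag d e₀ gr n i := fun i hi =>
    monotone_nat_of_le_succ fun n => by
      have := hchain_le L₀ 1 n hi
      rwa [hcore_flag, hcore_flag] at this
  have bot : ∀ i, 0 ≤ i → flag d e₀ gr 0 i = (gr i).map d := fun i hi => by
    rw [← hcore_flag]
    exact hchain_bot hA L₀ hi
  have top : ∀ i, j₀ ≤ i → flag d e₀ gr m i = gr i ⊓ LinearMap.ker d := fun i hi =>
    inf_eq_left.2 fun v hv => hm i _ hi rfl v hv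
  obtain ⟨σ, s1, s2, s3⟩ := exists_sec_flag d hA.comm hA.sq (gr (j + 1)) (gr (j + 2))
    (hsig_d hA (by omega)) (hsig_d hA (by omega)) (hA.good (j + 1) _ (by omega) (by ring)).gen m
    _ _ (mono (j + 1) (by omega)) (mono (j + 2) (by omega)) (bot _ (by omega)) (bot _ (by omega))
    (top _ (by omega)) (top _ (by omega)) fun n hn => g1 n (Finset.mem_range.2 (by omega))
  obtain ⟨β, t1, t2⟩ := hA.TT_eq hγs hj σ s1 s2
  have u := form j hj β (fun v hv => (t1 v hv).1) (l₁ j g3 σ β s1 s2 s3 (hcore_adm h₀ hj t1))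
    (l₂ j g4 σ β s1 s2 (fun n hn => by
      rw [hcore_flag_eq hϖ L₀ L₁ hγs he (by omega), hcore_flag_eq hϖ L₀ L₁ hγs he (by omega)]
      exact s3 n hn) (hcore_adm h₁ hj t1))
  rw [← t2] at u
  obtain ⟨n, rfl⟩ := Int.eq_ofNat_of_zero_le hj
  exact down n u

end Pool.Agent.Work.MP_910138_ag.C0
end

-- merged part: Pool.Agent.Work.MP_910138_ag.C0.HMain
section
/-! The ghost lemma. -/

open TensorProduct

namespace Pool.Agent.Work.MP_910138_ag.C0

variable {k : Type} [Field k] {G : Type} [Fintype G] (lab : G → Lb)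

section aux

variable {K P : Type} [Field K] [Algebra k K] [Ring P] [Algebra k P] (Q : PiData k P)
  {r s : ℤ → Fin 3 → P →ₗ[k] P}

theorem hmain_li (t : Lb) : li t = 0 ∨ li t = 1 := by
  have := t.1.2
  unfold li
  omega

theorem hmain_neg {n : ℤ} (h : n < 0) {y : K ⊗[k] P} (hy : y ∈ (Q.gr n).baseChange K) : y = 0 := by
  rwa [Q.gr_neg h, Submodule.baseChange_bot, Submodule.mem_bot] at hy

theorem hmain_zero {y : K ⊗[k] P} (hy : y ∈ (Q.gr 0).baseChange K) : ∃ c : K, c • 1 = y := by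
  have e : Q.gr 0 = Submodule.span k {1} := by
    ext p
    rw [Q.mem_gr_zero, Submodule.mem_span_singleton]
    exact exists_congr fun _ => eq_comm
  rwa [e, Submodule.baseChange_span, Set.image_singleton, Submodule.mem_span_singleton] at hy

theorem hmain_one {y : K ⊗[k] P} (hy : y ∈ (Q.gr 1).baseChange K) :
    ∃ c : Fin 3 → K, ∑ a, c a • ((1 : K) ⊗ₜ[k] Q.x a) = y := by
  have e : Q.gr 1 = Submodule.span k (Set.range Q.x) := by
    ext p
    rw [Q.mem_gr_one, Submodule.mem_span_range_iff_exists_fun]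
    exact exists_congr fun _ => eq_comm
  rwa [e, Submodule.baseChange_span, ← Set.range_comp,
    Submodule.mem_span_range_iff_exists_fun] at hy

theorem hmain_rs (hs : Q.Split r s) {v : P} (hv : v ∈ Q.gr 2) : ∑ c, r 1 c (s 1 c v) = 0 := by
  refine Q.kos.inj _ fun a => ?_
  have h1 := Finset.sum_congr (rfl : (Finset.univ : Finset (Fin 3)) = _) fun b _ =>
    hs.split 1 zero_le_one a b _ (hs.s_mem 1 2 rfl b v hv)
  rw [Finset.sum_add_distrib, ← Finset.mul_sum, ← map_sum, hs.x_s 1 2 zero_le_one rfl v hv,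
    Finset.sum_ite_eq, if_pos (Finset.mem_univ a), add_eq_right] at h1
  exact h1

theorem hmain_eul_zero {m : ℤ} {a : AF k} (ha : a ∈ Asub k 0 m) : eul k a = 0 := by
  rw [Asub_zero ha, map_smul, eul_one, smul_zero]

variable [HasVar k K]

theorem hmain_rho_lt (a : Fin 3) : Q.rho K (lt k a) = (1 : K) ⊗ₜ[k] Q.x a := by
  have := Q.rho_smul_wd (K := K) 1 (FreeMonoid.of a)
  rwa [one_smul, map_one] at this

theorem hmain_term_one (hs : Q.Split r s) {g : K ⊗[k] P} (hg : g ∈ Q.WP K Set.univ 2) {m : ℤ}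
    {a : AF k} (ha : a ∈ Asub k 0 m) :
    ∑ c, (r 1 c).baseChange K ((s 1 c).baseChange K g * Q.rho K a) = 0 := by
  have h1 : (∑ c, r 1 c ∘ₗ s 1 c).baseChange K g = 0 :=
    hmain_neg Q (n := -1) (by norm_num) (Q.WP_le_baseChange _ _ (Q.baseChange_mem_WP _
      (fun p hp => by
        rw [LinearMap.sum_apply]
        exact (hmain_rs Q hs hp) ▸ zero_mem _) hg))
  rw [Fin.sum_univ_three, LinearMap.baseChange_add, LinearMap.baseChange_add,
    LinearMap.baseChange_comp, LinearMap.baseChange_comp, LinearMap.baseChange_comp] at h1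
  rw [Asub_zero ha, Q.rho_smul, map_one (Q.rho K)]
  simp only [mul_smul_comm, mul_one, map_smul]
  rw [← Finset.smul_sum, Fin.sum_univ_three]
  exact (congrArg _ h1).trans (smul_zero _)

theorem hmain_term_zero (hs : Q.Split r s) (L : K ⊗[k] P →ₗ[K] K)
    (hL : ∀ a, L (Q.rho K a) = Polynomial.aeval (ww k K) ((tau k).toL a))
    {g : K ⊗[k] P} (hg : g ∈ Q.WP K Set.univ 1) {m : ℤ} {a : AF k} (ha : a ∈ Asub k 1 m) :
    ∑ c, (r 1 c).baseChange K ((s 0 c).baseChange K g * Q.rho K a) =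
      L (g * Q.rho K (eul k a)) • 1 := by
  obtain ⟨v, rfl⟩ := hmain_one Q (Q.WP_le_baseChange _ _ hg)
  obtain ⟨p, rfl⟩ : ∃ p : Fin 3 → Polynomial k, a = ∑ c, p c • lt k c := ⟨_, Asub_one ha⟩
  have h1 : ∀ c, (s 0 c).baseChange K (∑ a, v a • ((1 : K) ⊗ₜ[k] Q.x a)) = v c • 1 := fun c => by
    simp only [map_sum, map_smul, LinearMap.baseChange_tmul, hs.s_zero, tmul_ite,
      smul_ite, smul_zero, Finset.sum_ite_eq', Finset.mem_univ, if_true]
    rfl
  have h2 : ∀ c, (r 1 c).baseChange K (Q.rho K (∑ b, p b • lt k b)) =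
      if c = 0 then Polynomial.aeval (ww k K) (p 0) • 1 else 0 := fun c => by
    simp only [map_sum, Q.rho_smul, hmain_rho_lt, map_smul, LinearMap.baseChange_tmul, hs.r_one,
      ite_and, tmul_ite, smul_ite, smul_zero, Finset.sum_ite_eq', Finset.mem_univ,
      if_true]
    rfl
  have h3 : eul k (∑ c, p c • lt k c) = p 0 • lt k 0 := by
    simp only [map_sum, map_smul, eul_lt, smul_ite, smul_zero, Finset.sum_ite_eq', Finset.mem_univ,
      if_true]
  have h4 : ∀ a, L (((1 : K) ⊗ₜ[k] Q.x a) * Q.rho K (lt k 0)) = if a = 0 then 1 else 0 :=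
    fun a => by
      rw [← hmain_rho_lt, ← map_mul, hL, tau_lt_lt]
      split_ifs with e
      · simp [e]
      · simp
  simp only [h1, smul_mul_assoc, one_mul, map_smul, h2, h3]
  simp only [Q.rho_smul, Finset.sum_mul, smul_mul_assoc, map_smul,
    mul_smul_comm, map_sum, h4, smul_ite, smul_zero, Finset.sum_ite_eq', Finset.mem_univ, if_true,
    smul_smul, smul_eq_mul, mul_ite, mul_one, mul_zero]
  rw [mul_comm]

end aux

theorem TT_zero {K P : Type} [Field K] [Algebra k K] [HasVar k K] [Ring P] [Algebra k P] (Q : PiData k P) {r s : ℤ → Fin 3 → P →ₗ[k] P}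
    (hs : Q.Split r s) (D : Matrix G G (AF k)) (hD : ∀ x y, D x y ∈ AS k (lab x) (lab y))
    (L : K ⊗[k] P →ₗ[K] K)
    (hL : ∀ a, L (Q.rho K a) = Polynomial.aeval (ww k K) ((tau k).toL a))
    (γ : Matrix G G (K ⊗[k] P))
    (hγ : ∀ y x, γ y x ∈ Q.WP K Set.univ (li (lab x) + 2 - li (lab y))) :
    TT (Q.grV K lab) (opM (D.map (Q.rho K))) (opM γ) (splV K lab r) (splV K lab s) 0 =
      ∑ x, ∑ y, L (γ y x * Q.rho K (eul k (D x y))) := by
  classical
  have hone : ∀ c c' : K, c • (1 : K ⊗[k] P) = c' • 1 → c = c' := fun c c' e => by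
    have h1 := congrArg (fun z => L (z * Q.rho K (lt k 0 * lt k 0))) e
    simpa only [smul_mul_assoc, one_mul, map_smul, hL, tau_lt_lt, if_true, Matrix.cons_val_zero,
      map_one, smul_eq_mul, mul_one] using h1
  obtain ⟨b, hb⟩ : ∃ b : {y // li (lab y) = 1} → G → K ⊗[k] P, b = fun y => Pi.single y.1 1 :=
    ⟨_, rfl⟩
  have hsum : ∀ (c : {y // li (lab y) = 1} → K) (z : G), (∑ j, c j • b j) z =
      if h : li (lab z) = 1 then c ⟨z, h⟩ • 1 else 0 := fun c z => by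
    rw [Finset.sum_apply, hb]
    split_ifs with h
    · rw [Finset.sum_eq_single_of_mem ⟨z, h⟩ (Finset.mem_univ _)]
      · simp
      · intro j _ hj
        have : z ≠ j.1 := fun e => hj (Subtype.ext e.symm)
        simp [this]
    · refine Finset.sum_eq_zero fun j _ => ?_
      have : z ≠ j.1 := fun e => h (e ▸ j.2)
      simp [this]
  have hrep : ∀ v ∈ Q.grV K lab 0, ∃ c : {y // li (lab y) = 1} → K, v = ∑ j, c j • b j := by
    intro v hv
    have h1 : ∀ j : {y // li (lab y) = 1}, ∃ c : K, c • 1 = v j.1 := fun j => by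
      have : v j.1 ∈ (Q.gr (0 - 1 + li (lab j.1))).baseChange K := hv j.1 trivial
      rw [j.2] at this
      exact hmain_zero Q this
    choose c hc using h1
    refine ⟨c, funext fun z => ?_⟩
    rw [hsum]
    split_ifs with h
    · exact (hc ⟨z, h⟩).symm
    · refine hmain_neg Q ?_ (hv z trivial)
      have := hmain_li (lab z)
      omega
  have hF : ∀ (y : {y // li (lab y) = 1}) (z : G),
      (conn (opM (D.map (Q.rho K))) (splV K lab r) (splV K lab s) 0 ∘ₗ opM γ) (b y) z =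
        ∑ x, ∑ c, (r (li (lab z)) c).baseChange K
          ((s (li (lab x)) c).baseChange K (γ y x) * Q.rho K (D x z)) := fun y z => by
    have h1 : opM γ (b y) = γ y := by
      rw [hb]
      exact Matrix.single_one_vecMul _ _
    rw [Finset.sum_comm, LinearMap.comp_apply, h1, conn, LinearMap.sum_apply, Finset.sum_apply]
    refine Finset.sum_congr rfl fun c _ => ?_
    rw [← map_sum]
    simp only [splV, diagV, zero_add]
    rfl
  have hmem : ∀ y : {y // li (lab y) = 1},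
      (conn (opM (D.map (Q.rho K))) (splV K lab r) (splV K lab s) 0 ∘ₗ opM γ) (b y) ∈
        Q.grV K lab 0 := fun y z _ => by
    rw [hF]
    refine sum_mem fun x _ => sum_mem fun c _ => Q.WP_le_baseChange Set.univ _
      (Q.baseChange_mem_WP _ (hs.r_mem _ _ (by ring) c) (Q.WP_mul (S := Set.univ)
        (n := li (lab x)) (by ring) (fun _ _ _ _ => Set.mem_univ _)
        (Q.baseChange_mem_WP _ (hs.s_mem _ _ ?_ c) (hγ y x)) (Q.rho_mem (hD x z))))
    rw [y.2]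
    ring
  choose M hM using fun y => hrep _ (hmem y)
  rw [TT, trOn_eq_sum b ?_ ?_ M hM, Finset.sum_comm,
    ← Finset.sum_subset (Finset.filter_subset (fun y => li (lab y) = 1) _),
    Finset.sum_subtype _ (p := fun y => li (lab y) = 1) (by simp)]
  · refine Finset.sum_congr rfl fun y _ => hone _ _ ?_
    have h1 := congrFun (hM y) y.1
    rw [hsum, dif_pos y.2, hF] at h1
    rw [← h1, Finset.sum_smul]
    refine Finset.sum_congr rfl fun x _ => ?_
    have h2 := hγ y x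
    have h3 : D x y ∈ Asub k _ _ := hD x y
    rw [y.2] at h2 h3 ⊢
    rcases hmain_li (lab x) with e | e <;> rw [e] at h2 h3 ⊢
    · exact hmain_term_zero Q hs L hL h2 h3
    · rw [hmain_term_one Q hs h2 h3, hmain_eul_zero h3, map_zero, mul_zero, map_zero, zero_smul]
  · intro y _ hy
    refine Finset.sum_eq_zero fun x _ => ?_
    have h3 : D x y ∈ Asub k _ _ := hD x y
    have e0 : li (lab y) = 0 := (hmain_li _).resolve_right (by simpa using hy)
    rw [e0] at h3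
    rcases hmain_li (lab x) with e | e <;> rw [e] at h3
    · rw [hmain_eul_zero h3, map_zero, mul_zero, map_zero]
    · rw [Asub_neg_left (by norm_num) h3, map_zero, map_zero, mul_zero, map_zero]
  · refine Fintype.linearIndependent_iff.2 fun c hc j => hone _ _ ?_
    have h1 := congrFun hc j.1
    rw [hsum, dif_pos j.2] at h1
    rw [zero_smul]
    exact h1
  · refine le_antisymm (Submodule.span_le.2 ?_) fun v hv => ?_
    · rintro _ ⟨y, rfl⟩ z -
      rw [hb]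
      by_cases e : z = y.1
      · simp only [e, Pi.single_eq_same, y.2]
        exact Submodule.tmul_mem_baseChange_of_mem 1 (Q.mem_gr_zero.2 ⟨1, (one_smul _ _).symm⟩)
      · simp only [Pi.single_eq_of_ne e]
        exact zero_mem _
    · obtain ⟨c, rfl⟩ := hrep v hv
      exact sum_mem fun j _ => Submodule.smul_mem _ _ (Submodule.subset_span ⟨j, rfl⟩)

theorem ghost (deg : G → ℤ) (D : Matrix G G (AF k)) (hD : ∀ x y, D x y ∈ AS k (lab x) (lab y))
    (hdeg : ∀ x y, D x y ≠ 0 → deg y = deg x + 1) (hDD : D * D = 0) : Ghost lab deg D := by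
  by_contra hn
  obtain ⟨P, _, _, ⟨Q⟩⟩ := exists_piData k
  obtain ⟨K, _, _, ⟨_⟩⟩ : ∃ (K : Type) (_ : Field K) (_ : Algebra k K), Nonempty (HasVar k K) :=
    ⟨_, _, _, nonempty_hasVar k⟩
  obtain ⟨r, s, hs⟩ := Q.exists_split
  obtain ⟨L, hL⟩ := Q.exists_extK (K := K) (tau_mem (k := k) (0, 0)).2
  obtain ⟨γ, e₀, e₁, hγ, h₀, h₁, he, a₀, a₁, hr⟩ := dual_step Q lab deg D hD hdeg hDD L hL hn
  have hD' : ∀ x y, (D.map (Q.rho K)) x y ∈
      Q.WP K (Set.Icc 0 (lk (lab y) - lk (lab x))) (li (lab y) - li (lab x)) :=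
    fun x y => Q.rho_mem (hD x y)
  have hDD' : D.map (Q.rho K) * D.map (Q.rho K) = 0 := by
    rw [← Matrix.map_mul, hDD, Matrix.map_zero _ (map_zero _)]
  obtain ⟨a, ha, b, hb, h⟩ := core (γ := opM γ) (Rz k K) (Ri k K) (ww k K ^ 2)
    (pow_ne_zero _ (ww_ne_zero k K)) (sep_Rz_Ri k K) (Q.amb lab hs hD' hDD') _ _
    (Q.lat_Z lab hs hD' h₀ a₀) (Q.lat_I lab hs hD' h₁ a₁) (Q.comm_opM γ)
    (Q.shift_opM lab γ 2 hγ 0) (by rw [← opM_mul, ← opM_mul, ← opM_sub, he, opM_sub])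
  rw [← TT_zero lab Q hs D hD L hL γ hγ, h, resK_eq_zero ha hb] at hr
  exact zero_ne_one hr

end Pool.Agent.Work.MP_910138_ag.C0
end
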