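import Pool.Agent.Work.MP_910138_ag.C0.LinBridge
import Pool.Agent.Work.MP_910138_ag.C0.MapT
import Pool.Agent.Work.MP_910138_ag.C0.ChainD
import Pool.Agent.Work.MP_910138_ag.C0.HMain
import Pool.Agent.Work.MP_910138_ag.C0.AinfB

-- merged part: Pool.Agent.Work.MP_910138_ag.C0.HFun
section
/-! Self-maps of the category of twisted complexes that are functors up to homotopy. -/

open CategoryTheory Limits Pretriangulated

namespace Pool.Agent.Work.MP_910138_ag.C0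

universe v u

variable {k R S : Type} [Field k] [Ring R] [Algebra k R]

/-- an exact linear autoequivalence up to homotopy -/
structure HFun (𝒞 : GCat k R S) where
  obj : Ob 𝒞 → Ob 𝒞
  map : ∀ {X Y : Ob 𝒞}, (X ⟶ Y) → (obj X ⟶ obj Y)
  map_id : ∀ X, map (𝟙 X) = 𝟙 _
  map_comp : ∀ {X Y Z : Ob 𝒞} (f : X ⟶ Y) (g : Y ⟶ Z), Htp (map (f ≫ g)) (map f ≫ map g)
  htp_iff : ∀ {X Y : Ob 𝒞} (f g : X ⟶ Y), Htp (map f) (map g) ↔ Htp f g
  surj : ∀ {X Y : Ob 𝒞} (g : obj X ⟶ obj Y), ∃ f, map f = g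
  ess : ∀ Y, ∃ X, Nonempty (obj X ≅ Y)
  σ : ∀ X, obj ((shFun 𝒞).obj X) ≅ (shFun 𝒞).obj (obj X)
  σ_nat : ∀ {X Y : Ob 𝒞} (f : X ⟶ Y),
    map ((shFun 𝒞).map f) ≫ (σ Y).hom = (σ X).hom ≫ (shFun 𝒞).map (map f)
  cone : ∀ {X Y : Ob 𝒞} (f : X ⟶ Y), ∃ c : obj (coneObj f) ≅ coneObj (map f),
    map (coneInr f) ≫ c.hom = coneInr (map f) ∧
      map (coneFst f) ≫ (σ X).hom = c.hom ≫ coneFst (map f)
  lin : ∀ (X : Ob 𝒞) (c : k), Htp (map (scal X c)) (scal (obj X) c)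

variable {𝒞 : GCat k R S} {A : Type u} [Category.{v} A] [Abelian A] [HasCoproductsOfShape ℤ A]
  [Linear k A] [HasDerivedCategory A]

/-- the induced functor to the derived category -/
noncomputable def HFun.G (𝒮 : HFun 𝒞) (Γ : Rep 𝒞 A) : Ob 𝒞 ⥤ DerivedCategory A where
  obj X := Γ.L.obj (𝒮.obj X)
  map f := Γ.L.map (𝒮.map f)
  map_id X := by rw [𝒮.map_id, Γ.L.map_id]
  map_comp f g := by rw [Γ.L_map_eq_of_htp (𝒮.map_comp f g), Γ.L.map_comp]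

theorem Rep.QFF.essImage_triang {Γ : Rep 𝒞 A} (hΓ : Γ.QFF) : Γ.L.essImage.IsTriangulated := by
  have := hΓ.full
  obtain ⟨e, he⟩ := Γ.exists_shift_cone
  exact essImage_isTriangulated Γ.L (shFun 𝒞) e (zeroOb 𝒞) Γ.isZero_zeroOb
    fun Z Z' f => ⟨_, _, _, he Z Z' f⟩

theorem hfun_full (𝒮 : HFun 𝒞) {Γ : Rep 𝒞 A} (hΓ : Γ.QFF) : (𝒮.G Γ).Full := by
  have := hΓ.full
  refine ⟨fun {X Y} φ => ?_⟩
  obtain ⟨g, hg⟩ := Γ.L.map_surjective (X := 𝒮.obj X) (Y := 𝒮.obj Y) φ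
  obtain ⟨f, rfl⟩ := 𝒮.surj g
  exact ⟨f, hg⟩

theorem hfun_ess (𝒮 : HFun 𝒞) (Γ : Rep 𝒞 A) : (𝒮.G Γ).essImage = Γ.L.essImage := by
  funext P
  refine propext ⟨?_, ?_⟩
  · rintro ⟨X, ⟨i⟩⟩
    exact ⟨𝒮.obj X, ⟨i⟩⟩
  · rintro ⟨Y, ⟨i⟩⟩
    obtain ⟨X, ⟨j⟩⟩ := 𝒮.ess Y
    exact ⟨X, ⟨Γ.L.mapIso j ≪≫ i⟩⟩

theorem hfun_scal (Γ : Rep 𝒞 A) (X : Ob 𝒞) (c : k) : Γ.L.map (scal X c) = c • 𝟙 _ := by
  change DerivedCategory.Q.map (Γ.Tot.map (scal X c)) = _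
  rw [Γ.Tot_map_scal, Functor.map_smul, CategoryTheory.Functor.map_id]
  rfl

/-- the commutation of the induced functor with the shift -/
noncomputable def hfun_eG (𝒮 : HFun 𝒞) (Γ : Rep 𝒞 A)
    (e : shFun 𝒞 ⋙ Γ.L ≅ Γ.L ⋙ shiftFunctor (DerivedCategory A) (1 : ℤ)) :
    shFun 𝒞 ⋙ 𝒮.G Γ ≅ 𝒮.G Γ ⋙ shiftFunctor (DerivedCategory A) (1 : ℤ) :=
  NatIso.ofComponents (fun Z => Γ.L.mapIso (𝒮.σ Z) ≪≫ e.app (𝒮.obj Z)) fun {X Y} f => by
    have h1 := e.hom.naturality (𝒮.map f)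
    change Γ.L.map ((shFun 𝒞).map (𝒮.map f)) ≫ e.hom.app (𝒮.obj Y) =
      e.hom.app (𝒮.obj X) ≫ (Γ.L.map (𝒮.map f))⟦(1 : ℤ)⟧' at h1
    change Γ.L.map (𝒮.map ((shFun 𝒞).map f)) ≫ Γ.L.map (𝒮.σ Y).hom ≫ e.hom.app (𝒮.obj Y) =
      (Γ.L.map (𝒮.σ X).hom ≫ e.hom.app (𝒮.obj X)) ≫ (Γ.L.map (𝒮.map f))⟦(1 : ℤ)⟧'
    rw [← Γ.L.map_comp_assoc, 𝒮.σ_nat, Γ.L.map_comp_assoc, h1, Category.assoc]

/-- transport of a distinguished triangle along an isomorphism of the third object -/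
theorem hfun_cone.{v₁, u₁, v₂, u₂} {T : Type u₁} [Category.{v₁} T] {D : Type u₂}
    [Category.{v₂} D] [HasZeroObject D] [Preadditive D] [HasShift D ℤ]
    [∀ n : ℤ, (shiftFunctor D n).Additive] [Pretriangulated D] (L : T ⥤ D)
    {X Y C C' S₁ S₂ : T} (f : X ⟶ Y) (i : Y ⟶ C) (p : C ⟶ S₁) (s : S₁ ⟶ S₂) (i' : Y ⟶ C')
    (p' : C' ⟶ S₂) (ε : L.obj S₂ ⟶ (L.obj X)⟦(1 : ℤ)⟧) (c : C ≅ C') (hi : i ≫ c.hom = i')
    (hp : p ≫ s = c.hom ≫ p')
    (h : Triangle.mk (L.map f) (L.map i') (L.map p' ≫ ε) ∈ distTriang D) :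
    Triangle.mk (L.map f) (L.map i) (L.map p ≫ L.map s ≫ ε) ∈ distTriang D := by
  refine isomorphic_distinguished _ h _
    (Triangle.isoMk _ _ (Iso.refl _) (Iso.refl _) (L.mapIso c) ?_ ?_ ?_)
  · exact (Category.comp_id (L.map f)).trans (Category.id_comp (L.map f)).symm
  · change L.map i ≫ L.map c.hom = 𝟙 (L.obj Y) ≫ L.map i'
    rw [Category.id_comp, ← L.map_comp, hi]
  · change (L.map p ≫ L.map s ≫ ε) ≫ (𝟙 (L.obj X))⟦(1 : ℤ)⟧' = L.map c.hom ≫ L.map p' ≫ ε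
    rw [CategoryTheory.Functor.map_id, Category.comp_id, ← L.map_comp_assoc, hp, L.map_comp_assoc]

theorem HFun.exists_exotic (𝒮 : HFun 𝒞) {Γ : Rep 𝒞 A} (hΓ : Γ.QFF)
    [Γ.L.essImage.IsTriangulated] :
    ∃ (F : Γ.L.essImage.FullSubcategory ⥤ Γ.L.essImage.FullSubcategory) (_ : F.CommShift ℤ),
      F.IsTriangulated ∧ F.IsEquivalence ∧
      (∀ (P Q : Γ.L.essImage.FullSubcategory) (c : k) (φ ψ : P ⟶ Q),
        F.map (c • φ + ψ) = c • F.map φ + F.map ψ) ∧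
      Nonempty (Γ.L.toEssImage ⋙ F ⋙ Γ.L.essImage.ι ≅ 𝒮.G Γ) := by
  have := hΓ.full
  have := hfun_full 𝒮 hΓ
  obtain ⟨e, he⟩ := Γ.exists_shift_cone
  refine exists_exotic2 Γ.L (𝒮.G Γ) (hfun_ess 𝒮 Γ) (fun Z Z' f g => ?_) (shFun 𝒞) e
    (hfun_eG 𝒮 Γ e) (fun Z Z' f => ⟨_, coneInr f, coneFst f, he Z Z' f, ?_⟩)
    fun Z c => ⟨scal Z c, hfun_scal Γ Z c,
      (Γ.L_map_eq_of_htp (𝒮.lin Z c)).trans (hfun_scal Γ _ c)⟩
  · exact (hΓ.L_map_eq_iff f g).trans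
      ((𝒮.htp_iff f g).symm.trans (hΓ.L_map_eq_iff (𝒮.map f) (𝒮.map g)).symm)
  · obtain ⟨c, hi, hp⟩ := 𝒮.cone f
    exact hfun_cone Γ.L _ _ _ _ _ _ _ c hi hp (he _ _ (𝒮.map f))

/-- objects with the same generators and equal differentials are isomorphic -/
def isoD {G : Gn S} {D D' : Matrix G.G G.G R} {sp : SP 𝒞 G G 1 D} {sq : D * D = 0}
    {sp' : SP 𝒞 G G 1 D'} {sq' : D' * D' = 0} (h : D = D') :
    (⟨G, D, sp, sq⟩ : Ob 𝒞) ≅ ⟨G, D', sp', sq'⟩ where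
  hom := ⟨(1 : Matrix G.G G.G R), SP.one,
    (Matrix.one_mul D').trans (h.symm.trans (Matrix.mul_one D).symm)⟩
  inv := ⟨(1 : Matrix G.G G.G R), SP.one,
    (Matrix.one_mul D).trans (h.trans (Matrix.mul_one D').symm)⟩
  hom_inv_id := Ob.hom_ext (Matrix.one_mul _)
  inv_hom_id := Ob.hom_ext (Matrix.one_mul _)

end Pool.Agent.Work.MP_910138_ag.C0
end

-- merged part: Pool.Agent.Work.MP_910138_ag.C0.SFun
section
/-! The twisting of complexes and maps. -/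

open CategoryTheory TrivSqZeroExt MulOpposite

namespace Pool.Agent.Work.MP_910138_ag.C0

variable {k : Type} [Field k] (ξ : Derivation ℤ k k)

theorem Ob.fst_sq (X : Ob (catA k)) : fstM X.D * fstM X.D = 0 := by
  rw [← fstM_mul, X.sq, fstM_zero]

theorem Mor.fst_cl {X Y : Ob (catA k)} (f : X ⟶ Y) : fstM f.mat * fstM Y.D = fstM X.D * fstM f.mat := by
  rw [← fstM_mul, f.cl, fstM_mul]

/-- the twisted object -/
noncomputable abbrev sObj (X : Ob (catA k)) : Ob (catA k) where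
  toGn := X.toGn
  D := X.D + cor (th1 ξ X.toGn (fstM X.D))
  sp := X.sp.add (sp_th1 ξ X.sp.fstM)
  sq := by
    rw [Matrix.add_mul, Matrix.mul_add, Matrix.mul_add, X.sq, mul_cor, cor_mul, cor_mul, fstM_cor,
      Matrix.mul_zero, cor_zero, zero_add, add_zero, ← cor_add, th1_sq ξ X.fst_sq, cor_zero]

variable {X Y Z : Ob (catA k)}

theorem sObj_fst : fstM (sObj ξ X).D = fstM X.D := by
  change fstM (X.D + _) = _
  rw [fstM_add, fstM_cor, add_zero]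

/-- the twisting term of a map -/
noncomputable def tw2 (ε : ℤ) (X Y : Ob (catA k)) (f : Matrix X.G Y.G (RR k)) :
    Matrix X.G Y.G (RR k) :=
  cor (th2 ξ ε X.toGn Y.toGn (fstM X.D) (fstM f) (fstM Y.D))

theorem sp_tw2 (ε : ℤ) {n : ℤ} {f : Matrix X.G Y.G (RR k)} (hf : SP (catA k) X.toGn Y.toGn n f) :
    SP (catA k) X.toGn Y.toGn n (tw2 ξ ε X Y f) := sp_th2 ξ ε X.sp.fstM hf.fstM Y.sp.fstM

theorem tw2_cl {f : Matrix X.G Y.G (RR k)} (hf : fstM f * fstM Y.D = fstM X.D * fstM f) :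
    (f + tw2 ξ (-1) X Y f) * (sObj ξ Y).D - (sObj ξ X).D * (f + tw2 ξ (-1) X Y f) =
      f * Y.D - X.D * f := by
  have h := congrArg cor (th2_cl ξ X.fst_sq Y.fst_sq hf)
  rw [cor_add, cor_add] at h
  change (f + _) * (Y.D + _) - (X.D + _) * (f + _) = _
  simp only [Matrix.add_mul, Matrix.mul_add, tw2, mul_cor, cor_mul, fstM_cor, Matrix.mul_zero,
    Matrix.zero_mul, cor_zero, add_zero]
  rw [eq_sub_of_add_eq h]
  abel

theorem tw2_dP (h : Matrix X.G Y.G (RR k)) :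
    dP (sObj ξ X) (sObj ξ Y) (-1) (h + tw2 ξ 1 X Y h) =
      dP X Y (-1) h + tw2 ξ (-1) X Y (dP X Y (-1) h) := by
  rw [dP_neg_one, dP_neg_one]
  change (h + _) * (Y.D + _) + (X.D + _) * (h + _) = _
  simp only [Matrix.add_mul, Matrix.mul_add, tw2, mul_cor, cor_mul, fstM_cor, Matrix.mul_zero,
    Matrix.zero_mul, cor_zero, add_zero, fstM_add, fstM_mul, th2_htp ξ X.fst_sq Y.fst_sq, cor_add]
  abel

theorem tw2_sub (ε : ℤ) (f g : Matrix X.G Y.G (RR k)) :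
    tw2 ξ ε X Y (f - g) = tw2 ξ ε X Y f - tw2 ξ ε X Y g := by
  rw [tw2, fstM_sub, th2_sub, cor_sub, tw2, tw2]

theorem tw2_congr (ε : ℤ) {f g : Matrix X.G Y.G (RR k)} (h : fstM f = fstM g) :
    tw2 ξ ε X Y f = tw2 ξ ε X Y g := by rw [tw2, h, tw2]

theorem fstM_tw2 (ε : ℤ) (f : Matrix X.G Y.G (RR k)) : fstM (tw2 ξ ε X Y f) = 0 := fstM_cor _

/-- the twisted map -/
noncomputable def sMor (f : X ⟶ Y) : sObj ξ X ⟶ sObj ξ Y where
  mat := f.mat + tw2 ξ (-1) X Y f.mat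
  sp := f.sp.add (sp_tw2 ξ _ f.sp)
  cl := sub_eq_zero.1 ((tw2_cl ξ f.fst_cl).trans (sub_eq_zero.2 f.cl))

theorem sMor_mat (f : X ⟶ Y) : Mor.mat (sMor ξ f) = f.mat + tw2 ξ (-1) X Y f.mat := rfl

end Pool.Agent.Work.MP_910138_ag.C0
end

-- merged part: Pool.Agent.Work.MP_910138_ag.C0.SFunA
section
/-! The twisting is a functor and an equivalence up to homotopy. -/

open CategoryTheory TrivSqZeroExt MulOpposite

namespace Pool.Agent.Work.MP_910138_ag.C0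

variable {k : Type} [Field k] (ξ : Derivation ℤ k k) {X Y Z : Ob (catA k)}

/-- a matrix with entries `0` and `1`, the latter only between equal labels -/
def sfuna_U (A B : Gn (Bool × Lb)) (M : Matrix A.G B.G (RR k)) : Prop :=
  ∀ x y, M x y = 0 ∨ (M x y = 1 ∧ A.lab x = B.lab y)

theorem sfuna_tw2 (ε : ℤ) {M : Matrix X.G Y.G (RR k)} (h : sfuna_U X.toGn Y.toGn M) :
    tw2 ξ ε X Y M = 0 := by
  rw [tw2, th2_eq_zero, cor_zero]
  · ext x y : 1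
    rcases h x y with h | ⟨h, -⟩
    · simp only [EM, fstM, Matrix.map_apply, h, fst_zero, map_zero, Matrix.zero_apply]
    · simp only [EM, fstM, Matrix.map_apply, h, fst_one, eul_one, Matrix.zero_apply]
  · ext x y : 1
    rcases h x y with h | ⟨h, -⟩
    · simp only [XM, fstM, Matrix.map_apply, h, fst_zero, map_zero, Matrix.zero_apply]
    · simp only [XM, fstM, Matrix.map_apply, h, fst_one, xiA_one, Matrix.zero_apply]
  · ext x y : 1
    rcases h x y with h | ⟨-, h⟩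
    · simp only [dlt, fstM, Matrix.map_apply, h, fst_zero, smul_zero, Matrix.zero_apply]
    · simp only [dlt, h, sub_self, zero_smul, Matrix.zero_apply]

theorem sfuna_one (A : Gn (Bool × Lb)) : sfuna_U A A (1 : Matrix A.G A.G (RR k)) := fun x y => by
  by_cases h : x = y
  · subst h
    exact Or.inr ⟨Matrix.one_apply_eq _, rfl⟩
  · exact Or.inl (Matrix.one_apply_ne h)

theorem sMor_id (X : Ob (catA k)) : sMor ξ (𝟙 X) = 𝟙 _ := by
  refine Ob.hom_ext ?_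
  rw [sMor_mat, Ob.id_mat, sfuna_tw2 ξ _ (sfuna_one _), add_zero]
  rfl

theorem sMor_comp (f : X ⟶ Y) (g : Y ⟶ Z) : Htp (sMor ξ (f ≫ g)) (sMor ξ f ≫ sMor ξ g) := by
  refine ⟨cor (th3 ξ X.toGn Y.toGn Z.toGn (fstM X.D) (fstM f.mat) (fstM Y.D) (fstM g.mat)
    (fstM Z.D)), sp_th3 ξ X.sp.fstM f.sp.fstM Y.sp.fstM g.sp.fstM Z.sp.fstM, ?_⟩
  rw [dP_neg_one, Ob.comp_mat, sMor_mat, sMor_mat, sMor_mat, Ob.comp_mat, cor_mul, mul_cor,
    sObj_fst, sObj_fst]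
  simp only [Matrix.add_mul, Matrix.mul_add, tw2, mul_cor, cor_mul, fstM_cor,
    Matrix.zero_mul, cor_zero, add_zero, fstM_mul,
    th2_mul ξ X.fst_sq Y.fst_sq Z.fst_sq f.fst_cl g.fst_cl, cor_add]
  abel

theorem sMor_htp_iff (f g : X ⟶ Y) : Htp (sMor ξ f) (sMor ξ g) ↔ Htp f g := by
  have e : Mor.mat (sMor ξ f) - Mor.mat (sMor ξ g) =
      (f.mat - g.mat) + tw2 ξ (-1) X Y (f.mat - g.mat) := by
    rw [sMor_mat, sMor_mat, tw2_sub]
    abel
  constructor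
  · rintro ⟨h, hs, hh⟩
    have h0 : fstM (h - tw2 ξ 1 X Y h) = fstM h := by rw [fstM_sub, fstM_tw2, sub_zero]
    have h1 := tw2_dP ξ (X := X) (Y := Y) (h - tw2 ξ 1 X Y h)
    rw [tw2_congr ξ (X := X) (Y := Y) 1 h0, sub_add_cancel, ← hh, e] at h1
    have h2 := congrArg fstM h1
    rw [fstM_add, fstM_add, fstM_tw2, fstM_tw2, add_zero, add_zero] at h2
    rw [tw2_congr ξ (X := X) (Y := Y) (-1) h2] at h1
    exact ⟨h - tw2 ξ 1 X Y h, SP.sub hs (sp_tw2 ξ 1 hs), add_right_cancel h1⟩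
  · rintro ⟨h, hs, hh⟩
    exact ⟨h + tw2 ξ 1 X Y h, hs.add (sp_tw2 ξ 1 hs), by rw [tw2_dP, e, hh]⟩

theorem sMor_surj (g : sObj ξ X ⟶ sObj ξ Y) : ∃ f, sMor ξ f = g := by
  have h0 : fstM (g.mat - tw2 ξ (-1) X Y g.mat) = fstM g.mat := by
    rw [fstM_sub, fstM_tw2, sub_zero]
  have h1 : fstM (g.mat - tw2 ξ (-1) X Y g.mat) * fstM Y.D =
      fstM X.D * fstM (g.mat - tw2 ξ (-1) X Y g.mat) := by
    have := g.fst_cl
    rw [sObj_fst, sObj_fst] at this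
    rw [h0]
    exact this
  have h2 := tw2_cl ξ (X := X) (Y := Y) h1
  rw [tw2_congr ξ (X := X) (Y := Y) (-1) h0, sub_add_cancel, g.cl, sub_self] at h2
  refine ⟨⟨g.mat - tw2 ξ (-1) X Y g.mat, SP.sub g.sp (sp_tw2 ξ _ g.sp), sub_eq_zero.1 h2.symm⟩,
    Ob.hom_ext ?_⟩
  rw [sMor_mat]
  change g.mat - tw2 ξ (-1) X Y g.mat + tw2 ξ (-1) X Y (g.mat - tw2 ξ (-1) X Y g.mat) = _
  rw [tw2_congr ξ (X := X) (Y := Y) (-1) h0, sub_add_cancel]

theorem sObj_ess (Y : Ob (catA k)) : ∃ X, Nonempty (sObj ξ X ≅ Y) := by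
  have h : (sObj ξ (sObj (-ξ) Y)).D = Y.D := by
    change Y.D + cor (th1 (-ξ) Y.toGn (fstM Y.D)) +
      cor (th1 ξ Y.toGn (fstM (sObj (-ξ) Y).D)) = _
    rw [sObj_fst, th1_neg_der, cor_neg, neg_add_cancel_right]
  exact ⟨sObj (-ξ) Y, ⟨isoD h⟩⟩

theorem sObj_sh_D (X : Ob (catA k)) : (sObj ξ (shObj X)).D = (shObj (sObj ξ X)).D := by
  change -X.D + cor (th1 ξ X.toGn (fstM (-X.D))) = -(X.D + cor (th1 ξ X.toGn (fstM X.D)))
  rw [fstM_neg, th1_neg, cor_neg, neg_add]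

/-- compatibility with the shift -/
noncomputable def sSh (X : Ob (catA k)) :
    sObj ξ ((shFun (catA k)).obj X) ≅ (shFun (catA k)).obj (sObj ξ X) := isoD (sObj_sh_D ξ X)

theorem sSh_nat (f : X ⟶ Y) : sMor ξ ((shFun (catA k)).map f) ≫ (sSh ξ Y).hom =
    (sSh ξ X).hom ≫ (shFun (catA k)).map (sMor ξ f) := by
  refine Ob.hom_ext ?_
  change (f.mat + cor (th2 ξ (-1) X.toGn Y.toGn (fstM (-X.D)) (fstM f.mat) (fstM (-Y.D)))) *
    (1 : Matrix Y.G Y.G (RR k)) = (1 : Matrix X.G X.G (RR k)) * (f.mat + tw2 ξ (-1) X Y f.mat)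
  rw [Matrix.mul_one, Matrix.one_mul, fstM_neg, fstM_neg, th2_neg, tw2]

theorem sfuna_dlt (A B : Gn (Bool × Lb)) (a : Matrix A.G A.G (AF k)) (b : Matrix A.G B.G (AF k))
    (d : Matrix B.G B.G (AF k)) : dlt (A.cone B) (A.cone B) (Matrix.fromBlocks a b 0 d) =
      Matrix.fromBlocks (dlt A A a) (dlt A B b) 0 (dlt B B d) := by
  ext x y : 1
  rcases x with x | x <;> rcases y with y | y
  · rfl
  · rfl
  · exact smul_zero _
  · rfl

theorem sfuna_cone_D (f : X ⟶ Y) : (sObj ξ (coneObj f)).D = (coneObj (sMor ξ f)).D := by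
  change Matrix.fromBlocks (-X.D) f.mat 0 Y.D + cor (th1 ξ (X.toGn.cone Y.toGn)
    (fstM (Matrix.fromBlocks (-X.D) f.mat 0 Y.D))) =
      Matrix.fromBlocks (-(X.D + cor (th1 ξ X.toGn (fstM X.D)))) (f.mat + tw2 ξ (-1) X Y f.mat) 0
        (Y.D + cor (th1 ξ Y.toGn (fstM Y.D)))
  have e1 : fstM (Matrix.fromBlocks (-X.D) f.mat 0 Y.D) =
      Matrix.fromBlocks (-fstM X.D) (fstM f.mat) 0 (fstM Y.D) := by
    rw [← fstM_neg, ← fstM_zero (k := k) (G := Y.G) (G' := X.G)]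
    exact Matrix.fromBlocks_map _ _ _ _ _
  have e2 : EM (Matrix.fromBlocks (-fstM X.D) (fstM f.mat) 0 (fstM Y.D)) =
      Matrix.fromBlocks (-EM (fstM X.D)) (EM (fstM f.mat)) 0 (EM (fstM Y.D)) := by
    rw [← salg_EM_neg, ← salg_EM_zero (k := k) (G := Y.G) (G' := X.G)]
    conv_lhs => rw [salg_EM_zero]
    exact Matrix.fromBlocks_map _ _ _ _ _
  have e3 : XM ξ (Matrix.fromBlocks (-fstM X.D) (fstM f.mat) 0 (fstM Y.D)) =
      Matrix.fromBlocks (-XM ξ (fstM X.D)) (XM ξ (fstM f.mat)) 0 (XM ξ (fstM Y.D)) := by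
    rw [← salg_XM_neg, ← salg_XM_zero ξ (G := Y.G) (G' := X.G)]
    conv_lhs => rw [salg_XM_zero]
    exact Matrix.fromBlocks_map _ _ _ _ _
  have e4 : ∀ (a : Matrix X.G X.G (AF k)) (b : Matrix X.G Y.G (AF k)) (d : Matrix Y.G Y.G (AF k)),
      cor (Matrix.fromBlocks a b 0 d) = Matrix.fromBlocks (cor a) (cor b) 0 (cor d) := by
    intro a b d
    rw [← cor_zero (k := k) (G := Y.G) (G' := X.G)]
    exact Matrix.fromBlocks_map _ _ _ _ _
  rw [e1, th1, e2, e3, sfuna_dlt, Matrix.fromBlocks_multiply, Matrix.fromBlocks_multiply,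
    salg_dlt_neg, tw2, th2, th1, th1]
  simp only [Matrix.mul_neg, Matrix.neg_mul, neg_neg, Matrix.mul_zero, Matrix.zero_mul, add_zero,
    zero_add, neg_zero, neg_add, Matrix.add_mul, neg_smul, one_smul, add_assoc]
  rw [e4, Matrix.fromBlocks_add, cor_neg, add_zero]

theorem sObj_cone (f : X ⟶ Y) : ∃ c : sObj ξ (coneObj f) ≅ coneObj (sMor ξ f),
    sMor ξ (coneInr f) ≫ c.hom = coneInr (sMor ξ f) ∧
      sMor ξ (coneFst f) ≫ (sSh ξ X).hom = c.hom ≫ coneFst (sMor ξ f) := by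
  refine ⟨isoD (sfuna_cone_D ξ f), Ob.hom_ext ?_, Ob.hom_ext ?_⟩
  · have h : sfuna_U Y.toGn (coneObj f).toGn (coneInr f).mat := fun x y => by
      rcases y with y | y
      · exact Or.inl rfl
      · exact sfuna_one Y.toGn x y
    rw [Ob.comp_mat, sMor_mat, sfuna_tw2 ξ _ h, add_zero]
    exact Matrix.mul_one _
  · have h : sfuna_U (coneObj f).toGn ((shFun (catA k)).obj X).toGn (coneFst f).mat :=
      fun x y => by
        rcases x with x | x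
        · exact sfuna_one X.toGn x y
        · exact Or.inl rfl
    rw [Ob.comp_mat, Ob.comp_mat, sMor_mat, sfuna_tw2 ξ _ h, add_zero]
    exact (Matrix.mul_one _).trans (Matrix.one_mul _).symm

end Pool.Agent.Work.MP_910138_ag.C0
end

-- merged part: Pool.Agent.Work.MP_910138_ag.C0.SLin
section
/-! The twisting is linear up to homotopy. -/

open CategoryTheory TrivSqZeroExt MulOpposite

namespace Pool.Agent.Work.MP_910138_ag.C0

variable {k : Type} [Field k] (ξ : Derivation ℤ k k)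

theorem slin_mul_right {G : Type} [Fintype G] [DecidableEq G] {K : Matrix G G (RR k)}
    (hK : fstM K = 0) (M : Matrix G G (RR k)) :
    K * M = K * (inlHom (AF k) (AD k)).mapMatrix (fstM M) := by
  ext1 x y
  rw [Matrix.mul_apply, Matrix.mul_apply]
  refine Finset.sum_congr rfl fun z _ => ?_
  have h : (K x z).fst = 0 := congrFun (congrFun hK x) z
  change K x z * M z y = K x z * inl (M z y).fst
  refine TrivSqZeroExt.ext ?_ ?_
  · rw [fst_mul, fst_mul, fst_inl]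
  · rw [snd_mul, snd_mul, fst_inl, h, zero_smul, zero_smul]

theorem slin_mul_left {G : Type} [Fintype G] [DecidableEq G] {K : Matrix G G (RR k)}
    (hK : fstM K = 0) (M : Matrix G G (RR k)) :
    M * K = (inlHom (AF k) (AD k)).mapMatrix (fstM M) * K := by
  ext1 x y
  rw [Matrix.mul_apply, Matrix.mul_apply]
  refine Finset.sum_congr rfl fun z _ => ?_
  have h : (K z y).fst = 0 := congrFun (congrFun hK z) y
  change M x z * K z y = inl (M x z).fst * K z y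
  refine TrivSqZeroExt.ext ?_ ?_
  · rw [fst_mul, fst_mul, fst_inl]
  · rw [snd_mul, snd_mul, fst_inl, h, op_zero, zero_smul, zero_smul]

theorem exists_ghost_htp (X : Gn (Bool × Lb)) (D : Matrix X.G X.G (AF k)) (hD : SA X X 1 D)
    (hDD : D * D = 0) : ∃ K : Matrix X.G X.G (RR k), SP (catA k) X X (-1) K ∧ fstM K = 0 ∧
      ∀ M : Matrix X.G X.G (RR k), fstM M = D → cor (EM D * dlt X X D) = K * M + M * K := by
  set P : Matrix X.G X.G (AF k) :=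
    Matrix.diagonal fun x => if (X.lab x).1 = false then 1 else 0 with hP
  set B := dlt X X D with hB
  set ι := (inlHom (AF k) (AD k)).mapMatrix (m := X.G) with hι
  have hfι : ∀ N, fstM (ι N) = N := fun N => rfl
  have hD1 : ∀ x y, D x y ∈ AS k (X.lab x).2 (X.lab y).2 := fun x y => (mem_aFst.1 (hD x y)).1
  have hD2 : ∀ x y, D x y ≠ 0 → X.deg y = X.deg x + 1 ∧ (X.lab x).1 ≤ (X.lab y).1 := by
    intro x y h
    obtain ⟨h1, h2⟩ := (mem_aFst.1 (hD x y)).2 h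
    exact ⟨by omega, h2⟩
  have hT : ∀ x y, (D * P) x y = if (X.lab y).1 = false then D x y else 0 := by
    intro x y
    rw [hP, Matrix.mul_diagonal]
    split_ifs
    exacts [mul_one _, mul_zero _]
  have hPl : ∀ (N : Matrix X.G X.G (AF k)) x y,
      (P * N) x y = if (X.lab x).1 = false then N x y else 0 := by
    intro N x y
    rw [hP, Matrix.diagonal_mul]
    split_ifs
    exacts [one_mul _, zero_mul _]
  have hPT : P * (D * P) = D * P := by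
    ext1 x y
    rw [hPl, hT]
    split_ifs with h1 h2 h2
    · rfl
    · rfl
    · by_contra h
      have h3 := (hD2 x y (Ne.symm h)).2
      rw [h2] at h3
      exact h1 (le_antisymm h3 (Bool.false_le _))
    · rfl
  have hBe : B = P * D - D * P := by
    ext1 x y
    rw [Matrix.sub_apply, hPl, hT, hB, dlt, lvl, lvl]
    cases (X.lab x).1 <;> cases (X.lab y).1 <;> simp
  have hPP : P * P = P := by
    ext1 x y
    rw [hPl]
    split_ifs with h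
    · rfl
    · rw [hP, Matrix.diagonal_apply, if_neg h, ite_self]
  have hPB : P * B = B := by
    rw [hBe, Matrix.mul_sub, ← Matrix.mul_assoc, hPP, hPT]
  have hTB : D * P * B = -(B * D) := by
    rw [Matrix.mul_assoc, hPB, hBe, Matrix.mul_sub, Matrix.sub_mul, Matrix.mul_assoc P, hDD,
      ← Matrix.mul_assoc D D, hDD, Matrix.mul_zero, Matrix.zero_mul, sub_zero, zero_sub, neg_neg,
      Matrix.mul_assoc]
  have hTT : D * P * (D * P) = 0 := by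
    rw [Matrix.mul_assoc, hPT, ← Matrix.mul_assoc, hDD, Matrix.zero_mul]
  have hE : EM (D * P) = EM D * P := by
    ext1 x y
    change eul k ((D * P) x y) = _
    rw [hT, hP, Matrix.mul_diagonal]
    split_ifs
    exacts [(mul_one _).symm, (map_zero _).trans (mul_zero _).symm]
  have hE' : P * EM (D * P) = EM (D * P) := by
    ext1 x y
    rw [hPl]
    split_ifs with h
    · rfl
    · change _ = eul k ((D * P) x y)
      rw [← hPT, hPl, if_neg h, map_zero]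
  obtain ⟨H, hH1, hH2, hH3⟩ := ghost (fun x => (X.lab x).2) X.deg (D * P)
    (fun x y => by
      rw [hT]
      split_ifs
      exacts [hD1 x y, zero_mem _])
    (fun x y h => (hD2 x y fun h0 => h (by rw [hT, h0, ite_self])).1) hTT
  set Hm : Matrix X.G X.G (RR k) := H.map inr with hHm
  have hH0 : fstM Hm = 0 := rfl
  have hG : cor (EM (D * P)) = ι (D * P) * Hm - Hm * ι (D * P) := by
    ext1 x y
    change inr (eul k ((D * P) x y) • tau k) = _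
    rw [hH3, Matrix.sub_apply, Matrix.mul_apply, Matrix.mul_apply, ← Finset.sum_sub_distrib,
      inr_sum]
    refine Finset.sum_congr rfl fun z _ => ?_
    change _ = inl ((D * P) x z) * inr (H z y) - inr (H x z) * inl ((D * P) z y)
    rw [inl_mul_inr, inr_mul_inl, inr_sub]
  have hK0 : fstM (ι P * Hm * ι B) = 0 := by
    rw [fstM_mul, fstM_mul, hH0, Matrix.mul_zero, Matrix.zero_mul]
  refine ⟨ι P * Hm * ι B, fun x y => ?_, hK0, fun M hM => ?_⟩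
  · rw [Matrix.mul_apply]
    refine sum_mem fun z _ => ?_
    have e1 : ι P = Matrix.diagonal fun x => if (X.lab x).1 = false then 1 else 0 := by
      rw [hP, hι, RingHom.mapMatrix_apply, Matrix.diagonal_map (map_zero _)]
      congr 1
      funext x
      split_ifs
      exacts [map_one _, map_zero _]
    rw [e1, Matrix.diagonal_mul]
    split_ifs with hx
    · rw [one_mul]
      change inr (H x z) * inl (B z y) ∈ _
      rw [inr_mul_inl, mem_catA, fst_inr, snd_inr, mem_aSnd]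
      refine ⟨zero_mem _, Psi_smul_AS (hH1 x z) (zsmul_mem (hD1 z y) _), fun hne => ?_⟩
      have h1 : B z y ≠ 0 := fun h0 => left_ne_zero_of_smul hne (by rw [h0, op_zero])
      have h2 : X.deg x = X.deg z := by_contra fun h => right_ne_zero_of_smul hne (hH2 x z h)
      have h3 : lvl (X.lab y) - lvl (X.lab z) ≠ 0 := left_ne_zero_of_smul h1
      obtain ⟨h4, h5⟩ := hD2 z y (right_ne_zero_of_smul h1)
      refine ⟨by omega, hx, ?_⟩
      by_contra h6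
      rw [Bool.not_eq_true] at h6
      rw [h6] at h5
      have h7 := le_antisymm h5 (Bool.false_le _)
      exact h3 (by rw [lvl, lvl, h6, h7, sub_self])
    · rw [zero_mul, zero_mul]
      exact zero_mem _
  · rw [slin_mul_right hK0, slin_mul_left hK0, hM, ← hι]
    have e1 : EM D * B = P * (EM (D * P) * B) := by
      rw [← Matrix.mul_assoc, hE', hE, Matrix.mul_assoc, hPB]
    have e2 : cor (EM D * B) = ι P * (cor (EM (D * P)) * ι B) := by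
      rw [cor_mul, mul_cor, hfι, hfι, e1]
    have e3 : ι P * ι (D * P) = ι D * ι P := by rw [← map_mul, hPT, map_mul]
    have e4 : ι (D * P) * ι B = -(ι B * ι D) := by rw [← map_mul, hTB, map_neg, map_mul]
    rw [e2, hG, sub_mul, mul_sub, mul_assoc Hm, e4, ← mul_assoc, ← mul_assoc, e3]
    simp only [mul_assoc]
    rw [Matrix.mul_neg, Matrix.mul_neg, sub_neg_eq_add, add_comm]

theorem sMor_lin (X : Ob (catA k)) (c : k) : Htp (sMor ξ (scal X c)) (scal (sObj ξ X) c) := by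
  obtain ⟨K, h1, -, h3⟩ := exists_ghost_htp X.toGn (fstM X.D) X.sp.fstM X.fst_sq
  refine ⟨-(ξ c • K), (h1.smul _).neg, ?_⟩
  rw [dP_neg, dP_smul, dP_neg_one, ← h3 _ (sObj_fst ξ)]
  change c • (1 : Matrix X.G X.G (RR k)) + tw2 ξ (-1) X X (c • 1) - c • 1 = _
  rw [add_sub_cancel_left, tw2, fstM_smul, fstM_one, th2_scal, cor_neg, cor_smul]

/-- the twisting as an exact linear autoequivalence up to homotopy -/
noncomputable def sFun : HFun (catA k) where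
  obj := sObj ξ
  map := sMor ξ
  map_id := sMor_id ξ
  map_comp := sMor_comp ξ
  htp_iff := sMor_htp_iff ξ
  surj := sMor_surj ξ
  ess := sObj_ess ξ
  σ := sSh ξ
  σ_nat := sSh_nat ξ
  cone := sObj_cone ξ
  lin := sMor_lin ξ

end Pool.Agent.Work.MP_910138_ag.C0
end

-- merged part: Pool.Agent.Work.MP_910138_ag.C0.AinfC
section
/-! What a strict model of the exotic functor gives on short complexes. -/

open CategoryTheory Limits CochainComplex.HomComplex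

namespace Pool.Agent.Work.MP_910138_ag.C0

universe v u

variable {k R S : Type} [Field k] [Ring R] [Algebra k R] {𝒞₀ 𝒞 : GCat k R S}

/-- comparison data between `𝒮` and the identity on short complexes -/
structure Cmp (hle : 𝒞₀.Le 𝒞) (𝒮 : HFun 𝒞) where
  ψ : ∀ (_ _ _ _ : S), R →ₗ[k] R →ₗ[k] R →ₗ[k] R
  γ : ∀ Z : Ob 𝒞₀, 𝒮.obj (incObj hle Z) ⟶ incObj hle Z
  inv : ∀ Z, Deg02 Z → ∃ γ', Htp (γ Z ≫ γ') (𝟙 _)
  nat : ∀ (X Y : Ob 𝒞₀) (f : X ⟶ Y), Deg02 X → Deg02 Y → ∃ g : incObj hle X ⟶ incObj hle Y,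
    g.mat = f.mat - psi3 ψ X Y f.mat ∧ Htp (𝒮.map ((incFun hle).map f) ≫ γ Y) (γ X ≫ g)

theorem ainfc_sq {C : Type*} [Category C] {a0 a1 a2 a3 a4 b0 b1 b2 b3 b4 : C} (i1 : a1 ≅ a0)
    (i2 : a2 ≅ a1) (i3 : a2 ≅ a3) (i4 : a3 ≅ a4) (j1 : b1 ≅ b0) (j2 : b2 ≅ b1) (j3 : b2 ≅ b3)
    (j4 : b3 ≅ b4) {f0 : a0 ⟶ b0} {f1 : a1 ⟶ b1} {f2 : a2 ⟶ b2} {f3 : a3 ⟶ b3} {f4 : a4 ⟶ b4}
    (h1 : f1 ≫ j1.hom = i1.hom ≫ f0) (h2 : f2 ≫ j2.hom = i2.hom ≫ f1)
    (h3 : f2 ≫ j3.hom = i3.hom ≫ f3) (h4 : f3 ≫ j4.hom = i4.hom ≫ f4) :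
    f0 ≫ (j1.symm ≪≫ j2.symm ≪≫ j3 ≪≫ j4).hom = (i1.symm ≪≫ i2.symm ≪≫ i3 ≪≫ i4).hom ≫ f4 := by
  simp only [Iso.trans_hom, Iso.symm_hom, Category.assoc]
  rw [← h4, ← reassoc_of% h3, Iso.eq_inv_comp, Iso.eq_inv_comp, ← reassoc_of% h1,
    Iso.hom_inv_id_assoc, ← reassoc_of% h2, Iso.hom_inv_id_assoc]

theorem ainfc_nat {C : Type*} [Category C] {a0 a1 a2 b0 b1 b2 : C} {x : a0 ⟶ a1} {y : a1 ⟶ a2}
    {z : a0 ⟶ a2} {x' : b0 ⟶ b1} {y' : b1 ⟶ b2} {z' : b0 ⟶ b2} (_ : IsIso y') {f0 : a0 ⟶ b0}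
    {f1 : a1 ⟶ b1} {f2 : a2 ⟶ b2} (h : x ≫ y = z) (h' : x' ≫ y' = z') (h1 : f0 ≫ z' = z ≫ f2)
    (h2 : f1 ≫ y' = y ≫ f2) : f0 ≫ x' = x ≫ f1 := by
  rw [← cancel_mono y', Category.assoc, Category.assoc, h', h1, h2, ← Category.assoc, h]

variable {A : Type u} [Category.{v} A] [Abelian A] [HasCoproductsOfShape ℤ A] [Linear k A]
  [HasDerivedCategory A]

theorem nonempty_cmp (hle : 𝒞₀.Le 𝒞) (h0 : 𝒞₀.Deg0) (h1 : ∀ s t, 𝒞.sub s t (-1) = ⊥)
    {Γ : Rep 𝒞 A} (hΓ : Γ.QFF) (𝒮 : HFun 𝒞) (ι : ∀ s, 𝒮.obj (genOb 𝒞 s) ≅ genOb 𝒞 s)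
    (hι : ∀ (s t : S) (a : R) (ha : a ∈ 𝒞.sub s t 0),
      𝒮.map (genMor a ha) ≫ (ι t).hom = (ι s).hom ≫ genMor a ha)
    (J : Rep 𝒞₀ A) (hJ : ∀ K s, KD K (J.W s)) (θ : incFun hle ⋙ 𝒮.G Γ ≅ J.L) :
    Nonempty (Cmp hle 𝒮) := by
  obtain ⟨eΓ, heΓ⟩ := Γ.exists_genIso
  obtain ⟨eJ, heJ⟩ := J.exists_genIso
  have hfull := hΓ.full
  let e : ∀ s, DerivedCategory.Q.obj (Γ.W s) ≅ DerivedCategory.Q.obj (J.W s) := fun s =>
    (DerivedCategory.Q.mapIso (eΓ s)).symm ≪≫ (Γ.L.mapIso (ι s)).symm ≪≫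
      θ.app (genOb 𝒞₀ s) ≪≫ DerivedCategory.Q.mapIso (eJ s)
  choose φ hφ using fun s => (hJ (Γ.W s) s).map_surjective (e s).hom
  have hq : ∀ s, QuasiIso (φ s) := fun s =>
    (DerivedCategory.isIso_Q_map_iff_quasiIso A (φ s)).1 (by rw [hφ]; infer_instance)
  obtain ⟨c⟩ := nonempty_coh hle h1 hΓ J hJ φ hq fun s t a ha => by
    rw [hφ, hφ]
    exact ainfc_sq (DerivedCategory.Q.mapIso (eΓ s)) (Γ.L.mapIso (ι s)) (θ.app (genOb 𝒞₀ s))
      (DerivedCategory.Q.mapIso (eJ s)) (DerivedCategory.Q.mapIso (eΓ t)) (Γ.L.mapIso (ι t))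
      (θ.app (genOb 𝒞₀ t)) (DerivedCategory.Q.mapIso (eJ t))
      ((Functor.map_comp _ _ _).symm.trans ((congrArg DerivedCategory.Q.map
        (heΓ s t a (hle _ _ _ ha))).trans (Functor.map_comp _ _ _)))
      ((Functor.map_comp _ _ _).symm.trans ((congrArg Γ.L.map
        (hι s t a (hle _ _ _ ha))).trans (Functor.map_comp _ _ _)))
      (θ.hom.naturality (genMor a ha))
      ((Functor.map_comp _ _ _).symm.trans ((congrArg DerivedCategory.Q.map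
        (heJ s t a ha)).trans (Functor.map_comp _ _ _)))
  obtain ⟨Φ, hΦ, hnat⟩ := c.exists_cmp hle h0 hq
  have hiso : ∀ Z, Deg02 Z → IsIso (DerivedCategory.Q.map (Φ Z)) := fun Z hZ =>
    (DerivedCategory.isIso_Q_map_iff_quasiIso A (Φ Z)).2 (hΦ Z hZ)
  have hγ : ∀ Z : Ob 𝒞₀, ∃ γ : 𝒮.obj (incObj hle Z) ⟶ incObj hle Z, Deg02 Z →
      Γ.L.map γ ≫ DerivedCategory.Q.map (Φ Z) = θ.hom.app Z := by
    intro Z
    by_cases hZ : Deg02 Z
    · obtain ⟨r, -, hr⟩ := (hiso Z hZ).out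
      obtain ⟨γ, h⟩ := Γ.L.map_surjective (X := 𝒮.obj (incObj hle Z)) (Y := incObj hle Z)
        (θ.hom.app Z ≫ r)
      exact ⟨γ, fun _ => (congrArg (· ≫ DerivedCategory.Q.map (Φ Z)) h).trans
        ((Category.assoc _ _ _).trans
          ((congrArg (θ.hom.app Z ≫ ·) hr).trans (Category.comp_id _)))⟩
    · exact ⟨⟨0, SP.zero, (Matrix.zero_mul _).trans (Matrix.mul_zero _).symm⟩,
        fun h => absurd h hZ⟩
  choose γ hγ using hγ
  refine ⟨⟨c.ψ, γ, fun Z hZ => ?_, fun X Y f hX hY => ?_⟩⟩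
  · obtain ⟨γ', h⟩ := Γ.L.map_surjective (X := incObj hle Z) (Y := 𝒮.obj (incObj hle Z))
      (DerivedCategory.Q.map (Φ Z) ≫ θ.inv.app Z)
    refine ⟨γ', (hΓ.L_map_eq_iff _ _).1 ?_⟩
    rw [Functor.map_comp, h, CategoryTheory.Functor.map_id]
    exact (Category.assoc _ _ _).symm.trans
      ((congrArg (· ≫ θ.inv.app Z) (hγ Z hZ)).trans (θ.hom_inv_id_app Z))
  · obtain ⟨g, hg, hg'⟩ := hnat X Y f hX hY
    refine ⟨g, hg, (hΓ.L_map_eq_iff _ _).1 ?_⟩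
    rw [Functor.map_comp, Functor.map_comp]
    exact ainfc_nat (hiso Y hY) (hγ X hX) (hγ Y hY) (θ.hom.naturality f) hg'

end Pool.Agent.Work.MP_910138_ag.C0
end
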