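import Pool.Agent.Work.MP_910138_ag.C0.LinBridge
import Pool.Agent.Work.MP_910138_ag.C0.ChainD

-- merged part: Pool.Agent.Work.MP_910138_ag.C0.Subst
section
/-! Substitution of twisted complexes for the objects of a graded category. -/

open CategoryTheory Limits CochainComplex.HomComplex

namespace Pool.Agent.Work.MP_910138_ag.C0

universe v u

variable {k R S R' S' : Type} [Field k] [Ring R] [Algebra k R] [Ring R'] [Algebra k R']

/-- a strict functor from `𝒞'` to the twisted complexes over `𝒞` -/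
structure Subst (𝒞' : GCat k R' S') (𝒞 : GCat k R S) where
  Y : S' → Ob 𝒞
  m : ∀ s t, R' →ₗ[k] Matrix (Y s).G (Y t).G R
  sp : ∀ {s t : S'} {n : ℤ} {a : R'}, a ∈ 𝒞'.sub s t n → SP 𝒞 (Y s).toGn (Y t).toGn n (m s t a)
  cl : ∀ {s t : S'} {n : ℤ} {a : R'}, a ∈ 𝒞'.sub s t n → dP (Y s) (Y t) n (m s t a) = 0
  mul : ∀ {s t u : S'} {n l : ℤ} {a b : R'}, a ∈ 𝒞'.sub s t n → b ∈ 𝒞'.sub t u l →
    m s u (a * b) = m s t a * m t u b
  one : ∀ s, m s s 1 = 1

variable {𝒞' : GCat k R' S'} {𝒞 : GCat k R S}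

/-- the functor is a quasi-isomorphism on Hom-complexes -/
structure Subst.QFF (σ : Subst 𝒞' 𝒞) : Prop where
  surj : ∀ (s t : S') (n : ℤ) (f : Matrix (σ.Y s).G (σ.Y t).G R),
    SP 𝒞 (σ.Y s).toGn (σ.Y t).toGn n f → dP (σ.Y s) (σ.Y t) n f = 0 →
    ∃ a ∈ 𝒞'.sub s t n, ∃ h, SP 𝒞 (σ.Y s).toGn (σ.Y t).toGn (n - 1) h ∧
      f = σ.m s t a + dP (σ.Y s) (σ.Y t) (n - 1) h
  inj : ∀ (s t : S') (n : ℤ) (a : R'), a ∈ 𝒞'.sub s t n →
    ∀ h, SP 𝒞 (σ.Y s).toGn (σ.Y t).toGn (n - 1) h →
      σ.m s t a = dP (σ.Y s) (σ.Y t) (n - 1) h → a = 0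

variable {A : Type u} [Category.{v} A] [Abelian A] [HasCoproductsOfShape ℤ A] [Linear k A]

/-- the composite realisation -/
noncomputable def Rep.subst (Γ : Rep 𝒞 A) (σ : Subst 𝒞' 𝒞) : Rep 𝒞' A where
  W s := Γ.totObj (σ.Y s)
  ρ s t := Γ.realU (σ.Y s) (σ.Y t) ∘ₗ σ.m s t
  hg ha := Γ.hg_realU (σ.sp ha)
  cl ha := by
    rw [LinearMap.comp_apply, Γ.dl_realU (σ.sp ha), σ.cl ha, map_zero]
  mul ha hb := by
    rw [LinearMap.comp_apply, σ.mul ha hb, Γ.realU_mul (σ.sp ha) (σ.sp hb)]
    rfl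
  one s := by rw [LinearMap.comp_apply, σ.one, Γ.realU_one]

theorem Rep.QFF.subst [HasDerivedCategory A] {Γ : Rep 𝒞 A} (hΓ : Γ.QFF) {σ : Subst 𝒞' 𝒞}
    (hσ : σ.QFF) : (Γ.subst σ).QFF where
  surj s t n φ hφ hd := by
    obtain ⟨f, ψ, hf, hf', hψ, e⟩ := hΓ.real_surj hφ hd
    obtain ⟨a, ha, h, hh, e'⟩ := hσ.surj s t n f hf hf'
    refine ⟨a, ha, Γ.realU _ _ h + ψ, (Γ.hg_realU hh).add hψ, e.trans ?_⟩
    change _ = Γ.realU _ _ (σ.m s t a) + dl (K := Γ.totObj _) (L := Γ.totObj _) (n - 1) _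
    rw [e', map_add, dl_add, Γ.dl_realU hh, add_assoc]
    rfl
  inj s t n a ha ψ hψ e := by
    obtain ⟨g, hg, e'⟩ := hΓ.real_inj (σ.sp ha) hψ e
    exact hσ.inj s t n a ha g hg e'
  kd s t := hΓ.kd_tot _ _

/-- exactness for maps into a subcomplex with acyclic columns -/
theorem col_acyclic (X Y : Ob 𝒞) (P : Y.G → Prop) (hP : ∀ y y', P y → Y.D y y' ≠ 0 → P y')
    (hac : ∀ y, P y → ∀ (n : ℤ) (v : X.G → R),
      (∀ x, v x ∈ 𝒞.sub (X.lab x) (Y.lab y) (n + X.deg x)) → X.D.mulVec v = 0 →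
      ∃ w : X.G → R, (∀ x, w x ∈ 𝒞.sub (X.lab x) (Y.lab y) (n - 1 + X.deg x)) ∧
        v = X.D.mulVec w)
    {n : ℤ} {f : Matrix X.G Y.G R} (hf : SP 𝒞 X.toGn Y.toGn n f) (hd : dP X Y n f = 0)
    (h0 : ∀ x y, ¬ P y → f x y = 0) :
    ∃ h, SP 𝒞 X.toGn Y.toGn (n - 1) h ∧ f = dP X Y (n - 1) h := by
  have hD : ∀ y' y, Y.D y' y ≠ 0 → Y.deg y' < Y.deg y := fun y' y h => by
    by_contra hc
    exact h (Y.sp.eq_zero (by omega))
  have key : ∀ (B : ℤ), (∀ y, Y.deg y < B) → ∀ (j : ℕ) (f : Matrix X.G Y.G R),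
      SP 𝒞 X.toGn Y.toGn n f → dP X Y n f = 0 → (∀ x y, ¬ P y → f x y = 0) →
      (∀ x y, Y.deg y < B - j → f x y = 0) →
      ∃ h, SP 𝒞 X.toGn Y.toGn (n - 1) h ∧ f = dP X Y (n - 1) h := by
    intro B hB j
    induction j with
    | zero =>
      intro f _ _ _ h1
      refine ⟨0, SP.zero, ?_⟩
      rw [dP_zero]
      ext x y
      exact h1 x y (by simpa using hB y)
    | succ j ih =>
      intro f hf hd h0 h1
      obtain ⟨c, hc⟩ : ∃ c : ℤ, c = B - (j + 1 : ℕ) := ⟨_, rfl⟩
      rw [← hc] at h1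
      have hw : ∀ y, ∃ w : X.G → R,
          (∀ x, w x ∈ 𝒞.sub (X.lab x) (Y.lab y) (n - 1 + X.deg x - Y.deg y)) ∧
          (P y → Y.deg y = c → (fun x => f x y) = X.D.mulVec w) ∧
          (¬ (P y ∧ Y.deg y = c) → w = 0) := by
        intro y
        by_cases hy : P y ∧ Y.deg y = c
        · have e1 : X.D.mulVec (fun x => f x y) = 0 := by
            funext x
            have e2 : (f * Y.D : Matrix X.G Y.G R) x y = 0 := by
              rw [Matrix.mul_apply]
              refine Finset.sum_eq_zero fun y' _ => ?_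
              by_cases h2 : Y.D y' y = 0
              · rw [h2, mul_zero]
              · rw [h1 x y' (hy.2 ▸ hD y' y h2), zero_mul]
            have e3 := congrFun (congrFun hd x) y
            rw [dP, Matrix.sub_apply, e2, zero_sub, Matrix.zero_apply, neg_eq_zero,
              Matrix.smul_apply] at e3
            have e4 := congrArg (fun r => sg n • r) e3
            simp only [smul_smul, sg_mul_self, one_smul, smul_zero] at e4
            exact e4
          obtain ⟨w, hw1, hw2⟩ := hac y hy.1 (n - Y.deg y) (fun x => f x y) (fun x => by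
            have := hf x y
            rwa [show n + X.deg x - Y.deg y = n - Y.deg y + X.deg x by omega] at this) e1
          refine ⟨w, fun x => ?_, fun _ _ => hw2, fun h => absurd hy h⟩
          have := hw1 x
          rwa [show n - Y.deg y - 1 + X.deg x = n - 1 + X.deg x - Y.deg y by omega] at this
        · exact ⟨0, fun x => zero_mem _, fun h h' => absurd ⟨h, h'⟩ hy, fun _ => rfl⟩
      choose w hw1 hw2 hw3 using hw
      obtain ⟨W, hW⟩ : ∃ W : Matrix X.G Y.G R, ∀ x y, W x y = w y x :=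
        ⟨Matrix.of fun x y => w y x, fun _ _ => rfl⟩
      have hWs : SP 𝒞 X.toGn Y.toGn (n - 1) (-(sg (n - 1)) • W) :=
        SP.zsmul _ fun x y => by rw [hW]; exact hw1 y x
      have hdW : dP X Y (n - 1) (-(sg (n - 1)) • W) =
          -(sg (n - 1)) • (W * Y.D : Matrix X.G Y.G R) + X.D * W := by
        rw [dP_zsmul, dP, smul_sub, smul_smul, neg_mul, sg_mul_self, neg_smul (1 : ℤ), one_smul,
          sub_neg_eq_add]
      have hXW : ∀ x y, (X.D * W : Matrix X.G Y.G R) x y = X.D.mulVec (w y) x := fun x y => by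
        rw [Matrix.mul_apply]
        simp only [hW]
        rfl
      have hWD : ∀ x y, (¬ P y ∨ Y.deg y ≤ c) → (W * Y.D : Matrix X.G Y.G R) x y = 0 := by
        intro x y hy
        rw [Matrix.mul_apply]
        refine Finset.sum_eq_zero fun y' _ => ?_
        by_cases h2 : Y.D y' y = 0
        · rw [h2, mul_zero]
        · rw [hW, hw3 y', Pi.zero_apply, zero_mul]
          rintro ⟨h3, h4⟩
          rcases hy with hy | hy
          · exact hy (hP y' y h3 h2)
          · have := hD y' y h2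
            omega
      have hval : ∀ x y, (¬ P y ∨ Y.deg y ≤ c) →
          (f - dP X Y (n - 1) (-(sg (n - 1)) • W)) x y = 0 := by
        intro x y hy
        rw [hdW, Matrix.sub_apply, Matrix.add_apply, Matrix.smul_apply, hWD x y hy, smul_zero,
          zero_add, hXW]
        by_cases h2 : P y ∧ Y.deg y = c
        · rw [← hw2 y h2.1 h2.2, sub_self]
        · rw [hw3 y h2, Matrix.mulVec_zero, Pi.zero_apply, sub_zero]
          by_cases h3 : P y
          · refine h1 x y ?_
            have h4 : Y.deg y ≠ c := fun h => h2 ⟨h3, h⟩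
            rcases hy with hy | hy
            · exact absurd h3 hy
            · omega
          · exact h0 x y h3
      obtain ⟨h, hh, e⟩ := ih (f - dP X Y (n - 1) (-(sg (n - 1)) • W))
        (hf.sub (hWs.dP (by omega))) (by rw [dP_sub, hd, dP_dP _ (by omega), sub_zero])
        (fun x y hy => hval x y (Or.inl hy))
        (fun x y hy => hval x y (Or.inr (by push_cast at hc; omega)))
      refine ⟨h + -(sg (n - 1)) • W, hh.add hWs, ?_⟩
      rw [dP_add, ← e, sub_add_cancel]
  obtain ⟨B, hB⟩ := (Set.finite_range Y.deg).bddAbove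
  obtain ⟨B', hB'⟩ := (Set.finite_range Y.deg).bddBelow
  refine key (B + 1) (fun y => ?_) (B + 1 - B').toNat f hf hd h0 fun x y hy => ?_
  · have := hB (Set.mem_range_self y)
    omega
  · have := hB' (Set.mem_range_self y)
    omega

end Pool.Agent.Work.MP_910138_ag.C0
end

-- merged part: Pool.Agent.Work.MP_910138_ag.C0.ZTrick
section
/-! Removing the zero relations. -/

open CategoryTheory

namespace Pool.Agent.Work.MP_910138_ag.C0

variable {k R S : Type} [Field k] [Ring R] [Algebra k R] {𝒞 : GCat k R S}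

open MonoidAlgebra

section general

variable {M T : Type} [Monoid M] [LinearOrder T] {C : MCat M T}

theorem ztr_ind {x y : T} {n : ℤ} {P : MonoidAlgebra k M → Prop} (h0 : P 0)
    (hadd : ∀ a b, P a → P b → P (a + b)) (hsmul : ∀ (c : k) a, P a → P (c • a))
    (hB : n = 0 → ∀ m ∈ C.H x y, P (single m 1)) {g : MonoidAlgebra k M}
    (hg : g ∈ (mcat k C).sub x y n) : P g := by
  rw [← sum_coeff_single g, Finsupp.sum]
  refine Finset.sum_induction _ P hadd h0 fun m hm => ?_
  obtain ⟨h1, h2⟩ := mem_mcat.1 hg m (Finsupp.mem_support_iff.1 hm)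
  have := hsmul (g.coeff m) _ (hB h1 m h2)
  rwa [smul_single', mul_one] at this

theorem ztr_single {x y : T} {m : M} (h : m ∈ C.H x y) :
    single m (1 : k) ∈ (mcat k C).sub x y 0 := by
  classical
  refine mem_mcat.2 fun m' h' => ⟨rfl, ?_⟩
  rw [coeff_single, Finsupp.single_apply] at h'
  split_ifs at h' with e
  · exact e ▸ h
  · exact absurd rfl h'

theorem ztr_deg {x y : T} {n : ℤ} (hn : n ≠ 0) {g : MonoidAlgebra k M}
    (hg : g ∈ (mcat k C).sub x y n) : g = 0 :=
  ztr_ind (P := fun g : MonoidAlgebra k M => g = 0) (Eq.refl _) (fun a b ha hb => by rw [ha, hb, add_zero])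
    (fun c a ha => by rw [ha, smul_zero]) (fun h => absurd h hn) hg

theorem ztr_gt {x y : T} {n : ℤ} (h : y < x) {g : MonoidAlgebra k M}
    (hg : g ∈ (mcat k C).sub x y n) : g = 0 :=
  ztr_ind (P := fun g : MonoidAlgebra k M => g = 0) (Eq.refl _) (fun a b ha hb => by rw [ha, hb, add_zero])
    (fun c a ha => by rw [ha, smul_zero])
    (fun _ m hm => ((C.lt hm).elim (fun h' => absurd h' h.not_gt) fun h' => absurd h'.1 h.ne')) hg

theorem ztr_self {x : T} {n : ℤ} {g : MonoidAlgebra k M} (hg : g ∈ (mcat k C).sub x x n) :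
    ∃ c : k, g = c • 1 := by
  refine ztr_ind (P := fun g => ∃ c : k, g = c • 1) ⟨0, (zero_smul _ _).symm⟩ ?_ ?_
    (fun _ m hm => ?_) hg
  · rintro _ _ ⟨c, rfl⟩ ⟨c', rfl⟩
    exact ⟨c + c', (add_smul _ _ _).symm⟩
  · rintro c _ ⟨c', rfl⟩
    exact ⟨c * c', smul_smul _ _ _⟩
  · rcases C.lt hm with h | h
    · exact absurd h (lt_irrefl _)
    · exact ⟨1, by rw [h.2, one_smul, one_def]⟩

end general

variable (k R) in
/-- the basis element attached to zero -/
noncomputable def ztr_z : MonoidAlgebra k R := single 0 1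

omit [Algebra k R] in
theorem ztr_z_mul (b : R) : ztr_z k R * single b 1 = ztr_z k R := by
  rw [ztr_z, single_mul_single, zero_mul, mul_one]

omit [Algebra k R] in
theorem ztr_mul_z (b : R) : single b 1 * ztr_z k R = ztr_z k R := by
  rw [ztr_z, single_mul_single, mul_zero, mul_one]

omit [Algebra k R] in
theorem ztr_zz : ztr_z k R * ztr_z k R = ztr_z k R := ztr_z_mul 0

omit [Algebra k R] in
theorem ztr_z_comm (g : MonoidAlgebra k R) : ztr_z k R * g = g * ztr_z k R := by
  induction g using MonoidAlgebra.induction_linear with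
  | zero => rw [mul_zero, zero_mul]
  | add a b ha hb => rw [mul_add, add_mul, ha, hb]
  | single m r => rw [ztr_z, single_mul_single, single_mul_single, zero_mul, mul_zero, mul_comm]

/-- the new objects -/
def ztr_S (_β : MBasis 𝒞) : Type := S × Bool

variable (β : MBasis 𝒞)

instance ztr_ord : LinearOrder (ztr_S β) :=
  LinearOrder.lift' (fun x : S × Bool => 2 * β.rk x.1 + x.2.toNat) (by
    rintro ⟨s, b⟩ ⟨t, c⟩ h
    have h' : 2 * β.rk s + b.toNat = 2 * β.rk t + c.toNat := h
    cases b <;> cases c <;> simp only [Bool.toNat_true, Bool.toNat_false] at h'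
    · rw [β.rk_inj (show β.rk s = β.rk t by omega)]
    · omega
    · omega
    · rw [β.rk_inj (show β.rk s = β.rk t by omega)])

/-- a new object -/
def ztr_mk (s : S) (b : Bool) : ztr_S β := (s, b)

variable {β}

theorem ztr_lt {s t : S} {b c : Bool} :
    ztr_mk β s b < ztr_mk β t c ↔ 2 * β.rk s + b.toNat < 2 * β.rk t + c.toNat := Iff.rfl

theorem ztr_mk_inj {s t : S} {b c : Bool} (h : ztr_mk β s b = ztr_mk β t c) : s = t ∧ b = c :=
  Prod.ext_iff.1 h

variable (β) in
/-- the new directed category -/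
def ztr_C : MCat R (ztr_S β) where
  H x y := {a | (x = y ∧ a = 1) ∨
    (x < y ∧ (a = 0 ∨ (x.2 = true ∧ y.2 = true ∧ a ∈ β.B x.1 y.1)))}
  fin x y := (((β.fin x.1 y.1).insert 0).insert 1).subset fun a ha => by
    rcases ha with h | ⟨-, h | h⟩
    · exact Or.inl h.2
    · exact Or.inr (Or.inl h)
    · exact Or.inr (Or.inr h.2.2)
  one_mem _ := Or.inl ⟨rfl, rfl⟩
  mul_mem {x y w a b} ha hb := by
    rcases ha with ⟨rfl, rfl⟩ | ⟨h1, ha⟩
    · rwa [one_mul]
    rcases hb with ⟨rfl, rfl⟩ | ⟨h2, hb⟩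
    · rw [mul_one]
      exact Or.inr ⟨h1, ha⟩
    refine Or.inr ⟨h1.trans h2, ?_⟩
    rcases ha with rfl | ha
    · exact Or.inl (zero_mul _)
    rcases hb with rfl | hb
    · exact Or.inl (mul_zero _)
    exact (β.mul_mem ha.2.2 hb.2.2).symm.imp id fun h => ⟨ha.1, hb.2.1, h⟩
  lt h := h.symm.imp And.left id

theorem ztr_z_mem {x y : ztr_S β} (h : x < y) : ztr_z k R ∈ (mcat k (ztr_C β)).sub x y 0 :=
  ztr_single (Or.inr ⟨h, Or.inl rfl⟩)

/-- morphisms from or to an object `z` -/
theorem ztr_low {s t : S} {b c : Bool} {n : ℤ} (h : s ≠ t ∨ b ≠ c) (h' : b = false ∨ c = false)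
    {P : MonoidAlgebra k R → Prop} (h0 : P 0) (hadd : ∀ a b, P a → P b → P (a + b))
    (hsmul : ∀ (c : k) a, P a → P (c • a)) (hB : ztr_mk β s b < ztr_mk β t c → P (ztr_z k R))
    {g : MonoidAlgebra k R}
    (hg : g ∈ (mcat k (ztr_C β)).sub (ztr_mk β s b) (ztr_mk β t c) n) : P g := by
  refine ztr_ind h0 hadd hsmul (fun _ m hm => ?_) hg
  rcases hm with ⟨e, -⟩ | ⟨h1, rfl | ⟨h2, h3, -⟩⟩
  · exact h.elim (absurd (ztr_mk_inj e).1) (absurd (ztr_mk_inj e).2)
  · exact hB h1
  · have h4 : b = true := h2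
    have h5 : c = true := h3
    rcases h' with e | e
    · exact absurd (h4.symm.trans e) (by decide)
    · exact absurd (h5.symm.trans e) (by decide)

theorem ztr_low_z {s t : S} {b c : Bool} {n : ℤ} (h : s ≠ t ∨ b ≠ c) (h' : b = false ∨ c = false)
    {g : MonoidAlgebra k R}
    (hg : g ∈ (mcat k (ztr_C β)).sub (ztr_mk β s b) (ztr_mk β t c) n) : g * ztr_z k R = g :=
  ztr_low (P := fun g => g * ztr_z k R = g) h h' (zero_mul _)
    (fun a b ha hb => by rw [add_mul, ha, hb]) (fun c a ha => by rw [smul_mul_assoc, ha])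
    (fun _ => ztr_zz) hg

variable (β) in
/-- the cone of `z s → c s` -/
noncomputable abbrev ztr_Y (s : S) : Ob (mcat k (ztr_C β)) where
  G := Bool
  lab b := ztr_mk β s b
  deg b := cond b 0 (-1)
  D := Matrix.single false true (ztr_z k R)
  sp
    | false, false => by
      rw [Matrix.single_apply_of_col_ne _ _ (by decide)]
      exact zero_mem _
    | false, true => by
      rw [Matrix.single_apply_same]
      exact ztr_z_mem (ztr_lt.2 (by simp))
    | true, _ => by
      rw [Matrix.single_apply_of_row_ne (by decide)]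
      exact zero_mem _
  sq := Matrix.single_mul_single_of_ne _ _ _ _ (by decide) _

omit [Ring R] [Algebra k R] in
theorem ztr_ext {f g : Matrix Bool Bool (MonoidAlgebra k R)} (h1 : f false false = g false false)
    (h2 : f false true = g false true) (h3 : f true false = g true false)
    (h4 : f true true = g true true) : f = g := by
  ext1 x y
  cases x <;> cases y <;> assumption

section dP

variable (s t : S) (n : ℤ) (f : Matrix Bool Bool (MonoidAlgebra k R))

theorem ztr_ff : dP (ztr_Y β s) (ztr_Y β t) n f false false =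
    -(sg n • (f true false * ztr_z k R)) := by
  simp [dP, Matrix.mul_apply, Matrix.single_apply, ztr_z_comm, -zsmul_eq_mul]

theorem ztr_ft : dP (ztr_Y β s) (ztr_Y β t) n f false true =
    f false false * ztr_z k R - sg n • (f true true * ztr_z k R) := by
  simp [dP, Matrix.mul_apply, Matrix.single_apply, ztr_z_comm, -zsmul_eq_mul]

theorem ztr_tf : dP (ztr_Y β s) (ztr_Y β t) n f true false = 0 := by
  simp [dP, Matrix.mul_apply, -zsmul_eq_mul]

theorem ztr_tt : dP (ztr_Y β s) (ztr_Y β t) n f true true = f true false * ztr_z k R := by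
  simp [dP, Matrix.mul_apply, Matrix.single_apply, -zsmul_eq_mul]

end dP

theorem ztr_sp {s t : S} {n : ℤ} {f : Matrix Bool Bool (MonoidAlgebra k R)} :
    SP (mcat k (ztr_C β)) (ztr_Y β s).toGn (ztr_Y β t).toGn n f ↔
      f false false ∈ (mcat k (ztr_C β)).sub (ztr_mk β s false) (ztr_mk β t false) n ∧
      f false true ∈ (mcat k (ztr_C β)).sub (ztr_mk β s false) (ztr_mk β t true) (n - 1) ∧
      f true false ∈ (mcat k (ztr_C β)).sub (ztr_mk β s true) (ztr_mk β t false) (n + 1) ∧
      f true true ∈ (mcat k (ztr_C β)).sub (ztr_mk β s true) (ztr_mk β t true) n := by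
  have e1 : n + -1 - -1 = n := by omega
  have e2 : n + -1 - 0 = n - 1 := by omega
  have e3 : n + 0 - -1 = n + 1 := by omega
  have e4 : n + 0 - 0 = n := by omega
  simp only [SP, Bool.forall_bool, cond_true, cond_false, e1, e2, e3, e4, and_assoc]

variable (β) in
/-- the linear map sending a basis element to its class -/
noncomputable def ztr_L (s t : S) : R →ₗ[k] MonoidAlgebra k R :=
  (β.exists_lin s t fun b => single b (1 : k)).choose

theorem ztr_L_eq {s t : S} {b : R} (h : b ∈ β.B s t) : ztr_L β s t b = single b 1 :=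
  (β.exists_lin s t fun b => single b (1 : k)).choose_spec b h

open Classical in
variable (k R) in
/-- the idempotent on the diagonal -/
noncomputable def ztr_e (s t : S) (b : Bool) : MonoidAlgebra k R :=
  if s = t then 1 else cond b (1 - ztr_z k R) 0

omit [Algebra k R] in
theorem ztr_e_self (s : S) (b : Bool) : ztr_e k R s s b = 1 := if_pos rfl

omit [Algebra k R] in
theorem ztr_e_ne {s t : S} (h : s ≠ t) (b : Bool) :
    ztr_e k R s t b = cond b (1 - ztr_z k R) 0 := if_neg h

variable (β) in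
/-- the functor on morphisms -/
noncomputable def ztr_m (s t : S) : R →ₗ[k] Matrix Bool Bool (MonoidAlgebra k R) where
  toFun a := Matrix.diagonal fun b => ztr_L β s t a * ztr_e k R s t b
  map_add' a a' := by simp only [map_add, add_mul, Matrix.diagonal_add]
  map_smul' c a := by
    simp only [map_smul, smul_mul_assoc, RingHom.id_apply, ← Matrix.diagonal_smul]
    rfl

theorem ztr_m_eq (s t : S) (a : R) (b : Bool) :
    ztr_m β s t a b b = ztr_L β s t a * ztr_e k R s t b := Matrix.diagonal_apply_eq _ _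

theorem ztr_m_ft (s t : S) (a : R) : ztr_m β s t a false true = 0 :=
  Matrix.diagonal_apply_ne _ (by decide)

theorem ztr_m_tf (s t : S) (a : R) : ztr_m β s t a true false = 0 :=
  Matrix.diagonal_apply_ne _ (by decide)

theorem ztr_m_one (s : S) : ztr_m β s s 1 = 1 := by
  change Matrix.diagonal (fun b => ztr_L β s s 1 * ztr_e k R s s b) = 1
  simp only [ztr_L_eq (β.one_mem s), ztr_e_self, ← one_def, mul_one, Matrix.diagonal_one]

theorem ztr_basis_mul {s t u : S} {a b : R} (ha : a ∈ β.B s t) (hb : b ∈ β.B t u) :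
    ztr_m β s u (a * b) = ztr_m β s t a * ztr_m β t u b := by
  rcases β.lt ha with h1 | ⟨rfl, rfl⟩
  swap
  · rw [one_mul, ztr_m_one, Matrix.one_mul]
  rcases β.lt hb with h2 | ⟨rfl, rfl⟩
  swap
  · rw [mul_one, ztr_m_one, Matrix.mul_one]
  have n1 : s ≠ t := fun e => h1.ne (e ▸ rfl)
  have n2 : t ≠ u := fun e => h2.ne (e ▸ rfl)
  have n3 : s ≠ u := fun e => (h1.trans h2).ne (e ▸ rfl)
  change Matrix.diagonal _ = Matrix.diagonal _ * Matrix.diagonal _
  rw [Matrix.diagonal_mul_diagonal]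
  congr 1
  funext x
  rw [ztr_e_ne n1, ztr_e_ne n2, ztr_e_ne n3, ztr_L_eq ha, ztr_L_eq hb]
  cases x
  · simp
  have e : single a (1 : k) * (1 - ztr_z k R) * (single b 1 * (1 - ztr_z k R)) =
      single (a * b) 1 - ztr_z k R := by
    simp only [mul_sub, sub_mul, mul_one, ztr_mul_z, ztr_z_mul, ztr_zz, single_mul_single,
      sub_self, sub_zero]
  rw [cond_true, e]
  rcases β.mul_mem ha hb with h | h
  · rw [ztr_L_eq h, mul_sub, mul_one, ztr_mul_z]
  · rw [h, map_zero, zero_mul, ztr_z, sub_self]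

variable (β) in
/-- the substitution -/
noncomputable def ztr_subst : Subst 𝒞 (mcat k (ztr_C β)) where
  Y := ztr_Y β
  m := ztr_m β
  sp {s t n a} ha := by
    refine β.ind (P := fun a => SP (mcat k (ztr_C β)) (ztr_Y β s).toGn (ztr_Y β t).toGn n
      (ztr_m β s t a)) (by rw [map_zero]; exact SP.zero)
      (fun a b ha hb => by rw [map_add]; exact ha.add hb)
      (fun c a ha => by rw [map_smul]; exact ha.smul c) (fun hn b hb => ?_) ha
    subst hn
    rcases β.lt hb with h | ⟨rfl, rfl⟩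
    · have n1 : s ≠ t := fun e => h.ne (e ▸ rfl)
      have l1 : ztr_mk β s true < ztr_mk β t true := ztr_lt.2 (by omega)
      rw [ztr_sp, ztr_m_eq, ztr_m_eq, ztr_m_ft, ztr_m_tf, ztr_e_ne n1, ztr_e_ne n1, cond_false,
        cond_true, mul_zero, ztr_L_eq hb, mul_sub, mul_one, ztr_mul_z]
      exact ⟨zero_mem _, zero_mem _, zero_mem _,
        sub_mem (ztr_single (Or.inr ⟨l1, Or.inr ⟨rfl, rfl, hb⟩⟩)) (ztr_z_mem l1)⟩
    · rw [ztr_m_one]
      exact SP.one
  cl {s t n a} ha := by
    refine β.ind (P := fun a => dP (ztr_Y β s) (ztr_Y β t) n (ztr_m β s t a) = 0)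
      (by rw [map_zero, dP_zero]) (fun a b ha hb => by rw [map_add, dP_add, ha, hb, add_zero])
      (fun c a ha => by rw [map_smul, dP_smul, ha, smul_zero]) (fun hn b hb => ?_) ha
    subst hn
    refine ztr_ext ?_ ?_ (ztr_tf _ _ _ _) ?_
    · rw [ztr_ff, ztr_m_tf, zero_mul, smul_zero, neg_zero, Matrix.zero_apply]
    · rw [ztr_ft, ztr_m_eq, ztr_m_eq, sg_zero, one_smul, Matrix.zero_apply, sub_eq_zero]
      by_cases h : s = t
      · subst h
        rw [ztr_e_self, ztr_e_self]
      · rw [ztr_e_ne h, ztr_e_ne h, cond_false, cond_true, mul_zero, zero_mul, mul_assoc, sub_mul,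
          one_mul, ztr_zz, sub_self, mul_zero]
    · rw [ztr_tt, ztr_m_tf, zero_mul, Matrix.zero_apply]
  mul {s t u n l a b} ha hb := by
    refine β.ind (P := fun a => ztr_m β s u (a * b) = ztr_m β s t a * ztr_m β t u b)
      (by rw [zero_mul, map_zero, map_zero, Matrix.zero_mul])
      (fun a a' h h' => by rw [add_mul, map_add, map_add, Matrix.add_mul, h, h'])
      (fun c a h => by rw [smul_mul_assoc, map_smul, map_smul, Matrix.smul_mul, h])
      (fun _ a ha => ?_) ha
    exact β.ind (P := fun b => ztr_m β s u (a * b) = ztr_m β s t a * ztr_m β t u b)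
      (by rw [mul_zero, map_zero, map_zero, Matrix.mul_zero])
      (fun b b' h h' => by rw [mul_add, map_add, map_add, Matrix.mul_add, h, h'])
      (fun c b h => by rw [mul_smul_comm, map_smul, map_smul, Matrix.mul_smul, h])
      (fun _ b hb => ztr_basis_mul ha hb) hb
  one := ztr_m_one

theorem ztr_inj (s t : S) (n : ℤ) (a : R) (ha : a ∈ 𝒞.sub s t n)
    (h : Matrix Bool Bool (MonoidAlgebra k R))
    (e : ztr_m β s t a = dP (ztr_Y β s) (ztr_Y β t) (n - 1) h) : a = 0 := by
  let π := MonoidAlgebra.lift k R R (MonoidHom.id R)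
  have p1 : ∀ b : R, π (single b 1) = b := fun b => by
    rw [MonoidAlgebra.lift_single, one_smul, MonoidHom.id_apply]
  have p2 : π (ztr_z k R) = 0 := p1 0
  have p3 : π (ztr_L β s t a) = a :=
    β.ind (P := fun a => π (ztr_L β s t a) = a) (by rw [map_zero, map_zero])
      (fun a b ha hb => by rw [map_add, map_add, ha, hb])
      (fun c a ha => by rw [map_smul, map_smul, ha]) (fun _ b hb => by rw [ztr_L_eq hb, p1]) ha
  have p4 : π (ztr_e k R s t true) = 1 := by
    by_cases h : s = t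
    · rw [← h, ztr_e_self, map_one]
    · rw [ztr_e_ne h, cond_true, map_sub, map_one, p2, sub_zero]
  have h1 := congrArg π (congrFun (congrFun e true) true)
  rwa [ztr_m_eq, ztr_tt, map_mul, map_mul, p2, p3, p4, mul_one, mul_zero] at h1

theorem ztr_top {s t : S} (h : s ≠ t) {g : MonoidAlgebra k R}
    (hg : g ∈ (mcat k (ztr_C β)).sub (ztr_mk β s true) (ztr_mk β t true) 0) :
    ∃ a ∈ 𝒞.sub s t 0, ztr_L β s t a * (1 - ztr_z k R) = g * (1 - ztr_z k R) := by
  refine ztr_ind (P := fun g => ∃ a ∈ 𝒞.sub s t 0,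
    ztr_L β s t a * (1 - ztr_z k R) = g * (1 - ztr_z k R)) ⟨0, zero_mem _, by rw [map_zero]⟩ ?_ ?_
    (fun _ m hm => ?_) hg
  · rintro g g' ⟨a, ha, e⟩ ⟨a', ha', e'⟩
    exact ⟨a + a', add_mem ha ha', by rw [map_add, add_mul, add_mul, e, e']⟩
  · rintro c g ⟨a, ha, e⟩
    exact ⟨c • a, Submodule.smul_mem _ c ha, by rw [map_smul, smul_mul_assoc, smul_mul_assoc, e]⟩
  · rcases hm with ⟨e, -⟩ | ⟨-, rfl | ⟨-, -, h3⟩⟩
    · exact absurd (ztr_mk_inj e).1 h
    · exact ⟨0, zero_mem _, by rw [map_zero, zero_mul, mul_sub, mul_one, ztr_mul_z, ztr_z, sub_self]⟩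
    · exact ⟨m, β.mem h3, by rw [ztr_L_eq (s := s) (t := t) h3]⟩

theorem ztr_up {s t : S} {n : ℤ} {g : MonoidAlgebra k R}
    (hg : g ∈ (mcat k (ztr_C β)).sub (ztr_mk β s false) (ztr_mk β t true) n) :
    ∃ w ∈ (mcat k (ztr_C β)).sub (ztr_mk β s false) (ztr_mk β t false) 0, w * ztr_z k R = g := by
  refine ztr_low (P := fun g => ∃ w ∈ (mcat k (ztr_C β)).sub (ztr_mk β s false)
    (ztr_mk β t false) 0, w * ztr_z k R = g) (Or.inr (by decide)) (Or.inl rfl)
    ⟨0, zero_mem _, zero_mul _⟩ ?_ ?_ (fun h => ?_) hg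
  · rintro _ _ ⟨a, ha, rfl⟩ ⟨a', ha', rfl⟩
    exact ⟨a + a', add_mem ha ha', add_mul _ _ _⟩
  · rintro c _ ⟨a, ha, rfl⟩
    exact ⟨c • a, Submodule.smul_mem _ c ha, smul_mul_assoc _ _ _⟩
  · by_cases e : s = t
    · subst e
      exact ⟨1, (mcat k (ztr_C β)).one_mem _, one_mul _⟩
    · have h1 := ztr_lt.1 h
      have h2 : β.rk s ≠ β.rk t := fun e' => e (β.rk_inj e')
      simp only [Bool.toNat_true, Bool.toNat_false] at h1
      exact ⟨_, ztr_z_mem (ztr_lt.2 (by omega)), ztr_zz⟩

theorem ztr_surj (s t : S) (n : ℤ) (f : Matrix Bool Bool (MonoidAlgebra k R))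
    (hf : SP (mcat k (ztr_C β)) (ztr_Y β s).toGn (ztr_Y β t).toGn n f)
    (hd : dP (ztr_Y β s) (ztr_Y β t) n f = 0) :
    ∃ a ∈ 𝒞.sub s t n, ∃ h, SP (mcat k (ztr_C β)) (ztr_Y β s).toGn (ztr_Y β t).toGn (n - 1) h ∧
      f = ztr_m β s t a + dP (ztr_Y β s) (ztr_Y β t) (n - 1) h := by
  obtain ⟨f1, f2, f3, f4⟩ := ztr_sp.1 hf
  have d1 := congrFun (congrFun hd false) true
  have d2 := congrFun (congrFun hd true) true
  rw [ztr_ft, Matrix.zero_apply, sub_eq_zero] at d1
  rw [ztr_tt, Matrix.zero_apply, ztr_low_z (Or.inr (by decide)) (Or.inr rfl) f3] at d2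
  by_cases h0 : n = 0
  · subst h0
    rw [sg_zero, one_smul] at d1
    have e2 := ztr_deg (by decide) f2
    by_cases h : s = t
    · subst h
      obtain ⟨c, e1⟩ := ztr_self f1
      obtain ⟨c', e4⟩ := ztr_self f4
      rw [e1, e4, smul_mul_assoc, smul_mul_assoc, one_mul] at d1
      have e5 : c = c' := smul_left_injective k (single_ne_zero.2 one_ne_zero) d1
      refine ⟨c • 1, Submodule.smul_mem _ c (𝒞.one_mem s), 0, SP.zero, ?_⟩
      rw [dP_zero, add_zero, map_smul, ztr_m_one]
      refine ztr_ext ?_ ?_ ?_ ?_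
      · rw [e1, Matrix.smul_apply, Matrix.one_apply_eq]
      · rw [e2, Matrix.smul_apply, Matrix.one_apply_ne (by decide), smul_zero]
      · rw [d2, Matrix.smul_apply, Matrix.one_apply_ne (by decide), smul_zero]
      · rw [e4, Matrix.smul_apply, Matrix.one_apply_eq, e5]
    · obtain ⟨a, ha, e4⟩ := ztr_top h f4
      have e1 := ztr_low_z (Or.inl h) (Or.inl rfl) f1
      have f5 : f false false ∈
          (mcat k (ztr_C β)).sub (ztr_mk β s true) (ztr_mk β t false) (0 - 1 + 1) :=
        ztr_low (P := fun g => g ∈ (mcat k (ztr_C β)).sub (ztr_mk β s true) (ztr_mk β t false) 0)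
          (Or.inl h) (Or.inl rfl) (zero_mem _) (fun _ _ => add_mem)
          (fun c _ => Submodule.smul_mem _ c) (fun h1 => ztr_z_mem (ztr_lt.2 (by
            have h2 := ztr_lt.1 h1
            simp only [Bool.toNat_true, Bool.toNat_false] at h2 ⊢
            omega))) f1
      refine ⟨a, ha, Matrix.single true false (f false false), ztr_sp.2 ⟨?_, ?_, ?_, ?_⟩,
        ztr_ext ?_ ?_ ?_ ?_⟩
      · rw [Matrix.single_apply_of_row_ne (by simp)]
        exact zero_mem _
      · rw [Matrix.single_apply_of_row_ne (by simp)]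
        exact zero_mem _
      · rwa [Matrix.single_apply_same]
      · rw [Matrix.single_apply_of_col_ne _ _ (by simp)]
        exact zero_mem _
      · rw [Matrix.add_apply, ztr_m_eq, ztr_ff, ztr_e_ne h, cond_false, mul_zero, zero_add,
          Matrix.single_apply_same, e1, zero_sub, sg_neg_one, neg_smul, one_smul, neg_neg]
      · rw [Matrix.add_apply, ztr_m_ft, ztr_ft, e2]
        simp
      · rw [Matrix.add_apply, ztr_m_tf, ztr_tf, d2, add_zero]
      · rw [Matrix.add_apply, ztr_m_eq, ztr_tt, ztr_e_ne h, cond_true, e4,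
          Matrix.single_apply_same, d1, mul_sub, mul_one, sub_add_cancel]
  have e1 := ztr_deg h0 f1
  have e4 := ztr_deg h0 f4
  refine ⟨0, zero_mem _, ?_⟩
  rw [map_zero]
  by_cases h1 : n - 1 = 0
  · obtain ⟨w, hw, e2⟩ := ztr_up f2
    rw [h1]
    refine ⟨Matrix.single false false w, ztr_sp.2 ⟨?_, ?_, ?_, ?_⟩, ?_⟩
    · rwa [Matrix.single_apply_same]
    · rw [Matrix.single_apply_of_col_ne _ _ (by simp)]
      exact zero_mem _
    · rw [Matrix.single_apply_of_row_ne (by simp)]
      exact zero_mem _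
    · rw [Matrix.single_apply_of_row_ne (by simp)]
      exact zero_mem _
    · rw [zero_add]
      refine ztr_ext ?_ ?_ ?_ ?_
      · rw [ztr_ff, e1]
        simp
      · rw [ztr_ft, ← e2]
        simp
      · rw [ztr_tf, d2]
      · rw [ztr_tt, e4]
        simp
  · refine ⟨0, SP.zero, ?_⟩
    rw [dP_zero, add_zero]
    exact ztr_ext e1 (ztr_deg h1 f2) d2 e4

theorem MBasis.exists_subst [Finite S] (β : MBasis 𝒞) :
    ∃ (S' : Type) (_ : Finite S') (_ : LinearOrder S') (C : MCat R S')
      (σ : Subst 𝒞 (mcat k C)), σ.QFF :=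
  ⟨ztr_S β, inferInstanceAs (Finite (S × Bool)), ztr_ord β, ztr_C β, ztr_subst β,
    ⟨ztr_surj, fun s t n a ha h _ e => ztr_inj s t n a ha h e⟩⟩

end Pool.Agent.Work.MP_910138_ag.C0
end

-- merged part: Pool.Agent.Work.MP_910138_ag.C0.ChainA
section
/-! The cellular chain complexes of the categories over an object. -/

open CategoryTheory

namespace Pool.Agent.Work.MP_910138_ag.C0

variable {M S : Type} [Monoid M] [LinearOrder S] [Finite S] {C : MCat M S} {c c' c'' : S}
  {k : Type} [Field k]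

omit [Finite S] in
theorem cha_face {x y : CGen C c} {T : Finset S} (hT : T ⊆ x.σ.T) (hne : T.Nonempty) :
    (x.Face y ∧ y.σ.T = T) ↔ y = x.res T hT hne := by
  constructor
  · rintro ⟨⟨⟨-, h1⟩, h2⟩, rfl⟩
    refine CGen.ext (Chn.ext rfl (funext fun i => funext fun j => ?_)) (funext fun i => ?_)
    · change _ = if i ∈ y.σ.T ∧ j ∈ y.σ.T then x.σ.a i j else 1
      split_ifs with h
      · exact h1 i h.1 j h.2
      · exact y.σ.norm i j fun h' => h ⟨h'.1, h'.2.1⟩
    · change _ = if i ∈ y.σ.T then x.g i else 1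
      split_ifs with h
      · exact h2 i h
      · exact y.norm i h
  · rintro rfl
    exact ⟨⟨⟨hT, fun i hi j hj => if_pos ⟨hi, hj⟩⟩, fun i hi => if_pos hi⟩, rfl⟩

omit [Finite S] in
theorem cha_push {m : M} (hm : m ∈ C.H c c') {x : CGen C c} {y : CGen C c'} :
    (y.σ = x.σ ∧ ∀ i ∈ x.σ.T, y.g i = x.g i * m) ↔ y = x.push m hm := by
  constructor
  · rintro ⟨h1, h2⟩
    refine CGen.ext h1 (funext fun i => ?_)
    change _ = if i ∈ x.σ.T then x.g i * m else 1
    split_ifs with h
    · exact h2 i h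
    · exact y.norm i (h1 ▸ h)
  · rintro rfl
    exact ⟨rfl, fun i hi => if_pos hi⟩

omit [Finite S] in
theorem cha_res_res (x : CGen C c) {T T' : Finset S} (hT : T ⊆ x.σ.T) (hne : T.Nonempty)
    (hT' : T' ⊆ T) (hne' : T'.Nonempty) :
    (x.res T hT hne).res T' hT' hne' = x.res T' (hT'.trans hT) hne' := by
  refine (cha_face _ _).1 ⟨⟨⟨hT'.trans hT, fun i hi j hj => ?_⟩, fun i hi => ?_⟩, rfl⟩
  · exact (if_pos ⟨hi, hj⟩).trans (if_pos ⟨hT' hi, hT' hj⟩)
  · exact (if_pos hi).trans (if_pos (hT' hi))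

omit [Finite S] in
theorem cha_res_push {m : M} (hm : m ∈ C.H c c') (x : CGen C c) {T : Finset S} (hT : T ⊆ x.σ.T)
    (hne : T.Nonempty) : (x.push m hm).res T hT hne = (x.res T hT hne).push m hm := by
  refine (cha_push hm).1 ⟨rfl, fun i hi => ?_⟩
  have hi' : i ∈ T := hi
  change (if i ∈ T then (if i ∈ x.σ.T then x.g i * m else 1) else 1) =
    (if i ∈ T then x.g i else 1) * m
  rw [if_pos hi', if_pos hi', if_pos (hT hi')]

omit [Finite S] in
theorem cha_push_push {m m' : M} (hm : m ∈ C.H c c') (hm' : m' ∈ C.H c' c'') (x : CGen C c) :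
    (x.push m hm).push m' hm' = x.push (m * m') (C.mul_mem hm hm') := by
  refine (cha_push _).1 ⟨rfl, fun i hi => ?_⟩
  change (if i ∈ x.σ.T then (if i ∈ x.σ.T then x.g i * m else 1) * m' else 1) = _
  rw [if_pos hi, if_pos hi, mul_assoc]

omit [Finite S] in
theorem cha_anti {V : Type} [AddCommGroup V] (T : Finset S) (h : S → S → V)
    (H : ∀ i ∈ T, ∀ j ∈ T, i < j → h i j + h j i = 0) : ∑ i ∈ T, ∑ j ∈ T.erase i, h i j = 0 := by
  rw [← Finset.sum_finset_product' T.offDiag T (fun i => T.erase i) fun p => by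
    simp only [Finset.mem_offDiag, Finset.mem_erase]
    exact ⟨fun h => ⟨h.1, h.2.2.symm, h.2.1⟩, fun h => ⟨h.1, h.2.2, h.2.1.symm⟩⟩]
  refine Finset.sum_involution (fun p _ => p.swap) (fun p hp => ?_) (fun p hp _ e => ?_)
    (fun p hp => ?_) fun p _ => rfl
  · obtain ⟨h1, h2, h3⟩ := Finset.mem_offDiag.1 hp
    rcases lt_or_gt_of_ne h3 with h4 | h4
    · exact H _ h1 _ h2 h4
    · exact (add_comm _ _).trans (H _ h2 _ h1 h4)
  · exact (Finset.mem_offDiag.1 hp).2.2 (congrArg Prod.snd e)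
  · obtain ⟨h1, h2, h3⟩ := Finset.mem_offDiag.1 hp
    exact Finset.mem_offDiag.2 ⟨h2, h1, h3.symm⟩

omit [Finite S] in
theorem cha_csgn {T : Finset S} {i j : S} (hi : i ∈ T) (h : i < j) :
    csgn k T i * csgn k (T.erase i) j + csgn k T j * csgn k (T.erase j) i = 0 := by
  have e1 : (T.erase j).filter (· < i) = T.filter (· < i) := by
    rw [Finset.filter_erase, Finset.erase_eq_of_notMem]
    exact fun h' => lt_asymm h (Finset.mem_filter.1 h').2
  have e2 : ((T.erase i).filter (· < j)).card + 1 = (T.filter (· < j)).card := by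
    rw [Finset.filter_erase, Finset.card_erase_add_one (Finset.mem_filter.2 ⟨hi, h⟩)]
  simp only [csgn]
  rw [e1, ← e2, pow_succ]
  ring

omit [Finite S] in
theorem cha_ind {n : ℤ} {P : MonoidAlgebra k M → Prop} (h0 : P 0)
    (hadd : ∀ a b, P a → P b → P (a + b))
    (hs : n = 0 → ∀ m ∈ C.H c c', ∀ r, P (MonoidAlgebra.single m r)) {a : MonoidAlgebra k M}
    (ha : a ∈ (mcat k C).sub c c' n) : P a := by
  rw [← MonoidAlgebra.sum_coeff_single a, Finsupp.sum]
  refine Finset.sum_induction _ P hadd h0 fun m hm => ?_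
  obtain ⟨h1, h2⟩ := mem_mcat.1 ha m (Finsupp.mem_support_iff.1 hm)
  exact hs h1 m h2 _

theorem chD_sum {V : Type} [AddCommGroup V] [Module k V] (x : CGen C c) (F : CGen C c → V) :
    ∑ y, chD k c x y • F y = ∑ j ∈ x.σ.T, if h : (x.σ.T.erase j).Nonempty then
      csgn k x.σ.T j • F (x.res _ (Finset.erase_subset _ _) h) else 0 := by
  simp only [chD, Finset.sum_smul]
  rw [Finset.sum_comm]
  refine Finset.sum_congr rfl fun j _ => ?_
  split_ifs with h
  · rw [Finset.sum_eq_single (x.res _ (Finset.erase_subset _ _) h), if_pos ((cha_face _ h).2 rfl)]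
    · intro y _ hy
      rw [if_neg fun h' => hy ((cha_face _ h).1 h'), zero_smul]
    · exact fun h' => absurd (Finset.mem_univ _) h'
  · refine Finset.sum_eq_zero fun y _ => ?_
    rw [if_neg fun h' : _ ∧ y.σ.T = x.σ.T.erase j => h (h'.2 ▸ y.σ.ne), zero_smul]

theorem chM_sum {V : Type} [AddCommGroup V] [Module k V] {m : M} (hm : m ∈ C.H c c')
    (x : CGen C c) (F : CGen C c' → V) : ∑ y, chM k c c' m x y • F y = F (x.push m hm) := by
  simp only [chM]
  rw [Finset.sum_eq_single (x.push m hm), if_pos ((cha_push hm).2 rfl), one_smul]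
  · intro y _ hy
    rw [if_neg fun h' => hy ((cha_push hm).1 h'), zero_smul]
  · exact fun h' => absurd (Finset.mem_univ _) h'

theorem cha_D (x : CGen C c) (F : CGen C c → k) :
    (chD k c).mulVec F x = ∑ j ∈ x.σ.T, if h : (x.σ.T.erase j).Nonempty then
      csgn k x.σ.T j * F (x.res _ (Finset.erase_subset _ _) h) else 0 := chD_sum (k := k) x F

theorem cha_M {m : M} (hm : m ∈ C.H c c') (x : CGen C c) (F : CGen C c' → k) :
    (chM k c c' m).mulVec F x = F (x.push m hm) := chM_sum (k := k) hm x F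

omit [Finite S] in
theorem chAct_single (m : M) (r : k) :
    chAct C k c c' (MonoidAlgebra.single m r) = r • chM k c c' m :=
  Finsupp.linearCombination_single k r m

theorem chD_sp : SP (posetCat k (Chn C)) (chGn C c) (chGn C c) 1 (chD k c) := by
  intro x y
  refine mem_posetCat.2 fun h => ?_
  obtain ⟨j, hj, h'⟩ := Finset.exists_ne_zero_of_sum_ne_zero h
  obtain ⟨h1, h2⟩ : x.Face y ∧ y.σ.T = x.σ.T.erase j := by
    by_contra hc
    exact h' (if_neg hc)
  refine ⟨?_, h1.1⟩
  have h3 := Finset.card_erase_add_one hj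
  rw [← h2] at h3
  change (1 : ℤ) + (1 - (x.σ.T.card : ℤ)) - (1 - (y.σ.T.card : ℤ)) = 0
  omega

theorem chD_sq : chD (C := C) k c * chD k c = 0 := by
  refine Matrix.ext_iff_mulVec.2 fun F => funext fun x => ?_
  let G : Finset S → k := fun T =>
    if h : T ⊆ x.σ.T ∧ T.Nonempty then F (x.res T h.1 h.2) else 0
  have key := cha_anti x.σ.T
    (fun i j => csgn k x.σ.T i * csgn k (x.σ.T.erase i) j * G ((x.σ.T.erase i).erase j))
    fun i hi j _ h => by rw [Finset.erase_right_comm (a := j), ← add_mul, cha_csgn hi h, zero_mul]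
  rw [← Matrix.mulVec_mulVec, Matrix.zero_mulVec, cha_D]
  refine Eq.trans (Finset.sum_congr rfl fun i _ => ?_) key
  split_ifs with h
  · rw [cha_D, Finset.mul_sum]
    refine Finset.sum_congr rfl fun j _ => ?_
    rw [mul_assoc]
    congr 1
    split_ifs with h'
    · have h2 : (x.σ.T.erase i).erase j ⊆ x.σ.T ∧ ((x.σ.T.erase i).erase j).Nonempty :=
        ⟨(Finset.erase_subset _ _).trans (Finset.erase_subset _ _), h'⟩
      simp only [G, dif_pos h2]
      exact congrArg (fun y => _ * F y) (cha_res_res x _ h (Finset.erase_subset _ _) h')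
    · have h2 : ¬ ((x.σ.T.erase i).erase j ⊆ x.σ.T ∧ ((x.σ.T.erase i).erase j).Nonempty) :=
        fun h2 => h' h2.2
      simp only [G, dif_neg h2, mul_zero]
  · rw [Finset.not_nonempty_iff_eq_empty.1 h, Finset.sum_empty]

variable (C k) in
/-- the chain complex of the category over `c` -/
noncomputable abbrev chOb (c : S) : Ob (posetCat k (Chn C)) where
  toGn := chGn C c
  D := chD k c
  sp := chD_sp
  sq := chD_sq

theorem chAct_sp {n : ℤ} {a : MonoidAlgebra k M} (ha : a ∈ (mcat k C).sub c c' n) :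
    SP (posetCat k (Chn C)) (chGn C c) (chGn C c') n (chAct C k c c' a) := by
  refine cha_ind (P := fun a => SP (posetCat k (Chn C)) (chGn C c) (chGn C c') n (chAct C k c c' a))
    ?_ (fun a b ha hb => ?_) (fun hn m _ r => ?_) ha
  · rw [map_zero]
    exact SP.zero
  · rw [map_add]
    exact ha.add hb
  · rw [chAct_single]
    refine SP.smul (X := chGn C c) (Y := chGn C c') (f := chM k c c' m) r fun x y => mem_posetCat.2 fun h => ?_
    obtain ⟨h1, -⟩ : y.σ = x.σ ∧ ∀ i ∈ x.σ.T, y.g i = x.g i * m := by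
      by_contra hc
      exact h (if_neg hc)
    refine ⟨?_, h1.ge⟩
    change n + (1 - (x.σ.T.card : ℤ)) - (1 - (y.σ.T.card : ℤ)) = 0
    rw [h1, hn, zero_add, sub_self]

theorem chAct_cl {n : ℤ} {a : MonoidAlgebra k M} (ha : a ∈ (mcat k C).sub c c' n) :
    dP (chOb C k c) (chOb C k c') n (chAct C k c c' a) = 0 := by
  refine cha_ind (P := fun a => dP (chOb C k c) (chOb C k c') n (chAct C k c c' a) = 0)
    ?_ (fun a b ha hb => ?_) (fun hn m hm r => ?_) ha
  · rw [map_zero, dP_zero]
  · rw [map_add, dP_add, ha, hb, add_zero]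
  · subst hn
    have e : chM (C := C) k c c' m * chD (C := C) k c' =
        chD (C := C) k c * chM (C := C) k c c' m := by
      refine Matrix.ext_iff_mulVec.2 fun F => funext fun x => ?_
      rw [← Matrix.mulVec_mulVec, ← Matrix.mulVec_mulVec, cha_M hm, cha_D, cha_D]
      refine Finset.sum_congr rfl fun j _ => ?_
      by_cases h : (x.σ.T.erase j).Nonempty
      · rw [dif_pos h, dif_pos (show ((x.push m hm).σ.T.erase j).Nonempty from h), cha_M hm,
          ← cha_res_push]
        rfl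
      · rw [dif_neg h, dif_neg (show ¬ ((x.push m hm).σ.T.erase j).Nonempty from h)]
    rw [chAct_single, dP_smul, dP_zero_iff.2 e, smul_zero]

theorem chAct_mul {n l : ℤ} {a b : MonoidAlgebra k M} (ha : a ∈ (mcat k C).sub c c' n)
    (hb : b ∈ (mcat k C).sub c' c'' l) :
    chAct C k c c'' (a * b) = chAct C k c c' a * chAct C k c' c'' b := by
  refine cha_ind (P := fun a => chAct C k c c'' (a * b) = chAct C k c c' a * chAct C k c' c'' b)
    ?_ (fun a a' h h' => ?_) (fun _ m hm r => ?_) ha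
  · rw [zero_mul, map_zero, map_zero, Matrix.zero_mul]
  · rw [add_mul, map_add, map_add, Matrix.add_mul, h, h']
  refine cha_ind (P := fun b => chAct C k c c'' (MonoidAlgebra.single m r * b) =
    chAct C k c c' (MonoidAlgebra.single m r) * chAct C k c' c'' b)
    ?_ (fun b b' h h' => ?_) (fun _ m' hm' r' => ?_) hb
  · rw [mul_zero, map_zero, map_zero, Matrix.mul_zero]
  · rw [mul_add, map_add, map_add, Matrix.mul_add, h, h']
  have e : chM (C := C) k c c'' (m * m') = chM (C := C) k c c' m * chM (C := C) k c' c'' m' := by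
    refine Matrix.ext_iff_mulVec.2 fun F => funext fun x => ?_
    rw [← Matrix.mulVec_mulVec, cha_M hm, cha_M hm', cha_M (C.mul_mem hm hm'), cha_push_push]
  rw [MonoidAlgebra.single_mul_single, chAct_single, chAct_single, chAct_single, e,
    Matrix.smul_mul, Matrix.mul_smul, smul_smul]

theorem chAct_one : chAct C k c c 1 = 1 := by
  rw [MonoidAlgebra.one_def, chAct_single, one_smul]
  refine Matrix.ext_iff_mulVec.2 fun F => funext fun x => ?_
  rw [cha_M (C.one_mem c), Matrix.one_mulVec]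
  exact congrArg F ((cha_push _).1 ⟨rfl, fun i _ => (mul_one _).symm⟩).symm

variable (C k) in
/-- the functor to complexes over the poset of chains -/
noncomputable def chSubst : Subst (mcat k C) (posetCat k (Chn C)) where
  Y := chOb C k
  m := chAct C k
  sp := chAct_sp
  cl := chAct_cl
  mul := chAct_mul
  one _ := chAct_one

end Pool.Agent.Work.MP_910138_ag.C0
end

-- merged part: Pool.Agent.Work.MP_910138_ag.C0.ChainB
section
/-! Projection of the Hom-complex onto the bar complex; its kernel is acyclic. -/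

open CategoryTheory

namespace Pool.Agent.Work.MP_910138_ag.C0

variable {M S : Type} [Monoid M] [LinearOrder S] [Finite S] {C : MCat M S} {c c' : S}
  {k : Type} [Field k]

/-- the projection onto the bar complex -/
noncomputable def chPi (f : Matrix (CGen C c) (CGen C c') k) (x : CGen C c) : MonoidAlgebra k M :=
  ∑ y, if y.σ.T.card = 1 then
    f x y • MonoidAlgebra.single (x.σ.a x.σ.mn y.σ.mn * y.g y.σ.mn) (1 : k) else 0

variable (c') in
/-- bar cochains of degree `n` -/
def BarC (n : ℤ) (β : CGen C c → MonoidAlgebra k M) : Prop :=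
  ∀ x, β x ∈ (mcat k C).sub x.σ.mn c' (n + (1 - (x.σ.T.card : ℤ)))

/-- the bar differential -/
noncomputable def barD (β : CGen C c → MonoidAlgebra k M) (x : CGen C c) : MonoidAlgebra k M :=
  ∑ y, chD k c x y • (MonoidAlgebra.single (x.σ.a x.σ.mn y.σ.mn) (1 : k) * β y)

/-- the constant cochains -/
noncomputable def barE (a : MonoidAlgebra k M) (x : CGen C c) : MonoidAlgebra k M :=
  if x.σ.T.card = 1 then MonoidAlgebra.single (x.g x.σ.mn) (1 : k) * a else 0

section aux

omit [Finite S]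

variable {σ τ : Chn C} {y z : CGen C c'}

theorem chb_mn_mem (σ : Chn C) : σ.mn ∈ σ.T := Finset.min'_mem _ _

theorem chb_mn_le {i : S} (hi : i ∈ σ.T) : σ.mn ≤ i := Finset.min'_le _ _ hi

theorem chb_self (σ : Chn C) (i : S) : σ.a i i = 1 := by
  by_cases hi : i ∈ σ.T
  · exact ((C.lt (σ.mem i hi i hi le_rfl)).resolve_left (lt_irrefl i)).2
  · exact σ.norm i i fun h => hi h.1

theorem chb_mn_eq {i : S} (h : σ.T = {i}) : σ.mn = i := by
  have := chb_mn_mem σ
  rwa [h, Finset.mem_singleton] at this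

/-- the composite from the first vertex of `σ` -/
def chb_val (σ : Chn C) (y : CGen C c') : M := σ.a σ.mn y.σ.mn * y.g y.σ.mn

theorem chb_val_eq (h : σ ≤ y.σ) {j : S} (hj : j ∈ y.σ.T) : σ.a σ.mn j * y.g j = chb_val σ y := by
  have hm := chb_mn_mem y.σ
  rw [chb_val, ← y.comp _ hm j hj (chb_mn_le hj), h.2 _ hm j hj, ← mul_assoc,
    σ.comp _ (chb_mn_mem σ) _ (h.1 hm) j (h.1 hj) (chb_mn_le (h.1 hm)) (chb_mn_le hj)]

theorem chb_val_mem (h : σ ≤ y.σ) : chb_val σ y ∈ C.H σ.mn c' :=
  C.mul_mem (σ.mem _ (chb_mn_mem σ) _ (h.1 (chb_mn_mem _)) (chb_mn_le (h.1 (chb_mn_mem _))))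
    (y.mem _ (chb_mn_mem _))

theorem chb_val_mul (h : σ ≤ τ) (h' : τ ≤ y.σ) :
    σ.a σ.mn τ.mn * chb_val τ y = chb_val σ y := by
  have hm := chb_mn_mem y.σ
  have ht := chb_mn_mem τ
  rw [chb_val, chb_val, ← mul_assoc, h.2 _ ht _ (h'.1 hm),
    σ.comp _ (chb_mn_mem σ) _ (h.1 ht) _ (h.1 (h'.1 hm)) (chb_mn_le (h.1 ht)) (chb_mn_le (h'.1 hm))]

theorem chb_ext (hy : σ ≤ y.σ) (hz : σ ≤ z.σ) (hT : y.σ.T = z.σ.T)
    (hg : ∀ i ∈ y.σ.T, y.g i = z.g i) : y = z := by
  refine CGen.ext (le_antisymm ((Chn.le_iff C).2 ⟨hT.ge, fun i hi j hj => ?_⟩)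
    ((Chn.le_iff C).2 ⟨hT.le, fun i hi j hj => ?_⟩)) (funext fun i => ?_)
  · rw [hz.2 i hi j hj, hy.2 i (hT ▸ hi) j (hT ▸ hj)]
  · rw [hy.2 i hi j hj, hz.2 i (hT ▸ hi) j (hT ▸ hj)]
  · by_cases hi : i ∈ y.σ.T
    · exact hg i hi
    · rw [y.norm i hi, z.norm i (hT ▸ hi)]

theorem chb_le_res (σ : Chn C) {T : Finset S} (hT : T ⊆ σ.T) (hne : T.Nonempty) :
    σ ≤ σ.res T hT hne := ⟨hT, fun _ hi _ hj => if_pos ⟨hi, hj⟩⟩

theorem chb_le_res' (h : σ ≤ y.σ) {T : Finset S} (hT : T ⊆ y.σ.T) (hne : T.Nonempty) :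
    σ ≤ (y.res T hT hne).σ := h.trans (chb_le_res _ hT hne)

theorem chb_res_g {T : Finset S} (hT : T ⊆ y.σ.T) (hne : T.Nonempty) {i : S} (hi : i ∈ T) :
    (y.res T hT hne).g i = y.g i := if_pos hi

theorem chb_val_res (h : σ ≤ y.σ) {T : Finset S} (hT : T ⊆ y.σ.T) (hne : T.Nonempty) :
    chb_val σ (y.res T hT hne) = chb_val σ y := by
  obtain ⟨j, hj⟩ := id hne
  rw [← chb_val_eq (chb_le_res' h hT hne) (j := j) hj, chb_res_g hT hne hj, chb_val_eq h (hT hj)]

/-- a generator with one vertex -/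
def chb_vtx (μ : S) (m : M) (hm : m ∈ C.H μ c') : CGen C c' where
  σ :=
    { T := {μ}
      a := fun _ _ => 1
      ne := Finset.singleton_nonempty μ
      mem := fun i hi j hj _ => by
        rw [Finset.mem_singleton.1 hi, Finset.mem_singleton.1 hj]
        exact C.one_mem μ
      comp := fun _ _ _ _ _ _ _ _ => one_mul 1
      norm := fun _ _ _ => rfl }
  g i := if i = μ then m else 1
  mem i hi := by
    rw [Finset.mem_singleton.1 hi, if_pos rfl]
    exact hm
  comp i hi j hj _ := by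
    rw [Finset.mem_singleton.1 hi, Finset.mem_singleton.1 hj, one_mul]
  norm i hi := if_neg fun h => hi (Finset.mem_singleton.2 h)

theorem chb_le_of_T {i : S} (hi : i ∈ σ.T) (h : τ.T = {i}) : σ ≤ τ := by
  refine ⟨h ▸ Finset.singleton_subset_iff.2 hi, fun a ha b hb => ?_⟩
  rw [h, Finset.mem_singleton] at ha hb
  rw [ha, hb, chb_self, chb_self]

theorem chb_eq_vtx {μ : S} {m : M} (hm : m ∈ C.H μ c') :
    y = chb_vtx μ m hm ↔ y.σ.T = {μ} ∧ y.g μ = m := by
  constructor
  · rintro rfl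
    exact ⟨rfl, if_pos rfl⟩
  · rintro ⟨h1, h2⟩
    refine chb_ext le_rfl (chb_le_of_T (h1 ▸ Finset.mem_singleton_self μ) rfl) h1 fun i hi => ?_
    rw [h1, Finset.mem_singleton] at hi
    rw [hi, h2]
    exact (if_pos rfl).symm

theorem chb_ins (h : σ ≤ y.σ) : insert σ.mn y.σ.T ⊆ σ.T :=
  Finset.insert_subset (chb_mn_mem σ) h.1

/-- add the first vertex of `σ` -/
def chb_up (σ : Chn C) (y : CGen C c') (h : σ ≤ y.σ) : CGen C c' where
  σ := σ.res (insert σ.mn y.σ.T) (chb_ins h) (Finset.insert_nonempty _ _)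
  g i := if i = σ.mn then chb_val σ y else y.g i
  mem i hi := by
    split_ifs with h'
    · exact h' ▸ chb_val_mem h
    · exact y.mem i ((Finset.mem_insert.1 hi).resolve_left h')
  comp i hi j hj hij := by
    change (if i ∈ insert σ.mn y.σ.T ∧ j ∈ insert σ.mn y.σ.T then σ.a i j else 1) * _ = _
    rw [if_pos ⟨hi, hj⟩]
    by_cases h2 : j = σ.mn
    · have h1 : i = σ.mn := le_antisymm (h2 ▸ hij) (chb_mn_le (chb_ins h hi))
      rw [h1, h2, chb_self, one_mul]
    · have hj' := (Finset.mem_insert.1 hj).resolve_left h2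
      rw [if_neg h2]
      split_ifs with h1
      · rw [h1, chb_val_eq h hj']
      · have hi' := (Finset.mem_insert.1 hi).resolve_left h1
        rw [← h.2 i hi' j hj', y.comp i hi' j hj' hij]
  norm i hi := by
    rw [if_neg fun h' => hi (Finset.mem_insert.2 (Or.inl h'))]
    exact y.norm i fun h' => hi (Finset.mem_insert_of_mem h')

theorem chb_le_up (h : σ ≤ y.σ) : σ ≤ (chb_up σ y h).σ := chb_le_res _ (chb_ins h) _

theorem chb_up_g (h : σ ≤ y.σ) (i : S) :
    (chb_up σ y h).g i = if i = σ.mn then chb_val σ y else y.g i := rfl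

open Classical in
/-- the contraction, acting on test functions -/
noncomputable def chb_H (σ : Chn C) (F : CGen C c' → k) (y : CGen C c') : k :=
  if h : σ ≤ y.σ ∧ σ.mn ∉ y.σ.T then F (chb_up σ y h.1) else 0

theorem chb_csgn_min {T : Finset S} (hT : T ⊆ σ.T) : csgn k T σ.mn = 1 := by
  rw [csgn, Finset.filter_eq_empty_iff.2 fun i hi => not_lt.2 (chb_mn_le (hT hi))]
  simp

theorem chb_csgn_ins {T : Finset S} (hT : T ⊆ σ.T) (hm : σ.mn ∉ T) {j : S} (hj : j ∈ T) :
    csgn k (insert σ.mn T) j = -csgn k T j := by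
  have : σ.mn < j := lt_of_le_of_ne (chb_mn_le (hT hj)) fun h => hm (h ▸ hj)
  rw [csgn, csgn, Finset.filter_insert, if_pos this,
    Finset.card_insert_of_notMem fun h => hm (Finset.mem_filter.1 h).1, pow_succ]
  simp

theorem chb_csgn_two {T : Finset S} (hT : T.card = 2) : ∑ j ∈ T, csgn k T j = 0 := by
  have key : ∀ a b : S, a < b → ∑ j ∈ ({a, b} : Finset S), csgn k {a, b} j = 0 := by
    intro a b hab
    rw [Finset.sum_pair hab.ne]
    simp [csgn, Finset.filter_insert, Finset.filter_singleton, hab, hab.not_gt]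
  obtain ⟨a, b, hab, rfl⟩ := Finset.card_eq_two.1 hT
  rcases lt_or_gt_of_ne hab with h | h
  · exact key a b h
  · rw [Finset.pair_comm]
    exact key b a h

/-- the weight of a generator in the projection -/
noncomputable def chb_w (k : Type) [Field k] (σ : Chn C) (y : CGen C c') : MonoidAlgebra k M :=
  if y.σ.T.card = 1 then MonoidAlgebra.single (chb_val σ y) 1 else 0

end aux

theorem chb_key {σ : Chn C} {y : CGen C c'} (h : σ ≤ y.σ) (F : CGen C c' → k) :
    ∑ y', chD k c' y y' • chb_H σ F y' + chb_H σ (fun y' => ∑ z, chD k c' y' z • F z) y +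
      (if y.σ.T.card = 1 then F (chb_vtx σ.mn _ (chb_val_mem h)) else 0) = F y := by
  rw [chD_sum]
  by_cases hm : σ.mn ∈ y.σ.T
  · rw [chb_H, dif_neg fun h' => h'.2 hm, add_zero, Finset.sum_eq_single_of_mem σ.mn hm]
    · by_cases hne : (y.σ.T.erase σ.mn).Nonempty
      · have hc : y.σ.T.card ≠ 1 := by
          have := Finset.card_erase_add_one hm
          have := hne.card_pos
          omega
        have h1 := chb_le_res' h (Finset.erase_subset σ.mn _) hne
        rw [dif_pos hne, if_neg hc, add_zero, chb_csgn_min h.1, one_smul, chb_H,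
          dif_pos ⟨h1, Finset.notMem_erase _ _⟩]
        congr 1
        refine chb_ext (chb_le_up h1) h (Finset.insert_erase hm) fun i hi => ?_
        rw [chb_up_g]
        split_ifs with h2
        · rw [chb_val_res h, ← chb_val_eq h hm, chb_self, one_mul, h2]
        · exact chb_res_g _ _ ((Finset.mem_insert.1 hi).resolve_left h2)
      · have hT : y.σ.T = {σ.mn} := by
          rw [← Finset.insert_erase hm, Finset.not_nonempty_iff_eq_empty.1 hne]
          rfl
        rw [dif_neg hne, zero_add, if_pos (by rw [hT, Finset.card_singleton])]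
        congr 1
        refine ((chb_eq_vtx _).2 ⟨hT, ?_⟩).symm
        rw [← chb_val_eq h hm, chb_self, one_mul]
    · intro j _ hj
      split_ifs with hne
      · rw [chb_H, dif_neg fun h' => h'.2 (Finset.mem_erase.2 ⟨hj.symm, hm⟩), smul_zero]
      · rfl
  · rw [chb_H, dif_pos ⟨h, hm⟩, chD_sum]
    have hu := chb_le_up h
    have hT : (chb_up σ y h).σ.T = insert σ.mn y.σ.T := rfl
    have e1 : ((chb_up σ y h).σ.T.erase σ.mn) = y.σ.T := Finset.erase_insert hm
    have hn : ((chb_up σ y h).σ.T.erase σ.mn).Nonempty := by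
      rw [e1]
      exact y.σ.ne
    have hmu : σ.mn ∈ (chb_up σ y h).σ.T := Finset.mem_insert_self _ _
    rw [← Finset.add_sum_erase _ _ hmu, dif_pos hn, chb_csgn_min hu.1, one_smul]
    have e2 : (chb_up σ y h).res _ (Finset.erase_subset σ.mn _) hn = y := by
      refine chb_ext (chb_le_res' hu _ _) h e1 fun i hi => ?_
      have hi' : i ∈ (chb_up σ y h).σ.T.erase σ.mn := hi
      rw [chb_res_g _ _ hi', chb_up_g, if_neg (Finset.mem_erase.1 hi').1]
    rw [e2, Finset.sum_congr e1 fun _ _ => rfl, add_left_comm, add_assoc, add_eq_left,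
      ← Finset.sum_add_distrib]
    have e3 : ∀ j ∈ y.σ.T, ((chb_up σ y h).σ.T.erase j).Nonempty := fun j hj =>
      ⟨σ.mn, Finset.mem_erase.2 ⟨fun h' => hm (h' ▸ hj), Finset.mem_insert_self _ _⟩⟩
    by_cases hc : y.σ.T.card = 1
    · obtain ⟨j, hj⟩ := Finset.card_eq_one.1 hc
      have hj' : j ∈ y.σ.T := hj ▸ Finset.mem_singleton_self j
      have hjm : σ.mn ≠ j := fun h' => hm (h' ▸ hj')
      rw [if_pos hc, Finset.sum_eq_single_of_mem j hj' fun b hb hbj =>
        absurd (Finset.mem_singleton.1 (hj ▸ hb)) hbj, dif_neg (by simp [hj]), zero_add,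
        dif_pos (e3 j hj')]
      have e4 : csgn k (chb_up σ y h).σ.T j = -1 := by
        rw [hT, chb_csgn_ins h.1 hm hj', csgn, hj]
        simp [Finset.filter_singleton]
      rw [e4, neg_one_smul, neg_add_eq_zero]
      congr 1
      refine (chb_eq_vtx _).2 ⟨?_, ?_⟩
      · change (insert σ.mn y.σ.T).erase j = _
        rw [hj, Finset.pair_comm, Finset.erase_insert (by simpa using hjm.symm)]
      · rw [chb_res_g _ _ (Finset.mem_erase.2 ⟨hjm, hmu⟩), chb_up_g, if_pos rfl]
    · rw [if_neg hc, add_zero]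
      refine Finset.sum_eq_zero fun j hj => ?_
      have hjm : σ.mn ≠ j := fun h' => hm (h' ▸ hj)
      have hne : (y.σ.T.erase j).Nonempty := by
        have := Finset.card_erase_add_one hj
        rw [← Finset.card_pos]
        omega
      have h1 := chb_le_res' h (Finset.erase_subset j _) hne
      have e4 : csgn k (chb_up σ y h).σ.T j = -csgn k y.σ.T j := chb_csgn_ins h.1 hm hj
      have h3 : σ.mn ∉ (y.res _ (Finset.erase_subset j _) hne).σ.T := fun h' =>
        hm (Finset.erase_subset j _ h')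
      rw [dif_pos hne, dif_pos (e3 j hj), e4, neg_smul, add_neg_eq_zero, chb_H, dif_pos ⟨h1, h3⟩]
      congr 2
      refine chb_ext (chb_le_up h1) (chb_le_res' hu _ _) (Finset.erase_insert_of_ne hjm).symm
        fun i hi => ?_
      have hi' : i ∈ (chb_up σ y h).σ.T.erase j := by
        rw [hT, Finset.erase_insert_of_ne hjm]
        exact hi
      rw [chb_res_g _ _ hi', chb_up_g, chb_up_g, chb_val_res h]
      split_ifs with h2
      · rfl
      · exact chb_res_g _ _ ((Finset.mem_insert.1 hi).resolve_left h2)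

theorem chb_pi (f : Matrix (CGen C c) (CGen C c') k) (x : CGen C c) :
    chPi f x = ∑ y, f x y • chb_w k x.σ y := by
  refine Finset.sum_congr rfl fun y _ => ?_
  rw [chb_w]
  split_ifs
  · rfl
  · rw [smul_zero]

theorem chb_D_w {σ : Chn C} {y : CGen C c'} (h : σ ≤ y.σ) :
    ∑ z, chD k c' y z • chb_w k σ z = 0 := by
  rw [chD_sum]
  by_cases hc : y.σ.T.card = 2
  · have : ∀ j ∈ y.σ.T, (if h : (y.σ.T.erase j).Nonempty then
        csgn k y.σ.T j • chb_w k σ (y.res _ (Finset.erase_subset _ _) h) else 0) =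
        csgn k y.σ.T j • MonoidAlgebra.single (chb_val σ y) (1 : k) := fun j hj => by
      have h1 : (y.σ.T.erase j).card = 1 := by
        have := Finset.card_erase_add_one hj
        omega
      rw [dif_pos (Finset.card_pos.1 (by omega)), chb_w, if_pos (by exact h1), chb_val_res h]
    rw [Finset.sum_congr rfl this, ← Finset.sum_smul, chb_csgn_two hc, zero_smul]
  · refine Finset.sum_eq_zero fun j hj => ?_
    split_ifs with hne
    · have h1 : (y.σ.T.erase j).card ≠ 1 := by
        have := Finset.card_erase_add_one hj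
        omega
      rw [chb_w, if_neg (by exact h1), smul_zero]
    · rfl

variable {n : ℤ} {f : Matrix (CGen C c) (CGen C c') k}

theorem chb_sp (hf : SP (posetCat k (Chn C)) (chGn C c) (chGn C c') n f) {x : CGen C c}
    {y : CGen C c'} (h : f x y ≠ 0) : n + y.σ.T.card = x.σ.T.card ∧ x.σ ≤ y.σ := by
  obtain ⟨h1, h2⟩ := mem_posetCat.1 (hf x y) h
  exact ⟨by dsimp only at h1; omega, h2⟩

theorem chPi_sub (f g : Matrix (CGen C c) (CGen C c') k) : chPi (f - g) = chPi f - chPi g := by
  funext x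
  simp only [Pi.sub_apply, chb_pi, Matrix.sub_apply, sub_smul, Finset.sum_sub_distrib]

theorem chPi_mem (hf : SP (posetCat k (Chn C)) (chGn C c) (chGn C c') n f) :
    BarC c' n (chPi f) := by
  intro x
  rw [chb_pi]
  refine sum_mem fun y _ => ?_
  by_cases h : f x y = 0
  · rw [h, zero_smul]
    exact zero_mem _
  obtain ⟨h1, h2⟩ := chb_sp hf h
  refine Submodule.smul_mem _ _ ?_
  rw [chb_w]
  split_ifs with hc
  · refine mem_mcat.2 fun m hm => ⟨by omega, ?_⟩
    rw [MonoidAlgebra.coeff_single] at hm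
    rw [(Finsupp.single_apply_ne_zero.1 hm).1]
    exact chb_val_mem h2
  · exact zero_mem _

theorem chPi_dP (hf : SP (posetCat k (Chn C)) (chGn C c) (chGn C c') n f) :
    chPi (dP (chOb C k c) (chOb C k c') n f) = -(sg n • barD (chPi f)) := by
  funext x
  have h1 : ∑ z, (f * chD (C := C) k c') x z • chb_w k x.σ z = 0 := by
    simp only [Matrix.mul_apply, Finset.sum_smul]
    rw [Finset.sum_comm]
    refine Finset.sum_eq_zero fun y _ => ?_
    simp only [mul_smul, ← Finset.smul_sum]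
    by_cases h : f x y = 0
    · rw [h, zero_smul]
    · rw [chb_D_w (chb_sp hf h).2, smul_zero]
  have h2 : ∑ z, (chD (C := C) k c * f) x z • chb_w k x.σ z = barD (chPi f) x := by
    simp only [Matrix.mul_apply, Finset.sum_smul, barD]
    rw [Finset.sum_comm]
    refine Finset.sum_congr rfl fun x' _ => ?_
    simp only [mul_smul, ← Finset.smul_sum]
    by_cases h : chD k c x x' = 0
    · rw [h, zero_smul, zero_smul]
    congr 1
    rw [chb_pi, Finset.mul_sum]
    refine Finset.sum_congr rfl fun z _ => ?_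
    rw [mul_smul_comm]
    by_cases h' : f x' z = 0
    · rw [h', zero_smul, zero_smul]
    congr 1
    rw [chb_w, chb_w]
    split_ifs
    · rw [MonoidAlgebra.single_mul_single, one_mul, chb_val_mul (chb_sp chD_sp h).2 (chb_sp hf h').2]
    · rw [mul_zero]
  rw [chb_pi, Pi.neg_apply, Pi.smul_apply, ← h2, ← zero_sub, ← h1, Finset.smul_sum,
    ← Finset.sum_sub_distrib]
  refine Finset.sum_congr rfl fun z _ => ?_
  change ((f * chD (C := C) k c') x z - sg n • (chD (C := C) k c * f) x z) • _ = _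
  rw [sub_smul, smul_assoc]

theorem chPi_act {a : MonoidAlgebra k M} (ha : a ∈ (mcat k C).sub c c' n) :
    chPi (chAct C k c c' a) = barE a := by
  funext x
  rw [chb_pi]
  conv_lhs => rw [← MonoidAlgebra.sum_coeff_single a]
  rw [Finsupp.sum, map_sum]
  simp only [Matrix.sum_apply, Finset.sum_smul, chAct_single, Matrix.smul_apply, smul_assoc]
  rw [Finset.sum_comm]
  have : ∀ m ∈ a.coeff.support, ∑ y, a.coeff m • chM k c c' m x y • chb_w k x.σ y =
      barE (MonoidAlgebra.single m (a.coeff m)) x := fun m hm => by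
    rw [← Finset.smul_sum, chM_sum (ha m (Finsupp.mem_support_iff.1 hm)).2, chb_w, barE]
    change _ • (if x.σ.T.card = 1 then _ else _) = _
    split_ifs
    · rw [MonoidAlgebra.single_mul_single, MonoidAlgebra.smul_single, smul_eq_mul, mul_one, one_mul]
      congr 1
      change x.σ.a x.σ.mn x.σ.mn * (if x.σ.mn ∈ x.σ.T then x.g x.σ.mn * m else 1) = _
      rw [chb_self, one_mul, if_pos (chb_mn_mem _)]
    · rw [smul_zero]
  rw [Finset.sum_congr rfl this]
  simp only [barE]
  split_ifs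
  · rw [← Finset.mul_sum]
    exact congrArg _ (MonoidAlgebra.sum_coeff_single a)
  · exact Finset.sum_const_zero

theorem chPi_surj {β : CGen C c → MonoidAlgebra k M} (hβ : BarC c' n β) :
    ∃ f, SP (posetCat k (Chn C)) (chGn C c) (chGn C c') n f ∧ chPi f = β := by
  classical
  refine ⟨fun x y => if y.σ.T = {x.σ.mn} then (β x).coeff (y.g x.σ.mn) else 0,
    fun x y => mem_posetCat.2 fun h => ?_, funext fun x => ?_⟩
  · have hT : y.σ.T = {x.σ.mn} := by
      by_contra h'
      exact h (if_neg h')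
    have h1 := (hβ x _ fun h' => h ((if_pos hT).trans h')).1
    refine ⟨?_, chb_le_of_T (chb_mn_mem _) hT⟩
    dsimp only
    rw [hT, Finset.card_singleton]
    omega
  · have e : ∀ y : CGen C c', y.σ.T = {x.σ.mn} →
        chb_w k x.σ y = MonoidAlgebra.single (y.g x.σ.mn) 1 := fun y hy => by
      rw [chb_w, if_pos (by rw [hy, Finset.card_singleton]), chb_val, chb_mn_eq hy, chb_self,
        one_mul]
    rw [chb_pi]
    ext m
    rw [MonoidAlgebra.coeff_sum, Finsupp.finsetSum_apply]
    have e2 : ∀ y : CGen C c', ((if y.σ.T = {x.σ.mn} then (β x).coeff (y.g x.σ.mn) else 0) •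
        chb_w k x.σ y).coeff m =
        if y.σ.T = {x.σ.mn} ∧ y.g x.σ.mn = m then (β x).coeff m else 0 := fun y => by
      by_cases hy : y.σ.T = {x.σ.mn}
      · rw [if_pos hy, e y hy, MonoidAlgebra.coeff_smul_apply, MonoidAlgebra.coeff_single,
          Finsupp.single_apply]
        by_cases hm : y.g x.σ.mn = m <;> simp [hy, hm]
      · simp [hy]
    simp only [e2]
    by_cases hm : (β x).coeff m = 0
    · simp [hm]
    · simp only [← chb_eq_vtx (hβ x m hm).2]
      simp

open Classical in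
/-- the contraction, row by row -/
noncomputable def chb_Hh (f : Matrix (CGen C c) (CGen C c') k) : Matrix (CGen C c) (CGen C c') k :=
  fun x z => ∑ y, f x y * chb_H x.σ (fun a => if a = z then 1 else 0) y

theorem chb_Hh_sum (f : Matrix (CGen C c) (CGen C c') k) (x : CGen C c) (F : CGen C c' → k) :
    ∑ z, chb_Hh f x z * F z = ∑ y, f x y * chb_H x.σ F y := by
  simp only [chb_Hh, Finset.sum_mul]
  rw [Finset.sum_comm]
  refine Finset.sum_congr rfl fun y _ => ?_
  simp only [mul_assoc, ← Finset.mul_sum, chb_H]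
  split_ifs <;> simp

theorem chb_Hh_ne {x : CGen C c} {z : CGen C c'} (h : chb_Hh f x z ≠ 0) :
    ∃ y, f x y ≠ 0 ∧ x.σ ≤ z.σ ∧ z.σ.T.card = y.σ.T.card + 1 := by
  obtain ⟨y, -, hy⟩ := Finset.exists_ne_zero_of_sum_ne_zero h
  refine ⟨y, left_ne_zero_of_mul hy, ?_⟩
  have h1 := right_ne_zero_of_mul hy
  rw [chb_H] at h1
  split_ifs at h1 with h2 h3
  · rw [← h3]
    exact ⟨chb_le_up h2.1, Finset.card_insert_of_notMem h2.2⟩
  · exact absurd rfl h1
  · exact absurd rfl h1

theorem chb_Hh_sp (hf : SP (posetCat k (Chn C)) (chGn C c) (chGn C c') n f) :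
    SP (posetCat k (Chn C)) (chGn C c) (chGn C c') (n - 1) (chb_Hh f) := fun x z =>
  mem_posetCat.2 fun h => by
    obtain ⟨y, h1, h2, h3⟩ := chb_Hh_ne h
    have := (chb_sp hf h1).1
    exact ⟨by dsimp only; omega, h2⟩

theorem chb_Hh_pi : chPi (chb_Hh f) = 0 := by
  funext x
  rw [chb_pi]
  refine Finset.sum_eq_zero fun z _ => ?_
  by_cases h : chb_Hh f x z = 0
  · rw [h, zero_smul]
  · obtain ⟨y, -, -, h3⟩ := chb_Hh_ne h
    have := y.σ.ne.card_pos
    rw [chb_w, if_neg (by omega), smul_zero]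

theorem chb_homotopy (hf : SP (posetCat k (Chn C)) (chGn C c) (chGn C c') n f)
    (h0 : chPi f = 0) : f = chb_Hh (f * chD (C := C) k c') + chb_Hh f * chD (C := C) k c' := by
  classical
  ext x z
  set F : CGen C c' → k := fun a => if a = z then 1 else 0 with hF
  have e1 : chb_Hh (f * chD (C := C) k c') x z = ∑ y, f x y * ∑ y', chD k c' y y' • chb_H x.σ F y' := by
    simp only [chb_Hh, Matrix.mul_apply, Finset.sum_mul, Finset.mul_sum, smul_eq_mul, mul_assoc]
    exact Finset.sum_comm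
  have e2 : (chb_Hh f * chD (C := C) k c') x z =
      ∑ y, f x y * chb_H x.σ (fun y' => ∑ z, chD k c' y' z • F z) y := by
    rw [Matrix.mul_apply, chb_Hh_sum]
    simp [hF]
  have e3 : ∑ y, f x y * (if z.σ.T = {x.σ.mn} then (chb_w k x.σ y).coeff (z.g x.σ.mn) else 0) =
      0 := by
    split_ifs
    · have := congrArg (fun a => a.coeff (z.g x.σ.mn)) ((chb_pi f x).symm.trans (congrFun h0 x))
      simpa [MonoidAlgebra.coeff_sum, Finsupp.finsetSum_apply] using this
    · simp
  have e4 : f x z = ∑ y, f x y * F y := by simp [hF]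
  rw [Matrix.add_apply, e1, e2, e4, ← add_zero (_ + _), ← e3, ← Finset.sum_add_distrib,
    ← Finset.sum_add_distrib]
  refine Finset.sum_congr rfl fun y _ => ?_
  by_cases h : f x y = 0
  · simp [h]
  have h2 := (chb_sp hf h).2
  rw [← chb_key h2 F, mul_add, mul_add]
  congr 2
  rw [chb_w]
  by_cases hc : y.σ.T.card = 1
  · simp only [if_pos hc, hF, eq_comm (b := z), chb_eq_vtx, MonoidAlgebra.coeff_single,
      Finsupp.single_apply, ite_and, eq_comm (a := z.g x.σ.mn)]
  · simp [hc]

theorem chb_ker (i : ℕ) : ∀ f : Matrix (CGen C c) (CGen C c') k,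
    SP (posetCat k (Chn C)) (chGn C c) (chGn C c') n f → dP (chOb C k c) (chOb C k c') n f = 0 →
    chPi f = 0 → (∀ x : CGen C c, x.σ.T.card + i ≤ Nat.card S → f x = 0) →
    ∃ h, SP (posetCat k (Chn C)) (chGn C c) (chGn C c') (n - 1) h ∧
      f = dP (chOb C k c) (chOb C k c') (n - 1) h := by
  induction i with
  | zero =>
    intro f _ _ _ h
    refine ⟨0, SP.zero, ?_⟩
    rw [dP_zero]
    funext x
    have := Fintype.ofFinite S
    exact h x (by rw [Nat.card_eq_fintype_card]; exact Finset.card_le_univ _)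
  | succ i ih =>
    intro f hf hd h0 h
    have hH := chb_Hh_sp hf
    have hrow : ∀ x : CGen C c, x.σ.T.card + i ≤ Nat.card S →
        (f - dP (chOb C k c) (chOb C k c') (n - 1) (chb_Hh f)) x = 0 := by
      intro x hx
      have hD : ∀ g : Matrix (CGen C c) (CGen C c') k, (∀ x', f x' = 0 → g x' = 0) →
          (chD (C := C) k c * g) x = 0 := fun g hg => by
        funext z
        rw [Matrix.mul_apply]
        refine Finset.sum_eq_zero fun x' _ => ?_
        by_cases h1 : chD k c x x' = 0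
        · rw [h1, zero_mul]
        · have := (chb_sp chD_sp h1).1
          rw [hg x' (h x' (by omega)), Pi.zero_apply, mul_zero]
      have hz : ∀ (g : Matrix (CGen C c) (CGen C c') k) x', g x' = 0 → chb_Hh g x' = 0 :=
        fun g x' hg => funext fun z => by simp [chb_Hh, hg]
      have h1 : (f * chD (C := C) k c') x = 0 := by
        have h2 : f * chD (C := C) k c' = sg n • (chD (C := C) k c * f) := sub_eq_zero.1 hd
        rw [h2]
        change sg n • (chD (C := C) k c * f) x = 0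
        rw [hD f fun _ h => h, smul_zero]
      change f x - ((chb_Hh f * chD (C := C) k c') x -
        sg (n - 1) • (chD (C := C) k c * chb_Hh f) x) = 0
      rw [hD _ (hz f), smul_zero, sub_zero, sub_eq_zero]
      conv_lhs => rw [chb_homotopy hf h0]
      change chb_Hh (f * chD (C := C) k c') x + _ = _
      rw [hz _ x h1, zero_add]
    obtain ⟨g, hg, e⟩ := ih (f - dP (chOb C k c) (chOb C k c') (n - 1) (chb_Hh f))
      (hf.sub (SP.dP (X := chOb C k c) (Y := chOb C k c') hH (by omega)))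
      (by rw [dP_sub (X := chOb C k c) (Y := chOb C k c'), hd, dP_dP _ (by omega), sub_zero])
      (by
        rw [chPi_sub, h0, chPi_dP hH, chb_Hh_pi]
        funext x
        simp [barD]) hrow
    refine ⟨g + chb_Hh f, hg.add hH, ?_⟩
    rw [dP_add (X := chOb C k c) (Y := chOb C k c'), ← e, sub_add_cancel]

theorem chPi_ker (hf : SP (posetCat k (Chn C)) (chGn C c) (chGn C c') n f)
    (hd : dP (chOb C k c) (chOb C k c') n f = 0) (h0 : chPi f = 0) :
    ∃ h, SP (posetCat k (Chn C)) (chGn C c) (chGn C c') (n - 1) h ∧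
      f = dP (chOb C k c) (chOb C k c') (n - 1) h :=
  chb_ker (Nat.card S) f hf hd h0 fun x hx => by
    have := x.σ.ne.card_pos
    omega

end Pool.Agent.Work.MP_910138_ag.C0
end

-- merged part: Pool.Agent.Work.MP_910138_ag.C0.ChainC
section
/-! The bar complex is contractible onto the morphisms. -/

open CategoryTheory

namespace Pool.Agent.Work.MP_910138_ag.C0

section aux

variable {M S : Type} [Monoid M] [LinearOrder S] {C : MCat M S} {c c' : S}
  {k : Type} [Field k] {n : ℤ}

theorem chc_le (x : CGen C c) {i : S} (hi : i ∈ x.σ.T) : i ≤ c := by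
  rcases C.lt (x.mem i hi) with h | h
  exacts [h.le, h.1.le]

theorem chc_aii (σ : Chn C) (i : S) : σ.a i i = 1 := by
  by_cases hi : i ∈ σ.T
  · rcases C.lt (σ.mem i hi i hi le_rfl) with h | h
    exacts [absurd h (lt_irrefl _), h.2]
  · exact σ.norm i i fun h => hi h.1

theorem chc_gc (x : CGen C c) : x.g c = 1 := by
  by_cases hi : c ∈ x.σ.T
  · rcases C.lt (x.mem c hi) with h | h
    exacts [absurd h (lt_irrefl _), h.2]
  · exact x.norm c hi

theorem chc_ext {x y : CGen C c} (hT : x.σ.T = y.σ.T)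
    (ha : ∀ i ∈ x.σ.T, ∀ j ∈ x.σ.T, i ≤ j → x.σ.a i j = y.σ.a i j)
    (hg : ∀ i ∈ x.σ.T, x.g i = y.g i) : x = y := by
  refine CGen.ext (Chn.ext hT (funext fun i => funext fun j => ?_)) (funext fun i => ?_)
  · by_cases h : i ∈ x.σ.T ∧ j ∈ x.σ.T ∧ i ≤ j
    · exact ha i h.1 j h.2.1 h.2.2
    · rw [x.σ.norm i j h, y.σ.norm i j (hT ▸ h)]
  · by_cases h : i ∈ x.σ.T
    · exact hg i h
    · rw [x.norm i h, y.norm i (hT ▸ h)]

theorem chc_mn_mem (σ : Chn C) : σ.mn ∈ σ.T := Finset.min'_mem _ _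

theorem chc_mn_le (σ : Chn C) {i : S} (hi : i ∈ σ.T) : σ.mn ≤ i := Finset.min'_le _ _ hi

theorem chc_mn_eq (σ : Chn C) {s : S} (hs : s ∈ σ.T) (h : ∀ i ∈ σ.T, s ≤ i) : σ.mn = s :=
  le_antisymm (chc_mn_le σ hs) (h _ (chc_mn_mem σ))

theorem chc_lower (x : CGen C c) {i j : S} (hi : i ∈ insert c x.σ.T) (hj : j ∈ insert c x.σ.T)
    (h : i ≤ j) (hc : j ≠ c) : i ∈ x.σ.T ∧ j ∈ x.σ.T ∧ i ≠ c := by
  have h1 := (Finset.mem_insert.1 hj).resolve_left hc
  have h2 : i ≠ c := (h.trans_lt (lt_of_le_of_ne (chc_le x h1) hc)).ne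
  exact ⟨(Finset.mem_insert.1 hi).resolve_left h2, h1, h2⟩

theorem chc_gmem (x : CGen C c) {i : S} (hi : i ∈ insert c x.σ.T) : x.g i ∈ C.H i c := by
  rcases Finset.mem_insert.1 hi with rfl | hi
  · rw [chc_gc]
    exact C.one_mem _
  · exact x.mem i hi

/-- adding the last vertex -/
def chc_plus (x : CGen C c) : CGen C c where
  σ :=
    { T := insert c x.σ.T
      a := fun i j => if j = c ∧ i ∈ insert c x.σ.T then x.g i else x.σ.a i j
      ne := Finset.insert_nonempty _ _
      mem := fun i hi j hj h => by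
        by_cases hc : j = c
        · rw [if_pos ⟨hc, hi⟩, hc]
          exact chc_gmem x hi
        · rw [if_neg fun h => hc h.1]
          obtain ⟨h1, h2, -⟩ := chc_lower x hi hj h hc
          exact x.σ.mem i h1 j h2 h
      comp := fun i hi j hj l hl h h' => by
        by_cases hc : l = c
        · rw [if_pos (⟨hc, hj⟩ : l = c ∧ _), if_pos (⟨hc, hi⟩ : l = c ∧ _)]
          by_cases hc' : j = c
          · rw [if_pos ⟨hc', hi⟩, hc', chc_gc, mul_one]
          · rw [if_neg fun h => hc' h.1]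
            obtain ⟨h1, h2, -⟩ := chc_lower x hi hj h hc'
            exact x.comp i h1 j h2 h
        · obtain ⟨h1, h2, h3⟩ := chc_lower x hj hl h' hc
          obtain ⟨h4, -, -⟩ := chc_lower x hi hj h h3
          rw [if_neg fun h => h3 h.1, if_neg fun h => hc h.1, if_neg fun h => hc h.1]
          exact x.σ.comp i h4 j h1 l h2 h h'
      norm := fun i j h => by
        by_cases hc : j = c ∧ i ∈ insert c x.σ.T
        · refine absurd ⟨hc.2, Finset.mem_insert.2 (Or.inl hc.1), ?_⟩ h
          rw [hc.1]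
          rcases Finset.mem_insert.1 hc.2 with e | e
          exacts [e.le, chc_le x e]
        · rw [if_neg hc]
          exact x.σ.norm i j fun h' =>
            h ⟨Finset.mem_insert_of_mem h'.1, Finset.mem_insert_of_mem h'.2.1, h'.2.2⟩ }
  g := x.g
  mem i hi := chc_gmem x hi
  comp i hi j hj h := by
    change (if j = c ∧ i ∈ insert c x.σ.T then x.g i else x.σ.a i j) * _ = _
    by_cases hc' : j = c
    · rw [if_pos ⟨hc', hi⟩, hc', chc_gc, mul_one]
    · rw [if_neg fun h => hc' h.1]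
      obtain ⟨h1, h2, -⟩ := chc_lower x hi hj h hc'
      exact x.comp i h1 j h2 h
  norm i hi := x.norm i fun h => hi (Finset.mem_insert_of_mem h)

theorem chc_plus_T (x : CGen C c) : (chc_plus x).σ.T = insert c x.σ.T := rfl

theorem chc_plus_a (x : CGen C c) (i : S) {j : S} (h : j ≠ c) :
    (chc_plus x).σ.a i j = x.σ.a i j := if_neg fun h' => h h'.1

theorem chc_plus_mn (x : CGen C c) : (chc_plus x).σ.mn = x.σ.mn := by
  refine chc_mn_eq _ (Finset.mem_insert_of_mem (chc_mn_mem _)) fun i hi => ?_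
  rcases Finset.mem_insert.1 hi with e | e
  · rw [e]
    exact chc_le x (chc_mn_mem _)
  · exact chc_mn_le _ e

/-- in any generator the arrows to `c` are the structure maps -/
theorem chc_a_c (x : CGen C c) (hc : c ∈ x.σ.T) {i : S} (hi : i ∈ x.σ.T) :
    x.σ.a i c = x.g i := by
  rw [← x.comp i hi c hc (chc_le x hi), chc_gc, mul_one]

/-- extensionality that ignores the arrows to `c` -/
theorem chc_ext' {x y : CGen C c} (hT : x.σ.T = y.σ.T)
    (ha : ∀ i ∈ x.σ.T, ∀ j ∈ x.σ.T, i ≠ c → j ≠ c → x.σ.a i j = y.σ.a i j)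
    (hg : ∀ i ∈ x.σ.T, i ≠ c → x.g i = y.g i) : x = y := by
  have hg' : ∀ i ∈ x.σ.T, x.g i = y.g i := by
    intro i hi
    by_cases h : i = c
    · rw [h, chc_gc, chc_gc]
    · exact hg i hi h
  refine chc_ext hT (fun i hi j hj h => ?_) hg'
  by_cases hj' : j = c
  · subst hj'
    rw [chc_a_c x hj hi, chc_a_c y (hT ▸ hj) (hT ▸ hi), hg' i hi]
  · exact ha i hi j hj (h.trans_lt (lt_of_le_of_ne (chc_le x hj) hj')).ne hj'

theorem chc_res_T (x : CGen C c) (T : Finset S) (hT : T ⊆ x.σ.T) (hne : T.Nonempty) :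
    (x.res T hT hne).σ.T = T := rfl

theorem chc_res_a (x : CGen C c) (T : Finset S) (hT : T ⊆ x.σ.T) (hne : T.Nonempty) {i j : S}
    (hi : i ∈ T) (hj : j ∈ T) : (x.res T hT hne).σ.a i j = x.σ.a i j := if_pos ⟨hi, hj⟩

theorem chc_res_g (x : CGen C c) (T : Finset S) (hT : T ⊆ x.σ.T) (hne : T.Nonempty) {i : S}
    (hi : i ∈ T) : (x.res T hT hne).g i = x.g i := if_pos hi

theorem chc_res_plus (x : CGen C c) (hc : c ∉ x.σ.T)
    (h : ((chc_plus x).σ.T.erase c).Nonempty) :
    (chc_plus x).res _ (Finset.erase_subset _ _) h = x := by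
  refine chc_ext' (Finset.erase_insert hc) (fun i hi j hj _ h2 => ?_) fun i hi _ => ?_
  · exact (chc_res_a _ _ _ _ hi hj).trans (chc_plus_a _ _ h2)
  · exact chc_res_g _ _ _ _ hi

theorem chc_plus_res (x : CGen C c) (hc : c ∈ x.σ.T) (h : (x.σ.T.erase c).Nonempty) :
    chc_plus (x.res _ (Finset.erase_subset _ _) h) = x := by
  refine chc_ext' (Finset.insert_erase hc) (fun i hi j hj h1 h2 => ?_) fun i hi h1 => ?_
  · exact (chc_plus_a _ _ h2).trans (chc_res_a _ _ _ _
      ((Finset.mem_insert.1 hi).resolve_left h1) ((Finset.mem_insert.1 hj).resolve_left h2))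
  · exact chc_res_g x _ (Finset.erase_subset _ _) h ((Finset.mem_insert.1 hi).resolve_left h1)

theorem chc_plus_face (x : CGen C c) {j : S} (hj : j ≠ c)
    (h : ((chc_plus x).σ.T.erase j).Nonempty) (h' : (x.σ.T.erase j).Nonempty) :
    (chc_plus x).res _ (Finset.erase_subset _ _) h =
      chc_plus (x.res _ (Finset.erase_subset _ _) h') := by
  have hm : ∀ i ∈ (insert c x.σ.T).erase j, i ≠ c → i ∈ x.σ.T.erase j := fun i hi h1 =>
    Finset.mem_erase.2 ⟨(Finset.mem_erase.1 hi).1,
      (Finset.mem_insert.1 (Finset.mem_erase.1 hi).2).resolve_left h1⟩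
  refine chc_ext' (Finset.erase_insert_of_ne hj.symm) (fun i hi l hl h1 h2 => ?_)
    fun i hi h1 => ?_
  · refine (chc_res_a _ _ _ _ hi hl).trans ?_
    rw [chc_plus_a _ _ h2, chc_plus_a _ _ h2, chc_res_a _ _ _ _ (hm i hi h1) (hm l hl h2)]
  · exact (chc_res_g _ _ _ _ hi).trans
      (chc_res_g x _ (Finset.erase_subset _ _) h' (hm i hi h1)).symm

variable (C c) in
/-- the vertex `c` -/
def chc_v : CGen C c where
  σ :=
    { T := {c}
      a := fun _ _ => 1
      ne := Finset.singleton_nonempty _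
      mem := fun i hi j hj _ => by
        rw [Finset.mem_singleton.1 hi, Finset.mem_singleton.1 hj]
        exact C.one_mem _
      comp := fun _ _ _ _ _ _ _ _ => mul_one _
      norm := fun _ _ _ => rfl }
  g _ := 1
  mem i hi := by
    rw [Finset.mem_singleton.1 hi]
    exact C.one_mem _
  comp _ _ _ _ _ := mul_one _
  norm _ _ := rfl

theorem chc_eq_v {x : CGen C c} (h : x.σ.T = {c}) : x = chc_v C c :=
  chc_ext' h (fun _ hi _ _ h1 _ => absurd (Finset.mem_singleton.1 (h ▸ hi)) h1)
    fun _ hi h1 => absurd (Finset.mem_singleton.1 (h ▸ hi)) h1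

theorem chc_v_mn : (chc_v C c).σ.mn = c := Finset.mem_singleton.1 (chc_mn_mem (chc_v C c).σ)

theorem chc_barE_v (a : MonoidAlgebra k M) : barE a (chc_v C c) = a := by
  rw [barE, if_pos (show (chc_v C c).σ.T.card = 1 from Finset.card_singleton c)]
  exact one_mul a

theorem chc_csgn_top (x : CGen C c) :
    csgn k x.σ.T c = (-1) ^ (x.σ.T.erase c).card := by
  rw [csgn]
  congr 2
  ext i
  rw [Finset.mem_filter, Finset.mem_erase]
  exact ⟨fun h => ⟨h.2.ne, h.1⟩, fun h => ⟨h.2, lt_of_le_of_ne (chc_le x h.2) h.1⟩⟩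

theorem chc_csgn_plus (x : CGen C c) {j : S} (hj : j ∈ x.σ.T) :
    csgn k (chc_plus x).σ.T j = csgn k x.σ.T j := by
  rw [csgn, csgn, chc_plus_T, Finset.filter_insert, if_neg (not_lt.2 (chc_le x hj))]

theorem chc_deg {s t : S} {a : MonoidAlgebra k M} (ha : a ∈ (mcat k C).sub s t n) (hn : n ≠ 0) :
    a = 0 := by
  ext m
  by_contra h
  exact hn (ha m h).1

end aux

variable {M S : Type} [Monoid M] [LinearOrder S] [Finite S] {C : MCat M S} {c c' : S}
  {k : Type} [Field k] {n : ℤ}

theorem chc_barD (β : CGen C c → MonoidAlgebra k M) (x : CGen C c) :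
    barD β x = ∑ j ∈ x.σ.T, if h : (x.σ.T.erase j).Nonempty then
      csgn k x.σ.T j • (MonoidAlgebra.single
        (x.σ.a x.σ.mn (x.res _ (Finset.erase_subset j _) h).σ.mn) (1 : k) *
          β (x.res _ (Finset.erase_subset j _) h)) else 0 :=
  chD_sum x fun y => MonoidAlgebra.single (x.σ.a x.σ.mn y.σ.mn) (1 : k) * β y

theorem chc_pi_zsmul (z : ℤ) (f : Matrix (CGen C c) (CGen C c') k) :
    chPi (z • f) = z • chPi f := by
  funext x
  rw [Pi.smul_apply, chPi, chPi, Finset.smul_sum]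
  refine Finset.sum_congr rfl fun y _ => ?_
  split_ifs
  · rw [Matrix.smul_apply, smul_assoc]
  · rw [smul_zero]

theorem chc_pi_zero : chPi (0 : Matrix (CGen C c) (CGen C c') k) = 0 := by
  rw [← sub_self (0 : Matrix (CGen C c) (CGen C c') k), chPi_sub, sub_self]

theorem bar_exact {β : CGen C c → MonoidAlgebra k M} (hβ : BarC c' n β) (hd : barD β = 0) :
    ∃ a ∈ (mcat k C).sub c c' n, ∃ γ : CGen C c → MonoidAlgebra k M,
      BarC c' (n - 1) γ ∧ β = barE a + barD γ := by
  let γ : CGen C c → MonoidAlgebra k M := fun x =>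
    if c ∈ x.σ.T then 0 else (-1 : k) ^ x.σ.T.card • β (chc_plus x)
  refine ⟨β (chc_v C c), ?_, γ, fun x => ?_, funext fun x => ?_⟩
  · have := hβ (chc_v C c)
    rw [chc_v_mn] at this
    have e : (chc_v C c).σ.T.card = 1 := Finset.card_singleton c
    rw [e] at this
    simpa using this
  · by_cases hc : c ∈ x.σ.T
    · simp only [γ, if_pos hc]
      exact zero_mem _
    · simp only [γ, if_neg hc]
      refine Submodule.smul_mem _ _ ?_
      have := hβ (chc_plus x)
      rw [chc_plus_mn, chc_plus_T, Finset.card_insert_of_notMem hc] at this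
      convert this using 2
      push_cast
      ring
  rw [Pi.add_apply, chc_barD]
  by_cases hc : c ∈ x.σ.T
  · rw [Finset.sum_eq_single_of_mem c hc]
    · by_cases h : (x.σ.T.erase c).Nonempty
      · have h1 : x.σ.T.card ≠ 1 := by
          have := Finset.card_erase_add_one hc
          have := h.card_pos
          omega
        have h2 : (x.res _ (Finset.erase_subset c _) h).σ.mn = x.σ.mn := by
          rw [← chc_plus_mn, chc_plus_res x hc h]
        have h3 : γ (x.res _ (Finset.erase_subset c _) h) =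
            (-1 : k) ^ (x.σ.T.erase c).card • β x := by
          simp only [γ, chc_res_T, Finset.notMem_erase, if_false, chc_plus_res x hc h]
        rw [dif_pos h, barE, if_neg h1, zero_add, h2, chc_aii, h3, chc_csgn_top,
          ← MonoidAlgebra.one_def, one_mul, smul_smul, ← mul_pow, neg_mul_neg, one_mul, one_pow,
          one_smul]
      · have h1 : x.σ.T = {c} := by
          rw [← Finset.insert_erase hc, Finset.not_nonempty_iff_eq_empty.1 h]
          rfl
        rw [dif_neg h, add_zero, chc_eq_v h1, chc_barE_v]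
    · intro j _ hj
      split_ifs with h
      · have : c ∈ (x.res _ (Finset.erase_subset j _) h).σ.T := Finset.mem_erase.2 ⟨hj.symm, hc⟩
        simp only [γ, if_pos this, mul_zero, smul_zero]
      · rfl
  · have h0 : barD β (chc_plus x) = 0 := congrFun hd _
    have hne : ((chc_plus x).σ.T.erase c).Nonempty := by
      rw [chc_plus_T, Finset.erase_insert hc]
      exact x.σ.ne
    have hne' : ∀ j ∈ x.σ.T, ((chc_plus x).σ.T.erase j).Nonempty := fun j hj =>
      ⟨c, Finset.mem_erase.2 ⟨fun e => hc (e ▸ hj), Finset.mem_insert_self _ _⟩⟩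
    rw [chc_barD] at h0
    change ∑ j ∈ insert c x.σ.T, _ = _ at h0
    rw [Finset.sum_insert hc, dif_pos hne, chc_res_plus x hc, chc_plus_mn, chc_aii,
      ← MonoidAlgebra.one_def, one_mul, chc_csgn_top,
      show ((chc_plus x).σ.T.erase c).card = x.σ.T.card from
        congrArg _ (Finset.erase_insert hc)] at h0
    by_cases h1 : x.σ.T.card = 1
    · obtain ⟨j, hj⟩ := Finset.card_eq_one.1 h1
      have hjm : j ∈ x.σ.T := hj ▸ Finset.mem_singleton_self j
      have hjc : j ≠ c := fun e => hc (e ▸ hjm)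
      have e1 : ∀ f : S → MonoidAlgebra k M, ∑ i ∈ x.σ.T, f i = f j := fun f => by
        rw [hj, Finset.sum_singleton]
      have e2 : ¬ (x.σ.T.erase j).Nonempty := by
        rw [hj, Finset.erase_singleton]
        exact Finset.not_nonempty_empty
      have e3 : (chc_plus x).res _ (Finset.erase_subset j _) (hne' j hjm) = chc_v C c := by
        refine chc_eq_v ?_
        rw [chc_res_T, chc_plus_T, Finset.erase_insert_of_ne hjc.symm,
          Finset.not_nonempty_iff_eq_empty.1 e2]
        rfl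
      have e4 : csgn k x.σ.T j = 1 := by
        rw [csgn, hj, Finset.filter_singleton, if_neg (lt_irrefl j), Finset.card_empty, pow_zero]
      have e5 : (chc_plus x).σ.a x.σ.mn c = x.g x.σ.mn :=
        chc_a_c (chc_plus x) (Finset.mem_insert_self _ _)
          (Finset.mem_insert_of_mem (chc_mn_mem _))
      rw [e1, h1, pow_one, neg_smul, one_smul, neg_add_eq_zero] at h0
      rw [e1, dif_neg e2, add_zero, barE, if_pos h1, h0]
      rw [dif_pos (hne' j hjm), e3, chc_v_mn, e5, chc_csgn_plus x hjm, e4, one_smul]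
    · have hs : (-1 : k) ^ x.σ.T.card * (-1) ^ x.σ.T.card = 1 := by
        rw [← mul_pow, neg_mul_neg, one_mul, one_pow]
      have h2 := congrArg (fun z => (-1 : k) ^ x.σ.T.card • z) h0
      simp only [smul_add, smul_smul, hs, one_smul, smul_zero] at h2
      rw [barE, if_neg h1, zero_add, eq_neg_of_add_eq_zero_left h2, ← neg_smul, Finset.smul_sum]
      refine Finset.sum_congr rfl fun j hj => ?_
      have hjc : j ≠ c := fun e => hc (e ▸ hj)
      have hcard := Finset.card_erase_add_one hj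
      have h3 : (x.σ.T.erase j).Nonempty := by
        rw [← Finset.card_pos]
        omega
      have h4 : c ∉ (x.res _ (Finset.erase_subset j _) h3).σ.T :=
        fun h => hc (Finset.mem_of_mem_erase h)
      have h5 : (x.res _ (Finset.erase_subset j _) h3).σ.mn ≠ c :=
        fun e => h4 (by
          have := chc_mn_mem (x.res _ (Finset.erase_subset j _) h3).σ
          rwa [e] at this)
      rw [dif_pos h3, dif_pos (hne' j hj)]
      simp only [γ, if_neg h4]
      rw [chc_plus_face x hjc _ h3, chc_plus_mn, chc_plus_a _ _ h5,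
        chc_csgn_plus x hj, chc_res_T, mul_smul_comm, smul_comm, ← hcard, pow_succ, mul_neg,
        neg_neg, mul_one]

omit [Finite S] in
theorem barE_inj {a : MonoidAlgebra k M} (h : (barE a : CGen C c → MonoidAlgebra k M) = 0) :
    a = 0 := by
  rw [← chc_barE_v (C := C) (c := c) a, h]
  rfl

theorem chSubst_qff : (chSubst C k).QFF := by
  refine ⟨fun s t n f hf hd => ?_, fun s t n a ha h hh e => ?_⟩
  · change Matrix (CGen C s) (CGen C t) k at f
    change SP (posetCat k (Chn C)) (chGn C s) (chGn C t) n f at hf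
    have h1 := chPi_dP hf
    have hd' : dP (chOb C k s) (chOb C k t) n f = 0 := hd
    rw [hd', chc_pi_zero, eq_comm, neg_eq_zero] at h1
    have h2 : barD (chPi f) = 0 := by
      have := congrArg (fun z => sg n • z) h1
      simpa only [smul_smul, sg_mul_self, one_smul, smul_zero] using this
    obtain ⟨a, ha, γ, hγ, e⟩ := bar_exact (chPi_mem hf) h2
    obtain ⟨g, hg, rfl⟩ := chPi_surj hγ
    have hg' := hg.zsmul (sg n)
    obtain ⟨h, hh, e'⟩ := chPi_ker
      (f := f - chAct C k s t a - dP (chOb C k s) (chOb C k t) (n - 1) (sg n • g))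
      ((hf.sub (chAct_sp ha)).sub (SP.dP (X := chOb C k s) (Y := chOb C k t) hg' (by omega)))
      (by
        rw [dP_sub (X := chOb C k s) (Y := chOb C k t), dP_sub (X := chOb C k s) (Y := chOb C k t),
          hd', chAct_cl ha, dP_dP _ (by omega), sub_zero, sub_zero])
      (by
        rw [chPi_sub, chPi_sub, chPi_act ha, dP_zsmul (X := chOb C k s) (Y := chOb C k t),
          chc_pi_zsmul, chPi_dP hg, sg_pred, neg_smul, neg_neg, smul_smul, sg_mul_self, one_smul,
          sub_sub, ← e, sub_self])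
    refine ⟨a, ha, sg n • g + h, hg'.add hh, ?_⟩
    change f = chAct C k s t a + dP (chOb C k s) (chOb C k t) (n - 1) (sg n • g + h)
    rw [dP_add (X := chOb C k s) (Y := chOb C k t), ← e']
    abel
  · change Matrix (CGen C s) (CGen C t) k at h
    change SP (posetCat k (Chn C)) (chGn C s) (chGn C t) (n - 1) h at hh
    by_cases hn : n = 0
    · have e' : chAct C k s t a = dP (chOb C k s) (chOb C k t) (n - 1) h := e
      have h1 : chPi h = 0 := by
        funext x
        refine chc_deg (chPi_mem hh x) ?_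
        have := x.σ.ne.card_pos
        omega
      have h2 : barD (0 : CGen C s → MonoidAlgebra k M) = 0 := by
        funext x
        simp [barD]
      refine barE_inj (C := C) (c := s) ?_
      rw [← chPi_act ha, e', chPi_dP hh, h1, h2, smul_zero, neg_zero]
    · exact chc_deg ha hn

end Pool.Agent.Work.MP_910138_ag.C0
end

-- merged part: Pool.Agent.Work.MP_910138_ag.C0.St1D
section
/-! The complexes over `Λ` that realise `𝒜`: definitions. -/

open CategoryTheory TrivSqZeroExt MulOpposite Polynomial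

namespace Pool.Agent.Work.MP_910138_ag.C0

/-- the words of length `n` -/
noncomputable def words (n : ℕ) : Finset Wd :=
  (List.finite_length_eq (Fin 3) n).toFinset.map ⟨FreeMonoid.ofList, FreeMonoid.ofList.injective⟩

theorem mem_words {n : ℕ} {u : Wd} : u ∈ words n ↔ u.length = n := by
  rw [words, Finset.mem_map]
  constructor
  · rintro ⟨l, hl, rfl⟩
    rw [Set.Finite.mem_toFinset] at hl
    exact hl
  · exact fun h => ⟨u.toList, (Set.Finite.mem_toFinset _).2 h, rfl⟩

/-- names of generators -/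
inductive TG : Type
  | l : TG
  | p0 : Wd → TG
  | st : TG
  | p1 : Wd → TG
  | uu : TG

noncomputable instance : DecidableEq TG := Classical.decEq _

/-- the generators that occur -/
def TG.ok (s : Bool × Lb) : TG → Prop
  | .l => s.1 = false
  | .p0 u => s.1 = false ∧ u.length = s.2.1
  | .st => s.1 = false ∧ s.2.1 = 1
  | .p1 v => s.1 = false ∧ v.length = s.2.1 + 1
  | .uu => s.1 = true

theorem TG.finite_ok (s : Bool × Lb) : {g | TG.ok s g}.Finite := by
  refine ((((words s.2.1).finite_toSet.image TG.p0).union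
    ((words (s.2.1 + 1)).finite_toSet.image TG.p1)).union
    (Set.toFinite {TG.l, TG.st, TG.uu})).subset ?_
  rintro (_ | u | _ | v | _) h
  · simp
  · exact Or.inl (Or.inl ⟨u, mem_words.2 h.2, rfl⟩)
  · simp
  · exact Or.inl (Or.inr ⟨v, mem_words.2 h.2, rfl⟩)
  · simp

/-- the generators of the complex attached to `s` -/
def TGs (s : Bool × Lb) : Type := {g : TG // g.ok s}

noncomputable instance (s : Bool × Lb) : Fintype (TGs s) := (TG.finite_ok s).fintype

noncomputable instance (s : Bool × Lb) : DecidableEq (TGs s) := Classical.decEq _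

/-- labels -/
def TG.lab (s : Lb) : TG → Fin 3 × Lb
  | .l => (0, s)
  | .p0 _ => (1, (0, s.2))
  | .st => (1, (1, s.2))
  | .p1 _ => (1, (1, s.2))
  | .uu => (2, s)

/-- degrees -/
def TG.deg : TG → ℤ
  | .l => 0
  | .p0 _ => 1
  | .st => 1
  | .p1 _ => 2
  | .uu => 0

variable (k : Type) [Field k]

open Classical in
/-- the form dual to a word -/
noncomputable def dlw (u : Wd) : AD k := formOf k fun v => if v = u then 1 else 0

open Classical in
/-- the entries of the differential -/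
noncomputable def dent : TG → TG → RR k
  | .l, .p0 u => inr (dlw k u)
  | .l, .st => inr (-dlw k 1)
  | .p0 u, .p1 v => ∑ b, if v = FreeMonoid.of b * u then inl (lt k b) else 0
  | .st, .p1 v => ∑ a, if v = FreeMonoid.of a * FreeMonoid.of a then 1 else 0
  | _, _ => 0

variable {k}

/-- the entries of the action -/
noncomputable def ent (r : RR k) : TG → TG → RR k
  | .l, .l => inl r.fst
  | .p0 u, .p0 u' => inl ((wd k u * r.fst).coeff u' • (1 : AF k))
  | .st, .st => inl (r.fst.coeff 1 • (1 : AF k))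
  | .p1 v, .p1 v' => inl ((wd k v * r.fst).coeff v' • (1 : AF k))
  | .l, .uu => inl r.fst
  | .p1 v, .uu => inr (wd k v • r.snd)
  | .uu, .uu => inl r.fst
  | _, _ => 0

theorem ent_add (r r' : RR k) (x y : TG) : ent (r + r') x y = ent r x y + ent r' x y := by
  cases x <;> cases y <;> simp [ent, mul_add, add_smul]

theorem ent_smul (c : k) (r : RR k) (x y : TG) : ent (c • r) x y = c • ent r x y := by
  have h : ∀ (a : AF k) (ψ : AD k), a • c • ψ = c • a • ψ := fun _ _ => AD.ext' fun _ => rfl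
  cases x <;> cases y <;> simp [ent, smul_assoc, h]

/-- the generators with labels and degrees -/
noncomputable abbrev tGn (s : Bool × Lb) : Gn (Fin 3 × Lb) :=
  ⟨TGs s, fun x => x.1.lab s.2, fun x => x.1.deg⟩

variable (k) in
/-- the differential -/
noncomputable def tD (s : Bool × Lb) : Matrix (TGs s) (TGs s) (RR k) := fun x y => dent k x.1 y.1

variable (k) in
/-- the action -/
noncomputable def tAct (s t : Bool × Lb) : RR k →ₗ[k] Matrix (TGs s) (TGs t) (RR k) where
  toFun r := fun x y => ent r x.1 y.1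
  map_add' r r' := funext fun x => funext fun y => ent_add r r' x.1 y.1
  map_smul' c r := funext fun x => funext fun y => ent_smul c r x.1 y.1

theorem tAct_apply (s t : Bool × Lb) (r : RR k) (x : TGs s) (y : TGs t) :
    tAct k s t r x y = ent r x.1 y.1 := rfl

end Pool.Agent.Work.MP_910138_ag.C0
end

-- merged part: Pool.Agent.Work.MP_910138_ag.C0.St1A
section
/-! The complexes over `Λ` that realise `𝒜`: the strict functor. -/

open CategoryTheory TrivSqZeroExt MulOpposite Polynomial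

namespace Pool.Agent.Work.MP_910138_ag.C0

variable {k : Type} [Field k]

theorem sum_TGs_top {V : Type} [AddCommMonoid V] (s : Lb) (F : TG → V) :
    ∑ x : TGs (false, s), F x.1 = F .l + ∑ u ∈ words s.1, F (.p0 u) +
      (if s.1 = 1 then F .st else 0) + ∑ v ∈ words (s.1 + 1), F (.p1 v) := by
  classical
  have h : ∀ g : TG, g ∈ ({TG.l} ∪ (words s.1).image TG.p0 ∪
      ({TG.st} : Finset TG).filter (fun _ => s.1 = 1) ∪ (words (s.1 + 1)).image TG.p1) ↔
      TG.ok (false, s) g := by
    intro g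
    cases g <;> simp [TG.ok, mem_words, -Finset.filter_const]
  refine (Finset.sum_subtype (p := TG.ok (false, s)) _ h F).symm.trans ?_
  rw [Finset.sum_union, Finset.sum_union,
    Finset.sum_union, Finset.sum_singleton, Finset.sum_image fun _ _ _ _ h => TG.p0.inj h,
    Finset.sum_image fun _ _ _ _ h => TG.p1.inj h, Finset.sum_filter, Finset.sum_singleton]
  · simp
  · rw [Finset.disjoint_right]
    intro g hg
    obtain rfl := Finset.mem_singleton.1 (Finset.mem_filter.1 hg).1
    simp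
  · rw [Finset.disjoint_right]
    intro g hg
    obtain ⟨v, -, rfl⟩ := Finset.mem_image.1 hg
    simp [-Finset.filter_const]

theorem sum_TGs_bot {V : Type} [AddCommMonoid V] (s : Lb) (F : TG → V) :
    ∑ x : TGs (true, s), F x.1 = F .uu := by
  have h : ∀ g : TG, g ∈ ({TG.uu} : Finset TG) ↔ TG.ok (true, s) g := by
    intro g
    cases g <;> simp [TG.ok]
  exact (Finset.sum_subtype (p := TG.ok (true, s)) _ h F).symm.trans (Finset.sum_singleton _ _)

theorem dlw_mem (u : Wd) : dlw k u ∈ Dsub k u.length 0 := by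
  intro v
  rw [dlw, formOf_wd]
  split_ifs with h
  · subst h
    exact ⟨mem_degLE_zero.2 ⟨1, C_1.symm⟩, fun h => (h rfl).elim⟩
  · exact ⟨zero_mem _, fun _ => rfl⟩

theorem dlw_apply (u : Wd) (a : AF k) : (dlw k u).toL a = a.coeff u := by
  induction a using aal_induction with
  | h0 => simp
  | hadd a b ha hb => rw [map_add, ha, hb, MonoidAlgebra.coeff_add, Finsupp.add_apply]
  | hs p v =>
    rw [map_smul, dlw, formOf_wd, aal_coeff_smul_wd]
    split_ifs <;> simp

theorem st1a_of_mul {b b' : Fin 3} {u u' : Wd} :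
    FreeMonoid.of b * u = FreeMonoid.of b' * u' ↔ b = b' ∧ u = u' := by
  rw [← FreeMonoid.toList.injective.eq_iff, ← FreeMonoid.toList.injective.eq_iff (a := u)]
  simp

theorem st1a_split {n : ℕ} {v : Wd} (h : v.length = n + 1) :
    ∃ b u, v = FreeMonoid.of b * u ∧ u.length = n := by
  induction v using FreeMonoid.inductionOn' with
  | one => simp at h
  | of_mul b u _ =>
    rw [FreeMonoid.length_mul, FreeMonoid.length_of] at h
    exact ⟨b, u, rfl, by omega⟩

theorem st1a_expand {n m : ℤ} {a : AF k} (ha : a ∈ Asub k n m) {N : ℕ} (hN : (N : ℤ) = n) :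
    ∑ u ∈ words N, a.coeff u • wd k u = a := by
  conv_rhs => rw [aal_eq_sum a]
  refine (Finset.sum_subset (fun u hu => mem_words.2 ?_) fun u _ hu => ?_).symm
  · have := aal_len ha hu
    omega
  · rw [Finsupp.notMem_support_iff.1 hu, zero_smul]

theorem st1a_lt_mul (b b' : Fin 3) (u : Wd) (p : AF k) :
    (lt k b * p).coeff (FreeMonoid.of b' * u) = if b = b' then p.coeff u else 0 := by
  induction p using aal_induction with
  | h0 => simp
  | hadd p q hp hq =>
    simp only [mul_add, MonoidAlgebra.coeff_add, Finsupp.add_apply, hp, hq]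
    split_ifs <;> simp
  | hs q w =>
    rw [mul_smul_comm, lt, ← wd_mul, aal_coeff_smul_wd, aal_coeff_smul_wd]
    by_cases h1 : b = b'
    · by_cases h2 : w = u
      · rw [if_pos (st1a_of_mul.2 ⟨h1, h2⟩), if_pos h1, if_pos h2]
      · rw [if_neg fun h => h2 (st1a_of_mul.1 h).2, if_pos h1, if_neg h2]
    · rw [if_neg fun h => h1 (st1a_of_mul.1 h).1, if_neg h1]

theorem st1a_lt_mul_one (b : Fin 3) (p : AF k) : (lt k b * p).coeff 1 = 0 := by
  induction p using aal_induction with
  | h0 => simp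
  | hadd p q hp hq => simp only [mul_add, MonoidAlgebra.coeff_add, Finsupp.add_apply, hp, hq,
      add_zero]
  | hs q w =>
    rw [mul_smul_comm, lt, ← wd_mul, aal_coeff_smul_wd, if_neg]
    intro h
    simpa using congrArg FreeMonoid.length h

open Classical in
theorem st1a_sum {V : Type} [AddCommMonoid V] {n : ℕ} (w : Fin 3 → Wd)
    (hw : ∀ b, (w b).length = n) (F : Fin 3 → Wd → V) :
    ∑ v ∈ words n, ∑ b, (if v = w b then F b v else 0) = ∑ b, F b (w b) := by
  rw [Finset.sum_comm]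
  refine Finset.sum_congr rfl fun b _ => ?_
  rw [Finset.sum_ite_eq', if_pos (mem_words.2 (hw b))]

open Classical in
theorem st1a_sum' {V : Type} [AddCommMonoid V] {n : ℕ} (b' : Fin 3) {u' : Wd}
    (hu : u'.length = n) (F : Fin 3 → Wd → V) :
    ∑ u ∈ words n, ∑ b, (if FreeMonoid.of b' * u' = FreeMonoid.of b * u then F b u else 0) =
      F b' u' := by
  simp only [st1a_of_mul, ite_and, Finset.sum_ite_eq, Finset.mem_univ, if_true]
  rw [if_pos (mem_words.2 hu)]

theorem st1a_inl {s t : Fin 3 × Lb} {n : ℤ} {a : AF k} (h : a ∈ AS k s.2 t.2)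
    (h' : a ≠ 0 → n = 0 ∧ (s.1 = t.1 ∨ (s.1 = 0 ∧ t.1 = 2))) :
    (inl a : RR k) ∈ (catL k).sub s t n :=
  ⟨mem_lFst.2 ⟨h, h'⟩, zero_mem _⟩

theorem st1a_inr {s t : Fin 3 × Lb} {n : ℤ} {a : AD k} (h : a ∈ DA k s.2 t.2)
    (h' : a ≠ 0 → n = 0 ∧ ((s.1 = 0 ∧ t.1 = 1) ∨ (s.1 = 1 ∧ t.1 = 2))) :
    (inr a : RR k) ∈ (catL k).sub s t n :=
  ⟨zero_mem _, mem_lSnd.2 ⟨h, h'⟩⟩

theorem st1a_inr_sum {ι : Type} (s : Finset ι) (f : ι → AD k) :
    ∑ i ∈ s, (inr (f i) : RR k) = inr (∑ i ∈ s, f i) := (inr_sum _ _ _).symm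

theorem st1a_inl_sum {ι : Type} (s : Finset ι) (f : ι → AF k) :
    ∑ i ∈ s, (inl (f i) : RR k) = inl (∑ i ∈ s, f i) := (inl_sum _ _ _).symm

theorem st1a_fin {i : Fin 2} (h : i ≠ 1) : (i : ℕ) = 0 := by omega

theorem tD_sp (s : Bool × Lb) : SP (catL k) (tGn s) (tGn s) 1 (tD k s) := by
  rintro ⟨_ | u | _ | v | _, hx⟩ ⟨_ | u' | _ | v' | _, hy⟩ <;> try exact zero_mem _
  · refine st1a_inr ?_ fun _ => ⟨rfl, Or.inl ⟨rfl, rfl⟩⟩
    have := dlw_mem (k := k) u'
    rw [hy.2] at this
    simpa [DA, TG.lab, li, lk] using this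
  · refine st1a_inr (neg_mem ?_) fun _ => ⟨rfl, Or.inl ⟨rfl, rfl⟩⟩
    simpa [DA, TG.lab, li, lk, hy.2] using dlw_mem (k := k) 1
  · change dent k _ _ ∈ _
    rw [dent]
    refine sum_mem fun b _ => ?_
    split_ifs
    · refine st1a_inl ?_ fun _ => ⟨rfl, Or.inl rfl⟩
      simpa [AS, TG.lab, li, lk, lt] using aal_wd_mem (k := k) (FreeMonoid.of b)
    · exact zero_mem _
  · change dent k _ _ ∈ _
    rw [dent]
    refine sum_mem fun b _ => ?_
    split_ifs
    · exact (catL k).one_mem _
    · exact zero_mem _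

theorem st1a_sq (s : Bool × Lb) (x z : TG) (hz : z.ok s) :
    ∑ y : TGs s, dent k x y.1 * dent k y.1 z = 0 := by
  classical
  obtain ⟨_ | _, s⟩ := s
  swap
  · rw [sum_TGs_bot s fun y => dent k x y * dent k y z]
    cases x <;> simp [dent]
  rw [sum_TGs_top s fun y => dent k x y * dent k y z]
  cases x <;> cases z <;> try (simp [dent]; done)
  rename_i v
  obtain ⟨b, u, rfl, hu⟩ := st1a_split hz.2
  simp only [dent, Finset.sum_const_zero, zero_add, add_zero, Finset.mul_sum, mul_ite,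
    mul_zero, mul_one]
  rw [st1a_sum' b hu fun b u => (inr (dlw k u) : RR k) * inl (lt k b), inr_mul_inl]
  simp only [st1a_of_mul, ite_and, Finset.sum_ite_eq, Finset.mem_univ, if_true]
  split_ifs with h1 h2
  · subst h2
    rw [← inr_add, ← inr_zero (AF k)]
    congr 1
    refine AD.ext' fun p => ?_
    have := st1a_lt_mul b b 1 p
    rw [mul_one, if_pos rfl] at this
    simp [dlw_apply, this]
  · rw [add_zero, ← inr_zero (AF k)]
    congr 1
    refine AD.ext' fun p => ?_
    obtain ⟨c, rfl⟩ := FreeMonoid.length_eq_one.1 (by simpa [h1] using hu : u.length = 1)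
    have := st1a_lt_mul b c 1 p
    rw [mul_one, if_neg fun h => h2 (by rw [h])] at this
    simp [dlw_apply, this]
  · rw [add_zero, ← inr_zero (AF k)]
    congr 1
    refine AD.ext' fun p => ?_
    obtain rfl := FreeMonoid.length_eq_zero.1 (hu.trans (st1a_fin h1))
    simp [dlw_apply, st1a_lt_mul_one]

theorem tD_sq (s : Bool × Lb) : tD k s * tD k s = 0 := by
  exact Matrix.ext fun x z => st1a_sq s x.1 z.1 z.2

theorem st1a_coeff_mem {n m : ℤ} {a : AF k} (ha : a ∈ Asub k n m) (u u' : Wd) :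
    (wd k u * a).coeff u' • (1 : AF k) ∈ Asub k 0 m := by
  have := (Asub_mul (aal_wd_mem u) ha u').1
  rw [zero_add] at this
  exact smul_wd_mem_Asub this 1

theorem st1a_ne {a : AF k} {u u' : Wd} (h : (wd k u * a).coeff u' • (1 : AF k) ≠ 0) : a ≠ 0 := by
  rintro rfl
  simp at h

theorem st1a_wd_expand {s t : Lb} {a : AF k} (ha : a ∈ AS k s t) {u : Wd} {j : ℕ}
    (hu : u.length = s.1 + j) :
    ∑ v ∈ words (t.1 + j), (wd k u * a).coeff v • wd k v = wd k u * a := by
  refine st1a_expand (Asub_mul (aal_wd_mem u) ha) ?_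
  simp only [li, hu]
  push_cast
  ring

theorem st1a_wd_mul {s t : Lb} {a : AF k} (ha : a ∈ AS k s t) {u : Wd} {j : ℕ}
    (hu : u.length = s.1 + j) (b : AF k) (w : Wd) :
    (wd k u * (a * b)).coeff w =
      ∑ v ∈ words (t.1 + j), (wd k u * a).coeff v * (wd k v * b).coeff w := by
  conv_lhs => rw [← mul_assoc, ← st1a_wd_expand ha hu, Finset.sum_mul]
  rw [MonoidAlgebra.coeff_sum, Finsupp.finsetSum_apply]
  refine Finset.sum_congr rfl fun v _ => ?_
  rw [smul_mul_assoc, MonoidAlgebra.coeff_smul_apply, smul_eq_mul]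

theorem st1a_11 {s t : Lb} {a : AF k} (ha : a ∈ AS k s t) (hs : s.1 = 1) (ht : t.1 = 1) :
    a = a.coeff 1 • (1 : AF k) := by
  refine Asub_zero (m := lk t - lk s) ?_
  simpa [AS, li, hs, ht] using ha

theorem st1a_10 {s t : Lb} {a : AF k} (ha : a ∈ AS k s t) (hs : s.1 = 1) (ht : t.1 ≠ 1) :
    a = 0 := by
  refine Asub_neg_left ?_ ha
  simp [li, hs, st1a_fin ht]

theorem st1a_sc (c d : k[X]) :
    (inl (c • (1 : AF k)) : RR k) * inl (d • (1 : AF k)) = inl ((c * d) • (1 : AF k)) := by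
  rw [inl_mul_inl, smul_mul_smul_comm, mul_one]

variable (k) in
/-- the complex attached to an object of `𝒜` -/
noncomputable abbrev tOb (s : Bool × Lb) : Ob (catL k) where
  toGn := tGn s
  D := tD k s
  sp := tD_sp s
  sq := tD_sq s

variable {s t u : Bool × Lb} {n l : ℤ} {a b : RR k}

theorem tAct_sp (ha : a ∈ (catA k).sub s t n) : SP (catL k) (tGn s) (tGn t) n (tAct k s t a) := by
  have h1 := mem_aFst.1 ha.1
  have h2 := mem_aSnd.1 ha.2
  rintro ⟨_ | u | _ | v | _, hx⟩ ⟨_ | u' | _ | v' | _, hy⟩ <;> try exact zero_mem _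
  · exact st1a_inl h1.1 fun h => ⟨by simpa [TG.deg] using (h1.2 h).1, Or.inl rfl⟩
  · exact st1a_inl h1.1 fun h => ⟨by simpa [TG.deg] using (h1.2 h).1, Or.inr ⟨rfl, rfl⟩⟩
  · exact st1a_inl (st1a_coeff_mem h1.1 u u') fun h =>
      ⟨by simpa [TG.deg] using (h1.2 (st1a_ne h)).1, Or.inl rfl⟩
  · have e : a.fst.coeff 1 = (wd k 1 * a.fst).coeff 1 := by rw [wd_one, one_mul]
    refine st1a_inl ?_ fun h => ⟨?_, Or.inl rfl⟩
    · rw [e]
      exact st1a_coeff_mem h1.1 1 1
    · rw [e] at h
      simpa [TG.deg] using (h1.2 (st1a_ne h)).1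
  · exact st1a_inl (st1a_coeff_mem h1.1 v v') fun h =>
      ⟨by simpa [TG.deg] using (h1.2 (st1a_ne h)).1, Or.inl rfl⟩
  · refine st1a_inr ?_ fun h => ⟨?_, Or.inr ⟨rfl, rfl⟩⟩
    · have := Asub_smul_Dsub (aal_wd_mem v) h2.1.1
      rw [hx.2] at this
      unfold DA
      convert this using 2
      · simp only [li, TG.lab, Fin.val_one]
        push_cast
        ring
      · simp only [lk, TG.lab, zero_add]
    · simp [TG.deg, (h2.2 (right_ne_zero_of_smul h)).1]
  · exact st1a_inl h1.1 fun h => ⟨by simpa [TG.deg] using (h1.2 h).1, Or.inl rfl⟩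

theorem st1a_cl_tt {s t : Lb} {a : RR k} (ha : a.fst ∈ AS k s t) (x z : TG)
    (hx : x.ok (false, s)) (hz : z.ok (false, t)) :
    ∑ y : TGs (false, t), ent a x y.1 * dent k y.1 z =
      ∑ y : TGs (false, s), dent k x y.1 * ent a y.1 z := by
  classical
  rw [sum_TGs_top t fun y => ent a x y * dent k y z, sum_TGs_top s fun y => dent k x y * ent a y z]
  cases x <;> cases z <;> try first | exact absurd hz Bool.false_ne_true | (simp [dent, ent]; done)
  all_goals simp only [dent, ent, zero_mul, mul_zero, Finset.sum_const_zero, zero_add, add_zero,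
    ite_self, inl_mul_inr, inr_mul_inl, st1a_inr_sum]
  · rename_i u'
    congr 1
    refine AD.ext_wd fun w => ?_
    simp only [AD.smul_apply, dlw_apply, AD.toL_sum, LinearMap.sum_apply, AD.op_smul_apply,
      unop_op, smul_mul_assoc, one_mul, aal_coeff_smul_wd]
    rw [Finset.sum_ite_eq]
    split_ifs with h
    · rfl
    · refine (Asub_mul (aal_wd_mem w) ha u').2 fun h' => h (mem_words.2 ?_)
      have := hz.2
      simp only [li] at h' this
      omega
  · split_ifs with h
    · congr 1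
      refine AD.ext' fun p => ?_
      conv_lhs => rw [st1a_11 ha h hz.2]
      simp [dlw_apply]
    · rw [← inr_zero (AF k)]
      congr 1
      refine AD.ext_wd fun w => ?_
      have h0 : (wd k w * a.fst).coeff 1 = 0 := by
        refine (Asub_mul (aal_wd_mem w) ha 1).2 ?_
        have : t.1 = 1 := hz.2
        simp only [li, st1a_fin h, this, FreeMonoid.length_one]
        push_cast
        omega
      simp [dlw_apply, h0]
  · rename_i u v'
    obtain ⟨b', u', rfl, hu'⟩ := st1a_split hz.2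
    simp only [Finset.mul_sum, Finset.sum_mul, mul_ite, ite_mul, mul_zero, zero_mul]
    rw [st1a_sum' b' hu' fun b u' => (inl ((wd k u * a.fst).coeff u' • (1 : AF k)) : RR k) *
        inl (lt k b),
      st1a_sum (fun b => FreeMonoid.of b * u) (fun b => by
        rw [FreeMonoid.length_mul, FreeMonoid.length_of, hx.2, add_comm]) fun b v =>
        (inl (lt k b) : RR k) * inl ((wd k v * a.fst).coeff (FreeMonoid.of b' * u') • (1 : AF k)),
      Finset.sum_eq_single b']
    · rw [wd_mul, mul_assoc, ← lt, st1a_lt_mul, if_pos rfl, inl_mul_inl, inl_mul_inl,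
        smul_mul_assoc, mul_smul_comm, one_mul, mul_one]
    · intro b _ hb
      rw [wd_mul, mul_assoc, ← lt, st1a_lt_mul, if_neg hb, zero_smul, inl_zero, mul_zero]
    · exact fun h => absurd (Finset.mem_univ _) h
  · rename_i v'
    have hs : s.1 = 1 := hx.2
    simp only [Finset.mul_sum, Finset.sum_mul, mul_ite, ite_mul, mul_zero, zero_mul, one_mul,
      mul_one]
    rw [st1a_sum (fun b => FreeMonoid.of b * FreeMonoid.of b) (fun b => by simp [hs]) fun _ v =>
      (inl ((wd k v * a.fst).coeff v' • (1 : AF k)) : RR k)]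
    split_ifs with h
    · refine Finset.sum_congr rfl fun c _ => ?_
      conv_rhs => rw [st1a_11 ha hs h, mul_smul_comm, mul_one, aal_coeff_smul_wd]
      by_cases hc : v' = FreeMonoid.of c * FreeMonoid.of c
      · rw [if_pos hc, if_pos hc.symm]
      · rw [if_neg hc, if_neg (Ne.symm hc), zero_smul, inl_zero]
    · simp [st1a_10 ha hs h]

theorem st1a_cl_tb {s : Lb} {a : RR k} (ha : a.snd ∈ Rel k) (x : TG) (hx : x.ok (false, s)) :
    ∑ y : TGs (false, s), dent k x y.1 * ent a y.1 .uu = 0 := by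
  classical
  rw [sum_TGs_top s fun y => dent k x y * ent a y .uu]
  cases x <;> try (simp [dent, ent]; done)
  all_goals simp only [dent, ent, zero_mul, mul_zero, Finset.sum_const_zero, zero_add, ite_self,
    Finset.sum_mul, ite_mul, one_mul, inl_mul_inr]
  · rename_i u
    rw [st1a_sum (fun b => FreeMonoid.of b * u) (fun b => by
        rw [FreeMonoid.length_mul, FreeMonoid.length_of, hx.2, add_comm]) fun b v =>
        (inr (lt k b • wd k v • a.snd) : RR k), st1a_inr_sum, ← inr_zero (AF k)]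
    congr 1
    refine AD.ext' fun p => ?_
    have := ha p (wd k u)
    rw [om, Finset.mul_sum, Finset.sum_mul, map_sum] at this
    simpa only [AD.toL_sum, LinearMap.sum_apply, AD.smul_apply, wd_mul, lt, mul_assoc, AD.toL_zero,
      LinearMap.zero_apply] using this
  · have hs : s.1 = 1 := hx.2
    rw [st1a_sum (fun b => FreeMonoid.of b * FreeMonoid.of b) (fun b => by simp [hs]) fun _ v =>
        (inr (wd k v • a.snd) : RR k), st1a_inr_sum, ← inr_zero (AF k)]
    congr 1
    refine AD.ext' fun p => ?_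
    have := ha p 1
    rw [mul_one, om, Finset.mul_sum, map_sum] at this
    simpa only [AD.toL_sum, LinearMap.sum_apply, AD.smul_apply, wd_mul, lt, mul_assoc, AD.toL_zero,
      LinearMap.zero_apply] using this

theorem st1a_comm (ha : a ∈ (catA k).sub s t n) :
    tAct k s t a * tD k t = tD k s * tAct k s t a := by
  refine Matrix.ext fun x z => ?_
  change ∑ y : TGs t, ent a x.1 y.1 * dent k y.1 z.1 = ∑ y : TGs s, dent k x.1 y.1 * ent a y.1 z.1
  obtain ⟨x, hx⟩ := x
  obtain ⟨z, hz⟩ := z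
  obtain ⟨_ | _, s⟩ := s <;> obtain ⟨_ | _, t⟩ := t
  · exact st1a_cl_tt (mem_aFst.1 ha.1).1 x z hx hz
  · rw [sum_TGs_bot t fun y => ent a x y * dent k y z]
    cases z <;> try (simp [TG.ok] at hz; done)
    rw [st1a_cl_tb (mem_aSnd.1 ha.2).1.2 x hx]
    simp [dent]
  · rw [sum_TGs_top t fun y => ent a x y * dent k y z, sum_TGs_bot s fun y =>
      dent k x y * ent a y z]
    cases x <;> try (simp [TG.ok] at hx; done)
    simp [dent, ent]
  · rw [sum_TGs_bot t fun y => ent a x y * dent k y z, sum_TGs_bot s fun y =>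
      dent k x y * ent a y z]
    cases x <;> try (simp [TG.ok] at hx; done)
    cases z <;> simp [dent]

theorem tAct_cl (ha : a ∈ (catA k).sub s t n) : dP (tOb k s) (tOb k t) n (tAct k s t a) = 0 := by
  by_cases h0 : a = 0
  · rw [h0, map_zero]
    exact dP_zero
  have hn : sg n = 1 := by
    by_cases h1 : a.fst = 0
    · rw [((mem_aSnd.1 ha.2).2 fun h2 => h0 (TrivSqZeroExt.ext h1 h2)).1, sg_neg_two]
    · rw [((mem_aFst.1 ha.1).2 h1).1, sg_zero]
  rw [dP, hn, one_smul, sub_eq_zero]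
  exact st1a_comm ha

theorem st1a_snd (ha : a ∈ (catA k).sub s t n) (h : s.1 = true ∨ t.1 = false) : a.snd = 0 := by
  by_contra h0
  obtain ⟨-, h1, h2⟩ := (mem_aSnd.1 ha.2).2 h0
  simp [h1, h2] at h

theorem st1a_zero (ha : a ∈ (catA k).sub s t n) (hs : s.1 = true) (ht : t.1 = false) : a = 0 := by
  refine TrivSqZeroExt.ext ?_ (st1a_snd ha (Or.inl hs))
  by_contra h0
  have := ((mem_aFst.1 ha.1).2 h0).2
  rw [hs, ht] at this
  exact absurd this (by decide)

theorem st1a_mul_t {s t : Lb} {a b : RR k} (ha : a.fst ∈ AS k s t)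
    (ha' : a.snd = 0) (x z : TG) (hx : x.ok (false, s)) :
    ent (a * b) x z = ∑ y : TGs (false, t), ent a x y.1 * ent b y.1 z := by
  rw [sum_TGs_top t fun y => ent a x y * ent b y z]
  cases x <;> cases z <;> try (simp [ent, TG.ok] at hx ⊢; done)
  all_goals simp only [ent, zero_mul, Finset.sum_const_zero, zero_add, add_zero,
    ite_self, fst_mul, snd_mul, st1a_sc, st1a_inl_sum, ← Finset.sum_smul]
  · rw [st1a_wd_mul (j := 0) ha hx.2]
    rfl
  · split_ifs with h
    · conv_lhs => rw [st1a_11 ha hx.2 h, smul_mul_assoc, one_mul, MonoidAlgebra.coeff_smul_apply,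
        smul_eq_mul]
    · simp [st1a_10 ha hx.2 h]
  · rw [st1a_wd_mul (j := 1) ha hx.2]
  · rename_i v
    simp only [inl_mul_inr, st1a_inr_sum, ha', smul_zero, add_zero, smul_smul, smul_mul_assoc,
      one_mul, ← Finset.sum_smul, st1a_wd_expand (j := 1) ha hx.2]

theorem tAct_mul (ha : a ∈ (catA k).sub s t n) (hb : b ∈ (catA k).sub t u l) :
    tAct k s u (a * b) = tAct k s t a * tAct k t u b := by
  refine Matrix.ext fun x z => ?_
  change ent (a * b) x.1 z.1 = ∑ y : TGs t, ent a x.1 y.1 * ent b y.1 z.1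
  have e0 : ∀ x y, ent (0 : RR k) x y = 0 := fun x y => by
    simpa using ent_smul (0 : k) (0 : RR k) x y
  obtain ⟨x, hx⟩ := x
  obtain ⟨z, hz⟩ := z
  obtain ⟨_ | _, t⟩ := t
  · obtain ⟨_ | _, s⟩ := s
    · exact st1a_mul_t (mem_aFst.1 ha.1).1 (st1a_snd ha (Or.inr rfl)) x z hx
    · simp [st1a_zero ha rfl rfl, e0]
  · obtain ⟨_ | _, u⟩ := u
    · simp [st1a_zero hb rfl rfl, e0]
    rw [sum_TGs_bot t fun y => ent a x y * ent b y z]
    cases z <;> try (simp [TG.ok] at hz; done)
    cases x <;> try (simp [ent]; done)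
    simp only [ent, snd_mul, st1a_snd hb (Or.inl rfl), smul_zero, zero_add, inr_mul_inl]
    rw [smul_comm]

theorem tAct_one : tAct k s s 1 = 1 := by
  refine Matrix.ext fun x y => ?_
  by_cases h : x = y
  · subst h
    rw [Matrix.one_apply_eq, tAct_apply]
    obtain ⟨_ | u | _ | v | _, hx⟩ := x <;> simp [ent, wd]
  · rw [Matrix.one_apply_ne h, tAct_apply]
    have h' : x.1 ≠ y.1 := fun e => h (Subtype.ext e)
    have key : ∀ u v : Wd, u ≠ v → (wd k u).coeff v = 0 := fun u v huv => by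
      rw [← one_smul k[X] (wd k u), aal_coeff_smul_wd, if_neg huv]
    obtain ⟨_ | u | _ | v | _, hx⟩ := x <;> obtain ⟨_ | u' | _ | v' | _, hy⟩ := y <;>
      try (simp [ent] at h' ⊢; done)
    · exact absurd (hx.symm.trans hy) (by decide)
    · simp [ent, key u u' fun e => h' (congrArg TG.p0 e)]
    · simp [ent, key v v' fun e => h' (congrArg TG.p1 e)]

variable (k) in
/-- the strict functor -/
noncomputable def tSubst : Subst (catA k) (catL k) where
  Y := tOb k
  m := tAct k
  sp := tAct_sp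
  cl := tAct_cl
  mul := tAct_mul
  one _ := tAct_one

end Pool.Agent.Work.MP_910138_ag.C0
end

-- merged part: Pool.Agent.Work.MP_910138_ag.C0.St1B
section
/-! Maps from the top complexes to the middle level are acyclic. -/

open CategoryTheory TrivSqZeroExt MulOpposite Polynomial

namespace Pool.Agent.Work.MP_910138_ag.C0

variable {k : Type} [Field k]

/-- the differential on functions of generator names -/
noncomputable def st1b_d (s : Lb) (F : TG → RR k) : TG → RR k
  | .l => ∑ u ∈ words s.1, inr (dlw k u) * F (.p0 u) +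
      (if s.1 = 1 then inr (-dlw k 1) * F .st else 0)
  | .p0 u => ∑ b, inl (lt k b) * F (.p1 (FreeMonoid.of b * u))
  | .st => ∑ a, F (.p1 (FreeMonoid.of a * FreeMonoid.of a))
  | _ => 0

open Classical in
theorem st1b_sum {m : ℕ} (φ : Fin 3 → Wd) (hφ : ∀ b, (φ b).length = m) (c : Fin 3 → RR k)
    (G : Wd → RR k) :
    ∑ v ∈ words m, (∑ b, if v = φ b then c b else 0) * G v = ∑ b, c b * G (φ b) := by
  simp only [Finset.sum_mul, ite_mul, zero_mul]
  rw [Finset.sum_comm]
  refine Finset.sum_congr rfl fun b _ => ?_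
  rw [Finset.sum_ite_eq', if_pos (mem_words.2 (hφ b))]

theorem st1b_mulVec (s : Lb) (F : TG → RR k) (x : TGs (false, s)) :
    (tD k (false, s)).mulVec (fun y => F y.1) x = st1b_d s F x.1 := by
  have h : (tD k (false, s)).mulVec (fun y => F y.1) x =
      ∑ y : TGs (false, s), (fun g => dent k x.1 g * F g) y.1 := rfl
  rw [h, sum_TGs_top s (fun g => dent k x.1 g * F g)]
  obtain ⟨_ | u | _ | v | _, hx⟩ := x
  · simp [dent, st1b_d]
  · have hu : u.length = s.1 := hx.2
    simp only [dent, st1b_d, zero_mul, Finset.sum_const_zero, ite_self, zero_add]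
    convert st1b_sum (k := k) (m := s.1 + 1) (fun b => FreeMonoid.of b * u)
      (fun b => by rw [FreeMonoid.length_mul, FreeMonoid.length_of, hu, add_comm])
      (fun b => inl (lt k b)) (fun v => F (.p1 v))
  · have hs : s.1 = 1 := hx.2
    simp only [dent, st1b_d, zero_mul, Finset.sum_const_zero, ite_self, zero_add]
    have := st1b_sum (k := k) (m := s.1 + 1) (fun b => FreeMonoid.of b * FreeMonoid.of b)
      (fun b => by rw [FreeMonoid.length_mul, FreeMonoid.length_of, hs]; rfl)
      (fun _ => 1) (fun v => F (.p1 v))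
    simp only [one_mul] at this
    convert this
  · simp [dent, st1b_d]
  · simp [dent, st1b_d]

theorem st1b_words_one {V : Type} [AddCommMonoid V] (G : Wd → V) :
    ∑ u ∈ words 1, G u = ∑ a, G (FreeMonoid.of a) := by
  symm
  refine Finset.sum_bij (fun a _ => FreeMonoid.of a) (fun a _ => mem_words.2 rfl)
    (fun a _ b _ h => FreeMonoid.of_injective h) (fun u hu => ?_) (fun _ _ => rfl)
  obtain ⟨a, rfl⟩ := FreeMonoid.length_eq_one.1 (mem_words.1 hu)
  exact ⟨a, Finset.mem_univ _, rfl⟩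

theorem st1b_exists_cons {v : Wd} {m : ℕ} (h : v.length = m + 1) :
    ∃ b u, v = FreeMonoid.of b * u ∧ u.length = m := by
  induction v using FreeMonoid.casesOn with
  | one => simp at h
  | of_mul b u =>
    refine ⟨b, u, rfl, ?_⟩
    rw [FreeMonoid.length_mul, FreeMonoid.length_of] at h
    omega

theorem st1b_mem_pp {s t : Lb} {n : ℤ} {r : RR k} :
    r ∈ (catL k).sub (1, s) (1, t) n ↔ r.fst ∈ AS k s t ∧ (r.fst ≠ 0 → n = 0) ∧ r.snd = 0 := by
  rw [mem_catL, mem_lFst, mem_lSnd]
  constructor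
  · rintro ⟨⟨h1, h2⟩, -, h3⟩
    refine ⟨h1, fun h => (h2 h).1, by_contra fun h => ?_⟩
    have := (h3 h).2
    simp at this
  · rintro ⟨h1, h2, h3⟩
    exact ⟨⟨h1, fun h => ⟨h2 h, Or.inl rfl⟩⟩, h3 ▸ zero_mem _, fun h => absurd h3 h⟩

theorem st1b_mem_lp {s t : Lb} {n : ℤ} {r : RR k} (h : r ∈ (catL k).sub (0, s) (1, t) n) :
    r.fst = 0 ∧ r.snd ∈ DA k s t ∧ (r.snd ≠ 0 → n = 0) := by
  rw [mem_catL, mem_lFst, mem_lSnd] at h
  obtain ⟨⟨-, h2⟩, h3, h4⟩ := h
  refine ⟨by_contra fun h => ?_, h3, fun h => (h4 h).1⟩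
  have := (h2 h).2
  simp at this

theorem st1b_mem_pl {s t : Lb} {n : ℤ} {r : RR k} (h : r ∈ (catL k).sub (1, s) (0, t) n) :
    r = 0 := by
  rw [mem_catL, mem_lFst, mem_lSnd] at h
  obtain ⟨⟨-, h2⟩, -, h4⟩ := h
  refine TrivSqZeroExt.ext (by_contra fun h => ?_) (by_contra fun h => ?_)
  · have := (h2 h).2
    simp at this
  · have := (h4 h).2
    simp at this

theorem st1b_mem_ll {s t : Lb} {n : ℤ} {r : RR k} (h : r ∈ (catL k).sub (0, s) (0, t) n) :
    r.fst ∈ AS k s t ∧ (r.fst ≠ 0 → n = 0) ∧ r.snd = 0 := by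
  rw [mem_catL, mem_lFst, mem_lSnd] at h
  obtain ⟨⟨h1, h2⟩, -, h4⟩ := h
  refine ⟨h1, fun h => (h2 h).1, by_contra fun h => ?_⟩
  have := (h4 h).2
  simp at this

theorem st1b_smul_one_mem {m : ℤ} {p : k[X]} (hp : p ∈ degLE k m) :
    p • (1 : AF k) ∈ Asub k 0 m := smul_wd_mem_Asub hp 1

/-- the component at the first generator, evaluated -/
theorem st1b_d_l (s : Lb) (F : TG → RR k) (p : AF k) :
    (st1b_d s F .l).snd.toL p = ∑ u ∈ words s.1, ((F (.p0 u)).fst * p).coeff u -
      (if s.1 = 1 then ((F .st).fst * p).coeff 1 else 0) := by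
  unfold st1b_d
  simp only [snd_add, snd_sum, snd_mul, fst_inr, snd_inr, zero_smul, zero_add, AD.toL_add,
    AD.toL_sum, LinearMap.add_apply, LinearMap.sum_apply, AD.op_smul_apply, unop_op, dlw_apply]
  split_ifs
  · simp only [snd_mul, fst_inr, snd_inr, zero_smul, zero_add, AD.op_smul_apply, unop_op,
      AD.toL_neg, LinearMap.neg_apply, dlw_apply, sub_eq_add_neg]
  · simp

theorem st1b_d_l_fst (s : Lb) (F : TG → RR k) : (st1b_d s F .l).fst = 0 := by
  unfold st1b_d
  simp only [fst_add, fst_sum, fst_mul, fst_inr, zero_mul, Finset.sum_const_zero, zero_add]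
  split_ifs <;> simp

open Classical in
theorem st1b_coeff (c : k[X]) (p u : Wd) :
    ((c • (1 : AF k)) * wd k p).coeff u = if p = u then c else 0 := by
  rw [smul_mul_assoc, one_mul, aal_coeff_smul_wd]

open Classical in
theorem st1b_sum_ite (m : ℕ) (p : Wd) (G : Wd → k[X]) :
    ∑ x ∈ words m, (if p = x then G x else 0) = if p.length = m then G p else 0 := by
  rw [Finset.sum_ite_eq]
  exact if_congr mem_words rfl rfl

theorem st1b_lb (s : Lb) : (s.1 = 0 ∧ li s = 0) ∨ (s.1 = 1 ∧ li s = 1) := by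
  obtain ⟨i, j⟩ := s
  fin_cases i
  · exact Or.inl ⟨rfl, rfl⟩
  · exact Or.inr ⟨rfl, rfl⟩

/-- the hypotheses of the acyclicity statement in terms of names -/
structure st1b_H (s t : Lb) (n : ℤ) (F : TG → RR k) : Prop where
  l1 : (F .l).fst = 0
  l2 : (F .l).snd ∈ Dsub k (li s - li t) (lk t - lk s)
  l3 : (F .l).snd ≠ 0 → n = 0
  a1 : ∀ u, (F (.p0 u)).fst ∈ Asub k (li t) (lk t - lk s)
  a2 : ∀ u, (F (.p0 u)).fst ≠ 0 → n = -1
  a3 : ∀ u, (F (.p0 u)).snd = 0
  b1 : (F .st).fst ∈ Asub k (li t - 1) (lk t - lk s)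
  b2 : (F .st).fst ≠ 0 → n = -1
  b3 : (F .st).snd = 0
  c1 : ∀ u, (F (.p1 u)).fst ∈ Asub k (li t - 1) (lk t - lk s)
  c2 : ∀ u, (F (.p1 u)).fst ≠ 0 → n = -2
  c3 : ∀ u, (F (.p1 u)).snd = 0

theorem st1b_H.mem {s t : Lb} {n : ℤ} {F : TG → RR k} (H : st1b_H s t n F) (h : F .l = 0)
    (x : TGs (false, s)) : F x.1 ∈ (catL k).sub (x.1.lab s) (1, t) (n + x.1.deg) := by
  obtain ⟨_ | u | _ | v | _, hx⟩ := x
  · change F .l ∈ _
    rw [h]
    exact zero_mem _
  · refine st1b_mem_pp.2 ⟨?_, fun h => ?_, H.a3 u⟩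
    · have := H.a1 u
      rwa [← sub_zero (li t)] at this
    · rw [H.a2 u h]; rfl
  · exact st1b_mem_pp.2 ⟨H.b1, fun h => by rw [H.b2 h]; rfl, H.b3⟩
  · exact st1b_mem_pp.2 ⟨H.c1 v, fun h => by rw [H.c2 v h]; rfl, H.c3 v⟩
  · exact absurd hx (by simp [TG.ok])

theorem st1b_zero {r : RR k} {P : Prop} (h1 : r.fst ≠ 0 → P) (hP : ¬ P) (h2 : r.snd = 0) : r = 0 :=
  TrivSqZeroExt.ext (by_contra fun h => hP (h1 h)) h2

theorem st1b_d_zero (s : Lb) (g : TG) : st1b_d s (0 : TG → RR k) g = 0 := by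
  cases g <;> simp [st1b_d]

theorem st1b_H_zero (s t : Lb) (n : ℤ) : st1b_H s t n (0 : TG → RR k) :=
  ⟨rfl, zero_mem _, fun h => absurd rfl h, fun _ => zero_mem _, fun _ h => absurd rfl h,
    fun _ => rfl, zero_mem _, fun h => absurd rfl h, rfl, fun _ => zero_mem _,
    fun _ h => absurd rfl h, fun _ => rfl⟩

/-- the bounding element in degree zero -/
noncomputable def st1b_w0 (t : Lb) (f : AD k) : TG → RR k
  | .p0 u => inl (if t.1 = 0 then f.toL (wd k u) • (1 : AF k) else 0)
  | .st => inl (if t.1 = 1 then (-f.toL (wd k 1)) • (1 : AF k) else 0)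
  | _ => 0

theorem st1b_case0 {s t : Lb} {F : TG → RR k} (H : st1b_H s t 0 F) :
    ∃ W : TG → RR k, st1b_H s t (0 - 1) W ∧ W .l = 0 ∧
      ∀ g, TG.ok (false, s) g → F g = st1b_d s W g := by
  have hf := H.l2
  refine ⟨st1b_w0 t (F .l).snd, ⟨rfl, zero_mem _, fun h => absurd rfl h, fun u => ?_,
    fun _ _ => rfl, fun _ => rfl, ?_, fun _ => rfl, rfl, fun _ => zero_mem _,
    fun _ h => absurd rfl h, fun _ => rfl⟩, rfl, ?_⟩
  · change (if t.1 = 0 then (F .l).snd.toL (wd k u) • (1 : AF k) else 0) ∈ _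
    rcases st1b_lb t with ⟨h1, h2⟩ | ⟨h1, h2⟩
    · rw [if_pos h1, h2]
      exact st1b_smul_one_mem (hf u).1
    · rw [if_neg (by rw [h1]; decide)]
      exact zero_mem _
  · change (if t.1 = 1 then (-(F .l).snd.toL (wd k 1)) • (1 : AF k) else 0) ∈ _
    rcases st1b_lb t with ⟨h1, h2⟩ | ⟨h1, h2⟩
    · rw [if_neg (by rw [h1]; decide)]
      exact zero_mem _
    · rw [if_pos h1, h2, sub_self]
      exact st1b_smul_one_mem (neg_mem (hf 1).1)
  · rintro (_ | u | _ | v | _) hg
    · refine TrivSqZeroExt.ext (H.l1.trans (st1b_d_l_fst _ _).symm) (AD.ext_wd fun p => ?_)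
      rw [st1b_d_l]
      have hp := (hf p).2
      simp only [st1b_w0, fst_inl]
      rcases st1b_lb t with ⟨h1, h2⟩ | ⟨h1, h2⟩
      · have h3 : ¬ t.1 = 1 := by rw [h1]; decide
        simp only [if_pos h1, if_neg h3, st1b_coeff, zero_mul, MonoidAlgebra.coeff_zero,
          Finsupp.zero_apply, ite_self, sub_zero]
        rw [st1b_sum_ite s.1 p fun x => (F .l).snd.toL (wd k x)]
        split_ifs with h4
        · rfl
        · refine hp fun h5 => h4 ?_
          rw [h2, sub_zero, li] at h5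
          exact_mod_cast h5
      · have h3 : ¬ t.1 = 0 := by rw [h1]; decide
        simp only [if_pos h1, if_neg h3, st1b_coeff, zero_mul, MonoidAlgebra.coeff_zero,
          Finsupp.zero_apply, Finset.sum_const_zero, zero_sub]
        rcases st1b_lb s with ⟨h4, h5⟩ | ⟨h4, h5⟩
        · rw [if_neg (by rw [h4]; decide), neg_zero]
          exact hp (by rw [h5, h2]; omega)
        · rw [if_pos h4]
          split_ifs with h6
          · rw [h6, neg_neg]
          · rw [neg_zero]
            refine hp fun h7 => h6 (FreeMonoid.length_eq_zero.1 ?_)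
            rw [h5, h2] at h7
            omega
    · rw [st1b_zero (H.a2 u) (by decide) (H.a3 u)]
      simp [st1b_d, st1b_w0]
    · rw [st1b_zero H.b2 (by decide) H.b3]
      simp [st1b_d, st1b_w0]
    · exact st1b_zero (H.c2 v) (by decide) (H.c3 v)
    · exact absurd hg (by simp [TG.ok])

/-- the coefficient of the first letter in the value at the rest of the word -/
noncomputable def st1b_c (F : TG → RR k) (v : Wd) : k[X] :=
  match v.toList with
  | [] => 0
  | b :: l => (F (.p0 (FreeMonoid.ofList l))).fst.coeff (FreeMonoid.of b)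

theorem st1b_c_cons (F : TG → RR k) (b : Fin 3) (u : Wd) :
    st1b_c F (FreeMonoid.of b * u) = (F (.p0 u)).fst.coeff (FreeMonoid.of b) := rfl

/-- the bounding element in degree minus one -/
noncomputable def st1b_w1 (F : TG → RR k) : TG → RR k
  | .p1 v => inl (st1b_c F v • (1 : AF k))
  | _ => 0

theorem st1b_case1 {s t : Lb} {F : TG → RR k} (H : st1b_H s t (-1) F)
    (h0 : st1b_d s F .l = 0) :
    ∃ W : TG → RR k, st1b_H s t (-1 - 1) W ∧ W .l = 0 ∧
      ∀ g, TG.ok (false, s) g → F g = st1b_d s W g := by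
  have hl : F .l = 0 := TrivSqZeroExt.ext H.l1 (by_contra fun h => absurd (H.l3 h) (by decide))
  have hp1 : ∀ v, F (.p1 v) = 0 := fun v => st1b_zero (H.c2 v) (by decide) (H.c3 v)
  have hev : ∀ p, ∑ u ∈ words s.1, ((F (.p0 u)).fst * p).coeff u -
      (if s.1 = 1 then ((F .st).fst * p).coeff 1 else 0) = 0 := fun p => by
    rw [← st1b_d_l, h0]; rfl
  rcases st1b_lb t with ⟨h1, h2⟩ | ⟨h1, h2⟩
  · refine ⟨0, st1b_H_zero _ _ _, rfl, fun g hg => ?_⟩
    rw [st1b_d_zero]
    have hst : (F .st).fst = 0 := Asub_neg_left (by rw [h2]; decide) H.b1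
    obtain _ | u | _ | v | _ := g
    · exact hl
    · refine TrivSqZeroExt.ext ?_ (H.a3 u)
      have e := hev (wd k u)
      have ha : ∀ u, (F (.p0 u)).fst = (F (.p0 u)).fst.coeff 1 • (1 : AF k) := fun u =>
        Asub_zero (h2 ▸ H.a1 u)
      rw [hst, Finset.sum_congr rfl fun u' _ => by rw [ha u', st1b_coeff]] at e
      simp only [zero_mul, MonoidAlgebra.coeff_zero, Finsupp.zero_apply, ite_self, sub_zero] at e
      rw [st1b_sum_ite s.1 u fun x => (F (.p0 x)).fst.coeff 1, if_pos hg.2] at e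
      rw [ha u, e, zero_smul]
      rfl
    · exact TrivSqZeroExt.ext hst H.b3
    · exact hp1 v
    · exact absurd hg (by simp [TG.ok])
  · refine ⟨st1b_w1 F, ⟨rfl, zero_mem _, fun h => absurd rfl h, fun _ => zero_mem _,
      fun _ h => absurd rfl h, fun _ => rfl, zero_mem _, fun h => absurd rfl h, rfl, fun v => ?_,
      fun _ _ => rfl, fun _ => rfl⟩, rfl, ?_⟩
    · rw [h2, sub_self]
      refine st1b_smul_one_mem ?_
      induction v using FreeMonoid.casesOn with
      | one => exact zero_mem _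
      | of_mul b u => exact (H.a1 u _).1
    · rintro (_ | u | _ | v | _) hg
      · rw [hl]
        simp [st1b_d, st1b_w1]
      · simp only [st1b_d, st1b_w1, st1b_c_cons, ← inl_mul, mul_smul_comm, mul_one]
        refine TrivSqZeroExt.ext ?_ ?_
        · rw [fst_sum]
          exact Asub_one (h2 ▸ H.a1 u)
        · rw [snd_sum, H.a3]
          simp
      · have hs : s.1 = 1 := hg.2
        have e := hev 1
        rw [if_pos hs, hs] at e
        simp only [mul_one] at e
        have e' : ∑ u ∈ words 1, (F (.p0 u)).fst.coeff u = (F .st).fst.coeff 1 := sub_eq_zero.1 e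
        rw [st1b_words_one] at e'
        simp only [st1b_d, st1b_w1, st1b_c_cons]
        refine TrivSqZeroExt.ext ?_ ?_
        · rw [fst_sum]
          simp only [fst_inl]
          rw [← Finset.sum_smul, e']
          refine Asub_zero (m := lk t - lk s) ?_
          have := H.b1
          rwa [h2, sub_self] at this
        · rw [snd_sum, H.b3]
          simp
      · exact hp1 v
      · exact absurd hg (by simp [TG.ok])

theorem st1b_case2 {s t : Lb} {F : TG → RR k} (H : st1b_H s t (-2) F)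
    (h0 : ∀ u : Wd, u.length = s.1 → st1b_d s F (.p0 u) = 0) (v : Wd) (hv : v.length = s.1 + 1) :
    F (.p1 v) = 0 := by
  refine TrivSqZeroExt.ext ?_ (H.c3 v)
  rcases st1b_lb t with ⟨h1, h2⟩ | ⟨h1, h2⟩
  · exact Asub_neg_left (by rw [h2]; decide) (H.c1 v)
  · obtain ⟨b, u, rfl, hu⟩ := st1b_exists_cons hv
    have ha : ∀ v, (F (.p1 v)).fst = (F (.p1 v)).fst.coeff 1 • (1 : AF k) := fun v => by
      refine Asub_zero (m := lk t - lk s) ?_
      have := H.c1 v
      rwa [h2, sub_self] at this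
    have e := congrArg (fun r : RR k => r.fst.coeff (FreeMonoid.of b)) (h0 u hu)
    simp only [st1b_d, fst_sum, fst_mul, fst_inl, fst_zero, MonoidAlgebra.coeff_zero,
      Finsupp.zero_apply, MonoidAlgebra.coeff_sum, Finsupp.finsetSum_apply] at e
    rw [Finset.sum_congr rfl fun c _ => by
      rw [ha, mul_smul_comm, mul_one, lt, aal_coeff_smul_wd]] at e
    simp only [FreeMonoid.of_injective.eq_iff, Finset.sum_ite_eq', Finset.mem_univ, if_true] at e
    rw [ha, e, zero_smul]
    rfl

theorem tCol_acyclic (s t : Lb) (n : ℤ) (v : TGs (false, s) → RR k)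
    (hv : ∀ x, v x ∈ (catL k).sub (x.1.lab s) (1, t) (n + x.1.deg))
    (h0 : (tD k (false, s)).mulVec v = 0) :
    ∃ w : TGs (false, s) → RR k, (∀ x, w x ∈ (catL k).sub (x.1.lab s) (1, t) (n - 1 + x.1.deg)) ∧
      v = (tD k (false, s)).mulVec w := by
  classical
  obtain ⟨F, rfl, hF⟩ : ∃ F : TG → RR k, v = (fun y => F y.1) ∧
      ∀ g, ¬ TG.ok (false, s) g → F g = 0 :=
    ⟨fun g => if h : TG.ok (false, s) g then v ⟨g, h⟩ else 0,
      funext fun y => by simp only [dif_pos y.2]; rfl, fun g h => dif_neg h⟩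
  have hv' : ∀ g, g ≠ .uu → F g ∈ (catL k).sub (g.lab s) (1, t) (n + g.deg) := fun g _ => by
    by_cases h : TG.ok (false, s) g
    · exact hv ⟨g, h⟩
    · rw [hF g h]; exact zero_mem _
  have hl := st1b_mem_lp (hv' .l (by simp))
  have ha := fun u => st1b_mem_pp.1 (hv' (.p0 u) (by simp))
  have hb := st1b_mem_pp.1 (hv' .st (by simp))
  have hc := fun u => st1b_mem_pp.1 (hv' (.p1 u) (by simp))
  simp only [TG.deg] at hl ha hb hc
  have H : st1b_H s t n F :=
    ⟨hl.1, hl.2.1, fun h => by have := hl.2.2 h; omega,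
      fun u => by have := (ha u).1; rw [← sub_zero (li t)]; exact this,
      fun u h => by have := (ha u).2.1 h; omega, fun u => (ha u).2.2, hb.1,
      fun h => by have := hb.2.1 h; omega, hb.2.2, fun u => (hc u).1,
      fun u h => by have := (hc u).2.1 h; omega, fun u => (hc u).2.2⟩
  have hd : ∀ g, TG.ok (false, s) g → st1b_d s F g = 0 := fun g hg => by
    rw [← st1b_mulVec s F ⟨g, hg⟩, h0]; rfl
  suffices h : ∃ W : TG → RR k, st1b_H s t (n - 1) W ∧ W .l = 0 ∧
      ∀ g, TG.ok (false, s) g → F g = st1b_d s W g by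
    obtain ⟨W, h1, h2, h3⟩ := h
    exact ⟨fun y => W y.1, h1.mem h2, funext fun x => by rw [st1b_mulVec]; exact h3 x.1 x.2⟩
  by_cases h1 : n = 0
  · subst h1
    exact st1b_case0 H
  by_cases h2 : n = -1
  · subst h2
    exact st1b_case1 H (hd .l rfl)
  refine ⟨0, st1b_H_zero _ _ _, rfl, fun g hg => ?_⟩
  rw [st1b_d_zero]
  obtain _ | u | _ | u | _ := g
  · exact TrivSqZeroExt.ext H.l1 (by_contra fun h => h1 (H.l3 h))
  · exact st1b_zero (H.a2 u) h2 (H.a3 u)
  · exact st1b_zero H.b2 h2 H.b3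
  · by_cases h3 : n = -2
    · subst h3
      exact st1b_case2 H (fun u hu => hd (.p0 u) ⟨rfl, hu⟩) u hg.2
    · exact st1b_zero (H.c2 u) h3 (H.c3 u)
  · exact absurd hg (by simp [TG.ok])

theorem tSurj_top_top (s t : Lb) (n : ℤ) (f : Matrix (TGs (false, s)) (TGs (false, t)) (RR k))
    (hf : SP (catL k) (tGn (false, s)) (tGn (false, t)) n f)
    (hd : dP (tOb k (false, s)) (tOb k (false, t)) n f = 0) :
    ∃ a ∈ (catA k).sub (false, s) (false, t) n, ∃ h,
      SP (catL k) (tGn (false, s)) (tGn (false, t)) (n - 1) h ∧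
        f = tAct k _ _ a + dP (tOb k (false, s)) (tOb k (false, t)) (n - 1) h := by
  have hll := hf ⟨.l, rfl⟩ ⟨.l, rfl⟩
  obtain ⟨a, haf⟩ : ∃ a, a = f ⟨.l, rfl⟩ ⟨.l, rfl⟩ := ⟨_, rfl⟩
  rw [← haf] at hll
  obtain ⟨h1, h2, h3⟩ := st1b_mem_ll hll
  have ha : a ∈ (catA k).sub (false, s) (false, t) n := by
    refine mem_catA.2 ⟨mem_aFst.2 ⟨h1, fun h => ⟨?_, le_rfl⟩⟩, h3 ▸ zero_mem _⟩
    have := h2 h
    simp only [TG.deg] at this
    omega
  have hg : SP (catL k) (tGn (false, s)) (tGn (false, t)) n (f - tAct k _ _ a) :=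
    hf.sub (tAct_sp ha)
  obtain ⟨h, hh, e⟩ := col_acyclic (tOb k (false, s)) (tOb k (false, t)) (fun y => y.1 ≠ .l)
    (fun y y' _ hy hy' => hy (by
      change dent k y.1 y'.1 = 0
      rw [hy']
      cases y.1 <;> rfl))
    (fun y hy m v hv h0 => by
      obtain ⟨_ | u | _ | u | _, hy'⟩ := y
      · exact absurd rfl hy
      · exact tCol_acyclic s (0, t.2) m v hv h0
      · exact tCol_acyclic s (1, t.2) m v hv h0
      · exact tCol_acyclic s (1, t.2) m v hv h0
      · exact absurd hy' (by simp [TG.ok]))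
    hg (by rw [dP_sub, hd, tAct_cl ha, sub_zero])
    (fun x y hy => by
      obtain ⟨y, hy'⟩ := y
      obtain rfl : y = .l := not_not.1 hy
      have hx := hg x ⟨.l, hy'⟩
      obtain ⟨_ | u | _ | u | _, hx'⟩ := x
      · rw [Matrix.sub_apply, tAct_apply, ← haf]
        exact sub_eq_zero.2 (TrivSqZeroExt.ext rfl h3)
      · exact st1b_mem_pl hx
      · exact st1b_mem_pl hx
      · exact st1b_mem_pl hx
      · exact absurd hx' (by simp [TG.ok]))
  exact ⟨a, ha, h, hh, by rw [← e, add_sub_cancel]⟩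

end Pool.Agent.Work.MP_910138_ag.C0
end

-- merged part: Pool.Agent.Work.MP_910138_ag.C0.St1C
section
/-! The strict functor is a quasi-isomorphism on Hom-complexes. -/

open CategoryTheory TrivSqZeroExt MulOpposite Polynomial

namespace Pool.Agent.Work.MP_910138_ag.C0

variable {k : Type} [Field k]

theorem st1c_split (w : Wd) {n : ℕ} (h : n ≤ w.length) : ∃ p v : Wd, v.length = n ∧ w = p * v := by
  refine ⟨FreeMonoid.ofList (w.toList.take (w.length - n)),
    FreeMonoid.ofList (w.toList.drop (w.length - n)), ?_, ?_⟩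
  · change (w.toList.drop (w.length - n)).length = n
    rw [List.length_drop]
    change w.length - (w.length - n) = n
    omega
  · rw [← FreeMonoid.ofList_append, List.take_append_drop, FreeMonoid.ofList_toList]

theorem st1c_of_mul {a b : Fin 3} {u v : Wd} (h : FreeMonoid.of a * u = FreeMonoid.of b * v) :
    a = b := by
  have := congrArg FreeMonoid.toList h
  simp only [FreeMonoid.toList_mul, FreeMonoid.toList_of, List.singleton_append,
    List.cons.injEq] at this
  exact this.1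

theorem st1c_lt_smul (b : Fin 3) (ψ : AD k) (p : Wd) :
    (lt k b • ψ).toL (wd k p) = ψ.toL (wd k (p * FreeMonoid.of b)) := by
  rw [AD.smul_apply, lt, ← wd_mul]

theorem st1c_psi {i : ℕ} (hi : i ≤ 1) {l m : ℤ} (hl : l ≤ 1) (g : Wd → AD k)
    (hg : ∀ v, v.length = i + 1 → g v ∈ Dsub k l m)
    (h0 : ∀ u : Wd, u.length = i → ∑ b, lt k b • g (FreeMonoid.of b * u) = 0)
    (h1 : i = 1 → ∑ a, g (FreeMonoid.of a * FreeMonoid.of a) = 0) :
    ∃ ψ ∈ Dsub k (i + 1 + l) m, ψ ∈ Rel k ∧ ∀ v, v.length = i + 1 → wd k v • ψ = g v := by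
  obtain ⟨ψ, e0, e1⟩ : ∃ ψ : AD k, (∀ w : Wd, w.length < i + 1 → ψ.toL (wd k w) = 0) ∧
      ∀ p v : Wd, v.length = i + 1 → ψ.toL (wd k (p * v)) = (g v).toL (wd k p) := by
    refine ⟨formOf k fun w => if w.length < i + 1 then 0 else
      (g (FreeMonoid.ofList (w.toList.drop (w.length - (i + 1))))).toL
        (wd k (FreeMonoid.ofList (w.toList.take (w.length - (i + 1))))), fun w hw => ?_,
      fun p v hv => ?_⟩
    · rw [formOf_wd, if_pos hw]
    · have e : (p * v).length - (i + 1) = p.toList.length := by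
        rw [FreeMonoid.length_mul, hv, Nat.add_sub_cancel]
        rfl
      rw [formOf_wd, if_neg (by rw [FreeMonoid.length_mul]; omega), e, FreeMonoid.toList_mul,
        List.drop_left, List.take_left, FreeMonoid.ofList_toList, FreeMonoid.ofList_toList]
  have hψ : ψ ∈ Dsub k (i + 1 + l) m := by
    intro w
    by_cases hw : w.length < i + 1
    · rw [e0 w hw]
      exact ⟨zero_mem _, fun _ => rfl⟩
    · obtain ⟨p, v, hv, rfl⟩ := st1c_split w (not_lt.1 hw)
      rw [e1 p v hv]
      refine ⟨(hg v hv p).1, fun h => (hg v hv p).2 fun h' => h ?_⟩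
      rw [FreeMonoid.length_mul]
      omega
  refine ⟨ψ, hψ, mem_Rel_of_wd fun u v => ?_, fun v hv => AD.ext_wd fun p => ?_⟩
  · rcases lt_trichotomy v.length i with hv | hv | hv
    · obtain rfl : v = 1 := FreeMonoid.length_eq_zero.1 (by omega)
      have := congrArg (fun φ : AD k => φ.toL (wd k u)) (h1 (by omega))
      simp only [AD.toL_sum, LinearMap.sum_apply, AD.toL_zero, LinearMap.zero_apply] at this
      refine Eq.trans (Finset.sum_congr rfl fun c _ => ?_) this
      rw [mul_one, mul_assoc, e1]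
      simp only [FreeMonoid.length_mul, FreeMonoid.length_of]
      omega
    · have := congrArg (fun φ : AD k => φ.toL (wd k u)) (h0 v hv)
      simp only [AD.toL_sum, LinearMap.sum_apply, AD.toL_zero, LinearMap.zero_apply,
        st1c_lt_smul] at this
      refine Eq.trans (Finset.sum_congr rfl fun c _ => ?_) this
      rw [mul_assoc, e1]
      simp only [FreeMonoid.length_mul, FreeMonoid.length_of]
      omega
    · refine Finset.sum_eq_zero fun c _ => (hψ _).2 ?_
      simp only [FreeMonoid.length_mul, FreeMonoid.length_of]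
      omega
  · rw [AD.smul_apply, ← wd_mul, e1 p v hv]

/-- a letter different from the first one -/
def st1c_hd (u : Wd) : Fin 3 := u.toList.headD 0 + 1

/-- the word without its first letter -/
def st1c_tl (v : Wd) : Wd := FreeMonoid.ofList v.toList.tail

theorem st1c_hd_ne (a : Fin 3) : a ≠ st1c_hd (FreeMonoid.of a) := by
  change a ≠ a + 1
  revert a
  decide

theorem st1c_tl_mul (a : Fin 3) (u : Wd) : st1c_tl (FreeMonoid.of a * u) = u := rfl

theorem st1c_len {p : Wd} (hp : p ≠ 1) : 0 < p.length :=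
  Nat.pos_of_ne_zero fun h => hp (FreeMonoid.length_eq_zero.1 h)

theorem st1c_lift {l m : ℤ} (hl : l ≤ 0) (α : Wd → AD k) (β : AD k)
    (hα : ∀ u, α u ∈ Dsub k l m) (hβ : β ∈ Dsub k (1 + l) m) :
    ∃ g : Wd → AD k, (∀ v, g v ∈ Dsub k (1 + l) m) ∧
      (∀ u, ∑ b, lt k b • g (FreeMonoid.of b * u) = α u) ∧
      ∑ a, g (FreeMonoid.of a * FreeMonoid.of a) = β := by
  classical
  refine ⟨fun v => formOf k fun q =>
    (if q = FreeMonoid.of (st1c_hd (st1c_tl v)) ∧ v = q * st1c_tl v then
      (α (st1c_tl v)).toL (wd k 1) else 0) +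
    if v = FreeMonoid.of (st1c_hd q) * FreeMonoid.of (st1c_hd q) then β.toL (wd k q) else 0,
    fun v q => ?_, fun u => AD.ext_wd fun p => ?_, AD.ext_wd fun q => ?_⟩
  · rw [formOf_wd]
    refine ⟨add_mem ?_ ?_, fun h => ?_⟩
    · split_ifs
      · exact (hα _ 1).1
      · exact zero_mem _
    · split_ifs
      · exact (hβ q).1
      · exact zero_mem _
    · rw [(hβ q).2 h, ite_self, add_zero]
      split_ifs with h'
      · refine (hα _ 1).2 fun h'' => h ?_
        rw [h'.1, FreeMonoid.length_of, ← h'', FreeMonoid.length_one]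
        rfl
      · rfl
  · simp only [AD.toL_sum, LinearMap.sum_apply, st1c_lt_smul, formOf_wd, st1c_tl_mul]
    by_cases hp : p = 1
    · subst hp
      rw [Finset.sum_eq_single (st1c_hd u) _ (fun h => (h (Finset.mem_univ _)).elim)]
      · rw [one_mul, if_pos ⟨rfl, rfl⟩, if_neg fun h => st1c_hd_ne _ (st1c_of_mul h), add_zero]
      · intro b _ hb
        rw [one_mul, if_neg fun h => hb (FreeMonoid.of_injective h.1),
          if_neg fun h => st1c_hd_ne _ (st1c_of_mul h), add_zero]
    · have := st1c_len hp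
      rw [(hα u p).2 (by omega)]
      refine Finset.sum_eq_zero fun b _ => ?_
      rw [if_neg, (hβ _).2, ite_self, add_zero]
      · simp only [FreeMonoid.length_mul, FreeMonoid.length_of]
        omega
      · intro h
        have := congrArg FreeMonoid.length h.1
        simp only [FreeMonoid.length_mul, FreeMonoid.length_of] at this
        omega
  · simp only [AD.toL_sum, LinearMap.sum_apply, formOf_wd, st1c_tl_mul]
    have e : ∀ a : Fin 3, ¬(q = FreeMonoid.of (st1c_hd (FreeMonoid.of a)) ∧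
        FreeMonoid.of a * FreeMonoid.of a = q * FreeMonoid.of a) := by
      rintro a ⟨rfl, h⟩
      exact st1c_hd_ne _ (st1c_of_mul h)
    rw [Finset.sum_eq_single (st1c_hd q) _ (fun h => (h (Finset.mem_univ _)).elim)]
    · rw [if_neg (e _), if_pos rfl, zero_add]
    · intro b _ hb
      rw [if_neg (e _), if_neg fun h => hb (st1c_of_mul h), add_zero]

open Classical in
/-- extension by zero of a column -/
noncomputable def st1c_ext {s : Bool × Lb} (v : TGs s → RR k) (g : TG) : RR k :=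
  if h : g.ok s then v ⟨g, h⟩ else 0

theorem st1c_ext_val {s : Bool × Lb} (v : TGs s → RR k) (x : TGs s) : st1c_ext v x.1 = v x :=
  dif_pos x.2

theorem st1c_l (s : Lb) (F : TG → RR k) (hF : ∀ u, F (.p0 u) = 0) (hF' : F .st = 0) :
    ∑ z : TGs (false, s), dent k .l z.1 * F z.1 = 0 := by
  rw [sum_TGs_top s fun z => dent k .l z * F z]
  simp [dent, hF, hF']

theorem st1c_p0 (s : Lb) (F : TG → RR k) {u : Wd} (hu : u.length = s.1) :
    ∑ z : TGs (false, s), dent k (.p0 u) z.1 * F z.1 =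
      ∑ b, inl (lt k b) * F (.p1 (FreeMonoid.of b * u)) := by
  classical
  rw [sum_TGs_top s fun z => dent k (.p0 u) z * F z]
  simp only [dent, zero_mul, Finset.sum_const_zero, ite_self, zero_add, Finset.sum_mul, ite_mul]
  rw [Finset.sum_comm]
  refine Finset.sum_congr rfl fun b _ => ?_
  rw [Finset.sum_eq_single (FreeMonoid.of b * u) (fun v _ hv => if_neg hv), if_pos rfl]
  intro h
  refine (h (mem_words.2 ?_)).elim
  rw [FreeMonoid.length_mul, FreeMonoid.length_of, hu, add_comm]

theorem st1c_st (s : Lb) (F : TG → RR k) (hs : s.1 = 1) :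
    ∑ z : TGs (false, s), dent k .st z.1 * F z.1 =
      ∑ a, F (.p1 (FreeMonoid.of a * FreeMonoid.of a)) := by
  classical
  rw [sum_TGs_top s fun z => dent k .st z * F z]
  simp only [dent, zero_mul, Finset.sum_const_zero, ite_self, zero_add, Finset.sum_mul, ite_mul]
  rw [Finset.sum_comm]
  refine Finset.sum_congr rfl fun b _ => ?_
  rw [Finset.sum_eq_single (FreeMonoid.of b * FreeMonoid.of b) (fun v _ hv => if_neg hv),
    if_pos rfl, one_mul]
  intro h
  refine (h (mem_words.2 ?_)).elim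
  rw [hs]
  rfl

theorem st1c_dent_uu (x : TG) : dent k x .uu = 0 := by cases x <;> rfl

theorem st1c_dent_l (x : TG) : dent k x .l = 0 := by cases x <;> rfl

theorem st1c_uu_dent (x : TG) : dent k .uu x = 0 := by cases x <;> rfl

theorem st1c_p1_dent (v : Wd) (x : TG) : dent k (.p1 v) x = 0 := by cases x <;> rfl

theorem st1c_l_dent (x : TG) : (dent k .l x).fst = 0 := by cases x <;> rfl

theorem st1c_bot {t : Lb} (y : TGs (true, t)) : y = ⟨.uu, rfl⟩ := by
  obtain ⟨_ | _ | _ | _ | _, h⟩ := y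
  · exact absurd h (by simp [TG.ok])
  · exact absurd h.1 (by simp)
  · exact absurd h.1 (by simp)
  · exact absurd h.1 (by simp)
  · rfl

theorem st1c_dP {s t : Bool × Lb} (n : ℤ) (f : Matrix (TGs s) (TGs t) (RR k)) (x : TGs s)
    (y : TGs t) (hy : ∀ z, dent k z y.1 = 0) :
    dP (tOb k s) (tOb k t) n f x y = -(sg n • ∑ z : TGs s, dent k x.1 z.1 * f z y) := by
  change (f * tD k t) x y - sg n • (tD k s * f) x y = _
  rw [Matrix.mul_apply, Finset.sum_eq_zero fun z _ => by rw [tD, hy, mul_zero], zero_sub]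
  rfl

theorem st1c_mem_l {s t : Lb} {n : ℤ} {r : RR k} (h : r ∈ (catL k).sub (0, s) (2, t) n) :
    r.fst ∈ AS k s t ∧ (n ≠ 0 → r.fst = 0) ∧ r.snd = 0 := by
  obtain ⟨h1, h2⟩ := mem_catL.1 h
  rw [mem_lFst] at h1
  rw [mem_lSnd] at h2
  exact ⟨h1.1, fun hn => by_contra fun h0 => hn (h1.2 h0).1,
    by_contra fun h0 => by simpa using (h2.2 h0).2⟩

theorem st1c_mem_p {s t : Lb} {n : ℤ} {r : RR k} (h : r ∈ (catL k).sub (1, s) (2, t) n) :
    r.fst = 0 ∧ r.snd ∈ DA k s t ∧ (n ≠ 0 → r = 0) := by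
  obtain ⟨h1, h2⟩ := mem_catL.1 h
  rw [mem_lFst] at h1
  rw [mem_lSnd] at h2
  have h3 : r.fst = 0 := by_contra fun h0 => by simpa using (h1.2 h0).2
  exact ⟨h3, h2.1, fun hn => TrivSqZeroExt.ext h3 (by_contra fun h0 => hn (h2.2 h0).1)⟩

theorem st1c_li (s : Lb) : 0 ≤ li s ∧ li s ≤ 1 := by
  have := s.1.2
  unfold li
  omega

theorem tSurj_top_bot (s t : Lb) (n : ℤ) (f : Matrix (TGs (false, s)) (TGs (true, t)) (RR k))
    (hf : SP (catL k) (tGn (false, s)) (tGn (true, t)) n f)
    (hd : dP (tOb k (false, s)) (tOb k (true, t)) n f = 0) :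
    ∃ a ∈ (catA k).sub (false, s) (true, t) n, ∃ h,
      SP (catL k) (tGn (false, s)) (tGn (true, t)) (n - 1) h ∧
        f = tAct k _ _ a + dP (tOb k (false, s)) (tOb k (true, t)) (n - 1) h := by
  obtain ⟨F, hF, hF0⟩ : ∃ F : TG → RR k, (∀ x, f x ⟨.uu, rfl⟩ = F x.1) ∧
      ∀ g, ¬g.ok (false, s) → F g = 0 :=
    ⟨st1c_ext fun x => f x ⟨.uu, rfl⟩, fun x => (st1c_ext_val (fun x => f x ⟨.uu, rfl⟩) x).symm,
      fun g hg => by rw [st1c_ext, dif_neg hg]⟩
  have hm : ∀ g : TG, F g ∈ (catL k).sub (g.lab s) (2, t) (n + g.deg - 0) := fun g => by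
    by_cases hg : g.ok (false, s)
    · exact hF ⟨g, hg⟩ ▸ hf ⟨g, hg⟩ ⟨.uu, rfl⟩
    · rw [hF0 g hg]
      exact zero_mem _
  have ml := st1c_mem_l (hm .l)
  have m0 := fun u => st1c_mem_p (hm (.p0 u))
  have ms := st1c_mem_p (hm .st)
  have m1 := fun v => st1c_mem_p (hm (.p1 v))
  simp only [TG.deg] at ml m0 ms m1
  have hs := st1c_li s
  have ht := st1c_li t
  have d0 : DA k (0, s.2) t = Dsub k (-li t) (lk t - lk s) := by
    rw [DA, show li (0, s.2) = 0 from rfl, zero_sub]
    rfl
  have d1 : DA k (1, s.2) t = Dsub k (1 + -li t) (lk t - lk s) := rfl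
  by_cases hn : n = -1
  · subst hn
    obtain ⟨g, hg, g0, g1⟩ := st1c_lift (l := -li t) (m := lk t - lk s) (by omega)
      (fun u => -(F (.p0 u)).snd) (-(F .st).snd) (fun u => neg_mem (d0 ▸ (m0 u).2.1))
      (neg_mem (d1 ▸ ms.2.1))
    let H : TG → RR k := fun x => match x with
      | .p1 v => inr (g v)
      | _ => 0
    refine ⟨0, zero_mem _, fun x _ => H x.1, fun x y => ?_, ?_⟩
    · obtain rfl := st1c_bot y
      obtain ⟨_ | _ | _ | v | _, h⟩ := x
      · exact zero_mem _
      · exact zero_mem _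
      · exact zero_mem _
      · exact mem_catL.2 ⟨zero_mem _, mem_lSnd.2 ⟨d1 ▸ hg v, fun _ => ⟨rfl, Or.inr ⟨rfl, rfl⟩⟩⟩⟩
      · exact zero_mem _
    · ext1 x y
      obtain rfl := st1c_bot y
      rw [map_zero, zero_add, st1c_dP _ _ _ _ st1c_dent_uu, hF,
        show sg (-1 - 1) = 1 from sg_neg_two, one_smul]
      obtain ⟨_ | u | _ | v | _, h⟩ := x
      · rw [st1c_l s H (fun _ => rfl) rfl, neg_zero]
        exact TrivSqZeroExt.ext (ml.2.1 (by omega)) ml.2.2
      · rw [st1c_p0 s H h.2]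
        refine TrivSqZeroExt.ext ?_ ?_
        · simp [H, (m0 u).1, fst_sum]
        · simp only [H, snd_neg, snd_sum, inl_mul_inr, snd_inr, g0, neg_neg]
      · rw [st1c_st s H h.2]
        refine TrivSqZeroExt.ext ?_ ?_
        · simp [H, ms.1, fst_sum]
        · simp only [H, snd_neg, snd_sum, snd_inr, g1, neg_neg]
      · rw [(m1 v).2.2 (by omega)]
        simp [st1c_p1_dent]
      · exact absurd h (by simp [TG.ok])
  · have hc : ∀ x : TGs (false, s), ∑ z : TGs (false, s), dent k x.1 z.1 * F z.1 = 0 := fun x => by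
      have h1 : _ = (0 : RR k) := congrFun (congrFun hd x) ⟨.uu, rfl⟩
      rw [st1c_dP _ _ _ _ st1c_dent_uu, neg_eq_zero] at h1
      have h2 := congrArg (sg n • ·) h1
      simpa only [sg_smul_sg_smul, smul_zero, hF] using h2
    obtain ⟨ψ, hψ, hR, e⟩ := st1c_psi (i := s.1) (by have := s.1.2; omega) (l := 1 + -li t)
      (m := lk t - lk s) (by omega) (fun v => (F (.p1 v)).snd) (fun v _ => d1 ▸ (m1 v).2.1)
      (fun u hu => by
        have := congrArg TrivSqZeroExt.snd ((st1c_p0 s F hu).symm.trans (hc ⟨.p0 u, rfl, hu⟩))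
        simpa [snd_sum] using this)
      (fun hu => by
        have hu' : s.1 = 1 := Fin.ext hu
        have := congrArg TrivSqZeroExt.snd ((st1c_st s F hu').symm.trans (hc ⟨.st, rfl, hu'⟩))
        simpa [snd_sum] using this)
    refine ⟨inl (F .l).fst + inr (if n = -2 then ψ else 0), mem_catA.2 ⟨?_, ?_⟩, 0, SP.zero, ?_⟩
    · rw [fst_add, fst_inl, fst_inr, add_zero]
      exact mem_aFst.2 ⟨ml.1, fun h0 => ⟨by_contra fun h => h0 (ml.2.1 (by omega)), by simp⟩⟩
    · rw [snd_add, snd_inl, snd_inr, zero_add]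
      split_ifs with h2
      · refine mem_aSnd.2 ⟨⟨?_, hR⟩, fun _ => ⟨h2, rfl, rfl⟩⟩
        change ψ ∈ Dsub k _ _
        convert hψ using 2
        unfold li
        ring
      · exact zero_mem _
    · ext1 x y
      obtain rfl := st1c_bot y
      rw [dP_zero, add_zero, tAct_apply, hF]
      obtain ⟨_ | u | _ | v | _, h⟩ := x
      · exact TrivSqZeroExt.ext (by simp [ent]) (by simp [ent, ml.2.2])
      · exact (m0 u).2.2 (by omega)
      · exact ms.2.2 (by omega)
      · by_cases h2 : n = -2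
        · exact TrivSqZeroExt.ext (by simp [ent, (m1 v).1]) (by simp [ent, h2, e v h.2])
        · rw [(m1 v).2.2 (by omega)]
          simp [ent, h2]
      · exact absurd h (by simp [TG.ok])

theorem st1c_fst {s t : Bool × Lb} {n : ℤ} {a : RR k} {h : Matrix (TGs s) (TGs t) (RR k)}
    (e : tAct k s t a = dP (tOb k s) (tOb k t) n h) (x : TGs s) (y : TGs t)
    (hx : ∀ z, (dent k x.1 z).fst = 0) (hy : ∀ z, dent k z y.1 = 0)
    (ha : ent a x.1 y.1 = inl a.fst) : a.fst = 0 := by
  have h1 := congrArg TrivSqZeroExt.fst (congrFun (congrFun e x) y)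
  rw [st1c_dP _ _ _ _ hy, tAct_apply, ha] at h1
  simpa [fst_sum, hx] using h1

theorem tSubst_qff : (tSubst k).QFF := by
  refine ⟨?_, ?_⟩
  · rintro ⟨_ | _, s⟩ ⟨_ | _, t⟩ n f hf hd
    · exact tSurj_top_top s t n f hf hd
    · exact tSurj_top_bot s t n f hf hd
    · refine ⟨0, zero_mem _, 0, SP.zero, ?_⟩
      rw [map_zero, dP_zero, add_zero]
      ext1 x y
      obtain rfl := st1c_bot x
      obtain ⟨h1, h2⟩ := mem_catL.1 (hf ⟨.uu, rfl⟩ y)
      rw [mem_lFst] at h1
      rw [mem_lSnd] at h2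
      refine TrivSqZeroExt.ext (by_contra fun h0 => ?_) (by_contra fun h0 => ?_)
      · have h3 := (h1.2 h0).2
        obtain ⟨_ | _ | _ | _ | _, hy⟩ := y
        · exact absurd (show (2 : Fin 3) = 0 ∨ (2 : Fin 3) = 0 ∧ (0 : Fin 3) = 2 from h3) (by decide)
        · exact absurd (show (2 : Fin 3) = 1 ∨ (2 : Fin 3) = 0 ∧ (1 : Fin 3) = 2 from h3) (by decide)
        · exact absurd (show (2 : Fin 3) = 1 ∨ (2 : Fin 3) = 0 ∧ (1 : Fin 3) = 2 from h3) (by decide)
        · exact absurd (show (2 : Fin 3) = 1 ∨ (2 : Fin 3) = 0 ∧ (1 : Fin 3) = 2 from h3) (by decide)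
        · exact absurd hy (by simp [TG.ok])
      · rcases (h2.2 h0).2 with h3 | h3
        · exact absurd (show (2 : Fin 3) = 0 from h3.1) (by decide)
        · exact absurd (show (2 : Fin 3) = 1 from h3.1) (by decide)
    · obtain ⟨h1, h2⟩ := mem_catL.1 (hf ⟨.uu, rfl⟩ ⟨.uu, rfl⟩)
      rw [mem_lFst] at h1
      rw [mem_lSnd] at h2
      have h3 : (f ⟨.uu, rfl⟩ ⟨.uu, rfl⟩).snd = 0 := by_contra fun h0 => by
        rcases (h2.2 h0).2 with h3 | h3
        · exact absurd (show (2 : Fin 3) = 0 from h3.1) (by decide)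
        · exact absurd (show (2 : Fin 3) = 1 from h3.1) (by decide)
      refine ⟨f ⟨.uu, rfl⟩ ⟨.uu, rfl⟩, mem_catA.2 ⟨mem_aFst.2 ⟨h1.1, fun h0 => ⟨?_, le_rfl⟩⟩,
        h3 ▸ zero_mem _⟩, 0, SP.zero, ?_⟩
      · have h4 : n + 0 - 0 = 0 := (h1.2 h0).1
        omega
      · rw [dP_zero, add_zero]
        ext1 x y
        obtain rfl := st1c_bot x
        obtain rfl := st1c_bot y
        exact TrivSqZeroExt.ext rfl h3
  · intro s t n a ha h _ e
    obtain ⟨h1, h2⟩ := mem_catA.1 ha
    rw [mem_aFst] at h1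
    rw [mem_aSnd] at h2
    refine TrivSqZeroExt.ext (by_contra fun h0 => h0 ?_) (by_contra fun h0 => h0 ?_)
    · have h3 := (h1.2 h0).2
      obtain ⟨_ | _, s⟩ := s <;> obtain ⟨_ | _, t⟩ := t
      · exact st1c_fst e ⟨.l, rfl⟩ ⟨.l, rfl⟩ st1c_l_dent st1c_dent_l rfl
      · exact st1c_fst e ⟨.l, rfl⟩ ⟨.uu, rfl⟩ st1c_l_dent st1c_dent_uu rfl
      · exact absurd h3 (by simp)
      · exact st1c_fst e ⟨.uu, rfl⟩ ⟨.uu, rfl⟩ (fun z => by rw [st1c_uu_dent, fst_zero])
          st1c_dent_uu rfl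
    · obtain ⟨s₁, s⟩ := s
      obtain ⟨t₁, t⟩ := t
      obtain ⟨-, rfl, rfl⟩ := h2.2 h0
      refine AD.ext_wd fun w => ?_
      by_cases hw : (w.length : ℤ) = li s + 2 - li t
      · have ht := st1c_li t
        obtain ⟨p, v, hv, rfl⟩ := st1c_split w (n := s.1 + 1) (by unfold li at hw ht; omega)
        have h4 := congrArg TrivSqZeroExt.snd
          (congrFun (congrFun e ⟨.p1 v, rfl, hv⟩) ⟨.uu, rfl⟩)
        have h5 := st1c_dP (n - 1) h (⟨.p1 v, rfl, hv⟩ : TGs (false, s))
          (⟨.uu, rfl⟩ : TGs (true, t)) st1c_dent_uu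
        simp only [st1c_p1_dent, zero_mul, Finset.sum_const_zero, smul_zero, neg_zero] at h5
        have h6 : wd k v • a.snd = 0 := h4.trans (congrArg TrivSqZeroExt.snd h5)
        rw [wd_mul, ← AD.smul_apply, h6]
        rfl
      · exact (h2.1.1 w).2 hw

end Pool.Agent.Work.MP_910138_ag.C0
end
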