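import Pool.Agent.Work.MP_910138_ag.GBase
import Pool.Agent.Work.MP_910138_ag.C0.Der2
import Pool.Agent.Work.MP_910138_ag.C0.LinBridge
import Pool.Agent.Work.MP_910138_ag.C0.St1C
import Pool.Agent.Work.MP_910138_ag.Main

-- merged part: Pool.Agent.Work.MP_910138_ag.C0.Lin
section
/-! Pullback, pushforward and tensor product are linear. -/

open CategoryTheory Limits AlgebraicGeometry

namespace Pool.Agent.Work.MP_910138_ag.C0

variable {k : Type} [Field k] {X Y : Scheme.{0}} [Algebra k Γ(X, ⊤)] [Algebra k Γ(Y, ⊤)]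

theorem lin0_resO (f : Y ⟶ X) (U : X.Opens) (r : Γ(X, ⊤)) :
    f.app U (resO X (le_top : U ≤ ⊤) r) = resO Y (le_top : f ⁻¹ᵁ U ≤ ⊤) (f.appTop r) :=
  ConcreteCategory.congr_hom (f.naturality (homOfLE (le_top : U ≤ ⊤)).op) r

theorem pushforward_linear (f : Y ⟶ X)
    (hf : ∀ c : k, f.appTop (algebraMap k Γ(X, ⊤) c) = algebraMap k Γ(Y, ⊤) c) :
    (Scheme.Modules.pushforward f).Linear k := by
  refine ⟨fun {M N} φ c => hom_ext' fun U s => ?_⟩
  change resO Y (le_top : f ⁻¹ᵁ U ≤ ⊤) (algebraMap k Γ(Y, ⊤) c) • φ.app (f ⁻¹ᵁ U) s =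
    f.app U (resO X (le_top : U ≤ ⊤) (algebraMap k Γ(X, ⊤) c)) • φ.app (f ⁻¹ᵁ U) s
  rw [lin0_resO, hf]

theorem lin0_left {C D : Type*} [Category C] [Category D] [Preadditive C] [Preadditive D]
    [Linear k C] [Linear k D] {F : C ⥤ D} {G : D ⥤ C} (adj : F ⊣ G) [G.Linear k] :
    F.Linear k := by
  refine ⟨fun {A B} φ c => (adj.homEquiv _ _).injective ?_⟩
  rw [Adjunction.homEquiv_unit, Adjunction.homEquiv_unit, G.map_smul, Linear.comp_smul,
    adj.unit_naturality, adj.unit_naturality, Linear.smul_comp]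

theorem pullback_linear (f : Y ⟶ X)
    (hf : ∀ c : k, f.appTop (algebraMap k Γ(X, ⊤) c) = algebraMap k Γ(Y, ⊤) c) :
    (Scheme.Modules.pullback f).Linear k := by
  have := pushforward_linear f hf
  exact lin0_left (Scheme.Modules.pullbackPushforwardAdjunction f)

theorem lin0_sheaf {P : PresheafOfModules.{0} Y.ringCatSheaf.obj} (φ : P ⟶ P) (r : Γ(Y, ⊤))
    (h : ∀ (U : Y.Opens) (s : P.obj (.op U)),
      φ.app (.op U) s = (resO Y (le_top : U ≤ ⊤) r : Y.ringCatSheaf.obj.obj (.op U)) • s) :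
    (PresheafOfModules.sheafification.{0} (𝟙 Y.ringCatSheaf.obj)).map φ =
      mulHom (X := Y) ((PresheafOfModules.sheafification.{0} (𝟙 Y.ringCatSheaf.obj)).obj P) r := by
  have adj := PresheafOfModules.sheafificationAdjunction.{0} (𝟙 Y.ringCatSheaf.obj)
  refine (adj.homEquiv _ _).injective ?_
  rw [Adjunction.homEquiv_unit, Adjunction.homEquiv_unit, adj.unit_naturality]
  ext U s
  change (adj.unit.app P).app U (φ.app U s) = _
  rw [h U.unop s]
  exact ((adj.unit.app P).app U).hom.map_smul _ s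

theorem lin0_tens {R A B : Type*} [CommRing R] [AddCommGroup A] [AddCommGroup B] [Module R A]
    [Module R B] (g : B →ₗ[R] B) (r : R) (h : ∀ b, g b = r • b) (s : TensorProduct R A B) :
    TensorProduct.map LinearMap.id g s = r • s := by
  induction s using TensorProduct.induction_on with
  | zero => rw [map_zero, smul_zero]
  | add a b ha hb => rw [map_add, smul_add, ha, hb]
  | tmul a b => rw [TensorProduct.map_tmul, h, LinearMap.id_apply, TensorProduct.tmul_smul]

theorem tensor_linear (M : Y.Modules) : ((tensor Y).obj M).Linear k := by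
  rw [Functor.linear_iff]
  intro N c
  refine (lin0_sheaf _ (algebraMap k Γ(Y, ⊤) c) fun U s => ?_).trans (Category.id_comp _).symm
  exact lin0_tens (R := Γ(Y, U)) (A := Γ(M, U)) (B := Γ(N, U)) (appL (c • 𝟙 N) U)
    (resO Y (le_top : U ≤ ⊤) (algebraMap k Γ(Y, ⊤) c)) (fun _ => rfl) s

end Pool.Agent.Work.MP_910138_ag.C0
end

-- merged part: Pool.Agent.Work.MP_910138_ag.C0.Main
section
/-! The main theorem. -/

open CategoryTheory Limits AlgebraicGeometry

namespace Pool.Agent.Work.MP_910138_ag.C0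

open DerivedCategory

theorem exists_realisation (K : Type) [Field K] :
    ∃ (X : SmProj K) (Γ : Rep (catA K) X.X.Modules), Γ.QFF ∧
      (∀ s, Nice LFin (Db X.X) (Γ.W s)) ∧ (∀ Z, Nice LFin (Db X.X) (Γ.totObj Z)) ∧
        ∀ C C', Db X.X C → Db X.X C' → TotFin K C C' := by
  obtain ⟨β⟩ := nonempty_basis_catL K
  obtain ⟨S', _, _, C, σ, hσ⟩ := β.exists_subst
  obtain ⟨X, hN, pd, hl, hfin⟩ := geom_main K (Chn C)
  obtain ⟨Γ₀, h₀, hn⟩ := pd.exists_rep
  have hS : SumClosed (LFin (X := X.X)) := fun G _ M N h e => lFin_of_biproduct G M N h e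
  have n₀ := hn LFin (Db X.X) hS hl fun q => Db_single (hl q).isCoh
  have n₁ : ∀ s, Nice LFin (Db X.X) ((Γ₀.subst (chSubst C K)).W s) := fun s =>
    Γ₀.nice_tot hS n₀ _
  have n₂ : ∀ s, Nice LFin (Db X.X) (((Γ₀.subst (chSubst C K)).subst σ).W s) := fun s =>
    Rep.nice_tot _ hS n₁ _
  have n₃ : ∀ s, Nice LFin (Db X.X)
      ((((Γ₀.subst (chSubst C K)).subst σ).subst (tSubst K)).W s) := fun s =>
    Rep.nice_tot _ hS n₂ _
  exact ⟨X, _, ((h₀.subst chSubst_qff).subst hσ).subst tSubst_qff, n₃,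
    Rep.nice_tot _ hS n₃, hfin⟩

private theorem h14_dg {K : Type} [Field K] {X Y : Scheme.{0}} (p : Y ⟶ X)
    (E : CochainComplex Y.Modules ℤ) [Linear K X.Modules] [Linear K Y.Modules]
    [(Scheme.Modules.pullback p).Linear K] [∀ M, ((tensor Y).obj M).Linear K] :
    Nonempty (DGAct K (kernelTensor p E)) := by
  obtain ⟨a₁⟩ := dgAct_mapHomologicalComplex K (Scheme.Modules.pullback p)
  delta kernelTensor
  refine dgAct_comp K a₁ (Classical.choice ?_)
  exact @dgAct_map₂ K _ _ _ _ _ _ _ _ _ _ _ _ _ _ (tensor Y) _ _ _ (_) E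

theorem target {K : Type} [Field K] (ξ : Derivation ℤ K K) (hξ : ξ ≠ 0) :
    ∃ (X : SmProj K) (A : Admissible X.X) (F : A.Cat ⥤ A.Cat),
      IsExact A A F ∧ IsLin X X A A F ∧ F.IsEquivalence ∧ ¬ IsFM X X A A F := by
  obtain ⟨X, Γ, hΓ, hW, hZ, hfin⟩ := exists_realisation K
  have ht := hΓ.essImage_triang
  have hE := hΓ.excColl rkA (catA_self0 K) (catA_selfn K) (catA_orth K)
  have hle : Γ.L.essImage ≤ Db X.X := by
    rintro _ ⟨Z, ⟨e⟩⟩
    exact (Db X.X).prop_of_iso e (hZ Z).mem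
  let A : Admissible X.X :=
    { D := Γ.L.essImage
      triang := ht
      closed := inferInstance
      le := hle
      hasRight := hE.isLeftAdjoint hle fun i C hC => hfin _ _ (hW i).mem hC
      hasLeft := hE.isRightAdjoint hle fun i C hC => hfin _ _ hC (hW i).mem }
  obtain ⟨F, cs, h1, h2, h3, ⟨η⟩⟩ := (sFun ξ).exists_exotic hΓ
  refine ⟨X, A, F, ⟨cs, h1⟩, h3, h2, ?_⟩
  rintro ⟨E, ⟨θ⟩⟩
  let alg : Algebra K Γ(pullback X.str X.str, ⊤) := ((Scheme.ΓSpecIso (CommRingCat.of K)).inv ≫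
    (pullback.fst X.str X.str ≫ X.str).appTop).hom.toAlgebra
  have c₁ : ∀ c : K, (pullback.fst X.str X.str).appTop (algebraMap K Γ(X.X, ⊤) c) =
      algebraMap K Γ(pullback X.str X.str, ⊤) c := fun c => rfl
  have c₂ : ∀ c : K, (pullback.snd X.str X.str).appTop (algebraMap K Γ(X.X, ⊤) c) =
      algebraMap K Γ(pullback X.str X.str, ⊤) c := fun c => by
    change (pullback.snd X.str X.str ≫ X.str).appTop
      ((Scheme.ΓSpecIso (CommRingCat.of K)).inv c) = (pullback.fst X.str X.str ≫ X.str).appTop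
        ((Scheme.ΓSpecIso (CommRingCat.of K)).inv c)
    rw [pullback.condition]
  have hperf : ∀ Z, perf A (Γ.Tot.obj Z) := fun Z => by
    obtain ⟨a, ha⟩ := (hZ Z).ge
    obtain ⟨b, hb⟩ := (hZ Z).le
    exact ⟨⟨a, b, ha, hb⟩, fun n => ((hZ Z).terms n).isLocallyFree, ⟨Z, ⟨Iso.refl _⟩⟩⟩
  have := pullback_linear _ c₁
  have := pushforward_linear _ c₂
  have := fun M => tensor_linear (k := K) (Y := pullback X.str X.str) M
  obtain ⟨a⟩ := h14_dg (K := K) (pullback.fst X.str X.str) E.obj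
  exact hξ (not_derived' ξ hΓ (perf A) hperf _ (kernelTensor (pullback.fst X.str X.str) E.obj) a _
    (Scheme.Modules.pushforward (pullback.snd X.str X.str)) F η θ)

end Pool.Agent.Work.MP_910138_ag.C0
end
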