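import Mathlib
import Pool.Agent.Work.MP_910138_ag.U

-- merged part: Pool.Agent.Work.MP_910138_ag.C0.AA
section
/-! The free algebra on three letters over `k[w]`, its dual bimodule and the square zero
extension. -/

open Polynomial

namespace Pool.Agent.Work.MP_910138_ag.C0

/-- words in three letters -/
abbrev Wd : Type := FreeMonoid (Fin 3)

variable (k : Type) [Field k]

/-- the free algebra over `k[w]` -/
abbrev AF : Type := MonoidAlgebra k[X] Wd

/-- the dual bimodule -/
def AD : Type := AF k →ₗ[k[X]] k[X]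

noncomputable instance : AddCommGroup (AD k) := inferInstanceAs (AddCommGroup (AF k →ₗ[k[X]] k[X]))
noncomputable instance : Module k (AD k) := inferInstanceAs (Module k (AF k →ₗ[k[X]] k[X]))

variable {k}

/-- the underlying linear form -/
def AD.toL (ψ : AD k) : AF k →ₗ[k[X]] k[X] := ψ

/-- an element given by a linear form -/
def AD.ofL (ψ : AF k →ₗ[k[X]] k[X]) : AD k := ψ

@[simp] theorem AD.toL_ofL (ψ : AF k →ₗ[k[X]] k[X]) : (AD.ofL ψ).toL = ψ := rfl
@[simp] theorem AD.toL_add (ψ φ : AD k) : (ψ + φ).toL = ψ.toL + φ.toL := rfl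
@[simp] theorem AD.toL_sub (ψ φ : AD k) : (ψ - φ).toL = ψ.toL - φ.toL := rfl
@[simp] theorem AD.toL_neg (ψ : AD k) : (-ψ).toL = -ψ.toL := rfl
@[simp] theorem AD.toL_zero : (0 : AD k).toL = 0 := rfl
@[simp] theorem AD.toL_smul (c : k) (ψ : AD k) : (c • ψ).toL = c • ψ.toL := rfl

@[simp] theorem AD.toL_sum {ι : Type*} (s : Finset ι) (f : ι → AD k) :
    (∑ i ∈ s, f i).toL = ∑ i ∈ s, (f i).toL := rfl

theorem AD.ext' {ψ φ : AD k} (h : ∀ p, ψ.toL p = φ.toL p) : ψ = φ := LinearMap.ext h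

noncomputable instance : SMul (AF k) (AD k) :=
  ⟨fun a ψ => AD.ofL (ψ.toL ∘ₗ LinearMap.mulRight k[X] a)⟩

noncomputable instance : SMul (AF k)ᵐᵒᵖ (AD k) :=
  ⟨fun a ψ => AD.ofL (ψ.toL ∘ₗ LinearMap.mulLeft k[X] a.unop)⟩

@[simp] theorem AD.smul_apply (a : AF k) (ψ : AD k) (p : AF k) :
    (a • ψ).toL p = ψ.toL (p * a) := rfl

@[simp] theorem AD.op_smul_apply (a : (AF k)ᵐᵒᵖ) (ψ : AD k) (p : AF k) :
    (a • ψ).toL p = ψ.toL (a.unop * p) := rfl

noncomputable instance : Module (AF k) (AD k) where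
  one_smul ψ := AD.ext' fun p => by simp
  mul_smul a b ψ := AD.ext' fun p => by simp [mul_assoc]
  smul_zero a := AD.ext' fun p => by simp
  smul_add a ψ φ := AD.ext' fun p => by simp
  add_smul a b ψ := AD.ext' fun p => by simp [mul_add]
  zero_smul ψ := AD.ext' fun p => by simp

noncomputable instance : Module (AF k)ᵐᵒᵖ (AD k) where
  one_smul ψ := AD.ext' fun p => by simp
  mul_smul a b ψ := AD.ext' fun p => by simp [mul_assoc]
  smul_zero a := AD.ext' fun p => by simp
  smul_add a ψ φ := AD.ext' fun p => by simp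
  add_smul a b ψ := AD.ext' fun p => by simp [add_mul]
  zero_smul ψ := AD.ext' fun p => by simp

instance : SMulCommClass (AF k) (AF k)ᵐᵒᵖ (AD k) :=
  ⟨fun a b ψ => AD.ext' fun p => by simp [mul_assoc]⟩

theorem AD.toL_ksmul (ψ : AD k) (c : k) (p : AF k) : ψ.toL (c • p) = c • ψ.toL p :=
  ψ.toL.map_smul_of_tower c p

instance : IsScalarTower k (AF k) (AD k) :=
  ⟨fun c a ψ => AD.ext' fun p => by simp⟩

instance : IsScalarTower k (AF k)ᵐᵒᵖ (AD k) :=
  ⟨fun c a ψ => AD.ext' fun p => by simp⟩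

variable (k)

/-- the square zero extension -/
abbrev RR : Type := TrivSqZeroExt (AF k) (AD k)

/-- a word as an element of the free algebra -/
noncomputable def wd (u : Wd) : AF k := MonoidAlgebra.single u 1

/-- a letter -/
noncomputable def lt (c : Fin 3) : AF k := wd k (FreeMonoid.of c)

/-- polynomials of degree at most `m` (zero if `m < 0`) -/
def degLE (m : ℤ) : Submodule k k[X] where
  carrier := {p | ∀ j : ℕ, m < j → p.coeff j = 0}
  zero_mem' _ _ := rfl
  add_mem' {p q} hp hq j hj := by rw [coeff_add, hp j hj, hq j hj, add_zero]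
  smul_mem' c p hp j hj := by rw [coeff_smul, hp j hj, smul_zero]

/-- combinations of words of length `n` with coefficients of degree at most `m` -/
def Asub (n m : ℤ) : Submodule k (AF k) where
  carrier := {a | ∀ u : Wd, a.coeff u ∈ degLE k m ∧ ((u.length : ℤ) ≠ n → a.coeff u = 0)}
  zero_mem' _ := ⟨zero_mem _, fun _ => rfl⟩
  add_mem' {a b} ha hb u := ⟨add_mem (ha u).1 (hb u).1, fun h => by
    rw [MonoidAlgebra.coeff_add, Finsupp.add_apply, (ha u).2 h, (hb u).2 h, add_zero]⟩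
  smul_mem' c a ha u := ⟨Submodule.smul_mem _ c (ha u).1, fun h => by
    rw [MonoidAlgebra.coeff_smul_apply, (ha u).2 h, smul_zero]⟩

/-- functions on the words of length `n` with values of degree at most `m` -/
def Dsub (n m : ℤ) : Submodule k (AD k) where
  carrier := {ψ | ∀ u : Wd, ψ.toL (wd k u) ∈ degLE k m ∧
    ((u.length : ℤ) ≠ n → ψ.toL (wd k u) = 0)}
  zero_mem' _ := ⟨zero_mem _, fun _ => rfl⟩
  add_mem' {a b} ha hb u := ⟨add_mem (ha u).1 (hb u).1, fun h => by
    rw [AD.toL_add, LinearMap.add_apply, (ha u).2 h, (hb u).2 h, add_zero]⟩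
  smul_mem' c a ha u := ⟨Submodule.smul_mem _ c (ha u).1, fun h => by
    rw [AD.toL_smul, LinearMap.smul_apply, (ha u).2 h, smul_zero]⟩

/-- the relation of the preprojective algebra -/
noncomputable def om : AF k := ∑ c, lt k c * lt k c

/-- functions that vanish on the ideal of the relation -/
def Rel : Submodule k (AD k) where
  carrier := {ψ | ∀ p q : AF k, ψ.toL (p * om k * q) = 0}
  zero_mem' _ _ := rfl
  add_mem' {a b} ha hb p q := by rw [AD.toL_add, LinearMap.add_apply, ha, hb, add_zero]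
  smul_mem' c a ha p q := by rw [AD.toL_smul, LinearMap.smul_apply, ha, smul_zero]

/-- labels -/
abbrev Lb : Type := Fin 2 × Fin 2

/-- the first coordinate -/
def li (s : Lb) : ℤ := (s.1 : ℕ)

/-- the second coordinate -/
def lk (s : Lb) : ℤ := (s.2 : ℕ)

/-- the product of two Kronecker quivers -/
def AS (s t : Lb) : Submodule k (AF k) := Asub k (li t - li s) (lk t - lk s)

/-- the bimodule `Ψ` -/
noncomputable def Psi (s t : Lb) : Submodule k (AD k) := Dsub k (li s + 2 - li t) (lk t - lk s) ⊓ Rel k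

/-- the dual bimodule in the direction of the first quiver -/
def DA (s t : Lb) : Submodule k (AD k) := Dsub k (li s - li t) (lk t - lk s)

/-- the linear form with given values on words -/
noncomputable def formOf (f : Wd → k[X]) : AD k :=
  AD.ofL (Finsupp.linearCombination k[X] f ∘ₗ (MonoidAlgebra.coeffLinearEquiv k[X]).toLinearMap)

theorem formOf_wd (f : Wd → k[X]) (u : Wd) : (formOf k f).toL (wd k u) = f u := by
  simp [formOf, wd]

/-- the central element `τ` -/
noncomputable def tau : AD k := formOf k fun u =>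
  if u.toList = [0, 0] then 1 else if u.toList = [1, 1] then -1 else 0

/-- the derivation counting the letter `0` -/
noncomputable def eul : AF k →ₗ[k[X]] AF k :=
  Finsupp.linearCombination k[X] (fun u : Wd => (u.toList.count 0) • wd k u) ∘ₗ
    (MonoidAlgebra.coeffLinearEquiv k[X]).toLinearMap

theorem eul_wd (u : Wd) : eul k (wd k u) = (u.toList.count 0) • wd k u := by
  simp [eul, wd]

variable {k}

/-- a derivation of the field acting on the coefficients of polynomials -/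
noncomputable def xiP (ξ : Derivation ℤ k k) : k[X] →+ k[X] where
  toFun p := p.sum fun n a => monomial n (ξ a)
  map_zero' := sum_zero_index _
  map_add' p q := sum_add_index p q _ (fun _ => by simp) fun _ _ _ => by simp

/-- a derivation of the field acting on the coefficients of the free algebra -/
noncomputable def xiA (ξ : Derivation ℤ k k) : AF k →+ AF k :=
  (MonoidAlgebra.coeffAddEquiv.symm.toAddMonoidHom.comp
    (Finsupp.mapRange.addMonoidHom (xiP ξ))).comp MonoidAlgebra.coeffAddEquiv.toAddMonoidHom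

theorem coeff_xiA (ξ : Derivation ℤ k k) (a : AF k) (u : Wd) :
    (xiA ξ a).coeff u = xiP ξ (a.coeff u) := rfl

end Pool.Agent.Work.MP_910138_ag.C0
end

-- merged part: Pool.Agent.Work.MP_910138_ag.C0.AAL
section
/-! Basic properties of the algebra, the bimodule and the derivations. -/

open Polynomial MulOpposite

namespace Pool.Agent.Work.MP_910138_ag.C0

variable {k : Type} [Field k]

theorem wd_mul (u v : Wd) : wd k (u * v) = wd k u * wd k v := by
  simp only [wd, MonoidAlgebra.single_mul_single, mul_one]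

theorem wd_one : wd k 1 = 1 := rfl

theorem aal_single (u : Wd) (p : k[X]) : (MonoidAlgebra.single u p : AF k) = p • wd k u := by
  simp only [wd, MonoidAlgebra.smul_single, smul_eq_mul, mul_one]

theorem aal_eq_sum (a : AF k) : a = ∑ u ∈ a.coeff.support, a.coeff u • wd k u := by
  conv_lhs => rw [← MonoidAlgebra.sum_coeff_single a]
  simp only [Finsupp.sum, aal_single]

theorem aal_induction {motive : AF k → Prop} (a : AF k) (h0 : motive 0)
    (hadd : ∀ a b, motive a → motive b → motive (a + b))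
    (hs : ∀ (p : k[X]) (u : Wd), motive (p • wd k u)) : motive a := by
  refine MonoidAlgebra.induction_linear a h0 hadd fun u p => ?_
  rw [aal_single]
  exact hs p u

open Classical in
theorem aal_coeff_smul_wd (p : k[X]) (u v : Wd) :
    (p • wd k u).coeff v = if u = v then p else 0 := by
  rw [← aal_single, MonoidAlgebra.coeff_single, Finsupp.single_apply]

theorem aal_ext {a b : AF k} (h : ∀ u, a.coeff u = b.coeff u) : a = b :=
  MonoidAlgebra.coeff_injective (Finsupp.ext h)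

theorem AD.ext_wd {ψ φ : AD k} (h : ∀ u, ψ.toL (wd k u) = φ.toL (wd k u)) : ψ = φ := by
  refine AD.ext' fun p => ?_
  induction p using aal_induction with
  | h0 => simp
  | hadd a b ha hb => rw [map_add, map_add, ha, hb]
  | hs p u => rw [map_smul, map_smul, h]

theorem toL_eq_sum (ψ : AD k) (a : AF k) :
    ψ.toL a = ∑ u ∈ a.coeff.support, a.coeff u * ψ.toL (wd k u) := by
  conv_lhs => rw [aal_eq_sum a]
  simp only [map_sum, map_smul, smul_eq_mul]

theorem degLE_mul {m m' : ℤ} {p q : k[X]} (hp : p ∈ degLE k m) (hq : q ∈ degLE k m') :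
    p * q ∈ degLE k (m + m') := by
  intro j hj
  rw [coeff_mul]
  refine Finset.sum_eq_zero fun x hx => ?_
  have h : x.1 + x.2 = j := Finset.HasAntidiagonal.mem_antidiagonal.1 hx
  by_cases h1 : m < x.1
  · rw [hp _ h1, zero_mul]
  · rw [hq x.2 (by omega), mul_zero]

theorem degLE_neg {m : ℤ} (hm : m < 0) {p : k[X]} (hp : p ∈ degLE k m) : p = 0 := by
  ext j
  exact hp j (by omega)

theorem degLE_mono {m m' : ℤ} (h : m ≤ m') : degLE k m ≤ degLE k m' := by
  intro p hp j hj
  exact hp j (by omega)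

theorem mem_degLE_zero {p : k[X]} : p ∈ degLE k 0 ↔ ∃ c, p = C c := by
  constructor
  · intro h
    refine ⟨p.coeff 0, ?_⟩
    ext j
    rcases j with _ | j
    · simp
    · rw [h (j + 1) (by omega), coeff_C_succ]
  · rintro ⟨c, rfl⟩ j hj
    rw [coeff_C, if_neg (by omega)]

theorem mem_degLE_one {p : k[X]} : p ∈ degLE k 1 ↔ ∃ c c', p = C c + C c' * X := by
  constructor
  · intro h
    refine ⟨p.coeff 0, p.coeff 1, ?_⟩
    ext j
    rcases j with _ | _ | j
    · simp
    · simp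
    · rw [h (j + 1 + 1) (by omega)]
      simp [coeff_C_succ]
  · rintro ⟨c, c', rfl⟩ j hj
    obtain ⟨i, rfl⟩ : ∃ i, j = i + 1 + 1 := ⟨j - 2, by omega⟩
    simp [coeff_C_succ]

theorem aal_smul_wd_mem {m : ℤ} {p : k[X]} (hp : p ∈ degLE k m) (u : Wd) :
    p • wd k u ∈ Asub k u.length m := by
  intro v
  rw [aal_coeff_smul_wd]
  split_ifs with h
  · subst h
    exact ⟨hp, fun h => (h rfl).elim⟩
  · exact ⟨zero_mem _, fun _ => rfl⟩

theorem aal_len {n m : ℤ} {a : AF k} (ha : a ∈ Asub k n m) {u : Wd} (hu : u ∈ a.coeff.support) :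
    (u.length : ℤ) = n := by
  by_contra h
  exact Finsupp.mem_support_iff.1 hu ((ha u).2 h)

theorem one_mem_Asub : (1 : AF k) ∈ Asub k 0 0 := by
  have := aal_smul_wd_mem (k := k) (m := 0) (p := 1) (mem_degLE_zero.2 ⟨1, C_1.symm⟩) 1
  rw [one_smul] at this
  exact this

theorem smul_wd_mem_Asub {m : ℤ} {p : k[X]} (hp : p ∈ degLE k m) (u : Wd) :
    p • wd k u ∈ Asub k u.length m := by
  exact aal_smul_wd_mem hp u

theorem Asub_mul {n n' m m' : ℤ} {a b : AF k} (ha : a ∈ Asub k n m) (hb : b ∈ Asub k n' m') :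
    a * b ∈ Asub k (n + n') (m + m') := by
  rw [aal_eq_sum a, aal_eq_sum b, Finset.sum_mul_sum]
  refine Submodule.sum_mem _ fun u hu => Submodule.sum_mem _ fun v hv => ?_
  rw [smul_mul_smul_comm, ← wd_mul, ← aal_len ha hu, ← aal_len hb hv]
  have := smul_wd_mem_Asub (degLE_mul (ha u).1 (hb v).1) (u * v)
  rw [FreeMonoid.length_mul, Nat.cast_add] at this
  exact this

theorem Asub_neg_left {n m : ℤ} (h : n < 0) {a : AF k} (ha : a ∈ Asub k n m) : a = 0 := by
  exact aal_ext fun u => (ha u).2 (by omega)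

theorem Asub_neg_right {n m : ℤ} (h : m < 0) {a : AF k} (ha : a ∈ Asub k n m) : a = 0 := by
  exact aal_ext fun u => degLE_neg h (ha u).1

theorem Asub_zero {m : ℤ} {a : AF k} (ha : a ∈ Asub k 0 m) : a = a.coeff 1 • (1 : AF k) := by
  refine aal_ext fun u => ?_
  rw [← wd_one, aal_coeff_smul_wd]
  split_ifs with h
  · rw [h]
  · refine (ha u).2 fun h' => h ?_
    exact (FreeMonoid.length_eq_zero.1 (by exact_mod_cast h')).symm

theorem Asub_one {m : ℤ} {a : AF k} (ha : a ∈ Asub k 1 m) :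
    a = ∑ c, a.coeff (FreeMonoid.of c) • lt k c := by
  refine aal_ext fun u => ?_
  rw [MonoidAlgebra.coeff_sum, Finsupp.finsetSum_apply]
  simp only [lt, aal_coeff_smul_wd]
  by_cases h : (u.length : ℤ) = 1
  · obtain ⟨c, rfl⟩ := FreeMonoid.length_eq_one.1 (by exact_mod_cast h : u.length = 1)
    rw [Finset.sum_eq_single c]
    · rw [if_pos rfl]
    · intro b _ hb
      rw [if_neg fun h' => hb (FreeMonoid.of_injective h')]
    · intro h'
      exact (h' (Finset.mem_univ _)).elim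
  · rw [(ha u).2 h]
    refine (Finset.sum_eq_zero fun c _ => if_neg ?_).symm
    rintro rfl
    exact h (by simp)

theorem aal_toL_mem {n n' m m' : ℤ} {a : AF k} {ψ : AD k} (ha : a ∈ Asub k n m)
    (hψ : ψ ∈ Dsub k n' m') : ψ.toL a ∈ degLE k (m + m') ∧ (n ≠ n' → ψ.toL a = 0) := by
  rw [toL_eq_sum]
  refine ⟨Submodule.sum_mem _ fun u _ => degLE_mul (ha u).1 (hψ u).1, fun h => ?_⟩
  refine Finset.sum_eq_zero fun u hu => ?_
  rw [(hψ u).2 (by rw [aal_len ha hu]; exact h), mul_zero]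

theorem aal_wd_mem (u : Wd) : wd k u ∈ Asub k u.length 0 := by
  have := aal_smul_wd_mem (k := k) (m := 0) (p := 1) (mem_degLE_zero.2 ⟨1, C_1.symm⟩) u
  rwa [one_smul] at this

theorem Asub_smul_Dsub {n n' m m' : ℤ} {a : AF k} {ψ : AD k} (ha : a ∈ Asub k n m)
    (hψ : ψ ∈ Dsub k n' m') : a • ψ ∈ Dsub k (n' - n) (m + m') := by
  intro u
  have h := aal_toL_mem (Asub_mul (aal_wd_mem u) ha) hψ
  rw [zero_add] at h
  rw [AD.smul_apply]
  exact ⟨h.1, fun h' => h.2 (by omega)⟩

theorem Asub_op_smul_Dsub {n n' m m' : ℤ} {a : AF k} {ψ : AD k} (ha : a ∈ Asub k n m)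
    (hψ : ψ ∈ Dsub k n' m') : op a • ψ ∈ Dsub k (n' - n) (m' + m) := by
  intro u
  have h := aal_toL_mem (Asub_mul ha (aal_wd_mem u)) hψ
  rw [add_zero, add_comm m] at h
  rw [AD.op_smul_apply, unop_op]
  exact ⟨h.1, fun h' => h.2 (by omega)⟩

theorem Dsub_neg_left {n m : ℤ} (h : n < 0) {ψ : AD k} (hψ : ψ ∈ Dsub k n m) : ψ = 0 := by
  exact AD.ext_wd fun u => (hψ u).2 (by omega)

theorem Dsub_neg_right {n m : ℤ} (h : m < 0) {ψ : AD k} (hψ : ψ ∈ Dsub k n m) : ψ = 0 := by
  exact AD.ext_wd fun u => degLE_neg h (hψ u).1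

/-- the value of a homogeneous form on a homogeneous element -/
theorem toL_mem_degLE {n n' m m' : ℤ} {a : AF k} {ψ : AD k} (ha : a ∈ Asub k n m)
    (hψ : ψ ∈ Dsub k n' m') : ψ.toL a ∈ degLE k (m + m') ∧ (n ≠ n' → ψ.toL a = 0) := by
  exact aal_toL_mem ha hψ

theorem smul_mem_Rel (a : AF k) {ψ : AD k} (hψ : ψ ∈ Rel k) : a • ψ ∈ Rel k := by
  intro p q
  rw [AD.smul_apply, mul_assoc]
  exact hψ p (q * a)

theorem op_smul_mem_Rel (a : AF k) {ψ : AD k} (hψ : ψ ∈ Rel k) : op a • ψ ∈ Rel k := by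
  intro p q
  rw [AD.op_smul_apply, unop_op, ← mul_assoc, ← mul_assoc]
  exact hψ (a * p) q

theorem mem_Rel_of_wd {ψ : AD k}
    (h : ∀ u v : Wd, ∑ c, ψ.toL (wd k (u * FreeMonoid.of c * FreeMonoid.of c * v)) = 0) :
    ψ ∈ Rel k := by
  intro p q
  induction p using aal_induction with
  | h0 => simp
  | hadd a b ha hb => rw [add_mul, add_mul, map_add, ha, hb, add_zero]
  | hs p u =>
    induction q using aal_induction with
    | h0 => simp
    | hadd a b ha hb => rw [mul_add, map_add, ha, hb, add_zero]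
    | hs q v =>
      rw [smul_mul_assoc, smul_mul_assoc, mul_smul_comm, map_smul, map_smul]
      have : ψ.toL (wd k u * om k * wd k v) = 0 := by
        rw [← h u v, om, Finset.mul_sum, Finset.sum_mul, map_sum]
        refine Finset.sum_congr rfl fun c _ => ?_
        simp only [wd_mul, lt, mul_assoc]
      rw [this, smul_zero, smul_zero]

theorem aal_finite_words (n : ℤ) : Finite {u : Wd // (u.length : ℤ) = n} := by
  have h := (List.finite_length_eq (Fin 3) n.toNat).to_subtype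
  refine Finite.of_injective (β := {l : List (Fin 3) | l.length = n.toNat})
    (fun u => ⟨u.1.toList, ?_⟩) ?_
  · have := u.2
    change u.1.length = n.toNat
    omega
  · intro u v huv
    have h' : u.1.toList = v.1.toList := Subtype.mk.inj huv
    exact Subtype.ext (FreeMonoid.toList.injective h')

theorem aal_eq {m : ℤ} {p q : k[X]} (hp : p ∈ degLE k m) (hq : q ∈ degLE k m)
    (h : ∀ j : Fin (m.toNat + 1), p.coeff j = q.coeff j) : p = q := by
  ext j
  by_cases hj : m < j
  · rw [hp j hj, hq j hj]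
  · exact h ⟨j, by omega⟩

instance finite_Asub (n m : ℤ) : FiniteDimensional k (Asub k n m) := by
  have := aal_finite_words n
  let f : Asub k n m →ₗ[k] ({u : Wd // (u.length : ℤ) = n} × Fin (m.toNat + 1) → k) :=
    { toFun := fun a x => (a.1.coeff x.1.1).coeff x.2
      map_add' := fun a b => by
        funext x
        simp
      map_smul' := fun c a => by
        funext x
        simp }
  refine Module.Finite.of_injective f fun a b hab => ?_
  refine Subtype.ext (aal_ext fun u => ?_)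
  by_cases hu : (u.length : ℤ) = n
  · exact aal_eq (a.2 u).1 (b.2 u).1 fun j => congrFun hab (⟨u, hu⟩, j)
  · rw [(a.2 u).2 hu, (b.2 u).2 hu]

instance finite_Dsub (n m : ℤ) : FiniteDimensional k (Dsub k n m) := by
  have := aal_finite_words n
  let f : Dsub k n m →ₗ[k] ({u : Wd // (u.length : ℤ) = n} × Fin (m.toNat + 1) → k) :=
    { toFun := fun a x => (a.1.toL (wd k x.1.1)).coeff x.2
      map_add' := fun a b => by
        funext x
        simp
      map_smul' := fun c a => by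
        funext x
        simp }
  refine Module.Finite.of_injective f fun a b hab => ?_
  refine Subtype.ext (AD.ext_wd fun u => ?_)
  by_cases hu : (u.length : ℤ) = n
  · exact aal_eq (a.2 u).1 (b.2 u).1 fun j => congrFun hab (⟨u, hu⟩, j)
  · rw [(a.2 u).2 hu, (b.2 u).2 hu]

theorem AS_mul {s t u : Lb} {a b : AF k} (ha : a ∈ AS k s t) (hb : b ∈ AS k t u) :
    a * b ∈ AS k s u := by
  have h := Asub_mul ha hb
  unfold AS
  convert h using 2 <;> ring

theorem AS_smul_Psi {s t u : Lb} {a : AF k} {ψ : AD k} (ha : a ∈ AS k s t) (hψ : ψ ∈ Psi k t u) :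
    a • ψ ∈ Psi k s u := by
  refine ⟨?_, smul_mem_Rel a hψ.2⟩
  have h := Asub_smul_Dsub ha hψ.1
  change a • ψ ∈ Dsub k _ _
  convert h using 2 <;> ring

theorem Psi_smul_AS {s t u : Lb} {a : AF k} {ψ : AD k} (hψ : ψ ∈ Psi k s t) (ha : a ∈ AS k t u) :
    op a • ψ ∈ Psi k s u := by
  refine ⟨?_, op_smul_mem_Rel a hψ.2⟩
  have h := Asub_op_smul_Dsub ha hψ.1
  change op a • ψ ∈ Dsub k _ _
  convert h using 2 <;> ring

theorem AS_smul_DA {s t u : Lb} {a : AF k} {ψ : AD k} (ha : a ∈ AS k s t) (hψ : ψ ∈ DA k t u) :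
    a • ψ ∈ DA k s u := by
  have h := Asub_smul_Dsub ha hψ
  unfold DA
  convert h using 2 <;> ring

theorem DA_smul_AS {s t u : Lb} {a : AF k} {ψ : AD k} (hψ : ψ ∈ DA k s t) (ha : a ∈ AS k t u) :
    op a • ψ ∈ DA k s u := by
  have h := Asub_op_smul_Dsub ha hψ
  unfold DA
  convert h using 2 <;> ring

theorem aal_tau_wd (u : Wd) : (tau k).toL (wd k u) =
    if u.toList = [0, 0] then 1 else if u.toList = [1, 1] then -1 else 0 :=
  formOf_wd k _ u

theorem aal_tau_ne {u : Wd} (h : u.length ≠ 2) : (tau k).toL (wd k u) = 0 := by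
  rw [aal_tau_wd, if_neg, if_neg]
  · intro h'
    exact h (congrArg List.length h')
  · intro h'
    exact h (congrArg List.length h')

theorem aal_append_eq (c : Fin 3) {l l' : List (Fin 3)} (h : l ++ l' = [c, c]) :
    l' ++ l = [c, c] := by
  rcases l with _ | ⟨a, _ | ⟨b, _ | ⟨d, l⟩⟩⟩
  · simpa using h
  · simp only [List.cons_append, List.nil_append, List.cons.injEq] at h
    obtain ⟨rfl, rfl⟩ := h
    rfl
  · simp only [List.cons_append, List.nil_append, List.cons.injEq] at h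
    obtain ⟨rfl, rfl, rfl⟩ := h
    rfl
  · simp at h

theorem aal_tau_comm (u v : Wd) : (tau k).toL (wd k (u * v)) = (tau k).toL (wd k (v * u)) := by
  have h : ∀ c : Fin 3, (u * v).toList = [c, c] ↔ (v * u).toList = [c, c] := fun c => by
    rw [FreeMonoid.toList_mul, FreeMonoid.toList_mul]
    exact ⟨aal_append_eq c, aal_append_eq c⟩
  simp only [aal_tau_wd, h]

theorem tau_mem (s : Lb) : tau k ∈ Psi k s s := by
  refine ⟨fun u => ⟨?_, fun h => aal_tau_ne (by omega)⟩, mem_Rel_of_wd fun u v => ?_⟩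
  · rw [sub_self, aal_tau_wd]
    split_ifs
    · exact mem_degLE_zero.2 ⟨1, C_1.symm⟩
    · exact neg_mem (mem_degLE_zero.2 ⟨1, C_1.symm⟩)
    · exact zero_mem _
  · by_cases h : u.length + v.length = 0
    · obtain rfl : u = 1 := FreeMonoid.length_eq_zero.1 (by omega)
      obtain rfl : v = 1 := FreeMonoid.length_eq_zero.1 (by omega)
      simp [aal_tau_wd, Fin.sum_univ_three]
    · refine Finset.sum_eq_zero fun c _ => aal_tau_ne ?_
      simp only [FreeMonoid.length_mul, FreeMonoid.length_of]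
      omega

theorem tau_central (a : AF k) : op a • tau k = a • tau k := by
  refine AD.ext_wd fun u => ?_
  rw [AD.op_smul_apply, AD.smul_apply, unop_op]
  induction a using aal_induction with
  | h0 => simp
  | hadd a b ha hb => rw [add_mul, mul_add, map_add, map_add, ha, hb]
  | hs p v => rw [smul_mul_assoc, mul_smul_comm, map_smul, map_smul, ← wd_mul, ← wd_mul,
      aal_tau_comm]

theorem tau_lt_lt (a b : Fin 3) :
    (tau k).toL (lt k a * lt k b) = if a = b then ![1, -1, 0] a else 0 := by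
  rw [lt, lt, ← wd_mul, aal_tau_wd]
  fin_cases a <;> fin_cases b <;> simp

theorem eul_mul (a b : AF k) : eul k (a * b) = eul k a * b + a * eul k b := by
  induction a using aal_induction with
  | h0 => simp
  | hadd a a' ha ha' => rw [add_mul, map_add, map_add, ha, ha', add_mul, add_mul]; abel
  | hs p u =>
    induction b using aal_induction with
    | h0 => simp
    | hadd b b' hb hb' => rw [mul_add, map_add, map_add (eul k) b, hb, hb', mul_add, mul_add]; abel
    | hs q v =>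
      have h : eul k (wd k u * wd k v) = eul k (wd k u) * wd k v + wd k u * eul k (wd k v) := by
        rw [← wd_mul, eul_wd, eul_wd, eul_wd, FreeMonoid.toList_mul, List.count_append, add_smul,
          wd_mul, smul_mul_assoc, mul_smul_comm]
      rw [smul_mul_smul_comm, map_smul, map_smul, map_smul, h, smul_add, smul_mul_smul_comm,
        smul_mul_smul_comm]

theorem eul_one : eul k 1 = 0 := by
  rw [← wd_one, eul_wd]
  simp

theorem eul_lt (c : Fin 3) : eul k (lt k c) = if c = 0 then lt k c else 0 := by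
  rw [lt, eul_wd]
  fin_cases c <;> simp

theorem eul_mem {n m : ℤ} {a : AF k} (ha : a ∈ Asub k n m) : eul k a ∈ Asub k n m := by
  rw [aal_eq_sum a, map_sum]
  refine Submodule.sum_mem _ fun u hu => ?_
  rw [map_smul, eul_wd, smul_comm, ← aal_len ha hu]
  exact nsmul_mem (smul_wd_mem_Asub (ha u).1 u) _

variable (ξ : Derivation ℤ k k)

theorem coeff_xiP (p : k[X]) (n : ℕ) : (xiP ξ p).coeff n = ξ (p.coeff n) := by
  change (p.sum fun n a => monomial n (ξ a)).coeff n = _
  rw [coeff_sum, sum_def, Finset.sum_eq_single n]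
  · rw [coeff_monomial, if_pos rfl]
  · intro b _ hb
    rw [coeff_monomial, if_neg hb]
  · intro h
    rw [notMem_support_iff.1 h]
    simp

theorem xiP_mul (p q : k[X]) : xiP ξ (p * q) = xiP ξ p * q + p * xiP ξ q := by
  ext n
  simp only [coeff_add, coeff_mul, coeff_xiP, map_sum, ← Finset.sum_add_distrib]
  refine Finset.sum_congr rfl fun x _ => ?_
  rw [Derivation.leibniz, smul_eq_mul, smul_eq_mul]
  ring

theorem xiP_C (c : k) : xiP ξ (C c) = C (ξ c) := by
  ext n
  rw [coeff_xiP, coeff_C, coeff_C]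
  split_ifs <;> simp

theorem xiP_X : xiP ξ X = 0 := by
  ext n
  rw [coeff_xiP, coeff_X, coeff_zero]
  split_ifs <;> simp

theorem xiA_smul_wd (p : k[X]) (u : Wd) : xiA ξ (p • wd k u) = xiP ξ p • wd k u := by
  refine aal_ext fun v => ?_
  rw [coeff_xiA, aal_coeff_smul_wd, aal_coeff_smul_wd]
  split_ifs <;> simp

theorem xiA_mul (a b : AF k) : xiA ξ (a * b) = xiA ξ a * b + a * xiA ξ b := by
  induction a using aal_induction with
  | h0 => simp
  | hadd a a' ha ha' => rw [add_mul, map_add, map_add, ha, ha', add_mul, add_mul]; abel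
  | hs p u =>
    induction b using aal_induction with
    | h0 => simp
    | hadd b b' hb hb' =>
      rw [mul_add, map_add, map_add (xiA ξ) b, hb, hb', mul_add, mul_add]; abel
    | hs q v =>
      rw [smul_mul_smul_comm, ← wd_mul, xiA_smul_wd, xiA_smul_wd, xiA_smul_wd, smul_mul_smul_comm,
        smul_mul_smul_comm, ← wd_mul, xiP_mul, add_smul]

theorem xiA_one : xiA ξ (1 : AF k) = 0 := by
  have h := xiA_smul_wd ξ 1 1
  rw [one_smul, wd_one, ← C_1, xiP_C] at h
  simpa using h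

theorem xiA_smul (c : k) (a : AF k) : xiA ξ (c • a) = c • xiA ξ a + ξ c • a := by
  refine aal_ext fun v => ?_
  ext n
  simp only [coeff_xiA, coeff_xiP, MonoidAlgebra.coeff_add, Finsupp.add_apply,
    MonoidAlgebra.coeff_smul_apply, coeff_add, coeff_smul, smul_eq_mul, Derivation.leibniz]
  ring

theorem xiA_neg (a : AF k) : xiA (-ξ) a = -xiA ξ a := by
  refine aal_ext fun v => ?_
  ext n
  simp only [coeff_xiA, coeff_xiP, MonoidAlgebra.coeff_neg, Finsupp.neg_apply, coeff_neg,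
    Derivation.neg_apply]

theorem xiA_mem {n m : ℤ} {a : AF k} (ha : a ∈ Asub k n m) : xiA ξ a ∈ Asub k n m := by
  intro u
  rw [coeff_xiA]
  refine ⟨fun j hj => ?_, fun h => ?_⟩
  · rw [coeff_xiP, (ha u).1 j hj, map_zero]
  · rw [(ha u).2 h, map_zero]

end Pool.Agent.Work.MP_910138_ag.C0
end

-- merged part: Pool.Agent.Work.MP_910138_ag.C0.SU
section
/-! Graded maps between cochain complexes, with signs. -/

open CategoryTheory Limits CochainComplex.HomComplex

namespace Pool.Agent.Work.MP_910138_ag.C0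

universe v u

/-- the sign `(-1)^n` as an integer -/
def sg (n : ℤ) : ℤ := (n.negOnePow : ℤ)

@[simp] theorem sg_zero : sg 0 = 1 := by simp [sg]

theorem sg_add (n m : ℤ) : sg (n + m) = sg n * sg m := by simp [sg, Int.negOnePow_add]

theorem sg_succ (n : ℤ) : sg (n + 1) = -sg n := by simp [sg, Int.negOnePow_succ]

theorem sg_mul_self (n : ℤ) : sg n * sg n = 1 := by
  rw [sg, ← Units.val_mul, Int.units_mul_self, Units.val_one]

theorem sg_neg (n : ℤ) : sg (-n) = sg n := by simp [sg]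

theorem sg_sub (n m : ℤ) : sg (n - m) = sg n * sg m := by rw [sub_eq_add_neg, sg_add, sg_neg]

theorem sg_pred (n : ℤ) : sg (n - 1) = -sg n := by
  have h := sg_succ (n - 1)
  rw [sub_add_cancel] at h
  rw [h, neg_neg]

@[simp] theorem sg_one : sg 1 = -1 := by simp [sg]

@[simp] theorem sg_neg_one : sg (-1) = -1 := by rw [sg_neg, sg_one]

@[simp] theorem sg_two : sg 2 = 1 := by
  rw [show (2 : ℤ) = 1 + 1 from rfl, sg_succ, sg_one, neg_neg]

@[simp] theorem sg_neg_two : sg (-2) = 1 := by rw [sg_neg, sg_two]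

theorem sg_smul_sg_smul {M : Type*} [AddCommGroup M] (n : ℤ) (x : M) : sg n • sg n • x = x := by
  rw [smul_smul, sg_mul_self, one_smul]

variable {A : Type u} [Category.{v} A] [Abelian A] [HasCoproductsOfShape ℤ A]

/-- the differential of the Hom-complex in degree `n` -/
noncomputable def dl {K L : Cx A} (n : ℤ) (f : U K ⟶ U L) : U K ⟶ U L :=
  f ≫ dU L - sg n • (dU K ≫ f)

variable {K L M : Cx A} {n m : ℤ}

theorem toU_neg (z : Cochain K L n) : toU (-z) = -toU z := by
  rw [eq_neg_iff_add_eq_zero, ← toU_add, neg_add_cancel, toU_zero]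

theorem toU_sub (z w : Cochain K L n) : toU (z - w) = toU z - toU w := by
  rw [sub_eq_add_neg, toU_add, toU_neg, sub_eq_add_neg]

theorem hg_zsmul {f : U K ⟶ U L} (c : ℤ) (hf : Hg n f) : Hg n (c • f) := fun p => by
  simp only [Preadditive.comp_zsmul, Preadditive.zsmul_comp]
  rw [← hf p]

theorem hg_neg {f : U K ⟶ U L} (hf : Hg n f) : Hg n (-f) := by
  simpa using hg_zsmul (-1) hf

theorem hg_sub {f g : U K ⟶ U L} (hf : Hg n f) (hg : Hg n g) : Hg n (f - g) := by
  rw [sub_eq_add_neg]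
  exact hf.add (hg_neg hg)

theorem hg_dl {f : U K ⟶ U L} (hf : Hg n f) {k : ℤ} (h : n + 1 = k) : Hg k (dl n f) :=
  hg_sub (hf.comp hg_dU h) (hg_zsmul _ (hg_dU.comp hf (by omega)))

theorem dl_add (f g : U K ⟶ U L) : dl n (f + g) = dl n f + dl n g := by
  simp only [dl, Preadditive.comp_add, Preadditive.add_comp, smul_add]
  abel

theorem dl_zero : dl n (0 : U K ⟶ U L) = 0 := by simp [dl]

theorem dl_neg (f : U K ⟶ U L) : dl n (-f) = -dl n f := by
  rw [eq_neg_iff_add_eq_zero, ← dl_add, neg_add_cancel, dl_zero]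

theorem dl_sub (f g : U K ⟶ U L) : dl n (f - g) = dl n f - dl n g := by
  rw [sub_eq_add_neg, dl_add, dl_neg, sub_eq_add_neg]

theorem dl_zsmul (c : ℤ) (f : U K ⟶ U L) : dl n (c • f) = c • dl n f := by
  simp only [dl, Preadditive.comp_zsmul, Preadditive.zsmul_comp, smul_sub]
  rw [smul_comm]

theorem dl_sum {ι : Type*} (s : Finset ι) (f : ι → (U K ⟶ U L)) :
    dl n (∑ i ∈ s, f i) = ∑ i ∈ s, dl n (f i) := by
  simp only [dl, Preadditive.comp_sum, Preadditive.sum_comp, Finset.sum_sub_distrib,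
    Finset.smul_sum]

theorem dl_comp (f : U K ⟶ U L) (g : U L ⟶ U M) {k : ℤ} (h : n + m = k) :
    dl k (f ≫ g) = f ≫ dl m g + sg m • (dl n f ≫ g) := by
  subst h
  simp only [dl, Preadditive.comp_sub, Preadditive.sub_comp, Preadditive.comp_zsmul,
    Preadditive.zsmul_comp, Category.assoc, smul_sub, smul_smul, sg_add, mul_comm (sg m)]
  abel

theorem dl_dl (f : U K ⟶ U L) (h : n + 1 = m) : dl m (dl n f) = 0 := by
  subst h
  simp only [dl, Preadditive.comp_sub, Preadditive.sub_comp, Preadditive.comp_zsmul,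
    Preadditive.zsmul_comp, Category.assoc, dU_dU_assoc, dU_dU, zero_comp, comp_zero, smul_zero,
    sub_zero, sg_succ, neg_smul]
  abel

theorem toU_δ (z : Cochain K L n) (h : n + 1 = m) : toU (δ n m z) = dl n (toU z) := by
  refine U_ext fun p => ?_
  have e : m.negOnePow = -n.negOnePow := by rw [← h, Int.negOnePow_succ]
  rw [ιU_toU _ p (p + n + 1) (by omega), δ_v n m h z p (p + n + 1) (by omega) (p + n) (p + 1)
    (by omega) rfl, dl, Preadditive.comp_sub, Preadditive.comp_zsmul, ιU_dU_assoc p _ rfl,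
    ιU_toU _ (p + 1) (p + n + 1) (by omega), ιU_toU_assoc _ p _ rfl, ιU_dU (p + n) _ rfl,
    Preadditive.add_comp, e, Units.smul_def, Units.val_neg, neg_smul, Preadditive.neg_comp,
    Preadditive.zsmul_comp, Category.assoc, Category.assoc, sg]
  exact (sub_eq_add_neg _ _).symm

theorem dl_mapU (φ : K ⟶ L) : dl 0 (mapU φ) = 0 := by
  rw [mapU, ← toU_δ _ (zero_add 1), δ_ofHom, toU_zero]

theorem dl_id : dl 0 (𝟙 (U K)) = 0 := mapU_id (K := K) ▸ dl_mapU _

theorem dl_comp_mapU (f : U K ⟶ U L) (φ : L ⟶ M) : dl n (f ≫ mapU φ) = dl n f ≫ mapU φ := by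
  rw [dl_comp f _ (add_zero n), dl_mapU, comp_zero, zero_add, sg_zero, one_smul]

theorem dl_mapU_comp (φ : K ⟶ L) (g : U L ⟶ U M) : dl n (mapU φ ≫ g) = mapU φ ≫ dl n g := by
  rw [dl_comp _ g (zero_add n), dl_mapU, zero_comp, smul_zero, add_zero]

theorem mapU_neg (φ : K ⟶ L) : mapU (-φ) = -mapU φ := by
  rw [eq_neg_iff_add_eq_zero, ← mapU_add, neg_add_cancel, mapU_zero]

theorem mapU_sub (φ ψ : K ⟶ L) : mapU (φ - ψ) = mapU φ - mapU ψ := by
  rw [sub_eq_add_neg, mapU_add, mapU_neg, sub_eq_add_neg]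

/-- the cocycle attached to a closed homogeneous map -/
noncomputable def cocU (n : ℤ) (f : U K ⟶ U L) (hf : Hg n f) (hd : dl n f = 0) : Cocycle K L n :=
  Cocycle.mk (ofU n f) (n + 1) rfl (toU_injective (by rw [toU_δ _ rfl, toU_ofU hf, hd, toU_zero]))

/-- the chain map attached to a closed map of degree zero -/
noncomputable def homU (f : U K ⟶ U L) (hf : Hg 0 f) (hd : dl 0 f = 0) : K ⟶ L :=
  (cocU 0 f hf hd).homOf

theorem mapU_homU (f : U K ⟶ U L) (hf : Hg 0 f) (hd : dl 0 f = 0) : mapU (homU f hf hd) = f := by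
  rw [mapU, homU, Cocycle.cochain_ofHom_homOf_eq_coe]
  exact toU_ofU hf

variable {k : Type} [Field k] [Linear k A]

theorem hg_smul {f : U K ⟶ U L} (c : k) (hf : Hg n f) : Hg n (c • f) := fun p => by
  simp only [Linear.comp_smul, Linear.smul_comp]
  rw [← hf p]

theorem dl_smul (c : k) (f : U K ⟶ U L) : dl n (c • f) = c • dl n f := by
  simp only [dl, Linear.comp_smul, Linear.smul_comp, smul_sub]
  rw [smul_comm]

theorem mapU_smul (c : k) (φ : K ⟶ L) : mapU (c • φ) = c • mapU φ :=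
  U_ext fun p => by simp [ιU_mapU]

theorem toU_smul (c : k) (z : Cochain K L n) : toU (c • z) = c • toU z :=
  U_ext fun p => by simp [ιU_toU _ p _ rfl]

end Pool.Agent.Work.MP_910138_ag.C0
end

-- merged part: Pool.Agent.Work.MP_910138_ag.C0.GC
section
/-! Graded categories inside a ring and their twisted complexes, given by matrices. -/

open CategoryTheory

namespace Pool.Agent.Work.MP_910138_ag.C0

/-- a non-positively graded category with object set `S` whose morphisms are elements of `R` -/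
structure GCat (k R S : Type) [Field k] [Ring R] [Algebra k R] where
  sub : S → S → ℤ → Submodule k R
  one_mem : ∀ s, (1 : R) ∈ sub s s 0
  mul_mem : ∀ {s t u : S} {n m l : ℤ} {a b : R}, a ∈ sub s t n → b ∈ sub t u m → n + m = l →
    a * b ∈ sub s u l
  pos : ∀ s t n, 0 < n → sub s t n = ⊥

/-- a finite set of labelled generators with degrees -/
structure Gn (S : Type) where
  G : Type
  [fin : Fintype G]
  [dec : DecidableEq G]
  lab : G → S
  deg : G → ℤ

attribute [instance] Gn.fin Gn.dec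

variable {k R S : Type} [Field k] [Ring R] [Algebra k R] (𝒞 : GCat k R S)

/-- matrices of maps of degree `n` -/
def SP (X Y : Gn S) (n : ℤ) (f : Matrix X.G Y.G R) : Prop :=
  ∀ x y, f x y ∈ 𝒞.sub (X.lab x) (Y.lab y) (n + X.deg x - Y.deg y)

/-- twisted complexes -/
structure Ob extends Gn S where
  D : Matrix G G R
  sp : SP 𝒞 toGn toGn 1 D
  sq : D * D = 0

variable {𝒞}

section
variable {X Y Z : Gn S} {n m l : ℤ}

theorem SP.zero : SP 𝒞 X Y n 0 := fun _ _ => zero_mem _

theorem SP.add {f g : Matrix X.G Y.G R} (hf : SP 𝒞 X Y n f) (hg : SP 𝒞 X Y n g) :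
    SP 𝒞 X Y n (f + g) := fun x y => add_mem (hf x y) (hg x y)

theorem SP.neg {f : Matrix X.G Y.G R} (hf : SP 𝒞 X Y n f) : SP 𝒞 X Y n (-f) :=
  fun x y => neg_mem (hf x y)

theorem SP.sub {f g : Matrix X.G Y.G R} (hf : SP 𝒞 X Y n f) (hg : SP 𝒞 X Y n g) :
    SP 𝒞 X Y n (f - g) := fun x y => sub_mem (hf x y) (hg x y)

theorem SP.smul {f : Matrix X.G Y.G R} (c : k) (hf : SP 𝒞 X Y n f) : SP 𝒞 X Y n (c • f) :=
  fun x y => Submodule.smul_mem _ c (hf x y)

theorem SP.zsmul {f : Matrix X.G Y.G R} (c : ℤ) (hf : SP 𝒞 X Y n f) : SP 𝒞 X Y n (c • f) :=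
  fun x y => zsmul_mem (hf x y) c

theorem SP.mul {f : Matrix X.G Y.G R} {g : Matrix Y.G Z.G R} (hf : SP 𝒞 X Y n f)
    (hg : SP 𝒞 Y Z m g) (h : n + m = l) : SP 𝒞 X Z l (f * g) := fun x z => by
  rw [Matrix.mul_apply]
  exact sum_mem fun y _ => 𝒞.mul_mem (hf x y) (hg y z) (by omega)

theorem SP.one : SP 𝒞 X X 0 1 := fun x y => by
  by_cases h : x = y
  · subst h
    rw [Matrix.one_apply_eq, zero_add, sub_self]
    exact 𝒞.one_mem _
  · rw [Matrix.one_apply_ne h]
    exact zero_mem _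

theorem SP.of_eq {f : Matrix X.G Y.G R} (hf : SP 𝒞 X Y n f) (h : n = m) : SP 𝒞 X Y m f := h ▸ hf

theorem SP.eq_zero {f : Matrix X.G Y.G R} (hf : SP 𝒞 X Y n f) {x : X.G} {y : Y.G}
    (h : Y.deg y < n + X.deg x) : f x y = 0 := by
  have := hf x y
  rwa [𝒞.pos _ _ _ (by omega), Submodule.mem_bot] at this

end

/-- the differential of the Hom-complex -/
def dP (X Y : Ob 𝒞) (n : ℤ) (f : Matrix X.G Y.G R) : Matrix X.G Y.G R :=
  f * Y.D - sg n • (X.D * f)

section
variable {X Y Z : Ob 𝒞} {n m l : ℤ}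

theorem SP.dP {f : Matrix X.G Y.G R} (hf : SP 𝒞 X.toGn Y.toGn n f) (h : n + 1 = m) :
    SP 𝒞 X.toGn Y.toGn m (dP X Y n f) :=
  (hf.mul Y.sp h).sub ((X.sp.mul hf (by omega)).zsmul _)

theorem dP_add (f g : Matrix X.G Y.G R) : dP X Y n (f + g) = dP X Y n f + dP X Y n g := by
  simp only [dP, Matrix.add_mul, Matrix.mul_add, smul_add]
  abel

theorem dP_zero : dP X Y n 0 = 0 := by simp [dP]

theorem dP_neg (f : Matrix X.G Y.G R) : dP X Y n (-f) = -dP X Y n f := by
  simp only [dP, Matrix.neg_mul, Matrix.mul_neg, smul_neg]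
  abel

theorem dP_sub (f g : Matrix X.G Y.G R) : dP X Y n (f - g) = dP X Y n f - dP X Y n g := by
  rw [sub_eq_add_neg, dP_add, dP_neg, sub_eq_add_neg]

theorem dP_smul (c : k) (f : Matrix X.G Y.G R) : dP X Y n (c • f) = c • dP X Y n f := by
  simp only [dP, Matrix.smul_mul, Matrix.mul_smul, smul_sub]
  rw [smul_comm]

theorem dP_zsmul (c : ℤ) (f : Matrix X.G Y.G R) : dP X Y n (c • f) = c • dP X Y n f := by
  simp only [dP, Matrix.smul_mul, Matrix.mul_smul, smul_sub]
  rw [smul_comm]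

theorem dP_dP (f : Matrix X.G Y.G R) (h : n + 1 = m) : dP X Y m (dP X Y n f) = 0 := by
  subst h
  simp only [dP, Matrix.sub_mul, Matrix.mul_sub, Matrix.smul_mul, Matrix.mul_smul,
    Matrix.mul_assoc, Y.sq, Matrix.mul_zero, ← Matrix.mul_assoc X.D X.D, X.sq, Matrix.zero_mul,
    smul_zero, sub_zero, sg_succ, neg_smul]
  abel

theorem dP_mul (f : Matrix X.G Y.G R) (g : Matrix Y.G Z.G R) (h : n + m = l) :
    dP X Z l (f * g) = f * dP Y Z m g + sg m • (dP X Y n f * g) := by
  subst h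
  simp only [dP, Matrix.sub_mul, Matrix.mul_sub, Matrix.smul_mul, Matrix.mul_smul,
    Matrix.mul_assoc, smul_sub, smul_smul, sg_add, mul_comm (sg m)]
  abel

theorem dP_zero_iff {f : Matrix X.G Y.G R} : dP X Y 0 f = 0 ↔ f * Y.D = X.D * f := by
  rw [dP, sg_zero, one_smul, sub_eq_zero]

theorem dP_neg_one (f : Matrix X.G Y.G R) : dP X Y (-1) f = f * Y.D + X.D * f := by
  rw [dP, sg_neg_one, neg_smul, one_smul, sub_neg_eq_add]

end

/-- closed maps of degree zero -/
@[ext]
structure Mor (X Y : Ob 𝒞) where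
  mat : Matrix X.G Y.G R
  sp : SP 𝒞 X.toGn Y.toGn 0 mat
  cl : mat * Y.D = X.D * mat

instance : Category (Ob 𝒞) where
  Hom := Mor
  id X := ⟨1, SP.one, by rw [Matrix.one_mul, Matrix.mul_one]⟩
  comp f g := ⟨f.mat * g.mat, f.sp.mul g.sp rfl, by
    rw [Matrix.mul_assoc, g.cl, ← Matrix.mul_assoc, f.cl, Matrix.mul_assoc]⟩
  id_comp f := Mor.ext (Matrix.one_mul _)
  comp_id f := Mor.ext (Matrix.mul_one _)
  assoc f g h := Mor.ext (Matrix.mul_assoc _ _ _)

section
variable {X Y Z : Ob 𝒞}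

theorem Ob.hom_ext {f g : X ⟶ Y} (h : f.mat = g.mat) : f = g := Mor.ext h

theorem Ob.id_mat : Mor.mat (𝟙 X) = 1 := rfl

theorem Ob.comp_mat (f : X ⟶ Y) (g : Y ⟶ Z) : Mor.mat (f ≫ g) = f.mat * g.mat := rfl

theorem Mor.dP (f : X ⟶ Y) : dP X Y 0 f.mat = 0 := dP_zero_iff.2 f.cl

/-- homotopic maps -/
def Htp (f g : X ⟶ Y) : Prop :=
  ∃ h, SP 𝒞 X.toGn Y.toGn (-1) h ∧ f.mat - g.mat = dP X Y (-1) h

/-- a scalar as an endomorphism -/
def scal (X : Ob 𝒞) (c : k) : X ⟶ X :=
  ⟨c • (1 : Matrix X.G X.G R), SP.one.smul c, by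
    rw [Matrix.smul_mul, Matrix.mul_smul, Matrix.one_mul, Matrix.mul_one]⟩

end

/-- the generators with shifted degrees -/
abbrev Gn.sh (X : Gn S) : Gn S := ⟨X.G, X.lab, fun x => X.deg x - 1⟩

/-- the shift on objects -/
abbrev shObj (X : Ob 𝒞) : Ob 𝒞 where
  toGn := X.toGn.sh
  D := -X.D
  sp x y := by
    have := neg_mem (X.sp x y)
    rwa [show 1 + X.deg x - X.deg y = 1 + (X.deg x - 1) - (X.deg y - 1) by omega] at this
  sq := by rw [Matrix.neg_mul, Matrix.mul_neg, neg_neg, X.sq]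

variable (𝒞) in
/-- the shift functor -/
def shFun : Ob 𝒞 ⥤ Ob 𝒞 where
  obj := shObj
  map {X Y} f :=
    { mat := f.mat
      sp := fun x y => by
        have := f.sp x y
        rwa [show 0 + X.deg x - Y.deg y = 0 + (X.deg x - 1) - (Y.deg y - 1) by omega] at this
      cl := by
        change f.mat * -Y.D = -X.D * f.mat
        rw [Matrix.mul_neg, Matrix.neg_mul, f.cl] }

/-- the generators of a cone -/
abbrev Gn.cone (X Y : Gn S) : Gn S :=
  ⟨X.G ⊕ Y.G, Sum.elim X.lab Y.lab, Sum.elim (fun x => X.deg x - 1) Y.deg⟩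

section
variable {X Y : Ob 𝒞} (f : X ⟶ Y)

/-- the cone -/
abbrev coneObj : Ob 𝒞 where
  toGn := X.toGn.cone Y.toGn
  D := Matrix.fromBlocks (-X.D) f.mat 0 Y.D
  sp
    | Sum.inl x, Sum.inl y => (shObj X).sp x y
    | Sum.inl x, Sum.inr y => by
      have := f.sp x y
      rwa [show 0 + X.deg x - Y.deg y = 1 + (X.deg x - 1) - Y.deg y by omega] at this
    | Sum.inr _, Sum.inl _ => zero_mem _
    | Sum.inr x, Sum.inr y => Y.sp x y
  sq := by
    simp [Matrix.fromBlocks_multiply, X.sq, Y.sq, f.cl]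

/-- the inclusion into the cone -/
def coneInr : Y ⟶ coneObj f where
  mat := Matrix.fromCols 0 1
  sp
    | _, Sum.inl _ => zero_mem _
    | x, Sum.inr y => SP.one (𝒞 := 𝒞) (X := Y.toGn) x y
  cl := by
    change Matrix.fromCols 0 1 * Matrix.fromBlocks (-X.D) f.mat 0 Y.D = Y.D * Matrix.fromCols 0 1
    simp [Matrix.fromCols_mul_fromBlocks, Matrix.mul_fromCols]

/-- the projection from the cone -/
def coneFst : coneObj f ⟶ (shFun 𝒞).obj X where
  mat := Matrix.fromRows (1 : Matrix X.G X.G R) (0 : Matrix Y.G X.G R)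
  sp
    | Sum.inl x, y => SP.one (𝒞 := 𝒞) (X := X.toGn.sh) x y
    | Sum.inr _, _ => zero_mem _
  cl := by
    change Matrix.fromRows (1 : Matrix X.G X.G R) (0 : Matrix Y.G X.G R) * -X.D =
      Matrix.fromBlocks (-X.D) f.mat 0 Y.D *
        Matrix.fromRows (1 : Matrix X.G X.G R) (0 : Matrix Y.G X.G R)
    simp [Matrix.fromBlocks_mul_fromRows, Matrix.fromRows_mul]

end

variable (𝒞) in
/-- one generator in degree zero -/
abbrev genOb (s : S) : Ob 𝒞 where
  G := Unit
  lab _ := s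
  deg _ := 0
  D := 0
  sp := SP.zero
  sq := Matrix.zero_mul _

/-- a morphism between generators -/
def genMor {s t : S} (a : R) (ha : a ∈ 𝒞.sub s t 0) : genOb 𝒞 s ⟶ genOb 𝒞 t where
  mat := Matrix.of fun _ _ => a
  sp _ _ := ha
  cl := (Matrix.mul_zero _).trans (Matrix.zero_mul _).symm

variable (𝒞) in
/-- the zero object -/
def zeroOb : Ob 𝒞 where
  G := Empty
  lab := Empty.elim
  deg := Empty.elim
  D := 0
  sp := SP.zero
  sq := Matrix.zero_mul _

/-- a subcategory -/
def GCat.Le (𝒞₀ 𝒞 : GCat k R S) : Prop := ∀ s t n, 𝒞₀.sub s t n ≤ 𝒞.sub s t n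

/-- the inclusion on objects -/
abbrev incObj {𝒞₀ : GCat k R S} (h : 𝒞₀.Le 𝒞) (X : Ob 𝒞₀) : Ob 𝒞 where
  toGn := X.toGn
  D := X.D
  sp x y := h _ _ _ (X.sp x y)
  sq := X.sq

/-- the inclusion functor -/
def incFun {𝒞₀ : GCat k R S} (h : 𝒞₀.Le 𝒞) : Ob 𝒞₀ ⥤ Ob 𝒞 where
  obj := incObj h
  map f := ⟨f.mat, fun x y => h _ _ _ (f.sp x y), f.cl⟩

end Pool.Agent.Work.MP_910138_ag.C0
end

-- merged part: Pool.Agent.Work.MP_910138_ag.C0.Tot
section
/-! Twisted complexes: `TotStr K W deg t` says that `K` is the total complex of the family `W`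
(`W x` placed in degree `deg x`) twisted by `t`. -/

open CategoryTheory Limits CochainComplex.HomComplex

namespace Pool.Agent.Work.MP_910138_ag.C0

universe v u

variable {A : Type u} [Category.{v} A] [Abelian A] [HasCoproductsOfShape ℤ A]

/-- twisting data: homogeneous closed maps of square zero, one-sided -/
structure Tw {G : Type} [Fintype G] (W : G → Cx A) (deg : G → ℤ)
    (t : ∀ x y, U (W x) ⟶ U (W y)) : Prop where
  hg : ∀ x y, Hg (deg x + 1 - deg y) (t x y)
  cl : ∀ x y, dl (deg x + 1 - deg y) (t x y) = 0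
  sq : ∀ x z, ∑ y, t x y ≫ t y z = 0
  tri : ∀ x y, t x y ≠ 0 → deg x < deg y

/-- `K` is the total complex of `W` twisted by `t` -/
structure TotStr {G : Type} [Fintype G] (K : Cx A) (W : G → Cx A) (deg : G → ℤ)
    (t : ∀ x y, U (W x) ⟶ U (W y)) where
  inc : ∀ x, U (W x) ⟶ U K
  pr : ∀ x, U K ⟶ U (W x)
  hinc : ∀ x, Hg (deg x) (inc x)
  hpr : ∀ x, Hg (-deg x) (pr x)
  inc_pr_self : ∀ x, inc x ≫ pr x = 𝟙 _
  inc_pr_ne : ∀ x y, x ≠ y → inc x ≫ pr y = 0
  total : ∑ x, pr x ≫ inc x = 𝟙 _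
  dl_inc : ∀ x, dl (deg x) (inc x) = ∑ y, t x y ≫ inc y

attribute [reassoc] TotStr.inc_pr_self TotStr.inc_pr_ne

variable {G G' G'' : Type} [Fintype G] [Fintype G'] [Fintype G'']
  {K K' K'' : Cx A} {W : G → Cx A} {W' : G' → Cx A} {W'' : G'' → Cx A}
  {deg : G → ℤ} {deg' : G' → ℤ} {deg'' : G'' → ℤ}
  {t : ∀ x y, U (W x) ⟶ U (W y)} {t' : ∀ x y, U (W' x) ⟶ U (W' y)}
  {t'' : ∀ x y, U (W'' x) ⟶ U (W'' y)}

/-- assemble a matrix of maps -/
noncomputable def asm (s : TotStr K W deg t) (s' : TotStr K' W' deg' t')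
    (φ : ∀ x y, U (W x) ⟶ U (W' y)) : U K ⟶ U K' :=
  ∑ x, ∑ y, s.pr x ≫ φ x y ≫ s'.inc y

variable (s : TotStr K W deg t) (s' : TotStr K' W' deg' t') (s'' : TotStr K'' W'' deg'' t'')

@[reassoc]
theorem inc_asm (φ : ∀ x y, U (W x) ⟶ U (W' y)) (x : G) :
    s.inc x ≫ asm s s' φ = ∑ y, φ x y ≫ s'.inc y := by
  rw [asm, Preadditive.comp_sum, Finset.sum_eq_single x]
  · simp only [Preadditive.comp_sum, s.inc_pr_self_assoc]
  · intro b _ hb
    simp only [Preadditive.comp_sum, s.inc_pr_ne_assoc x b hb.symm, zero_comp,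
      Finset.sum_const_zero]
  · simp

@[reassoc]
theorem asm_pr (φ : ∀ x y, U (W x) ⟶ U (W' y)) (y : G') :
    asm s s' φ ≫ s'.pr y = ∑ x, s.pr x ≫ φ x y := by
  rw [asm, Preadditive.sum_comp]
  refine Finset.sum_congr rfl fun x _ => ?_
  rw [Preadditive.sum_comp, Finset.sum_eq_single y]
  · simp only [Category.assoc, s'.inc_pr_self, Category.comp_id]
  · intro b _ hb
    simp only [Category.assoc, s'.inc_pr_ne b y hb, comp_zero]
  · simp

theorem inc_asm_pr (φ : ∀ x y, U (W x) ⟶ U (W' y)) (x : G) (y : G') :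
    s.inc x ≫ asm s s' φ ≫ s'.pr y = φ x y := by
  rw [asm_pr, Preadditive.comp_sum, Finset.sum_eq_single x]
  · rw [s.inc_pr_self_assoc]
  · intro b _ hb
    rw [s.inc_pr_ne_assoc x b hb.symm, zero_comp]
  · simp

theorem TotStr.ext_from {B : A} {f g : U K ⟶ B} (h : ∀ x, s.inc x ≫ f = s.inc x ≫ g) : f = g := by
  rw [← Category.id_comp f, ← Category.id_comp g, ← s.total]
  simp only [Preadditive.sum_comp, Category.assoc, h]

theorem TotStr.ext_to {B : A} {f g : B ⟶ U K} (h : ∀ x, f ≫ s.pr x = g ≫ s.pr x) : f = g := by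
  rw [← Category.comp_id f, ← Category.comp_id g, ← s.total]
  simp only [Preadditive.comp_sum, reassoc_of% h]

theorem asm_ext {f g : U K ⟶ U K'}
    (h : ∀ x y, s.inc x ≫ f ≫ s'.pr y = s.inc x ≫ g ≫ s'.pr y) : f = g :=
  s.ext_from fun x => s'.ext_to fun y => by simpa only [Category.assoc] using h x y

theorem asm_components (f : U K ⟶ U K') : asm s s' (fun x y => s.inc x ≫ f ≫ s'.pr y) = f :=
  asm_ext s s' fun x y => inc_asm_pr s s' _ x y

theorem asm_add (φ ψ : ∀ x y, U (W x) ⟶ U (W' y)) :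
    asm s s' (fun x y => φ x y + ψ x y) = asm s s' φ + asm s s' ψ := by
  simp only [asm, Preadditive.add_comp, Preadditive.comp_add, Finset.sum_add_distrib]

theorem asm_zero : asm s s' (fun _ _ => 0) = 0 := by simp [asm]

theorem asm_comp (φ : ∀ x y, U (W x) ⟶ U (W' y)) (ψ : ∀ y z, U (W' y) ⟶ U (W'' z)) :
    asm s s' φ ≫ asm s' s'' ψ = asm s s'' (fun x z => ∑ y, φ x y ≫ ψ y z) := by
  refine asm_ext s s'' fun x z => ?_
  rw [inc_asm_pr, Category.assoc, inc_asm_assoc, Preadditive.sum_comp]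
  refine Finset.sum_congr rfl fun y _ => ?_
  rw [Category.assoc, inc_asm_pr]

theorem hg_asm {n : ℤ} {φ : ∀ x y, U (W x) ⟶ U (W' y)}
    (h : ∀ x y, Hg (n + deg x - deg' y) (φ x y)) : Hg n (asm s s' φ) :=
  Hg.sum _ fun x _ => Hg.sum _ fun y _ =>
    (s.hpr x).comp ((h x y).comp (s'.hinc y) rfl) (by omega)

theorem hg_component {n : ℤ} {f : U K ⟶ U K'} (hf : Hg n f) (x : G) (y : G') :
    Hg (n + deg x - deg' y) (s.inc x ≫ f ≫ s'.pr y) :=
  (s.hinc x).comp (hf.comp (s'.hpr y) rfl) (by omega)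

theorem asm_zsmul (c : ℤ) (φ : ∀ x y, U (W x) ⟶ U (W' y)) :
    asm s s' (fun x y => c • φ x y) = c • asm s s' φ := by
  simp only [asm, Preadditive.zsmul_comp, Preadditive.comp_zsmul, Finset.smul_sum]

theorem asm_sub (φ ψ : ∀ x y, U (W x) ⟶ U (W' y)) :
    asm s s' (fun x y => φ x y - ψ x y) = asm s s' φ - asm s s' ψ := by
  simp only [asm, Preadditive.sub_comp, Preadditive.comp_sub, Finset.sum_sub_distrib]

theorem asm_smul {k : Type} [Field k] [Linear k A] (c : k) (φ : ∀ x y, U (W x) ⟶ U (W' y)) :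
    asm s s' (fun x y => c • φ x y) = c • asm s s' φ := by
  simp only [asm, Linear.smul_comp, Linear.comp_smul, Finset.smul_sum]

theorem TotStr.dl_pr (y : G) :
    dl (-deg y) (s.pr y) = -(sg (deg y) • ∑ x, s.pr x ≫ t x y) := by
  classical
  refine s.ext_from fun x => ?_
  have h1 : dl (deg x + -deg y) (s.inc x ≫ s.pr y) = 0 := by
    by_cases h : x = y
    · subst h
      rw [s.inc_pr_self, add_neg_cancel, dl_id]
    · rw [s.inc_pr_ne x y h, dl_zero]
  rw [dl_comp _ _ rfl, s.dl_inc, sg_neg] at h1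
  rw [eq_neg_of_add_eq_zero_left h1, Preadditive.comp_neg, Preadditive.comp_zsmul,
    Preadditive.sum_comp, Preadditive.comp_sum, Finset.sum_eq_single y, Finset.sum_eq_single x]
  · rw [Category.assoc, s.inc_pr_self, s.inc_pr_self_assoc, Category.comp_id]
  · intro b _ hb
    rw [s.inc_pr_ne_assoc x b hb.symm, zero_comp]
  · simp
  · intro b _ hb
    rw [Category.assoc, s.inc_pr_ne b y hb, comp_zero]
  · simp

theorem dl_component (n : ℤ) (f : U K ⟶ U K') (x : G) (y : G') :
    s.inc x ≫ dl n f ≫ s'.pr y =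
      sg (deg' y) • dl (n + deg x - deg' y) (s.inc x ≫ f ≫ s'.pr y) +
      ∑ y', (s.inc x ≫ f ≫ s'.pr y') ≫ t' y' y -
      sg n • ∑ x', t x x' ≫ s.inc x' ≫ f ≫ s'.pr y := by
  rw [dl_comp (n := deg x) (m := n + -deg' y) _ _ (by omega), dl_comp f _ rfl, s.dl_inc, s'.dl_pr]
  simp only [Preadditive.sum_comp, Preadditive.comp_sum, Preadditive.comp_add, Category.assoc,
    Preadditive.comp_neg, Preadditive.comp_zsmul, smul_add, smul_neg, smul_smul, sg_add, sg_neg,
    sg_mul_self, one_smul, mul_left_comm (sg (deg' y)), mul_one]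
  abel

theorem dl_asm (n : ℤ) (φ : ∀ x y, U (W x) ⟶ U (W' y)) :
    dl n (asm s s' φ) = asm s s'
      (fun x y => sg (deg' y) • dl (n + deg x - deg' y) (φ x y) + ∑ y', φ x y' ≫ t' y' y -
        sg n • ∑ x', t x x' ≫ φ x' y) := by
  refine asm_ext s s' fun x y => ?_
  rw [dl_component, inc_asm_pr s s' (fun x y => sg (deg' y) • dl (n + deg x - deg' y) (φ x y) +
    ∑ y', φ x y' ≫ t' y' y - sg n • ∑ x', t x x' ≫ φ x' y)]
  simp only [inc_asm_pr]

end Pool.Agent.Work.MP_910138_ag.C0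
end

-- merged part: Pool.Agent.Work.MP_910138_ag.C0.HDefs
section
/-! Koszul systems: three operators with `∑ x c * x c = 0` and exact Koszul sequence; families of
submodules; traces on subspaces. -/

namespace Pool.Agent.Work.MP_910138_ag.C0

variable {K V : Type} [Field K] [AddCommGroup V] [Module K V]

/-- the sequence `0 → V → V^3 → V` is exact -/
structure Kos (x : Fin 3 → V →ₗ[K] V) : Prop where
  inj : ∀ v, (∀ c, x c v = 0) → v = 0
  sq : ∀ v, ∑ c, x c (x c v) = 0
  ex : ∀ t : Fin 3 → V, ∑ c, x c (t c) = 0 → ∃ u, ∀ c, t c = x c u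

section
variable {S : Type} [SetLike S V]

/-- the operators map `P` to `Q` -/
def Maps (x : Fin 3 → V →ₗ[K] V) (P Q : S) : Prop := ∀ c, ∀ v ∈ P, x c v ∈ Q

/-- `Q` is generated by `P` -/
def Gen (x : Fin 3 → V →ₗ[K] V) (P Q : S) : Prop :=
  ∀ v ∈ Q, ∃ t : Fin 3 → V, (∀ c, t c ∈ P) ∧ ∑ c, x c (t c) = v

/-- `P` is saturated with respect to `Q` -/
def Sat (x : Fin 3 → V →ₗ[K] V) (P Q : S) : Prop := ∀ v, (∀ c, x c v ∈ Q) → v ∈ P

/-- all three properties -/
structure Good (x : Fin 3 → V →ₗ[K] V) (P Q : S) : Prop where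
  maps : Maps x P Q
  gen : Gen x P Q
  sat : Sat x P Q

/-- the family is good from `j₀` on -/
def GoodFrom (x : Fin 3 → V →ₗ[K] V) (M : ℤ → S) (j₀ : ℤ) : Prop :=
  ∀ i j, j₀ ≤ i → i + 1 = j → Good x (M i) (M j)

/-- the family is eventually good -/
def EG (x : Fin 3 → V →ₗ[K] V) (M : ℤ → S) : Prop := ∃ j₀, GoodFrom x M j₀

/-- `f` maps `M i` to `N (i + δ)` for `i ≥ j₀` -/
def ShiftFrom (f : V →ₗ[K] V) (M N : ℤ → S) (δ j₀ : ℤ) : Prop :=
  ∀ i j, j₀ ≤ i → i + δ = j → ∀ v ∈ M i, f v ∈ N j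

theorem GoodFrom.mono {x : Fin 3 → V →ₗ[K] V} {M : ℤ → S} {a b : ℤ} (h : GoodFrom x M a)
    (hab : a ≤ b) : GoodFrom x M b := fun i j hi hj => h i j (hab.trans hi) hj

theorem ShiftFrom.mono {f : V →ₗ[K] V} {M N : ℤ → S} {δ a b : ℤ} (h : ShiftFrom f M N δ a)
    (hab : a ≤ b) : ShiftFrom f M N δ b := fun i j hi hj => h i j (hab.trans hi) hj

end

/-- `f` commutes with the operators -/
def Comm (x : Fin 3 → V →ₗ[K] V) (f : V →ₗ[K] V) : Prop := ∀ c v, f (x c v) = x c (f v)

theorem Comm.pow {x : Fin 3 → V →ₗ[K] V} {f : V →ₗ[K] V} (h : Comm x f) (n : ℕ) :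
    Comm x (f ^ n) := by
  induction n with
  | zero => exact fun _ _ => rfl
  | succ n ih => exact fun c v => by rw [pow_succ, Module.End.mul_apply, h, ih, Module.End.mul_apply]

theorem Comm.smul {x : Fin 3 → V →ₗ[K] V} {f : V →ₗ[K] V} (h : Comm x f) (a : K) :
    Comm x (a • f) := fun c v => by simp [h c v]

/-- the action of a word -/
def act (x : Fin 3 → V →ₗ[K] V) : List (Fin 3) → V →ₗ[K] V
  | [] => LinearMap.id
  | c :: u => x c ∘ₗ act x u

open Classical in
/-- the trace of `f` on the subspace `W` (zero if `W` is not stable) -/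
noncomputable def trOn (W : Submodule K V) (f : V →ₗ[K] V) : K :=
  if h : ∀ v ∈ W, f v ∈ W then LinearMap.trace K W (f.restrict h) else 0

section
variable (R : Type) [CommRing R] [Algebra R K] [Module R V] [IsScalarTower R K V]

/-- cycles -/
def kerF (d : V →ₗ[K] V) (M : ℤ → Submodule R V) (j : ℤ) : Submodule R V :=
  M j ⊓ LinearMap.ker (d.restrictScalars R)

/-- boundaries -/
def imF (d : V →ₗ[K] V) (M : ℤ → Submodule R V) (j : ℤ) : Submodule R V :=
  (M j).map (d.restrictScalars R)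

/-- the elements of `M j` that `f` maps into `N (j + δ)` -/
def preF (f : V →ₗ[K] V) (δ : ℤ) (M N : ℤ → Submodule R V) (j : ℤ) : Submodule R V :=
  M j ⊓ (N (j + δ)).comap (f.restrictScalars R)

/-- the image of `P^3` -/
def piSum (x : Fin 3 → V →ₗ[K] V) (P : Submodule R V) : Submodule R V :=
  ⨆ c, P.map ((x c).restrictScalars R)

end

/-- the flag of the cycles that `e ^ n` maps to boundaries -/
def flag (d e : V →ₗ[K] V) (gr : ℤ → Submodule K V) (n : ℕ) : ℤ → Submodule K V :=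
  preF K (e ^ n) (2 * n) (kerF K d gr) (imF K d gr)

/-- `σ` is a section on `Q` with values in `P` -/
def Sec (x σ : Fin 3 → V →ₗ[K] V) (P Q : Submodule K V) : Prop :=
  ∀ v ∈ Q, (∀ c, σ c v ∈ P) ∧ ∑ c, x c (σ c v) = v

/-- `σ - x φ` maps `C` to `B` -/
def Adm {S : Type} [SetLike S V] (x σ : Fin 3 → V →ₗ[K] V) (B C : S) (φ : V →ₗ[K] V) : Prop :=
  ∀ v ∈ C, ∀ c, σ c v - x c (φ v) ∈ B

/-- the two subrings are separated by powers of `ϖ` -/
def Sep {k : Type} [Field k] [Algebra k K] (R₀ R₁ : Subalgebra k K) (ϖ : K) : Prop :=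
  ∀ g₀ g₁ : K, g₀ ≠ 0 → g₁ ≠ 0 → ∃ m : ℕ, ∀ c : K, g₀ * c ∈ R₀ → g₁ * ϖ ^ m * c ∈ R₁ → c = 0

/-- a graded Koszul system with a differential and constant splittings -/
structure Amb (x : Fin 3 → V →ₗ[K] V) (gr : ℤ → Submodule K V) (pr : ℤ → V →ₗ[K] V)
    (d : V →ₗ[K] V) (r s : ℤ → Fin 3 → V →ₗ[K] V) : Prop where
  kos : Kos x
  fin : ∀ j, FiniteDimensional K (gr j)
  good : GoodFrom x gr 1
  maps : ∀ c, ShiftFrom (x c) gr gr 1 0
  pr_self : ∀ j, ∀ v ∈ gr j, pr j v = v
  pr_ne : ∀ i j, i ≠ j → ∀ v ∈ gr i, pr j v = 0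
  comm : Comm x d
  sq : ∀ v, d (d v) = 0
  d_mem : ShiftFrom d gr gr 0 0
  r_mem : ∀ j, 0 ≤ j → ∀ c, ∀ v ∈ gr (j + 1), r j c v ∈ gr j
  s_mem : ∀ j, 0 ≤ j → ∀ c, ∀ v ∈ gr (j + 2), s j c v ∈ gr (j + 1)
  r_x : ∀ j, 0 ≤ j → ∀ v ∈ gr j, ∑ c, r j c (x c v) = v
  x_s : ∀ j, 0 ≤ j → ∀ v ∈ gr (j + 2), ∑ c, x c (s j c v) = v
  split : ∀ j, 0 ≤ j → ∀ a b, ∀ v ∈ gr (j + 1),
    x a (r j b v) + s j a (x b v) = if a = b then v else 0

/-- a family of lattices preserved by all the operators -/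
structure Lat (R : Type) [CommRing R] [Algebra R K] [Module R V] [IsScalarTower R K V]
    (x : Fin 3 → V →ₗ[K] V) (gr : ℤ → Submodule K V) (d e : V →ₗ[K] V)
    (r s : ℤ → Fin 3 → V →ₗ[K] V) (Λ : ℤ → Submodule R V) : Prop where
  fg : ∀ j, (Λ j).FG
  span : ∀ j, Submodule.span K (Λ j : Set V) = gr j
  good : GoodFrom x Λ 1
  d_mem : ShiftFrom d Λ Λ 0 0
  e_mem : ShiftFrom e Λ Λ 2 0
  comm : Comm x e
  anti : ∀ v, d (e v) = -e (d v)
  r_mem : ∀ j, 0 ≤ j → ∀ c, ∀ v ∈ Λ (j + 1), r j c v ∈ Λ j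
  s_mem : ∀ j, 0 ≤ j → ∀ c, ∀ v ∈ Λ (j + 2), s j c v ∈ Λ (j + 1)

/-- the connecting operator -/
noncomputable def conn (d : V →ₗ[K] V) (r s : ℤ → Fin 3 → V →ₗ[K] V) (j : ℤ) : V →ₗ[K] V :=
  ∑ c, r j c ∘ₗ d ∘ₗ s j c

/-- the trace invariant -/
noncomputable def TT (gr : ℤ → Submodule K V) (d γ : V →ₗ[K] V) (r s : ℤ → Fin 3 → V →ₗ[K] V)
    (j : ℤ) : K := trOn (gr j) (conn d r s j ∘ₗ γ)

end Pool.Agent.Work.MP_910138_ag.C0
end

-- merged part: Pool.Agent.Work.MP_910138_ag.C0.HWin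
section
/-! The field `k(w)`, the rings `k[w]`, `k[1/w]` and the residue. -/

namespace Pool.Agent.Work.MP_910138_ag.C0

/-- `K` is the field of rational functions in a variable `w` -/
class HasVar (k K : Type) [Field k] [Field K] [Algebra k K] where
  w : K
  inj : Function.Injective (Polynomial.aeval (R := k) w)
  frac : ∀ c : K, ∃ p q : Polynomial k, q ≠ 0 ∧ c * Polynomial.aeval w q = Polynomial.aeval w p

theorem nonempty_hasVar (k : Type) [Field k] : Nonempty (HasVar k (RatFunc k)) := by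
  refine ⟨⟨RatFunc.X, fun p q h => ?_, fun c => ⟨c.num, c.denom, c.denom_ne_zero, ?_⟩⟩⟩
  · rw [RatFunc.aeval_X_left_eq_algebraMap, RatFunc.aeval_X_left_eq_algebraMap] at h
    exact RatFunc.algebraMap_injective k h
  · rw [RatFunc.aeval_X_left_eq_algebraMap, RatFunc.aeval_X_left_eq_algebraMap]
    exact ((div_eq_iff (RatFunc.algebraMap_ne_zero c.denom_ne_zero)).1 c.num_div_denom).symm

section
variable {k K : Type} [Field k] [Field K] [Algebra k K]

theorem hwin_reflect {u : K} (hu : u ≠ 0) {N : ℕ} {p : Polynomial k} (h : p.natDegree ≤ N) :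
    Polynomial.aeval u⁻¹ (p.reflect N) * u ^ N = Polynomial.aeval u p := by
  let _ := invertibleOfNonzero hu
  exact Polynomial.eval₂_reflect_mul_pow (algebraMap k K) u N p h

theorem hwin_fraction {u : K} (inj : Function.Injective (Polynomial.aeval (R := k) u))
    (frac : ∀ c : K, ∃ p q : Polynomial k, q ≠ 0 ∧
      c * Polynomial.aeval u q = Polynomial.aeval u p) :
    IsFractionRing (Polynomial.aeval (R := k) u).range K := by
  refine IsFractionRing.of_field _ _ fun c => ?_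
  obtain ⟨p, q, hq, h⟩ := frac c
  exact ⟨⟨_, p, rfl⟩, ⟨_, q, rfl⟩,
    (eq_div_iff fun e => hq (inj (e.trans (map_zero _).symm))).2 h⟩

theorem hwin_mem {u c : K} : c ∈ (Polynomial.aeval (R := k) u).range ↔
    c ∈ Submodule.span k (Set.range fun n : ℕ => u ^ n) := by
  rw [← Algebra.adjoin_singleton_eq_range_aeval, ← Subalgebra.mem_toSubmodule,
    Algebra.adjoin_eq_span, ← Submonoid.powers_eq_closure, Submonoid.coe_powers]

end

variable (k K : Type) [Field k] [Field K] [Algebra k K] [HasVar k K]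

/-- the variable -/
def ww : K := HasVar.w k

/-- polynomials in `w` -/
noncomputable def Rz : Subalgebra k K := (Polynomial.aeval (ww k K)).range

/-- polynomials in `1 / w` -/
noncomputable def Ri : Subalgebra k K := (Polynomial.aeval (ww k K)⁻¹).range

/-- Laurent polynomials with exponents in `S` -/
noncomputable def Win (S : Set ℤ) : Submodule k K :=
  Submodule.span k ((fun e : ℤ => ww k K ^ e) '' S)

theorem hwin_inj : Function.Injective (Polynomial.aeval (R := k) (ww k K)) := HasVar.inj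

theorem hwin_inj_inv : Function.Injective (Polynomial.aeval (R := k) (ww k K)⁻¹) :=
  transcendental_iff_injective.1 fun h =>
    transcendental_iff_injective.2 (hwin_inj k K) (IsAlgebraic.inv_iff.1 h)

theorem ww_ne_zero : ww k K ≠ 0 := by
  intro h
  exact Polynomial.X_ne_zero (hwin_inj k K (by rw [Polynomial.aeval_X, h, map_zero]))

instance : IsFractionRing (Rz k K) K := by
  exact hwin_fraction (hwin_inj k K) HasVar.frac

instance : IsFractionRing (Ri k K) K := by
  refine hwin_fraction (hwin_inj_inv k K) fun c => ?_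
  obtain ⟨p, q, hq, h⟩ := HasVar.frac (k := k) c
  refine ⟨p.reflect (max p.natDegree q.natDegree), q.reflect (max p.natDegree q.natDegree),
    by rwa [Ne, Polynomial.reflect_eq_zero_iff], ?_⟩
  apply mul_right_cancel₀ (pow_ne_zero (max p.natDegree q.natDegree) (ww_ne_zero k K))
  rw [mul_assoc, hwin_reflect (ww_ne_zero k K) (le_max_left _ _),
    hwin_reflect (ww_ne_zero k K) (le_max_right _ _)]
  exact h

instance : IsPrincipalIdealRing (Rz k K) := by
  exact IsPrincipalIdealRing.of_surjective _ (Polynomial.aeval (ww k K)).rangeRestrict_surjective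

instance : IsPrincipalIdealRing (Ri k K) := by
  exact IsPrincipalIdealRing.of_surjective _
    (Polynomial.aeval (ww k K)⁻¹).rangeRestrict_surjective

theorem sep_Rz_Ri : Sep (Rz k K) (Ri k K) (ww k K ^ 2) := by
  intro g₀ g₁ h₀ h₁
  have hw := ww_ne_zero k K
  obtain ⟨p, q, hq, h⟩ := HasVar.frac (k := k) (g₁ / g₀)
  change g₁ / g₀ * Polynomial.aeval (ww k K) q = Polynomial.aeval (ww k K) p at h
  have hp : p ≠ 0 := by
    rintro rfl
    rw [map_zero, mul_eq_zero] at h
    exact h.elim (div_ne_zero h₁ h₀) fun e => hq (hwin_inj k K (e.trans (map_zero _).symm))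
  refine ⟨q.natDegree + 1, ?_⟩
  rintro c ⟨a, ha⟩ ⟨b, hb⟩
  change Polynomial.aeval (ww k K) a = _ at ha
  change Polynomial.aeval (ww k K)⁻¹ b = _ at hb
  have e := hwin_reflect (inv_ne_zero hw) (le_refl b.natDegree)
  rw [inv_inv, hb, inv_pow, mul_inv_eq_iff_eq_mul₀ (pow_ne_zero _ hw)] at e
  have e2 : b.reflect b.natDegree * q =
      p * a * Polynomial.X ^ (2 * (q.natDegree + 1) + b.natDegree) := by
    apply hwin_inj k K
    rw [map_mul, map_mul, map_mul, map_pow, Polynomial.aeval_X, e, ← h, ha,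
      pow_add _ (2 * _), pow_mul]
    field_simp
  by_cases h0 : a = 0
  · rw [h0, map_zero] at ha
    exact (mul_eq_zero.1 ha.symm).resolve_left h₀
  have d1 := congrArg Polynomial.natDegree e2
  rw [Polynomial.natDegree_mul_X_pow _ (mul_ne_zero hp h0)] at d1
  have d2 := Polynomial.natDegree_mul_le (p := b.reflect b.natDegree) (q := q)
  have d3 := Polynomial.natDegree_reflect_le (N := b.natDegree) (p := b)
  rw [max_self] at d3
  omega

theorem exists_res : ∃ l : K →ₗ[k] k, ∀ e : ℤ, l (ww k K ^ e) = if e = -1 then 1 else 0 := by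
  have hw := ww_ne_zero k K
  have h0 : LinearIndependent k fun n : ℕ => ww k K ^ n := by
    have := (Polynomial.basisMonomials k).linearIndependent.map'
      (Polynomial.aeval (ww k K)).toLinearMap (LinearMap.ker_eq_bot.2 (hwin_inj k K))
    have e : (Polynomial.aeval (ww k K)).toLinearMap ∘ Polynomial.basisMonomials k =
        fun n : ℕ => ww k K ^ n := funext fun n => by simp
    exact e ▸ this
  have h1 : LinearIndependent k fun e : ℤ => ww k K ^ e := by
    rw [linearIndependent_iff_finset_linearIndependent]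
    intro s
    obtain ⟨N, hN⟩ := s.bddBelow
    have h2 := (h0.comp (fun e : s => (e.1 - N).toNat) fun a b h => by
      have := hN a.2
      have := hN b.2
      apply Subtype.ext
      simp only at h
      omega).map' (LinearMap.mulLeft k (ww k K ^ N))
      (LinearMap.ker_eq_bot.2 (mul_right_injective₀ (zpow_ne_zero _ hw)))
    refine (congrArg (fun v : s → K => LinearIndependent k v) (funext fun e => ?_)).mpr h2
    have := hN e.2
    simp only [Function.comp_apply, LinearMap.mulLeft_apply]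
    rw [← zpow_natCast, ← zpow_add₀ hw, Int.toNat_of_nonneg (by omega), add_sub_cancel]
  obtain ⟨l, hl⟩ := LinearMap.exists_extend (Finsupp.lapply (-1 : ℤ) ∘ₗ h1.repr)
  refine ⟨l, fun e => ?_⟩
  have := LinearMap.congr_fun hl ⟨ww k K ^ e, Submodule.subset_span ⟨e, rfl⟩⟩
  rw [LinearMap.comp_apply, LinearMap.comp_apply, h1.repr_eq_single e _ rfl, Finsupp.lapply_apply,
    Finsupp.single_apply] at this
  exact this

/-- the residue -/
noncomputable def resK : K →ₗ[k] k := (exists_res k K).choose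

theorem resK_zpow (e : ℤ) : resK k K (ww k K ^ e) = if e = -1 then 1 else 0 :=
  (exists_res k K).choose_spec e

variable {k K}

theorem mem_Rz {c : K} : c ∈ Rz k K ↔ c ∈ Win k K (Set.Ici 0) := by
  rw [Rz, hwin_mem, Win]
  congr! 2
  ext x
  constructor
  · rintro ⟨n, rfl⟩
    exact ⟨n, Int.natCast_nonneg n, zpow_natCast _ _⟩
  · rintro ⟨e, he, rfl⟩
    obtain ⟨n, rfl⟩ := Int.eq_ofNat_of_zero_le he
    exact ⟨n, (zpow_natCast _ _).symm⟩

theorem mem_Ri {c : K} : c ∈ Ri k K ↔ c ∈ Win k K (Set.Iic 0) := by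
  rw [Ri, hwin_mem, Win]
  congr! 2
  ext x
  constructor
  · rintro ⟨n, rfl⟩
    exact ⟨-n, by simp, by simp⟩
  · rintro ⟨e, he, rfl⟩
    obtain ⟨n, rfl⟩ := Int.exists_eq_neg_ofNat he
    exact ⟨n, by simp⟩

theorem resK_eq_zero {a b : K} (ha : a ∈ Rz k K) (hb : b ∈ Ri k K) :
    resK k K (a + (ww k K ^ 2)⁻¹ * b) = 0 := by
  have hw := ww_ne_zero k K
  have h1 : Win k K (Set.Ici 0) ≤ LinearMap.ker (resK k K) := by
    refine Submodule.span_le.2 ?_
    rintro _ ⟨e, he, rfl⟩
    have : (0 : ℤ) ≤ e := he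
    exact (resK_zpow k K e).trans (if_neg (by omega))
  have h2 : Win k K (Set.Iic 0) ≤
      LinearMap.ker (resK k K ∘ₗ LinearMap.mulLeft k (ww k K ^ 2)⁻¹) := by
    refine Submodule.span_le.2 ?_
    rintro _ ⟨e, he, rfl⟩
    have : e ≤ 0 := he
    change resK k K ((ww k K ^ 2)⁻¹ * ww k K ^ e) = 0
    rw [← zpow_natCast, ← zpow_neg, ← zpow_add₀ hw, resK_zpow]
    exact if_neg (by omega)
  rw [map_add, h1 (mem_Rz.1 ha), zero_add]
  exact h2 (mem_Ri.1 hb)

end Pool.Agent.Work.MP_910138_ag.C0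
end

-- merged part: Pool.Agent.Work.MP_910138_ag.C0.HPi
section
/-! The preprojective algebra `k⟨x₀, x₁, x₂⟩ / (x₀² + x₁² + x₂²)`. -/

namespace Pool.Agent.Work.MP_910138_ag.C0

/-- the properties of the preprojective algebra that are used -/
structure PiData (k P : Type) [Field k] [Ring P] [Algebra k P] where
  w : Wd →* P
  pr : ℤ → P →ₗ[k] P
  pr_w : ∀ (n : ℤ) (u : Wd), pr n (w u) = if (u.length : ℤ) = n then w u else 0
  span_top : Submodule.span k (Set.range w) = ⊤
  kos : Kos fun c => LinearMap.mulLeft k (w (FreeMonoid.of c))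
  desc : ∀ (N : Type) [AddCommGroup N] [Module k N] (f : Wd → N),
    (∀ u v : Wd, ∑ c, f (u * FreeMonoid.of c * FreeMonoid.of c * v) = 0) →
      ∃ l : P →ₗ[k] N, ∀ u, l (w u) = f u

/-- words in the free algebra -/
noncomputable def hpi_e (k : Type) [Field k] : Wd →* MonoidAlgebra k Wd := MonoidAlgebra.of k Wd

/-- the linear map with given values on words -/
noncomputable def hpi_lin (k : Type) [Field k] {N : Type} [AddCommGroup N] [Module k N]
    (f : Wd → N) : MonoidAlgebra k Wd →ₗ[k] N := (MonoidAlgebra.basis Wd k).constr k f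

theorem hpi_basis (k : Type) [Field k] (u : Wd) : MonoidAlgebra.basis Wd k u = hpi_e k u :=
  MonoidAlgebra.basis_apply k u

theorem hpi_lin_e (k : Type) [Field k] {N : Type} [AddCommGroup N] [Module k N]
    (f : Wd → N) (u : Wd) : hpi_lin k f (hpi_e k u) = f u := by
  rw [← hpi_basis, hpi_lin, Module.Basis.constr_basis]

theorem hpi_ext (k : Type) [Field k] {N : Type} [AddCommGroup N] [Module k N]
    {f g : MonoidAlgebra k Wd →ₗ[k] N} (h : ∀ u, f (hpi_e k u) = g (hpi_e k u)) : f = g :=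
  (MonoidAlgebra.basis Wd k).ext fun u => by rw [hpi_basis]; exact h u

theorem hpi_span (k : Type) [Field k] : Submodule.span k (Set.range (hpi_e k)) = ⊤ := by
  have h := (MonoidAlgebra.basis Wd k).span_eq
  have e : (MonoidAlgebra.basis Wd k : Wd → MonoidAlgebra k Wd) = hpi_e k := funext (hpi_basis k)
  rwa [e] at h

/-- the relations -/
noncomputable def hpi_rel (k : Type) [Field k] (u v : Wd) : MonoidAlgebra k Wd :=
  ∑ c, hpi_e k (u * FreeMonoid.of c * FreeMonoid.of c * v)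

/-- the span of the relations -/
noncomputable def hpi_sub (k : Type) [Field k] : Submodule k (MonoidAlgebra k Wd) :=
  Submodule.span k {a | ∃ u v, hpi_rel k u v = a}

theorem hpi_rel_mem (k : Type) [Field k] (u v : Wd) : hpi_rel k u v ∈ hpi_sub k :=
  Submodule.subset_span ⟨u, v, rfl⟩

theorem hpi_e_mul_rel (k : Type) [Field k] (t u v : Wd) :
    hpi_e k t * hpi_rel k u v = hpi_rel k (t * u) v := by
  simp only [hpi_rel, Finset.mul_sum, ← map_mul, mul_assoc]

theorem hpi_rel_mul_e (k : Type) [Field k] (t u v : Wd) :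
    hpi_rel k u v * hpi_e k t = hpi_rel k u (v * t) := by
  simp only [hpi_rel, Finset.sum_mul, ← map_mul, mul_assoc]

theorem hpi_mul_mem (k : Type) [Field k] (a b : MonoidAlgebra k Wd) (hb : b ∈ hpi_sub k) :
    a * b ∈ hpi_sub k ∧ b * a ∈ hpi_sub k := by
  have ha : a ∈ Submodule.span k (Set.range (hpi_e k)) := by rw [hpi_span]; trivial
  induction ha using Submodule.span_induction with
  | mem a ha =>
    obtain ⟨t, rfl⟩ := ha
    induction hb using Submodule.span_induction with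
    | mem b hb =>
      obtain ⟨u, v, rfl⟩ := hb
      rw [hpi_e_mul_rel, hpi_rel_mul_e]
      exact ⟨hpi_rel_mem k _ _, hpi_rel_mem k _ _⟩
    | zero => simp
    | add x y _ _ hx hy =>
      rw [mul_add, add_mul]
      exact ⟨add_mem hx.1 hy.1, add_mem hx.2 hy.2⟩
    | smul c x _ hx =>
      rw [mul_smul_comm, smul_mul_assoc]
      exact ⟨Submodule.smul_mem _ _ hx.1, Submodule.smul_mem _ _ hx.2⟩
  | zero => simp
  | add x y _ _ hx hy =>
    rw [mul_add, add_mul]
    exact ⟨add_mem hx.1 hy.1, add_mem hx.2 hy.2⟩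
  | smul c x _ hx =>
    rw [mul_smul_comm, smul_mul_assoc]
    exact ⟨Submodule.smul_mem _ _ hx.1, Submodule.smul_mem _ _ hx.2⟩

/-- the ideal of relations -/
noncomputable def hpi_ideal (k : Type) [Field k] : Ideal (MonoidAlgebra k Wd) where
  carrier := hpi_sub k
  add_mem' := fun ha hb => (hpi_sub k).add_mem ha hb
  zero_mem' := (hpi_sub k).zero_mem
  smul_mem' := fun a b hb => (hpi_mul_mem k a b hb).1

theorem hpi_twoSided (k : Type) [Field k] : (hpi_ideal k).IsTwoSided :=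
  ⟨fun b ha => (hpi_mul_mem k b _ ha).2⟩

/-- the left derivative of a word -/
noncomputable def hpi_dw (k : Type) [Field k] (a : Fin 3) : List (Fin 3) → MonoidAlgebra k Wd
  | [] => 0
  | b :: u => if b = a then hpi_e k (FreeMonoid.ofList u) else 0

/-- the left derivative -/
noncomputable def hpi_D (k : Type) [Field k] (a : Fin 3) :
    MonoidAlgebra k Wd →ₗ[k] MonoidAlgebra k Wd := hpi_lin k fun u => hpi_dw k a u.toList

theorem hpi_D_mul (k : Type) [Field k] (a c : Fin 3) (f : MonoidAlgebra k Wd) :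
    hpi_D k a (hpi_e k (FreeMonoid.of c) * f) = if c = a then f else 0 := by
  have h : hpi_D k a ∘ₗ LinearMap.mulLeft k (hpi_e k (FreeMonoid.of c)) =
      if c = a then LinearMap.id else 0 := by
    refine hpi_ext k fun u => ?_
    rw [LinearMap.comp_apply, LinearMap.mulLeft_apply, ← map_mul, hpi_D, hpi_lin_e,
      FreeMonoid.toList_of_mul, hpi_dw, FreeMonoid.ofList_toList]
    split_ifs <;> rfl
  have h2 := LinearMap.congr_fun h f
  rw [LinearMap.comp_apply, LinearMap.mulLeft_apply] at h2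
  rw [h2]
  split_ifs <;> rfl

theorem hpi_D_sub (k : Type) [Field k] (i : MonoidAlgebra k Wd) (hi : i ∈ hpi_sub k) :
    ∃ u, ∀ a, hpi_D k a i - hpi_e k (FreeMonoid.of a) * u ∈ hpi_sub k := by
  induction hi using Submodule.span_induction with
  | mem b hb =>
    obtain ⟨u, v, rfl⟩ := hb
    induction u using FreeMonoid.casesOn with
    | one =>
      refine ⟨hpi_e k v, fun a => ?_⟩
      have h : hpi_D k a (hpi_rel k 1 v) = hpi_e k (FreeMonoid.of a) * hpi_e k v := by
        simp only [hpi_rel, map_sum, one_mul, mul_assoc, map_mul, hpi_D_mul]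
        simp
      rw [h, sub_self]
      exact zero_mem _
    | of_mul b u =>
      refine ⟨0, fun a => ?_⟩
      rw [← hpi_e_mul_rel, hpi_D_mul, mul_zero, sub_zero]
      split_ifs
      · exact hpi_rel_mem k _ _
      · exact zero_mem _
  | zero => exact ⟨0, fun a => by simp⟩
  | add x y _ _ hx hy =>
    obtain ⟨u, hu⟩ := hx
    obtain ⟨v, hv⟩ := hy
    refine ⟨u + v, fun a => ?_⟩
    have h := add_mem (hu a) (hv a)
    convert h using 1
    rw [map_add, mul_add]
    abel
  | smul c x _ hx =>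
    obtain ⟨u, hu⟩ := hx
    refine ⟨c • u, fun a => ?_⟩
    have h := Submodule.smul_mem _ c (hu a)
    convert h using 1
    rw [map_smul, mul_smul_comm, smul_sub]

theorem hpi_inj {k P : Type} [Field k] [Ring P] [Algebra k P] (w : Wd →* P) (pr : ℤ → P →ₗ[k] P)
    (pr_w : ∀ (n : ℤ) (u : Wd), pr n (w u) = if (u.length : ℤ) = n then w u else 0)
    (span_top : Submodule.span k (Set.range w) = ⊤)
    (ex : ∀ t : Fin 3 → P, ∑ c, w (FreeMonoid.of c) * t c = 0 →
      ∃ u, ∀ c, t c = w (FreeMonoid.of c) * u) (c : Fin 3) (v : P)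
    (hv : w (FreeMonoid.of c) * v = 0) : v = 0 := by
  have ext : ∀ f g : P →ₗ[k] P, (∀ u, f (w u) = g (w u)) → ∀ s, f s = g s := fun f g h =>
    LinearMap.congr_fun (LinearMap.ext_on_range span_top h)
  have shift : ∀ (n : ℤ) (a : Fin 3) (s : P),
      pr (n + 1) (w (FreeMonoid.of a) * s) = w (FreeMonoid.of a) * pr n s := fun n a =>
    ext (pr (n + 1) ∘ₗ LinearMap.mulLeft k (w (FreeMonoid.of a)))
      (LinearMap.mulLeft k (w (FreeMonoid.of a)) ∘ₗ pr n) fun u => by
      simp only [LinearMap.comp_apply, LinearMap.mulLeft_apply, ← map_mul, pr_w,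
        FreeMonoid.length_mul, FreeMonoid.length_of]
      by_cases h : (u.length : ℤ) = n
      · rw [if_pos h, if_pos (by push_cast; omega), map_mul]
      · rw [if_neg h, if_neg (by push_cast; omega), mul_zero]
  have idem : ∀ (n : ℤ) (s : P), pr n (pr n s) = pr n s := fun n =>
    ext (pr n ∘ₗ pr n) (pr n) fun u => by
      simp only [LinearMap.comp_apply, pr_w]
      split_ifs with h
      · rw [pr_w, if_pos h]
      · rw [map_zero]
  have neg : ∀ s : P, pr (-1) s = 0 :=
    ext (pr (-1)) 0 fun u => by rw [pr_w, if_neg (by omega)]; rfl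
  have hom : ∀ (n : ℕ) (a : Fin 3) (s : P), pr ((n : ℤ) - 1) s = s →
      w (FreeMonoid.of a) * s = 0 → s = 0 := by
    intro n
    induction n with
    | zero => intro a s hs _; rw [← hs]; exact neg s
    | succ n ih =>
      intro a s hs h0
      obtain ⟨u, hu⟩ := ex (Pi.single a s) (by
        rw [Finset.sum_eq_single a (fun b _ hb => by simp [Pi.single_eq_of_ne hb]) (by simp),
          Pi.single_eq_same, h0])
      obtain ⟨b, hb⟩ := exists_ne a
      have h1 := hu a
      have h2 := hu b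
      rw [Pi.single_eq_same] at h1
      rw [Pi.single_eq_of_ne hb] at h2
      have e : ((n + 1 : ℕ) : ℤ) - 1 = (n : ℤ) - 1 + 1 := by push_cast; ring
      have h3 : pr ((n : ℤ) - 1) u = 0 := by
        refine ih b _ (idem _ _) ?_
        rw [← shift, ← h2, map_zero]
      rw [← hs, h1, e, shift, h3, mul_zero]
  have tot : ∀ s : P, ∃ N : ℕ, ∀ M, N ≤ M → ∑ n ∈ Finset.range M, pr n s = s := by
    intro s
    have hs : s ∈ Submodule.span k (Set.range w) := by rw [span_top]; trivial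
    induction hs using Submodule.span_induction with
    | mem s hs =>
      obtain ⟨u, rfl⟩ := hs
      refine ⟨u.length + 1, fun M hM => ?_⟩
      rw [Finset.sum_eq_single u.length (fun b _ hb => by rw [pr_w, if_neg (by omega)])
        (fun h => absurd (Finset.mem_range.2 (by omega)) h), pr_w, if_pos rfl]
    | zero => exact ⟨0, fun M _ => by simp⟩
    | add x y _ _ hx hy =>
      obtain ⟨N₁, h₁⟩ := hx
      obtain ⟨N₂, h₂⟩ := hy
      refine ⟨max N₁ N₂, fun M hM => ?_⟩
      simp only [map_add, Finset.sum_add_distrib, h₁ M (le_of_max_le_left hM),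
        h₂ M (le_of_max_le_right hM)]
    | smul a x _ hx =>
      obtain ⟨N, h⟩ := hx
      refine ⟨N, fun M hM => ?_⟩
      simp only [map_smul, ← Finset.smul_sum, h M hM]
  obtain ⟨N, hN⟩ := tot v
  rw [← hN N le_rfl]
  refine Finset.sum_eq_zero fun n _ => hom (n + 1) c _ ?_ ?_
  · have e : ((n + 1 : ℕ) : ℤ) - 1 = n := by push_cast; ring
    rw [e, idem]
  · rw [← shift, hv, map_zero]

theorem hpi_of_quot {k P : Type} [Field k] [Ring P] [Algebra k P]
    (π : MonoidAlgebra k Wd →ₐ[k] P) (hs : Function.Surjective π)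
    (hk : ∀ a, π a = 0 ↔ a ∈ hpi_sub k) : Nonempty (PiData k P) := by
  let w : Wd →* P := (π : MonoidAlgebra k Wd →* P).comp (hpi_e k)
  have hw : ∀ u, w u = π (hpi_e k u) := fun _ => rfl
  obtain ⟨g, hg⟩ := π.toLinearMap.exists_rightInverse_of_surjective
    (LinearMap.range_eq_top.2 hs)
  have hg' : ∀ p, π (g p) = p := fun p => LinearMap.congr_fun hg p
  have desc : ∀ (N : Type) [AddCommGroup N] [Module k N] (f : Wd → N),
      (∀ u v : Wd, ∑ c, f (u * FreeMonoid.of c * FreeMonoid.of c * v) = 0) →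
        ∃ l : P →ₗ[k] N, ∀ u, l (w u) = f u := by
    intro N _ _ f hf
    have hker : hpi_sub k ≤ LinearMap.ker (hpi_lin k f) := by
      refine Submodule.span_le.2 ?_
      rintro _ ⟨u, v, rfl⟩
      simp only [SetLike.mem_coe, LinearMap.mem_ker, hpi_rel, map_sum, hpi_lin_e, hf]
    refine ⟨hpi_lin k f ∘ₗ g, fun u => ?_⟩
    have h1 : g (w u) - hpi_e k u ∈ hpi_sub k := by
      rw [← hk, map_sub, hg', hw, sub_self]
    have h2 := hker h1
    rw [LinearMap.mem_ker, map_sub, sub_eq_zero, hpi_lin_e] at h2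
    exact h2
  have hrel : ∀ u v : Wd, ∑ c, w (u * FreeMonoid.of c * FreeMonoid.of c * v) = 0 := fun u v => by
    have h := (hk _).2 (hpi_rel_mem k u v)
    rw [hpi_rel, map_sum] at h
    exact h
  have hpr : ∀ n : ℤ, ∃ l : P →ₗ[k] P,
      ∀ u : Wd, l (w u) = if (u.length : ℤ) = n then w u else 0 := fun n => by
    refine desc P _ fun u v => ?_
    simp only [FreeMonoid.length_mul, FreeMonoid.length_of]
    split_ifs
    · exact hrel u v
    · simp
  choose pr pr_w using hpr
  have span_top : Submodule.span k (Set.range w) = ⊤ := by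
    have h := congrArg (Submodule.map π.toLinearMap) (hpi_span k)
    rw [Submodule.map_span, Submodule.map_top, LinearMap.range_eq_top.2 hs, ← Set.range_comp] at h
    exact h
  have ex : ∀ t : Fin 3 → P, ∑ c, w (FreeMonoid.of c) * t c = 0 →
      ∃ u, ∀ c, t c = w (FreeMonoid.of c) * u := by
    intro t ht
    have h1 : ∑ c, hpi_e k (FreeMonoid.of c) * g (t c) ∈ hpi_sub k := by
      rw [← hk]
      simp only [map_sum, map_mul, hg', ← hw, ht]
    obtain ⟨u, hu⟩ := hpi_D_sub k _ h1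
    refine ⟨π u, fun c => ?_⟩
    have h2 := (hk _).2 (hu c)
    simp only [map_sum, hpi_D_mul, Finset.sum_ite_eq', Finset.mem_univ, if_true, map_sub, map_mul,
      hg', sub_eq_zero] at h2
    exact h2
  refine ⟨⟨w, pr, pr_w, span_top, ⟨fun v hv => ?_, fun v => ?_, ex⟩, desc⟩⟩
  · exact hpi_inj w pr pr_w span_top ex 0 v (hv 0)
  · have h := hrel 1 1
    simp only [one_mul, mul_one, map_mul] at h
    simp only [LinearMap.mulLeft_apply, ← mul_assoc, ← Finset.sum_mul, h, zero_mul]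

theorem exists_piData (k : Type) [Field k] :
    ∃ (P : Type) (_ : Ring P) (_ : Algebra k P), Nonempty (PiData k P) := by
  have := hpi_twoSided k
  exact ⟨MonoidAlgebra k Wd ⧸ hpi_ideal k, inferInstance, inferInstance,
    hpi_of_quot (Ideal.Quotient.mkₐ k (hpi_ideal k)) (Ideal.Quotient.mkₐ_surjective k _)
      fun a => Ideal.Quotient.eq_zero_iff_mem⟩

variable {k P : Type} [Field k] [Ring P] [Algebra k P] (Q : PiData k P)

/-- the letters -/
def PiData.x (c : Fin 3) : P := Q.w (FreeMonoid.of c)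

/-- the homogeneous components -/
def PiData.gr (n : ℤ) : Submodule k P :=
  Submodule.span k {p | ∃ u : Wd, (u.length : ℤ) = n ∧ Q.w u = p}

/-- splittings of the Koszul sequences `gr (n - 1) → (gr n)^3 → gr (n + 1)` -/
structure PiData.Split (r s : ℤ → Fin 3 → P →ₗ[k] P) : Prop where
  r_mem : ∀ n m, m + 1 = n → ∀ c, ∀ v ∈ Q.gr n, r n c v ∈ Q.gr m
  s_mem : ∀ n m, n + 1 = m → ∀ c, ∀ v ∈ Q.gr m, s n c v ∈ Q.gr n
  r_x : ∀ n m, m + 1 = n → ∀ v ∈ Q.gr m, ∑ c, r n c (Q.x c * v) = v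
  x_s : ∀ n m, 0 ≤ n → n + 1 = m → ∀ v ∈ Q.gr m, ∑ c, Q.x c * s n c v = v
  split : ∀ n, 0 ≤ n → ∀ a b, ∀ v ∈ Q.gr n,
    Q.x a * r n b v + s n a (Q.x b * v) = if a = b then v else 0
  r_one : ∀ a b, r 1 b (Q.x a) = if a = 0 ∧ b = 0 then 1 else 0
  s_zero : ∀ a b, s 0 b (Q.x a) = if a = b then 1 else 0

end Pool.Agent.Work.MP_910138_ag.C0
end

-- merged part: Pool.Agent.Work.MP_910138_ag.C0.HPi2
section
/-! The grading of the preprojective algebra and the splittings. -/

namespace Pool.Agent.Work.MP_910138_ag.C0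

variable {k P : Type} [Field k] [Ring P] [Algebra k P] (Q : PiData k P)

theorem PiData.w_mem (u : Wd) : Q.w u ∈ Q.gr u.length :=
  Submodule.subset_span ⟨u, rfl, rfl⟩

theorem PiData.gr_neg {n : ℤ} (h : n < 0) : Q.gr n = ⊥ := by
  rw [PiData.gr, Submodule.span_eq_bot]
  rintro _ ⟨u, hu, rfl⟩
  omega

theorem PiData.mem_gr_zero {p : P} : p ∈ Q.gr 0 ↔ ∃ c : k, p = c • (1 : P) := by
  have : {p | ∃ u : Wd, (u.length : ℤ) = 0 ∧ Q.w u = p} = {1} := by
    ext p
    simp [FreeMonoid.length_eq_zero, eq_comm (a := p)]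
  rw [PiData.gr, this, Submodule.mem_span_singleton]
  exact exists_congr fun _ => eq_comm

theorem PiData.mem_gr_one {p : P} : p ∈ Q.gr 1 ↔ ∃ c : Fin 3 → k, p = ∑ a, c a • Q.x a := by
  have : {p | ∃ u : Wd, (u.length : ℤ) = 1 ∧ Q.w u = p} = Set.range Q.x := by
    ext p
    constructor
    · rintro ⟨u, hu, rfl⟩
      obtain ⟨c, rfl⟩ := FreeMonoid.length_eq_one.1 (by exact_mod_cast hu : u.length = 1)
      exact ⟨c, rfl⟩
    · rintro ⟨c, rfl⟩
      exact ⟨FreeMonoid.of c, rfl, rfl⟩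
  rw [PiData.gr, this, Submodule.mem_span_range_iff_exists_fun]
  exact exists_congr fun _ => eq_comm

open Classical in
/-- the coefficient of a word of length at most one -/
theorem PiData.hpi2_coeff (u₀ : Wd) (h : u₀.length ≤ 1) :
    ∃ l : P →ₗ[k] k, ∀ u, l (Q.w u) = if u = u₀ then 1 else 0 := by
  refine Q.desc k _ fun u v => Finset.sum_eq_zero fun c _ => if_neg fun e => ?_
  have := congrArg FreeMonoid.length e
  simp only [FreeMonoid.length_mul, FreeMonoid.length_of] at this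
  omega

include Q in
theorem PiData.one_ne_zero : (1 : P) ≠ 0 := by
  obtain ⟨l, hl⟩ := Q.hpi2_coeff 1 (by simp)
  intro h
  have := hl 1
  rw [map_one, h, map_zero, if_pos rfl] at this
  exact zero_ne_one this

theorem PiData.mul_mem {n m l : ℤ} (h : n + m = l) {p q : P} (hp : p ∈ Q.gr n) (hq : q ∈ Q.gr m) :
    p * q ∈ Q.gr l := by
  have := Submodule.mul_mem_mul hp hq
  rw [PiData.gr, PiData.gr, Submodule.span_mul_span] at this
  refine Submodule.span_mono ?_ this
  rintro _ ⟨_, ⟨u, hu, rfl⟩, _, ⟨v, hv, rfl⟩, rfl⟩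
  refine ⟨u * v, ?_, map_mul _ _ _⟩
  rw [FreeMonoid.length_mul, Nat.cast_add, hu, hv, h]

instance PiData.finite_gr (n : ℤ) : FiniteDimensional k (Q.gr n) := by
  refine FiniteDimensional.span_of_finite k ?_
  refine (((List.finite_length_eq (Fin 3) n.toNat).image FreeMonoid.ofList).image Q.w).subset ?_
  rintro _ ⟨u, hu, rfl⟩
  refine ⟨u, ⟨u.toList, ?_, rfl⟩, rfl⟩
  change u.length = n.toNat
  omega

theorem PiData.pr_mem (n : ℤ) (p : P) : Q.pr n p ∈ Q.gr n := by
  have : Submodule.span k (Set.range Q.w) ≤ (Q.gr n).comap (Q.pr n) := by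
    rw [Submodule.span_le]
    rintro _ ⟨u, rfl⟩
    change Q.pr n (Q.w u) ∈ Q.gr n
    rw [Q.pr_w]
    split_ifs with h
    · exact h ▸ Q.w_mem u
    · exact zero_mem _
  exact this (Q.span_top ▸ Submodule.mem_top)

theorem PiData.pr_self {n : ℤ} {p : P} (hp : p ∈ Q.gr n) : Q.pr n p = p := by
  refine LinearMap.eqOn_span (f := Q.pr n) (g := LinearMap.id) ?_ hp
  rintro _ ⟨u, hu, rfl⟩
  rw [Q.pr_w, if_pos hu, LinearMap.id_apply]

theorem PiData.pr_ne {n m : ℤ} (h : n ≠ m) {p : P} (hp : p ∈ Q.gr n) : Q.pr m p = 0 := by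
  refine LinearMap.eqOn_span (f := Q.pr m) (g := 0) ?_ hp
  rintro _ ⟨u, hu, rfl⟩
  rw [Q.pr_w, if_neg (hu ▸ h), LinearMap.zero_apply]

theorem PiData.pr_x_mul {n m : ℤ} (h : n + 1 = m) (c : Fin 3) (p : P) :
    Q.pr m (Q.x c * p) = Q.x c * Q.pr n p := by
  refine LinearMap.congr_fun (LinearMap.ext_on_range (f := Q.pr m ∘ₗ LinearMap.mulLeft k (Q.x c))
    (g := LinearMap.mulLeft k (Q.x c) ∘ₗ Q.pr n) Q.span_top fun u => ?_) p
  simp only [LinearMap.comp_apply, LinearMap.mulLeft_apply, PiData.x, Q.pr_w, ← map_mul,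
    FreeMonoid.length_mul, FreeMonoid.length_of]
  by_cases hu : (u.length : ℤ) = n
  · rw [if_pos hu, if_pos (by push_cast; omega), map_mul]
  · rw [if_neg hu, if_neg (by push_cast; omega), mul_zero]

theorem PiData.hpi2_x_mem (c : Fin 3) : Q.x c ∈ Q.gr 1 := Q.w_mem (FreeMonoid.of c)

/-- a retraction of an exact sequence gives a section -/
theorem hpi2_section {A B C : Type} [AddCommGroup A] [Module k A] [AddCommGroup B] [Module k B]
    [AddCommGroup C] [Module k C] (i : A →ₗ[k] B) (π : B →ₗ[k] C) (ρ : B →ₗ[k] A)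
    (hρ : ∀ a, ρ (i a) = a) (hk : ∀ b, π b = 0 → ∃ a, i a = b) :
    ∃ σ : C →ₗ[k] B, ∀ b, i (ρ b) + σ (π b) = b := by
  have h : LinearMap.ker π ≤ LinearMap.ker (LinearMap.id - i ∘ₗ ρ) := fun b hb => by
    obtain ⟨a, rfl⟩ := hk b hb
    simp [hρ]
  obtain ⟨σ, hσ⟩ := LinearMap.exists_extend
    ((LinearMap.ker π).liftQ _ h ∘ₗ π.quotKerEquivRange.symm.toLinearMap)
  refine ⟨σ, fun b => ?_⟩
  have := LinearMap.congr_fun hσ ⟨π b, b, rfl⟩
  simp only [LinearMap.comp_apply, Submodule.subtype_apply, LinearEquiv.coe_coe,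
    LinearMap.quotKerEquivRange_symm_apply_image, Submodule.mkQ_apply, Submodule.liftQ_apply,
    LinearMap.sub_apply, LinearMap.id_apply] at this
  rw [this, add_sub_cancel]

theorem PiData.hpi2_r : ∃ r : Fin 3 → P →ₗ[k] P, ∀ v, ∑ c, r c (Q.x c * v) = v := by
  obtain ⟨ρ, hρ⟩ := LinearMap.exists_leftInverse_of_injective
    (LinearMap.pi fun c => LinearMap.mulLeft k (Q.x c))
    (LinearMap.ker_eq_bot'.2 fun v hv => Q.kos.inj v fun c => congrFun hv c)
  refine ⟨fun c => ρ ∘ₗ LinearMap.single k (fun _ => P) c, fun v => ?_⟩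
  simp only [LinearMap.comp_apply, LinearMap.coe_single]
  rw [← map_sum, Finset.univ_sum_single fun c => Q.x c * v]
  exact LinearMap.congr_fun hρ v

theorem PiData.hpi2_s {r : Fin 3 → P →ₗ[k] P} (hr : ∀ v, ∑ c, r c (Q.x c * v) = v) :
    ∃ s : Fin 3 → P →ₗ[k] P,
      ∀ a b v, Q.x a * r b v + s a (Q.x b * v) = if a = b then v else 0 := by
  obtain ⟨σ, hσ⟩ := hpi2_section (LinearMap.pi fun c => LinearMap.mulLeft k (Q.x c))
    (∑ c, LinearMap.mulLeft k (Q.x c) ∘ₗ LinearMap.proj c) (∑ c, r c ∘ₗ LinearMap.proj c)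
    (fun v => by simpa using hr v) fun t ht => by
      obtain ⟨u, hu⟩ := Q.kos.ex t (by simpa [PiData.x] using ht)
      exact ⟨u, funext fun c => (hu c).symm⟩
  refine ⟨fun a => LinearMap.proj a ∘ₗ σ, fun a b v => ?_⟩
  have h1 : (∑ c, r c ∘ₗ LinearMap.proj c : (Fin 3 → P) →ₗ[k] P) (Pi.single b v) = r b v := by
    rw [LinearMap.sum_apply, Finset.sum_eq_single b] <;> simp +contextual
  have h2 : (∑ c, LinearMap.mulLeft k (Q.x c) ∘ₗ LinearMap.proj c : (Fin 3 → P) →ₗ[k] P)
      (Pi.single b v) = Q.x b * v := by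
    rw [LinearMap.sum_apply, Finset.sum_eq_single b] <;> simp +contextual
  have := congrFun (hσ (Pi.single b v)) a
  rw [h1, h2, Pi.single_apply] at this
  exact this

/-- a retraction with the prescribed values on the letters -/
theorem PiData.hpi2_r' : ∃ r : Fin 3 → P →ₗ[k] P, (∀ v, ∑ c, r c (Q.x c * v) = v) ∧
    ∀ a b, r b (Q.x a) = if a = 0 ∧ b = 0 then 1 else 0 := by
  obtain ⟨r, hr⟩ := Q.hpi2_r
  obtain ⟨l, hl⟩ := Q.hpi2_coeff (FreeMonoid.of 0) le_rfl
  have hl' : ∀ a, l (Q.x a) = if a = 0 then 1 else 0 := fun a => by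
    rw [PiData.x, hl]
    simp only [FreeMonoid.of_injective.eq_iff]
  refine ⟨fun c => r c ∘ₗ (LinearMap.id - Q.pr 1) +
    (if c = 0 then l.smulRight 1 else 0) ∘ₗ Q.pr 1, fun v => ?_, fun a b => ?_⟩
  · obtain ⟨t, ht⟩ := Q.mem_gr_zero.1 (Q.pr_mem 0 v)
    simp only [LinearMap.add_apply, LinearMap.comp_apply, LinearMap.sub_apply, LinearMap.id_apply,
      Q.pr_x_mul (zero_add 1), ← mul_sub, Finset.sum_add_distrib, hr]
    rw [Finset.sum_eq_single 0, ht] <;> simp +contextual [hl']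
  · simp only [LinearMap.add_apply, LinearMap.comp_apply, LinearMap.sub_apply, LinearMap.id_apply,
      Q.pr_self (Q.hpi2_x_mem a), sub_self, map_zero, zero_add]
    by_cases ha : a = 0 <;> by_cases hb : b = 0 <;> simp [ha, hb, hl']

/-- elements of positive degree are combinations of the letters -/
theorem PiData.hpi2_decomp {n m : ℤ} (hn : 0 ≤ n) (h : n + 1 = m) {v : P} (hv : v ∈ Q.gr m) :
    v ∈ Submodule.span k {p | ∃ b, ∃ y ∈ Q.gr n, Q.x b * y = p} := by
  refine Submodule.span_mono ?_ hv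
  rintro _ ⟨u, hu, rfl⟩
  induction u using FreeMonoid.inductionOn' with
  | one =>
    rw [FreeMonoid.length_one] at hu
    omega
  | of_mul b u _ =>
    refine ⟨b, Q.w u, ?_, (map_mul _ _ _).symm⟩
    rw [FreeMonoid.length_mul, FreeMonoid.length_of] at hu
    have : (u.length : ℤ) = n := by omega
    exact this ▸ Q.w_mem u

theorem PiData.exists_split : ∃ r s, Q.Split r s := by
  obtain ⟨r, hr, hr1⟩ := Q.hpi2_r'
  obtain ⟨s, hs⟩ := Q.hpi2_s hr
  have h1 : (1 : P) ∈ Q.gr 0 := Q.mem_gr_zero.2 ⟨1, (one_smul _ _).symm⟩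
  have hsp : ∀ n a b, ∀ v ∈ Q.gr n, Q.x a * Q.pr (n - 1) (r b v) + Q.pr n (s a (Q.x b * v)) =
      if a = b then v else 0 := fun n a b v hv => by
    rw [← Q.pr_x_mul (sub_add_cancel n 1), ← map_add, hs]
    split_ifs
    exacts [Q.pr_self hv, map_zero _]
  refine ⟨fun n c => Q.pr (n - 1) ∘ₗ r c, fun n c => Q.pr n ∘ₗ s c, ?_, ?_, ?_, ?_,
    fun n _ => hsp n, ?_, ?_⟩
  · rintro _ m rfl c v -
    rw [add_sub_cancel_right]
    exact Q.pr_mem _ _
  · exact fun n _ _ c v _ => Q.pr_mem _ _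
  · rintro _ m rfl v hv
    simp only [LinearMap.comp_apply, add_sub_cancel_right]
    rw [← map_sum, hr, Q.pr_self hv]
  · intro n m hn h v hv
    refine (LinearMap.eqOn_span (f := ∑ c, LinearMap.mulLeft k (Q.x c) ∘ₗ Q.pr n ∘ₗ s c)
      (g := LinearMap.id) ?_ (Q.hpi2_decomp hn h hv)).symm.trans (LinearMap.sum_apply _ _ _)
        |>.symm
    rintro _ ⟨b, y, hy, rfl⟩
    have h2 : ∑ c, Q.x c * (Q.x c * Q.pr (n - 1) (r b y)) = 0 := Q.kos.sq _
    simp only [LinearMap.sum_apply, LinearMap.comp_apply, LinearMap.mulLeft_apply,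
      LinearMap.id_apply, fun c => eq_sub_of_add_eq' (hsp n c b y hy), mul_sub,
      Finset.sum_sub_distrib, h2]
    simp
  · intro a b
    rw [LinearMap.comp_apply, hr1, sub_self]
    split_ifs
    exacts [Q.pr_self h1, map_zero _]
  · intro a b
    have h2 := hsp 0 b a 1 h1
    have h3 := Q.pr_mem (0 - 1) (r a 1)
    rw [Q.gr_neg (by norm_num), Submodule.mem_bot] at h3
    rw [h3, mul_zero, zero_add, mul_one] at h2
    rw [LinearMap.comp_apply, h2]
    simp only [eq_comm]

/-- splittings that ignore the grading -/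
theorem PiData.exists_global_split : ∃ r s : Fin 3 → P →ₗ[k] P,
    (∀ v, ∑ c, r c (Q.x c * v) = v) ∧
      ∀ a b v, Q.x a * r b v + s a (Q.x b * v) = if a = b then v else 0 := by
  obtain ⟨r, hr⟩ := Q.hpi2_r
  obtain ⟨s, hs⟩ := Q.hpi2_s hr
  exact ⟨r, s, hr, hs⟩

end Pool.Agent.Work.MP_910138_ag.C0
end
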